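import Pool.Agent.Lib.MP_7ed9c3_nt.Tp.SpecG

/-! # MP_7ed9c3_nt, Tp, module AbsW: the zeros of one window as a finite family -/

set_option autoImplicit false

namespace MP7ed9c3.Tp

open MeasureTheory Metric MP7ed9c3.Aw

private theorem AbsW_nd (q : ℝ) (a : ℂ) (k : ℕ) :
    nd q a ^ k = (-(q : ℂ)⁻¹) ^ k * a⁻¹ ^ k := by
  rw [← mul_pow]
  congr 1
  unfold nd
  rw [mul_inv]
  ring

theorem tAbsW (_h1 : Aw.S_Phi) (h2 : S_PsW) (h3 : S_Inj) (h4 : S_PhiL) : S_AbsW := by
  intro h σ₁ b r₀ R R' R₂ R₁ C hh hC hR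
  have hr0 := hR.r₀pos
  have hRp : 0 < R := hr0.trans hR.lt1
  have hR'p : 0 < R' := hRp.trans hR.lt2
  have hR₂p : 0 < R₂ := hR'p.trans hR.lt3
  have hR₁p : 0 < R₁ := hR₂p.trans hR.lt4
  obtain ⟨A, hA0, hA⟩ := h2 h σ₁ b r₀ R R' R₂ R₁ C hh hC hR
  obtain ⟨D₂, hD₂, hL⟩ := h4 h R₁ hh hR₁p hR.lt5
  refine ⟨A + D₂ + 1, by linarith, ?_⟩
  intro c G t V q hc hV hd hb he hq
  obtain ⟨S, β, hS1, hS2, hS3⟩ := hA c G t V hc hV hd hb he
  have hq0 : 0 < q := lt_of_lt_of_le (by positivity) hq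
  have hqR' : q⁻¹ ≤ R' := by
    rw [inv_le_comm₀ hq0 hR'p]
    simpa using hq
  have hqn : ‖(-(q : ℂ)⁻¹)‖ = q⁻¹ := by
    rw [norm_neg, norm_inv, Complex.norm_real, Real.norm_eq_abs, abs_of_pos hq0]
  have hqc : (q : ℂ) ≠ 0 := by exact_mod_cast hq0.ne'
  have hps : ∀ k : ℕ, 1 ≤ k →
      ‖(-(q : ℂ)⁻¹) ^ k * k * eW h c k t + ∑ a ∈ S, (β a : ℂ) * nd q a ^ k‖ ≤
        A * k * (V + 1) * (R' / R₂) ^ k := by
    intro k hk
    have e1 : (-(q : ℂ)⁻¹) ^ k * k * eW h c k t + ∑ a ∈ S, (β a : ℂ) * nd q a ^ k =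
        (-(q : ℂ)⁻¹) ^ k * ((k : ℂ) * eW h c k t + ∑ a ∈ S, (β a : ℂ) * a⁻¹ ^ k) := by
      rw [mul_add, Finset.mul_sum]
      congr 1
      · ring
      · refine Finset.sum_congr rfl fun a _ => ?_
        rw [AbsW_nd]
        ring
    rw [e1, norm_mul, norm_pow, hqn]
    calc (q⁻¹) ^ k * ‖(k : ℂ) * eW h c k t + ∑ a ∈ S, (β a : ℂ) * a⁻¹ ^ k‖
        ≤ R' ^ k * (A * k * (V + 1) * (1 / R₂) ^ k) := by
          refine mul_le_mul ?_ (hS3 k hk) (norm_nonneg _) (by positivity)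
          exact pow_le_pow_left₀ (by positivity) hqR' k
      _ = A * k * (V + 1) * (R' / R₂) ^ k := by
          rw [div_pow, div_pow, one_pow]
          ring
  refine ⟨S, β, ?_, ?_, ?_, ?_, ?_⟩
  · intro a ha
    obtain ⟨ha1, ha2, ha3, ha4, ha5⟩ := hS1 a ha
    have ha0 : a ≠ 0 := by
      intro h0
      rw [h0, norm_zero] at ha1
      linarith
    have han : 0 < ‖a‖ := norm_pos_iff.mpr ha0
    have h8 : ‖nd q a‖ = q⁻¹ * ‖a‖⁻¹ := by
      unfold nd
      rw [norm_neg, norm_inv, norm_mul, Complex.norm_real, Real.norm_eq_abs, abs_of_pos hq0,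
        mul_inv]
    refine ⟨ha3, ha4, ha5, ?_, ?_, ha0, ha2.trans hR.lt5, ?_⟩
    · have h5 := hL a q ha2.le (le_trans (one_div_le_one_div_of_le hR'p
        (hR.lt3.trans hR.lt4).le) hq)
      have h6 : a + (q : ℂ)⁻¹ = a * (1 - nd q a) := by
        unfold nd
        field_simp
        ring
      rw [h6, norm_mul] at h5
      have h7 : ‖a‖ ≤ 1 := (ha2.trans hR.lt5).le
      calc |(phi h a).im| ≤ D₂ * (‖a‖ * ‖1 - nd q a‖) := h5
        _ ≤ D₂ * (1 * ‖1 - nd q a‖) := by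
            refine mul_le_mul_of_nonneg_left ?_ hD₂
            exact mul_le_mul_of_nonneg_right h7 (norm_nonneg _)
        _ ≤ (A + D₂ + 1) * ‖1 - nd q a‖ := by
            rw [one_mul]
            exact mul_le_mul_of_nonneg_right (by linarith) (norm_nonneg _)
    · rw [h8, div_eq_mul_inv]
      exact mul_le_mul hqR' (inv_anti₀ hr0 ha1) (by positivity) hR'p.le
    · rw [h8, div_eq_mul_inv]
      exact mul_le_mul_of_nonneg_right hqR' (by positivity)
  · intro a ha a' ha' haa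
    have hb1 : ∀ x ∈ S, x ∈ ball (0 : ℂ) 1 := by
      intro x hx
      rw [mem_ball_zero_iff]
      exact (hS1 x hx).2.1.trans hR.lt5
    refine h3 h hh (hb1 a ha) (hb1 a' ha') ?_
    have := haa
    simp only at this
    exact add_right_cancel this
  · refine hS2.trans ?_
    have : 0 ≤ V + 1 := by linarith
    exact mul_le_mul_of_nonneg_right (by linarith) this
  · intro k hk
    refine (hps k hk).trans ?_
    have h9 : 0 ≤ (k : ℝ) * (V + 1) * (R' / R₂) ^ k := by positivity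
    nlinarith
  · intro al n kk js hal hsum hkj
    have e2 : cmb al n kk js q (fun k => eW h c k t) +
        ∑ a ∈ S, (β a : ℂ) * (nd q a ^ (kk - js) * ∑ j ∈ Finset.range n, (al j : ℂ) * nd q a ^ j) =
        ∑ j ∈ Finset.range n, (al j : ℂ) *
          ((-(q : ℂ)⁻¹) ^ (kk - js + j) * ((kk - js + j : ℕ) : ℂ) * eW h c (kk - js + j) t +
            ∑ a ∈ S, (β a : ℂ) * nd q a ^ (kk - js + j)) := by
      unfold cmb
      have e3 : ∑ a ∈ S, (β a : ℂ) * (nd q a ^ (kk - js) *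
          ∑ j ∈ Finset.range n, (al j : ℂ) * nd q a ^ j) =
          ∑ j ∈ Finset.range n, (al j : ℂ) * ∑ a ∈ S, (β a : ℂ) * nd q a ^ (kk - js + j) := by
        simp only [Finset.mul_sum]
        rw [Finset.sum_comm]
        refine Finset.sum_congr rfl fun j _ => Finset.sum_congr rfl fun a _ => ?_
        rw [pow_add]
        ring
      rw [e3, ← Finset.sum_add_distrib]
      refine Finset.sum_congr rfl fun j _ => ?_
      ring
    rw [e2]
    have hV1 : 0 ≤ V + 1 := by linarith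
    have hρ0 : 0 ≤ R' / R₂ := by positivity
    have hρ1 : R' / R₂ ≤ 1 := by
      rw [div_le_one hR₂p]
      exact hR.lt3.le
    calc ‖∑ j ∈ Finset.range n, (al j : ℂ) *
          ((-(q : ℂ)⁻¹) ^ (kk - js + j) * ((kk - js + j : ℕ) : ℂ) * eW h c (kk - js + j) t +
            ∑ a ∈ S, (β a : ℂ) * nd q a ^ (kk - js + j))‖
        ≤ ∑ j ∈ Finset.range n, al j * (A * (kk + n) * (V + 1) * (R' / R₂) ^ (kk - js)) := by
          refine norm_sum_le_of_le _ fun j hj => ?_
          have hjn := Finset.mem_range.mp hj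
          rw [norm_mul, Complex.norm_real, Real.norm_eq_abs, abs_of_nonneg (hal j)]
          refine mul_le_mul_of_nonneg_left ?_ (hal j)
          refine (hps (kk - js + j) (by omega)).trans ?_
          have hk1 : ((kk - js + j : ℕ) : ℝ) ≤ (kk : ℝ) + n := by
            have : kk - js + j ≤ kk + n := by omega
            exact_mod_cast this
          have hk2 : (R' / R₂) ^ (kk - js + j) ≤ (R' / R₂) ^ (kk - js) :=
            pow_le_pow_of_le_one hρ0 hρ1 (Nat.le_add_right _ _)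
          refine mul_le_mul ?_ hk2 (pow_nonneg hρ0 _) (by positivity)
          refine mul_le_mul_of_nonneg_right ?_ hV1
          exact mul_le_mul_of_nonneg_left hk1 hA0
      _ = A * (kk + n) * (V + 1) * (R' / R₂) ^ (kk - js) := by
          rw [← Finset.sum_mul, hsum, one_mul]
      _ ≤ (A + D₂ + 1) * (kk + n) * (V + 1) * (R' / R₂) ^ (kk - js) := by
          have h9 : 0 ≤ ((kk : ℝ) + n) * (V + 1) * (R' / R₂) ^ (kk - js) := by positivity
          nlinarith

end MP7ed9c3.Tp
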