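import Pool.Agent.Lib.MP_7ed9c3_nt.Tp.SpecB

/-!
# MP_7ed9c3_nt, part Tp, module BadB: the exceptional set

Union bound: the large values of the coefficients at each scale (`S_TypW`) and the points at which no scale has a
large combination (`S_BlkY`).
-/

set_option autoImplicit false

namespace MP7ed9c3.Tp

open NumberField IsDedekindDomain Filter Topology MeasureTheory Metric
open MP7ed9c3.Aw

private lemma BadB_typ (h1 : S_TypW) {h R' T t₀ τ : ℝ} {A' m M₀ M₁ D js kk : ℕ} {al : ℕ → ℝ} {q : ℝ}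
    {c : ℕ → ℂ} (hR : 0 < R') (hT : 0 ≤ T) (hm : 1 ≤ m) (hM : (M₁ : ℝ) ^ 2 ≤ T)
    (hS : ScD h R' c A' m M₀ M₁ al D js kk q τ) :
    volume {t : ℝ | t ∈ Set.Icc (t₀ - T) (t₀ + T) ∧
      ∃ k : ℕ, m ≤ k ∧ k ≤ A' * m ∧ (m : ℝ) * q ^ k < ‖aW h c k M₀ M₁ t‖} ≤
      ENNReal.ofReal (4 * ((A' : ℝ) + 1) * T / m) := by
  have hm1 : (1 : ℝ) ≤ m := by exact_mod_cast hm
  have hm0 : (0 : ℝ) < m := by linarith
  have hq : 0 < q := lt_of_lt_of_le (by positivity) hS.q1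
  have h3 := h1 h c m (A' * m) M₀ M₁ (t₀ - T) (t₀ + T) (m : ℝ) q (by linarith) (by linarith) hm0 hq
    hS.nw
  refine h3.trans (ENNReal.ofReal_le_ofReal ?_)
  rw [div_le_div_iff₀ (by positivity) hm0]
  push_cast
  have h4 : (A' : ℝ) * m + 1 ≤ ((A' : ℝ) + 1) * m := by linarith
  have h5 : 0 ≤ 4 * T * (m : ℝ) := by positivity
  calc 2 * (t₀ + T - (t₀ - T)) * ((A' : ℝ) * m + 1) * m = 4 * T * m * ((A' : ℝ) * m + 1) := by ring
    _ ≤ 4 * T * m * (((A' : ℝ) + 1) * m) := mul_le_mul_of_nonneg_left h4 h5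
    _ = 4 * ((A' : ℝ) + 1) * T * (m : ℝ) ^ 2 := by ring

private lemma BadB_one {h R' V τ : ℝ} {A' m M₀ M₁ D js kk : ℕ} {al : ℕ → ℝ} {q : ℝ}
    {c : ℕ → ℂ} (hR : 0 < R') (hV : 1 ≤ V)
    (hS : ScD h R' c A' m M₀ M₁ al D js kk q τ) {t : ℝ} {k : ℕ} (hk1 : m ≤ k) (hk2 : k ≤ A' * m)
    (hk : (V + m) * q ^ k < ‖eW h c k t‖) : (m : ℝ) * q ^ k < ‖aW h c k M₀ M₁ t‖ := by
  have hq : 0 < q := lt_of_lt_of_le (by positivity) hS.q1
  have h3 := hS.trn t k hk1 hk2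
  have h4 : ‖eW h c k t‖ ≤ ‖aW h c k M₀ M₁ t‖ + ‖eW h c k t - aW h c k M₀ M₁ t‖ := by
    have := norm_add_le (aW h c k M₀ M₁ t) (eW h c k t - aW h c k M₀ M₁ t)
    rwa [add_sub_cancel] at this
  have h5 : 0 < q ^ k := pow_pos hq k
  have h6 : q ^ k ≤ V * q ^ k := le_mul_of_one_le_left h5.le hV
  have h7 : (V + m) * q ^ k = V * q ^ k + m * q ^ k := by ring
  linarith

private lemma BadB_two {h R' τ : ℝ} {A' m M₀ M₁ D js kk : ℕ} {al : ℕ → ℝ} {q : ℝ}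
    {c : ℕ → ℂ} (hS : ScD h R' c A' m M₀ M₁ al D js kk q τ) {t : ℝ}
    (hk : ‖cmb al D kk js q (fun k => eW h c k t)‖ < 1 / 4) :
    ‖∑ m' ∈ blk M₀ M₁, uW h c al D kk js q m' * (m' : ℂ) ^ (-(t * Complex.I))‖ ^ 2 ≤
      (∑ m' ∈ blk M₀ M₁, ‖uW h c al D kk js q m'‖ ^ 2) / 2 := by
  have h3 := hS.dif t
  set X := ∑ m' ∈ blk M₀ M₁, uW h c al D kk js q m' * (m' : ℂ) ^ (-(t * Complex.I)) with hX
  have h4 : ‖X‖ ≤ ‖cmb al D kk js q (fun k => eW h c k t)‖ +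
      ‖cmb al D kk js q (fun k => eW h c k t) - X‖ := by
    have := norm_sub_le (cmb al D kk js q (fun k => eW h c k t))
      (cmb al D kk js q (fun k => eW h c k t) - X)
    rwa [sub_sub_cancel] at this
  have h5 : ‖X‖ ≤ 1 / 2 := by linarith
  have h6 := hS.lo
  have h7 : ‖X‖ ^ 2 ≤ (1 / 2) ^ 2 := pow_le_pow_left₀ (norm_nonneg _) h5 2
  have h8 : (1 / 2 : ℝ) ^ 2 = 1 / 4 := by norm_num
  linarith

theorem tBadB (h1 : S_TypW) (h2 : S_BlkY) : S_BadB := by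
  intro h R' T t₀ V τ A' I ms M D js kk al q c hR hV hT hτ hM0 hms hM hMT hτM hS
  set EE : ℕ → Set ℝ := fun i => {t : ℝ | t ∈ Set.Icc (t₀ - T) (t₀ + T) ∧
      ∃ k : ℕ, ms i ≤ k ∧ k ≤ A' * ms i ∧ (ms i : ℝ) * q i ^ k < ‖aW h c k (M i) (M (i + 1)) t‖} with hEE
  set FF : Set ℝ := {t : ℝ | t ∈ Set.Icc (t₀ - T) (t₀ + T) ∧ ∀ i < I,
        ‖∑ m ∈ blk (M i) (M (i + 1)), uW h c (al i) (D i) (kk i) (js i) (q i) m *
          (m : ℂ) ^ (-(t * Complex.I))‖ ^ 2 ≤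
        (∑ m ∈ blk (M i) (M (i + 1)), ‖uW h c (al i) (D i) (kk i) (js i) (q i) m‖ ^ 2) / 2} with hFF
  have hsub : {t : ℝ | |t - t₀| < T ∧ ¬ ((∀ i < I, ∀ k : ℕ, ms i ≤ k → k ≤ A' * ms i →
          ‖eW h c k t‖ ≤ (V + ms i) * q i ^ k) ∧
          ∃ i < I, 1 / 4 ≤ ‖cmb (al i) (D i) (kk i) (js i) (q i) (fun k => eW h c k t)‖)} ⊆
      FF ∪ ⋃ i ∈ Finset.range I, EE i := by
    rintro t ⟨ht, hnot⟩
    have htI : t ∈ Set.Icc (t₀ - T) (t₀ + T) := by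
      rw [abs_lt] at ht
      exact ⟨by linarith, by linarith⟩
    by_cases hP : ∀ i < I, ∀ k : ℕ, ms i ≤ k → k ≤ A' * ms i →
        ‖eW h c k t‖ ≤ (V + ms i) * q i ^ k
    · left
      refine ⟨htI, fun i hi => BadB_two (hS i hi) ?_⟩
      by_contra hcon
      exact hnot ⟨hP, i, hi, not_lt.1 hcon⟩
    · right
      push Not at hP
      obtain ⟨i, hi, k, hk1, hk2, hk3⟩ := hP
      refine Set.mem_biUnion (Finset.mem_coe.2 (Finset.mem_range.2 hi)) ?_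
      exact ⟨htI, k, hk1, hk2, BadB_one hR hV (hS i hi) hk1 hk2 hk3⟩
  have hF : volume FF ≤ ENNReal.ofReal ((9 / 10) ^ I * (2 * T) +
      2 * ∏ i ∈ Finset.range I, (4 * (M (i + 1) : ℝ)) ^ 4) := by
    have h3 := h2 τ (t₀ - T) (t₀ + T) (fun i m => uW h c (al i) (D i) (kk i) (js i) (q i) m) I M hτ
      (by linarith) hM0 hM (fun i hi m hm => (hS i hi).pp m hm)
      (fun i hi => lt_of_lt_of_le one_pos (hS i hi).lo)
      (fun i hi m hm => ((hS i hi).up m hm).trans (le_mul_of_one_le_right hτ (hS i hi).lo)) hτM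
    have h4 : t₀ + T - (t₀ - T) = 2 * T := by ring
    rw [h4] at h3
    exact h3
  have hE : volume (⋃ i ∈ Finset.range I, EE i) ≤
      ENNReal.ofReal (∑ i ∈ Finset.range I, 4 * ((A' : ℝ) + 1) * T / ms i) := by
    rw [ENNReal.ofReal_sum_of_nonneg fun i _ => by positivity]
    refine (measure_biUnion_finset_le _ _).trans (Finset.sum_le_sum fun i hi => ?_)
    have hi' := Finset.mem_range.1 hi
    exact BadB_typ h1 hR hT (hms i hi') (hMT i hi') (hS i hi')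
  refine (measure_mono hsub).trans ((measure_union_le _ _).trans ?_)
  rw [ENNReal.ofReal_add (by positivity) (Finset.sum_nonneg fun i _ => by positivity)]
  exact add_le_add hF hE

end MP7ed9c3.Tp
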