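import Pool.Agent.Lib.MP_7ed9c3_nt.Tp.SpecB

/-!
# MP_7ed9c3_nt, project TP, module BlkY: blocks with arbitrary coefficients (adapted from Aw/BlocksX of helper40)
-/

set_option autoImplicit false

namespace MP7ed9c3.Tp

open NumberField IsDedekindDomain Filter Topology MeasureTheory Metric
open MP7ed9c3.Aw

private noncomputable def BlkY_s (u : ℕ → ℕ → ℂ) (M : ℕ → ℕ) (i : ℕ) : ℝ :=
  ∑ m ∈ blk (M i) (M (i + 1)), ‖u i m‖ ^ 2

private noncomputable def BlkY_v (u : ℕ → ℕ → ℂ) (M : ℕ → ℕ) (i m : ℕ)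
    (_ : Fin ((fun _ : ℕ => 1) i)) : ℂ :=
  u i m * ((1 / √(BlkY_s u M i) : ℝ) : ℂ)

private theorem BlkY_mono {I : ℕ} {M : ℕ → ℕ} (hM : ∀ i < I, M i < M (i + 1)) {i j : ℕ}
    (hij : i ≤ j) (hj : j ≤ I) : M i ≤ M j := by
  induction j, hij using Nat.le_induction with
  | base => exact le_rfl
  | succ n hn ih => exact (ih (by omega)).trans (hM n (by omega)).le

private theorem BlkY_mem {M₀ M₁ m : ℕ} (hm : m ∈ blk M₀ M₁) :
    M₀ < m ∧ m ≤ M₁ ∧ M₀ < m.minFac := by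
  rw [blk, Finset.mem_filter, Finset.mem_Ioc] at hm
  exact ⟨hm.1.1, hm.1.2, hm.2⟩

private theorem BlkY_norm {q : ℝ} : ‖((1 / √q : ℝ) : ℂ)‖ = 1 / √q := by
  rw [Complex.norm_real, Real.norm_of_nonneg (by positivity)]

private theorem BlkY_uu {u : ℕ → ℕ → ℂ} {M : ℕ → ℕ} {i : ℕ} (hpos : 0 < BlkY_s u M i) (m : ℕ) :
    uu (BlkY_v u M i) m = ‖u i m‖ ^ 2 / BlkY_s u M i := by
  rw [uu]
  simp only [BlkY_v]
  rw [Finset.sum_const, Finset.card_univ, Fintype.card_fin, one_smul, norm_mul, BlkY_norm,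
    mul_pow, div_pow, Real.sq_sqrt hpos.le]
  ring

private theorem BlkY_dE {u : ℕ → ℕ → ℂ} {M : ℕ → ℕ} {i : ℕ} (hpos : 0 < BlkY_s u M i)
    (hc : ∀ m : ℕ, ¬ IsPrimePow m → u i m = 0) (t : ℝ)
    (S : Finset ℕ) (hS : ∀ m, m ∈ S ↔ m ∈ blk (M i) (M (i + 1)) ∧ IsPrimePow m) :
    dE S (BlkY_v u M i) t =
      ‖∑ m ∈ blk (M i) (M (i + 1)), u i m * (m : ℂ) ^ (-(t * Complex.I))‖ ^ 2 /
        BlkY_s u M i := by
  rw [dE]
  have h1 : ∑ m ∈ S, u i m * ((1 / √(BlkY_s u M i) : ℝ) : ℂ) * (m : ℂ) ^ (-(t * Complex.I)) =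
      (∑ m ∈ blk (M i) (M (i + 1)), u i m * (m : ℂ) ^ (-(t * Complex.I))) *
        ((1 / √(BlkY_s u M i) : ℝ) : ℂ) := by
    rw [Finset.sum_mul]
    have h2 : ∑ m ∈ S, u i m * (m : ℂ) ^ (-(t * Complex.I)) *
          ((1 / √(BlkY_s u M i) : ℝ) : ℂ) =
        ∑ m ∈ blk (M i) (M (i + 1)), u i m * (m : ℂ) ^ (-(t * Complex.I)) *
          ((1 / √(BlkY_s u M i) : ℝ) : ℂ) := by
      refine Finset.sum_subset (fun m hm => ((hS m).1 hm).1) ?_
      intro m hm hm2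
      have h3 : ¬ IsPrimePow m := fun hp => hm2 ((hS m).2 ⟨hm, hp⟩)
      rw [hc m h3]
      simp
    rw [← h2]
    refine Finset.sum_congr rfl fun m _ => ?_
    ring
  simp only [BlkY_v]
  rw [Finset.sum_const, Finset.card_univ, Fintype.card_fin, one_smul, h1, norm_mul, BlkY_norm,
    mul_pow, div_pow, Real.sq_sqrt hpos.le]
  ring

private theorem BlkY_cont {ι : Type} [Fintype ι] (S : Finset ℕ) (v : ℕ → ι → ℂ)
    (hS : ∀ m ∈ S, 1 ≤ m) : Continuous (dE S v) := by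
  unfold dE
  refine continuous_finsetSum _ fun i _ => (Continuous.norm ?_).pow 2
  refine continuous_finsetSum _ fun m hm => continuous_const.mul ?_
  have hm0 : (m : ℂ) ≠ 0 := by
    have := hS m hm
    exact_mod_cast (by omega : m ≠ 0)
  exact Continuous.const_cpow (by fun_prop) (Or.inl hm0)

private theorem BlkY_markov (D : ℝ → ℝ) (hD : Continuous D) (h0 : ∀ t, 0 ≤ D t) (a b : ℝ)
    (hab : a ≤ b) (X : ℝ) (hX : ∫ t in a..b, D t ≤ X) :
    volume {t : ℝ | t ∈ Set.Icc a b ∧ 1 ≤ D t} ≤ ENNReal.ofReal X := by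
  have hint : Integrable D (volume.restrict (Set.Icc a b)) := hD.integrableOn_Icc
  have hM := mul_meas_ge_le_integral_of_nonneg (μ := volume.restrict (Set.Icc a b))
    (Eventually.of_forall h0) hint 1
  have hI : ∫ t, D t ∂(volume.restrict (Set.Icc a b)) = ∫ t in a..b, D t := by
    rw [intervalIntegral.integral_of_le hab, integral_Icc_eq_integral_Ioc]
  rw [hI] at hM
  have hmeas : MeasurableSet {t : ℝ | (1 : ℝ) ≤ D t} :=
    measurableSet_le measurable_const hD.measurable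
  have hsub : {t : ℝ | t ∈ Set.Icc a b ∧ 1 ≤ D t} ⊆ {t : ℝ | (1 : ℝ) ≤ D t} ∩ Set.Icc a b := by
    rintro t ⟨h1, h2⟩
    exact ⟨h2, h1⟩
  calc volume {t : ℝ | t ∈ Set.Icc a b ∧ 1 ≤ D t} ≤
        volume ({t : ℝ | (1 : ℝ) ≤ D t} ∩ Set.Icc a b) := measure_mono hsub
    _ = volume.restrict (Set.Icc a b) {t : ℝ | (1 : ℝ) ≤ D t} :=
        (Measure.restrict_apply hmeas).symm
    _ = ENNReal.ofReal ((volume.restrict (Set.Icc a b)).real {t : ℝ | (1 : ℝ) ≤ D t}) := by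
        rw [Measure.real, ENNReal.ofReal_toReal (measure_ne_top _ _)]
    _ ≤ ENNReal.ofReal X := ENNReal.ofReal_le_ofReal (by linarith)

theorem tBlkY (h1 : S_Quads) (h2 : S_ProdY) : S_BlkY := by
  classical
  intro τ a b u I M hτ hab hM0 hM hc hpos' hw' hlog
  have hpos : ∀ i < I, 0 < BlkY_s u M i := hpos'
  have hw : ∀ i < I, ∀ m ∈ blk (M i) (M (i + 1)), ‖u i m‖ ^ 2 ≤ τ * BlkY_s u M i := hw'
  obtain ⟨S, hSdef⟩ : ∃ S : ℕ → Finset ℕ, ∀ i,
      S i = (blk (M i) (M (i + 1))).filter IsPrimePow := ⟨_, fun _ => rfl⟩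
  have hS : ∀ i m, m ∈ S i ↔ m ∈ blk (M i) (M (i + 1)) ∧ IsPrimePow m := fun i m => by
    rw [hSdef, Finset.mem_filter]
  have hMI : ∀ i < I, ∀ m ∈ S i, 1 ≤ m ∧ m ≤ M (i + 1) := by
    intro i hi m hm
    have h3 := BlkY_mem ((hS i m).1 hm).1
    omega
  have hcop : ∀ i < I, ∀ i' < I, i ≠ i' → ∀ m ∈ S i, ∀ m' ∈ S i', m.Coprime m' := by
    intro i hi i' hi' hne m hm m' hm'
    have h3 := BlkY_mem ((hS i m).1 hm).1
    have h4 := BlkY_mem ((hS i' m').1 hm').1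
    refine Nat.coprime_of_dvd fun q hq hqm hqm' => ?_
    have h5 : m.minFac ≤ q := Nat.minFac_le_of_dvd hq.two_le hqm
    have h6 : m'.minFac ≤ q := Nat.minFac_le_of_dvd hq.two_le hqm'
    have h7 : q ≤ m := Nat.le_of_dvd (by omega) hqm
    have h8 : q ≤ m' := Nat.le_of_dvd (by omega) hqm'
    rcases Nat.lt_or_ge i i' with h9 | h9
    · have := BlkY_mono hM (show i + 1 ≤ i' by omega) hi'.le
      omega
    · have := BlkY_mono hM (show i' + 1 ≤ i by omega) hi.le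
      omega
  have hsum : ∀ i < I, ∑ m ∈ S i, uu (BlkY_v u M i) m = 1 := by
    intro i hi
    have h3 := hpos i hi
    rw [Finset.sum_congr rfl fun m _ => BlkY_uu h3 m, ← Finset.sum_div]
    have h4 : ∑ m ∈ S i, ‖u i m‖ ^ 2 = BlkY_s u M i := by
      rw [BlkY_s]
      refine Finset.sum_subset (fun m hm => ((hS i m).1 hm).1) ?_
      intro m hm hm2
      have h5 : ¬ IsPrimePow m := fun hp => hm2 ((hS i m).2 ⟨hm, hp⟩)
      rw [hc i hi m h5]
      simp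
    rw [h4, div_self h3.ne']
  have hun : ∀ i < I, ∀ m, 0 ≤ uu (BlkY_v u M i) m := by
    intro i _ m
    rw [uu]
    positivity
  have hlogi : ∀ i < I, τ * (Nat.log 2 (M I) : ℝ) ^ 2 ≤ 1 / 10 := fun _ _ => hlog
  have hquad : ∀ i < I, quad (S i) (BlkY_v u M i) ≤ 21 / 10 := by
    intro i hi
    have h3 := hpos i hi
    have h4 := h1 (Fin 1) (S i) (BlkY_v u M i) (fun _ => 0) (M I) 1 τ
      (fun m hm => ⟨((hS i m).1 hm).2, (hMI i hi m hm).2.trans
        (BlkY_mono hM (show i + 1 ≤ I by omega) le_rfl)⟩) zero_le_one hτ (hsum i hi)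
      (fun m _ m' _ hne => absurd rfl hne)
      (fun j => (Finset.sum_le_sum_of_subset_of_nonneg (Finset.filter_subset _ _)
        (fun m _ _ => hun i hi m)).trans (hsum i hi).le)
      (fun m hm => by
        rw [BlkY_uu h3 m, div_le_iff₀ h3]
        exact hw i hi m ((hS i m).1 hm).1)
    linarith
  have hMI1 : ∀ i < I, 1 ≤ M (i + 1) := fun i hi =>
    hM0.trans (BlkY_mono hM (Nat.zero_le (i + 1)) hi)
  have hmain := h2 I (fun _ => 1) S (BlkY_v u M) (fun i => M (i + 1)) (21 / 10) a b hab hMI1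
    (by norm_num) hMI hcop hsum hquad
  -- Markov
  have hcont : Continuous fun t : ℝ => (4 / 25 : ℝ) ^ I *
      ∏ i ∈ Finset.range I, (3 - dE (S i) (BlkY_v u M i) t) ^ 2 := by
    refine continuous_const.mul (continuous_finsetProd _ fun i hi => ?_)
    exact (continuous_const.sub (BlkY_cont (S i) _ fun m hm =>
      (hMI i (Finset.mem_range.1 hi) m hm).1)).pow 2
  have hnn : ∀ t : ℝ, 0 ≤ (4 / 25 : ℝ) ^ I *
      ∏ i ∈ Finset.range I, (3 - dE (S i) (BlkY_v u M i) t) ^ 2 := by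
    intro t
    exact mul_nonneg (by positivity) (Finset.prod_nonneg fun i _ => sq_nonneg _)
  have hP0 : (0 : ℝ) ≤ 2 * ∏ i ∈ Finset.range I, (4 * (M (i + 1) : ℝ)) ^ 4 :=
    mul_nonneg (by norm_num) (Finset.prod_nonneg fun i _ => by positivity)
  have hbound : ∫ t in a..b, (4 / 25 : ℝ) ^ I *
      ∏ i ∈ Finset.range I, (3 - dE (S i) (BlkY_v u M i) t) ^ 2 ≤
      (9 / 10) ^ I * (b - a) + 2 * ∏ i ∈ Finset.range I, (4 * (M (i + 1) : ℝ)) ^ 4 := by
    rw [intervalIntegral.integral_const_mul]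
    have h5 : (4 / 25 : ℝ) ^ I * (∫ t in a..b, ∏ i ∈ Finset.range I,
        (3 - dE (S i) (BlkY_v u M i) t) ^ 2) ≤ (4 / 25 : ℝ) ^ I *
        ((b - a) * (3 + 21 / 10) ^ I + 2 * ∏ i ∈ Finset.range I, (4 * (M (i + 1) : ℝ)) ^ 4) :=
      mul_le_mul_of_nonneg_left hmain (by positivity)
    refine h5.trans ?_
    have h6 : (4 / 25 : ℝ) ^ I * (3 + 21 / 10) ^ I ≤ (9 / 10) ^ I := by
      rw [← mul_pow]
      exact pow_le_pow_left₀ (by norm_num) (by norm_num) I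
    have h7 : (4 / 25 : ℝ) ^ I ≤ 1 := pow_le_one₀ (by norm_num) (by norm_num)
    have h9 : 0 ≤ b - a := by linarith
    calc (4 / 25 : ℝ) ^ I * ((b - a) * (3 + 21 / 10) ^ I +
          2 * ∏ i ∈ Finset.range I, (4 * (M (i + 1) : ℝ)) ^ 4) =
          ((4 / 25 : ℝ) ^ I * (3 + 21 / 10) ^ I) * (b - a) +
            (4 / 25 : ℝ) ^ I * (2 * ∏ i ∈ Finset.range I, (4 * (M (i + 1) : ℝ)) ^ 4) := by ring
      _ ≤ (9 / 10) ^ I * (b - a) + 1 *
            (2 * ∏ i ∈ Finset.range I, (4 * (M (i + 1) : ℝ)) ^ 4) :=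
          add_le_add (mul_le_mul_of_nonneg_right h6 h9) (mul_le_mul_of_nonneg_right h7 hP0)
      _ = _ := by ring
  refine (measure_mono ?_).trans (BlkY_markov _ hcont hnn a b hab _ hbound)
  rintro t ⟨ht, hen⟩
  refine ⟨ht, ?_⟩
  have h10 : (4 / 25 : ℝ) ^ I = ∏ i ∈ Finset.range I, (4 / 25 : ℝ) := by
    rw [Finset.prod_const, Finset.card_range]
  rw [h10, ← Finset.prod_mul_distrib]
  have h11 : ∏ i ∈ Finset.range I, (1 : ℝ) ≤ ∏ i ∈ Finset.range I,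
      (4 / 25 : ℝ) * (3 - dE (S i) (BlkY_v u M i) t) ^ 2 := by
    refine Finset.prod_le_prod (fun _ _ => zero_le_one) fun i hi => ?_
    have hi' := Finset.mem_range.1 hi
    have h3 := hpos i hi'
    rw [BlkY_dE h3 (hc i hi') t (S i) (hS i)]
    have h12 : ‖∑ m ∈ blk (M i) (M (i + 1)), u i m * (m : ℂ) ^ (-(t * Complex.I))‖ ^ 2 /
        BlkY_s u M i ≤ 1 / 2 := by
      rw [div_le_iff₀ h3]
      have h13 : ‖∑ m ∈ blk (M i) (M (i + 1)), u i m * (m : ℂ) ^ (-(t * Complex.I))‖ ^ 2 ≤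
          BlkY_s u M i / 2 := hen i hi'
      linarith
    nlinarith [mul_self_nonneg (1 / 2 -
      ‖∑ m ∈ blk (M i) (M (i + 1)), u i m * (m : ℂ) ^ (-(t * Complex.I))‖ ^ 2 /
        BlkY_s u M i)]
  rwa [Finset.prod_const_one] at h11

end MP7ed9c3.Tp
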