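import Pool.Agent.Lib.MP_7ed9c3_nt.Tp.SpecK

/-! # MP_7ed9c3_nt, Tp, module Cmb: an error estimate for the combination -/

set_option autoImplicit false

namespace MP7ed9c3.Tp

open MeasureTheory Metric MP7ed9c3.Aw

theorem tCmb : S_Cmb := by
  intro al D kk js q δ e e' hal hsum hq hk
  unfold cmb
  rw [← Finset.sum_sub_distrib]
  have hqn : ‖(-(q : ℂ)⁻¹)‖ = q⁻¹ := by
    rw [norm_neg, norm_inv, Complex.norm_real, Real.norm_eq_abs, abs_of_pos hq]
  calc ‖∑ j ∈ Finset.range D, ((al j : ℂ) * (-(q : ℂ)⁻¹) ^ (kk - js + j) *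
        ((kk - js + j : ℕ) : ℂ) * e (kk - js + j) - (al j : ℂ) * (-(q : ℂ)⁻¹) ^ (kk - js + j) *
        ((kk - js + j : ℕ) : ℂ) * e' (kk - js + j))‖
      ≤ ∑ j ∈ Finset.range D, al j * δ := by
        refine norm_sum_le_of_le _ fun j hj => ?_
        have h1 := hk (kk - js + j) (Nat.le_add_right _ _)
          (by have := Finset.mem_range.mp hj; omega)
        have h2 : (al j : ℂ) * (-(q : ℂ)⁻¹) ^ (kk - js + j) * ((kk - js + j : ℕ) : ℂ) *
            e (kk - js + j) - (al j : ℂ) * (-(q : ℂ)⁻¹) ^ (kk - js + j) *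
            ((kk - js + j : ℕ) : ℂ) * e' (kk - js + j) =
            (al j : ℂ) * (-(q : ℂ)⁻¹) ^ (kk - js + j) *
            (((kk - js + j : ℕ) : ℂ) * (e (kk - js + j) - e' (kk - js + j))) := by ring
        rw [h2, norm_mul, norm_mul, norm_pow, hqn, Complex.norm_real, Real.norm_eq_abs,
          abs_of_nonneg (hal j)]
        have h3 : (q⁻¹) ^ (kk - js + j) *
            ‖((kk - js + j : ℕ) : ℂ) * (e (kk - js + j) - e' (kk - js + j))‖ ≤ δ := by
          calc (q⁻¹) ^ (kk - js + j) *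
              ‖((kk - js + j : ℕ) : ℂ) * (e (kk - js + j) - e' (kk - js + j))‖
              ≤ (q⁻¹) ^ (kk - js + j) * (δ * q ^ (kk - js + j)) :=
                mul_le_mul_of_nonneg_left h1 (by positivity)
            _ = δ * ((q⁻¹) ^ (kk - js + j) * q ^ (kk - js + j)) := by ring
            _ = δ := by rw [← mul_pow, inv_mul_cancel₀ hq.ne', one_pow, mul_one]
        rw [mul_assoc]
        exact mul_le_mul_of_nonneg_left h3 (hal j)
    _ = δ := by rw [← Finset.sum_mul, hsum, one_mul]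

end MP7ed9c3.Tp
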