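import Pool.Agent.Lib.MP_7ed9c3_nt.Tp.SpecB

/-! # MP_7ed9c3_nt, Tp: the core from a detector -/

set_option autoImplicit false

namespace MP7ed9c3.Tp

open NumberField IsDedekindDomain Filter Topology MeasureTheory Metric
open MP7ed9c3.Aw

private theorem CoreB_one_le {β : ℝ} {m K : ℕ} (i : ℕ) : 1 ≤ Mb β m K i := by
  cases i with
  | zero => exact le_refl 1
  | succ i =>
    show 1 ≤ ⌈Real.exp (β * ((m * K ^ i : ℕ) : ℝ))⌉₊
    exact Nat.one_le_ceil_iff.2 (Real.exp_pos _)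

private theorem CoreB_triv {G : ℂ → ℂ} {σ₁ h T t₀ : ℝ} {N : ℕ} :
    volume (fewY G σ₁ h T t₀ N) ≤ ENNReal.ofReal (2 * T) := by
  have h1 : fewY G σ₁ h T t₀ N ⊆ Set.Ioo (t₀ - T) (t₀ + T) := by
    intro t ht
    have h2 := abs_lt.1 ht.1
    exact ⟨by linarith [h2.1], by linarith [h2.2]⟩
  refine (measure_mono h1).trans ?_
  rw [Real.volume_Ioo]
  exact ENNReal.ofReal_le_ofReal (by linarith)

private theorem CoreB_win {σ₁ h T t₀ t₁ : ℝ} (h1 : |t₁ - t₀| + h ≤ T) :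
    win σ₁ h t₁ ⊆ win σ₁ T t₀ := by
  intro s hs
  refine ⟨hs.1, ?_⟩
  have h2 : |s.im - t₁| < h := hs.2
  have h3 := abs_sub_le s.im t₁ t₀
  show |s.im - t₀| < T
  linarith

theorem tCoreB (h1 : S_Rad) (h2 : S_Sca) (h3 : S_BadB) (h4 : S_WinB) (h5 : S_NumC) : S_CoreB := by
  intro quo V₂ hquo hdet h hh C b k hC hb σ₁ hσ₁ hσb
  have hh2 : 0 < h / 2 := by positivity
  obtain ⟨r₀, R, R', R₂, R₁, hR⟩ := h1 (h / 2) σ₁ b hh2 hσ₁ hσb hb
  have hR'0 : 0 < R' := by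
    have := hR.r₀pos
    have := hR.lt1
    have := hR.lt2
    linarith
  refine ⟨ell (h / 2) R, hR.e4, hR.e2, ?_⟩
  intro η B hη hB
  obtain ⟨A', m₀, δ, β, θ, hA', hm₀, hδ, hβ, hθ0, hθ1, hSca⟩ :=
    h2 (h / 2) σ₁ b r₀ R R' R₂ R₁ C η B k hh2 hC hη hB hR
  obtain ⟨C₃, hC₃, hDet⟩ := hdet (h / 2) σ₁ b r₀ R R' R₂ R₁ C A' hh2 hC hR hA'
  obtain ⟨Kk, E, c₁, V₁, hK, hE, hc₁, hc₁', hV₁, hNum⟩ :=
    h5 δ β θ (h / 2) C₃ A' m₀ hδ hβ hθ0 hθ1 hh2 (by linarith)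
  refine ⟨10 * E, c₁, max (max V₁ V₂) (max C₃ 3), by linarith, hc₁, hc₁', ?_⟩
  intro V T t₀ hV hVT c hc hLow G hG1 hG2 hG3 N hN
  have hVV₁ : V₁ ≤ V := le_trans (le_trans (le_max_left _ _) (le_max_left _ _)) hV
  have hVV₂ : V₂ ≤ V := le_trans (le_trans (le_max_right _ _) (le_max_left _ _)) hV
  have hVC₃ : C₃ ≤ V := le_trans (le_trans (le_max_left _ _) (le_max_right _ _)) hV
  have hV3 : 3 ≤ V := le_trans (le_trans (le_max_right _ _) (le_max_right _ _)) hV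
  have hT0 : 0 < T := by linarith
  have hQu := hquo V T N hVV₂ hVT hN
  obtain ⟨Qu, hQudef⟩ : ∃ Qu : ℝ, Qu = quo V T N := ⟨_, rfl⟩
  rw [← hQudef] at hQu ⊢
  rcases hNum V T Qu hVV₁ hVT hQu with hbig |
    ⟨I, m, hI, hm1, hmm₀, hCQ, hVm, hmK, hblk, hτ, hprod, hsum, h4h, hpow⟩
  · refine CoreB_triv.trans (ENNReal.ofReal_le_ofReal ?_)
    refine mul_le_mul_of_nonneg_right ?_ hT0.le
    linarith
  · have hKpos : 0 < Kk := by omega
    have hmle : ∀ i : ℕ, m ≤ m * Kk ^ i := fun i =>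
      Nat.le_mul_of_pos_right m (Nat.pow_pos hKpos)
    have hmsI : ∀ i : ℕ, i < I → ((m * Kk ^ i : ℕ) : ℝ) ≤ Real.log T := by
      intro i hi
      refine le_trans ?_ hmK
      exact_mod_cast Nat.mul_le_mul_left m (Nat.pow_le_pow_right hKpos hi.le)
    have hmlog : (m : ℝ) ≤ Real.log T := by
      refine le_trans ?_ hmK
      exact_mod_cast hmle I
    obtain ⟨δ', al, D, js, hδ', h4N, hKrn, hdetG⟩ :=
      hDet V T N m hVC₃ hVT hN (by rw [← hQudef]; exact hCQ) hmlog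
    have hex : ∀ i : ℕ, ∃ (kk : ℕ) (q : ℝ), i < I →
        ScD (h / 2) R' c A' (m * Kk ^ i) (Mb β m Kk i) (Mb β m Kk (i + 1)) (al (m * Kk ^ i))
          (D (m * Kk ^ i)) (js (m * Kk ^ i)) kk q (θ ^ m) := by
      intro i
      by_cases hi : i < I
      · obtain ⟨b1, b2, b3, b4, b5⟩ := hblk i hi
        obtain ⟨hk1, hk2⟩ := hKrn (m * Kk ^ i) (hmle i) (hmsI i hi)
        have hexp : V ^ 2 ≤ Real.exp ((m * Kk ^ i : ℕ) : ℝ) :=
          hVm.trans (Real.exp_le_exp.2 (by exact_mod_cast hmle i))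
        obtain ⟨kk, q, hS⟩ := hSca c hc (V ^ 2) hLow (m * Kk ^ i) (Mb β m Kk i)
          (Mb β m Kk (i + 1)) (al (m * Kk ^ i)) (D (m * Kk ^ i)) (js (m * Kk ^ i))
          (hmm₀.trans (hmle i)) hexp (CoreB_one_le i) b4.le b1 b2 b3 hk1 hk2
        refine ⟨kk, q, fun _ => ⟨hS.k1, hS.k2, hS.q1, hS.nw, hS.pp, ?_, hS.lo, hS.dif, hS.trn⟩⟩
        intro m' hm'
        exact (hS.up m' hm').trans (pow_le_pow_of_le_one hθ0.le hθ1.le (hmle i))
      · exact ⟨0, 0, fun h => absurd h hi⟩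
    choose kk q hScD using hex
    obtain ⟨p, hp⟩ : ∃ p : ℝ, p = (9 / 10 : ℝ) ^ I := ⟨_, rfl⟩
    have hp0 : 0 < p := by rw [hp]; positivity
    have hp1 : p ≤ 1 := by rw [hp]; exact pow_le_one₀ (by norm_num) (by norm_num)
    rw [← hp] at hprod hsum h4h hpow
    obtain ⟨Bd, hBd⟩ : ∃ Bd : Set ℝ, Bd = {t : ℝ | |t - t₀| < T ∧
        ¬ ((∀ i < I, ∀ k : ℕ, m * Kk ^ i ≤ k → k ≤ A' * (m * Kk ^ i) →
          ‖eW (h / 2) c k t‖ ≤ (V + ((m * Kk ^ i : ℕ) : ℝ)) * q i ^ k) ∧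
          ∃ i < I, 1 / 4 ≤ ‖cmb (al (m * Kk ^ i)) (D (m * Kk ^ i)) (kk i) (js (m * Kk ^ i)) (q i)
            (fun k => eW (h / 2) c k t)‖)} := ⟨_, rfl⟩
    have hvol : volume Bd ≤ ENNReal.ofReal (4 * p * T) := by
      have hb3 := h3 (h / 2) R' T t₀ V (θ ^ m) A' I (fun i => m * Kk ^ i) (Mb β m Kk)
        (fun i => D (m * Kk ^ i)) (fun i => js (m * Kk ^ i)) kk (fun i => al (m * Kk ^ i)) q c
        hR'0 (by linarith) hT0.le (pow_nonneg hθ0.le m) (CoreB_one_le 0)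
        (fun i _ => hm1.trans (hmle i)) (fun i hi => (hblk i hi).2.2.2.1)
        (fun i hi => (hblk i hi).2.2.2.2) hτ (fun i hi => hScD i hi)
      rw [hBd]
      refine hb3.trans (ENNReal.ofReal_le_ofReal ?_)
      rw [← hp]
      linarith
    have hwin := h4 G σ₁ (h / 2) δ' (4 * p * T) T t₀ N Bd hh2 hδ' (by positivity)
      (by nlinarith) hN h4N hvol (by
        intro t₁ ht₁ hZ
        have hsub : win σ₁ (2 * (h / 2)) t₁ ⊆ win σ₁ T t₀ := CoreB_win (by linarith)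
        obtain ⟨Q, hQ1, hQ2⟩ := hdetG c G t₁ hc (hG1.mono hsub) (fun s hs => hG2 s (hsub hs))
          (fun s hs h3 => hG3 s (hsub hs) h3) hZ
        refine ⟨Q, hQ1, ?_⟩
        intro t ht htQ htB
        have htT : |t - t₀| < T := by
          have := abs_sub_le t t₁ t₀
          linarith
        rw [hBd] at htB
        have hPt : (∀ i < I, ∀ k : ℕ, m * Kk ^ i ≤ k → k ≤ A' * (m * Kk ^ i) →
            ‖eW (h / 2) c k t‖ ≤ (V + ((m * Kk ^ i : ℕ) : ℝ)) * q i ^ k) ∧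
            ∃ i < I, 1 / 4 ≤ ‖cmb (al (m * Kk ^ i)) (D (m * Kk ^ i)) (kk i) (js (m * Kk ^ i)) (q i)
              (fun k => eW (h / 2) c k t)‖ := by
          by_contra hcon
          exact htB ⟨htT, hcon⟩
        obtain ⟨hP1, i, hi, hP2⟩ := hPt
        have hS := hScD i hi
        exact hQ2 t ht htQ (m * Kk ^ i) (kk i) (q i) (hmle i) (hmsI i hi) hS.k1 hS.k2 hS.q1
          (fun k hk1 hk2 => hP1 i hi k hk1 hk2) hP2)
    have e2h : 2 * (h / 2) = h := by ring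
    rw [e2h] at hwin
    refine hwin.trans (ENNReal.ofReal_le_ofReal ?_)
    have e1 : p * T ≤ E * (Qu / Real.log T) ^ c₁ * T := mul_le_mul_of_nonneg_right hpow hT0.le
    have e2 : 0 < p * T := by positivity
    nlinarith

end MP7ed9c3.Tp
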