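import Pool.Agent.Lib.MP_7ed9c3_nt.Tp.SpecB

/-!
# MP_7ed9c3_nt, project TP, module DetH: the detector with the Fejer kernel
-/

set_option autoImplicit false

namespace MP7ed9c3.Tp

open NumberField IsDedekindDomain Filter Topology MeasureTheory Metric
open MP7ed9c3.Aw

private theorem DetH_log {V : ℝ} (hV : 3 ≤ V) : 1 ≤ Real.log V := by
  rw [Real.le_log_iff_exp_le (by linarith)]
  have := Real.exp_one_lt_d9
  linarith

private theorem DetH_logadd {V T : ℝ} {m : ℕ} (hV : 3 ≤ V) (hVT : V ≤ T)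
    (hm : (m : ℝ) ≤ Real.log T) :
    Real.log (V + m) ≤ Real.log V + Real.log (Real.log T) + 1 := by
  have hT : 1 ≤ Real.log T := DetH_log (hV.trans hVT)
  have hm0 : (0 : ℝ) ≤ m := Nat.cast_nonneg m
  have h1 : V + m ≤ V * (2 * Real.log T) := by
    have h2 : V * (1 + m) ≤ V * (2 * Real.log T) :=
      mul_le_mul_of_nonneg_left (by linarith) (by linarith)
    nlinarith
  have h3 : Real.log (V + m) ≤ Real.log (V * (2 * Real.log T)) :=
    Real.log_le_log (by linarith) h1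
  rw [Real.log_mul (by linarith) (by positivity), Real.log_mul (by norm_num) (by linarith)] at h3
  have h4 : Real.log 2 ≤ 1 := by
    have := Real.log_two_lt_d9
    linarith
  linarith

private theorem DetH_win {σ₁ h t t₁ : ℝ} (ht : |t - t₁| < h) :
    win σ₁ h t ⊆ win σ₁ (2 * h) t₁ := by
  intro s hs
  refine ⟨hs.1, ?_⟩
  have h1 := hs.2
  have h2 : |s.im - t₁| ≤ |s.im - t| + |t - t₁| := abs_sub_le _ _ _
  linarith

theorem tDetH (h1 : S_LocW) : S_DetH := by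
  intro h σ₁ b r₀ R R' R₂ R₁ C A' hh hC hR hA'
  obtain ⟨D₀, hD₀, hL⟩ := h1 h σ₁ b r₀ R R' R₂ R₁ C A' hh hC hR (by omega)
  have hq0 : 0 ≤ 4 * D₀ / h := by positivity
  refine ⟨8 * D₀ * (4 * D₀ / h + 2) + 3, ?_, ?_⟩
  · have : 0 ≤ 8 * D₀ * (4 * D₀ / h + 2) := by positivity
    linarith
  intro V T N m₀ hCV hVT hN hm₀ hm₀T
  have hC3 : 3 ≤ V := by
    have : 0 ≤ 8 * D₀ * (4 * D₀ / h + 2) := by positivity
    linarith
  have hlV : 1 ≤ Real.log V := DetH_log hC3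
  have hlT : 1 ≤ Real.log T := DetH_log (hC3.trans hVT)
  have hllT : 0 ≤ Real.log (Real.log T) := Real.log_nonneg hlT
  have hN1 : (1 : ℝ) ≤ N := by exact_mod_cast hN
  obtain ⟨l, hl⟩ : ∃ l : ℝ, l = N + Real.log V + Real.log (Real.log T) := ⟨_, rfl⟩
  have hl2 : 2 ≤ l := by linarith
  have hm₀' : (8 * D₀ * (4 * D₀ / h + 2) + 3) * (N * l) ≤ m₀ := by
    rw [hl]; exact hm₀
  obtain ⟨L, hLdef⟩ : ∃ L : ℕ, L = ⌈3 * D₀ * l⌉₊ := ⟨_, rfl⟩
  have hDl : 0 ≤ 3 * D₀ * l := by positivity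
  have hL1 : 3 * D₀ * l ≤ L := by rw [hLdef]; exact Nat.le_ceil _
  have hL2 : (L : ℝ) ≤ 4 * D₀ * l := by
    have h2 : (L : ℝ) < 3 * D₀ * l + 1 := by rw [hLdef]; exact Nat.ceil_lt_add_one hDl
    nlinarith
  have hLpos : (0 : ℝ) < L := by nlinarith
  have hL0 : 1 ≤ L := by exact_mod_cast hLpos
  obtain ⟨n, hndef⟩ : ∃ n : ℕ, n = m₀ / (2 * L) := ⟨_, rfl⟩
  have hn1 : (m₀ : ℝ) < (n + 1) * (2 * L) := by
    have h2 : m₀ < 2 * L * (m₀ / (2 * L) + 1) := Nat.lt_mul_div_succ m₀ (by omega)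
    rw [← hndef] at h2
    have h3 : (m₀ : ℝ) < 2 * L * (n + 1) := by exact_mod_cast h2
    linarith
  have hn2 : n * (2 * L) ≤ m₀ := by rw [hndef]; exact Nat.div_mul_le_self _ _
  have hn3 : (N : ℝ) * (4 * D₀ / h + 2) < n + 1 := by
    have hD0 : 0 < D₀ := by linarith
    have hl0 : 0 < l := by linarith
    have h2 : (n + 1 : ℝ) * (2 * L) ≤ (n + 1) * (8 * D₀ * l) :=
      mul_le_mul_of_nonneg_left (by linarith) (by positivity)
    have h3 : 8 * D₀ * (4 * D₀ / h + 2) * (N * l) ≤ m₀ := by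
      have : 0 ≤ 3 * ((N : ℝ) * l) := by positivity
      linarith
    have h4 : (8 * D₀ * l) * ((N : ℝ) * (4 * D₀ / h + 2)) < (8 * D₀ * l) * (n + 1) := by
      calc (8 * D₀ * l) * ((N : ℝ) * (4 * D₀ / h + 2)) =
          8 * D₀ * (4 * D₀ / h + 2) * (N * l) := by ring
        _ ≤ m₀ := h3
        _ < (n + 1) * (2 * L) := hn1
        _ ≤ (n + 1) * (8 * D₀ * l) := h2
        _ = (8 * D₀ * l) * (n + 1) := by ring
    exact lt_of_mul_lt_mul_left h4 (by positivity)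
  have hn4 : (N : ℝ) * (4 * D₀ / h) + 1 < n := by nlinarith
  have hNq : 0 ≤ (N : ℝ) * (4 * D₀ / h) := by positivity
  have hn5 : (1 : ℝ) < n := by linarith
  have hn0 : 1 ≤ n := by
    have : (1 : ℕ) < n := by exact_mod_cast hn5
    omega
  have hnpos : (0 : ℝ) < n := by linarith
  obtain ⟨js, hjs, hbig⟩ := Tk.exists_large hn0 hL0
  refine ⟨D₀ / n, fun _ => Tk.al n L, fun _ => n * L, fun _ => js, by positivity, ?_, ?_, ?_⟩
  · have h2 : 4 * N * (D₀ / n) = (N * (4 * D₀ / h)) * h / n := by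
      field_simp
    rw [h2, div_le_iff₀ hnpos]
    have h3 : (N : ℝ) * (4 * D₀ / h) * h ≤ n * h :=
      mul_le_mul_of_nonneg_right (by linarith) hh.le
    linarith
  · intro m hm _
    refine ⟨⟨fun j => Tk.al_nonneg n L j, Tk.sum_al_real hn0 hL0, hjs, ?_⟩, ?_⟩
    · have hpos : (0 : ℝ) < ((n * L : ℕ) : ℝ) := by
        have : 0 < n * L := Nat.mul_pos hn0 hL0
        exact_mod_cast this
      rw [div_le_iff₀ hpos] at hbig
      linarith
    · show 2 * (n * L) ≤ m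
      have h2 : 2 * (n * L) = n * (2 * L) := by ring
      omega
  · intro c G t₁ hc hG hGV hGe hZ
    refine ⟨∅, by simp, ?_⟩
    intro t ht _ m kk q hm hmT hkk hkkA hq he hcmb
    have hw := DetH_win (σ₁ := σ₁) ht
    have hlog := DetH_logadd hC3 hVT hmT
    refine hL c G t V (V + m) q m N kk n L js hc (by linarith) (hG.mono hw)
      (fun s hs => hGV s (hw hs)) (fun s hs => hGe s (hw hs)) hN
      (fun Z hZ' => hZ Z fun ρ hρ => ⟨hw (hZ' ρ hρ).1, (hZ' ρ hρ).2⟩) hq le_rfl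
      (fun k hk1 hk2 => he k hk1 (hk2.trans (Nat.mul_le_mul_right m (by omega)))) ?_ ?_ hn0 hjs
      hkk hkkA hcmb
    · refine le_trans ?_ hL1
      have h2 : N + Real.log (V + m) ≤ 2 * l := by linarith
      have h3 : D₀ * (N + Real.log (V + m)) ≤ D₀ * (2 * l) :=
        mul_le_mul_of_nonneg_left h2 (by linarith)
      have h4 : 0 ≤ D₀ * l := by positivity
      linarith
    · have h2 : 2 * (n * L) = n * (2 * L) := by ring
      omega

end MP7ed9c3.Tp
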