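import Pool.Agent.Lib.MP_7ed9c3_nt.Tp.Spec

/-!
# MP_7ed9c3_nt, project TPW: Fac, dividing out the zeros in a closed disc
-/

set_option autoImplicit false

namespace MP7ed9c3.Tp

open MeasureTheory Metric MP7ed9c3.Aw
open Complex Filter Topology

/-- the orders are finite -/
private theorem Fac_order {U : Set ℂ} (hU : IsOpen U) (hc : IsPreconnected U) {f : ℂ → ℂ}
    (hf : DifferentiableOn ℂ f U) {z₀ : ℂ} (hz₀ : z₀ ∈ U) (h₀ : f z₀ ≠ 0) {z : ℂ} (hz : z ∈ U) :
    analyticOrderAt f z ≠ ⊤ := by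
  intro h
  rw [analyticOrderAt_eq_top] at h
  have ha : AnalyticOnNhd ℂ f U := hf.analyticOnNhd hU
  have := ha.eqOn_zero_of_preconnected_of_frequently_eq_zero hc hz
    (h.filter_mono nhdsWithin_le_nhds).frequently
  exact h₀ (this hz₀)

/-- dividing out one zero -/
private theorem Fac_one {U : Set ℂ} (hU : IsOpen U) (hc : IsPreconnected U) {f : ℂ → ℂ}
    (hf : DifferentiableOn ℂ f U) {z₀ : ℂ} (hz₀ : z₀ ∈ U) (h₀ : f z₀ ≠ 0) {ρ : ℂ} (hρU : ρ ∈ U) :
    ∃ f₁ : ℂ → ℂ, DifferentiableOn ℂ f₁ U ∧ f₁ ρ ≠ 0 ∧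
      ∀ z, f z = (z - ρ) ^ analyticOrderNatAt f ρ * f₁ z := by
  have ha : AnalyticOnNhd ℂ f U := hf.analyticOnNhd hU
  obtain ⟨g, hg, hg0, hfg⟩ := (ha ρ hρU).analyticOrderAt_ne_top.1 (Fac_order hU hc hf hz₀ h₀ hρU)
  set m := analyticOrderNatAt f ρ with hm
  classical
  set f₁ : ℂ → ℂ := Function.update (fun z => f z / (z - ρ) ^ m) ρ (g ρ) with hf₁
  have hne : ∀ z, z ≠ ρ → f₁ z = f z / (z - ρ) ^ m := fun z hz => by
    rw [hf₁, Function.update_of_ne hz]
  have hρ : f₁ ρ = g ρ := by rw [hf₁, Function.update_self]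
  have heq : f₁ =ᶠ[𝓝 ρ] g := by
    filter_upwards [hfg] with z hz
    by_cases h : z = ρ
    · rw [h, hρ]
    · rw [hne z h, hz, smul_eq_mul, mul_div_assoc, mul_comm, div_mul_cancel₀]
      exact pow_ne_zero _ (sub_ne_zero.mpr h)
  refine ⟨f₁, ?_, by rwa [hρ], ?_⟩
  · intro z hzU
    apply DifferentiableAt.differentiableWithinAt
    by_cases h : z = ρ
    · rw [h]
      exact (hg.differentiableAt).congr_of_eventuallyEq heq
    · have h1 : DifferentiableAt ℂ (fun z => f z / (z - ρ) ^ m) z := by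
        apply DifferentiableAt.div ((hf z hzU).differentiableAt (hU.mem_nhds hzU))
        · fun_prop
        · exact pow_ne_zero _ (sub_ne_zero.mpr h)
      apply h1.congr_of_eventuallyEq
      filter_upwards [isOpen_ne.mem_nhds h] with w hw
      exact hne w hw
  · intro z
    by_cases h : z = ρ
    · rw [h]
      have h1 : f ρ = (ρ - ρ) ^ m • g ρ := hfg.self_of_nhds
      rw [h1, hρ, smul_eq_mul]
    · rw [hne z h, mul_div_cancel₀]
      exact pow_ne_zero _ (sub_ne_zero.mpr h)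

/-- dividing out finitely many points -/
private theorem Fac_many {U : Set ℂ} (hU : IsOpen U) (hc : IsPreconnected U) {f : ℂ → ℂ}
    (hf : DifferentiableOn ℂ f U) {z₀ : ℂ} (hz₀ : z₀ ∈ U) (h₀ : f z₀ ≠ 0) (Z : Finset ℂ)
    (hZ : ∀ z ∈ Z, z ∈ U) :
    ∃ G : ℂ → ℂ, DifferentiableOn ℂ G U ∧ (∀ ρ ∈ Z, G ρ ≠ 0) ∧
      ∀ z, f z = (∏ ρ ∈ Z, (z - ρ) ^ analyticOrderNatAt f ρ) * G z := by
  classical
  induction Z using Finset.induction_on with
  | empty => exact ⟨f, hf, by simp, by simp⟩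
  | insert ρ Z hρ ih =>
    obtain ⟨G, hG, hG0, hfG⟩ := ih fun z hz => hZ z (Finset.mem_insert_of_mem hz)
    have hρU : ρ ∈ U := hZ ρ (Finset.mem_insert_self _ _)
    have hGz : G z₀ ≠ 0 := by
      intro h
      apply h₀
      rw [hfG, h, mul_zero]
    obtain ⟨G₁, hG₁, hG₁0, hGG⟩ := Fac_one hU hc hG hz₀ hGz hρU
    set P : ℂ → ℂ := fun z => ∏ ρ ∈ Z, (z - ρ) ^ analyticOrderNatAt f ρ with hP
    have hPd : Differentiable ℂ P := by
      rw [hP]
      fun_prop
    have hPρ : P ρ ≠ 0 := by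
      rw [hP]
      simp only
      rw [Finset.prod_ne_zero_iff]
      intro σ hσ
      apply pow_ne_zero
      rw [sub_ne_zero]
      rintro rfl
      exact hρ hσ
    have hord : analyticOrderNatAt G ρ = analyticOrderNatAt f ρ := by
      have h1 : f = P * G := by
        funext z
        rw [hfG z]
        rfl
      have h2 : analyticOrderAt P ρ = 0 := (hPd.analyticAt ρ).analyticOrderAt_eq_zero.2 hPρ
      have h3 : analyticOrderAt f ρ = analyticOrderAt G ρ := by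
        rw [h1, analyticOrderAt_mul (hPd.analyticAt ρ) (hG.analyticOnNhd hU ρ hρU), h2, zero_add]
      rw [analyticOrderNatAt, analyticOrderNatAt, h3]
    refine ⟨G₁, hG₁, ?_, ?_⟩
    · intro σ hσ
      rw [Finset.mem_insert] at hσ
      rcases hσ with rfl | hσ
      · exact hG₁0
      · intro h
        apply hG0 σ hσ
        rw [hGG, h, mul_zero]
    · intro z
      rw [Finset.prod_insert hρ, hfG z, hGG z, hord]
      ring

/-- the zeros in a closed disc are finite in number -/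
private theorem Fac_finite {R₁ R₂ : ℝ} {g : ℂ → ℂ} (h2 : R₁ < R₂) (h1 : 0 < R₁)
    (hg : DifferentiableOn ℂ g (ball 0 R₂)) (h0 : g 0 ≠ 0) :
    {a : ℂ | ‖a‖ ≤ R₁ ∧ g a = 0}.Finite := by
  by_contra hinf
  have hinf' : {a : ℂ | ‖a‖ ≤ R₁ ∧ g a = 0}.Infinite := hinf
  obtain ⟨x, hx, hacc⟩ := hinf'.exists_accPt_of_subset_isCompact
    (isCompact_closedBall (0 : ℂ) R₁) (fun a ha => by
      rw [mem_closedBall_zero_iff]; exact ha.1)
  rw [accPt_iff_frequently_nhdsNE] at hacc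
  have ha : AnalyticOnNhd ℂ g (ball 0 R₂) := hg.analyticOnNhd isOpen_ball
  have hxb : x ∈ ball (0 : ℂ) R₂ := closedBall_subset_ball h2 hx
  have hfr : ∃ᶠ z in 𝓝[≠] x, g z = 0 := hacc.mono fun z hz => hz.2
  have := ha.eqOn_zero_of_preconnected_of_frequently_eq_zero
    (convex_ball (0 : ℂ) R₂).isPreconnected hxb hfr
  exact h0 (this (mem_ball_self (h1.trans h2)))

theorem tFac : S_Fac := by
  intro R₁ R₂ g h1 h2 hg h0
  have hfin := Fac_finite h2 h1 hg h0
  have hc : IsPreconnected (ball (0 : ℂ) R₂) := (convex_ball (0 : ℂ) R₂).isPreconnected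
  have h0b : (0 : ℂ) ∈ ball (0 : ℂ) R₂ := mem_ball_self (h1.trans h2)
  have hmem : ∀ a, a ∈ hfin.toFinset ↔ ‖a‖ ≤ R₁ ∧ g a = 0 := fun a => by
    rw [Set.Finite.mem_toFinset]; rfl
  have hSb : ∀ z ∈ hfin.toFinset, z ∈ ball (0 : ℂ) R₂ := fun z hz => by
    rw [mem_ball_zero_iff]
    exact lt_of_le_of_lt ((hmem z).1 hz).1 h2
  obtain ⟨H, hH, hH0, hgH⟩ := Fac_many isOpen_ball hc hg h0b h0 hfin.toFinset hSb
  refine ⟨hfin.toFinset, analyticOrderNatAt g, H, hmem, ?_, hH, ?_, ?_⟩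
  · intro a ha
    by_contra hlt
    have hz : analyticOrderNatAt g a = 0 := by omega
    have h3 := Fac_order isOpen_ball hc hg h0b h0 (hSb a ha)
    have h4 : analyticOrderAt g a = 0 := by
      rw [← Nat.cast_analyticOrderNatAt h3, hz]; rfl
    have h5 : AnalyticAt ℂ g a := hg.analyticOnNhd isOpen_ball a (hSb a ha)
    exact (h5.analyticOrderAt_eq_zero.1 h4) ((hmem a).1 ha).2
  · intro u hu
    rw [mem_closedBall_zero_iff] at hu
    by_cases h : g u = 0
    · exact hH0 u ((hmem u).2 ⟨hu, h⟩)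
    · intro h'
      apply h
      rw [hgH u, h', mul_zero]
  · intro u _
    rw [hgH u, mul_comm]

end MP7ed9c3.Tp
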