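import Pool.Agent.Lib.MP_7ed9c3_nt.Tp.SpecK

/-! Project TP, part K: zeros far from `-1/q` contribute little to the combination with the Fejer kernel. -/

set_option autoImplicit false

namespace MP7ed9c3.Tp

open MeasureTheory Metric MP7ed9c3.Aw

theorem tFar : S_Far := by
  intro S b e q η δ n L kk js hn hL hq hη hnη hηk hS hfar he
  set k0 := kk - js with hk0
  have hqC : (q : ℂ) ≠ 0 := by exact_mod_cast hq.ne'
  have hane : ∀ a ∈ S, a ≠ 0 := by
    intro a ha h0
    have h1 := hS a ha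
    rw [h0, norm_zero, mul_zero] at h1
    exact absurd h1 (not_le.2 (Real.exp_pos _))
  -- the part of the zeros
  set T : ℂ := ∑ a ∈ S, (b a : ℂ) * ∑ j ∈ Finset.range (n * L), (Tk.al n L j : ℂ) *
    (-((q : ℂ) * a)⁻¹) ^ (k0 + j) with hT
  have hsum : cmb (Tk.al n L) (n * L) kk js q e + T =
      ∑ j ∈ Finset.range (n * L), (Tk.al n L j : ℂ) * (-(q : ℂ)⁻¹) ^ (k0 + j) *
        (((k0 + j : ℕ) : ℂ) * e (k0 + j) + ∑ a ∈ S, (b a : ℂ) * a⁻¹ ^ (k0 + j)) := by
    have h1 : T = ∑ j ∈ Finset.range (n * L), (Tk.al n L j : ℂ) * (-(q : ℂ)⁻¹) ^ (k0 + j) *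
        ∑ a ∈ S, (b a : ℂ) * a⁻¹ ^ (k0 + j) := by
      rw [hT]
      simp only [Finset.mul_sum]
      rw [Finset.sum_comm]
      refine Finset.sum_congr rfl fun j _ => Finset.sum_congr rfl fun a _ => ?_
      have h2 : -((q : ℂ) * a)⁻¹ = (-(q : ℂ)⁻¹) * a⁻¹ := by
        rw [mul_inv]; ring
      rw [h2, mul_pow]
      ring
    rw [h1]
    unfold cmb
    rw [← Finset.sum_add_distrib]
    refine Finset.sum_congr rfl fun j _ => ?_
    ring
  have hA : ‖cmb (Tk.al n L) (n * L) kk js q e + T‖ ≤ δ := by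
    rw [hsum]
    calc ‖∑ j ∈ Finset.range (n * L), (Tk.al n L j : ℂ) * (-(q : ℂ)⁻¹) ^ (k0 + j) *
        (((k0 + j : ℕ) : ℂ) * e (k0 + j) + ∑ a ∈ S, (b a : ℂ) * a⁻¹ ^ (k0 + j))‖
        ≤ ∑ j ∈ Finset.range (n * L), Tk.al n L j * δ := by
          refine (norm_sum_le _ _).trans (Finset.sum_le_sum fun j hj => ?_)
          have hj' := Finset.mem_range.1 hj
          have h1 := he (k0 + j) (Nat.le_add_right _ _) (Nat.add_lt_add_left hj' _)
          rw [norm_mul, norm_mul, norm_pow, norm_neg, norm_inv, Complex.norm_real,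
            Complex.norm_real, Real.norm_of_nonneg (Tk.al_nonneg n L j),
            Real.norm_of_nonneg hq.le, mul_assoc]
          refine mul_le_mul_of_nonneg_left ?_ (Tk.al_nonneg n L j)
          calc q⁻¹ ^ (k0 + j) * ‖((k0 + j : ℕ) : ℂ) * e (k0 + j) +
                ∑ a ∈ S, (b a : ℂ) * a⁻¹ ^ (k0 + j)‖
              ≤ q⁻¹ ^ (k0 + j) * (δ * q ^ (k0 + j)) :=
                mul_le_mul_of_nonneg_left h1 (by positivity)
            _ = δ := by
                rw [inv_pow]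
                field_simp
      _ = δ := by rw [← Finset.sum_mul, Tk.sum_al_real hn hL, one_mul]
  have hB : ‖T‖ ≤ ((∑ a ∈ S, b a : ℕ) : ℝ) * Real.exp (-(L : ℝ)) := by
    rw [hT]
    push_cast
    rw [Finset.sum_mul]
    refine (norm_sum_le _ _).trans (Finset.sum_le_sum fun a ha => ?_)
    rw [norm_mul, Complex.norm_natCast]
    refine mul_le_mul_of_nonneg_left ?_ (Nat.cast_nonneg _)
    set w : ℂ := -((q : ℂ) * a)⁻¹ with hw
    have hw1 : ‖w‖ ≤ Real.exp η := by
      have h1 := hS a ha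
      have h2 : 0 < q * ‖a‖ := mul_pos hq (norm_pos_iff.2 (hane a ha))
      have h3 : ‖w‖ = (q * ‖a‖)⁻¹ := by
        rw [hw, norm_neg, norm_inv, norm_mul, Complex.norm_real, Real.norm_of_nonneg hq.le]
      rw [h3, inv_le_comm₀ h2 (Real.exp_pos _), ← Real.exp_neg]
      exact h1
    have h1 : ∑ j ∈ Finset.range (n * L), (Tk.al n L j : ℂ) * w ^ (k0 + j) =
        w ^ k0 * ∑ j ∈ Finset.range (n * L), (Tk.al n L j : ℂ) * w ^ j := by
      rw [Finset.mul_sum]
      refine Finset.sum_congr rfl fun j _ => ?_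
      rw [pow_add]; ring
    have h2 : ‖∑ j ∈ Finset.range (n * L), (Tk.al n L j : ℂ) * w ^ j‖ ≤
        Real.exp (-(2 * (L : ℝ))) := by
      refine Tk.norm_ker_le hn hL hw1 hnη ?_
      rw [hw, sub_neg_eq_add]
      exact hfar a ha
    have h3 : ‖w ^ k0‖ ≤ Real.exp L := by
      rw [norm_pow]
      calc ‖w‖ ^ k0 ≤ (Real.exp η) ^ k0 := pow_le_pow_left₀ (norm_nonneg _) hw1 _
        _ = Real.exp (k0 * η) := by rw [← Real.exp_nat_mul]
        _ ≤ Real.exp L := by
            refine Real.exp_le_exp.2 ?_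
            have h4 : (k0 : ℝ) ≤ kk := by
              rw [hk0]
              exact_mod_cast Nat.sub_le kk js
            calc (k0 : ℝ) * η ≤ kk * η := mul_le_mul_of_nonneg_right h4 hη
              _ = η * kk := mul_comm _ _
              _ ≤ L := hηk
    rw [h1, norm_mul]
    calc ‖w ^ k0‖ * ‖∑ j ∈ Finset.range (n * L), (Tk.al n L j : ℂ) * w ^ j‖
        ≤ Real.exp L * Real.exp (-(2 * (L : ℝ))) :=
          mul_le_mul h3 h2 (norm_nonneg _) (Real.exp_pos _).le
      _ = Real.exp (-(L : ℝ)) := by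
          rw [← Real.exp_add]
          ring_nf
  have h1 : cmb (Tk.al n L) (n * L) kk js q e = (cmb (Tk.al n L) (n * L) kk js q e + T) - T := by
    ring
  rw [h1]
  calc ‖cmb (Tk.al n L) (n * L) kk js q e + T - T‖
      ≤ ‖cmb (Tk.al n L) (n * L) kk js q e + T‖ + ‖T‖ := norm_sub_le _ _
    _ ≤ ((∑ a ∈ S, b a : ℕ) : ℝ) * Real.exp (-(L : ℝ)) + δ := by linarith

end MP7ed9c3.Tp
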