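import Pool.Agent.Lib.MP_7ed9c3_nt.Tp.Spec

set_option autoImplicit false

namespace MP7ed9c3.Tp

open MeasureTheory Metric MP7ed9c3.Aw

private theorem Inj_ne (w : ℂ) (hw : w ∈ ball (0 : ℂ) 1) : 1 + w ≠ 0 ∧ 1 - w ≠ 0 := by
  have h1 : ‖w‖ < 1 := by simpa using hw
  constructor
  · intro h
    have h2 : w = -1 := by linear_combination h
    rw [h2, norm_neg, norm_one] at h1
    exact lt_irrefl _ h1
  · intro h
    have h2 : w = 1 := by linear_combination -h
    rw [h2, norm_one] at h1
    exact lt_irrefl _ h1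

theorem tInj : S_Inj := by
  intro h hh w hw w' hw' e
  obtain ⟨a1, a2⟩ := Inj_ne w hw
  obtain ⟨b1, b2⟩ := Inj_ne w' hw'
  have hc : ((2 * h / Real.pi : ℝ) : ℂ) ≠ 0 := by
    have : 2 * h / Real.pi ≠ 0 := by
      have := Real.pi_pos
      positivity
    exact_mod_cast this
  unfold phi at e
  have e1 := mul_left_cancel₀ hc (add_left_cancel e)
  have e2 := congrArg Complex.exp e1
  rw [Complex.exp_log (div_ne_zero a1 a2), Complex.exp_log (div_ne_zero b1 b2),
    div_eq_div_iff a2 b2] at e2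
  have e3 : 2 * w = 2 * w' := by linear_combination e2
  exact mul_left_cancel₀ two_ne_zero e3

end MP7ed9c3.Tp
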