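import Pool.Agent.Lib.MP_7ed9c3_nt.Tp.Spec

/-!
# MP_7ed9c3_nt, project TP: the total multiplicity of the zeros in a smaller disc (`S_Jen`)
-/

set_option autoImplicit false

namespace MP7ed9c3.Tp

open MeasureTheory Metric MP7ed9c3.Aw

/-- The maximum principle in a disc. -/
private theorem jenMax {f : ℂ → ℂ} {R R₂ C : ℝ} (hR : 0 < R) (hR2 : R < R₂)
    (hf : DifferentiableOn ℂ f (ball 0 R₂)) (hC : ∀ u : ℂ, ‖u‖ = R → ‖f u‖ ≤ C) {u : ℂ}
    (hu : ‖u‖ ≤ R) : ‖f u‖ ≤ C := by
  have hcl : closedBall (0 : ℂ) R ⊆ ball 0 R₂ := closedBall_subset_ball hR2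
  have hd : DiffContOnCl ℂ f (ball 0 R) := by
    refine DifferentiableOn.diffContOnCl ?_
    rw [closure_ball _ hR.ne']
    exact hf.mono hcl
  refine Complex.norm_le_of_forall_mem_frontier_norm_le isBounded_ball hd ?_ ?_
  · intro z hz
    rw [frontier_ball _ hR.ne'] at hz
    exact hC z (by simpa using hz)
  · rw [closure_ball _ hR.ne']
    simpa using hu

/-- The Blaschke factor on the circle. -/
private theorem jenFac {R : ℝ} (hR : 0 < R) (a u : ℂ) (hu : ‖u‖ = R) :
    ‖((R : ℂ) ^ 2 - (starRingEnd ℂ) a * u) / R‖ = ‖u - a‖ := by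
  have h1 : ((R : ℂ) ^ 2 - (starRingEnd ℂ) a * u) = u * (starRingEnd ℂ) (u - a) := by
    have h2 : u * (starRingEnd ℂ) u = (R : ℂ) ^ 2 := by
      rw [Complex.mul_conj, Complex.normSq_eq_norm_sq, hu]
      push_cast
      ring
    rw [map_sub, mul_sub, h2]
    ring
  rw [h1, norm_div, norm_mul, RCLike.norm_conj, hu, Complex.norm_real, Real.norm_of_nonneg hR.le]
  field_simp

theorem tJen : S_Jen := by
  intro R₁ R₂ h0 h12
  obtain ⟨R, hR1, hR2⟩ : ∃ R : ℝ, R₁ < R ∧ R < R₂ := exists_between h12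
  have hR : 0 < R := by linarith
  have hL : 0 < Real.log (R / R₁) := Real.log_pos (by rw [lt_div_iff₀ h0]; linarith)
  refine ⟨(1 + |Real.log (R - R₁)|) * (2 / Real.log (R / R₁)) + 1, by positivity, ?_⟩
  intro V g H S b hV hH hg hgV hg0 ha
  have hnorm : ∀ u : ℂ, ‖u‖ < R₂ → ‖g u‖ = ‖H u‖ * ∏ a ∈ S, ‖u - a‖ ^ b a := by
    intro u hu
    rw [hg u (by simpa using hu), norm_mul, norm_prod]
    simp [norm_pow]
  -- the value at the centre
  have h1 : ‖H 0‖ * R ^ (∑ a ∈ S, b a) ≤ Real.exp V := by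
    have key := jenMax (f := fun u => H u *
      ∏ a ∈ S, (((R : ℂ) ^ 2 - (starRingEnd ℂ) a * u) / R) ^ b a) (C := Real.exp V) hR hR2 ?_ ?_
      (u := 0) (by simpa using hR.le)
    · have hR0 : (R : ℂ) ≠ 0 := by exact_mod_cast hR.ne'
      have e1 : ∀ a ∈ S, (((R : ℂ) ^ 2 - (starRingEnd ℂ) a * 0) / R) ^ b a = (R : ℂ) ^ b a := by
        intro a _
        congr 1
        field_simp
        ring
      rw [Finset.prod_congr rfl e1, Finset.prod_pow_eq_pow_sum, norm_mul, norm_pow,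
        Complex.norm_real, Real.norm_of_nonneg hR.le] at key
      exact key
    · refine hH.mul ?_
      refine DifferentiableOn.fun_finsetProd fun a _ => ?_
      fun_prop
    · intro u hu
      rw [norm_mul, norm_prod]
      have e2 : ∀ a ∈ S, ‖(((R : ℂ) ^ 2 - (starRingEnd ℂ) a * u) / R) ^ b a‖ = ‖u - a‖ ^ b a := by
        intro a _
        rw [norm_pow, jenFac hR a u hu]
      rw [Finset.prod_congr rfl e2, ← hnorm u (by rw [hu]; exact hR2)]
      exact hgV u (by simpa [hu] using hR2)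
  have h2 : Real.exp (-V) ≤ ‖H 0‖ * R₁ ^ (∑ a ∈ S, b a) := by
    refine hg0.trans ?_
    rw [hnorm 0 (by simpa using hR.trans hR2), ← Finset.prod_pow_eq_pow_sum]
    refine mul_le_mul_of_nonneg_left ?_ (norm_nonneg _)
    refine Finset.prod_le_prod (fun a _ => by positivity) fun a haS => ?_
    refine pow_le_pow_left₀ (norm_nonneg _) ?_ _
    simpa using ha a haS
  set N := ∑ a ∈ S, b a with hN
  have h3 : (R / R₁) ^ N ≤ Real.exp (2 * V) := by
    have hp : 0 < R₁ ^ N := by positivity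
    rw [div_pow, div_le_iff₀ hp]
    have h4 : Real.exp (-V) * R ^ N ≤ ‖H 0‖ * R₁ ^ N * R ^ N :=
      mul_le_mul_of_nonneg_right h2 (by positivity)
    have h5 : ‖H 0‖ * R₁ ^ N * R ^ N ≤ Real.exp V * R₁ ^ N := by
      calc ‖H 0‖ * R₁ ^ N * R ^ N = (‖H 0‖ * R ^ N) * R₁ ^ N := by ring
        _ ≤ Real.exp V * R₁ ^ N := mul_le_mul_of_nonneg_right h1 hp.le
    have h6 : Real.exp V * (Real.exp (-V) * R ^ N) ≤ Real.exp V * (Real.exp V * R₁ ^ N) :=
      mul_le_mul_of_nonneg_left (h4.trans h5) (Real.exp_pos _).le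
    have h7 : Real.exp V * (Real.exp (-V) * R ^ N) = R ^ N := by
      rw [← mul_assoc, ← Real.exp_add]
      simp
    have h8 : Real.exp (2 * V) = Real.exp V * Real.exp V := by
      rw [← Real.exp_add]
      congr 1
      ring
    rw [h8]
    rw [h7] at h6
    linarith
  have h4 : (N : ℝ) ≤ 2 / Real.log (R / R₁) * V := by
    have h5 : (N : ℝ) * Real.log (R / R₁) ≤ 2 * V := by
      rw [← Real.log_pow, Real.log_le_iff_le_exp (by positivity)]
      exact h3
    rw [div_mul_eq_mul_div, le_div_iff₀ hL]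
    exact h5
  have hc : 0 ≤ 2 / Real.log (R / R₁) := by positivity
  have habs : 0 ≤ |Real.log (R - R₁)| := abs_nonneg _
  refine ⟨?_, ?_⟩
  · refine h4.trans (mul_le_mul_of_nonneg_right ?_ hV)
    nlinarith [mul_nonneg habs hc]
  · intro u hu
    have hδ : 0 < R - R₁ := by linarith
    refine jenMax hR hR2 hH ?_ (u := u) ((by simpa using hu : ‖u‖ ≤ R₁).trans hR1.le)
    intro z hz
    have h5 : (R - R₁) ^ N ≤ ∏ a ∈ S, ‖z - a‖ ^ b a := by
      rw [hN, ← Finset.prod_pow_eq_pow_sum]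
      refine Finset.prod_le_prod (fun a _ => by positivity) fun a haS => ?_
      refine pow_le_pow_left₀ hδ.le ?_ _
      have h6 := norm_sub_norm_le z a
      have h7 := ha a haS
      rw [hz] at h6
      linarith
    have h6 : ‖H z‖ * (R - R₁) ^ N ≤ Real.exp V := by
      refine (mul_le_mul_of_nonneg_left h5 (norm_nonneg _)).trans ?_
      rw [← hnorm z (by rw [hz]; exact hR2)]
      exact hgV z (by simpa [hz] using hR2)
    have h7 : Real.exp (-(|Real.log (R - R₁)| * N)) ≤ (R - R₁) ^ N := by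
      rw [← Real.le_log_iff_exp_le (by positivity), Real.log_pow]
      have h8 := neg_abs_le (Real.log (R - R₁))
      have h9 : (0 : ℝ) ≤ N := Nat.cast_nonneg _
      nlinarith [mul_le_mul_of_nonneg_right h8 h9]
    have h8 : ‖H z‖ * Real.exp (-(|Real.log (R - R₁)| * N)) ≤ Real.exp V :=
      (mul_le_mul_of_nonneg_left h7 (norm_nonneg _)).trans h6
    have h9 : ‖H z‖ ≤ Real.exp (V + |Real.log (R - R₁)| * N) := by
      rw [Real.exp_neg, ← div_eq_mul_inv, div_le_iff₀ (Real.exp_pos _)] at h8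
      rw [Real.exp_add]
      exact h8
    refine h9.trans (Real.exp_le_exp.2 ?_)
    have h10 := mul_le_mul_of_nonneg_left h4 habs
    have h11 : 0 ≤ 2 / Real.log (R / R₁) * V := mul_nonneg hc hV
    nlinarith

end MP7ed9c3.Tp
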