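import Mathlib

/-!
# MP_7ed9c3_nt, part Tp: the kernel with many scales

`pm n w = (1 + w + … + w^(n-1))/n` and `ks S w = ∏_(s ≤ S) pm (2^s) w ^ (2^(S-s))`, of degree at most `(S+1) 2^S`.
-/

set_option autoImplicit false

namespace MP7ed9c3.Tp

/-- The mean of the powers. -/
noncomputable def pm (n : ℕ) (w : ℂ) : ℂ := (∑ j ∈ Finset.range n, w ^ j) / n

/-- The kernel. -/
noncomputable def ks (S : ℕ) (w : ℂ) : ℂ :=
  ∏ s ∈ Finset.range (S + 1), pm (2 ^ s) w ^ (2 ^ (S - s))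

/-- `g` is an average of the powers `w^k`, `k ≤ D`, with complex coefficients of total mass at most `1`. -/
def Av (g : ℂ → ℂ) (D : ℕ) : Prop :=
  ∀ (ι : Type) (J : Finset ι) (v w : ι → ℂ) (Λ : ℝ),
    (∀ k : ℕ, k ≤ D → ‖∑ j ∈ J, v j * w j ^ k‖ ≤ Λ) → ‖∑ j ∈ J, v j * g (w j)‖ ≤ Λ

theorem av_one : Av (fun _ => 1) 0 := by
  intro ι J v w Λ h
  have := h 0 le_rfl
  simpa using this

theorem av_mono {g : ℂ → ℂ} {D D' : ℕ} (h : Av g D) (hD : D ≤ D') : Av g D' := by
  intro ι J v w Λ hk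
  exact h ι J v w Λ (fun k hk' => hk k (hk'.trans hD))

theorem av_mul {g g' : ℂ → ℂ} {D D' : ℕ} (h : Av g D) (h' : Av g' D') :
    Av (fun w => g w * g' w) (D + D') := by
  intro ι J v w Λ hk
  have h1 : ∀ k : ℕ, k ≤ D' → ‖∑ j ∈ J, (v j * g (w j)) * w j ^ k‖ ≤ Λ := by
    intro k hk'
    have h2 := h ι J (fun j => v j * w j ^ k) w Λ (by
      intro l hl
      have h3 := hk (k + l) (by omega)
      refine le_of_eq_of_le ?_ h3
      congr 1
      apply Finset.sum_congr rfl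
      intro j _
      rw [pow_add]
      ring)
    refine le_of_eq_of_le ?_ h2
    congr 1
    apply Finset.sum_congr rfl
    intro j _
    ring
  have h4 := h' ι J (fun j => v j * g (w j)) w Λ h1
  refine le_of_eq_of_le ?_ h4
  congr 1
  apply Finset.sum_congr rfl
  intro j _
  ring

theorem av_pow {g : ℂ → ℂ} {D : ℕ} (h : Av g D) (q : ℕ) : Av (fun w => g w ^ q) (q * D) := by
  induction q with
  | zero => simpa using av_one
  | succ q ih =>
    have := av_mul ih h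
    have e : (q + 1) * D = q * D + D := by ring
    rw [e]
    simpa [pow_succ] using this

theorem av_prod {g : ℕ → ℂ → ℂ} {D : ℕ → ℕ} (n : ℕ) (h : ∀ s : ℕ, s < n → Av (g s) (D s)) :
    Av (fun w => ∏ s ∈ Finset.range n, g s w) (∑ s ∈ Finset.range n, D s) := by
  induction n with
  | zero => simpa using av_one
  | succ n ih =>
    have h1 := av_mul (ih (fun s hs => h s (by omega))) (h n (by omega))
    rw [Finset.sum_range_succ]
    simpa [Finset.prod_range_succ] using h1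

theorem av_pm (n : ℕ) (hn : 1 ≤ n) (u : ℂ) (hu : ‖u‖ = 1) :
    Av (fun w => pm n (u * w)) (n - 1) := by
  intro ι J v w Λ hk
  have hn' : (0 : ℝ) < n := by exact_mod_cast hn
  have e : ∑ j ∈ J, v j * pm n (u * w j)
      = (∑ l ∈ Finset.range n, u ^ l * ∑ j ∈ J, v j * w j ^ l) / n := by
    unfold pm
    simp_rw [Finset.mul_sum]
    rw [Finset.sum_comm, Finset.sum_div]
    apply Finset.sum_congr rfl
    intro j _
    rw [← mul_div_assoc, Finset.mul_sum]
    congr 1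
    apply Finset.sum_congr rfl
    intro l _
    rw [mul_pow]
    ring
  rw [e, norm_div, Complex.norm_natCast, div_le_iff₀ hn']
  calc ‖∑ l ∈ Finset.range n, u ^ l * ∑ j ∈ J, v j * w j ^ l‖
      ≤ ∑ l ∈ Finset.range n, ‖u ^ l * ∑ j ∈ J, v j * w j ^ l‖ := norm_sum_le _ _
    _ ≤ ∑ l ∈ Finset.range n, Λ := by
        apply Finset.sum_le_sum
        intro l hl
        rw [norm_mul, norm_pow, hu, one_pow, one_mul]
        have := Finset.mem_range.mp hl
        exact hk l (by omega)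
    _ = Λ * n := by simp [mul_comm]

theorem sum_pow_two (S : ℕ) :
    ∑ s ∈ Finset.range (S + 1), 2 ^ (S - s) * (2 ^ s - 1) ≤ (S + 1) * 2 ^ S := by
  calc ∑ s ∈ Finset.range (S + 1), 2 ^ (S - s) * (2 ^ s - 1)
      ≤ ∑ s ∈ Finset.range (S + 1), 2 ^ S := by
        apply Finset.sum_le_sum
        intro s hs
        have hs' : s ≤ S := by have := Finset.mem_range.mp hs; omega
        calc 2 ^ (S - s) * (2 ^ s - 1) ≤ 2 ^ (S - s) * 2 ^ s := Nat.mul_le_mul le_rfl (Nat.sub_le _ _)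
          _ = 2 ^ S := by rw [← pow_add]; congr 1; omega
    _ = (S + 1) * 2 ^ S := by simp

theorem av_ks (S : ℕ) (u : ℂ) (hu : ‖u‖ = 1) :
    Av (fun w => ks S (u * w)) ((S + 1) * 2 ^ S) := by
  have h1 : Av (fun w => ∏ s ∈ Finset.range (S + 1), pm (2 ^ s) (u * w) ^ (2 ^ (S - s)))
      (∑ s ∈ Finset.range (S + 1), 2 ^ (S - s) * (2 ^ s - 1)) := by
    apply av_prod (g := fun s w => pm (2 ^ s) (u * w) ^ (2 ^ (S - s)))
    intro s _
    exact av_pow (av_pm (2 ^ s) Nat.one_le_two_pow u hu) (2 ^ (S - s))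
  exact av_mono h1 (sum_pow_two S)

theorem pm_le (n : ℕ) (hn : 1 ≤ n) (w : ℂ) (η : ℝ) (hη : 0 ≤ η) (hw : ‖w‖ ≤ Real.exp η) :
    ‖pm n w‖ ≤ Real.exp (n * η) := by
  have hn' : (0 : ℝ) < n := by exact_mod_cast hn
  unfold pm
  rw [norm_div, Complex.norm_natCast, div_le_iff₀ hn']
  calc ‖∑ j ∈ Finset.range n, w ^ j‖ ≤ ∑ j ∈ Finset.range n, ‖w ^ j‖ := norm_sum_le _ _
    _ ≤ ∑ j ∈ Finset.range n, Real.exp (n * η) := by
        apply Finset.sum_le_sum
        intro j hj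
        rw [norm_pow]
        calc ‖w‖ ^ j ≤ Real.exp η ^ j := pow_le_pow_left₀ (norm_nonneg _) hw j
          _ = Real.exp (j * η) := by rw [← Real.exp_nat_mul]
          _ ≤ Real.exp (n * η) := by
            apply Real.exp_le_exp.mpr
            have : (j : ℝ) ≤ n := by exact_mod_cast (Finset.mem_range.mp hj).le
            exact mul_le_mul_of_nonneg_right this hη
    _ = Real.exp (n * η) * n := by simp [mul_comm]

theorem pm_le' (n : ℕ) (hn : 1 ≤ n) (w : ℂ) (η : ℝ) (hη : 0 ≤ η) (hw : ‖w‖ ≤ Real.exp η)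
    (h1 : 0 < ‖1 - w‖) : ‖pm n w‖ ≤ Real.exp (n * η) * (2 / (n * ‖1 - w‖)) := by
  have hn' : (0 : ℝ) < n := by exact_mod_cast hn
  have hg : (∑ j ∈ Finset.range n, w ^ j) * (1 - w) = 1 - w ^ n := by
    have := geom_sum_mul_neg w n
    simpa using this
  have h2 : ‖∑ j ∈ Finset.range n, w ^ j‖ * ‖1 - w‖ ≤ 2 * Real.exp (n * η) := by
    rw [← norm_mul, hg]
    calc ‖1 - w ^ n‖ ≤ ‖(1 : ℂ)‖ + ‖w ^ n‖ := norm_sub_le _ _
      _ ≤ Real.exp (n * η) + Real.exp (n * η) := by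
        apply add_le_add
        · rw [norm_one]
          exact Real.one_le_exp (by positivity)
        · rw [norm_pow]
          calc ‖w‖ ^ n ≤ Real.exp η ^ n := pow_le_pow_left₀ (norm_nonneg _) hw n
            _ = Real.exp (n * η) := by rw [← Real.exp_nat_mul]
      _ = 2 * Real.exp (n * η) := by ring
  unfold pm
  rw [norm_div, Complex.norm_natCast]
  rw [div_le_iff₀ hn']
  have h3 : Real.exp (n * η) * (2 / (n * ‖1 - w‖)) * n = 2 * Real.exp (n * η) / ‖1 - w‖ := by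
    field_simp
  rw [h3, le_div_iff₀ h1]
  exact h2

theorem one_le_pm (n : ℕ) (hn : 1 ≤ n) (x : ℝ) (hx : 1 ≤ x) : 1 ≤ ‖pm n (x : ℂ)‖ := by
  have hn' : (0 : ℝ) < n := by exact_mod_cast hn
  have e : pm n (x : ℂ) = (((∑ j ∈ Finset.range n, x ^ j) / n : ℝ) : ℂ) := by
    unfold pm
    push_cast
    rfl
  rw [e, Complex.norm_real, Real.norm_eq_abs]
  refine le_trans ?_ (le_abs_self _)
  rw [le_div_iff₀ hn', one_mul]
  calc (n : ℝ) = ∑ j ∈ Finset.range n, (1 : ℝ) := by simp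
    _ ≤ ∑ j ∈ Finset.range n, x ^ j := Finset.sum_le_sum (fun j _ => one_le_pow₀ hx)

theorem one_le_ks (S : ℕ) (x : ℝ) (hx : 1 ≤ x) : 1 ≤ ‖ks S (x : ℂ)‖ := by
  unfold ks
  rw [norm_prod]
  have : ∀ s ∈ Finset.range (S + 1), (1 : ℝ) ≤ ‖pm (2 ^ s) (x : ℂ) ^ (2 ^ (S - s))‖ := by
    intro s _
    rw [norm_pow]
    exact one_le_pow₀ (one_le_pm _ Nat.one_le_two_pow x hx)
  calc (1 : ℝ) = ∏ s ∈ Finset.range (S + 1), (1 : ℝ) := by simp
    _ ≤ _ := Finset.prod_le_prod (fun _ _ => zero_le_one) this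

/-- The bound for the kernel far from `1`. -/
theorem ks_far (S : ℕ) (w : ℂ) (η : ℝ) (hη : 0 ≤ η) (hw : ‖w‖ ≤ Real.exp η)
    (h1 : 6 ≤ 2 ^ S * ‖1 - w‖) (h2 : ‖1 - w‖ ≤ 6) :
    ‖ks S w‖ ≤ Real.exp ((S + 1) * 2 ^ S * η - 2 ^ S * ‖1 - w‖ / 12) := by
  classical
  have hd : 0 < ‖1 - w‖ := by
    rcases (norm_nonneg (1 - w)).lt_or_eq with h | h
    · exact h
    · rw [← h] at h1
      norm_num at h1
  -- the scale
  have hex : ∃ s : ℕ, 6 ≤ 2 ^ s * ‖1 - w‖ := ⟨S, h1⟩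
  obtain ⟨s, hs, hmin⟩ : ∃ s : ℕ, 6 ≤ 2 ^ s * ‖1 - w‖ ∧ ∀ t < s, ¬ (6 ≤ 2 ^ t * ‖1 - w‖) :=
    ⟨Nat.find hex, Nat.find_spec hex, fun t ht => Nat.find_min hex ht⟩
  have hsS : s ≤ S := by
    by_contra hcon
    exact hmin S (by omega) h1
  have hup : 2 ^ s * ‖1 - w‖ ≤ 12 := by
    rcases Nat.eq_zero_or_pos s with h0 | h0
    · subst h0
      simp only [pow_zero, one_mul]
      linarith
    · have := hmin (s - 1) (by omega)
      push Not at this
      have e : (2 : ℝ) ^ s = 2 * 2 ^ (s - 1) := by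
        rw [← pow_succ']
        congr 1
        omega
      rw [e]
      nlinarith
  unfold ks
  rw [norm_prod]
  have hbound : ∀ t ∈ Finset.range (S + 1), ‖pm (2 ^ t) w ^ (2 ^ (S - t))‖ ≤
      Real.exp (2 ^ S * η) * (if t = s then Real.exp (-(2 ^ (S - s) : ℝ)) else 1) := by
    intro t ht
    have htS : t ≤ S := by have := Finset.mem_range.mp ht; omega
    rw [norm_pow]
    have epow : Real.exp (((2 ^ t : ℕ) : ℝ) * η) ^ (2 ^ (S - t)) = Real.exp (2 ^ S * η) := by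
      rw [← Real.exp_nat_mul]
      congr 1
      push_cast
      rw [← mul_assoc, ← pow_add]
      congr 2
      omega
    by_cases hts : t = s
    · subst hts
      simp only [if_true]
      have h3 := pm_le' (2 ^ t) Nat.one_le_two_pow w η hη hw hd
      have h4 : 2 / (((2 ^ t : ℕ) : ℝ) * ‖1 - w‖) ≤ Real.exp (-1) := by
        rw [Real.exp_neg]
        push_cast
        have h5 : (2 : ℝ) / (2 ^ t * ‖1 - w‖) ≤ 2 / 6 := by
          apply div_le_div_of_nonneg_left (by norm_num) (by norm_num) hs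
        have h6 : Real.exp 1 ≤ 3 := by
          have := Real.exp_one_lt_d9
          linarith
        have h7 : (1 : ℝ) / 3 ≤ (Real.exp 1)⁻¹ := by
          rw [one_div]
          exact inv_anti₀ (Real.exp_pos 1) h6
        linarith
      calc ‖pm (2 ^ t) w‖ ^ (2 ^ (S - t))
          ≤ (Real.exp (((2 ^ t : ℕ) : ℝ) * η) * Real.exp (-1)) ^ (2 ^ (S - t)) := by
            apply pow_le_pow_left₀ (norm_nonneg _)
            exact h3.trans (mul_le_mul_of_nonneg_left h4 (Real.exp_pos _).le)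
        _ = Real.exp (2 ^ S * η) * Real.exp (-(2 ^ (S - t) : ℝ)) := by
            rw [mul_pow, epow]
            congr 1
            rw [← Real.exp_nat_mul]
            congr 1
            push_cast
            ring
    · simp only [hts, if_false, mul_one]
      calc ‖pm (2 ^ t) w‖ ^ (2 ^ (S - t))
          ≤ (Real.exp (((2 ^ t : ℕ) : ℝ) * η)) ^ (2 ^ (S - t)) := by
            apply pow_le_pow_left₀ (norm_nonneg _)
            exact pm_le (2 ^ t) Nat.one_le_two_pow w η hη hw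
        _ = Real.exp (2 ^ S * η) := epow
  calc ∏ t ∈ Finset.range (S + 1), ‖pm (2 ^ t) w ^ (2 ^ (S - t))‖
      ≤ ∏ t ∈ Finset.range (S + 1),
        (Real.exp (2 ^ S * η) * (if t = s then Real.exp (-(2 ^ (S - s) : ℝ)) else 1)) :=
        Finset.prod_le_prod (fun _ _ => norm_nonneg _) hbound
    _ = Real.exp (2 ^ S * η) ^ (S + 1) * Real.exp (-(2 ^ (S - s) : ℝ)) := by
        rw [Finset.prod_mul_distrib, Finset.prod_const, Finset.card_range,
          Finset.prod_ite_eq' , if_pos (Finset.mem_range.mpr (by omega))]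
    _ = Real.exp ((S + 1) * 2 ^ S * η + -(2 ^ (S - s) : ℝ)) := by
        rw [Real.exp_add, ← Real.exp_nat_mul]
        congr 2
        push_cast
        ring
    _ ≤ Real.exp ((S + 1) * 2 ^ S * η - 2 ^ S * ‖1 - w‖ / 12) := by
        apply Real.exp_le_exp.mpr
        have e2 : (2 : ℝ) ^ S = 2 ^ (S - s) * 2 ^ s := by
          rw [← pow_add]
          congr 1
          omega
        have h8 : (2 : ℝ) ^ S * ‖1 - w‖ ≤ 12 * 2 ^ (S - s) := by
          rw [e2, mul_assoc]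
          have : (0 : ℝ) < 2 ^ (S - s) := by positivity
          nlinarith
        linarith

/-- `g` is an average of the powers `w^k`, `k ≤ D`, with weights `≥ 0` of sum `1`. -/
def PosK (g : ℂ → ℂ) (D : ℕ) : Prop :=
  ∃ al : ℕ → ℝ, (∀ k, 0 ≤ al k) ∧ (∀ k, D < k → al k = 0) ∧
    ∑ k ∈ Finset.range (D + 1), al k = 1 ∧
    ∀ w : ℂ, g w = ∑ k ∈ Finset.range (D + 1), (al k : ℂ) * w ^ k

end MP7ed9c3.Tp
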