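import Pool.Agent.Lib.MP_7ed9c3_nt.Tp.Spec
import Pool.Agent.Lib.MP_7ed9c3_nt.Aw.Tc

/-! # MP_7ed9c3_nt, Tp: Taylor coefficients of `log (1 - u / a)` -/

set_option autoImplicit false

namespace MP7ed9c3.Tp

open MeasureTheory Metric MP7ed9c3.Aw

private noncomputable def ser (c : ℕ → ℂ) : FormalMultilinearSeries ℂ ℂ ℂ :=
  fun n => ContinuousMultilinearMap.mkPiRing ℂ (Fin n) (c n)

private theorem ser_coeff (c : ℕ → ℂ) (n : ℕ) : (ser c).coeff n = c n := by
  simp [FormalMultilinearSeries.coeff, ser]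

theorem tLgT : S_LgT := by
  intro a k ha hk
  have hpos : 0 < ‖a‖ := norm_pos_iff.2 ha
  have hd : DifferentiableOn ℂ (fun u => Complex.log (1 - u / a)) (ball 0 ‖a‖) := by
    intro u hu
    have hu' : ‖u / a‖ < 1 := by
      rw [norm_div, div_lt_one hpos]
      simpa using hu
    refine DifferentiableAt.differentiableWithinAt ?_
    refine DifferentiableAt.clog (by fun_prop) ?_
    left
    have h1 : (u / a).re ≤ ‖u / a‖ := Complex.re_le_norm _
    rw [Complex.sub_re, Complex.one_re]
    linarith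
  have h1 : HasFPowerSeriesAt (fun u => Complex.log (1 - u / a))
      (ser (fun n => tc n (fun u => Complex.log (1 - u / a)))) 0 := by
    rw [hasFPowerSeriesAt_iff]
    filter_upwards [ball_mem_nhds (0 : ℂ) hpos] with z hz
    have h := tTc.2.2.2.1 ‖a‖ _ z hpos hd hz
    simp only [ser_coeff, smul_eq_mul, zero_add]
    simpa only [mul_comm] using h
  have h2 : HasFPowerSeriesAt (fun u => Complex.log (1 - u / a))
      (ser (fun n => -((a⁻¹) ^ n / (n : ℂ)))) 0 := by
    rw [hasFPowerSeriesAt_iff]
    filter_upwards [ball_mem_nhds (0 : ℂ) hpos] with z hz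
    have hz' : ‖z / a‖ < 1 := by
      rw [norm_div, div_lt_one hpos]
      simpa using hz
    have h := (Complex.hasSum_taylorSeries_neg_log hz').neg
    rw [neg_neg] at h
    simp only [ser_coeff, smul_eq_mul, zero_add]
    have e : (fun n : ℕ => z ^ n * -((a⁻¹) ^ n / (n : ℂ))) = fun n : ℕ => -((z / a) ^ n / (n : ℂ)) := by
      funext n
      rw [div_eq_mul_inv z a, mul_pow]
      ring
    rw [e]
    exact h
  have h3 := h1.eq_formalMultilinearSeries h2
  have h4 := congrArg (fun p => FormalMultilinearSeries.coeff p k) h3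
  simp only [ser_coeff] at h4
  exact h4

end MP7ed9c3.Tp
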