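import Pool.Agent.Lib.MP_7ed9c3_nt.Tp.SpecK

/-!
# MP_7ed9c3_nt, project TP, part K: `S_LocW`
-/

set_option autoImplicit false

namespace MP7ed9c3.Tp

open MeasureTheory Metric MP7ed9c3.Aw

private lemma locw_norm (a : ℂ) (q : ℝ) (hq : 0 < q) (ha : a ≠ 0) :
    ‖a + (q : ℂ)⁻¹‖ = ‖a‖ * ‖1 + ((q : ℂ) * a)⁻¹‖ := by
  rw [← norm_mul]
  congr 1
  have hq' : (q : ℂ) ≠ 0 := by exact_mod_cast hq.ne'
  field_simp

private lemma locw_pow (A V R' R₂ q X : ℝ) (k d : ℕ) (hA : 0 ≤ A) (hV : 1 ≤ V) (hR' : 0 < R')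
    (hR : R' < R₂) (hq : 1 / R' ≤ q) (hX : (k : ℝ) ≤ X) (hdk : d ≤ k) :
    A * k * (V + 1) * (1 / R₂) ^ k ≤ A * X * (V + 1) * (R' / R₂) ^ d * q ^ k := by
  have hR2 : 0 < R₂ := hR'.trans hR
  have hq0 : 0 < q := lt_of_lt_of_le (by positivity) hq
  have h1 : 1 / R₂ ≤ R' / R₂ * q := by
    have h2 : 1 ≤ R' * q := by
      have h3 := mul_le_mul_of_nonneg_left hq hR'.le
      rwa [mul_one_div_cancel hR'.ne'] at h3
    rw [div_mul_eq_mul_div]
    exact div_le_div_of_nonneg_right h2 hR2.le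
  have h4 : (1 / R₂) ^ k ≤ (R' / R₂) ^ d * q ^ k := by
    calc (1 / R₂) ^ k ≤ (R' / R₂ * q) ^ k := pow_le_pow_left₀ (by positivity) h1 k
      _ = (R' / R₂) ^ k * q ^ k := mul_pow _ _ _
      _ ≤ (R' / R₂) ^ d * q ^ k := by
          refine mul_le_mul_of_nonneg_right ?_ (by positivity)
          exact pow_le_pow_of_le_one (by positivity) ((div_le_one hR2).2 hR.le) hdk
  have hX0 : 0 ≤ X := le_trans (by positivity) hX
  calc A * k * (V + 1) * (1 / R₂) ^ k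
      ≤ A * X * (V + 1) * ((R' / R₂) ^ d * q ^ k) := by
        refine mul_le_mul ?_ h4 (by positivity) (by positivity)
        refine mul_le_mul_of_nonneg_right ?_ (by linarith)
        exact mul_le_mul_of_nonneg_left hX hA
    _ = A * X * (V + 1) * (R' / R₂) ^ d * q ^ k := by ring

/-- `S_LocW`. -/
theorem tLocW (h1 : Aw.S_Phi) (h2 : S_PsW) (h3 : S_Inj) (h4 : S_Near) (h5 : S_Far) (h6 : S_PhiL)
    (h7 : S_NumL) : S_LocW := by
  have _ := h1
  intro h σ₁ b r₀ R R' R₂ R₁ C A' hh hC hR hA'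
  have hR0 : 0 < R := hR.r₀pos.trans hR.lt1
  have hR'0 : 0 < R' := hR0.trans hR.lt2
  have hR20 : 0 < R₂ := hR'0.trans hR.lt3
  have hR10 : 0 < R₁ := hR20.trans hR.lt4
  have hR21 : R₂ < 1 := hR.lt4.trans hR.lt5
  obtain ⟨A, hA, hP⟩ := h2 h σ₁ b r₀ R R' R₂ R₁ C hh hC hR
  obtain ⟨D₀, hD₀, hNe⟩ := h4 A hA
  obtain ⟨D₁, hD₁, hNum⟩ := h7 D₀ A R' R₂ A' hD₀ hA hA' hR'0 hR.lt3 hR21
  obtain ⟨D₂, hD₂, hPL⟩ := h6 h R₁ hh hR10 hR.lt5
  have hE : 0 ≤ 4 * Real.exp 2 * D₂ := by positivity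
  refine ⟨D₁ + 4 * Real.exp 2 * D₂ + 1, by linarith, ?_⟩
  intro c G t V lam q m N kk n L js hc hV hG hGb hGf hN hcard hq hlam hek hDL hnL hn hjs hmk hkA hbig
  have hV0 : 0 ≤ V := by linarith
  have hlog : 0 ≤ Real.log (V + m) := Real.log_nonneg (by
    have : (0 : ℝ) ≤ m := Nat.cast_nonneg m
    linarith)
  have hNr : (0 : ℝ) ≤ N := Nat.cast_nonneg N
  have hNl : 0 ≤ (N : ℝ) + Real.log (V + m) := by linarith
  have hD1L : D₁ * (N + Real.log (V + m)) ≤ L := by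
    refine le_trans ?_ hDL
    refine mul_le_mul_of_nonneg_right ?_ hNl
    linarith
  obtain ⟨hm1, hNm, hL1, hVm2, hnη, hηkk, hA1, hA2⟩ :=
    hNum V m N kk n L js hV hN hD1L hnL hn hjs hmk hkA
  obtain ⟨S, bb, hS, hbb, hps⟩ := hP c G t V hc hV0 hG hGb hGf
  have hq0 : 0 < q := lt_of_lt_of_le (by positivity) hq
  have hqR2 : 1 / R₂ ≤ q := le_trans (one_div_le_one_div_of_le hR'0 hR.lt3.le) hq
  have hqR1 : 1 / R₁ ≤ q :=
    le_trans (one_div_le_one_div_of_le hR'0 (hR.lt3.le.trans hR.lt4.le)) hq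
  have hSc : S.card ≤ N := by
    classical
    have hinj : Set.InjOn (fun a : ℂ => phi h a + t * Complex.I) (S : Set ℂ) := by
      intro x hx y hy hxy
      have hx1 : x ∈ ball (0 : ℂ) 1 := by
        rw [mem_ball_zero_iff]
        exact ((hS x hx).2.1).trans hR.lt5
      have hy1 : y ∈ ball (0 : ℂ) 1 := by
        rw [mem_ball_zero_iff]
        exact ((hS y hy).2.1).trans hR.lt5
      exact h3 h hh hx1 hy1 (add_right_cancel hxy)
    rw [← Finset.card_image_of_injOn hinj]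
    refine hcard _ ?_
    intro ρ hρ
    obtain ⟨a, ha, rfl⟩ := Finset.mem_image.1 hρ
    exact ⟨(hS a ha).2.2.2.1, (hS a ha).2.2.2.2⟩
  have hSr : (S.card : ℝ) ≤ N := by exact_mod_cast hSc
  have hne : ∀ a ∈ S, a ≠ 0 := by
    intro a ha h0
    have h8 := (hS a ha).1
    rw [h0, norm_zero] at h8
    linarith [hR.r₀pos]
  have hmr : (0 : ℝ) < m := by exact_mod_cast hm1
  have hnr : (0 : ℝ) < n := by exact_mod_cast hn
  have hnear := hNe V lam q R₂ m S bb (fun k => eW h c k t) hV0 hm1 (hSc.trans hNm) hVm2 hlam hq0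
    hR20 hqR2 (fun a ha => ⟨hne a ha, (hS a ha).2.2.1⟩) hek hps
  have hexp : ∀ a ∈ S, Real.exp (-(D₀ * (N + Real.log (V + m)) / m)) ≤ q * ‖a‖ := by
    intro a ha
    have h8 := hnear a ha
    have h9 : Real.exp (-(D₀ * (N + Real.log (V + m)) / m)) ≤
        Real.exp (-(D₀ * (S.card + Real.log (V + m)) / m)) := by
      refine Real.exp_le_exp.2 (neg_le_neg ?_)
      refine div_le_div_of_nonneg_right ?_ hmr.le
      refine mul_le_mul_of_nonneg_left ?_ (by linarith)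
      linarith
    refine le_trans h9 ?_
    have h10 := mul_le_mul_of_nonneg_left h8 hq0.le
    rwa [← mul_assoc, mul_one_div_cancel hq0.ne', one_mul] at h10
  by_contra hcon
  have hfar : ∀ a ∈ S, 4 * Real.exp 2 / (n : ℝ) ≤ ‖1 + ((q : ℂ) * a)⁻¹‖ := by
    intro a ha
    by_contra hlt
    rw [not_le] at hlt
    refine hcon ⟨phi h a + t * Complex.I, (hS a ha).2.2.2.1, (hS a ha).2.2.2.2, ?_⟩
    have h8 : (phi h a + t * Complex.I).im - t = (phi h a).im := by simp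
    rw [h8]
    have ha1 : ‖a‖ ≤ R₁ := (hS a ha).2.1.le
    have h9 := hPL a q ha1 hqR1
    have h10 : ‖a + (q : ℂ)⁻¹‖ ≤ 4 * Real.exp 2 / (n : ℝ) := by
      rw [locw_norm a q hq0 (hne a ha)]
      calc ‖a‖ * ‖1 + ((q : ℂ) * a)⁻¹‖ ≤ 1 * (4 * Real.exp 2 / (n : ℝ)) :=
            mul_le_mul (ha1.trans hR.lt5.le) hlt.le (norm_nonneg _) zero_le_one
        _ = 4 * Real.exp 2 / (n : ℝ) := one_mul _
    calc |(phi h a).im| ≤ D₂ * ‖a + (q : ℂ)⁻¹‖ := h9
      _ ≤ D₂ * (4 * Real.exp 2 / (n : ℝ)) := mul_le_mul_of_nonneg_left h10 hD₂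
      _ = 4 * Real.exp 2 * D₂ / n := by ring
      _ ≤ (D₁ + 4 * Real.exp 2 * D₂ + 1) / n := by
          refine div_le_div_of_nonneg_right ?_ hnr.le
          linarith
  have hη0 : 0 ≤ D₀ * (N + Real.log (V + m)) / m := by positivity
  have hcmb := h5 S bb (fun k => eW h c k t) q (D₀ * (N + Real.log (V + m)) / m)
    (A * (kk + (n * L : ℕ)) * (V + 1) * (R' / R₂) ^ (kk - js)) n L kk js hn hL1 hq0 hη0 hnη hηkk
    hexp hfar (by
      intro k hk1 hk2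
      have hk : 1 ≤ k := by omega
      refine le_trans (hps k hk) ?_
      refine locw_pow A V R' R₂ q _ k (kk - js) hA hV hR'0 hR.lt3 hq ?_ hk1
      have : k ≤ kk + n * L := by omega
      exact_mod_cast this)
  have hsum : ((∑ a ∈ S, bb a : ℕ) : ℝ) * Real.exp (-(L : ℝ)) ≤ 1 / 16 :=
    le_trans (mul_le_mul_of_nonneg_right hbb (Real.exp_pos _).le) hA2
  linarith

end MP7ed9c3.Tp
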