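import Pool.Agent.Lib.MP_7ed9c3_nt.Tp.Spec

/-!
# MP_7ed9c3_nt, part Tp, module LowW: a large mean square
-/

set_option autoImplicit false

namespace MP7ed9c3.Tp

open MeasureTheory Metric MP7ed9c3.Aw

/-- the lower bound for the mean energy (copy of `Aw/Step.lean`) -/
private theorem LowW_low (h R' C x c₀ : ℝ) (c : ℕ → ℂ) (S : Finset ℕ) (m₀ m₁ n₀ : ℕ) (A : ℝ)
    (hc : Coefs c C) (hC : 0 ≤ C) (hx : 1 / 2 < x) (hc₀ : 0 ≤ c₀)
    (hS : ∀ m ∈ S, 1 ≤ m ∧ m ≤ m₁)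
    (hG : ∀ m ∈ S, c₀ * (m : ℝ) ^ (-(2 * x)) ≤
      ∑ n ∈ Finset.range n₀, R' ^ (2 * n) * ‖gT h n m‖ ^ 2)
    (hA : A ≤ ∑ m ∈ S, ‖c m‖ ^ 2 * (m : ℝ) ^ (-(2 * x))) :
    c₀ * (A - C ^ 2 * m₀) ≤ ∑ m ∈ Finset.Ioc m₀ m₁,
      ‖c m‖ ^ 2 * ∑ n ∈ Finset.range n₀, R' ^ (2 * n) * ‖gT h n m‖ ^ 2 := by
  have hw : ∀ m, 0 ≤ ‖c m‖ ^ 2 * ∑ n ∈ Finset.range n₀, R' ^ (2 * n) * ‖gT h n m‖ ^ 2 := by
    intro m
    refine mul_nonneg (by positivity) (Finset.sum_nonneg fun n _ => ?_)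
    have : 0 ≤ R' ^ (2 * n) := by
      rw [pow_mul]
      positivity
    positivity
  -- the small elements
  have hsmall : ∑ m ∈ S.filter (fun m => ¬ m₀ < m), ‖c m‖ ^ 2 * (m : ℝ) ^ (-(2 * x)) ≤
      C ^ 2 * m₀ := by
    calc ∑ m ∈ S.filter (fun m => ¬ m₀ < m), ‖c m‖ ^ 2 * (m : ℝ) ^ (-(2 * x))
        ≤ ∑ _m ∈ S.filter (fun m => ¬ m₀ < m), C ^ 2 := by
          refine Finset.sum_le_sum fun m hm => ?_
          have hm1 : 1 ≤ m := (hS m (Finset.mem_filter.1 hm).1).1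
          have hm1' : (1 : ℝ) ≤ m := by exact_mod_cast hm1
          have h1 : ‖c m‖ ^ 2 ≤ C ^ 2 * m := by
            calc ‖c m‖ ^ 2 ≤ (C * √m) ^ 2 := pow_le_pow_left₀ (norm_nonneg _) (hc.2 m) 2
              _ = C ^ 2 * m := by rw [mul_pow, Real.sq_sqrt (by linarith)]
          have h2 : (m : ℝ) * (m : ℝ) ^ (-(2 * x)) ≤ 1 := by
            have h3 : (m : ℝ) * (m : ℝ) ^ (-(2 * x)) = (m : ℝ) ^ (1 + -(2 * x)) := by
              rw [Real.rpow_add (by linarith), Real.rpow_one]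
            rw [h3]
            exact Real.rpow_le_one_of_one_le_of_nonpos hm1' (by linarith)
          calc ‖c m‖ ^ 2 * (m : ℝ) ^ (-(2 * x)) ≤ C ^ 2 * m * (m : ℝ) ^ (-(2 * x)) :=
                mul_le_mul_of_nonneg_right h1 (Real.rpow_nonneg (by linarith) _)
            _ = C ^ 2 * (m * (m : ℝ) ^ (-(2 * x))) := by ring
            _ ≤ C ^ 2 * 1 := mul_le_mul_of_nonneg_left h2 (by positivity)
            _ = C ^ 2 := mul_one _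
      _ = ((S.filter (fun m => ¬ m₀ < m)).card : ℝ) * C ^ 2 := by
          rw [Finset.sum_const, nsmul_eq_mul]
      _ ≤ (m₀ : ℝ) * C ^ 2 := by
          refine mul_le_mul_of_nonneg_right ?_ (by positivity)
          have h1 : (S.filter (fun m => ¬ m₀ < m)) ⊆ Finset.Icc 1 m₀ := by
            intro m hm
            rw [Finset.mem_filter] at hm
            exact Finset.mem_Icc.2 ⟨(hS m hm.1).1, not_lt.1 hm.2⟩
          have h2 := Finset.card_le_card h1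
          rw [Nat.card_Icc, Nat.add_sub_cancel] at h2
          exact_mod_cast h2
      _ = C ^ 2 * m₀ := mul_comm _ _
  have hsplit := Finset.sum_filter_add_sum_filter_not S (fun m => m₀ < m)
    (fun m => ‖c m‖ ^ 2 * (m : ℝ) ^ (-(2 * x)))
  have hbig : c₀ * ∑ m ∈ S.filter (fun m => m₀ < m), ‖c m‖ ^ 2 * (m : ℝ) ^ (-(2 * x)) ≤
      ∑ m ∈ Finset.Ioc m₀ m₁,
      ‖c m‖ ^ 2 * ∑ n ∈ Finset.range n₀, R' ^ (2 * n) * ‖gT h n m‖ ^ 2 := by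
    rw [Finset.mul_sum]
    calc ∑ m ∈ S.filter (fun m => m₀ < m), c₀ * (‖c m‖ ^ 2 * (m : ℝ) ^ (-(2 * x)))
        ≤ ∑ m ∈ S.filter (fun m => m₀ < m),
          ‖c m‖ ^ 2 * ∑ n ∈ Finset.range n₀, R' ^ (2 * n) * ‖gT h n m‖ ^ 2 := by
          refine Finset.sum_le_sum fun m hm => ?_
          calc c₀ * (‖c m‖ ^ 2 * (m : ℝ) ^ (-(2 * x))) =
                ‖c m‖ ^ 2 * (c₀ * (m : ℝ) ^ (-(2 * x))) := by ring
            _ ≤ _ := mul_le_mul_of_nonneg_left (hG m (Finset.mem_filter.1 hm).1) (by positivity)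
      _ ≤ _ := by
          refine Finset.sum_le_sum_of_subset_of_nonneg ?_ fun m _ _ => hw m
          intro m hm
          rw [Finset.mem_filter] at hm
          exact Finset.mem_Ioc.2 ⟨hm.2, (hS m hm.1).2⟩
  refine le_trans (mul_le_mul_of_nonneg_left ?_ hc₀) hbig
  linarith

/-- exchange of the sums -/
private theorem LowW_swap (h R' : ℝ) (c : ℕ → ℂ) (m₀ m₁ n₀ : ℕ) :
    ∑ m ∈ Finset.Ioc m₀ m₁, ‖c m‖ ^ 2 * ∑ n ∈ Finset.range n₀, R' ^ (2 * n) * ‖gT h n m‖ ^ 2 =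
      ∑ n ∈ Finset.range n₀, R' ^ (2 * n) * nW h c n m₀ m₁ := by
  unfold nW
  simp only [Finset.mul_sum]
  rw [Finset.sum_comm]
  refine Finset.sum_congr rfl fun n _ => Finset.sum_congr rfl fun m _ => ?_
  rw [vW, norm_mul, mul_pow]
  ring

/-- the small coefficients -/
private theorem LowW_small (h1 : Aw.S_GUp) (h r₀ C : ℝ) (hh : 0 < h) (hr0 : 0 < r₀) (hr1 : r₀ < 1)
    (he : 3 ≤ ell h r₀) (c : ℕ → ℂ) (hc : Coefs c C) (n m₀ m₁ : ℕ) :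
    nW h c n m₀ m₁ ≤ 2 * C ^ 2 * ((1 / r₀) ^ n) ^ 2 := by
  have hterm : ∀ m ∈ Finset.Ioc m₀ m₁, ‖vW h c n m‖ ^ 2 ≤
      C ^ 2 * ((1 / r₀) ^ n) ^ 2 * ((m : ℝ) ^ 2)⁻¹ := by
    intro m hm
    have hm1 : 1 ≤ m := by
      have := (Finset.mem_Ioc.1 hm).1
      omega
    have hm1' : (1 : ℝ) ≤ m := by exact_mod_cast hm1
    have hm0 : (0 : ℝ) < m := by linarith
    have h2 : ‖c m‖ ^ 2 ≤ C ^ 2 * m := by
      calc ‖c m‖ ^ 2 ≤ (C * √m) ^ 2 := pow_le_pow_left₀ (norm_nonneg _) (hc.2 m) 2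
        _ = C ^ 2 * m := by rw [mul_pow, Real.sq_sqrt (by linarith)]
    have h3 : ‖gT h n m‖ ≤ ((m : ℝ) ^ 2)⁻¹ * (1 / r₀) ^ n := by
      refine (h1 h r₀ n m hh hr0 hr1 hm1).trans ?_
      have h4 : (m : ℝ) ^ (-ell h r₀) ≤ ((m : ℝ) ^ 2)⁻¹ := by
        calc (m : ℝ) ^ (-ell h r₀) ≤ (m : ℝ) ^ (-(2 : ℝ)) :=
              Real.rpow_le_rpow_of_exponent_le hm1' (by linarith)
          _ = ((m : ℝ) ^ 2)⁻¹ := by rw [Real.rpow_neg hm0.le, Real.rpow_two]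
      rw [div_eq_mul_inv, ← inv_pow, ← one_div]
      exact mul_le_mul_of_nonneg_right h4 (by positivity)
    have h5 : ‖gT h n m‖ ^ 2 ≤ (((m : ℝ) ^ 2)⁻¹ * (1 / r₀) ^ n) ^ 2 :=
      pow_le_pow_left₀ (norm_nonneg _) h3 2
    have h6 : (m : ℝ) * ((m : ℝ) ^ 2)⁻¹ ≤ 1 := by
      rw [← div_eq_mul_inv, div_le_one (by positivity)]
      nlinarith
    have h7 : 0 ≤ ((m : ℝ) ^ 2)⁻¹ := by positivity
    rw [vW, norm_mul, mul_pow]
    calc ‖c m‖ ^ 2 * ‖gT h n m‖ ^ 2 ≤ (C ^ 2 * m) * (((m : ℝ) ^ 2)⁻¹ * (1 / r₀) ^ n) ^ 2 :=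
          mul_le_mul h2 h5 (by positivity) (by positivity)
      _ = C ^ 2 * ((1 / r₀) ^ n) ^ 2 * ((m : ℝ) ^ 2)⁻¹ * (m * ((m : ℝ) ^ 2)⁻¹) := by ring
      _ ≤ C ^ 2 * ((1 / r₀) ^ n) ^ 2 * ((m : ℝ) ^ 2)⁻¹ * 1 :=
          mul_le_mul_of_nonneg_left h6 (by positivity)
      _ = _ := by ring
  have hsum : ∑ m ∈ Finset.Ioc m₀ m₁, ((m : ℝ) ^ 2)⁻¹ ≤ 2 := by
    calc ∑ m ∈ Finset.Ioc m₀ m₁, ((m : ℝ) ^ 2)⁻¹ ≤ ∑ m ∈ Finset.Ioo 0 (m₁ + 1), ((m : ℝ) ^ 2)⁻¹ := by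
          refine Finset.sum_le_sum_of_subset_of_nonneg ?_ fun m _ _ => by positivity
          intro m hm
          rw [Finset.mem_Ioc] at hm
          rw [Finset.mem_Ioo]
          omega
      _ ≤ 2 / ((0 : ℕ) + 1) := sum_Ioo_inv_sq_le 0 (m₁ + 1)
      _ = 2 := by norm_num
  unfold nW
  calc ∑ m ∈ Finset.Ioc m₀ m₁, ‖vW h c n m‖ ^ 2 ≤
        ∑ m ∈ Finset.Ioc m₀ m₁, C ^ 2 * ((1 / r₀) ^ n) ^ 2 * ((m : ℝ) ^ 2)⁻¹ :=
        Finset.sum_le_sum hterm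
    _ = C ^ 2 * ((1 / r₀) ^ n) ^ 2 * ∑ m ∈ Finset.Ioc m₀ m₁, ((m : ℝ) ^ 2)⁻¹ := by
        rw [Finset.mul_sum]
    _ ≤ C ^ 2 * ((1 / r₀) ^ n) ^ 2 * 2 := mul_le_mul_of_nonneg_left hsum (by positivity)
    _ = _ := by ring

/-- the sum over all indices, if no index is good -/
private theorem LowW_upper (f : ℕ → ℝ) (r p : ℝ) (K : ℝ) (m n₀ A' : ℕ) (hr : 0 < r) (hr1 : r ≤ 1)
    (hp : 1 ≤ p) (hK : 0 ≤ K) (hn : n₀ ≤ A' * m)
    (h1 : ∀ j, f j ≤ K * (p ^ j) ^ 2)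
    (h2 : ∀ j, m ≤ j → j ≤ A' * m → f j ≤ ((1 / r) ^ j) ^ 2) :
    ∑ j ∈ Finset.range n₀, r ^ (2 * j) * f j ≤ m * (K * (p ^ m) ^ 2) + A' * m := by
  have hterm : ∀ j ∈ Finset.range n₀, r ^ (2 * j) * f j ≤
      (if j < m then K * (p ^ m) ^ 2 else 0) + (1 : ℝ) := by
    intro j hj
    have hrj : 0 < r ^ (2 * j) := by positivity
    have hrj1 : r ^ (2 * j) ≤ 1 := pow_le_one₀ hr.le hr1
    by_cases hjm : j < m
    · rw [if_pos hjm]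
      have h3 : p ^ j ≤ p ^ m := pow_le_pow_right₀ hp hjm.le
      have h4 : (p ^ j) ^ 2 ≤ (p ^ m) ^ 2 := pow_le_pow_left₀ (by positivity) h3 2
      have h5 : 0 ≤ K * (p ^ m) ^ 2 := by positivity
      calc r ^ (2 * j) * f j ≤ r ^ (2 * j) * (K * (p ^ m) ^ 2) :=
            mul_le_mul_of_nonneg_left ((h1 j).trans (mul_le_mul_of_nonneg_left h4 hK)) hrj.le
        _ ≤ 1 * (K * (p ^ m) ^ 2) := mul_le_mul_of_nonneg_right hrj1 h5
        _ ≤ _ := by linarith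
    · rw [if_neg hjm, zero_add]
      have hj' : j ≤ A' * m := by
        have := Finset.mem_range.1 hj
        omega
      calc r ^ (2 * j) * f j ≤ r ^ (2 * j) * ((1 / r) ^ j) ^ 2 :=
            mul_le_mul_of_nonneg_left (h2 j (by omega) hj') hrj.le
        _ = 1 := by
            rw [← pow_mul, mul_comm j 2, ← mul_pow, mul_one_div_cancel hr.ne', one_pow]
  refine (Finset.sum_le_sum hterm).trans ?_
  rw [Finset.sum_add_distrib, Finset.sum_const, Finset.card_range, nsmul_eq_mul, mul_one]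
  have h3 : ∑ j ∈ Finset.range n₀, (if j < m then K * (p ^ m) ^ 2 else 0) ≤ m * (K * (p ^ m) ^ 2) := by
    rw [← Finset.sum_filter, Finset.sum_const, nsmul_eq_mul]
    refine mul_le_mul_of_nonneg_right ?_ (by positivity)
    have h4 : (Finset.range n₀).filter (fun j => j < m) ⊆ Finset.range m := by
      intro j hj
      exact Finset.mem_range.2 (Finset.mem_filter.1 hj).2
    have h5 := Finset.card_le_card h4
    rw [Finset.card_range] at h5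
    exact_mod_cast h5
  have h6 : (n₀ : ℝ) ≤ A' * m := by exact_mod_cast hn
  linarith

theorem tLowW (h1 : Aw.S_GUp) (h2 : Aw.S_GLow) : S_LowW := by
  intro h σ₁ b r₀ R R' R₂ R₁ C η B k₀ hh hC hη hB hR
  have hR0 : 0 < R := hR.r₀pos.trans hR.lt1
  have hR'0 : 0 < R' := hR0.trans hR.lt2
  have hR21 : R₂ < 1 := hR.lt4.trans hR.lt5
  obtain ⟨c₁, L, hc₁, hL, hG⟩ := h2 h R R' R₂ hh hR0 hR.lt2 hR.lt3 hR21 (by linarith [hR.e3])
  have hx : 1 / 2 < ell h R := hR.e4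
  have hr01 : r₀ < 1 := by linarith [hR.lt1, hR.lt2, hR.lt3]
  have hR'1 : R' ≤ 1 := by linarith [hR.lt3]
  have hr1 : 1 < 1 / r₀ := one_lt_one_div hR.r₀pos hr01
  obtain ⟨D, hD⟩ : ∃ D, D = Real.log (1 / r₀) := ⟨_, rfl⟩
  have hD0 : 0 < D := by
    rw [hD]
    exact Real.log_pos hr1
  have hexpD : 1 / r₀ = Real.exp D := by rw [hD, Real.exp_log (by linarith)]
  obtain ⟨γ, hγ⟩ : ∃ γ, γ = (3 + 2 * D) / η + 1 := ⟨_, rfl⟩
  have hγ1 : 1 ≤ γ := by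
    have : 0 ≤ (3 + 2 * D) / η := by positivity
    linarith
  have hγη : 3 + 2 * D ≤ γ * η := by
    rw [hγ, add_mul, div_mul_cancel₀ _ hη.ne']
    linarith
  have hk₀ : (0 : ℝ) ≤ k₀ := Nat.cast_nonneg k₀
  obtain ⟨G, hGd⟩ : ∃ G, G = γ * B * k₀ := ⟨_, rfl⟩
  have hG0 : 0 ≤ G := by
    rw [hGd]
    positivity
  obtain ⟨A', hA'⟩ : ∃ A' : ℕ, A' = ⌈L * (1 + G)⌉₊ + 4 := ⟨_, rfl⟩
  obtain ⟨K, hK⟩ : ∃ K, K = c₁ * C ^ 2 + 2 * C ^ 2 + A' := ⟨_, rfl⟩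
  have hK0 : 0 ≤ K := by
    rw [hK]
    positivity
  refine ⟨A', G + 1, ⌈K / c₁⌉₊ + 1, by omega, by linarith, by omega, ?_⟩
  intro c hc Y₀ hlow m M₀ M₁ hm hY₀ hM₀ hM₁
  have hm1 : 1 ≤ m := by omega
  have hm1' : (1 : ℝ) ≤ m := by exact_mod_cast hm1
  obtain ⟨P, S, hYP, hPY, hSP, hsum⟩ := hlow (Real.exp (γ * m)) (by
    refine hY₀.trans (Real.exp_le_exp.2 ?_)
    nlinarith)
  have hPpos : (0 : ℝ) < P := lt_of_lt_of_le (Real.exp_pos _) hYP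
  -- the size of P ^ k₀
  have hPk : ((P ^ k₀ : ℕ) : ℝ) ≤ Real.exp (G * m) := by
    calc ((P ^ k₀ : ℕ) : ℝ) = (P : ℝ) ^ k₀ := by push_cast; ring
      _ ≤ (Real.exp (γ * m) ^ B) ^ k₀ := pow_le_pow_left₀ hPpos.le hPY k₀
      _ = Real.exp (G * m) := by
          rw [← Real.exp_mul, ← Real.exp_nat_mul, hGd]
          congr 1
          ring
  have hPk1 : 1 ≤ P ^ k₀ := Nat.one_le_pow _ _ (by exact_mod_cast hPpos)
  have hPk1' : (1 : ℝ) ≤ ((P ^ k₀ : ℕ) : ℝ) := by exact_mod_cast hPk1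
  have hlog : Real.log ((P ^ k₀ : ℕ) : ℝ) ≤ G * m := by
    rw [Real.log_le_iff_le_exp (by linarith)]
    exact hPk
  have hPM : P ^ k₀ ≤ M₁ := by
    have h3 : ((P ^ k₀ : ℕ) : ℝ) ≤ (M₁ : ℝ) := by
      refine hPk.trans (le_trans (Real.exp_le_exp.2 ?_) hM₁)
      nlinarith
    exact_mod_cast h3
  obtain ⟨n₀, hn₀⟩ : ∃ n₀ : ℕ, n₀ = ⌈L * (1 + Real.log ((P ^ k₀ : ℕ) : ℝ))⌉₊ := ⟨_, rfl⟩
  have hn₀le : n₀ ≤ A' * m := by
    rw [hn₀, Nat.ceil_le]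
    have h3 : L * (1 + Real.log ((P ^ k₀ : ℕ) : ℝ)) ≤ L * ((1 + G) * m) :=
      mul_le_mul_of_nonneg_left (by nlinarith) hL
    have h4 : L * (1 + G) ≤ (⌈L * (1 + G)⌉₊ : ℝ) := Nat.le_ceil _
    have h5 : L * ((1 + G) * m) ≤ (⌈L * (1 + G)⌉₊ : ℝ) * m := by
      rw [← mul_assoc]
      exact mul_le_mul_of_nonneg_right h4 (by linarith)
    have h6 : ((A' * m : ℕ) : ℝ) = ((⌈L * (1 + G)⌉₊ : ℝ) + 4) * m := by
      rw [hA']
      push_cast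
      ring
    rw [h6]
    nlinarith
  -- the energy
  have hlow' := LowW_low h R' C (ell h R) c₁ c S M₀ M₁ n₀ ((P : ℝ) ^ η) hc hC hx hc₁.le
    (fun n hn => ⟨(hSP n hn).1, (hSP n hn).2.trans hPM⟩)
    (fun n hn => by
      obtain ⟨hn1, hn2⟩ := hSP n hn
      refine hG n₀ n hn1 ?_
      have h3 : Real.log n ≤ Real.log ((P ^ k₀ : ℕ) : ℝ) := by
        refine Real.log_le_log ?_ ?_
        · exact_mod_cast hn1
        · exact_mod_cast hn2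
      have h4 : L * (1 + Real.log n) ≤ L * (1 + Real.log ((P ^ k₀ : ℕ) : ℝ)) :=
        mul_le_mul_of_nonneg_left (by linarith) hL
      rw [hn₀]
      exact h4.trans (Nat.le_ceil _))
    hsum
  rw [LowW_swap] at hlow'
  by_contra hcon
  push Not at hcon
  have hup := LowW_upper (fun j => nW h c j M₀ M₁) R' (1 / r₀) (2 * C ^ 2) m n₀ A' hR'0 hR'1 hr1.le
    (by positivity) hn₀le
    (fun j => LowW_small h1 h r₀ C hh hR.r₀pos hr01 hR.e0 c hc j M₀ M₁)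
    (fun j hj1 hj2 => (hcon j hj1 hj2).le)
  have hfin := hlow'.trans hup
  -- the numbers
  obtain ⟨E, hE⟩ : ∃ E, E = Real.exp (m : ℝ) := ⟨_, rfl⟩
  obtain ⟨F, hF⟩ : ∃ F, F = Real.exp (2 * D * m) := ⟨_, rfl⟩
  have hE1 : (m : ℝ) + 1 ≤ E := by
    rw [hE]
    exact Real.add_one_le_exp _
  have hF1 : 1 ≤ F := by
    rw [hF]
    exact Real.one_le_exp (by positivity)
  have hpow : ((1 / r₀) ^ m) ^ 2 = F := by
    rw [hexpD, ← Real.exp_nat_mul, ← Real.exp_nat_mul, hF]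
    congr 1
    push_cast
    ring
  have hPη : E ^ 3 * F ≤ (P : ℝ) ^ η := by
    calc E ^ 3 * F = Real.exp ((3 + 2 * D) * m) := by
          rw [hE, hF, ← Real.exp_nat_mul, ← Real.exp_add]
          congr 1
          push_cast
          ring
      _ ≤ Real.exp (γ * η * m) := by
          rw [Real.exp_le_exp]
          exact mul_le_mul_of_nonneg_right hγη (by linarith)
      _ = (Real.exp (γ * m)) ^ η := by
          rw [← Real.exp_mul]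
          congr 1
          ring
      _ ≤ (P : ℝ) ^ η := Real.rpow_le_rpow (Real.exp_pos _).le hYP hη.le
  rw [hpow] at hfin
  rw [← hE] at hM₀
  have hEpos : 0 < E := by linarith
  have hA'0 : (0 : ℝ) ≤ A' := Nat.cast_nonneg A'
  have hEF : E ≤ E * F := by nlinarith
  have e1 : C ^ 2 * (M₀ : ℝ) ≤ C ^ 2 * (E * F) :=
    mul_le_mul_of_nonneg_left (hM₀.trans hEF) (by positivity)
  have e2 : (m : ℝ) * (2 * C ^ 2 * F) ≤ 2 * C ^ 2 * (E * F) := by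
    calc (m : ℝ) * (2 * C ^ 2 * F) ≤ E * (2 * C ^ 2 * F) :=
          mul_le_mul_of_nonneg_right (by linarith) (by positivity)
      _ = _ := by ring
  have e3 : (A' : ℝ) * m ≤ A' * (E * F) :=
    mul_le_mul_of_nonneg_left (by linarith) hA'0
  have e4 : c₁ * (E ^ 3 * F - C ^ 2 * (E * F)) ≤ c₁ * ((P : ℝ) ^ η - C ^ 2 * M₀) :=
    mul_le_mul_of_nonneg_left (by linarith) hc₁.le
  have e5 : c₁ * (E ^ 3 * F) ≤ K * (E * F) := by
    rw [hK]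
    have : c₁ * (E ^ 3 * F - C ^ 2 * (E * F)) ≤ 2 * C ^ 2 * (E * F) + A' * (E * F) := by
      linarith
    nlinarith
  have hEFpos : 0 < E * F := by positivity
  have e6 : c₁ * E ^ 2 ≤ K := by
    have : c₁ * E ^ 2 * (E * F) ≤ K * (E * F) := by
      calc c₁ * E ^ 2 * (E * F) = c₁ * (E ^ 3 * F) := by ring
        _ ≤ _ := e5
    exact le_of_mul_le_mul_right this hEFpos
  have e7 : K / c₁ < m := by
    have h3 : K / c₁ ≤ ⌈K / c₁⌉₊ := Nat.le_ceil _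
    have h4 : ((⌈K / c₁⌉₊ + 1 : ℕ) : ℝ) ≤ m := by exact_mod_cast hm
    push_cast at h4
    linarith
  rw [div_lt_iff₀ hc₁] at e7
  have e8 : (m : ℝ) ≤ E ^ 2 := by nlinarith
  nlinarith

end MP7ed9c3.Tp
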