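import Pool.Agent.Lib.MP_7ed9c3_nt.Tp.Spec

/-!
# MP_7ed9c3_nt, project TP, module Max: the maximal exponent
-/

set_option autoImplicit false

namespace MP7ed9c3.Tp

open MeasureTheory Metric MP7ed9c3.Aw

private theorem Max_root (k : ℕ) (hk : 1 ≤ k) (y : ℝ) (hy : 0 ≤ y) :
    ((y ^ ((1 : ℝ) / (2 * (k : ℝ)))) ^ k) ^ 2 = y := by
  have hk' : (0 : ℝ) < k := by exact_mod_cast hk
  rw [← pow_mul, ← Real.rpow_natCast, ← Real.rpow_mul hy]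
  have e : (1 : ℝ) / (2 * (k : ℝ)) * ((k * 2 : ℕ) : ℝ) = 1 := by
    push_cast
    field_simp
  rw [e, Real.rpow_one]

theorem tMax : S_Max := by
  intro m K f p hm hp hf hex
  obtain ⟨k₁, hk₁m, hk₁K, hk₁⟩ := hex
  have hne : (Finset.Icc m K).Nonempty := ⟨k₁, Finset.mem_Icc.mpr ⟨hk₁m, hk₁K⟩⟩
  obtain ⟨k₀, hk₀, hmax⟩ :=
    Finset.exists_max_image (Finset.Icc m K) (fun k => f k ^ ((1 : ℝ) / (2 * (k : ℝ)))) hne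
  rw [Finset.mem_Icc] at hk₀
  have hq0 : 0 ≤ f k₀ ^ ((1 : ℝ) / (2 * (k₀ : ℝ))) := Real.rpow_nonneg (hf k₀) _
  refine ⟨k₀, f k₀ ^ ((1 : ℝ) / (2 * (k₀ : ℝ))), hk₀.1, hk₀.2, ?_, ?_, ?_⟩
  · have h1 := hmax k₁ (Finset.mem_Icc.mpr ⟨hk₁m, hk₁K⟩)
    refine le_trans ?_ h1
    have hk1 : 1 ≤ k₁ := hm.trans hk₁m
    have hg0 : 0 ≤ f k₁ ^ ((1 : ℝ) / (2 * (k₁ : ℝ))) := Real.rpow_nonneg (hf k₁) _
    have h2 := Max_root k₁ hk1 (f k₁) (hf k₁)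
    have h3 : (p ^ k₁) ^ 2 ≤ ((f k₁ ^ ((1 : ℝ) / (2 * (k₁ : ℝ)))) ^ k₁) ^ 2 := by
      rw [h2]; exact hk₁
    have h4 : p ^ k₁ ≤ (f k₁ ^ ((1 : ℝ) / (2 * (k₁ : ℝ)))) ^ k₁ :=
      le_of_sq_le_sq h3 (pow_nonneg hg0 _)
    exact le_of_pow_le_pow_left₀ (by omega) hg0 h4
  · exact (Max_root k₀ (hm.trans hk₀.1) (f k₀) (hf k₀)).symm
  · intro k hkm hkK
    have h1 := hmax k (Finset.mem_Icc.mpr ⟨hkm, hkK⟩)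
    have h2 := Max_root k (hm.trans hkm) (f k) (hf k)
    have hg0 : 0 ≤ f k ^ ((1 : ℝ) / (2 * (k : ℝ))) := Real.rpow_nonneg (hf k) _
    calc f k = ((f k ^ ((1 : ℝ) / (2 * (k : ℝ)))) ^ k) ^ 2 := h2.symm
      _ ≤ ((f k₀ ^ ((1 : ℝ) / (2 * (k₀ : ℝ)))) ^ k) ^ 2 :=
        pow_le_pow_left₀ (pow_nonneg hg0 _) (pow_le_pow_left₀ hg0 h1 _) 2

end MP7ed9c3.Tp
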