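import Pool.Agent.Lib.MP_7ed9c3_nt.Tp.SpecK

/-!
# MP_7ed9c3_nt, project TPW, module NumL: the numbers in `S_LocW`
-/

set_option autoImplicit false

namespace MP7ed9c3.Tp

open MeasureTheory Metric MP7ed9c3.Aw

/-- `x ^ a exp (- E) ≤ exp (- c)` if `E ≥ (a + c) (1 + log x)` -/
private lemma numL_exp {x a c E : ℝ} (hx : 1 ≤ x) (ha : 0 ≤ a) (hc : 0 ≤ c)
    (hE : (a + c) * (1 + Real.log x) ≤ E) : Real.exp (a * Real.log x) * Real.exp (-E) ≤
      Real.exp (-c) := by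
  rw [← Real.exp_add]
  refine Real.exp_le_exp.2 ?_
  have h1 : 0 ≤ Real.log x := Real.log_nonneg hx
  nlinarith [mul_nonneg hc h1]

/-- `B exp (- log (1 + M B)) ≤ 1 / M` -/
private lemma numL_log {B M : ℝ} (hB : 0 ≤ B) (hM : 0 < M) :
    B * Real.exp (-Real.log (1 + M * B)) ≤ 1 / M := by
  have h1 : 0 < 1 + M * B := by positivity
  rw [Real.exp_neg, Real.exp_log h1, ← div_eq_mul_inv, div_le_div_iff₀ h1 hM]
  nlinarith

theorem tNumL : S_NumL := by
  intro D₀ A R' R₂ A' hD₀ hA hA' hR' hRR hR₂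
  have hR2 : 0 < R₂ := hR'.trans hRR
  have hA'r : (1 : ℝ) ≤ (A' : ℝ) := by exact_mod_cast hA'
  set γ : ℝ := Real.log (R₂ / R') with hγ
  have hγ0 : 0 < γ := Real.log_pos ((one_lt_div hR').2 hRR)
  have hq0 : 0 < R' / R₂ := by positivity
  have hqγ : R' / R₂ = Real.exp (-γ) := by
    rw [hγ, ← Real.log_inv, inv_div, Real.exp_log hq0]
  set B : ℝ := A * ((A' : ℝ) + 1) with hB
  have hB0 : 0 ≤ B := by positivity
  set c0 : ℝ := Real.log (1 + 32 * B) with hc0
  have hc00 : 0 ≤ c0 := Real.log_nonneg (by nlinarith)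
  set c1 : ℝ := Real.log (1 + 16 * A) with hc1
  have hc10 : 0 ≤ c1 := Real.log_nonneg (by nlinarith)
  have hg : 0 ≤ (2 + c0) / γ := by positivity
  refine ⟨D₀ * A' + (2 + c0) / γ + (1 + c1), ?_, ?_⟩
  · have : 0 ≤ D₀ * A' := by positivity
    linarith
  intro V m N kk n L js hV hN hL hnm hn hjs hkk hkA
  set D : ℝ := D₀ * A' + (2 + c0) / γ + (1 + c1) with hD
  have hD1 : 1 ≤ D := by
    have : 0 ≤ D₀ * A' := by positivity
    rw [hD]; linarith
  have hDD : D₀ * A' ≤ D := by rw [hD]; linarith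
  have hDD0 : D₀ ≤ D := by
    have : D₀ * 1 ≤ D₀ * A' := mul_le_mul_of_nonneg_left hA'r (by linarith)
    linarith
  have hDγ : 2 + c0 ≤ γ * D := by
    have h1 : (2 + c0) / γ ≤ D := by
      have : 0 ≤ D₀ * A' := by positivity
      rw [hD]; linarith
    rw [div_le_iff₀ hγ0] at h1
    linarith
  have hDc : 1 + c1 ≤ D := by
    have : 0 ≤ D₀ * A' := by positivity
    rw [hD]; linarith
  have hm0 : (0 : ℝ) ≤ (m : ℝ) := Nat.cast_nonneg m
  have hl0 : 0 ≤ Real.log (V + m) := Real.log_nonneg (by linarith)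
  have hN1 : (1 : ℝ) ≤ (N : ℝ) := by exact_mod_cast hN
  have hs : (N : ℝ) ≤ (N : ℝ) + Real.log (V + m) := by linarith
  have hs0 : 0 ≤ (N : ℝ) + Real.log (V + m) := by linarith
  have hNL : (N : ℝ) ≤ (L : ℝ) := by nlinarith
  have hNL' : N ≤ L := by exact_mod_cast hNL
  have hLn : L ≤ n * L := Nat.le_mul_of_pos_left _ hn
  have hL1 : 1 ≤ L := hN.trans hNL'
  have hNm : N ≤ m := by omega
  have hm1 : 1 ≤ m := hN.trans hNm
  have hm1r : (1 : ℝ) ≤ (m : ℝ) := by exact_mod_cast hm1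
  have hmpos : (0 : ℝ) < (m : ℝ) := by linarith
  have hx2 : 2 ≤ V + m := by linarith
  have hx1 : 1 ≤ V + m := by linarith
  have hxp : 0 < V + m := by linarith
  have hnm' : 2 * ((n : ℝ) * (L : ℝ)) ≤ (m : ℝ) := by exact_mod_cast hnm
  have hn1 : (1 : ℝ) ≤ (n : ℝ) := by exact_mod_cast hn
  have hL0 : (0 : ℝ) ≤ (L : ℝ) := Nat.cast_nonneg L
  have hkA' : (kk : ℝ) ≤ (A' : ℝ) * (m : ℝ) := by exact_mod_cast hkA
  have hDL : D₀ * (N + Real.log (V + m)) ≤ (L : ℝ) :=
    (mul_le_mul_of_nonneg_right hDD0 hs0).trans hL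
  have hDL' : D₀ * A' * (N + Real.log (V + m)) ≤ (L : ℝ) :=
    (mul_le_mul_of_nonneg_right hDD hs0).trans hL
  have hLx : D * (1 + Real.log (V + m)) ≤ (L : ℝ) := by
    have : D * (1 + Real.log (V + m)) ≤ D * (N + Real.log (V + m)) :=
      mul_le_mul_of_nonneg_left (by linarith) (by linarith)
    exact this.trans hL
  have hV1 : V + 1 ≤ V + m := by linarith
  refine ⟨hm1, hNm, hL1, hx2, ?_, ?_, ?_, ?_⟩
  · rw [mul_div_assoc', div_le_iff₀ hmpos]
    have h1 : (n : ℝ) * (D₀ * (N + Real.log (V + m))) ≤ (n : ℝ) * (L : ℝ) :=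
      mul_le_mul_of_nonneg_left hDL (by linarith)
    linarith
  · rw [div_mul_eq_mul_div, div_le_iff₀ hmpos]
    have h0 : 0 ≤ D₀ * (N + Real.log (V + m)) := mul_nonneg (by linarith) hs0
    have h1 : D₀ * (N + Real.log (V + m)) * kk ≤ D₀ * (N + Real.log (V + m)) * (A' * m) :=
      mul_le_mul_of_nonneg_left hkA' h0
    have h2 : D₀ * A' * (N + Real.log (V + m)) * m ≤ (L : ℝ) * m :=
      mul_le_mul_of_nonneg_right hDL' hm0
    calc D₀ * (N + Real.log (V + m)) * kk ≤ D₀ * (N + Real.log (V + m)) * (A' * m) := h1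
      _ = D₀ * A' * (N + Real.log (V + m)) * m := by ring
      _ ≤ (L : ℝ) * m := h2
  · -- the third bound
    have hkj : L ≤ kk - js := by omega
    have hkj' : (L : ℝ) ≤ ((kk - js : ℕ) : ℝ) := by exact_mod_cast hkj
    have hpw : (R' / R₂) ^ (kk - js) ≤ Real.exp (-((2 + c0) * (1 + Real.log (V + m)))) := by
      rw [hqγ, ← Real.exp_nat_mul]
      refine Real.exp_le_exp.2 ?_
      have h1 : γ * (D * (1 + Real.log (V + m))) ≤ γ * ((kk - js : ℕ) : ℝ) :=
        mul_le_mul_of_nonneg_left (hLx.trans hkj') hγ0.le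
      have h2 : (2 + c0) * (1 + Real.log (V + m)) ≤ γ * D * (1 + Real.log (V + m)) :=
        mul_le_mul_of_nonneg_right hDγ (by linarith)
      nlinarith
    have hsum : ((kk : ℝ) + ((n * L : ℕ) : ℝ)) ≤ ((A' : ℝ) + 1) * (V + m) := by
      push_cast
      have h3 : ((A' : ℝ) + 1) * m ≤ ((A' : ℝ) + 1) * (V + m) :=
        mul_le_mul_of_nonneg_left (by linarith) (by linarith)
      have h4 : 0 ≤ (n : ℝ) * (L : ℝ) := by positivity
      nlinarith
    have hsum0 : 0 ≤ ((kk : ℝ) + ((n * L : ℕ) : ℝ)) := by positivity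
    have hfac : A * (kk + (n * L : ℕ)) * (V + 1) ≤ B * ((V + m) * (V + m)) := by
      have h5 : ((kk : ℝ) + ((n * L : ℕ) : ℝ)) * (V + 1) ≤
          (((A' : ℝ) + 1) * (V + m)) * (V + m) :=
        mul_le_mul hsum hV1 (by linarith) (by positivity)
      have h6 := mul_le_mul_of_nonneg_left h5 hA
      calc A * (kk + (n * L : ℕ)) * (V + 1) = A * (((kk : ℝ) + ((n * L : ℕ) : ℝ)) * (V + 1)) := by
            ring
        _ ≤ A * ((((A' : ℝ) + 1) * (V + m)) * (V + m)) := h6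
        _ = B * ((V + m) * (V + m)) := by rw [hB]; ring
    have hx2e : (V + m) * (V + m) = Real.exp (2 * Real.log (V + m)) := by
      rw [two_mul, Real.exp_add, Real.exp_log hxp]
    have hk := numL_exp (x := V + m) (a := 2) (c := c0) (E := (2 + c0) * (1 + Real.log (V + m)))
      hx1 (by norm_num) hc00 le_rfl
    calc A * (kk + (n * L : ℕ)) * (V + 1) * (R' / R₂) ^ (kk - js)
        ≤ B * ((V + m) * (V + m)) * Real.exp (-((2 + c0) * (1 + Real.log (V + m)))) :=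
          mul_le_mul hfac hpw (by positivity) (by positivity)
      _ = B * (Real.exp (2 * Real.log (V + m)) *
            Real.exp (-((2 + c0) * (1 + Real.log (V + m))))) := by rw [hx2e]; ring
      _ ≤ B * Real.exp (-c0) := mul_le_mul_of_nonneg_left hk hB0
      _ ≤ 1 / 32 := by rw [hc0]; exact numL_log hB0 (by norm_num)
      _ ≤ 1 / 16 := by norm_num
  · have hE : (1 + c1) * (1 + Real.log (V + m)) ≤ (L : ℝ) :=
      (mul_le_mul_of_nonneg_right hDc (by linarith)).trans hLx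
    have hk := numL_exp (x := V + m) (a := 1) (c := c1) (E := (L : ℝ)) hx1 (by norm_num) hc10 hE
    rw [one_mul, Real.exp_log hxp] at hk
    have h0 : 0 ≤ Real.exp (-(L : ℝ)) := (Real.exp_pos _).le
    calc A * (V + 1) * Real.exp (-(L : ℝ)) ≤ A * (V + m) * Real.exp (-(L : ℝ)) :=
          mul_le_mul_of_nonneg_right (mul_le_mul_of_nonneg_left hV1 hA) h0
      _ = A * ((V + m) * Real.exp (-(L : ℝ))) := by ring
      _ ≤ A * Real.exp (-c1) := mul_le_mul_of_nonneg_left hk hA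
      _ ≤ 1 / 16 := by rw [hc1]; exact numL_log hA (by norm_num)

end MP7ed9c3.Tp
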