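import Pool.Agent.Lib.MP_7ed9c3_nt.Tp.SpecK

/-!
# MP_7ed9c3_nt, project TP, module PhiL: `phi` is Lipschitz
-/

set_option autoImplicit false

namespace MP7ed9c3.Tp

open MeasureTheory Metric MP7ed9c3.Aw

theorem tPhiL (h1 : Aw.S_Phi) : S_PhiL := by
  intro h r hh hr hr1
  obtain ⟨hd, -, -, hreal, -⟩ := h1 h hh
  have hsub : closedBall (0 : ℂ) r ⊆ ball 0 1 := closedBall_subset_ball hr1
  have hcont : ContinuousOn (deriv (phi h)) (closedBall (0 : ℂ) r) :=
    ((hd.deriv isOpen_ball).continuousOn).mono hsub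
  obtain ⟨C, hC⟩ := (isCompact_closedBall (0 : ℂ) r).exists_bound_of_continuousOn hcont
  refine ⟨max C 0, le_max_right _ _, ?_⟩
  intro a q ha hq
  have hq0 : 0 < q := lt_of_lt_of_le (by positivity) hq
  have hq1 : q⁻¹ ≤ r := by
    rw [inv_le_comm₀ hq0 hr, ← one_div]
    exact hq
  have hqi : 0 < q⁻¹ := inv_pos.2 hq0
  have ha' : a ∈ closedBall (0 : ℂ) r := by simpa using ha
  have hb' : -((q⁻¹ : ℝ) : ℂ) ∈ closedBall (0 : ℂ) r := by
    rw [mem_closedBall_zero_iff, norm_neg, Complex.norm_real, Real.norm_of_nonneg hqi.le]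
    exact hq1
  have hdiff : ∀ x ∈ closedBall (0 : ℂ) r, DifferentiableAt ℂ (phi h) x := fun x hx =>
    (hd x (hsub hx)).differentiableAt (isOpen_ball.mem_nhds (hsub hx))
  have hL := Convex.norm_image_sub_le_of_norm_deriv_le (𝕜 := ℂ) (C := max C 0) hdiff
    (fun x hx => (hC x hx).trans (le_max_left _ _)) (convex_closedBall (0 : ℂ) r) hb' ha'
  have him : (phi h (-((q⁻¹ : ℝ) : ℂ))).im = 0 := by
    rw [hreal q⁻¹ hqi.le (lt_of_le_of_lt hq1 hr1)]
    exact Complex.ofReal_im _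
  have e1 : (phi h a).im = (phi h a - phi h (-((q⁻¹ : ℝ) : ℂ))).im := by
    rw [Complex.sub_im, him, sub_zero]
  have e2 : a - -((q⁻¹ : ℝ) : ℂ) = a + (q : ℂ)⁻¹ := by
    rw [sub_neg_eq_add, Complex.ofReal_inv]
  rw [e1]
  refine (Complex.abs_im_le_norm _).trans (hL.trans (le_of_eq ?_))
  rw [e2]

end MP7ed9c3.Tp
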