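import Pool.Agent.Lib.MP_7ed9c3_nt.Aw.Spec

/-!
# MP_7ed9c3_nt, part Tp, module Pos: the signs of the Taylor coefficients of `m^(-phi(w))`

`f(w) = m^(-phi(w))` satisfies `(1 - w²) f' = -2 A f`, `A = (2h/π) log m ≥ 0`.  Differentiate `n + 1` times at `0`:
`D^(n+2) f = -2 A D^(n+1) f + (n+1) n D^n f`, so `(-1)^n D^n f(0) ≥ 0`.
-/

set_option autoImplicit false

namespace MP7ed9c3.Tp

open NumberField IsDedekindDomain Filter Topology MeasureTheory Metric
open MP7ed9c3.Aw

/-- **Pos**: the signs of the Taylor coefficients. -/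
def S_Pos : Prop :=
  ∀ (h : ℝ) (n m : ℕ), 0 < h → 1 ≤ m → (-1 : ℂ) ^ n * gT h n m = ((‖gT h n m‖ : ℝ) : ℂ)

private theorem Pos_zero (g : ℂ → ℂ) (h : ∀ w ∈ ball (0 : ℂ) 1, g w = 0) (w g' : ℂ)
    (hw : w ∈ ball (0 : ℂ) 1) (hg : HasDerivAt g g' w) : g' = 0 := by
  have e : g =ᶠ[𝓝 w] fun _ => (0 : ℂ) :=
    Filter.eventually_of_mem (isOpen_ball.mem_nhds hw) h
  exact (hg.congr_of_eventuallyEq e.symm).unique (hasDerivAt_const w (0 : ℂ))

private theorem Pos_ode (f : ℂ → ℂ) (A r₀ : ℝ) (hA : 0 ≤ A) (hr : 0 ≤ r₀) (hf0 : f 0 = (r₀ : ℂ))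
    (hf : DifferentiableOn ℂ f (ball 0 1))
    (hd : ∀ w ∈ ball (0 : ℂ) 1, (1 - w ^ 2) * deriv f w + 2 * A * f w = 0) (n : ℕ) :
    ∃ r : ℝ, 0 ≤ r ∧ (-1 : ℂ) ^ n * iteratedDeriv n f 0 = (r : ℂ) := by
  have hD : ∀ n : ℕ, DifferentiableOn ℂ (iteratedDeriv n f) (ball 0 1) := by
    intro n
    induction n with
    | zero => rw [iteratedDeriv_zero]; exact hf
    | succ n ih => rw [iteratedDeriv_succ]; exact ih.deriv isOpen_ball
  have hDs : ∀ (n : ℕ) (w : ℂ), w ∈ ball (0 : ℂ) 1 →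
      HasDerivAt (iteratedDeriv n f) (iteratedDeriv (n + 1) f w) w := by
    intro n w hw
    rw [iteratedDeriv_succ]
    exact ((hD n).differentiableAt (isOpen_ball.mem_nhds hw)).hasDerivAt
  have hsq : ∀ w : ℂ, HasDerivAt (fun w : ℂ => 1 - w ^ 2) (-(2 * w)) w := by
    intro w
    have := (hasDerivAt_pow 2 w).const_sub 1
    simpa using this
  have hI : ∀ (n : ℕ) (w : ℂ), w ∈ ball (0 : ℂ) 1 →
      (1 - w ^ 2) * iteratedDeriv (n + 2) f w - 2 * (n + 1) * (w * iteratedDeriv (n + 1) f w) -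
        (n + 1) * n * iteratedDeriv n f w + 2 * A * iteratedDeriv (n + 1) f w = 0 := by
    intro n
    induction n with
    | zero =>
      intro w hw
      have h1 : HasDerivAt (fun w => (1 - w ^ 2) * iteratedDeriv 1 f w +
          2 * A * iteratedDeriv 0 f w)
          ((-(2 * w)) * iteratedDeriv 1 f w + (1 - w ^ 2) * iteratedDeriv (1 + 1) f w +
            2 * A * iteratedDeriv (0 + 1) f w) w :=
        ((hsq w).mul (hDs 1 w hw)).add ((hDs 0 w hw).const_mul _)
      have h2 := Pos_zero _ (fun w hw => by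
        rw [iteratedDeriv_one, iteratedDeriv_zero]; exact hd w hw) w _ hw h1
      rw [← h2]
      push_cast
      ring_nf
    | succ n ih =>
      intro w hw
      have h1 : HasDerivAt (fun w => (1 - w ^ 2) * iteratedDeriv (n + 2) f w -
          2 * (n + 1) * (w * iteratedDeriv (n + 1) f w) -
          (n + 1) * n * iteratedDeriv n f w + 2 * A * iteratedDeriv (n + 1) f w)
          (((-(2 * w)) * iteratedDeriv (n + 2) f w +
              (1 - w ^ 2) * iteratedDeriv (n + 2 + 1) f w) -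
            2 * (n + 1) * (1 * iteratedDeriv (n + 1) f w + w * iteratedDeriv (n + 1 + 1) f w) -
            (n + 1) * n * iteratedDeriv (n + 1) f w + 2 * A * iteratedDeriv (n + 1 + 1) f w) w :=
        ((((hsq w).mul (hDs (n + 2) w hw)).sub
          (((hasDerivAt_id w).mul (hDs (n + 1) w hw)).const_mul _)).sub
          ((hDs n w hw).const_mul _)).add ((hDs (n + 1) w hw).const_mul _)
      have h2 := Pos_zero _ ih w _ hw h1
      rw [← h2]
      push_cast
      have e1 : n + 1 + 2 = n + 2 + 1 := by omega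
      have e2 : n + 1 + 1 = n + 2 := by omega
      rw [e1, e2]
      ring
  have h0 : (0 : ℂ) ∈ ball (0 : ℂ) 1 := by simp
  induction n using Nat.strong_induction_on with
  | _ n ih =>
    match n, ih with
    | 0, _ => exact ⟨r₀, hr, by rw [iteratedDeriv_zero, hf0]; simp⟩
    | 1, _ =>
      refine ⟨2 * A * r₀, by positivity, ?_⟩
      have h1 := hd 0 h0
      rw [iteratedDeriv_one]
      rw [hf0] at h1
      push_cast
      linear_combination -h1
    | (n + 2), ih =>
      obtain ⟨r1, hr1, e1⟩ := ih (n + 1) (by omega)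
      obtain ⟨r2, hr2, e2⟩ := ih n (by omega)
      refine ⟨2 * A * r1 + (n + 1) * n * r2, by positivity, ?_⟩
      have h1 := hI n 0 h0
      push_cast
      rw [← e1, ← e2]
      rw [pow_add, pow_add]
      linear_combination (-1 : ℂ) ^ n * h1

private theorem Pos_ne1 {w : ℂ} (hw : ‖w‖ < 1) : 1 - w ≠ 0 := by
  intro h0
  have h1 : w = 1 := (sub_eq_zero.1 h0).symm
  rw [h1, norm_one] at hw
  exact lt_irrefl _ hw

private theorem Pos_ne2 {w : ℂ} (hw : ‖w‖ < 1) : 1 + w ≠ 0 := by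
  have := Pos_ne1 (w := -w) (by rwa [norm_neg])
  rwa [sub_neg_eq_add] at this

private theorem Pos_re {w : ℂ} (hw : ‖w‖ < 1) : 0 < ((1 + w) / (1 - w)).re := by
  have hn : 0 < Complex.normSq (1 - w) := Complex.normSq_pos.2 (Pos_ne1 hw)
  rw [Complex.div_re, ← add_div]
  refine div_pos ?_ hn
  have h1 : w.re * w.re + w.im * w.im < 1 := by
    rw [← Complex.normSq_apply, Complex.normSq_eq_norm_sq]
    nlinarith [norm_nonneg w]
  simp only [Complex.add_re, Complex.one_re, Complex.sub_re, Complex.add_im, Complex.one_im,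
    Complex.sub_im]
  nlinarith

private theorem Pos_phi (h : ℝ) {w : ℂ} (hw : ‖w‖ < 1) :
    HasDerivAt (phi h) (((2 * h / Real.pi : ℝ) : ℂ) * (2 / (1 - w ^ 2))) w := by
  have n1 := Pos_ne1 hw
  have n2 := Pos_ne2 hw
  have hq : HasDerivAt (fun w : ℂ => (1 + w) / (1 - w))
      ((1 * (1 - w) - (1 + w) * (-1)) / (1 - w) ^ 2) w :=
    ((hasDerivAt_id w).const_add 1).div (by simpa using (hasDerivAt_id w).const_sub 1) n1
  have hl := hq.clog (Complex.mem_slitPlane_iff.2 (Or.inl (Pos_re hw)))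
  have hp : HasDerivAt (phi h) _ w := (hl.const_mul ((2 * h / Real.pi : ℝ) : ℂ)).const_add 4
  convert hp using 1
  have n3 : (1 : ℂ) - w ^ 2 ≠ 0 := by
    have : (1 : ℂ) - w ^ 2 = (1 - w) * (1 + w) := by ring
    rw [this]
    exact mul_ne_zero n1 n2
  field_simp
  ring

theorem tPos : S_Pos := by
  intro h n m hh hm
  have hm0 : (m : ℂ) ≠ 0 := by
    exact_mod_cast (by omega : m ≠ 0)
  have hmR : (1 : ℝ) ≤ m := by exact_mod_cast hm
  set A : ℝ := 2 * h / Real.pi * Real.log m with hAdef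
  have hA : 0 ≤ A := mul_nonneg (div_nonneg (by linarith) Real.pi_pos.le) (Real.log_nonneg hmR)
  have hf' : ∀ w ∈ ball (0 : ℂ) 1, HasDerivAt (fun w => (m : ℂ) ^ (-phi h w))
      ((m : ℂ) ^ (-phi h w) * Complex.log m *
        (-(((2 * h / Real.pi : ℝ) : ℂ) * (2 / (1 - w ^ 2))))) w := by
    intro w hw
    have hw' : ‖w‖ < 1 := by simpa using hw
    exact ((Pos_phi h hw').neg).const_cpow (Or.inl hm0)
  have hlog : Complex.log (m : ℂ) = ((Real.log m : ℝ) : ℂ) := (Complex.natCast_log).symm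
  have hphi0 : phi h 0 = 4 := by simp [phi]
  obtain ⟨r, hr, e⟩ := Pos_ode (fun w => (m : ℂ) ^ (-phi h w)) A ((m : ℝ) ^ (-4 : ℝ)) hA
    (by positivity) (by
      simp only [hphi0]
      rw [Complex.ofReal_cpow (by positivity)]
      push_cast
      rfl)
    (fun w hw => (hf' w hw).differentiableAt.differentiableWithinAt) (by
      intro w hw
      have hw' : ‖w‖ < 1 := by simpa using hw
      have n3 : (1 : ℂ) - w ^ 2 ≠ 0 := by
        have : (1 : ℂ) - w ^ 2 = (1 - w) * (1 + w) := by ring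
        rw [this]
        exact mul_ne_zero (Pos_ne1 hw') (Pos_ne2 hw')
      rw [(hf' w hw).deriv, hlog, hAdef]
      push_cast
      field_simp
      ring) n
  have hfac : (0 : ℝ) < (n.factorial : ℝ) := by exact_mod_cast n.factorial_pos
  have e1 : (-1 : ℂ) ^ n * gT h n m = ((r / n.factorial : ℝ) : ℂ) := by
    unfold gT tc
    rw [← mul_div_assoc, e]
    push_cast
    rfl
  have e2 : ‖gT h n m‖ = r / n.factorial := by
    have h1 : ‖(-1 : ℂ) ^ n * gT h n m‖ = r / n.factorial := by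
      rw [e1, Complex.norm_real, Real.norm_eq_abs, abs_of_nonneg (by positivity)]
    rw [norm_mul, norm_pow, norm_neg, norm_one, one_pow, one_mul] at h1
    exact h1
  rw [e1, e2]

end MP7ed9c3.Tp
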