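import Pool.Agent.Lib.MP_7ed9c3_nt.Tp.SpecB

/-!
# MP_7ed9c3_nt, project TP, part B: the mean value of the product, a bound for each block

From the mean value of a product of sums with coprime supports (`Aw.S_PM`) and the expansion of `(3 - dE)²`
(`Aw.S_EX`), as `Aw/ProdX.lean` with a bound for each block.
-/

set_option autoImplicit false

namespace MP7ed9c3.Tp

open NumberField IsDedekindDomain Filter Topology MeasureTheory Metric
open MP7ed9c3.Aw

private theorem ProdY_coprime {A B : ℕ} {S S' : Finset ℕ}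
    (hA : ∀ p : ℕ, p.Prime → p ∣ A → ∃ m ∈ S, p ∣ m)
    (hB : ∀ p : ℕ, p.Prime → p ∣ B → ∃ m ∈ S', p ∣ m)
    (h : ∀ m ∈ S, ∀ m' ∈ S', m.Coprime m') : A.Coprime B := by
  refine Nat.coprime_of_dvd fun p hp hpA hpB => ?_
  obtain ⟨m, hm, hpm⟩ := hA p hp hpA
  obtain ⟨m', hm', hpm'⟩ := hB p hp hpB
  have h1 := Nat.dvd_gcd hpm hpm'
  have h2 : Nat.gcd m m' = 1 := h m hm m' hm'
  rw [h2] at h1
  exact hp.one_lt.ne' (Nat.dvd_one.1 h1)

private theorem ProdY_num (M : ℕ) (hM : 1 ≤ M) :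
    (((M ^ 2 : ℕ) : ℝ)) * ((3 + (M : ℝ)) ^ 2) ≤ (4 * (M : ℝ)) ^ 4 := by
  have hM1 : (1 : ℝ) ≤ M := by exact_mod_cast hM
  push_cast
  have h1 : (M : ℝ) ^ 2 ≤ (4 * (M : ℝ)) ^ 2 := pow_le_pow_left₀ (by positivity) (by linarith) 2
  have h2 : (3 + (M : ℝ)) ^ 2 ≤ (4 * (M : ℝ)) ^ 2 :=
    pow_le_pow_left₀ (by positivity) (by linarith) 2
  calc (M : ℝ) ^ 2 * (3 + (M : ℝ)) ^ 2 ≤ (4 * (M : ℝ)) ^ 2 * (4 * (M : ℝ)) ^ 2 :=
        mul_le_mul h1 h2 (by positivity) (by positivity)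
    _ = (4 * (M : ℝ)) ^ 4 := by ring

/-- the mean value of the product, with a bound for each block -/
theorem tProdY (h1 : S_PM) (h2 : S_EX) : S_ProdY := by
  intro I nn S v M q a b hab hM hq hS hcop huu hquad
  choose J hJ al N N' hN hdvd hexp hsum hdiag using fun i : Fin I =>
    h2 (Fin (nn i)) (S i) (v i) (M i) (hM i i.2) (hS i i.2) (huu i i.2)
  have hPM := h1 I J al N N' (fun i => M i ^ 2) a b hab hN (fun i i' hii' j j' =>
    ProdY_coprime (hdvd i j) (hdvd i' j')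
      (hcop i i.2 i' i'.2 (fun h => hii' (Fin.ext h))))
  -- the integral as a complex integral
  have hint : (∫ t in a..b, ∏ i, ∑ j, al i j *
      ((N i j : ℂ) ^ (-(t * Complex.I)) * (N' i j : ℂ) ^ (t * Complex.I))) =
      ((∫ t in a..b, ∏ i ∈ Finset.range I, (3 - dE (S i) (v i) t) ^ 2 : ℝ) : ℂ) := by
    rw [← intervalIntegral.integral_ofReal]
    refine intervalIntegral.integral_congr fun t _ => ?_
    change (∏ i, ∑ j, al i j *
      ((N i j : ℂ) ^ (-((t : ℂ) * Complex.I)) * (N' i j : ℂ) ^ ((t : ℂ) * Complex.I))) =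
      ((∏ i ∈ Finset.range I, (3 - dE (S i) (v i) t) ^ 2 : ℝ) : ℂ)
    rw [Finset.prod_range, Complex.ofReal_prod]
    exact Finset.prod_congr rfl fun i _ => (hexp i t).symm
  rw [hint] at hPM
  set r : ℝ := ∫ t in a..b, ∏ i ∈ Finset.range I, (3 - dE (S i) (v i) t) ^ 2 with hr
  set X : ℂ := ((b - a : ℝ) : ℂ) * ∏ i, ∑ j, (if N i j = N' i j then al i j else 0) with hX
  have hba : 0 ≤ b - a := by linarith
  have hXle : ‖X‖ ≤ (b - a) * (3 + q) ^ I := by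
    rw [hX, norm_mul, Complex.norm_real, Real.norm_of_nonneg hba, norm_prod]
    refine mul_le_mul_of_nonneg_left ?_ hba
    calc ∏ i : Fin I, ‖∑ j, (if N i j = N' i j then al i j else 0)‖ ≤ ∏ _i : Fin I, (3 + q) :=
          Finset.prod_le_prod (fun i _ => norm_nonneg _) fun i _ =>
            (hdiag i).trans (by linarith [hquad i i.2])
      _ = (3 + q) ^ I := by rw [Finset.prod_const, Finset.card_univ, Fintype.card_fin]
  have hoff : 2 * (∏ i : Fin I, (((M i ^ 2 : ℕ) : ℝ))) * ∏ i, ∑ j, ‖al i j‖ ≤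
      2 * ∏ i ∈ Finset.range I, (4 * (M i : ℝ)) ^ 4 := by
    have h3 : ∏ i, ∑ j, ‖al i j‖ ≤ ∏ i : Fin I, ((3 + (M i : ℝ)) ^ 2) :=
      Finset.prod_le_prod (fun i _ => Finset.sum_nonneg fun j _ => norm_nonneg _)
        fun i _ => hsum i
    rw [mul_assoc, Finset.prod_range]
    refine mul_le_mul_of_nonneg_left ?_ (by norm_num)
    calc (∏ i : Fin I, (((M i ^ 2 : ℕ) : ℝ))) * ∏ i, ∑ j, ‖al i j‖
        ≤ (∏ i : Fin I, (((M i ^ 2 : ℕ) : ℝ))) * ∏ i : Fin I, ((3 + (M i : ℝ)) ^ 2) :=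
          mul_le_mul_of_nonneg_left h3 (Finset.prod_nonneg fun i _ => Nat.cast_nonneg _)
      _ = ∏ i : Fin I, ((((M i ^ 2 : ℕ) : ℝ)) * ((3 + (M i : ℝ)) ^ 2)) :=
          Finset.prod_mul_distrib.symm
      _ ≤ ∏ i : Fin I, (4 * (M i : ℝ)) ^ 4 :=
          Finset.prod_le_prod (fun i _ => by positivity) fun i _ => ProdY_num (M i) (hM i i.2)
  have hrn : r ≤ ‖(r : ℂ)‖ := by
    rw [Complex.norm_real]
    exact le_abs_self r
  have htri : ‖(r : ℂ)‖ ≤ ‖(r : ℂ) - X‖ + ‖X‖ := by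
    have := norm_add_le ((r : ℂ) - X) X
    rwa [sub_add_cancel] at this
  have hfin := hPM.trans hoff
  linarith

end MP7ed9c3.Tp
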