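import Pool.Agent.Lib.MP_7ed9c3_nt.Tp.Spec

/-!
# MP_7ed9c3_nt, project TP: module PsW

Power sums over the zeros in the window at `t`.
-/

set_option autoImplicit false

namespace MP7ed9c3.Tp

open MeasureTheory Metric MP7ed9c3.Aw

private lemma PsW_re (h : ℝ) (w : ℂ) (t : ℝ) :
    (phi h w + t * Complex.I).re = (phi h w).re := by
  simp

private lemma PsW_im (h : ℝ) (w : ℂ) (t : ℝ) :
    (phi h w + t * Complex.I).im - t = (phi h w).im := by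
  simp

theorem tPsW (h1 : Aw.S_Phi) (h2 : S_DirB) (h3 : S_Psm) (h4 : S_Fac) (h5 : S_Jen) : S_PsW := by
  intro h σ₁ b r₀ R R' R₂ R₁ C hh hC rd
  obtain ⟨A₀, hA₀, hD⟩ := h2 C hC
  obtain ⟨P1, P2, P3, -, P5⟩ := h1 h hh
  have a1 := rd.r₀pos
  have a2 := rd.lt1
  have a3 := rd.lt2
  have a4 := rd.lt3
  have a5 := rd.lt4
  have a6 := rd.lt5
  obtain ⟨ρ, hρ⟩ : ∃ ρ : ℝ, ρ = (R₂ + R₁) / 2 := ⟨_, rfl⟩
  have b1 : R₂ < ρ := by linarith
  have b2 : ρ < R₁ := by linarith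
  have b3 : 0 < ρ := by linarith
  obtain ⟨A₁, hA₁, hJ⟩ := h5 ρ R₁ b3 b2
  obtain ⟨A₂, hA₂, hP⟩ := h3 r₀ R₂ ρ a1 (by linarith) b1
  refine ⟨A₁ * (A₀ + 1) + A₂ * ((2 * A₁ + 1) * (A₀ + 1) + 1), by positivity, ?_⟩
  intro c G t V hc hV hGd hGb hGe
  obtain ⟨hD1, hD2⟩ := hD c hc
  -- the window
  have hball1 : ∀ w ∈ ball (0 : ℂ) R₁, w ∈ ball (0 : ℂ) 1 := fun w hw =>
    ball_subset_ball a6.le hw
  have hwin : ∀ w ∈ ball (0 : ℂ) R₁, phi h w + t * Complex.I ∈ win σ₁ h t := by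
    intro w hw
    have c1 := P2 w (hball1 w hw)
    have c2 := P3 R₁ w (by linarith) a6 (mem_ball_zero_iff.1 hw).le
    have c3 := rd.e1
    refine ⟨?_, ?_⟩
    · rw [PsW_re]
      linarith
    · rw [PsW_im]
      exact c1
  have hre : ∀ w ∈ ball (0 : ℂ) r₀, 3 ≤ (phi h w + t * Complex.I).re := by
    intro w hw
    have c2 := P3 r₀ w (by linarith) (by linarith) (mem_ball_zero_iff.1 hw).le
    have c3 := rd.e0
    rw [PsW_re]
    linarith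
  have hsub : ∀ w ∈ ball (0 : ℂ) r₀, w ∈ ball (0 : ℂ) R₁ := fun w hw =>
    ball_subset_ball (by linarith) hw
  have h0 : (0 : ℂ) ∈ ball (0 : ℂ) r₀ := mem_ball_self a1
  -- the functions
  obtain ⟨g, hg⟩ : ∃ g : ℂ → ℂ, g = fun w => G (phi h w + t * Complex.I) := ⟨_, rfl⟩
  obtain ⟨f, hf⟩ : ∃ f : ℂ → ℂ, f = fun w => Aw.dir c (phi h w + t * Complex.I) := ⟨_, rfl⟩
  have hgd : DifferentiableOn ℂ g (ball 0 R₁) := by
    rw [hg]
    exact hGd.comp ((P1.mono hball1).add_const _) hwin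
  have hfd : DifferentiableOn ℂ f (ball 0 r₀) := by
    rw [hf]
    refine hD1.comp ((P1.mono fun w hw => hball1 w (hsub w hw)).add_const _) ?_
    intro w hw
    have := hre w hw
    show 2 < (phi h w + t * Complex.I).re
    linarith
  have hgb : ∀ u ∈ ball (0 : ℂ) R₁, ‖g u‖ ≤ Real.exp V := by
    intro u hu
    rw [hg]
    exact hGb _ (hwin u hu)
  have hgf : ∀ u ∈ ball (0 : ℂ) r₀, g u = Complex.exp (f u) := by
    intro u hu
    rw [hg, hf]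
    exact hGe _ (hwin u (hsub u hu)) (hre u hu)
  have hf0 : ‖f 0‖ ≤ A₀ := by
    rw [hf]
    exact hD2 _ (hre 0 h0)
  have hg0 : g 0 ≠ 0 := by
    rw [hgf 0 h0]
    exact Complex.exp_ne_zero _
  obtain ⟨V', hV'⟩ : ∃ V' : ℝ, V' = V + A₀ := ⟨_, rfl⟩
  have hV'0 : 0 ≤ V' := by linarith
  obtain ⟨S, b', H, hS, hb', hHd, hH0, hfac⟩ := h4 ρ R₁ g b3 b2 hgd hg0
  have hSρ : ∀ a ∈ S, ‖a‖ ≤ ρ := fun a ha => ((hS a).1 ha).1
  have hSr : ∀ a ∈ S, r₀ ≤ ‖a‖ := by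
    intro a ha
    by_contra hcon
    push Not at hcon
    have d1 := hgf a (mem_ball_zero_iff.2 hcon)
    rw [((hS a).1 ha).2] at d1
    exact Complex.exp_ne_zero _ d1.symm
  -- Jensen
  have hlow : Real.exp (-V') ≤ ‖g 0‖ := by
    rw [hgf 0 h0, Complex.norm_exp, Real.exp_le_exp]
    have d1 := (abs_le.1 (Complex.abs_re_le_norm (f 0))).1
    linarith
  obtain ⟨hN, hHb⟩ := hJ V' g H S b' hV'0 hHd hfac
    (fun u hu => (hgb u hu).trans (Real.exp_le_exp.2 (by linarith))) hlow hSρ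
  have hsum0 : (0 : ℝ) ≤ ((∑ a ∈ S, b' a : ℕ) : ℝ) := Nat.cast_nonneg _
  have hV1 : V' ≤ (A₀ + 1) * (V + 1) := by
    rw [hV']
    nlinarith
  have hN2 : A₁ * V' ≤ A₁ * (A₀ + 1) * (V + 1) := by
    have := mul_le_mul_of_nonneg_left hV1 hA₁
    linarith
  -- the power sums
  have hps := hP S b' H f ((A₁ + 1) * V') (by positivity)
    (hHd.mono (ball_subset_ball b2.le))
    (fun u hu => ⟨hH0 u (ball_subset_closedBall hu),
      (hHb u (ball_subset_closedBall hu)).trans (Real.exp_le_exp.2 (by linarith))⟩)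
    (fun a ha => ⟨hSr a ha, hSρ a ha⟩) hfd
    (fun u hu => by rw [← hgf u hu, hfac u (hsub u hu)])
    (by nlinarith)
  refine ⟨S, b', ?_, ?_, ?_⟩
  · intro a ha
    have haR : a ∈ ball (0 : ℂ) R₁ := mem_ball_zero_iff.2 ((hSρ a ha).trans_lt b2)
    refine ⟨hSr a ha, (hSρ a ha).trans_lt b2, hb' a ha, hwin a haR, ?_⟩
    have d1 := ((hS a).1 ha).2
    rw [hg] at d1
    exact d1
  · have e1 : 0 ≤ A₂ * ((2 * A₁ + 1) * (A₀ + 1) + 1) * (V + 1) := by positivity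
    calc ((∑ a ∈ S, b' a : ℕ) : ℝ) ≤ A₁ * V' := hN
      _ ≤ A₁ * (A₀ + 1) * (V + 1) := hN2
      _ ≤ (A₁ * (A₀ + 1) + A₂ * ((2 * A₁ + 1) * (A₀ + 1) + 1)) * (V + 1) := by linarith
  · intro k hk
    have e0 := hps k hk
    have e1 : eW h c k t = tc k f := by rw [hf]; rfl
    rw [e1]
    refine e0.trans ?_
    have hR2 : 0 < R₂ := by linarith
    have e2 : (A₁ + 1) * V' + ((∑ a ∈ S, b' a : ℕ) : ℝ) + 1 ≤
        ((2 * A₁ + 1) * (A₀ + 1) + 1) * (V + 1) := by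
      have e3 := mul_le_mul_of_nonneg_left hV1 (show 0 ≤ 2 * A₁ + 1 by positivity)
      nlinarith
    have e4 : A₂ * ((A₁ + 1) * V' + ((∑ a ∈ S, b' a : ℕ) : ℝ) + 1) ≤
        (A₁ * (A₀ + 1) + A₂ * ((2 * A₁ + 1) * (A₀ + 1) + 1)) * (V + 1) := by
      have e5 := mul_le_mul_of_nonneg_left e2 hA₂
      have e6 : 0 ≤ A₁ * (A₀ + 1) * (V + 1) := by positivity
      linarith
    have e7 : 0 ≤ (k : ℝ) * (1 / R₂) ^ k := by positivity
    have e8 := mul_le_mul_of_nonneg_right e4 e7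
    calc A₂ * (k : ℝ) * ((A₁ + 1) * V' + ((∑ a ∈ S, b' a : ℕ) : ℝ) + 1) * (1 / R₂) ^ k
        = A₂ * ((A₁ + 1) * V' + ((∑ a ∈ S, b' a : ℕ) : ℝ) + 1) * ((k : ℝ) * (1 / R₂) ^ k) := by
          ring
      _ ≤ _ := e8
      _ = _ := by ring

end MP7ed9c3.Tp
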