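import Pool.Agent.Lib.MP_7ed9c3_nt.Tp.Spec
import Pool.Agent.Lib.MP_7ed9c3_nt.Zs.LogBall
import Mathlib.Analysis.Complex.BorelCaratheodory

/-!
# MP_7ed9c3_nt, part Tp, module Psm: power sums, the zeros being divided out

`H = exp h₁` on the large ball with `h₁ 0 = log (H 0)`; `f - h₁ - ∑ b a log (1 - u/a)` is constant on the small ball,
because its exponential is the constant `∏ (-a)^(b a)`.  Comparing the Taylor coefficients gives
`k tc k f + ∑ b a a⁻¹^k = k tc k h₁`, and `h₁` is bounded by the theorem of Borel and Caratheodory.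
-/

set_option autoImplicit false

namespace MP7ed9c3.Tp

open MeasureTheory Metric MP7ed9c3.Aw

private lemma Psm_slit {r₀ : ℝ} {a u : ℂ} (hr : 0 < r₀) (ha : r₀ ≤ ‖a‖) (hu : u ∈ ball (0 : ℂ) r₀) :
    1 - u / a ∈ Complex.slitPlane := by
  have ha0 : 0 < ‖a‖ := lt_of_lt_of_le hr ha
  have h1 : ‖u / a‖ < 1 := by
    rw [norm_div, div_lt_one ha0]
    exact lt_of_lt_of_le (mem_ball_zero_iff.1 hu) ha
  refine Or.inl ?_
  have h2 : (u / a).re ≤ ‖u / a‖ := Complex.re_le_norm _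
  have h3 : (1 - u / a).re = 1 - (u / a).re := by simp
  rw [h3]
  linarith

private lemma Psm_diff {r₀ : ℝ} {a : ℂ} (hr : 0 < r₀) (ha : r₀ ≤ ‖a‖) :
    DifferentiableOn ℂ (fun u : ℂ => Complex.log (1 - u / a)) (ball 0 r₀) := by
  have h1 : DifferentiableOn ℂ (fun u : ℂ => 1 - u / a) (ball 0 r₀) :=
    ((differentiable_const 1).sub (differentiable_id.div_const a)).differentiableOn
  exact h1.clog fun u hu => Psm_slit hr ha hu

private lemma Psm_sum (h2 : S_Tc) (k : ℕ) {r₀ : ℝ} (hr : 0 < r₀) (b : ℂ → ℕ) (S : Finset ℂ) :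
    (∀ a ∈ S, r₀ ≤ ‖a‖) →
    DifferentiableOn ℂ (fun u : ℂ => ∑ a ∈ S, (b a : ℂ) * Complex.log (1 - u / a)) (ball 0 r₀) ∧
    (1 ≤ k → tc k (fun u : ℂ => ∑ a ∈ S, (b a : ℂ) * Complex.log (1 - u / a)) =
      ∑ a ∈ S, (b a : ℂ) * tc k (fun u : ℂ => Complex.log (1 - u / a))) := by
  classical
  obtain ⟨hadd, hmul, -, -, -⟩ := h2
  induction S using Finset.induction_on with
  | empty =>
    intro _
    refine ⟨?_, fun hk => ?_⟩
    · simp only [Finset.sum_empty]
      exact differentiableOn_const _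
    · simp only [Finset.sum_empty]
      unfold tc
      rw [iteratedDeriv_const, if_neg (by omega), zero_div]
  | insert a S haS ih =>
    intro hS
    obtain ⟨hd, ht⟩ := ih fun a' ha' => hS a' (Finset.mem_insert_of_mem ha')
    have hda := Psm_diff hr (hS a (Finset.mem_insert_self a S))
    have e : (fun u : ℂ => ∑ a' ∈ insert a S, (b a' : ℂ) * Complex.log (1 - u / a')) =
        fun u : ℂ => (fun u : ℂ => (b a : ℂ) * Complex.log (1 - u / a)) u +
          (fun u : ℂ => ∑ a' ∈ S, (b a' : ℂ) * Complex.log (1 - u / a')) u := by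
      funext u
      rw [Finset.sum_insert haS]
    rw [e]
    have hda' : DifferentiableOn ℂ (fun u : ℂ => (b a : ℂ) * Complex.log (1 - u / a)) (ball 0 r₀) :=
      hda.const_mul _
    refine ⟨hda'.add hd, fun hk => ?_⟩
    rw [hadd k r₀ _ _ hr hda' hd, hmul k r₀ _ _ hr hda, ht hk, Finset.sum_insert haS]

private lemma Psm_const (k : ℕ) (hk : 1 ≤ k) {r₀ : ℝ} (hr : 0 < r₀) (h2 : S_Tc) (d : ℂ → ℂ) (P : ℂ)
    (hd : DifferentiableOn ℂ d (ball 0 r₀)) (hP : ∀ u ∈ ball (0 : ℂ) r₀, Complex.exp (d u) = P) :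
    tc k d = 0 := by
  obtain ⟨-, -, -, -, hcongr⟩ := h2
  have hder : ∀ u ∈ ball (0 : ℂ) r₀, deriv d u = 0 := by
    intro u hu
    have hdu : DifferentiableAt ℂ d u := hd.differentiableAt (isOpen_ball.mem_nhds hu)
    have h3 : HasDerivAt (fun z => Complex.exp (d z)) (Complex.exp (d u) * deriv d u) u :=
      hdu.hasDerivAt.cexp
    have h4 : (fun z => Complex.exp (d z)) =ᶠ[nhds u] fun _ => P := by
      filter_upwards [isOpen_ball.mem_nhds hu] with z hz
      exact hP z hz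
    have h5 : HasDerivAt (fun z => Complex.exp (d z)) 0 u :=
      (hasDerivAt_const u P).congr_of_eventuallyEq h4
    have h6 := h3.unique h5
    exact (mul_eq_zero.1 h6).resolve_left (Complex.exp_ne_zero _)
  have hc : ∀ u ∈ ball (0 : ℂ) r₀, d u = (fun _ : ℂ => d 0) u := by
    intro u hu
    exact isOpen_ball.is_const_of_deriv_eq_zero (convex_ball (0 : ℂ) r₀).isPreconnected hd
      (fun z hz => hder z hz) hu (mem_ball_self hr)
  rw [hcongr k r₀ d (fun _ => d 0) hr hc]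
  unfold tc
  rw [iteratedDeriv_const, if_neg (by omega), zero_div]

private lemma Psm_loga {r₀ R₁ : ℝ} {a : ℂ} (hr : 0 < r₀) (h1 : r₀ ≤ ‖a‖) (h2 : ‖a‖ ≤ R₁) :
    |Real.log ‖a‖| ≤ |Real.log r₀| + |Real.log R₁| := by
  have ha : 0 < ‖a‖ := lt_of_lt_of_le hr h1
  have h3 := Real.log_le_log hr h1
  have h4 := Real.log_le_log ha h2
  have h5 := neg_abs_le (Real.log r₀)
  have h6 := le_abs_self (Real.log R₁)
  have h7 := abs_nonneg (Real.log r₀)
  have h8 := abs_nonneg (Real.log R₁)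
  rw [abs_le]
  constructor <;> linarith

theorem tPsm (h1 : S_LgT) (h2 : Aw.S_Tc) : S_Psm := by
  intro r₀ R R₁ hr0 hrR hRR
  have hR0 : 0 < R := by linarith
  have hR1 : 0 < R₁ := by linarith
  have hRd : 0 < R₁ - R := by linarith
  set Λ : ℝ := |Real.log r₀| + |Real.log R₁| with hΛ
  have hΛ0 : 0 ≤ Λ := by positivity
  have hκ0 : 0 ≤ (R₁ + R) / (R₁ - R) := by positivity
  refine ⟨2 * R / (R₁ - R) + (5 + Λ) * ((R₁ + R) / (R₁ - R)), by positivity, ?_⟩
  intro S b H f V hV hH hHb hS hf hfe hf0 k hk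
  set N : ℝ := ((∑ a ∈ S, b a : ℕ) : ℝ) with hN
  have hN0 : 0 ≤ N := by
    rw [hN]
    positivity
  have h0 : (0 : ℂ) ∈ ball (0 : ℂ) R₁ := mem_ball_self hR1
  have h00 : (0 : ℂ) ∈ ball (0 : ℂ) r₀ := mem_ball_self hr0
  have hsub : ball (0 : ℂ) r₀ ⊆ ball (0 : ℂ) R₁ := ball_subset_ball (by linarith)
  have hsubR : ball (0 : ℂ) R ⊆ ball (0 : ℂ) R₁ := ball_subset_ball (by linarith)
  have hane : ∀ a ∈ S, a ≠ 0 := by
    intro a ha h
    have := (hS a ha).1
    rw [h, norm_zero] at this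
    linarith
  -- the logarithm of H
  obtain ⟨g₀, hg₀, hge⟩ := MP7ed9c3.Zs.logballz_exists hR1 hH fun u hu => (hHb u hu).1
  set c : ℂ := g₀ 0 - Complex.log (H 0) with hc
  have hexpc : Complex.exp c = 1 := by
    rw [hc, Complex.exp_sub, hge 0 h0, Complex.exp_log (hHb 0 h0).1]
    exact div_self (hHb 0 h0).1
  set h₁ : ℂ → ℂ := fun u => g₀ u - c with hh₁
  have hd1 : DifferentiableOn ℂ h₁ (ball 0 R₁) := hg₀.sub_const _
  have he1 : ∀ u ∈ ball (0 : ℂ) R₁, Complex.exp (h₁ u) = H u := by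
    intro u hu
    rw [hh₁]
    simp only
    rw [Complex.exp_sub, hexpc, div_one, hge u hu]
  have h10 : h₁ 0 = Complex.log (H 0) := by
    rw [hh₁, hc]
    simp
  -- the identity of the Taylor coefficients
  obtain ⟨hLd, hLt⟩ := Psm_sum h2 k hr0 b S fun a ha => (hS a ha).1
  have hLt' := hLt hk
  set L : ℂ → ℂ := fun u : ℂ => ∑ a ∈ S, (b a : ℂ) * Complex.log (1 - u / a) with hL
  have hd1' : DifferentiableOn ℂ h₁ (ball 0 r₀) := hd1.mono hsub
  have hD : DifferentiableOn ℂ (fun u => f u - (h₁ u + L u)) (ball 0 r₀) :=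
    hf.sub (hd1'.add hLd)
  have hDc : ∀ u ∈ ball (0 : ℂ) r₀, Complex.exp (f u - (h₁ u + L u)) = ∏ a ∈ S, (-a) ^ b a := by
    intro u hu
    have hexpL : Complex.exp (L u) = ∏ a ∈ S, (1 - u / a) ^ b a := by
      rw [hL]
      simp only
      rw [Complex.exp_sum]
      refine Finset.prod_congr rfl fun a ha => ?_
      rw [← Complex.cpow_natCast, Complex.cpow_def_of_ne_zero
        (Complex.slitPlane_ne_zero (Psm_slit hr0 (hS a ha).1 hu)), mul_comm]
    have hprod : ∏ a ∈ S, (u - a) ^ b a = (∏ a ∈ S, (-a) ^ b a) * ∏ a ∈ S, (1 - u / a) ^ b a := by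
      rw [← Finset.prod_mul_distrib]
      refine Finset.prod_congr rfl fun a ha => ?_
      rw [← mul_pow]
      have := hane a ha
      congr 1
      field_simp
      ring
    have hne : ∏ a ∈ S, (1 - u / a) ^ b a ≠ 0 := by
      refine Finset.prod_ne_zero_iff.2 fun a ha => pow_ne_zero _ ?_
      exact Complex.slitPlane_ne_zero (Psm_slit hr0 (hS a ha).1 hu)
    have hHne := (hHb u (hsub hu)).1
    rw [Complex.exp_sub, Complex.exp_add, hfe u hu, he1 u (hsub hu), hexpL, hprod]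
    field_simp
  have hD0 := Psm_const k hk hr0 h2 _ _ hD hDc
  obtain ⟨hadd, -, hcau, -, hcongr⟩ := h2
  have hsumd : DifferentiableOn ℂ (fun u => h₁ u + L u) (ball 0 r₀) := hd1'.add hLd
  have htf : tc k f = tc k h₁ + tc k L := by
    have e : ∀ u ∈ ball (0 : ℂ) r₀, f u = (fun u => (f u - (h₁ u + L u)) + (h₁ u + L u)) u := by
      intro u _
      simp
    rw [hcongr k r₀ f _ hr0 e, hadd k r₀ _ _ hr0 hD hsumd, hD0, zero_add,
      hadd k r₀ _ _ hr0 hd1' hLd]
  have hk0 : (k : ℂ) ≠ 0 := by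
    have : k ≠ 0 := by omega
    exact_mod_cast this
  have hmain : (k : ℂ) * tc k f + ∑ a ∈ S, (b a : ℂ) * a⁻¹ ^ k = k * tc k h₁ := by
    have e2 : (k : ℂ) * ∑ a ∈ S, (b a : ℂ) * tc k (fun u : ℂ => Complex.log (1 - u / a)) =
        -∑ a ∈ S, (b a : ℂ) * a⁻¹ ^ k := by
      rw [Finset.mul_sum, ← Finset.sum_neg_distrib]
      refine Finset.sum_congr rfl fun a ha => ?_
      rw [h1 a k (hane a ha) hk]
      field_simp
    rw [htf, mul_add, hLt', e2]
    ring
  rw [hmain, norm_mul, Complex.norm_natCast]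
  -- the bound for the logarithm
  have hre : Set.MapsTo h₁ (ball 0 R₁) {z | z.re ≤ V + 1} := by
    intro u hu
    have h7 : Real.exp (h₁ u).re ≤ Real.exp V := by
      rw [← Complex.norm_exp, he1 u hu]
      exact (hHb u hu).2
    have h8 := Real.exp_le_exp.1 h7
    change (h₁ u).re ≤ V + 1
    linarith
  have hH0 : Real.log ‖H 0‖ = (f 0).re - ∑ a ∈ S, (b a : ℝ) * Real.log ‖a‖ := by
    have h3 : Real.exp (f 0).re = ‖H 0‖ * ∏ a ∈ S, ‖a‖ ^ b a := by
      rw [← Complex.norm_exp, hfe 0 h00, norm_mul, norm_prod]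
      congr 1
      refine Finset.prod_congr rfl fun a _ => ?_
      rw [norm_pow, zero_sub, norm_neg]
    have h4 : Real.log (Real.exp (f 0).re) = Real.log ‖H 0‖ + ∑ a ∈ S, (b a : ℝ) * Real.log ‖a‖ := by
      rw [h3, Real.log_mul (norm_ne_zero_iff.2 (hHb 0 h0).1) (Finset.prod_ne_zero_iff.2 fun a ha =>
        pow_ne_zero _ (norm_ne_zero_iff.2 (hane a ha))), Real.log_prod (fun a ha =>
        pow_ne_zero _ (norm_ne_zero_iff.2 (hane a ha)))]
      congr 1
      refine Finset.sum_congr rfl fun a _ => ?_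
      rw [Real.log_pow]
    rw [Real.log_exp] at h4
    linarith
  have hlogb : |Real.log ‖H 0‖| ≤ V + Λ * N := by
    have h3 : |(f 0).re| ≤ V := (Complex.abs_re_le_norm _).trans hf0
    have h4 : |∑ a ∈ S, (b a : ℝ) * Real.log ‖a‖| ≤ Λ * N := by
      calc |∑ a ∈ S, (b a : ℝ) * Real.log ‖a‖| ≤ ∑ a ∈ S, |(b a : ℝ) * Real.log ‖a‖| :=
            Finset.abs_sum_le_sum_abs _ _
        _ ≤ ∑ a ∈ S, (b a : ℝ) * Λ := by
            refine Finset.sum_le_sum fun a ha => ?_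
            rw [abs_mul, Nat.abs_cast]
            exact mul_le_mul_of_nonneg_left (Psm_loga hr0 (hS a ha).1 (hS a ha).2)
              (Nat.cast_nonneg _)
        _ = Λ * N := by
            rw [← Finset.sum_mul, hN, Nat.cast_sum]
            ring
    rw [hH0]
    exact (abs_sub _ _).trans (add_le_add h3 h4)
  have h10b : ‖h₁ 0‖ ≤ V + Λ * N + 4 := by
    have h3 := Complex.norm_le_abs_re_add_abs_im (h₁ 0)
    have h4 : |(h₁ 0).re| ≤ V + Λ * N := by
      rw [h10, Complex.log_re]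
      exact hlogb
    have h5 : |(h₁ 0).im| ≤ 4 := by
      rw [h10, Complex.log_im]
      exact (Complex.abs_arg_le_pi _).trans Real.pi_le_four
    linarith
  have hball : ∀ w ∈ ball (0 : ℂ) R, ‖h₁ w‖ ≤
      (2 * R / (R₁ - R) + (5 + Λ) * ((R₁ + R) / (R₁ - R))) * (V + N + 1) := by
    intro w hw
    have hw2 : ‖w‖ < R := mem_ball_zero_iff.1 hw
    have h9 := Complex.borelCaratheodory (by linarith : 0 < V + 1) hd1 hre hR1 (hsubR hw)
    have hden : R₁ - R ≤ R₁ - ‖w‖ := by linarith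
    have h11 : 2 * (V + 1) * ‖w‖ / (R₁ - ‖w‖) ≤ 2 * (V + 1) * R / (R₁ - R) := by
      apply div_le_div₀ (by positivity) _ hRd hden
      exact mul_le_mul_of_nonneg_left hw2.le (by linarith)
    have h12 : ‖h₁ 0‖ * (R₁ + ‖w‖) / (R₁ - ‖w‖) ≤ (V + Λ * N + 4) * (R₁ + R) / (R₁ - R) := by
      apply div_le_div₀ (by positivity) _ hRd hden
      exact mul_le_mul h10b (by linarith) (by positivity) (by positivity)
    have h13 : V + Λ * N + 4 ≤ (5 + Λ) * (V + N + 1) := by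
      have : 0 ≤ Λ * V := mul_nonneg hΛ0 hV
      nlinarith
    have h14 : (V + Λ * N + 4) * (R₁ + R) / (R₁ - R) ≤
        (5 + Λ) * (V + N + 1) * ((R₁ + R) / (R₁ - R)) := by
      rw [mul_div_assoc]
      exact mul_le_mul_of_nonneg_right h13 hκ0
    have h15 : 2 * (V + 1) * R / (R₁ - R) ≤ 2 * R / (R₁ - R) * (V + N + 1) := by
      have h16 : 2 * (V + 1) * R / (R₁ - R) = 2 * R / (R₁ - R) * (V + 1) := by ring
      rw [h16]
      exact mul_le_mul_of_nonneg_left (by linarith) (by positivity)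
    calc ‖h₁ w‖ ≤ 2 * (V + 1) * ‖w‖ / (R₁ - ‖w‖) + ‖h₁ 0‖ * (R₁ + ‖w‖) / (R₁ - ‖w‖) := h9
      _ ≤ 2 * R / (R₁ - R) * (V + N + 1) + (5 + Λ) * (V + N + 1) * ((R₁ + R) / (R₁ - R)) := by
          linarith
      _ = _ := by ring
  have hfin := hcau k R _ h₁ hR0 (hd1.mono hsubR) hball
  calc (k : ℝ) * ‖tc k h₁‖ ≤ k * ((2 * R / (R₁ - R) + (5 + Λ) * ((R₁ + R) / (R₁ - R))) *
        (V + N + 1) / R ^ k) := mul_le_mul_of_nonneg_left hfin (Nat.cast_nonneg _)
    _ = _ := by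
      rw [one_div, inv_pow]
      ring

end MP7ed9c3.Tp
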