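import Pool.Agent.Lib.MP_7ed9c3_nt.Tp.Spec

/-!
# MP_7ed9c3_nt, project TP, module TrnW (helper56): only the block counts

The auxiliary lemmas are those of `Aw/WinA.lean`.
-/

set_option autoImplicit false

namespace MP7ed9c3.Tp

open MeasureTheory Metric MP7ed9c3.Aw

/-- Linearity of the Taylor coefficient for finite sums. -/
private lemma TrnW_sum (h2 : Aw.S_Tc) (n : ℕ) (r : ℝ) (hr : 0 < r) (a : ℕ → ℂ) (F : ℕ → ℂ → ℂ)
    (S : Finset ℕ) (hF : ∀ m ∈ S, DifferentiableOn ℂ (F m) (ball 0 r)) :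
    tc n (fun w => ∑ m ∈ S, a m * F m w) = ∑ m ∈ S, a m * tc n (F m) := by
  classical
  obtain ⟨hadd, hmul, -, -, -⟩ := h2
  induction S using Finset.induction_on with
  | empty =>
    have h0 := hmul n r 0 (fun _ => (0 : ℂ)) hr (differentiableOn_const 0)
    simp only [zero_mul] at h0
    simpa using h0
  | insert m S hm ih =>
    have hS : ∀ k ∈ S, DifferentiableOn ℂ (F k) (ball 0 r) := fun k hk =>
      hF k (Finset.mem_insert_of_mem hk)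
    have hFm : DifferentiableOn ℂ (F m) (ball 0 r) := hF m (Finset.mem_insert_self m S)
    have hd : DifferentiableOn ℂ (fun w => ∑ k ∈ S, a k * F k w) (ball 0 r) :=
      DifferentiableOn.fun_sum fun k hk => (hS k hk).const_mul (a k)
    have h1 := hadd n r (fun w => a m * F m w) (fun w => ∑ k ∈ S, a k * F k w) hr
      (hFm.const_mul (a m)) hd
    simp only [Finset.sum_insert hm]
    rw [h1, ih hS, hmul n r (a m) (F m) hr hFm]

/-- The size of one term. -/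
private lemma TrnW_term (c : ℕ → ℂ) (C : ℝ) (hC : 0 ≤ C) (hc : Coefs c C) (s : ℂ) (hs : 3 ≤ s.re)
    (m : ℕ) : ‖c m * (m : ℂ) ^ (-s)‖ ≤ C * ((m : ℝ) ^ (-1 : ℝ) * (m : ℝ) ^ (-(3 / 2 : ℝ))) := by
  rcases Nat.eq_zero_or_pos m with h0 | h0
  · subst h0
    rw [hc.1 0 not_isPrimePow_zero, zero_mul, norm_zero]
    positivity
  · have hm : (0 : ℝ) < m := by exact_mod_cast h0
    have hm1 : (1 : ℝ) ≤ m := by exact_mod_cast h0
    rw [norm_mul, Complex.norm_natCast_cpow_of_pos h0, Complex.neg_re]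
    have e1 : (m : ℝ) ^ (-s.re) ≤ (m : ℝ) ^ (-(3 : ℝ)) :=
      Real.rpow_le_rpow_of_exponent_le hm1 (by linarith)
    have e2 : √(m : ℝ) * (m : ℝ) ^ (-(3 : ℝ)) = (m : ℝ) ^ (-1 : ℝ) * (m : ℝ) ^ (-(3 / 2 : ℝ)) := by
      rw [Real.sqrt_eq_rpow, ← Real.rpow_add hm, ← Real.rpow_add hm]
      norm_num
    calc ‖c m‖ * (m : ℝ) ^ (-s.re) ≤ (C * √m) * (m : ℝ) ^ (-(3 : ℝ)) :=
          mul_le_mul (hc.2 m) e1 (by positivity) (by positivity)
      _ = C * (√(m : ℝ) * (m : ℝ) ^ (-(3 : ℝ))) := by ring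
      _ = _ := by rw [e2]

/-- The series is summable. -/
private lemma TrnW_summable (c : ℕ → ℂ) (C : ℝ) (hC : 0 ≤ C) (hc : Coefs c C) (s : ℂ)
    (hs : 3 ≤ s.re) : Summable fun m : ℕ => c m * (m : ℂ) ^ (-s) := by
  have h1 : Summable fun m : ℕ => C * (m : ℝ) ^ (-(3 / 2 : ℝ)) :=
    (Real.summable_nat_rpow.2 (by norm_num)).mul_left C
  refine Summable.of_norm_bounded h1 fun m => ?_
  refine (TrnW_term c C hC hc s hs m).trans ?_
  rcases Nat.eq_zero_or_pos m with h0 | h0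
  · subst h0
    have : ((0 : ℕ) : ℝ) ^ (-1 : ℝ) = 0 := by
      rw [Nat.cast_zero]; exact Real.zero_rpow (by norm_num)
    rw [this, zero_mul, mul_zero]
    positivity
  · have hm1 : (1 : ℝ) ≤ m := by exact_mod_cast h0
    have e1 : (m : ℝ) ^ (-1 : ℝ) ≤ 1 := Real.rpow_le_one_of_one_le_of_nonpos hm1 (by norm_num)
    have e2 : (0 : ℝ) ≤ (m : ℝ) ^ (-(3 / 2 : ℝ)) := by positivity
    exact mul_le_mul_of_nonneg_left (by nlinarith) hC

/-- The tail of the series. -/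
private lemma TrnW_tail (c : ℕ → ℂ) (C : ℝ) (hC : 0 ≤ C) (hc : Coefs c C) (s : ℂ) (hs : 3 ≤ s.re)
    (M : ℕ) (hM : 1 ≤ M) :
    ‖Aw.dir c s - ∑ m ∈ Finset.Ioc 0 M, c m * (m : ℂ) ^ (-s)‖ ≤
      C * (∑' m : ℕ, (m : ℝ) ^ (-(3 / 2 : ℝ))) / M := by
  have hMp : (0 : ℝ) < M := by exact_mod_cast hM
  have hsum := TrnW_summable c C hC hc s hs
  have hS : Summable fun m : ℕ => (m : ℝ) ^ (-(3 / 2 : ℝ)) := Real.summable_nat_rpow.2 (by norm_num)
  have e1 := hsum.sum_add_tsum_nat_add (M + 1)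
  have e0 : ∑ m ∈ Finset.Ioc 0 M, c m * (m : ℂ) ^ (-s) =
      ∑ m ∈ Finset.range (M + 1), c m * (m : ℂ) ^ (-s) := by
    refine Finset.sum_subset ?_ ?_
    · intro m hm
      rw [Finset.mem_Ioc] at hm
      rw [Finset.mem_range]
      omega
    · intro m hm hm'
      rw [Finset.mem_range] at hm
      rw [Finset.mem_Ioc] at hm'
      have : m = 0 := by omega
      subst this
      rw [hc.1 0 not_isPrimePow_zero, zero_mul]
  have e2 : Aw.dir c s - ∑ m ∈ Finset.Ioc 0 M, c m * (m : ℂ) ^ (-s) =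
      ∑' i : ℕ, c (i + (M + 1)) * ((i + (M + 1) : ℕ) : ℂ) ^ (-s) := by
    rw [e0, Aw.dir, ← e1]
    ring
  rw [e2]
  have hS' : Summable fun i : ℕ => ((i + (M + 1) : ℕ) : ℝ) ^ (-(3 / 2 : ℝ)) :=
    (summable_nat_add_iff (f := fun m : ℕ => (m : ℝ) ^ (-(3 / 2 : ℝ))) (M + 1)).2 hS
  have hle : ∑' i : ℕ, ((i + (M + 1) : ℕ) : ℝ) ^ (-(3 / 2 : ℝ)) ≤
      ∑' m : ℕ, (m : ℝ) ^ (-(3 / 2 : ℝ)) := by
    rw [← hS.sum_add_tsum_nat_add (M + 1)]
    have : (0 : ℝ) ≤ ∑ i ∈ Finset.range (M + 1), (i : ℝ) ^ (-(3 / 2 : ℝ)) :=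
      Finset.sum_nonneg fun i _ => by positivity
    linarith
  have hb : ∀ i : ℕ, ‖c (i + (M + 1)) * ((i + (M + 1) : ℕ) : ℂ) ^ (-s)‖ ≤
      C / M * ((i + (M + 1) : ℕ) : ℝ) ^ (-(3 / 2 : ℝ)) := by
    intro i
    refine (TrnW_term c C hC hc s hs (i + (M + 1))).trans ?_
    have hx : (M : ℝ) ≤ ((i + (M + 1) : ℕ) : ℝ) := by
      exact_mod_cast (by omega : M ≤ i + (M + 1))
    have hy : ((i + (M + 1) : ℕ) : ℝ) ^ (-1 : ℝ) ≤ 1 / M := by
      rw [Real.rpow_neg_one, one_div]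
      exact inv_anti₀ hMp hx
    have hz : (0 : ℝ) ≤ ((i + (M + 1) : ℕ) : ℝ) ^ (-(3 / 2 : ℝ)) := by positivity
    calc C * (((i + (M + 1) : ℕ) : ℝ) ^ (-1 : ℝ) * ((i + (M + 1) : ℕ) : ℝ) ^ (-(3 / 2 : ℝ)))
        ≤ C * (1 / M * ((i + (M + 1) : ℕ) : ℝ) ^ (-(3 / 2 : ℝ))) :=
          mul_le_mul_of_nonneg_left (mul_le_mul_of_nonneg_right hy hz) hC
      _ = _ := by ring
  have hfin := tsum_of_norm_bounded ((hS'.mul_left (C / M)).hasSum) hb
  refine hfin.trans ?_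
  rw [tsum_mul_left]
  calc C / M * ∑' i : ℕ, ((i + (M + 1) : ℕ) : ℝ) ^ (-(3 / 2 : ℝ))
      ≤ C / M * ∑' m : ℕ, (m : ℝ) ^ (-(3 / 2 : ℝ)) :=
        mul_le_mul_of_nonneg_left hle (by positivity)
    _ = _ := by ring

/-- The Taylor coefficients of the head. -/
private lemma TrnW_head (h1 : Aw.S_Phi) (h2 : Aw.S_Tc) (h : ℝ) (hh : 0 < h) (c : ℕ → ℂ) (t : ℝ)
    (n M : ℕ) (r : ℝ) (hr : 0 < r) (hr1 : r ≤ 1) :
    DifferentiableOn ℂ (fun w => ∑ m ∈ Finset.Ioc 0 M,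
      c m * (m : ℂ) ^ (-(phi h w + t * Complex.I))) (ball 0 r) ∧
    tc n (fun w => ∑ m ∈ Finset.Ioc 0 M, c m * (m : ℂ) ^ (-(phi h w + t * Complex.I))) =
      aS h c (Finset.Ioc 0 M) n t := by
  have hphi : DifferentiableOn ℂ (phi h) (ball 0 r) :=
    (h1 h hh).1.mono (ball_subset_ball hr1)
  have hF : ∀ m ∈ Finset.Ioc 0 M,
      DifferentiableOn ℂ (fun w => (m : ℂ) ^ (-phi h w)) (ball 0 r) := by
    intro m hm
    rw [Finset.mem_Ioc] at hm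
    refine DifferentiableOn.const_cpow hphi.neg (Or.inl ?_)
    exact_mod_cast (by omega : m ≠ 0)
  have hfun : (fun w => ∑ m ∈ Finset.Ioc 0 M, c m * (m : ℂ) ^ (-(phi h w + t * Complex.I))) =
      fun w => ∑ m ∈ Finset.Ioc 0 M,
        (c m * (m : ℂ) ^ (-(t * Complex.I))) * (m : ℂ) ^ (-phi h w) := by
    funext w
    refine Finset.sum_congr rfl fun m hm => ?_
    rw [Finset.mem_Ioc] at hm
    have hm0 : (m : ℂ) ≠ 0 := by exact_mod_cast (by omega : m ≠ 0)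
    rw [neg_add, Complex.cpow_add _ _ hm0]
    ring
  rw [hfun]
  constructor
  · exact DifferentiableOn.fun_sum fun m hm => (hF m hm).const_mul _
  · rw [TrnW_sum h2 n r hr (fun m => c m * (m : ℂ) ^ (-(t * Complex.I)))
      (fun m w => (m : ℂ) ^ (-phi h w)) (Finset.Ioc 0 M) hF, aS]
    refine Finset.sum_congr rfl fun m _ => ?_
    rw [gT]
    ring

/-- The first terms. -/
private lemma TrnW_first (h3 : Aw.S_GUp) (h : ℝ) (hh : 0 < h) (R₂ : ℝ) (hR0 : 0 < R₂) (hR1 : R₂ < 1)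
    (hell : 1 / 2 < ell h R₂) (c : ℕ → ℂ) (C : ℝ) (hC : 0 ≤ C) (hc : Coefs c C) (t : ℝ)
    (n M : ℕ) : ‖aS h c (Finset.Ioc 0 M) n t‖ ≤ C * M / R₂ ^ n := by
  have hb : ∀ m ∈ Finset.Ioc 0 M, ‖c m * gT h n m * (m : ℂ) ^ (-(t * Complex.I))‖ ≤
      C / R₂ ^ n := by
    intro m hm
    rw [Finset.mem_Ioc] at hm
    have hm0 : 0 < m := hm.1
    have hmp : (0 : ℝ) < m := by exact_mod_cast hm0
    have hm1 : (1 : ℝ) ≤ m := by exact_mod_cast hm0
    have e0 : ‖(m : ℂ) ^ (-(t * Complex.I))‖ = 1 := by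
      rw [Complex.norm_natCast_cpow_of_pos hm0]
      simp
    have e1 : √(m : ℝ) * (m : ℝ) ^ (-ell h R₂) ≤ 1 := by
      rw [Real.sqrt_eq_rpow, ← Real.rpow_add hmp]
      exact Real.rpow_le_one_of_one_le_of_nonpos hm1 (by linarith)
    have e2 := h3 h R₂ n m hh hR0 hR1 hm0
    have hRn : 0 < R₂ ^ n := pow_pos hR0 n
    rw [norm_mul, norm_mul, e0, mul_one]
    calc ‖c m‖ * ‖gT h n m‖ ≤ (C * √m) * ((m : ℝ) ^ (-ell h R₂) / R₂ ^ n) :=
          mul_le_mul (hc.2 m) e2 (norm_nonneg _) (by positivity)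
      _ = (C / R₂ ^ n) * (√(m : ℝ) * (m : ℝ) ^ (-ell h R₂)) := by ring
      _ ≤ (C / R₂ ^ n) * 1 := mul_le_mul_of_nonneg_left e1 (by positivity)
      _ = C / R₂ ^ n := mul_one _
  rw [aS]
  refine (norm_sum_le_of_le _ hb).trans (le_of_eq ?_)
  rw [Finset.sum_const, Nat.card_Ioc, nsmul_eq_mul, Nat.sub_zero]
  ring

/-- The truncation. -/
private lemma TrnW_trunc (h1 : Aw.S_Phi) (h2 : Aw.S_Tc) (h3 : Aw.S_GUp) (h : ℝ) (hh : 0 < h)
    (r₀ R₂ : ℝ) (hr0 : 0 < r₀) (hr1 : r₀ < R₂) (hR1 : R₂ < 1) (hell0 : 3 ≤ ell h r₀)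
    (hell : 1 / 2 < ell h R₂) (c : ℕ → ℂ) (C : ℝ) (hC : 0 ≤ C) (hc : Coefs c C) (t : ℝ)
    (hd : DifferentiableOn ℂ (Aw.dir c) {s : ℂ | 2 < s.re})
    (M₀ M₁ n : ℕ) (hM₁ : 1 ≤ M₁) (hM : M₀ ≤ M₁) :
    ‖tc n (fun w => Aw.dir c (phi h w + t * Complex.I)) - aS h c (Finset.Ioc M₀ M₁) n t‖ ≤
      C * M₀ / R₂ ^ n + C * (∑' m : ℕ, (m : ℝ) ^ (-(3 / 2 : ℝ))) / M₁ / r₀ ^ n := by
  obtain ⟨hadd, -, hcau, -, hcongr⟩ := id h2
  obtain ⟨hhd, hhead⟩ := TrnW_head h1 h2 h hh c t n M₁ r₀ hr0 (by linarith)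
  set head : ℂ → ℂ := fun w => ∑ m ∈ Finset.Ioc 0 M₁,
    c m * (m : ℂ) ^ (-(phi h w + t * Complex.I)) with hheaddef
  set f : ℂ → ℂ := fun w => Aw.dir c (phi h w + t * Complex.I) with hf
  have hre : ∀ w ∈ ball (0 : ℂ) r₀, 3 ≤ (phi h w + t * Complex.I).re := by
    intro w hw
    have hwn : ‖w‖ ≤ r₀ := by
      rw [mem_ball_zero_iff] at hw
      exact hw.le
    have := (h1 h hh).2.2.1 r₀ w hr0.le (by linarith) hwn
    simp only [Complex.add_re, Complex.mul_re, Complex.ofReal_re, Complex.I_re, mul_zero,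
      Complex.ofReal_im, Complex.I_im, zero_mul, sub_zero, add_zero]
    linarith
  have hphi : DifferentiableOn ℂ (fun w => phi h w + t * Complex.I) (ball 0 r₀) :=
    ((h1 h hh).1.mono (ball_subset_ball (by linarith))).add_const _
  have hfd0 : DifferentiableOn ℂ f (ball 0 r₀) := by
    refine hd.comp hphi ?_
    intro w hw
    have := hre w hw
    show 2 < (phi h w + t * Complex.I).re
    linarith
  have hed : DifferentiableOn ℂ (fun w => f w - head w) (ball 0 r₀) := hfd0.sub hhd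
  have hsplit : tc n f = tc n head + tc n (fun w => f w - head w) := by
    rw [← hadd n r₀ head (fun w => f w - head w) hr0 hhd hed]
    refine hcongr n r₀ f _ hr0 fun w _ => ?_
    ring
  have heB : ∀ w ∈ ball (0 : ℂ) r₀, ‖f w - head w‖ ≤
      C * (∑' m : ℕ, (m : ℝ) ^ (-(3 / 2 : ℝ))) / M₁ := by
    intro w hw
    exact TrnW_tail c C hC hc _ (hre w hw) M₁ hM₁
  have b2 := hcau n r₀ _ _ hr0 hed heB
  have hR0 : 0 < R₂ := hr0.trans hr1
  have b3 := TrnW_first h3 h hh R₂ hR0 hR1 hell c C hC hc t n M₀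
  have hcons : aS h c (Finset.Ioc 0 M₀) n t + aS h c (Finset.Ioc M₀ M₁) n t =
      aS h c (Finset.Ioc 0 M₁) n t := by
    simp only [aS]
    exact Finset.sum_Ioc_consecutive _ (Nat.zero_le _) hM
  have hmain : tc n f - aS h c (Finset.Ioc M₀ M₁) n t =
      aS h c (Finset.Ioc 0 M₀) n t + tc n (fun w => f w - head w) := by
    rw [hsplit, hhead, ← hcons]
    ring
  rw [hmain]
  exact (norm_add_le _ _).trans (add_le_add b3 b2)

theorem tTrnW (h1 : Aw.S_Phi) (h2 : Aw.S_Tc) (h3 : Aw.S_GUp) (h4 : S_DirB) (_h5 : S_VWb) :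
    S_TrnW := by
  intro h σ₁ b r₀ R R' R₂ R₁ C A' hh hC rad
  obtain ⟨A₀, hA₀, hdir⟩ := h4 C hC
  set K : ℝ := ∑' m : ℕ, (m : ℝ) ^ (-(3 / 2 : ℝ)) with hK
  have hK0 : 0 ≤ K := tsum_nonneg fun m => by positivity
  have hr0 : 0 < r₀ := rad.r₀pos
  have hR'0 : 0 < R' := by linarith [rad.r₀pos, rad.lt1, rad.lt2]
  have hR20 : 0 < R₂ := by linarith [rad.lt3]
  have hR21 : R₂ < 1 := by linarith [rad.lt4, rad.lt5]
  have hr0R : r₀ < R₂ := by linarith [rad.lt1, rad.lt2, rad.lt3]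
  have hq1 : 1 < R₂ / R' := by
    rw [lt_div_iff₀ hR'0]
    linarith [rad.lt3]
  obtain ⟨δ, hδ⟩ : ∃ δ : ℝ, δ = Real.log (R₂ / R') / 2 := ⟨_, rfl⟩
  have hlog : 0 < Real.log (R₂ / R') := Real.log_pos hq1
  have hδ0 : 0 < δ := by rw [hδ]; linarith
  have hlr : 0 < Real.log (1 / r₀) := by
    refine Real.log_pos ?_
    rw [lt_div_iff₀ hr0]
    linarith
  obtain ⟨β, hβ⟩ : ∃ β : ℝ, β = A' * Real.log (1 / r₀) + 1 + δ := ⟨_, rfl⟩
  have hA'0 : (0 : ℝ) ≤ A' := Nat.cast_nonneg _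
  have hβ0 : 0 < β := by
    rw [hβ]
    have := mul_nonneg hA'0 hlr.le
    linarith
  refine ⟨δ, β, δ / 2, ⌈(C + C * K) / (δ / 2)⌉₊ + 1, hδ0, hβ0, by linarith, by omega, ?_⟩
  intro c hc t m k M₀ M₁ hm hmk hkA hM₀ hM hM₀e hM₁e
  have hCK : 0 ≤ C * K := mul_nonneg hC hK0
  have hM₁1 : 1 ≤ M₁ := hM₀.trans hM
  have hM₁p : (0 : ℝ) < M₁ := by exact_mod_cast hM₁1
  have hmk' : (m : ℝ) ≤ k := by exact_mod_cast hmk
  have hkA' : (k : ℝ) ≤ A' * m := by exact_mod_cast hkA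
  have hm0 : (0 : ℝ) ≤ m := Nat.cast_nonneg _
  have hmain := TrnW_trunc h1 h2 h3 h hh r₀ R₂ hr0 hr0R hR21 rad.e0 rad.e3 c C hC hc t
    (hdir c hc).1 M₀ M₁ k hM₁1 hM
  have ha : aW h c k M₀ M₁ t = aS h c (Finset.Ioc M₀ M₁) k t := rfl
  have he : eW h c k t = tc k (fun w => Aw.dir c (phi h w + t * Complex.I)) := rfl
  rw [ha, he]
  refine hmain.trans ?_
  rw [← hK]
  have hRk : 0 < R' ^ k := pow_pos hR'0 k
  have hR2k : 0 < R₂ ^ k := pow_pos hR20 k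
  have hrk : 0 < r₀ ^ k := pow_pos hr0 k
  have hone : 1 ≤ (1 / R') ^ k := by
    refine one_le_pow₀ ?_
    rw [le_div_iff₀ hR'0]
    linarith [rad.lt3]
  -- the first term
  have t1 : C * M₀ / R₂ ^ k ≤ C * Real.exp (-(δ * m)) * (1 / R') ^ k := by
    have e1 : R₂ ^ k = R' ^ k * Real.exp (2 * δ * k) := by
      have e2 : Real.exp (2 * δ) = R₂ / R' := by
        rw [hδ, mul_div_cancel₀ _ (two_ne_zero), Real.exp_log (by linarith)]
      have e3 : Real.exp (2 * δ * k) = (R₂ / R') ^ k := by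
        rw [← e2, ← Real.exp_nat_mul]
        congr 1
        ring
      rw [e3, div_pow]
      field_simp
    have e4 : (M₀ : ℝ) ≤ Real.exp (-(δ * m)) * Real.exp (2 * δ * k) := by
      rw [← Real.exp_add]
      refine hM₀e.trans (Real.exp_le_exp.2 ?_)
      nlinarith
    rw [e1, div_le_iff₀ (by positivity), one_div_pow]
    have e5 : C * Real.exp (-(δ * m)) * (1 / R' ^ k) * (R' ^ k * Real.exp (2 * δ * k)) =
        C * (Real.exp (-(δ * m)) * Real.exp (2 * δ * k)) := by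
      field_simp
    rw [e5]
    exact mul_le_mul_of_nonneg_left e4 hC
  -- the second term
  have t2 : C * K / M₁ / r₀ ^ k ≤ C * K * Real.exp (-(δ * m)) * (1 / R') ^ k := by
    have e1 : 1 / r₀ ^ k = Real.exp (k * Real.log (1 / r₀)) := by
      rw [Real.exp_nat_mul, Real.exp_log (by positivity), one_div_pow]
    have e2 : 1 / (M₁ : ℝ) ≤ Real.exp (-(β * m)) := by
      rw [Real.exp_neg, one_div]
      exact inv_anti₀ (Real.exp_pos _) hM₁e
    have e3 : 1 / (M₁ : ℝ) * (1 / r₀ ^ k) ≤ Real.exp (-(δ * m)) := by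
      rw [e1]
      refine (mul_le_mul_of_nonneg_right e2 (Real.exp_pos _).le).trans ?_
      rw [← Real.exp_add]
      refine Real.exp_le_exp.2 ?_
      have e4 : (k : ℝ) * Real.log (1 / r₀) ≤ A' * m * Real.log (1 / r₀) :=
        mul_le_mul_of_nonneg_right hkA' hlr.le
      rw [hβ]
      nlinarith
    have e5 : C * K / M₁ / r₀ ^ k = C * K * (1 / (M₁ : ℝ) * (1 / r₀ ^ k)) := by ring
    rw [e5]
    have e6 : C * K * (1 / (M₁ : ℝ) * (1 / r₀ ^ k)) ≤ C * K * Real.exp (-(δ * m)) :=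
      mul_le_mul_of_nonneg_left e3 hCK
    refine e6.trans (le_mul_of_one_le_right ?_ hone)
    exact mul_nonneg hCK (Real.exp_pos _).le
  refine (add_le_add t1 t2).trans ?_
  have e7 : C * Real.exp (-(δ * m)) * (1 / R') ^ k + C * K * Real.exp (-(δ * m)) * (1 / R') ^ k =
      ((C + C * K) * Real.exp (-(δ * m))) * (1 / R') ^ k := by ring
  rw [e7]
  refine mul_le_mul_of_nonneg_right ?_ (by positivity)
  have e8 : C + C * K ≤ Real.exp (δ / 2 * m) := by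
    have e9 : (C + C * K) / (δ / 2) ≤ m := by
      refine (Nat.le_ceil _).trans ?_
      exact_mod_cast (by omega : ⌈(C + C * K) / (δ / 2)⌉₊ ≤ m)
    have e10 : C + C * K ≤ δ / 2 * m := by
      rw [div_le_iff₀ (by linarith)] at e9
      linarith
    have e11 := Real.add_one_le_exp (δ / 2 * m)
    linarith
  have e12 : Real.exp (-(δ / 2 * m)) = Real.exp (δ / 2 * m) * Real.exp (-(δ * m)) := by
    rw [← Real.exp_add]
    congr 1
    ring
  rw [e12]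
  exact mul_le_mul_of_nonneg_right e8 (Real.exp_pos _).le

end MP7ed9c3.Tp
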