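import Mathlib

/-!
# Turan's power sum theorem (one parameter), with weights

`S_Tur`: complex numbers `w_1, …, w_n` of absolute value at most `1` and natural weights `b_j`, some `w_j` of absolute value `1` with `b_j ≥ 1`:
some weighted power sum `s_k = ∑ b_j w_j^k`, `n + 1 ≤ k ≤ 2n`, has `|s_k| ≥ 200^(-n)`.  `S_TurM`: exponents
`m ≤ k ≤ 4m`, `n ≤ m`.  `S_TurF`: a family of which at most `N₁` members have absolute value at least `ρ₁`.

Proof (helper61).  `∑_j b_j w_j^(n+1)/(1 - w_j z) = A(z)/D(z)`, `D = ∏ (1 - w_j z)`; the coefficients of `A` are at most `2^n δ`, `δ` the maximum of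
the `|s_k|`.  For some `r` in `[1/2, 1]`: `∏ |r - |w_j|| ≥ 12^(-n)`.  Integral of `z^n A/D` over `|z| = 1/r`.
-/

set_option autoImplicit false

namespace MP7ed9c3.TuranW

open Polynomial Finset Metric

def S_Tur : Prop := ∀ (n : ℕ) (w : Fin n → ℂ) (b : Fin n → ℕ), (∀ j, ‖w j‖ ≤ 1) →
  (∃ j, ‖w j‖ = 1 ∧ 1 ≤ b j) →
  ∃ k : ℕ, n + 1 ≤ k ∧ k ≤ 2 * n ∧ 1 ≤ (200 : ℝ) ^ n * ‖∑ j, (b j : ℂ) * w j ^ k‖

def S_TurM : Prop := ∀ (N m : ℕ) (z : Fin N → ℂ) (b : Fin N → ℕ) (ρ : ℝ), 0 < ρ → N ≤ m →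
  (∀ j, ‖z j‖ ≤ ρ) → (∃ j, ‖z j‖ = ρ ∧ 1 ≤ b j) →
  ∃ k : ℕ, m ≤ k ∧ k ≤ 4 * m ∧ ρ ^ k ≤ (200 : ℝ) ^ N * ‖∑ j, (b j : ℂ) * z j ^ k‖

open Classical in
def S_TurF : Prop := ∀ (ι : Type) (J : Finset ι) (z : ι → ℂ) (b : ι → ℕ) (m N₁ : ℕ) (ρ ρ₁ : ℝ),
  0 < ρ → 0 ≤ ρ₁ → ρ₁ ≤ ρ → N₁ ≤ m → (∀ j ∈ J, ‖z j‖ ≤ ρ) → (∃ j ∈ J, ‖z j‖ = ρ ∧ 1 ≤ b j) →
  (J.filter fun j => ρ₁ ≤ ‖z j‖).card ≤ N₁ →
  ∃ k : ℕ, m ≤ k ∧ k ≤ 4 * m ∧
    ρ ^ k ≤ (200 : ℝ) ^ N₁ * (‖∑ j ∈ J, (b j : ℂ) * z j ^ k‖ + (∑ j ∈ J, (b j : ℝ)) * ρ₁ ^ k)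

/-- a good radius -/
private theorem Tur_rad (n : ℕ) (a : Fin n → ℝ) :
    ∃ r : ℝ, 1 / 2 ≤ r ∧ r ≤ 1 ∧ 1 ≤ (12 : ℝ) ^ n * |∏ j, (r - a j)| := by
  rcases Nat.eq_zero_or_pos n with hn | hn
  · subst hn
    exact ⟨1 / 2, le_refl _, by norm_num, by simp⟩
  have hn' : (0 : ℝ) < n := by exact_mod_cast hn
  set P : ℝ[X] := ∏ j : Fin n, (X - C (2 * n * a j - n)) with hP
  have hmon : P.Monic := monic_prod_of_monic _ _ fun j _ => monic_X_sub_C _
  have hdeg : P.natDegree = n := by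
    rw [hP, natDegree_prod_of_monic _ _ fun j _ => monic_X_sub_C _]
    simp only [natDegree_X_sub_C, sum_const, card_univ, Fintype.card_fin, smul_eq_mul, mul_one]
  have h1 := congrFun (Polynomial.fwdDiff_iter_degree_eq_factorial P) 0
  rw [fwdDiff_iter_eq_sum_shift, hdeg, hmon.leadingCoeff] at h1
  have h2 : ∃ k ∈ range (n + 1), (n.factorial : ℝ) ≤ 2 ^ n * |P.eval (k : ℝ)| := by
    by_contra hcon
    push Not at hcon
    have h3 : (n.factorial : ℝ) ≤ ∑ k ∈ range (n + 1), (n.choose k : ℝ) * |P.eval (k : ℝ)| := by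
      have h4 : (n.factorial : ℝ) = ∑ k ∈ range (n + 1),
          ((-1 : ℤ) ^ (n - k) * n.choose k) • P.eval ((0 : ℝ) + k • (1 : ℝ)) := by
        rw [h1]
        simp
      rw [h4]
      refine (le_abs_self _).trans ((abs_sum_le_sum_abs _ _).trans (le_of_eq ?_))
      refine sum_congr rfl fun k _ => ?_
      rw [zsmul_eq_mul, abs_mul]
      push_cast
      rw [abs_mul, abs_pow, abs_neg, abs_one, one_pow, one_mul, Nat.abs_cast, nsmul_eq_mul, mul_one,
        zero_add]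
    have h5 : ∑ k ∈ range (n + 1), (n.choose k : ℝ) * |P.eval (k : ℝ)| <
        ∑ k ∈ range (n + 1), (n.choose k : ℝ) * ((n.factorial : ℝ) / 2 ^ n) := by
      refine sum_lt_sum_of_nonempty ⟨0, by simp⟩ fun k hk => ?_
      have hk' : k ≤ n := Nat.lt_succ_iff.1 (mem_range.1 hk)
      have h6 : (0 : ℝ) < n.choose k := by exact_mod_cast Nat.choose_pos hk'
      refine mul_lt_mul_of_pos_left ?_ h6
      rw [lt_div_iff₀ (by positivity)]
      linarith [hcon k hk]
    have h7 : ∑ k ∈ range (n + 1), (n.choose k : ℝ) = 2 ^ n := by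
      exact_mod_cast Nat.sum_range_choose n
    rw [← sum_mul, h7, mul_div_cancel₀ _ (by positivity)] at h5
    linarith
  obtain ⟨k, hk, hk2⟩ := h2
  have hk' : (k : ℝ) ≤ n := by exact_mod_cast Nat.lt_succ_iff.1 (mem_range.1 hk)
  refine ⟨1 / 2 + k / (2 * n), ?_, ?_, ?_⟩
  · have : (0 : ℝ) ≤ k / (2 * n) := by positivity
    linarith
  · have : (k : ℝ) / (2 * n) ≤ 1 / 2 := by
      rw [div_le_iff₀ (by positivity)]
      linarith
    linarith
  · have h3 : P.eval (k : ℝ) = (2 * n) ^ n * ∏ j, ((1 / 2 + k / (2 * n)) - a j) := by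
      rw [hP, eval_prod]
      have : ((2 * n : ℝ)) ^ n = ∏ _j : Fin n, (2 * n : ℝ) := by simp
      rw [this, ← prod_mul_distrib]
      refine prod_congr rfl fun j _ => ?_
      simp only [eval_sub, eval_X, eval_C]
      field_simp
      ring
    rw [h3, abs_mul, abs_of_pos (by positivity : (0 : ℝ) < (2 * n) ^ n)] at hk2
    have h4 : (n : ℝ) ^ n ≤ 3 ^ n * n.factorial := by
      have h5 := Real.pow_div_factorial_le_exp (x := (n : ℝ)) hn'.le n
      rw [div_le_iff₀ (by positivity)] at h5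
      have h6 : Real.exp n ≤ 3 ^ n := by
        rw [← Real.exp_one_rpow, Real.rpow_natCast]
        exact pow_le_pow_left₀ (Real.exp_pos _).le (Real.exp_one_lt_d9.le.trans (by norm_num)) n
      exact h5.trans (mul_le_mul_of_nonneg_right h6 (by positivity))
    have h7 : (n : ℝ) ^ n ≤ (n : ℝ) ^ n * (12 ^ n * |∏ j, ((1 / 2 + k / (2 * n)) - a j)|) := by
      calc (n : ℝ) ^ n ≤ 3 ^ n * n.factorial := h4
        _ ≤ 3 ^ n * (2 ^ n * ((2 * n) ^ n * |∏ j, ((1 / 2 + k / (2 * n)) - a j)|)) :=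
            mul_le_mul_of_nonneg_left hk2 (by positivity)
        _ = (n : ℝ) ^ n * (12 ^ n * |∏ j, ((1 / 2 + k / (2 * n)) - a j)|) := by
            rw [mul_pow, show (12 : ℝ) ^ n = 3 ^ n * (2 ^ n * 2 ^ n) by
              rw [← mul_pow, ← mul_pow]; norm_num]
            ring
    have h8 : (0 : ℝ) < (n : ℝ) ^ n := by positivity
    by_contra hcon
    push Not at hcon
    nlinarith

/-- the coefficients of the product -/
private theorem Tur_cf {ι : Type} [DecidableEq ι] (w : ι → ℂ) (s : Finset ι)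
    (hw : ∀ j ∈ s, ‖w j‖ ≤ 1) (L : ℕ) :
    ∑ l ∈ range L, ‖(∏ j ∈ s, (1 - C (w j) * X)).coeff l‖ ≤ 2 ^ s.card := by
  induction s using Finset.induction_on generalizing L with
  | empty =>
    simp only [prod_empty, card_empty, pow_zero, coeff_one]
    calc ∑ l ∈ range L, ‖(if l = 0 then (1 : ℂ) else 0)‖
        = ∑ l ∈ range L, (if l = 0 then (1 : ℝ) else 0) :=
          sum_congr rfl fun l _ => by split_ifs <;> simp
      _ ≤ 1 := by
          rw [sum_ite_eq']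
          split_ifs <;> norm_num
  | insert i s hi ih =>
    have ih' := fun L => ih (fun j hj => hw j (mem_insert_of_mem hj)) L
    set p : ℂ[X] := ∏ j ∈ s, (1 - C (w j) * X) with hp
    rw [prod_insert hi, card_insert_of_notMem hi, ← hp]
    have h1 : ∀ l, ((1 - C (w i) * X) * p).coeff l =
        p.coeff l - w i * (if l = 0 then 0 else p.coeff (l - 1)) := by
      intro l
      rw [sub_mul, one_mul, coeff_sub, mul_assoc, coeff_C_mul]
      rcases l with _ | l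
      · simp
      · simp [coeff_X_mul]
    have h2 : ∀ l, ‖((1 - C (w i) * X) * p).coeff l‖ ≤
        ‖p.coeff l‖ + ‖(if l = 0 then 0 else p.coeff (l - 1))‖ := by
      intro l
      rw [h1]
      refine (norm_sub_le _ _).trans (add_le_add_right ?_ _)
      rw [norm_mul]
      exact mul_le_of_le_one_left (norm_nonneg _) (hw i (mem_insert_self _ _))
    refine (sum_le_sum fun l _ => h2 l).trans ?_
    rw [sum_add_distrib]
    have h3 : ∑ l ∈ range L, ‖(if l = 0 then 0 else p.coeff (l - 1))‖ ≤ 2 ^ s.card := by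
      rcases L with _ | L
      · simp
      · rw [sum_range_succ']
        simpa using ih' L
    calc _ ≤ (2 : ℝ) ^ s.card + 2 ^ s.card := add_le_add (ih' L) h3
      _ = 2 ^ (s.card + 1) := by ring

/-- the coefficients of the cofactor -/
private theorem Tur_cc (D P : ℂ[X]) (w : ℂ) (h : D = (1 - C w * X) * P) (i : ℕ) :
    P.coeff i = ∑ l ∈ range (i + 1), D.coeff l * w ^ (i - l) := by
  induction i with
  | zero =>
    rw [h]
    simp
  | succ i ih =>
    have h1 : D.coeff (i + 1) = P.coeff (i + 1) - w * P.coeff i := by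
      rw [h, sub_mul, one_mul, coeff_sub, mul_assoc, coeff_C_mul, coeff_X_mul]
    rw [sum_range_succ, Nat.sub_self, pow_zero, mul_one, h1, ih, mul_sum]
    have h2 : ∑ l ∈ range (i + 1), D.coeff l * w ^ (i + 1 - l) =
        ∑ l ∈ range (i + 1), w * (D.coeff l * w ^ (i - l)) := by
      refine sum_congr rfl fun l hl => ?_
      have : i + 1 - l = (i - l) + 1 := by
        have := mem_range.1 hl
        omega
      rw [this, pow_succ]
      ring
    rw [h2]
    ring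

theorem tur : S_Tur := by
  classical
  intro n w b hw hex
  by_contra hcon
  push Not at hcon
  obtain ⟨j₀, hj₀, hb₀⟩ := hex
  have hn : 0 < n := Fin.pos j₀
  -- radius
  obtain ⟨r, hr1, hr2, hr⟩ := Tur_rad n fun j => ‖w j‖
  have hr0 : 0 < r := by linarith
  have hne : ∀ j, r ≠ ‖w j‖ := by
    intro j hj
    have : ∏ j, (r - ‖w j‖) = 0 := prod_eq_zero (mem_univ j) (by rw [hj, sub_self])
    rw [this] at hr
    simp at hr
    linarith
  have hr3 : r < 1 := lt_of_le_of_ne hr2 (by rw [← hj₀]; exact hne j₀)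
  set R : ℝ := 1 / r with hR
  have hR0 : 0 < R := by positivity
  have hR2 : R ≤ 2 := by
    rw [hR, div_le_iff₀ hr0]
    linarith
  have hRr : R * r = 1 := by rw [hR]; field_simp
  -- the polynomials
  set D : ℂ[X] := ∏ j, (1 - C (w j) * X) with hD
  set Q : Fin n → ℂ[X] := fun j => ∏ i ∈ univ.erase j, (1 - C (w i) * X) with hQ
  have hDQ : ∀ j, D = (1 - C (w j) * X) * Q j := fun j => by
    rw [hD, hQ]
    exact (mul_prod_erase _ _ (mem_univ j)).symm
  set A : ℂ[X] := ∑ j, C ((b j : ℂ) * w j ^ (n + 1)) * Q j with hA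
  set δ : ℝ := ((200 : ℝ) ^ n)⁻¹ with hδ
  have hs : ∀ k, n + 1 ≤ k → k ≤ 2 * n → ‖∑ j, (b j : ℂ) * w j ^ k‖ ≤ δ := by
    intro k h1 h2
    have h3 := (hcon k h1 h2).le
    rw [hδ, ← one_div, le_div_iff₀ (by positivity)]
    linarith
  have hAc : ∀ i < n, ‖A.coeff i‖ ≤ 2 ^ n * δ := by
    intro i hi
    have h1 : A.coeff i =
        ∑ l ∈ range (i + 1), D.coeff l * ∑ j, (b j : ℂ) * w j ^ (n + 1 + (i - l)) := by
      rw [hA, finsetSum_coeff]
      simp_rw [coeff_C_mul, mul_sum]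
      rw [sum_comm]
      refine sum_congr rfl fun j _ => ?_
      rw [Tur_cc D (Q j) (w j) (hDQ j) i, mul_sum]
      refine sum_congr rfl fun l _ => ?_
      rw [pow_add]
      ring
    rw [h1]
    refine (norm_sum_le _ _).trans ?_
    calc ∑ l ∈ range (i + 1), ‖D.coeff l * ∑ j, (b j : ℂ) * w j ^ (n + 1 + (i - l))‖
        ≤ ∑ l ∈ range (i + 1), ‖D.coeff l‖ * δ := by
          refine sum_le_sum fun l hl => ?_
          rw [norm_mul]
          refine mul_le_mul_of_nonneg_left (hs _ (by omega) ?_) (norm_nonneg _)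
          omega
      _ = (∑ l ∈ range (i + 1), ‖D.coeff l‖) * δ := by rw [sum_mul]
      _ ≤ 2 ^ n * δ := by
          refine mul_le_mul_of_nonneg_right ?_ (by positivity)
          have := Tur_cf w univ (fun j _ => hw j) (i + 1)
          simpa using this
  have hAd : A.natDegree < n := by
    refine lt_of_le_of_lt (natDegree_sum_le_of_forall_le (n := n - 1) _ _ fun j _ => ?_) (by omega)
    refine (natDegree_C_mul_le _ _).trans ?_
    refine (natDegree_prod_le _ _).trans ?_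
    calc ∑ i ∈ univ.erase j, (1 - C (w i) * X : ℂ[X]).natDegree ≤ ∑ i ∈ univ.erase j, 1 := by
          refine sum_le_sum fun i _ => ?_
          compute_degree
      _ = n - 1 := by simp
  have hAb : ∀ z : ℂ, ‖z‖ = R → ‖A.eval z‖ ≤ 4 ^ n * δ := by
    intro z hz
    rw [eval_eq_sum_range' hAd]
    refine (norm_sum_le _ _).trans ?_
    calc ∑ i ∈ range n, ‖A.coeff i * z ^ i‖ ≤ ∑ i ∈ range n, 2 ^ n * δ * 2 ^ i := by
          refine sum_le_sum fun i hi => ?_
          rw [norm_mul, norm_pow, hz]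
          exact mul_le_mul (hAc i (mem_range.1 hi)) (pow_le_pow_left₀ hR0.le hR2 i)
            (by positivity) (by positivity)
      _ = 2 ^ n * δ * (2 ^ n - 1) := by
          rw [← mul_sum, geom_sum_eq (by norm_num)]
          norm_num
      _ ≤ 2 ^ n * δ * 2 ^ n := by
          refine mul_le_mul_of_nonneg_left (by linarith) (by positivity)
      _ = 4 ^ n * δ := by
          rw [show (4 : ℝ) ^ n = 2 ^ n * 2 ^ n by rw [← mul_pow]; norm_num]
          ring
  -- the denominators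
  have hlow : ∀ z : ℂ, ‖z‖ = R → ∀ j, R * |r - ‖w j‖| ≤ ‖1 - w j * z‖ := by
    intro z hz j
    have h1 : |‖(1 : ℂ)‖ - ‖w j * z‖| ≤ ‖1 - w j * z‖ := abs_norm_sub_norm_le _ _
    rw [norm_one, norm_mul, hz] at h1
    refine le_trans (le_of_eq ?_) h1
    rw [← abs_of_pos hR0, ← abs_mul, abs_of_pos hR0, mul_sub, hRr]
    ring_nf
  have hz0 : ∀ z : ℂ, ‖z‖ = R → ∀ j, 1 - w j * z ≠ 0 := by
    intro z hz j h
    have h1 := hlow z hz j
    rw [h, norm_zero] at h1
    have h2 : 0 < R * |r - ‖w j‖| := mul_pos hR0 (abs_pos.2 (sub_ne_zero.2 (hne j)))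
    linarith
  have hDlow : ∀ z : ℂ, ‖z‖ = R → R ^ n ≤ 12 ^ n * ‖D.eval z‖ := by
    intro z hz
    have h1 : D.eval z = ∏ j, (1 - w j * z) := by
      rw [hD, eval_prod]
      exact prod_congr rfl fun j _ => by simp
    rw [h1, norm_prod]
    calc R ^ n ≤ R ^ n * (12 ^ n * |∏ j, (r - ‖w j‖)|) :=
          le_mul_of_one_le_right (by positivity) hr
      _ = 12 ^ n * ∏ j, (R * |r - ‖w j‖|) := by
          rw [prod_mul_distrib, abs_prod]
          simp
          ring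
      _ ≤ 12 ^ n * ∏ j, ‖1 - w j * z‖ := by
          refine mul_le_mul_of_nonneg_left ?_ (by positivity)
          exact prod_le_prod (fun j _ => by positivity) fun j _ => hlow z hz j
  -- the integrals
  set f : Fin n → ℂ → ℂ := fun j z => z ^ n * ((b j : ℂ) * w j ^ (n + 1)) / (1 - w j * z) with hf
  have hsum : ∀ z : ℂ, ‖z‖ = R → (∑ j, f j z) * D.eval z = z ^ n * A.eval z := by
    intro z hz
    rw [sum_mul, hA, eval_finsetSum, mul_sum]
    refine sum_congr rfl fun j _ => ?_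
    rw [hDQ j, eval_mul, eval_mul, eval_C]
    have h1 : (1 - C (w j) * X : ℂ[X]).eval z = 1 - w j * z := by simp
    rw [h1, hf]
    have := hz0 z hz j
    field_simp
  have hbd : ∀ z ∈ sphere (0 : ℂ) R, ‖∑ j, f j z‖ ≤ 48 ^ n * δ := by
    intro z hz
    have hz' : ‖z‖ = R := by simpa using hz
    have h1 := hsum z hz'
    have h2 : ‖∑ j, f j z‖ * ‖D.eval z‖ = R ^ n * ‖A.eval z‖ := by
      rw [← norm_mul, h1, norm_mul, norm_pow, hz']
    have h3 : R ^ n * ‖∑ j, f j z‖ ≤ R ^ n * (48 ^ n * δ) := by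
      calc R ^ n * ‖∑ j, f j z‖ ≤ 12 ^ n * ‖D.eval z‖ * ‖∑ j, f j z‖ :=
            mul_le_mul_of_nonneg_right (hDlow z hz') (norm_nonneg _)
        _ = 12 ^ n * (R ^ n * ‖A.eval z‖) := by rw [← h2]; ring
        _ ≤ 12 ^ n * (R ^ n * (4 ^ n * δ)) := by
            refine mul_le_mul_of_nonneg_left ?_ (by positivity)
            exact mul_le_mul_of_nonneg_left (hAb z hz') (by positivity)
        _ = R ^ n * (48 ^ n * δ) := by
            rw [show (48 : ℝ) ^ n = 12 ^ n * 4 ^ n by rw [← mul_pow]; norm_num]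
            ring
    exact le_of_mul_le_mul_left h3 (by positivity)
  have hint : ∀ j, CircleIntegrable (f j) 0 R := by
    intro j
    refine ContinuousOn.circleIntegrable hR0.le ?_
    refine ContinuousOn.div (by fun_prop) (by fun_prop) fun z hz => hz0 z ?_ j
    simpa using hz
  have hval : ∀ j, (∮ z in C(0, R), f j z) =
      if r < ‖w j‖ then -(2 * Real.pi * Complex.I) * (b j : ℂ) else 0 := by
    intro j
    split_ifs with h
    · have hwj : w j ≠ 0 := by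
        intro h0
        rw [h0, norm_zero] at h
        linarith
      have h1 : ∀ z, f j z = (z - (w j)⁻¹)⁻¹ • (-((b j : ℂ) * w j ^ n) * z ^ n) := by
        intro z
        rw [hf, smul_eq_mul]
        simp only
        have h2 : 1 - w j * z = -(w j) * (z - (w j)⁻¹) := by
          field_simp
          ring
        rw [h2, div_eq_mul_inv, mul_inv]
        have : z ^ n * ((b j : ℂ) * w j ^ (n + 1)) * ((-(w j))⁻¹ * (z - (w j)⁻¹)⁻¹) =
            (z - (w j)⁻¹)⁻¹ * (-((b j : ℂ) * w j ^ n) * z ^ n * (w j * (w j)⁻¹)) := by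
          rw [inv_neg]
          ring
        rw [this, mul_inv_cancel₀ hwj, mul_one]
      simp_rw [h1]
      rw [DifferentiableOn.circleIntegral_sub_inv_smul (by fun_prop)]
      · rw [smul_eq_mul, neg_mul, mul_assoc (b j : ℂ), ← mul_pow, mul_inv_cancel₀ hwj, one_pow]
        ring
      · rw [mem_ball_zero_iff, norm_inv, hR, one_div]
        exact inv_strictAnti₀ hr0 h
    · have h' : ‖w j‖ < r := lt_of_le_of_ne (not_lt.1 h) fun h => hne j h.symm
      apply DiffContOnCl.circleIntegral_eq_zero hR0.le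
      refine DifferentiableOn.diffContOnCl ?_
      rw [closure_ball _ hR0.ne']
      refine DifferentiableOn.div (by fun_prop) (by fun_prop) fun z hz h0 => ?_
      have hz' : ‖z‖ ≤ R := by simpa using hz
      have h1 : w j * z = 1 := (sub_eq_zero.1 h0).symm
      have h2 : ‖w j‖ * ‖z‖ = 1 := by rw [← norm_mul, h1, norm_one]
      have h3 : ‖w j‖ * ‖z‖ < 1 := by
        calc ‖w j‖ * ‖z‖ ≤ ‖w j‖ * R := mul_le_mul_of_nonneg_left hz' (norm_nonneg _)
          _ < r * R := mul_lt_mul_of_pos_right h' hR0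
          _ = 1 := by rw [mul_comm, hRr]
      linarith
  have htot : (∮ z in C(0, R), ∑ j, f j z) =
      -(2 * Real.pi * Complex.I) * ((∑ j ∈ univ.filter fun j => r < ‖w j‖, b j : ℕ) : ℂ) := by
    rw [circleIntegral.integral_fun_sum fun j _ => hint j]
    simp_rw [hval]
    rw [← sum_filter, ← mul_sum, Nat.cast_sum]
  have hcard : (1 : ℝ) ≤ ((∑ j ∈ univ.filter fun j => r < ‖w j‖, b j : ℕ) : ℝ) := by
    have : 1 ≤ ∑ j ∈ univ.filter fun j => r < ‖w j‖, b j :=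
      hb₀.trans (single_le_sum (f := b) (fun _ _ => Nat.zero_le _)
        (mem_filter.2 ⟨mem_univ j₀, by rw [hj₀]; exact hr3⟩))
    exact_mod_cast this
  have hfin := circleIntegral.norm_integral_le_of_norm_le_const hR0.le hbd
  rw [htot, norm_mul, norm_neg, Complex.norm_natCast] at hfin
  have h2pi : ‖(2 * Real.pi * Complex.I : ℂ)‖ = 2 * Real.pi := by
    simp [Real.pi_pos.le]
  rw [h2pi] at hfin
  have hpi := Real.pi_pos
  have h5 : (1 : ℝ) ≤ R * (48 ^ n * δ) := by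
    have h6 : 2 * Real.pi * 1 ≤ 2 * Real.pi * (R * (48 ^ n * δ)) := by
      calc 2 * Real.pi * 1
          ≤ 2 * Real.pi * ((∑ j ∈ univ.filter fun j => r < ‖w j‖, b j : ℕ) : ℝ) :=
            mul_le_mul_of_nonneg_left hcard (by positivity)
        _ ≤ 2 * Real.pi * R * (48 ^ n * δ) := hfin
        _ = _ := by ring
    exact le_of_mul_le_mul_left h6 (by positivity)
  have h6 : (2 : ℝ) * 48 ^ n < 200 ^ n := by
    calc (2 : ℝ) * 48 ^ n ≤ 2 ^ n * 48 ^ n := by
          refine mul_le_mul_of_nonneg_right ?_ (by positivity)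
          calc (2 : ℝ) = 2 ^ 1 := by norm_num
            _ ≤ 2 ^ n := pow_le_pow_right₀ (by norm_num) hn
      _ = 96 ^ n := by rw [← mul_pow]; norm_num
      _ < 200 ^ n := pow_lt_pow_left₀ (by norm_num) (by norm_num) hn.ne'
  have h7 : R * (48 ^ n * δ) < 1 := by
    calc R * (48 ^ n * δ) ≤ 2 * (48 ^ n * δ) := mul_le_mul_of_nonneg_right hR2 (by positivity)
      _ = (2 * 48 ^ n) * δ := by ring
      _ < 200 ^ n * δ := mul_lt_mul_of_pos_right h6 (by positivity)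
      _ = 1 := by rw [hδ]; exact mul_inv_cancel₀ (by positivity)
  linarith

theorem turM (h : S_Tur) : S_TurM := by
  intro N m z b ρ hρ hNm hz hex
  obtain ⟨j₀, hj₀, hb₀⟩ := hex
  have hN : 0 < N := Fin.pos j₀
  set q : ℕ := (m + N - 1) / N with hq
  have hq1 : m ≤ q * N := by
    have h1 := Nat.div_add_mod (m + N - 1) N
    have h2 := Nat.mod_lt (m + N - 1) hN
    rw [← hq] at h1
    have h3 : N * q = q * N := mul_comm _ _
    omega
  have hq2 : q * N ≤ m + N - 1 := Nat.div_mul_le_self _ _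
  obtain ⟨k, hk1, hk2, hk⟩ := h N (fun j => (z j / ρ) ^ q) b (fun j => by
      rw [norm_pow, norm_div, Complex.norm_real, Real.norm_of_nonneg hρ.le]
      exact pow_le_one₀ (by positivity) ((div_le_one hρ).2 (hz j)))
    ⟨j₀, by
      rw [norm_pow, norm_div, Complex.norm_real, Real.norm_of_nonneg hρ.le, hj₀, div_self hρ.ne',
        one_pow], hb₀⟩
  refine ⟨q * k, ?_, ?_, ?_⟩
  · calc m ≤ q * N := hq1
      _ ≤ q * k := Nat.mul_le_mul_left _ (by omega)
  · calc q * k ≤ q * (2 * N) := Nat.mul_le_mul_left _ hk2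
      _ = 2 * (q * N) := by ring
      _ ≤ 4 * m := by omega
  · have h1 : ∀ j, ((z j / ρ) ^ q) ^ k = z j ^ (q * k) / (ρ : ℂ) ^ (q * k) := fun j => by
      rw [← pow_mul, div_pow]
    simp_rw [h1, ← mul_div_assoc] at hk
    rw [← sum_div, norm_div, norm_pow, Complex.norm_real, Real.norm_of_nonneg hρ.le] at hk
    have h2 : (0 : ℝ) < ρ ^ (q * k) := by positivity
    rw [mul_div_assoc', le_div_iff₀ h2, one_mul] at hk
    exact hk

theorem turF (h : S_TurM) : S_TurF := by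
  classical
  intro ι J z b m N₁ ρ ρ₁ hρ hρ₁ hle hN hz hex hcard
  set J₁ := J.filter fun j => ρ₁ ≤ ‖z j‖ with hJ₁
  have hcard' : J₁.card ≤ N₁ := by convert hcard
  obtain ⟨j₀, hj₀, hj₀', hb₀⟩ := hex
  have hj₁ : j₀ ∈ J₁ := mem_filter.2 ⟨hj₀, by rw [hj₀']; exact hle⟩
  obtain ⟨k, hk1, hk2, hk⟩ := h J₁.card m (fun i => z (J₁.equivFin.symm i : ι))
    (fun i => b (J₁.equivFin.symm i : ι)) ρ hρ (hcard'.trans hN) (fun i => hz _ (mem_filter.1 (J₁.equivFin.symm i).2).1)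
    ⟨J₁.equivFin ⟨j₀, hj₁⟩, by simpa using hj₀', by simpa using hb₀⟩
  refine ⟨k, hk1, hk2, ?_⟩
  have h1 : ∑ i, (b (J₁.equivFin.symm i : ι) : ℂ) * z (J₁.equivFin.symm i : ι) ^ k =
      ∑ j ∈ J₁, (b j : ℂ) * z j ^ k := by
    rw [← sum_coe_sort J₁ fun j => (b j : ℂ) * z j ^ k]
    exact Equiv.sum_comp J₁.equivFin.symm fun j : J₁ => (b (j : ι) : ℂ) * z (j : ι) ^ k
  rw [h1] at hk
  have h2 : ∑ j ∈ J, (b j : ℂ) * z j ^ k = ∑ j ∈ J₁, (b j : ℂ) * z j ^ k +
      ∑ j ∈ J.filter (fun j => ¬ ρ₁ ≤ ‖z j‖), (b j : ℂ) * z j ^ k :=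
    (sum_filter_add_sum_filter_not _ _ _).symm
  have h3 : ‖∑ j ∈ J.filter (fun j => ¬ ρ₁ ≤ ‖z j‖), (b j : ℂ) * z j ^ k‖ ≤
      (∑ j ∈ J, (b j : ℝ)) * ρ₁ ^ k := by
    refine (norm_sum_le _ _).trans ?_
    calc ∑ j ∈ J.filter (fun j => ¬ ρ₁ ≤ ‖z j‖), ‖(b j : ℂ) * z j ^ k‖
        ≤ ∑ j ∈ J.filter (fun j => ¬ ρ₁ ≤ ‖z j‖), (b j : ℝ) * ρ₁ ^ k := by
          refine sum_le_sum fun j hj => ?_
          rw [norm_mul, norm_pow, Complex.norm_natCast]
          exact mul_le_mul_of_nonneg_left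
            (pow_le_pow_left₀ (norm_nonneg _) (not_le.1 (mem_filter.1 hj).2).le k)
            (Nat.cast_nonneg _)
      _ ≤ ∑ j ∈ J, (b j : ℝ) * ρ₁ ^ k :=
          sum_le_sum_of_subset_of_nonneg (filter_subset _ _) fun j _ _ => by positivity
      _ = (∑ j ∈ J, (b j : ℝ)) * ρ₁ ^ k := by rw [sum_mul]
  have h4 : ‖∑ j ∈ J₁, (b j : ℂ) * z j ^ k‖ ≤
      ‖∑ j ∈ J, (b j : ℂ) * z j ^ k‖ + (∑ j ∈ J, (b j : ℝ)) * ρ₁ ^ k := by
    have h5 : ∑ j ∈ J₁, (b j : ℂ) * z j ^ k = ∑ j ∈ J, (b j : ℂ) * z j ^ k -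
        ∑ j ∈ J.filter (fun j => ¬ ρ₁ ≤ ‖z j‖), (b j : ℂ) * z j ^ k := by
      rw [h2]
      ring
    rw [h5]
    exact (norm_sub_le _ _).trans (by linarith)
  calc ρ ^ k ≤ 200 ^ J₁.card * ‖∑ j ∈ J₁, (b j : ℂ) * z j ^ k‖ := hk
    _ ≤ 200 ^ N₁ * (‖∑ j ∈ J, (b j : ℂ) * z j ^ k‖ + (∑ j ∈ J, (b j : ℝ)) * ρ₁ ^ k) := by
        refine mul_le_mul ?_ h4 (norm_nonneg _) (by positivity)
        exact pow_le_pow_right₀ (by norm_num) hcard'

end MP7ed9c3.TuranW
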