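import Pool.Agent.Lib.MP_7ed9c3_nt.Tp.Spec
import Pool.Agent.Lib.MP_7ed9c3_nt.Tp.TuranW

/-!
# MP_7ed9c3_nt, project TP, module Tus: Turan's theorem for a finite set of numbers
-/

set_option autoImplicit false

namespace MP7ed9c3.Tp

open MeasureTheory Metric MP7ed9c3.Aw

theorem tTus : S_Tus := by
  intro S b q d hd hS hex
  obtain ⟨a₀, ha₀, hn₀, hb₀⟩ := hex
  have hnorm : ∀ a : ℂ, ‖((d : ℂ) * a⁻¹) ^ q‖ = (d * ‖a‖⁻¹) ^ q := by
    intro a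
    rw [norm_pow, norm_mul, norm_inv, Complex.norm_real, Real.norm_of_nonneg hd.le]
  obtain ⟨k, hk1, hk2, hk⟩ := MP7ed9c3.TuranW.tur S.card
    (fun i => ((d : ℂ) * ((S.equivFin.symm i : S) : ℂ)⁻¹) ^ q)
    (fun i => b ((S.equivFin.symm i : S) : ℂ))
    (fun i => by
      rw [hnorm]
      have h1 : d ≤ ‖((S.equivFin.symm i : S) : ℂ)‖ := hS _ (S.equivFin.symm i : S).2
      have h2 : 0 < ‖((S.equivFin.symm i : S) : ℂ)‖ := lt_of_lt_of_le hd h1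
      refine pow_le_one₀ (by positivity) ?_
      rw [← div_eq_mul_inv, div_le_one h2]
      exact h1)
    ⟨S.equivFin ⟨a₀, ha₀⟩, by
      rw [hnorm]
      simp only [Equiv.symm_apply_apply]
      rw [hn₀, mul_inv_cancel₀ hd.ne', one_pow], by
      simpa only [Equiv.symm_apply_apply] using hb₀⟩
  refine ⟨k, hk1, hk2, ?_⟩
  have h1 : ∑ i, (b ((S.equivFin.symm i : S) : ℂ) : ℂ) *
      (((d : ℂ) * ((S.equivFin.symm i : S) : ℂ)⁻¹) ^ q) ^ k =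
      (d : ℂ) ^ (q * k) * ∑ a ∈ S, (b a : ℂ) * a⁻¹ ^ (q * k) := by
    have h2 : ∑ a ∈ S, (b a : ℂ) * (((d : ℂ) * a⁻¹) ^ q) ^ k =
        ∑ i, (b ((S.equivFin.symm i : S) : ℂ) : ℂ) *
      (((d : ℂ) * ((S.equivFin.symm i : S) : ℂ)⁻¹) ^ q) ^ k := by
      rw [← Finset.sum_coe_sort S fun a => (b a : ℂ) * (((d : ℂ) * a⁻¹) ^ q) ^ k]
      exact (Equiv.sum_comp S.equivFin.symm
        fun a : S => (b (a : ℂ) : ℂ) * (((d : ℂ) * (a : ℂ)⁻¹) ^ q) ^ k).symm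
    rw [← h2, Finset.mul_sum]
    refine Finset.sum_congr rfl fun a _ => ?_
    rw [← pow_mul, mul_pow]
    ring
  rw [h1, norm_mul, norm_pow, Complex.norm_real, Real.norm_of_nonneg hd.le] at hk
  obtain ⟨X, hX⟩ : ∃ X, X = ‖∑ a ∈ S, (b a : ℂ) * a⁻¹ ^ (q * k)‖ := ⟨_, rfl⟩
  rw [← hX] at hk ⊢
  have hd2 : 0 < d ^ (q * k) := pow_pos hd _
  have h200 : (0 : ℝ) < 200 ^ S.card := by positivity
  rw [one_div_pow, one_div_pow, div_mul_div_comm, one_mul, div_le_iff₀ (by positivity)]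
  calc (1 : ℝ) ≤ 200 ^ S.card * (d ^ (q * k) * X) := hk
    _ = X * (200 ^ S.card * d ^ (q * k)) := by ring

end MP7ed9c3.Tp
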