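import Pool.Agent.Lib.MP_7ed9c3_nt.Tp.Spec

/-!
# MP_7ed9c3_nt, project TP, module TypW

The mean square of the block sums and the inequality of Chebyshev.
-/

set_option autoImplicit false

namespace MP7ed9c3.Tp

open MeasureTheory Metric MP7ed9c3.Aw

private theorem TypW_conj (n : ℕ) (t : ℝ) :
    (starRingEnd ℂ) ((n : ℂ) ^ (-(t * Complex.I))) = (n : ℂ) ^ (t * Complex.I) := by
  have harg : (n : ℂ).arg ≠ Real.pi := by
    rw [Complex.natCast_arg]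
    exact Real.pi_ne_zero.symm
  have h := Complex.cpow_conj (n : ℂ) (-(t * Complex.I)) harg
  rw [Complex.conj_natCast] at h
  rw [← h]
  congr 1
  simp

/-- the square of the absolute value -/
private theorem TypW_sq (S : Finset ℕ) (v : ℕ → ℂ) (t : ℝ) :
    ((‖∑ m ∈ S, v m * (m : ℂ) ^ (-(t * Complex.I))‖ ^ 2 : ℝ) : ℂ) =
      ∑ m ∈ S, ∑ n ∈ S, v m * (starRingEnd ℂ) (v n) *
        ((m : ℂ) ^ (-(t * Complex.I)) * (n : ℂ) ^ (t * Complex.I)) := by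
  rw [Complex.ofReal_pow, ← Complex.mul_conj', map_sum, Finset.sum_mul_sum]
  refine Finset.sum_congr rfl fun m _ => Finset.sum_congr rfl fun n _ => ?_
  rw [map_mul, TypW_conj]
  ring

private theorem TypW_c (m n : ℕ) (hm : 1 ≤ m) (hn : 1 ≤ n) :
    Continuous fun t : ℝ => (m : ℂ) ^ (-(t * Complex.I)) * (n : ℂ) ^ (t * Complex.I) := by
  have h1 : (m : ℂ) ≠ 0 := by exact_mod_cast (by omega : m ≠ 0)
  have h2 : (n : ℂ) ≠ 0 := by exact_mod_cast (by omega : n ≠ 0)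
  have c1 : Continuous fun t : ℝ => -((t : ℂ) * Complex.I) := by fun_prop
  have c2 : Continuous fun t : ℝ => (t : ℂ) * Complex.I := by fun_prop
  exact (c1.const_cpow (Or.inl h1)).mul (c2.const_cpow (Or.inl h2))

private theorem TypW_cont (S : Finset ℕ) (v : ℕ → ℂ) (hS : ∀ m ∈ S, 1 ≤ m) :
    Continuous fun t : ℝ => ‖∑ m ∈ S, v m * (m : ℂ) ^ (-(t * Complex.I))‖ := by
  refine Continuous.norm (continuous_finsetSum _ fun m hm => continuous_const.mul ?_)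
  have hm0 : (m : ℂ) ≠ 0 := by
    have := hS m hm
    exact_mod_cast (by omega : m ≠ 0)
  exact Continuous.const_cpow (by fun_prop) (Or.inl hm0)

private theorem TypW_int (S : Finset ℕ) (v : ℕ → ℂ) (hS : ∀ m ∈ S, 1 ≤ m) (a b : ℝ) :
    ((∫ t in a..b, ‖∑ m ∈ S, v m * (m : ℂ) ^ (-(t * Complex.I))‖ ^ 2 : ℝ) : ℂ) =
      ∑ m ∈ S, ∑ n ∈ S, v m * (starRingEnd ℂ) (v n) *
        ∫ t in a..b, ((m : ℂ) ^ (-(t * Complex.I)) * (n : ℂ) ^ (t * Complex.I)) := by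
  rw [← intervalIntegral.integral_ofReal]
  have h0 : (fun t : ℝ => ((‖∑ m ∈ S, v m * (m : ℂ) ^ (-(t * Complex.I))‖ ^ 2 : ℝ) : ℂ)) =
      fun t : ℝ => ∑ m ∈ S, ∑ n ∈ S, v m * (starRingEnd ℂ) (v n) *
        ((m : ℂ) ^ (-(t * Complex.I)) * (n : ℂ) ^ (t * Complex.I)) :=
    funext fun t => TypW_sq S v t
  rw [h0]
  have c2 : ∀ m ∈ S, ∀ n ∈ S, Continuous fun t : ℝ => v m * (starRingEnd ℂ) (v n) *
        ((m : ℂ) ^ (-(t * Complex.I)) * (n : ℂ) ^ (t * Complex.I)) :=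
    fun m hm n hn => continuous_const.mul (TypW_c m n (hS m hm) (hS n hn))
  have c1 : ∀ m ∈ S, Continuous fun t : ℝ => ∑ n ∈ S, v m * (starRingEnd ℂ) (v n) *
        ((m : ℂ) ^ (-(t * Complex.I)) * (n : ℂ) ^ (t * Complex.I)) :=
    fun m hm => continuous_finsetSum _ fun n hn => c2 m hm n hn
  rw [intervalIntegral.integral_finsetSum fun m hm => (c1 m hm).intervalIntegrable a b]
  refine Finset.sum_congr rfl fun m hm => ?_
  rw [intervalIntegral.integral_finsetSum fun n hn => (c2 m hm n hn).intervalIntegrable a b]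
  refine Finset.sum_congr rfl fun n hn => ?_
  rw [intervalIntegral.integral_const_mul]

/-- the mean square -/
private theorem TypW_mean (hO : S_Osc) (S : Finset ℕ) (v : ℕ → ℂ) (M : ℕ) (a b : ℝ)
    (hab : a ≤ b) (hS : ∀ m ∈ S, 1 ≤ m ∧ m ≤ M) :
    ∫ t in a..b, ‖∑ m ∈ S, v m * (m : ℂ) ^ (-(t * Complex.I))‖ ^ 2 ≤
      ((b - a) + 2 * (M : ℝ) ^ 2) * ∑ m ∈ S, ‖v m‖ ^ 2 := by
  classical
  have hterm : ∀ m ∈ S, ∀ n ∈ S, ‖v m * (starRingEnd ℂ) (v n) *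
      ∫ t in a..b, ((m : ℂ) ^ (-(t * Complex.I)) * (n : ℂ) ^ (t * Complex.I))‖ ≤
      (if m = n then (b - a) * ‖v m‖ ^ 2 else 0) + 2 * (M : ℝ) * (‖v m‖ * ‖v n‖) := by
    intro m hm n hn
    have e0 : 0 ≤ ‖v m‖ * ‖v n‖ := mul_nonneg (norm_nonneg _) (norm_nonneg _)
    have e1 : 0 ≤ 2 * (M : ℝ) * (‖v m‖ * ‖v n‖) := by positivity
    rw [norm_mul, norm_mul, Complex.norm_conj]
    by_cases he : m = n
    · subst he
      rw [if_pos rfl]
      have hne : (m : ℂ) ≠ 0 := by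
        have := (hS m hm).1
        exact_mod_cast (by omega : m ≠ 0)
      have e4 : ∀ t : ℝ, (m : ℂ) ^ (-(t * Complex.I)) * (m : ℂ) ^ (t * Complex.I) = 1 := by
        intro t
        rw [← Complex.cpow_add _ _ hne, neg_add_cancel, Complex.cpow_zero]
      simp only [e4]
      rw [intervalIntegral.integral_const]
      have e5 : ‖(b - a) • (1 : ℂ)‖ = b - a := by
        rw [norm_smul, norm_one, mul_one, Real.norm_of_nonneg (sub_nonneg.2 hab)]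
      rw [e5]
      have e6 : ‖v m‖ * ‖v m‖ * (b - a) = (b - a) * ‖v m‖ ^ 2 := by ring
      rw [e6]
      linarith
    · rw [if_neg he, zero_add]
      have e6 := hO m n M a b (hS m hm).1 (hS n hn).1 (hS m hm).2 (hS n hn).2 he
      calc _ ≤ ‖v m‖ * ‖v n‖ * (2 * (M : ℝ)) := mul_le_mul_of_nonneg_left e6 e0
        _ = _ := by ring
  have hle : ∫ t in a..b, ‖∑ m ∈ S, v m * (m : ℂ) ^ (-(t * Complex.I))‖ ^ 2 ≤
      ‖((∫ t in a..b, ‖∑ m ∈ S, v m * (m : ℂ) ^ (-(t * Complex.I))‖ ^ 2 : ℝ) : ℂ)‖ := by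
    rw [Complex.norm_real]
    exact Real.le_norm_self _
  have hsum : ‖((∫ t in a..b, ‖∑ m ∈ S, v m * (m : ℂ) ^ (-(t * Complex.I))‖ ^ 2 : ℝ) : ℂ)‖ ≤
      ∑ m ∈ S, ∑ n ∈ S,
        ((if m = n then (b - a) * ‖v m‖ ^ 2 else 0) + 2 * (M : ℝ) * (‖v m‖ * ‖v n‖)) := by
    rw [TypW_int S v (fun m hm => (hS m hm).1) a b]
    exact (norm_sum_le _ _).trans <| Finset.sum_le_sum fun m hm =>
      (norm_sum_le _ _).trans <| Finset.sum_le_sum fun n hn => hterm m hm n hn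
  refine hle.trans (hsum.trans ?_)
  have e2 : ∑ m ∈ S, ∑ n ∈ S,
      ((if m = n then (b - a) * ‖v m‖ ^ 2 else 0) + 2 * (M : ℝ) * (‖v m‖ * ‖v n‖)) =
      (b - a) * ∑ m ∈ S, ‖v m‖ ^ 2 + 2 * (M : ℝ) * (∑ m ∈ S, ‖v m‖) ^ 2 := by
    have e3 : ∀ m ∈ S, ∑ n ∈ S,
        ((if m = n then (b - a) * ‖v m‖ ^ 2 else 0) + 2 * (M : ℝ) * (‖v m‖ * ‖v n‖)) =
        (b - a) * ‖v m‖ ^ 2 + 2 * (M : ℝ) * (‖v m‖ * ∑ n ∈ S, ‖v n‖) := by
      intro m hm
      rw [Finset.sum_add_distrib, Finset.sum_ite_eq, if_pos hm, ← Finset.mul_sum,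
        ← Finset.mul_sum]
    rw [Finset.sum_congr rfl e3, Finset.sum_add_distrib, ← Finset.mul_sum, ← Finset.mul_sum,
      ← Finset.sum_mul, sq]
  rw [e2]
  have hc : (S.card : ℝ) ≤ M := by
    have : S ⊆ Finset.Icc 1 M := fun m hm => Finset.mem_Icc.2 (hS m hm)
    have h2 := Finset.card_le_card this
    rw [Nat.card_Icc] at h2
    exact_mod_cast (by omega : S.card ≤ M)
  have h0 : 0 ≤ ∑ m ∈ S, ‖v m‖ ^ 2 := Finset.sum_nonneg fun m _ => sq_nonneg _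
  have h3 : (∑ m ∈ S, ‖v m‖) ^ 2 ≤ M * ∑ m ∈ S, ‖v m‖ ^ 2 :=
    sq_sum_le_card_mul_sum_sq.trans (mul_le_mul_of_nonneg_right hc h0)
  have hM : (0 : ℝ) ≤ 2 * M := by positivity
  have h4 := mul_le_mul_of_nonneg_left h3 hM
  calc _ ≤ (b - a) * ∑ m ∈ S, ‖v m‖ ^ 2 + 2 * (M : ℝ) * (M * ∑ m ∈ S, ‖v m‖ ^ 2) := by
        linarith
    _ = _ := by ring

/-- the inequality of Chebyshev -/
private theorem TypW_cheb (D : ℝ → ℝ) (hD : Continuous D) (a b : ℝ) (hab : a ≤ b) (X L : ℝ)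
    (hL : 0 < L) (hX : ∫ t in a..b, D t ^ 2 ≤ X) :
    volume {t : ℝ | t ∈ Set.Icc a b ∧ L < D t} ≤ ENNReal.ofReal (X / L ^ 2) := by
  have hcont : Continuous fun t => D t ^ 2 := hD.pow 2
  have hint : Integrable (fun t => D t ^ 2) (volume.restrict (Set.Icc a b)) :=
    hcont.integrableOn_Icc
  have hM := mul_meas_ge_le_integral_of_nonneg (μ := volume.restrict (Set.Icc a b))
    (Filter.Eventually.of_forall fun t => sq_nonneg (D t)) hint (L ^ 2)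
  have hI : ∫ t, D t ^ 2 ∂(volume.restrict (Set.Icc a b)) = ∫ t in a..b, D t ^ 2 := by
    rw [intervalIntegral.integral_of_le hab, integral_Icc_eq_integral_Ioc]
  rw [hI] at hM
  have hmeas : MeasurableSet {t : ℝ | L ^ 2 ≤ D t ^ 2} :=
    measurableSet_le measurable_const hcont.measurable
  have hsub : {t : ℝ | t ∈ Set.Icc a b ∧ L < D t} ⊆ {t : ℝ | L ^ 2 ≤ D t ^ 2} ∩ Set.Icc a b := by
    rintro t ⟨h1, h2⟩
    exact ⟨pow_le_pow_left₀ hL.le h2.le 2, h1⟩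
  have hL2 : 0 < L ^ 2 := by positivity
  calc volume {t : ℝ | t ∈ Set.Icc a b ∧ L < D t} ≤
        volume ({t : ℝ | L ^ 2 ≤ D t ^ 2} ∩ Set.Icc a b) := measure_mono hsub
    _ = volume.restrict (Set.Icc a b) {t : ℝ | L ^ 2 ≤ D t ^ 2} :=
        (Measure.restrict_apply hmeas).symm
    _ = ENNReal.ofReal ((volume.restrict (Set.Icc a b)).real {t : ℝ | L ^ 2 ≤ D t ^ 2}) := by
        rw [Measure.real, ENNReal.ofReal_toReal (measure_ne_top _ _)]
    _ ≤ ENNReal.ofReal (X / L ^ 2) := by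
        refine ENNReal.ofReal_le_ofReal ?_
        rw [le_div_iff₀ hL2, mul_comm]
        exact hM.trans hX

/-- **TypW**: large values of the block sums are rare. -/
theorem tTypW (h1 : S_Osc) : S_TypW := by
  classical
  intro h c m K M₀ M₁ a b lam q hab hM hlam hq hn
  have hba : 0 ≤ b - a := sub_nonneg.2 hab
  have hS : ∀ j ∈ Finset.Ioc M₀ M₁, 1 ≤ j ∧ j ≤ M₁ := fun j hj => by
    rw [Finset.mem_Ioc] at hj
    exact ⟨by omega, hj.2⟩
  have hk : ∀ k ∈ Finset.range (K + 1),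
      volume {t : ℝ | m ≤ k ∧ (t ∈ Set.Icc a b ∧ lam * q ^ k < ‖aW h c k M₀ M₁ t‖)} ≤
        ENNReal.ofReal (2 * (b - a) / lam ^ 2) := by
    intro k hk
    by_cases hmk : m ≤ k
    · have hkK : k ≤ K := by
        have := Finset.mem_range.1 hk
        omega
      have hqk : 0 < q ^ k := pow_pos hq k
      have e1 := TypW_mean h1 (Finset.Ioc M₀ M₁) (vW h c k) M₁ a b hab hS
      have e2 : ∫ t in a..b, ‖aW h c k M₀ M₁ t‖ ^ 2 ≤ 2 * (b - a) * (q ^ k) ^ 2 := by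
        have e3 : ((b - a) + 2 * (M₁ : ℝ) ^ 2) * nW h c k M₀ M₁ ≤
            2 * (b - a) * (q ^ k) ^ 2 := by
          have e4 : 0 ≤ nW h c k M₀ M₁ := Finset.sum_nonneg fun j _ => sq_nonneg _
          have e5 : ((b - a) + 2 * (M₁ : ℝ) ^ 2) * nW h c k M₀ M₁ ≤
              2 * (b - a) * nW h c k M₀ M₁ := mul_le_mul_of_nonneg_right (by linarith) e4
          exact e5.trans (mul_le_mul_of_nonneg_left (hn k hmk hkK) (by positivity))
        exact e1.trans e3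
      have e6 := TypW_cheb (fun t => ‖aW h c k M₀ M₁ t‖)
        (TypW_cont _ (vW h c k) fun j hj => (hS j hj).1) a b hab _ (lam * q ^ k)
        (mul_pos hlam hqk) e2
      have e7 : 2 * (b - a) * (q ^ k) ^ 2 / (lam * q ^ k) ^ 2 = 2 * (b - a) / lam ^ 2 := by
        rw [mul_pow]
        exact mul_div_mul_right _ _ (by positivity)
      rw [e7] at e6
      exact (measure_mono fun t ht => ht.2).trans e6
    · have e : {t : ℝ | m ≤ k ∧ (t ∈ Set.Icc a b ∧ lam * q ^ k < ‖aW h c k M₀ M₁ t‖)} = ∅ := by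
        ext t
        exact ⟨fun ht => absurd ht.1 hmk, fun ht => ht.elim⟩
      rw [e, measure_empty]
      exact bot_le
  have hsub : {t : ℝ | t ∈ Set.Icc a b ∧ ∃ k : ℕ, m ≤ k ∧ k ≤ K ∧
      lam * q ^ k < ‖aW h c k M₀ M₁ t‖} ⊆ ⋃ k ∈ Finset.range (K + 1),
        {t : ℝ | m ≤ k ∧ (t ∈ Set.Icc a b ∧ lam * q ^ k < ‖aW h c k M₀ M₁ t‖)} := by
    rintro t ⟨ht, k, hmk, hkK, hl⟩
    exact Set.mem_biUnion (Finset.mem_coe.2 (Finset.mem_range.2 (by omega))) ⟨hmk, ht, hl⟩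
  refine (measure_mono hsub).trans ((measure_biUnion_finset_le _ _).trans
    ((Finset.sum_le_sum hk).trans ?_))
  rw [Finset.sum_const, Finset.card_range, nsmul_eq_mul, ← ENNReal.ofReal_natCast,
    ← ENNReal.ofReal_mul (Nat.cast_nonneg _)]
  refine ENNReal.ofReal_le_ofReal (le_of_eq ?_)
  push_cast
  ring

end MP7ed9c3.Tp
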