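import Pool.Agent.Lib.MP_7ed9c3_nt.Tp.Spec

/-!
# MP_7ed9c3_nt, part Tp: bound of the coefficients (module VWb)
-/

set_option autoImplicit false

namespace MP7ed9c3.Tp

open MeasureTheory Metric MP7ed9c3.Aw

/-- **VWb.** -/
theorem tVWb (h1 : Aw.S_GUp) : S_VWb := by
  intro h σ₁ b r₀ R R' R₂ R₁ C hh hC hR c hc k m
  have hpos : 0 < R₂ :=
    hR.r₀pos.trans (hR.lt1.trans (hR.lt2.trans hR.lt3))
  have hlt : R₂ < 1 := hR.lt4.trans hR.lt5
  unfold vW
  rw [norm_mul]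
  rcases Nat.eq_zero_or_pos m with rfl | hm
  · rw [hc.1 0 not_isPrimePow_zero, norm_zero, zero_mul]
    positivity
  · have hm1 : (1 : ℝ) ≤ m := by exact_mod_cast hm
    have hm0 : (0 : ℝ) < m := by linarith
    have h2 : √(m : ℝ) * (m : ℝ) ^ (-ell h R₂) ≤ 1 := by
      rw [Real.sqrt_eq_rpow, ← Real.rpow_add hm0]
      refine Real.rpow_le_one_of_one_le_of_nonpos hm1 ?_
      have := hR.e3
      linarith
    calc ‖c m‖ * ‖gT h k m‖ ≤ (C * √(m : ℝ)) * ((m : ℝ) ^ (-ell h R₂) / R₂ ^ k) :=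
          mul_le_mul (hc.2 m) (h1 h R₂ k m hh hpos hlt hm) (norm_nonneg _) (by positivity)
      _ = C * (√(m : ℝ) * (m : ℝ) ^ (-ell h R₂)) * (1 / R₂) ^ k := by
          rw [one_div, inv_pow, div_eq_mul_inv]
          ring
      _ ≤ C * 1 * (1 / R₂) ^ k := by
          refine mul_le_mul_of_nonneg_right (mul_le_mul_of_nonneg_left h2 hC) ?_
          positivity
      _ = C * (1 / R₂) ^ k := by rw [mul_one]

end MP7ed9c3.Tp
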