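import Pool.Agent.Lib.MP_7ed9c3_nt.Tp.SpecB

/-!
# MP_7ed9c3_nt, project TP: from the points to the windows
-/

set_option autoImplicit false

namespace MP7ed9c3.Tp

open NumberField IsDedekindDomain Filter Topology MeasureTheory Metric
open MP7ed9c3.Aw

/-- The pairs `(t, s)` with `s ∈ B` in the window of half length `h` at `t`. -/
private def WinB_E (B : Set ℝ) (h : ℝ) : Set (ℝ × ℝ) :=
  {p : ℝ × ℝ | p.2 ∈ B ∧ p.1 - h ≤ p.2 ∧ p.2 ≤ p.1 + h}

private lemma WinB_meas (B : Set ℝ) (h : ℝ) (hB : MeasurableSet B) :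
    MeasurableSet (WinB_E B h) := by
  have h1 : MeasurableSet {p : ℝ × ℝ | p.2 ∈ B} := measurable_snd hB
  have h2 : MeasurableSet {p : ℝ × ℝ | p.1 - h ≤ p.2} :=
    measurableSet_le (measurable_fst.sub_const _) measurable_snd
  have h3 : MeasurableSet {p : ℝ × ℝ | p.2 ≤ p.1 + h} :=
    measurableSet_le measurable_snd (measurable_fst.add_const _)
  exact h1.inter (h2.inter h3)

private lemma WinB_int (B : Set ℝ) (h : ℝ) (hB : MeasurableSet B) :
    ∫⁻ t : ℝ, volume (B ∩ Set.Icc (t - h) (t + h)) = ENNReal.ofReal (2 * h) * volume B := by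
  have hE := WinB_meas B h hB
  have h1 := Measure.prod_apply (μ := (volume : Measure ℝ)) (ν := (volume : Measure ℝ)) hE
  have h2 := Measure.prod_apply_symm (μ := (volume : Measure ℝ)) (ν := (volume : Measure ℝ)) hE
  have h3 : ∀ t : ℝ, (Prod.mk t ⁻¹' WinB_E B h) = B ∩ Set.Icc (t - h) (t + h) := by
    intro t
    ext s
    simp only [WinB_E, Set.mem_preimage, Set.mem_setOf_eq, Set.mem_inter_iff, Set.mem_Icc]
  have h4 : ∀ s : ℝ, volume ((fun t : ℝ => (t, s)) ⁻¹' WinB_E B h) =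
      B.indicator (fun _ => ENNReal.ofReal (2 * h)) s := by
    intro s
    by_cases hs : s ∈ B
    · have h5 : ((fun t : ℝ => (t, s)) ⁻¹' WinB_E B h) = Set.Icc (s - h) (s + h) := by
        ext t
        simp only [WinB_E, Set.mem_preimage, Set.mem_setOf_eq, Set.mem_Icc]
        constructor
        · rintro ⟨_, h6, h7⟩
          constructor <;> linarith
        · rintro ⟨h6, h7⟩
          refine ⟨hs, ?_, ?_⟩ <;> linarith
      rw [h5, Set.indicator_of_mem hs, Real.volume_Icc]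
      have h8 : s + h - (s - h) = 2 * h := by ring
      rw [h8]
    · have h5 : ((fun t : ℝ => (t, s)) ⁻¹' WinB_E B h) = ∅ := by
        ext t
        simp only [WinB_E, Set.mem_preimage, Set.mem_setOf_eq, Set.mem_empty_iff_false, iff_false]
        rintro ⟨h6, _⟩
        exact hs h6
      rw [h5, Set.indicator_of_notMem hs, measure_empty]
  calc ∫⁻ t : ℝ, volume (B ∩ Set.Icc (t - h) (t + h))
      = ∫⁻ t : ℝ, volume (Prod.mk t ⁻¹' WinB_E B h) := by
        refine lintegral_congr fun t => ?_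
        rw [h3 t]
    _ = ∫⁻ s : ℝ, volume ((fun t : ℝ => (t, s)) ⁻¹' WinB_E B h) := by rw [← h1, ← h2]
    _ = ∫⁻ s : ℝ, B.indicator (fun _ => ENNReal.ofReal (2 * h)) s := lintegral_congr h4
    _ = ENNReal.ofReal (2 * h) * volume B := by
        rw [lintegral_indicator hB, setLIntegral_const]

private lemma WinB_mf (B : Set ℝ) (h : ℝ) (hB : MeasurableSet B) :
    Measurable (fun t : ℝ => volume (B ∩ Set.Icc (t - h) (t + h))) := by
  have h1 := measurable_measure_prodMk_left (ν := (volume : Measure ℝ)) (WinB_meas B h hB)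
  have h2 : (fun t : ℝ => volume (B ∩ Set.Icc (t - h) (t + h))) =
      fun t : ℝ => volume (Prod.mk t ⁻¹' WinB_E B h) := by
    funext t
    rfl
  rw [h2]
  exact h1

private lemma WinB_markov (B : Set ℝ) (h μ : ℝ) (hh : 0 < h) (hB : MeasurableSet B)
    (hv : volume B ≤ ENNReal.ofReal μ) :
    volume {t : ℝ | ENNReal.ofReal h ≤ volume (B ∩ Set.Icc (t - h) (t + h))} ≤
      ENNReal.ofReal (2 * μ) := by
  have h2 := mul_meas_ge_le_lintegral (μ := (volume : Measure ℝ)) (WinB_mf B h hB)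
    (ENNReal.ofReal h)
  rw [WinB_int B h hB] at h2
  have h3 : ENNReal.ofReal h *
      volume {t : ℝ | ENNReal.ofReal h ≤ volume (B ∩ Set.Icc (t - h) (t + h))} ≤
      ENNReal.ofReal (2 * h) * ENNReal.ofReal μ := h2.trans (mul_le_mul_right hv _)
  have h5 : ENNReal.ofReal (1 / h) * (ENNReal.ofReal h *
      volume {t : ℝ | ENNReal.ofReal h ≤ volume (B ∩ Set.Icc (t - h) (t + h))}) ≤
      ENNReal.ofReal (1 / h) * (ENNReal.ofReal (2 * h) * ENNReal.ofReal μ) :=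
    mul_le_mul_right h3 _
  rw [← mul_assoc, ← mul_assoc, ← ENNReal.ofReal_mul (by positivity),
    ← ENNReal.ofReal_mul (by positivity), ← ENNReal.ofReal_mul (by positivity)] at h5
  have h6 : 1 / h * h = 1 := by field_simp
  have h7 : 1 / h * (2 * h) * μ = 2 * μ := by field_simp
  rw [h6, h7, ENNReal.ofReal_one, one_mul] at h5
  exact h5

private lemma WinB_one (G : ℂ → ℂ) (σ₁ h δ t₁ : ℝ) (N : ℕ) (Bd B Q : Set ℝ) (hh : 0 < h)
    (hδ : 0 < δ) (hN : 4 * N * δ ≤ h) (hsub : Bd ⊆ B)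
    (hZ : ∀ Z : Finset ℂ, (∀ ρ ∈ Z, ρ ∈ win σ₁ (2 * h) t₁ ∧ G ρ = 0) → Z.card ≤ N)
    (hQ : volume Q ≤ ENNReal.ofReal (h / 2))
    (H : ∀ t : ℝ, |t - t₁| < h → t ∉ Q → t ∉ Bd →
      ∃ ρ ∈ win σ₁ h t, G ρ = 0 ∧ |ρ.im - t| ≤ δ) :
    ENNReal.ofReal h ≤ volume (B ∩ Set.Icc (t₁ - h) (t₁ + h)) := by
  have hfin : {ρ : ℂ | ρ ∈ win σ₁ (2 * h) t₁ ∧ G ρ = 0}.Finite := by
    by_contra hcon
    obtain ⟨Z, hZs, hZc⟩ := Set.Infinite.exists_subset_card_eq hcon (N + 1)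
    have h1 := hZ Z (fun ρ hρ => hZs hρ)
    omega
  obtain ⟨Z, hZeq⟩ : ∃ Z : Finset ℂ, ∀ ρ, ρ ∈ Z ↔ (ρ ∈ win σ₁ (2 * h) t₁ ∧ G ρ = 0) :=
    ⟨hfin.toFinset, fun ρ => by simp⟩
  have hc : Z.card ≤ N := hZ Z (fun ρ hρ => (hZeq ρ).1 hρ)
  have hcov : Set.Ioo (t₁ - h) (t₁ + h) ⊆ (B ∩ Set.Icc (t₁ - h) (t₁ + h)) ∪
      (Q ∪ ⋃ ρ ∈ Z, Set.Icc (ρ.im - δ) (ρ.im + δ)) := by
    intro t ht
    have ht' : |t - t₁| < h := by
      rw [abs_lt]
      constructor <;> linarith [ht.1, ht.2]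
    by_cases h1 : t ∈ Bd
    · exact Or.inl ⟨hsub h1, ht.1.le, ht.2.le⟩
    · by_cases h2 : t ∈ Q
      · exact Or.inr (Or.inl h2)
      · obtain ⟨ρ, hρ, hG, hd⟩ := H t ht' h2 h1
        refine Or.inr (Or.inr ?_)
        have h3 : ρ ∈ Z := by
          refine (hZeq ρ).2 ⟨⟨hρ.1, ?_⟩, hG⟩
          have h4 : |ρ.im - t₁| ≤ |ρ.im - t| + |t - t₁| := abs_sub_le _ _ _
          have h5 := hρ.2
          linarith
        have h6 := abs_le.1 hd
        refine Set.mem_iUnion₂.2 ⟨ρ, h3, ?_, ?_⟩ <;> linarith [h6.1, h6.2]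
  have h1 : volume (⋃ ρ ∈ Z, Set.Icc (ρ.im - δ) (ρ.im + δ)) ≤ ENNReal.ofReal (h / 2) := by
    refine (measure_biUnion_finset_le Z _).trans ?_
    have h2 : ∀ ρ ∈ Z, volume (Set.Icc (ρ.im - δ) (ρ.im + δ)) = ENNReal.ofReal (2 * δ) := by
      intro ρ _
      rw [Real.volume_Icc]
      have h3 : ρ.im + δ - (ρ.im - δ) = 2 * δ := by ring
      rw [h3]
    rw [Finset.sum_congr rfl h2, Finset.sum_const, nsmul_eq_mul, ← ENNReal.ofReal_natCast,
      ← ENNReal.ofReal_mul (by positivity)]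
    refine ENNReal.ofReal_le_ofReal ?_
    have h4 : (Z.card : ℝ) ≤ N := by exact_mod_cast hc
    nlinarith
  have h2 : volume (Set.Ioo (t₁ - h) (t₁ + h)) = ENNReal.ofReal h + ENNReal.ofReal h := by
    rw [Real.volume_Ioo, ← ENNReal.ofReal_add hh.le hh.le]
    have h3 : t₁ + h - (t₁ - h) = h + h := by ring
    rw [h3]
  have h3 : ENNReal.ofReal h + ENNReal.ofReal h ≤
      volume (B ∩ Set.Icc (t₁ - h) (t₁ + h)) + ENNReal.ofReal h := by
    rw [← h2]
    refine (measure_mono hcov).trans ((measure_union_le _ _).trans ?_)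
    refine add_le_add le_rfl ((measure_union_le _ _).trans ?_)
    refine (add_le_add hQ h1).trans ?_
    rw [← ENNReal.ofReal_add (by positivity) (by positivity)]
    refine ENNReal.ofReal_le_ofReal ?_
    linarith
  exact (ENNReal.add_le_add_iff_right ENNReal.ofReal_ne_top).1 h3

theorem tWinB : S_WinB := by
  intro G σ₁ h δ μ T t₀ N Bd hh hδ hμ hT hN1 hN hBd H
  obtain ⟨B, hB, hsub, hv⟩ : ∃ B : Set ℝ, MeasurableSet B ∧ Bd ⊆ B ∧ volume B = volume Bd :=
    ⟨toMeasurable volume Bd, measurableSet_toMeasurable _ _, subset_toMeasurable _ _,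
      measure_toMeasurable _⟩
  have hcov : fewY G σ₁ (2 * h) T t₀ N ⊆
      {t : ℝ | ENNReal.ofReal h ≤ volume (B ∩ Set.Icc (t - h) (t + h))} ∪
      (Set.Icc (t₀ + T - 2 * h) (t₀ + T) ∪ Set.Icc (t₀ - T) (t₀ - T + 2 * h)) := by
    intro t₁ ht₁
    obtain ⟨h1, h2⟩ := ht₁
    by_cases h3 : |t₁ - t₀| < T - 2 * h
    · have hZ : ∀ Z : Finset ℂ, (∀ ρ ∈ Z, ρ ∈ win σ₁ (2 * h) t₁ ∧ G ρ = 0) → Z.card ≤ N := by
        intro Z hZ
        by_contra hcon
        have hcon' : N ≤ Z.card := (not_le.1 hcon).le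
        obtain ⟨Y, hY, hYc⟩ := Finset.exists_subset_card_eq hcon'
        refine h2 ⟨Y, hYc, fun ρ hρ => ⟨(hZ ρ (hY hρ)).1, ?_, (hZ ρ (hY hρ)).2⟩⟩
        have h4 := (hZ ρ (hY hρ)).1
        refine ⟨h4.1, ?_⟩
        have h5 : |ρ.im - t₀| ≤ |ρ.im - t₁| + |t₁ - t₀| := abs_sub_le _ _ _
        have h6 := h4.2
        linarith
      obtain ⟨Q, hQ, H'⟩ := H t₁ h3 hZ
      exact Or.inl (WinB_one G σ₁ h δ t₁ N Bd B Q hh hδ hN hsub hZ hQ H')
    · have h3' := not_lt.1 h3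
      refine Or.inr ?_
      rcases le_total 0 (t₁ - t₀) with h4 | h4
      · rw [abs_of_nonneg h4] at h1 h3'
        exact Or.inl ⟨by linarith, by linarith⟩
      · rw [abs_of_nonpos h4] at h1 h3'
        exact Or.inr ⟨by linarith, by linarith⟩
  have hm := WinB_markov B h μ hh hB (hv.le.trans hBd)
  have h1 : volume (Set.Icc (t₀ + T - 2 * h) (t₀ + T)) = ENNReal.ofReal (2 * h) := by
    rw [Real.volume_Icc]
    have h2 : t₀ + T - (t₀ + T - 2 * h) = 2 * h := by ring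
    rw [h2]
  have h2 : volume (Set.Icc (t₀ - T) (t₀ - T + 2 * h)) = ENNReal.ofReal (2 * h) := by
    rw [Real.volume_Icc]
    have h3 : t₀ - T + 2 * h - (t₀ - T) = 2 * h := by ring
    rw [h3]
  refine (measure_mono hcov).trans ((measure_union_le _ _).trans ?_)
  refine (add_le_add hm (measure_union_le _ _)).trans ?_
  rw [h1, h2, ← ENNReal.ofReal_add (by positivity) (by positivity),
    ← ENNReal.ofReal_add (by positivity) (by positivity)]
  refine ENNReal.ofReal_le_ofReal ?_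
  linarith

end MP7ed9c3.Tp
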