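import Pool.Agent.Lib.MP_7ed9c3_nt.Aw.AllX
import Pool.Agent.Lib.MP_7ed9c3_nt.Aw.Rad
import Pool.Agent.Lib.MP_7ed9c3_nt.Aw.GLow
import Pool.Agent.Lib.MP_7ed9c3_nt.Tp.AbsW
import Pool.Agent.Lib.MP_7ed9c3_nt.Tp.BadB
import Pool.Agent.Lib.MP_7ed9c3_nt.Tp.BlkY
import Pool.Agent.Lib.MP_7ed9c3_nt.Tp.Cmb
import Pool.Agent.Lib.MP_7ed9c3_nt.Tp.CoreB
import Pool.Agent.Lib.MP_7ed9c3_nt.Tp.DetH
import Pool.Agent.Lib.MP_7ed9c3_nt.Tp.DirB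
import Pool.Agent.Lib.MP_7ed9c3_nt.Tp.Fac
import Pool.Agent.Lib.MP_7ed9c3_nt.Tp.Far
import Pool.Agent.Lib.MP_7ed9c3_nt.Tp.Inj
import Pool.Agent.Lib.MP_7ed9c3_nt.Tp.Jen
import Pool.Agent.Lib.MP_7ed9c3_nt.Tp.LgT
import Pool.Agent.Lib.MP_7ed9c3_nt.Tp.LocW
import Pool.Agent.Lib.MP_7ed9c3_nt.Tp.LowW
import Pool.Agent.Lib.MP_7ed9c3_nt.Tp.LT
import Pool.Agent.Lib.MP_7ed9c3_nt.Tp.Max
import Pool.Agent.Lib.MP_7ed9c3_nt.Tp.Near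
import Pool.Agent.Lib.MP_7ed9c3_nt.Tp.NumL
import Pool.Agent.Lib.MP_7ed9c3_nt.Tp.PhiL
import Pool.Agent.Lib.MP_7ed9c3_nt.Tp.Pos
import Pool.Agent.Lib.MP_7ed9c3_nt.Tp.ProdY
import Pool.Agent.Lib.MP_7ed9c3_nt.Tp.Psm
import Pool.Agent.Lib.MP_7ed9c3_nt.Tp.PsW
import Pool.Agent.Lib.MP_7ed9c3_nt.Tp.TrnW
import Pool.Agent.Lib.MP_7ed9c3_nt.Tp.Tus
import Pool.Agent.Lib.MP_7ed9c3_nt.Tp.TypW
import Pool.Agent.Lib.MP_7ed9c3_nt.Tp.UDir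
import Pool.Agent.Lib.MP_7ed9c3_nt.Tp.VWb
import Pool.Agent.Lib.MP_7ed9c3_nt.Tp.WinB

/-!
# MP_7ed9c3_nt, part Tp: assembly of the parts before the core
-/

set_option autoImplicit false

namespace MP7ed9c3.Tp

open NumberField IsDedekindDomain Filter Topology MeasureTheory Metric
open MP7ed9c3.Aw

theorem psWAll : S_PsW := tPsW tPhi tDirB (tPsm tLgT tTc) tFac tJen

theorem trnWAll : S_TrnW := tTrnW tPhi tTc gUpAll tDirB (tVWb gUpAll)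

theorem lowWAll : S_LowW := tLowW gUpAll (tGLow tPhi tTc gUpAll)

theorem typWAll : S_TypW := tTypW tOsc

theorem uDirAll : S_UDir := tUDir tPos gUpAll

theorem phiLAll : S_PhiL := tPhiL tPhi

theorem absWAll : S_AbsW := tAbsW tPhi psWAll tInj phiLAll

theorem ltAll : S_LT := tLT (TuranW.turF (TuranW.turM TuranW.tur))

theorem blkYAll : S_BlkY := tBlkY (tQuads tPP tQ3) (tProdY (tPM tOsc) tEX)

theorem badBAll : S_BadB := tBadB typWAll blkYAll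

theorem locWAll : S_LocW := tLocW tPhi psWAll tInj (tNear tTus) tFar phiLAll tNumL

theorem detHAll : S_DetH := tDetH locWAll

end MP7ed9c3.Tp
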