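import Pool.Agent.Lib.MP_7ed9c3_nt.Tp.SpecY

/-!
# MP_7ed9c3_nt, part Tp: from `G = F P` to `F`, different zeros, final form (statements)

`CoreT h`: the set of the `t` such that `G` has fewer than `N` different zeros in the window of half height `h` has
measure at most `A (N loglog T (log V + loglog T)/log T)^c₁ T`.

Module `Tp/Name.lean` with `theorem tName : S_Name` (the statements after the word from are hypotheses, in this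
order), importing only this file (and Mathlib).
-/

set_option autoImplicit false

namespace MP7ed9c3.Tp

open NumberField IsDedekindDomain Filter Topology MeasureTheory Metric
open MP7ed9c3.Aw

/-- The quantity in the exceptional measure. -/
noncomputable def quoT (V T : ℝ) (N : ℕ) : ℝ :=
  N * Real.log (Real.log T) * (Real.log V + Real.log (Real.log T)) / Real.log T

/-- The core: few different zeros only on a small set. -/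
def CoreT (h : ℝ) : Prop :=
  ∀ (C b : ℝ) (k : ℕ), 0 ≤ C → b ≤ 1 →
    ∀ σ₁ : ℝ, 1 / 2 ≤ σ₁ → σ₁ < b → ∃ x : ℝ, 1 / 2 < x ∧ x < b ∧
      ∀ η B : ℝ, 0 < η → 1 ≤ B → ∃ A c₁ V₀ : ℝ, 1 ≤ A ∧ 0 < c₁ ∧ c₁ ≤ 1 ∧
      ∀ V T t₀ : ℝ, V₀ ≤ V → V ≤ T →
      ∀ c : ℕ → ℂ, Coefs c C → LowU c k x η B (V ^ 2) →
      ∀ G : ℂ → ℂ, DifferentiableOn ℂ G (win σ₁ T t₀) →
        (∀ s ∈ win σ₁ T t₀, ‖G s‖ ≤ Real.exp V) →
        (∀ s ∈ win σ₁ T t₀, 3 ≤ s.re → G s = Complex.exp (Aw.dir c s)) →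
        ∀ N : ℕ, 1 ≤ N →
        volume (fewY G σ₁ h T t₀ N) ≤ ENNReal.ofReal (A * quoT V T N ^ c₁ * T)

/-- The conclusion. -/
def WindowsT (h : ℝ) (K : Type) [Field K] [NumberField K]
    (𝓔 : ℝ → (HeightOneSpectrum (𝓞 K) → WeierstrassCurve (𝓞 K)) → Prop) (b : ℝ) : Prop :=
  ∀ σ₁ : ℝ, σ₁ < b → ∃ C c V₀ : ℝ, 0 < c ∧ ∀ V H t₀ : ℝ, V₀ ≤ V → V ≤ H →
      ∀ M : HeightOneSpectrum (𝓞 K) → WeierstrassCurve (𝓞 K), 𝓔 V M →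
      ∀ F : ℂ → ℂ, DifferentiableOn ℂ F {s : ℂ | σ₁ < s.re ∧ |s.im - t₀| < H} →
        (∀ s : ℂ, σ₁ < s.re → |s.im - t₀| < H → ‖F s‖ ≤ Real.exp V) →
        (∀ s : ℂ, 3 / 2 < s.re → |s.im - t₀| < H →
          F s = ∏' v : HeightOneSpectrum (𝓞 K), (locDen (M v) v s)⁻¹) →
        ∀ N : ℕ, 1 ≤ N →
        volume {t : ℝ | |t - t₀| < H ∧ ¬ ∃ Y : Finset ℂ, Y.card = N ∧ ∀ ρ ∈ Y,
            σ₁ < ρ.re ∧ |ρ.im - t| < h ∧ |ρ.im - t₀| < H ∧ F ρ = 0} ≤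
          ENNReal.ofReal (C * (N * Real.log (Real.log H) * (Real.log V + Real.log (Real.log H)) /
            Real.log H) ^ c * H)

/-- **NumTq**: the numbers in `S_RedT`.

Proof.  `C' = 8 A (1 + N₀)`, `V₀ = exp(exp 1)`.  `log H ≥ log V ≥ e`, so `loglog H ≥ 1`.
`(N + N₀) ≤ (1 + N₀) N`, `log(2V) + loglog H ≤ 2 (log V + loglog H)` (`log 2 ≤ 1 ≤ log V`), so
`quoT (2V) H (N + N₀) ≤ 2 (1 + N₀) quoT V H N`; power `c₁ ∈ (0, 1]`: `(2 (1 + N₀))^c₁ ≤ 2 (1 + N₀)`.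
If `H < 2V`: `log H ≤ log 2 + log V ≤ 2 log V`, `quoT V H N ≥ 1/2`, `quoT^c₁ ≥ 1/2`. -/
def S_NumTq : Prop :=
  ∀ (A c₁ : ℝ) (N₀ : ℕ), 1 ≤ A → 0 < c₁ → c₁ ≤ 1 → ∃ C' V₀ : ℝ, 3 ≤ V₀ ∧
    ∀ (V H : ℝ) (N : ℕ), V₀ ≤ V → V ≤ H → 1 ≤ N →
      (H < 2 * V → 2 ≤ C' * quoT V H N ^ c₁) ∧
      A * quoT (2 * V) H (N + N₀) ^ c₁ ≤ C' * quoT V H N ^ c₁

/-- **RedT** (from `S_NumTq`). -/
def S_RedT : Prop :=
  ∀ h : ℝ, 0 < h → CoreT h →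
  ∀ (K : Type) [Field K] [NumberField K]
    (𝓔 : ℝ → (HeightOneSpectrum (𝓞 K) → WeierstrassCurve (𝓞 K)) → Prop) (b : ℝ),
    1 / 2 < b → b ≤ 1 → DataG K 𝓔 b → WindowsT h K 𝓔 b

end MP7ed9c3.Tp
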