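import Pool.Agent.Lib.MP_7ed9c3_nt.Tp.SpecB
import Pool.Agent.Lib.MP_7ed9c3_nt.Tp.SpecT

/-!
# MP_7ed9c3_nt, part Tp: from `CoreZ` to `CoreT`
-/

set_option autoImplicit false

namespace MP7ed9c3.Tp

open NumberField IsDedekindDomain Filter Topology MeasureTheory Metric
open MP7ed9c3.Aw

/-- `CoreZ` with the final quantity is `CoreT`. -/
theorem coreT_of_coreZ (h : ℝ) (H : CoreZ h (fun V T N =>
    N * (Real.log V + Real.log (Real.log T)) * Real.log (Real.log T))) : CoreT h := by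
  intro C b k hC hb σ₁ h1 h2
  obtain ⟨x, hx1, hx2, H1⟩ := H C b k hC hb σ₁ h1 h2
  refine ⟨x, hx1, hx2, fun η B hη hB => ?_⟩
  obtain ⟨A, c₁, V₀, hA, hc0, hc1, H2⟩ := H1 η B hη hB
  refine ⟨A, c₁, V₀, hA, hc0, hc1, fun V T t₀ hV hT c hc hL G hG1 hG2 hG3 N hN => ?_⟩
  have e : quoT V T N = (N : ℝ) * (Real.log V + Real.log (Real.log T)) * Real.log (Real.log T) /
      Real.log T := by
    unfold quoT
    ring
  rw [e]
  exact H2 V T t₀ hV hT c hc hL G hG1 hG2 hG3 N hN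

/-- `CoreZ` with the quantity of the Fejer kernel is `CoreY`. -/
theorem coreY_of_coreZ (h : ℝ) (H : CoreZ h (fun V T N =>
    N * (N + Real.log V + Real.log (Real.log T)))) : CoreY h := by
  intro C b k hC hb σ₁ h1 h2
  obtain ⟨x, hx1, hx2, H1⟩ := H C b k hC hb σ₁ h1 h2
  refine ⟨x, hx1, hx2, fun η B hη hB => ?_⟩
  obtain ⟨A, c₁, V₀, hA, hc0, hc1, H2⟩ := H1 η B hη hB
  refine ⟨A, c₁, V₀, hA, hc0, hc1, fun V T t₀ hV hT c hc hL G hG1 hG2 hG3 N hN => ?_⟩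
  exact H2 V T t₀ hV hT c hc hL G hG1 hG2 hG3 N hN

private theorem BrT_ll (V T : ℝ) (hV : Real.exp (Real.exp 1) ≤ V) (hT : V ≤ T) :
    0 ≤ Real.log V ∧ 1 ≤ Real.log (Real.log T) := by
  have h1 := Real.add_one_le_exp (1 : ℝ)
  have h2 := Real.add_one_le_exp (Real.exp 1)
  have hVp : 0 < V := by linarith
  have h3 : Real.exp 1 ≤ Real.log V := by
    rw [Real.le_log_iff_exp_le hVp]
    exact hV
  have h4 : Real.log V ≤ Real.log T := Real.log_le_log hVp hT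
  refine ⟨by linarith, ?_⟩
  rw [Real.le_log_iff_exp_le (by linarith)]
  linarith

/-- The hypothesis on `quo` in `S_CoreB` for the final quantity. -/
theorem quoT_ge : ∃ V₂ : ℝ, ∀ (V T : ℝ) (N : ℕ), V₂ ≤ V → V ≤ T → 1 ≤ N →
    Real.log V ≤ (fun (V T : ℝ) (N : ℕ) =>
      (N : ℝ) * (Real.log V + Real.log (Real.log T)) * Real.log (Real.log T)) V T N := by
  refine ⟨Real.exp (Real.exp 1), fun V T N hV hT hN => ?_⟩
  obtain ⟨h1, h2⟩ := BrT_ll V T hV hT
  have hN' : (1 : ℝ) ≤ N := by exact_mod_cast hN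
  show Real.log V ≤ (N : ℝ) * (Real.log V + Real.log (Real.log T)) * Real.log (Real.log T)
  have h3 : Real.log V ≤ 1 * (Real.log V + Real.log (Real.log T)) * 1 := by linarith
  refine h3.trans ?_
  have h4 : 0 ≤ Real.log V + Real.log (Real.log T) := by linarith
  exact mul_le_mul (mul_le_mul_of_nonneg_right hN' h4) h2 (by norm_num)
    (mul_nonneg (by linarith) h4)

/-- The hypothesis on `quo` in `S_CoreB` for the quantity of the Fejer kernel. -/
theorem quoY_ge : ∃ V₂ : ℝ, ∀ (V T : ℝ) (N : ℕ), V₂ ≤ V → V ≤ T → 1 ≤ N →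
    Real.log V ≤ (fun (V T : ℝ) (N : ℕ) =>
      (N : ℝ) * (N + Real.log V + Real.log (Real.log T))) V T N := by
  refine ⟨Real.exp (Real.exp 1), fun V T N hV hT hN => ?_⟩
  obtain ⟨h1, h2⟩ := BrT_ll V T hV hT
  have hN' : (1 : ℝ) ≤ N := by exact_mod_cast hN
  show Real.log V ≤ (N : ℝ) * (N + Real.log V + Real.log (Real.log T))
  nlinarith

end MP7ed9c3.Tp
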