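import Pool.Agent.Lib.MP_7ed9c3_nt.Tp.RedZ

/-!
# MP_7ed9c3_nt, part Tp: the final form, `quo = N (log V + loglog T)`
-/

set_option autoImplicit false

namespace MP7ed9c3.Tp

open NumberField IsDedekindDomain Filter Topology MeasureTheory Metric
open MP7ed9c3.Aw

/-- The final conclusion. -/
def WindowsU (h : ℝ) (K : Type) [Field K] [NumberField K]
    (𝓔 : ℝ → (HeightOneSpectrum (𝓞 K) → WeierstrassCurve (𝓞 K)) → Prop) (b : ℝ) : Prop :=
  ∀ σ₁ : ℝ, σ₁ < b → ∃ C c V₀ : ℝ, 0 < c ∧ ∀ V H t₀ : ℝ, V₀ ≤ V → V ≤ H →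
      ∀ M : HeightOneSpectrum (𝓞 K) → WeierstrassCurve (𝓞 K), 𝓔 V M →
      ∀ F : ℂ → ℂ, DifferentiableOn ℂ F {s : ℂ | σ₁ < s.re ∧ |s.im - t₀| < H} →
        (∀ s : ℂ, σ₁ < s.re → |s.im - t₀| < H → ‖F s‖ ≤ Real.exp V) →
        (∀ s : ℂ, 3 / 2 < s.re → |s.im - t₀| < H →
          F s = ∏' v : HeightOneSpectrum (𝓞 K), (locDen (M v) v s)⁻¹) →
        ∀ N : ℕ, 1 ≤ N →
        volume {t : ℝ | |t - t₀| < H ∧ ¬ ∃ Y : Finset ℂ, Y.card = N ∧ ∀ ρ ∈ Y,
            σ₁ < ρ.re ∧ |ρ.im - t| < h ∧ |ρ.im - t₀| < H ∧ F ρ = 0} ≤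
          ENNReal.ofReal (C * (N * (Real.log V + Real.log (Real.log H)) / Real.log H) ^ c * H)

/-- The core in the final form. -/
def CoreU (h : ℝ) : Prop := CoreZ h (fun V T N => N * (Real.log V + Real.log (Real.log T)))

/-- **The uniform theorem**, from the core. -/
theorem finU2 (h : ℝ) (hh : 0 < h) (h5 : CoreU h) (K : Type) [Field K] [NumberField K] :
    WindowsU h K (FewBad K) (1 / 2 + 1 / (4 * (Module.finrank ℚ K : ℝ))) ∧
    ∀ (N : Type) [Field N] [NumberField N] [IsGalois ℚ N] (g : N ≃ₐ[ℚ] N) (k : ℕ),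
      Nonempty (K →ₐ[ℚ] N) → Zg.Adm (Zg.perm (K := K) g) k →
      WindowsU h K (FewBad K) (1 / 2 + 1 / (2 * (k : ℝ))) :=
  ⟨(finZ h hh _ goodZ_M h5 K).1, fun N _ _ _ g k hne hA =>
    (finZ h hh _ goodZ_M h5 K).2 N g k hne hA⟩

/-- The hypothesis on `quo` in `S_CoreB` for the final quantity. -/
theorem quoU_ge : ∃ V₂ : ℝ, ∀ (V T : ℝ) (N : ℕ), V₂ ≤ V → V ≤ T → 1 ≤ N →
    Real.log V ≤ (fun (V T : ℝ) (N : ℕ) =>
      (N : ℝ) * (Real.log V + Real.log (Real.log T))) V T N := by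
  refine ⟨3, fun V T N hV hT hN => ?_⟩
  have hN' : (1 : ℝ) ≤ N := by exact_mod_cast hN
  have h1 : (1 : ℝ) ≤ Real.log V := by
    rw [Real.le_log_iff_exp_le (by linarith)]
    have := Real.exp_one_lt_d9
    linarith
  have h2 : Real.log V ≤ Real.log T := Real.log_le_log (by linarith) hT
  have h3 : 0 ≤ Real.log (Real.log T) := Real.log_nonneg (by linarith)
  show Real.log V ≤ (N : ℝ) * (Real.log V + Real.log (Real.log T))
  have h4 : Real.log V + Real.log (Real.log T) ≤ N * (Real.log V + Real.log (Real.log T)) :=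
    le_mul_of_one_le_left (by linarith) hN'
  linarith

/-- The final form from the core theorem and the detector. -/
theorem finUOf (hcore : S_CoreB)
    (hdet : DetZ (fun V T N => N * (Real.log V + Real.log (Real.log T))))
    (h : ℝ) (hh : 0 < h) (K : Type) [Field K] [NumberField K] :
    WindowsU h K (FewBad K) (1 / 2 + 1 / (4 * (Module.finrank ℚ K : ℝ))) ∧
    ∀ (N : Type) [Field N] [NumberField N] [IsGalois ℚ N] (g : N ≃ₐ[ℚ] N) (k : ℕ),
      Nonempty (K →ₐ[ℚ] N) → Zg.Adm (Zg.perm (K := K) g) k →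
      WindowsU h K (FewBad K) (1 / 2 + 1 / (2 * (k : ℝ))) := by
  obtain ⟨V₂, hV⟩ := quoU_ge
  exact finU2 h hh (hcore _ V₂ hV hdet h hh) K

end MP7ed9c3.Tp
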