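import Pool.Agent.Lib.MP_7ed9c3_nt.Tp.SpecB

/-!
# MP_7ed9c3_nt, project TP: choice of the scales, numbers
-/

set_option autoImplicit false

namespace MP7ed9c3.Tp

open NumberField IsDedekindDomain Filter Topology MeasureTheory Metric
open MP7ed9c3.Aw

private lemma NumC_le {m K : ℕ} (hK : 2 ≤ K) (i : ℕ) : (m : ℝ) ≤ ((m * K ^ i : ℕ) : ℝ) := by
  exact_mod_cast Nat.le_mul_of_pos_right m (pow_pos (by omega) i)

private lemma NumC_c1 {β δ : ℝ} {m K : ℕ} (hβ : 0 < β) (hδ : 0 < δ) (hK : 2 ≤ K)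
    (hKδ : 2 * β ≤ δ * K) (hm1 : 1 ≤ β * m) (i : ℕ) :
    (Mb β m K i : ℝ) ≤ Real.exp (δ * ((m * K ^ i : ℕ) : ℝ)) := by
  cases i with
  | zero =>
    simp only [Mb, Nat.cast_one]
    exact Real.one_le_exp (by positivity)
  | succ j =>
    simp only [Mb]
    have h1 : (⌈Real.exp (β * ((m * K ^ j : ℕ) : ℝ))⌉₊ : ℝ) ≤
        Real.exp (β * ((m * K ^ j : ℕ) : ℝ)) + 1 := (Nat.ceil_lt_add_one (Real.exp_pos _).le).le
    have h2 : ((m * K ^ (j + 1) : ℕ) : ℝ) = ((m * K ^ j : ℕ) : ℝ) * K := by push_cast; ring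
    rw [h2]
    have hxm := NumC_le (m := m) hK j
    generalize ((m * K ^ j : ℕ) : ℝ) = x at h1 hxm ⊢
    have h3 : 1 ≤ β * x := hm1.trans (mul_le_mul_of_nonneg_left hxm hβ.le)
    have hx0 : 0 ≤ x := by
      by_contra hx
      push Not at hx
      have : β * x ≤ 0 := mul_nonpos_of_nonneg_of_nonpos hβ.le hx.le
      linarith
    have h5 : β * x + β * x ≤ δ * (x * K) := by
      have := mul_le_mul_of_nonneg_right hKδ hx0
      nlinarith
    have h4 : Real.exp (β * x) + 1 ≤ Real.exp (δ * (x * K)) := by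
      calc Real.exp (β * x) + 1 ≤ Real.exp (β * x) * Real.exp (β * x) := by
            nlinarith [Real.add_one_le_exp (β * x)]
        _ = Real.exp (β * x + β * x) := (Real.exp_add _ _).symm
        _ ≤ _ := Real.exp_le_exp.2 h5
    linarith

private lemma NumC_c3 {β : ℝ} {m K : ℕ} (hβ : 0 < β) (hK : 2 ≤ K) (hm : 1 ≤ m) (i : ℕ) :
    (Mb β m K (i + 1) : ℝ) ≤ Real.exp ((β + 1) * ((m * K ^ i : ℕ) : ℝ)) := by
  simp only [Mb]
  have h1 : (⌈Real.exp (β * ((m * K ^ i : ℕ) : ℝ))⌉₊ : ℝ) ≤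
      Real.exp (β * ((m * K ^ i : ℕ) : ℝ)) + 1 := (Nat.ceil_lt_add_one (Real.exp_pos _).le).le
  have hxm := NumC_le (m := m) hK i
  have hm' : (1 : ℝ) ≤ m := by exact_mod_cast hm
  generalize ((m * K ^ i : ℕ) : ℝ) = x at h1 hxm ⊢
  have hx1 : 1 ≤ x := hm'.trans hxm
  have e1 : 1 ≤ Real.exp (β * x) := Real.one_le_exp (by positivity)
  have e2 : 2 ≤ Real.exp x := by linarith [Real.add_one_le_exp x]
  rw [show (β + 1) * x = β * x + x by ring, Real.exp_add]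
  nlinarith

private lemma NumC_c4 {β : ℝ} {m K : ℕ} (hβ : 0 < β) (hK : 2 ≤ K) (hm1 : 1 ≤ β * m) (i : ℕ) :
    Mb β m K i < Mb β m K (i + 1) := by
  cases i with
  | zero =>
    simp only [Mb]
    rw [Nat.lt_ceil]
    have : 0 < β * ((m * K ^ 0 : ℕ) : ℝ) := by
      rw [pow_zero, mul_one]; linarith
    simpa using this
  | succ j =>
    simp only [Mb]
    rw [Nat.lt_ceil]
    have h1 : (⌈Real.exp (β * ((m * K ^ j : ℕ) : ℝ))⌉₊ : ℝ) <
        Real.exp (β * ((m * K ^ j : ℕ) : ℝ)) + 1 := Nat.ceil_lt_add_one (Real.exp_pos _).le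
    have h2 : ((m * K ^ (j + 1) : ℕ) : ℝ) = ((m * K ^ j : ℕ) : ℝ) * K := by push_cast; ring
    rw [h2]
    have hK' : (2 : ℝ) ≤ K := by exact_mod_cast hK
    have hxm := NumC_le (m := m) hK j
    generalize ((m * K ^ j : ℕ) : ℝ) = x at h1 hxm ⊢
    have h3 : 1 ≤ β * x := hm1.trans (mul_le_mul_of_nonneg_left hxm hβ.le)
    have h5 : β * x + β * x ≤ β * (x * K) := by nlinarith
    have h4 : Real.exp (β * x) + 1 ≤ Real.exp (β * (x * K)) := by
      calc Real.exp (β * x) + 1 ≤ Real.exp (β * x) * Real.exp (β * x) := by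
            nlinarith [Real.add_one_le_exp (β * x)]
        _ = Real.exp (β * x + β * x) := (Real.exp_add _ _).symm
        _ ≤ _ := Real.exp_le_exp.2 h5
    linarith

private lemma NumC_sum {m K : ℕ} (hK : 2 ≤ K) (I : ℕ) :
    ∑ i ∈ Finset.range I, ((m * K ^ i : ℕ) : ℝ) ≤ ((m * K ^ I : ℕ) : ℝ) := by
  induction I with
  | zero => simp
  | succ I ih =>
    rw [Finset.sum_range_succ]
    have h2 : ((m * K ^ (I + 1) : ℕ) : ℝ) = ((m * K ^ I : ℕ) : ℝ) * K := by push_cast; ring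
    rw [h2]
    have hK' : (2 : ℝ) ≤ K := by exact_mod_cast hK
    have h0 : (0 : ℝ) ≤ ((m * K ^ I : ℕ) : ℝ) := Nat.cast_nonneg _
    nlinarith

private lemma NumC_prod {β : ℝ} {m K : ℕ} (hβ : 0 < β) (hK : 2 ≤ K) (hm : 1 ≤ m) (I : ℕ) :
    ∏ i ∈ Finset.range I, (4 * (Mb β m K (i + 1) : ℝ)) ^ 4 ≤
      Real.exp (4 * (β + 3) * ((m * K ^ I : ℕ) : ℝ)) := by
  have h1 : ∏ i ∈ Finset.range I, (4 * (Mb β m K (i + 1) : ℝ)) ^ 4 ≤
      ∏ i ∈ Finset.range I, Real.exp (4 * (β + 3) * ((m * K ^ i : ℕ) : ℝ)) := by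
    refine Finset.prod_le_prod (fun i _ => by positivity) (fun i _ => ?_)
    have h3 := NumC_c3 hβ hK hm i
    have hxm := NumC_le (m := m) hK i
    have hm' : (1 : ℝ) ≤ m := by exact_mod_cast hm
    generalize ((m * K ^ i : ℕ) : ℝ) = x at h3 hxm ⊢
    have hx1 : 1 ≤ x := hm'.trans hxm
    have e1 : 4 * (Mb β m K (i + 1) : ℝ) ≤ Real.exp ((β + 3) * x) := by
      have e2 : 2 ≤ Real.exp x := by linarith [Real.add_one_le_exp x]
      have e3 : 4 ≤ Real.exp (2 * x) := by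
        rw [two_mul, Real.exp_add]; nlinarith
      calc 4 * (Mb β m K (i + 1) : ℝ) ≤ Real.exp (2 * x) * Real.exp ((β + 1) * x) :=
            mul_le_mul e3 h3 (Nat.cast_nonneg _) (Real.exp_pos _).le
        _ = Real.exp ((β + 3) * x) := by rw [← Real.exp_add]; congr 1; ring
    calc (4 * (Mb β m K (i + 1) : ℝ)) ^ 4 ≤ (Real.exp ((β + 3) * x)) ^ 4 :=
          pow_le_pow_left₀ (by positivity) e1 4
      _ = Real.exp (4 * (β + 3) * x) := by
          rw [← Real.exp_nat_mul]; congr 1; push_cast; ring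
  refine h1.trans ?_
  rw [← Real.exp_sum, ← Finset.mul_sum]
  exact Real.exp_le_exp.2 (mul_le_mul_of_nonneg_left (NumC_sum hK I) (by positivity))

private lemma NumC_inv {m K : ℕ} (hK : 2 ≤ K) (hm : 1 ≤ m) (a : ℝ) (ha : 0 ≤ a) (I : ℕ) :
    ∑ i ∈ Finset.range I, a / ((m * K ^ i : ℕ) : ℝ) ≤ 2 * a / m := by
  have hm' : (1 : ℝ) ≤ m := by exact_mod_cast hm
  have hK' : (2 : ℝ) ≤ K := by exact_mod_cast hK
  have h1 : ∑ i ∈ Finset.range I, a / ((m * K ^ i : ℕ) : ℝ) ≤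
      ∑ i ∈ Finset.range I, (a / m) * (1 / (2 : ℝ)) ^ i := by
    refine Finset.sum_le_sum (fun i _ => ?_)
    have h2 : (2 : ℝ) ^ i ≤ (K : ℝ) ^ i := pow_le_pow_left₀ (by norm_num) hK' i
    have h3 : (0 : ℝ) < 2 ^ i := by positivity
    have h4 : (0 : ℝ) < m := by linarith
    calc a / ((m * K ^ i : ℕ) : ℝ) = a / (m * (K : ℝ) ^ i) := by push_cast; rfl
      _ ≤ a / (m * (2 : ℝ) ^ i) := by
          apply div_le_div_of_nonneg_left ha (by positivity)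
          exact mul_le_mul_of_nonneg_left h2 h4.le
      _ = (a / m) * (1 / (2 : ℝ)) ^ i := by
          rw [one_div, inv_pow]; field_simp
  refine h1.trans ?_
  rw [← Finset.mul_sum]
  have h5 := sum_geometric_two_le I
  have h6 : 0 ≤ a / m := by positivity
  calc (a / m) * ∑ i ∈ Finset.range I, (1 / (2 : ℝ)) ^ i ≤ (a / m) * 2 :=
        mul_le_mul_of_nonneg_left h5 h6
    _ = 2 * a / m := by ring

private lemma NumC_log {β : ℝ} {m K : ℕ} (hβ : 0 < β) (hK : 2 ≤ K) (hm : 1 ≤ m) (j : ℕ) :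
    (Nat.log 2 (Mb β m K (j + 1)) : ℝ) ≤ 2 * (β + 1) * ((m * K ^ j : ℕ) : ℝ) := by
  have h3 := NumC_c3 hβ hK hm j
  have hpos : Mb β m K (j + 1) ≠ 0 := by
    simp only [Mb]
    exact (Nat.ceil_pos.2 (Real.exp_pos _)).ne'
  have h1 : (2 : ℝ) ^ Nat.log 2 (Mb β m K (j + 1)) ≤ Mb β m K (j + 1) := by
    exact_mod_cast Nat.pow_log_le_self 2 hpos
  have h2 := Real.log_le_log (by positivity) (h1.trans h3)
  rw [Real.log_pow, Real.log_exp] at h2
  have hl : (1 / 2 : ℝ) ≤ Real.log 2 := by linarith [Real.log_two_gt_d9]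
  have h0 : (0 : ℝ) ≤ Nat.log 2 (Mb β m K (j + 1)) := Nat.cast_nonneg _
  nlinarith

/-- large values -/
private lemma NumC_ev (a h : ℝ) (A' : ℕ) (ha : 0 < a) :
    ∃ l₀ : ℝ, ∀ l : ℝ, l₀ ≤ l → 1 ≤ l ∧ Real.exp (-(a * Real.sqrt l)) * l ^ 2 ≤ 1 / 10 ∧
      2 * Real.exp (l / 4) * l ≤ Real.exp l ∧ 4 * h * l ≤ Real.exp l ∧
      (8 * ((A' : ℝ) + 1)) ^ 4 ≤ l := by
  have e1 : ∀ᶠ l : ℝ in atTop, 1 ≤ l := eventually_ge_atTop 1
  have e5 : ∀ᶠ l : ℝ in atTop, (8 * ((A' : ℝ) + 1)) ^ 4 ≤ l := eventually_ge_atTop _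
  have e2 : ∀ᶠ l : ℝ in atTop, Real.exp (-(a * Real.sqrt l)) * l ^ 2 ≤ 1 / 10 := by
    have t1 : Tendsto (fun x : ℝ => x ^ (4 : ℝ) * Real.exp (-a * x)) atTop (𝓝 0) :=
      tendsto_rpow_mul_exp_neg_mul_atTop_nhds_zero 4 a ha
    have t2 : ∀ᶠ x : ℝ in atTop, x ^ (4 : ℝ) * Real.exp (-a * x) ≤ 1 / 10 :=
      (t1.eventually (eventually_le_nhds (by norm_num : (0 : ℝ) < 1 / 10)))
    have t3 := Real.tendsto_sqrt_atTop.eventually t2
    filter_upwards [t3, e1] with l hl hl1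
    have : Real.sqrt l ^ (4 : ℝ) = l ^ 2 := by
      rw [show (4 : ℝ) = ((4 : ℕ) : ℝ) by norm_num, Real.rpow_natCast,
        show Real.sqrt l ^ 4 = (Real.sqrt l ^ 2) ^ 2 by ring, Real.sq_sqrt (by linarith)]
    rw [this] at hl
    rw [mul_comm, show -(a * Real.sqrt l) = -a * Real.sqrt l by ring]
    exact hl
  have e3 : ∀ᶠ l : ℝ in atTop, 2 * Real.exp (l / 4) * l ≤ Real.exp l := by
    filter_upwards [eventually_ge_atTop (16 : ℝ)] with l hl
    have h1 : Real.exp l = Real.exp (l / 4) * (Real.exp (l / 4) * Real.exp (l / 4) *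
        Real.exp (l / 4)) := by
      rw [← Real.exp_add, ← Real.exp_add, ← Real.exp_add]; congr 1; ring
    have h2 : l / 4 + 1 ≤ Real.exp (l / 4) := Real.add_one_le_exp _
    rw [h1]
    have h3 : 0 < Real.exp (l / 4) := Real.exp_pos _
    have h4 : 2 * l ≤ Real.exp (l / 4) * Real.exp (l / 4) * Real.exp (l / 4) := by
      have h5 : (l / 4) * (l / 4) ≤ Real.exp (l / 4) * Real.exp (l / 4) := by nlinarith
      have h6 : (l / 4) * (l / 4) * 4 ≤ Real.exp (l / 4) * Real.exp (l / 4) * Real.exp (l / 4) :=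
        mul_le_mul h5 (by linarith) (by norm_num) (by positivity)
      nlinarith
    calc 2 * Real.exp (l / 4) * l = Real.exp (l / 4) * (2 * l) := by ring
      _ ≤ _ := mul_le_mul_of_nonneg_left h4 h3.le
  have e4 : ∀ᶠ l : ℝ in atTop, 4 * h * l ≤ Real.exp l := by
    filter_upwards [eventually_ge_atTop (max 1 (16 * |h|))] with l hl
    have hl1 : 1 ≤ l := (le_max_left _ _).trans hl
    have hl2 : 16 * |h| ≤ l := (le_max_right _ _).trans hl
    have h2 : l / 2 + 1 ≤ Real.exp (l / 2) := Real.add_one_le_exp _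
    have h1 : Real.exp l = Real.exp (l / 2) * Real.exp (l / 2) := by
      rw [← Real.exp_add]; congr 1; ring
    have h3 : h ≤ |h| := le_abs_self h
    rw [h1]
    nlinarith
  obtain ⟨l₀, hl₀⟩ := eventually_atTop.1 (e1.and (e2.and (e3.and (e4.and e5))))
  exact ⟨l₀, fun l hl => hl₀ l hl⟩

theorem tNumC : S_NumC := by
  intro δ β θ h C₃ A' m₀ hδ hβ hθ hθ1 hh hC₃
  -- constants
  obtain ⟨K, hK2, hKδ⟩ : ∃ K : ℕ, 2 ≤ K ∧ 2 * β ≤ δ * K := by
    refine ⟨⌈2 * β / δ⌉₊ + 2, by omega, ?_⟩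
    have h1 : 2 * β / δ ≤ (⌈2 * β / δ⌉₊ : ℝ) := Nat.le_ceil _
    have h2 : 2 * β ≤ (⌈2 * β / δ⌉₊ : ℝ) * δ := (div_le_iff₀ hδ).1 h1
    push_cast
    nlinarith
  have hK2' : (2 : ℝ) ≤ K := by exact_mod_cast hK2
  obtain ⟨C', hC'1, hC'm, hC'C, hC'3, hC'β⟩ : ∃ C' : ℝ, 1 ≤ C' ∧ (m₀ : ℝ) ≤ C' ∧ C₃ ≤ C' ∧
      3 ≤ C' ∧ 1 ≤ β * C' := by
    refine ⟨C₃ + m₀ + 3 + 1 / β, ?_, ?_, ?_, ?_, ?_⟩
    · have : 0 < 1 / β := by positivity
      have : (0 : ℝ) ≤ m₀ := Nat.cast_nonneg _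
      linarith
    · have : 0 < 1 / β := by positivity
      linarith
    · have : 0 < 1 / β := by positivity
      have : (0 : ℝ) ≤ m₀ := Nat.cast_nonneg _
      linarith
    · have : 0 < 1 / β := by positivity
      have : (0 : ℝ) ≤ m₀ := Nat.cast_nonneg _
      linarith
    · have h1 : β * (1 / β) = 1 := by field_simp
      have h2 : 0 ≤ β * (C₃ + m₀ + 3) := by positivity
      nlinarith
  have hc7 : 0 < 1 / (16 * (β + 3)) := by positivity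
  obtain ⟨c₇, hc₇0, hc₇1, hc₇e⟩ : ∃ c₇ : ℝ, 0 < c₇ ∧ c₇ ≤ 1 ∧ 16 * (β + 3) * c₇ = 1 := by
    refine ⟨1 / (16 * (β + 3)), hc7, ?_, by field_simp⟩
    rw [div_le_one (by positivity)]
    linarith
  obtain ⟨g, hg0, hg1, hgs⟩ : ∃ g : ℝ, 0 < g ∧ g ≤ 1 ∧ 2 * C' * Real.sqrt g * K ≤ c₇ := by
    refine ⟨(c₇ / (2 * C' * K)) ^ 2, by positivity, ?_, ?_⟩
    · have h1 : c₇ / (2 * C' * K) ≤ 1 := by
        rw [div_le_one (by positivity)]
        have h2 : (1 : ℝ) * 1 ≤ C' * K := mul_le_mul hC'1 (by linarith) zero_le_one (by linarith)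
        linarith
      exact pow_le_one₀ (by positivity) h1
    · rw [Real.sqrt_sq (by positivity)]
      apply le_of_eq
      field_simp
  have h2c : 2 * (β + 1) * c₇ ≤ 1 := by
    have h : 2 * (β + 1) * c₇ ≤ 16 * (β + 3) * c₇ :=
      mul_le_mul_of_nonneg_right (by linarith) hc₇0.le
    rw [hc₇e] at h
    exact h
  -- exponents
  have hlK : 0 < Real.log K := Real.log_pos (by linarith)
  have hl9 : 0 < Real.log (10 / 9) := Real.log_pos (by norm_num)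
  obtain ⟨c₂, hc₂0, hc₂1, hc₂e⟩ : ∃ c₂ : ℝ, 0 < c₂ ∧ c₂ ≤ 1 ∧ c₂ * Real.log K = Real.log (10 / 9) := by
    refine ⟨Real.log (10 / 9) / Real.log K, by positivity, ?_, by field_simp⟩
    rw [div_le_one hlK]
    exact Real.log_le_log (by norm_num) (by linarith)
  obtain ⟨l₀, hl₀⟩ := NumC_ev (-Real.log θ) h A' (by
    have := Real.log_neg hθ hθ1
    linarith)
  refine ⟨K, max 1 (max (2 / g) ((10 / 9) * (2 * C' / c₇) ^ c₂)), c₂ / 2,
    max 3 (Real.exp l₀), hK2, le_max_left _ _, by positivity, by linarith, le_max_left _ _, ?_⟩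
  intro V T Qu hV hVT hQ
  have hV3 : 3 ≤ V := (le_max_left _ _).trans hV
  have hT3 : 3 ≤ T := hV3.trans hVT
  have hT0 : 0 < T := by linarith
  have hTl : l₀ ≤ Real.log T := by
    rw [Real.le_log_iff_exp_le hT0]
    exact ((le_max_right _ _).trans hV).trans hVT
  obtain ⟨hl1, hE2, hE3, hE4, hE5⟩ := hl₀ (Real.log T) hTl
  have hexpT : Real.exp (Real.log T) = T := Real.exp_log hT0
  rw [hexpT] at hE3 hE4
  have hlV : 1 ≤ Real.log V := by
    rw [Real.le_log_iff_exp_le (by linarith)]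
    linarith [Real.exp_one_lt_d9]
  have hQ1 : 1 ≤ Qu := hlV.trans hQ
  have hEg : 2 / g ≤ max 1 (max (2 / g) ((10 / 9) * (2 * C' / c₇) ^ c₂)) :=
    (le_max_left _ _).trans (le_max_right _ _)
  have hEm : (10 / 9) * (2 * C' / c₇) ^ c₂ ≤
      max 1 (max (2 / g) ((10 / 9) * (2 * C' / c₇) ^ c₂)) :=
    (le_max_right _ _).trans (le_max_right _ _)
  generalize max 1 (max (2 / g) ((10 / 9) * (2 * C' / c₇) ^ c₂)) = E at hEg hEm ⊢
  generalize hl : Real.log T = l at *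
  have hl0 : 0 < l := by linarith
  have hr0 : 0 ≤ Qu / l := by positivity
  rcases lt_or_ge (g * l) Qu with hcase | hcase
  · left
    have h1 : g ≤ Qu / l := by
      rw [le_div_iff₀ hl0]; exact hcase.le
    have h2 : g ≤ g ^ (c₂ / 2) := by
      conv_lhs => rw [← Real.rpow_one g]
      exact Real.rpow_le_rpow_of_exponent_ge hg0 hg1 (by linarith)
    have h3 : g ^ (c₂ / 2) ≤ (Qu / l) ^ (c₂ / 2) := Real.rpow_le_rpow hg0.le h1 (by positivity)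
    have h4 : (2 / g) * g ≤ E * (Qu / l) ^ (c₂ / 2) :=
      mul_le_mul hEg (h2.trans h3) hg0.le (le_trans (by positivity) hEg)
    have h5 : (2 / g) * g = 2 := by field_simp
    linarith
  right
  -- the scale
  have hQl : Qu ≤ l := hcase.trans (mul_le_of_le_one_left hl0.le hg1)
  obtain ⟨s, hs0, hsQ, hsl, hs1, hsg, hss⟩ : ∃ s : ℝ, 0 ≤ s ∧ Qu ≤ s ∧ Real.sqrt l ≤ s ∧ 1 ≤ s ∧
      s ≤ Real.sqrt g * l ∧ s = Real.sqrt (Qu / l) * l := by
    refine ⟨Real.sqrt (Qu * l), Real.sqrt_nonneg _, ?_, ?_, ?_, ?_, ?_⟩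
    · apply Real.le_sqrt_of_sq_le
      rw [sq]
      exact mul_le_mul_of_nonneg_left hQl (zero_le_one.trans hQ1)
    · exact Real.sqrt_le_sqrt (le_mul_of_one_le_left hl0.le hQ1)
    · rw [Real.one_le_sqrt]
      calc (1 : ℝ) = 1 * 1 := (one_mul 1).symm
        _ ≤ Qu * l := mul_le_mul hQ1 hl1 zero_le_one (zero_le_one.trans hQ1)
    · have h1 : Qu * l ≤ g * l ^ 2 := by
        calc Qu * l ≤ (g * l) * l := mul_le_mul_of_nonneg_right hcase hl0.le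
          _ = g * l ^ 2 := by ring
      calc Real.sqrt (Qu * l) ≤ Real.sqrt (g * l ^ 2) := Real.sqrt_le_sqrt h1
        _ = Real.sqrt g * l := by rw [Real.sqrt_mul hg0.le, Real.sqrt_sq hl0.le]
    · have h1 : Qu * l = (Qu / l) * l ^ 2 := by field_simp
      rw [h1, Real.sqrt_mul hr0, Real.sqrt_sq hl0.le]
  obtain ⟨m, hmY, hm2⟩ : ∃ m : ℕ, C' * s ≤ m ∧ (m : ℝ) ≤ 2 * (C' * s) := by
    refine ⟨⌈C' * s⌉₊, Nat.le_ceil _, ?_⟩
    have h1 : (⌈C' * s⌉₊ : ℝ) < C' * s + 1 := Nat.ceil_lt_add_one (by positivity)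
    have h2 : 1 * 1 ≤ C' * s := mul_le_mul hC'1 hs1 zero_le_one (zero_le_one.trans hC'1)
    rw [one_mul] at h2
    calc (⌈C' * s⌉₊ : ℝ) ≤ C' * s + 1 := h1.le
      _ ≤ C' * s + C' * s := add_le_add_right h2 _
      _ = 2 * (C' * s) := (two_mul _).symm
  have hC'0 : 0 ≤ C' := zero_le_one.trans hC'1
  have hmC : C' ≤ m := (le_mul_of_one_le_right hC'0 hs1).trans hmY
  have hm1 : (1 : ℝ) ≤ m := hC'1.trans hmC
  have hm1' : 1 ≤ m := by exact_mod_cast hm1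
  have hm0 : (0 : ℝ) < m := by linarith
  have hmβ : 1 ≤ β * m := hC'β.trans (mul_le_mul_of_nonneg_left hmC hβ.le)
  have hmK : (m : ℝ) * K ≤ c₇ * l := by
    have h1 : (m : ℝ) ≤ 2 * C' * Real.sqrt g * l := by
      have h2 : C' * s ≤ C' * (Real.sqrt g * l) := mul_le_mul_of_nonneg_left hsg hC'0
      calc (m : ℝ) ≤ 2 * (C' * s) := hm2
        _ ≤ 2 * (C' * (Real.sqrt g * l)) := mul_le_mul_of_nonneg_left h2 zero_le_two
        _ = _ := by ring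
    calc (m : ℝ) * K ≤ (2 * C' * Real.sqrt g * l) * K :=
          mul_le_mul_of_nonneg_right h1 (Nat.cast_nonneg K)
      _ = (2 * C' * Real.sqrt g * K) * l := by ring
      _ ≤ c₇ * l := mul_le_mul_of_nonneg_right hgs hl0.le
  -- the number of scales
  obtain ⟨I, hI1, hIle, hIgt⟩ : ∃ I : ℕ, 1 ≤ I ∧ (m : ℝ) * (K : ℝ) ^ I ≤ c₇ * l ∧
      c₇ * l < m * (K : ℝ) ^ (I + 1) := by
    have hx : K ≤ ⌊c₇ * l / m⌋₊ := by
      apply Nat.le_floor
      rw [le_div_iff₀ hm0]; linarith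
    have hx0 : ⌊c₇ * l / m⌋₊ ≠ 0 := by omega
    refine ⟨Nat.log K ⌊c₇ * l / m⌋₊, Nat.log_pos (by omega) hx, ?_, ?_⟩
    · have h1 : (K : ℝ) ^ Nat.log K ⌊c₇ * l / m⌋₊ ≤ (⌊c₇ * l / m⌋₊ : ℝ) := by
        exact_mod_cast Nat.pow_log_le_self K hx0
      have h2 : (⌊c₇ * l / m⌋₊ : ℝ) ≤ c₇ * l / m := Nat.floor_le (by positivity)
      have h3 := (le_div_iff₀ hm0).1 (h1.trans h2)
      linarith
    · have h1 : (⌊c₇ * l / m⌋₊ : ℝ) + 1 ≤ (K : ℝ) ^ (Nat.log K ⌊c₇ * l / m⌋₊ + 1) := by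
        exact_mod_cast Nat.lt_pow_succ_log_self (by omega) ⌊c₇ * l / m⌋₊
      have h2 : c₇ * l / m < (⌊c₇ * l / m⌋₊ : ℝ) + 1 := Nat.lt_floor_add_one _
      have h3 := (div_lt_iff₀ hm0).1 (h2.trans_le h1)
      linarith
  have hcast : ∀ i : ℕ, ((m * K ^ i : ℕ) : ℝ) = m * (K : ℝ) ^ i := fun i => by push_cast; ring
  have hmI : ∀ i : ℕ, i ≤ I → ((m * K ^ i : ℕ) : ℝ) ≤ c₇ * l := by
    intro i hi
    rw [hcast]
    refine le_trans (mul_le_mul_of_nonneg_left ?_ hm0.le) hIle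
    exact pow_le_pow_right₀ (by linarith) hi
  have hc₇l : c₇ * l ≤ l := mul_le_of_le_one_left hl0.le hc₇1
  -- the power of 9/10
  have ha0 : (0 : ℝ) < (9 / 10) ^ I := by positivity
  have hinv : ((10 : ℝ) / 9) ^ I * (9 / 10) ^ I = 1 := by
    rw [← mul_pow]; norm_num
  have hp4 : (((10 : ℝ) / 9) ^ I) ^ 4 ≤ l := by
    calc (((10 : ℝ) / 9) ^ I) ^ 4 = (((10 : ℝ) / 9) ^ 4) ^ I := by rw [← pow_mul, ← pow_mul, mul_comm]
      _ ≤ (K : ℝ) ^ I := pow_le_pow_left₀ (by positivity) (le_trans (by norm_num) hK2') I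
      _ ≤ m * (K : ℝ) ^ I := le_mul_of_one_le_left (by positivity) hm1
      _ ≤ l := hIle.trans hc₇l
  have hp1 : (1 : ℝ) ≤ ((10 : ℝ) / 9) ^ I := one_le_pow₀ (by norm_num)
  have hpl : ((10 : ℝ) / 9) ^ I ≤ l := by
    refine le_trans ?_ hp4
    exact le_self_pow₀ hp1 (by norm_num)
  have hal : 1 ≤ (9 / 10 : ℝ) ^ I * l := by
    calc (1 : ℝ) = (9 / 10) ^ I * ((10 : ℝ) / 9) ^ I := by rw [mul_comm]; exact hinv.symm
      _ ≤ _ := mul_le_mul_of_nonneg_left hpl ha0.le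
  have hT1 : ∀ x : ℝ, x * l ≤ T → x ≤ (9 / 10) ^ I * T := by
    intro x hx
    rcases le_or_gt x 0 with h0 | h0
    · exact h0.trans (by positivity)
    · calc x = x * 1 := by ring
        _ ≤ x * ((9 / 10) ^ I * l) := mul_le_mul_of_nonneg_left hal h0.le
        _ = (9 / 10) ^ I * (x * l) := by ring
        _ ≤ _ := mul_le_mul_of_nonneg_left hx ha0.le
  refine ⟨I, m, hI1, hm1', ?_, ?_, ?_, ?_, ?_, ?_, ?_, ?_, ?_, ?_⟩
  · exact_mod_cast hC'm.trans hmC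
  · calc C₃ * Qu ≤ C' * s := mul_le_mul hC'C hsQ (zero_le_one.trans hQ1) hC'0
      _ ≤ m := hmY
  · have h1 : V ^ 2 = Real.exp (2 * Real.log V) := by
      rw [two_mul, Real.exp_add, Real.exp_log (by linarith)]; ring
    rw [h1]
    refine Real.exp_le_exp.2 ?_
    have h2 : C' * Qu ≤ m := (mul_le_mul_of_nonneg_left hsQ hC'0).trans hmY
    calc 2 * Real.log V ≤ C' * Qu :=
          mul_le_mul (le_trans (by norm_num) hC'3) hQ (zero_le_one.trans hlV) hC'0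
      _ ≤ m := h2
  · exact (hmI I le_rfl).trans hc₇l
  · intro i hi
    refine ⟨NumC_c1 hβ hδ hK2 hKδ hmβ i, ?_, NumC_c3 hβ hK2 hm1' i, NumC_c4 hβ hK2 hmβ i, ?_⟩
    · simp only [Mb]
      exact Nat.le_ceil _
    · have h3 := NumC_c3 hβ hK2 hm1' i
      have h4 := hmI i hi.le
      have h5 : (Mb β m K (i + 1) : ℝ) ^ 2 ≤ (Real.exp ((β + 1) * ((m * K ^ i : ℕ) : ℝ))) ^ 2 :=
        pow_le_pow_left₀ (Nat.cast_nonneg _) h3 2
      refine h5.trans ?_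
      rw [← hexpT, ← Real.exp_nat_mul]
      refine Real.exp_le_exp.2 ?_
      push_cast at h4 ⊢
      have h6 : 2 * (β + 1) * c₇ ≤ 1 := h2c
      calc 2 * ((β + 1) * ((m : ℝ) * (K : ℝ) ^ i)) = 2 * (β + 1) * ((m : ℝ) * (K : ℝ) ^ i) := by ring
        _ ≤ 2 * (β + 1) * (c₇ * l) := mul_le_mul_of_nonneg_left h4 (by positivity)
        _ = (2 * (β + 1) * c₇) * l := by ring
        _ ≤ 1 * l := mul_le_mul_of_nonneg_right h6 hl0.le
        _ = l := one_mul l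
  · obtain ⟨j, rfl⟩ : ∃ j, I = j + 1 := ⟨I - 1, by omega⟩
    have h1 := NumC_log hβ hK2 hm1' j
    have h2 := hmI j (by omega)
    have h6 : 2 * (β + 1) * c₇ ≤ 1 := h2c
    have h3 : (Nat.log 2 (Mb β m K (j + 1)) : ℝ) ≤ l := by
      calc (Nat.log 2 (Mb β m K (j + 1)) : ℝ) ≤ 2 * (β + 1) * ((m * K ^ j : ℕ) : ℝ) := h1
        _ ≤ 2 * (β + 1) * (c₇ * l) := mul_le_mul_of_nonneg_left h2 (by positivity)
        _ = (2 * (β + 1) * c₇) * l := by ring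
        _ ≤ 1 * l := mul_le_mul_of_nonneg_right h6 hl0.le
        _ = l := one_mul l
    have h4 : (Nat.log 2 (Mb β m K (j + 1)) : ℝ) ^ 2 ≤ l ^ 2 :=
      pow_le_pow_left₀ (Nat.cast_nonneg _) h3 2
    have h5 : θ ^ m ≤ Real.exp (-(-Real.log θ * Real.sqrt l)) := by
      rw [show -(-Real.log θ * Real.sqrt l) = Real.log θ * Real.sqrt l by ring,
        ← Real.rpow_natCast θ m, Real.rpow_def_of_pos hθ]
      refine Real.exp_le_exp.2 (mul_le_mul_of_nonpos_left ?_ (Real.log_neg hθ hθ1).le)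
      exact hsl.trans ((le_mul_of_one_le_left hs0 hC'1).trans hmY)
    exact (mul_le_mul h5 h4 (by positivity) (Real.exp_pos _).le).trans hE2
  · have h1 := NumC_prod hβ hK2 hm1' I
    have h2 := hmI I le_rfl
    have h3 : 4 * (β + 3) * ((m * K ^ I : ℕ) : ℝ) ≤ l / 4 := by
      calc 4 * (β + 3) * ((m * K ^ I : ℕ) : ℝ) ≤ 4 * (β + 3) * (c₇ * l) :=
            mul_le_mul_of_nonneg_left h2 (by positivity)
        _ = (16 * (β + 3) * c₇) * l / 4 := by ring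
        _ = l / 4 := by rw [hc₇e, one_mul]
    have h4 := h1.trans (Real.exp_le_exp.2 h3)
    apply hT1
    calc 2 * (∏ i ∈ Finset.range I, (4 * (Mb β m K (i + 1) : ℝ)) ^ 4) * l
        ≤ 2 * Real.exp (l / 4) * l :=
          mul_le_mul_of_nonneg_right (mul_le_mul_of_nonneg_left h4 (by norm_num)) hl0.le
      _ ≤ T := hE3
  · have h1 := NumC_inv hK2 hm1' (4 * ((A' : ℝ) + 1) * T) (by positivity) I
    refine h1.trans ?_
    rw [div_le_iff₀ hm0]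
    have h2 : 8 * ((A' : ℝ) + 1) * ((10 : ℝ) / 9) ^ I ≤ m := by
      have h3 : (8 * ((A' : ℝ) + 1) * ((10 : ℝ) / 9) ^ I) ^ 4 ≤ (m : ℝ) ^ 4 := by
        have hsm : Real.sqrt l ≤ m := hsl.trans ((le_mul_of_one_le_left hs0 hC'1).trans hmY)
        calc (8 * ((A' : ℝ) + 1) * ((10 : ℝ) / 9) ^ I) ^ 4
            = (8 * ((A' : ℝ) + 1)) ^ 4 * (((10 : ℝ) / 9) ^ I) ^ 4 := by rw [mul_pow]
          _ ≤ l * l := mul_le_mul hE5 hp4 (by positivity) hl0.le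
          _ = (Real.sqrt l) ^ 4 := by
              rw [show Real.sqrt l ^ 4 = (Real.sqrt l ^ 2) ^ 2 by ring, Real.sq_sqrt hl0.le]; ring
          _ ≤ (m : ℝ) ^ 4 := pow_le_pow_left₀ (Real.sqrt_nonneg _) hsm 4
      exact (pow_le_pow_iff_left₀ (by positivity) hm0.le (by norm_num)).1 h3
    have h5 : 8 * ((A' : ℝ) + 1) ≤ (9 / 10) ^ I * m := by
      calc 8 * ((A' : ℝ) + 1) = (9 / 10) ^ I * (8 * ((A' : ℝ) + 1) * ((10 : ℝ) / 9) ^ I) := by
            rw [show (9 / 10 : ℝ) ^ I * (8 * ((A' : ℝ) + 1) * ((10 : ℝ) / 9) ^ I) =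
              8 * ((A' : ℝ) + 1) * (((10 : ℝ) / 9) ^ I * (9 / 10) ^ I) by ring, hinv, mul_one]
        _ ≤ _ := mul_le_mul_of_nonneg_left h2 ha0.le
    calc 2 * (4 * ((A' : ℝ) + 1) * T) = (8 * ((A' : ℝ) + 1)) * T := by ring
      _ ≤ ((9 / 10) ^ I * m) * T := mul_le_mul_of_nonneg_right h5 hT0.le
      _ = (9 / 10) ^ I * T * m := by ring
  · exact hT1 _ hE4
  · -- the last bound
    have hK0 : (0 : ℝ) < K := by linarith
    have h1 : (9 / 10 : ℝ) = (K : ℝ) ^ (-c₂) := by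
      rw [Real.rpow_def_of_pos hK0, show Real.log K * -c₂ = -(c₂ * Real.log K) by ring, hc₂e,
        Real.exp_neg, Real.exp_log (by norm_num)]
      norm_num
    have h2 : (9 / 10 : ℝ) ^ (I + 1) = ((K : ℝ) ^ (I + 1)) ^ (-c₂) := by
      rw [h1, ← Real.rpow_natCast, ← Real.rpow_mul hK0.le, ← Real.rpow_natCast (K : ℝ) (I + 1),
        ← Real.rpow_mul hK0.le, mul_comm]
    have h3 : c₇ * l / m ≤ (K : ℝ) ^ (I + 1) := by
      rw [div_le_iff₀ hm0]; linarith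
    have h4 : ((K : ℝ) ^ (I + 1)) ^ (-c₂) ≤ (c₇ * l / m) ^ (-c₂) :=
      Real.rpow_le_rpow_of_nonpos (by positivity) h3 (by linarith)
    have h5 : (c₇ * l / m) ^ (-c₂) = (m / (c₇ * l)) ^ c₂ := by
      rw [Real.rpow_neg (by positivity), ← Real.inv_rpow (by positivity), inv_div]
    have h6 : (m : ℝ) / (c₇ * l) ≤ (2 * C' / c₇) * Real.sqrt (Qu / l) := by
      rw [div_le_iff₀ (by positivity)]
      calc (m : ℝ) ≤ 2 * (C' * s) := hm2
        _ = (2 * C' / c₇) * Real.sqrt (Qu / l) * (c₇ * l) := by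
            rw [hss]; field_simp
    have h7 : (m / (c₇ * l)) ^ c₂ ≤ (2 * C' / c₇) ^ c₂ * (Qu / l) ^ (c₂ / 2) := by
      refine (Real.rpow_le_rpow (by positivity) h6 hc₂0.le).trans (le_of_eq ?_)
      rw [Real.mul_rpow (by positivity) (Real.sqrt_nonneg _), Real.sqrt_eq_rpow,
        ← Real.rpow_mul hr0]
      congr 2
      ring
    have h8 : (9 / 10 : ℝ) ^ I = (10 / 9) * (9 / 10) ^ (I + 1) := by
      rw [pow_succ]; ring
    rw [h8, h2]
    calc (10 / 9 : ℝ) * ((K : ℝ) ^ (I + 1)) ^ (-c₂)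
        ≤ (10 / 9) * ((2 * C' / c₇) ^ c₂ * (Qu / l) ^ (c₂ / 2)) :=
          mul_le_mul_of_nonneg_left ((h4.trans h5.le).trans h7) (by norm_num)
      _ = ((10 / 9) * (2 * C' / c₇) ^ c₂) * (Qu / l) ^ (c₂ / 2) := by ring
      _ ≤ E * (Qu / l) ^ (c₂ / 2) := mul_le_mul_of_nonneg_right hEm (by positivity)

end MP7ed9c3.Tp
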