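import Pool.Agent.Lib.MP_7ed9c3_nt.Tp.SpecB

/-!
# MP_7ed9c3_nt, project TP: the numbers outside the block

A function supported on prime powers, with values in `[0, B]`: the prime powers of `Ioc M₀ M₁` outside `blk M₀ M₁` are
powers of primes at most `M₀`, so there are at most `M₀ (Nat.log 2 M₁)` of them.
-/

set_option autoImplicit false

namespace MP7ed9c3.Tp

open NumberField IsDedekindDomain Filter Topology MeasureTheory Metric
open MP7ed9c3.Aw

/-- The number of the powers of one prime. -/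
private theorem Rem_fib (S : Finset ℕ) (M p : ℕ) (hS : ∀ m ∈ S, IsPrimePow m ∧ m ≤ M) :
    (S.filter fun n => n.minFac = p).card ≤ Nat.log 2 M := by
  have key : ∀ n ∈ S.filter (fun n => n.minFac = p), p ^ n.factorization p = n := by
    intro n hn
    rw [Finset.mem_filter] at hn
    have h := (hS n hn.1).1.minFac_pow_factorization_eq
    rw [hn.2] at h
    exact h
  have h : (S.filter fun n => n.minFac = p).card ≤ (Finset.Icc 1 (Nat.log 2 M)).card := by
    refine Finset.card_le_card_of_injOn (fun n => n.factorization p) ?_ ?_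
    · intro n hn
      have hn' : n ∈ S.filter (fun n => n.minFac = p) := hn
      have h1 := key n hn'
      rw [Finset.mem_filter] at hn'
      have h2 := hS n hn'.1
      have h3 : n ≠ 1 := h2.1.ne_one
      have h4 : p.Prime := hn'.2 ▸ Nat.minFac_prime h3
      have h5 : 1 ≤ n.factorization p := by
        by_contra hc
        have h6 : n.factorization p = 0 := by omega
        rw [h6, pow_zero] at h1
        exact h3 h1.symm
      have h6 : 2 ^ n.factorization p ≤ M := by
        calc 2 ^ n.factorization p ≤ p ^ n.factorization p := Nat.pow_le_pow_left h4.two_le _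
          _ = n := h1
          _ ≤ M := h2.2
      have h7 : n.factorization p ≤ Nat.log 2 M := Nat.le_log_of_pow_le (by norm_num) h6
      exact Finset.mem_coe.2 (Finset.mem_Icc.2 ⟨h5, h7⟩)
    · intro a ha b hb hab
      have h1 := key a ha
      have h2 := key b hb
      have h3 : a.factorization p = b.factorization p := hab
      rw [← h1, ← h2, h3]
  simpa using h

/-- The number of the powers of small primes. -/
private theorem Rem_card (S : Finset ℕ) (M₀ M₁ : ℕ)
    (hS : ∀ m ∈ S, IsPrimePow m ∧ m ≤ M₁ ∧ m.minFac ≤ M₀) :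
    S.card ≤ M₀ * Nat.log 2 M₁ := by
  have h1 : S.card ≤ Nat.log 2 M₁ * (Finset.Icc 1 M₀).card := by
    refine Finset.card_le_mul_card_image_of_maps_to (f := Nat.minFac) ?_ (Nat.log 2 M₁) ?_
    · intro m hm
      exact Finset.mem_Icc.2 ⟨Nat.minFac_pos m, (hS m hm).2.2⟩
    · intro p _
      exact Rem_fib S M₁ p fun m hm => ⟨(hS m hm).1, (hS m hm).2.1⟩
  rw [Nat.card_Icc, Nat.add_sub_cancel, mul_comm] at h1
  exact h1

theorem tRem : S_Rem := by
  classical
  intro M₀ M₁ f B _ hB hf hfB
  have hblk : blk M₀ M₁ = (Finset.Ioc M₀ M₁).filter (fun m => M₀ < m.minFac) := rfl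
  refine ⟨hblk ▸ Finset.filter_subset _ _, ?_⟩
  obtain ⟨D, hD⟩ : ∃ D : Finset ℕ, D = Finset.Ioc M₀ M₁ \ blk M₀ M₁ := ⟨_, rfl⟩
  rw [← hD]
  have hmem : ∀ m ∈ D, 1 ≤ m ∧ m ≤ M₁ ∧ m.minFac ≤ M₀ := by
    intro m hm
    rw [hD, hblk, Finset.mem_sdiff, Finset.mem_filter, Finset.mem_Ioc] at hm
    obtain ⟨h1, h2⟩ := hm
    refine ⟨by omega, h1.2, ?_⟩
    by_contra h3
    exact h2 ⟨h1, by omega⟩
  have e0 : ∑ m ∈ D, f m = ∑ m ∈ D.filter IsPrimePow, f m := by
    refine (Finset.sum_filter_of_ne fun m _ hne => ?_).symm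
    by_contra hp
    exact hne (hf m hp)
  have e1 : ∑ m ∈ D.filter IsPrimePow, f m ≤ ∑ _m ∈ D.filter IsPrimePow, B :=
    Finset.sum_le_sum fun m hm => (hfB m (hmem m (Finset.mem_filter.1 hm).1).1).2
  have hcard : ((D.filter IsPrimePow).card : ℝ) ≤ M₀ * (Nat.log 2 M₁ : ℝ) := by
    have h2 := Rem_card (D.filter IsPrimePow) M₀ M₁ fun m hm => by
      rw [Finset.mem_filter] at hm
      exact ⟨hm.2, (hmem m hm.1).2⟩
    exact_mod_cast h2
  rw [e0]
  refine e1.trans ?_
  rw [Finset.sum_const, nsmul_eq_mul]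
  exact mul_le_mul_of_nonneg_right hcard hB

end MP7ed9c3.Tp
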