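import Pool.Agent.Lib.MP_7ed9c3_nt.Tp.SpecB

/-!
# MP_7ed9c3_nt, project TP, part B: the data of a scale
-/

set_option autoImplicit false

namespace MP7ed9c3.Tp

open NumberField IsDedekindDomain Filter Topology MeasureTheory Metric
open MP7ed9c3.Aw

private theorem Sca_ev (a K : ℝ) (n : ℕ) (ε : ℝ) (ha : 0 < a) (hε : 0 < ε) :
    ∀ᶠ m : ℕ in atTop, K * (m : ℝ) ^ n * Real.exp (-(a * m)) ≤ ε := by
  have h1 : Tendsto (fun m : ℕ => a * (m : ℝ)) atTop atTop :=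
    Tendsto.const_mul_atTop ha tendsto_natCast_atTop_atTop
  have h2 := ((Real.tendsto_pow_mul_exp_neg_atTop_nhds_zero n).comp h1).const_mul (K / a ^ n)
  rw [mul_zero] at h2
  filter_upwards [h2.eventually (ge_mem_nhds hε)] with m hm
  refine le_trans (le_of_eq ?_) hm
  simp only [Function.comp_apply]
  have ha' : a ^ n ≠ 0 := pow_ne_zero _ ha.ne'
  rw [mul_pow]
  field_simp

private theorem Sca_log (M₁ m : ℕ) (β : ℝ) (hβ : 0 ≤ β)
    (hM : (M₁ : ℝ) ≤ Real.exp ((β + 1) * m)) : (Nat.log 2 M₁ : ℝ) ≤ 2 * (β + 1) * m := by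
  rcases Nat.eq_zero_or_pos M₁ with h0 | h0
  · subst h0
    simp only [Nat.log_zero_right, Nat.cast_zero]
    positivity
  · have h1 : (2 : ℝ) ^ (Nat.log 2 M₁) ≤ Real.exp ((β + 1) * m) := by
      refine le_trans ?_ hM
      exact_mod_cast Nat.pow_log_le_self 2 h0.ne'
    have h2 := Real.log_le_log (by positivity) h1
    rw [Real.log_pow, Real.log_exp] at h2
    have h3 := Real.log_two_gt_d9
    have h4 : (0 : ℝ) ≤ (Nat.log 2 M₁ : ℝ) := Nat.cast_nonneg _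
    nlinarith

private theorem Sca_pow (R' R₂ γ : ℝ) (m j : ℕ) (hγ : 0 ≤ γ) (he : R' / R₂ = Real.exp (-γ))
    (hj : m ≤ 2 * j) : (R' / R₂) ^ j ≤ Real.exp (-(γ / 2 * m)) := by
  rw [he, ← Real.exp_nat_mul]
  apply Real.exp_le_exp.2
  have h1 : (m : ℝ) ≤ 2 * (j : ℝ) := by exact_mod_cast hj
  nlinarith

theorem tSca (h1 : S_TrnW) (h2 : S_LowW) (h3 : S_Max) (h4 : S_UDir) (h5 : S_Cmb)
    (h6 : S_Rem) : S_Sca := by
  intro h σ₁ b r₀ R R' R₂ R₁ C η B k₀ hh hC hη hB hRad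
  obtain ⟨A₀, β₀, m₁, hA₀, hβ₀, hm₁, hLow⟩ :=
    h2 h σ₁ b r₀ R R' R₂ R₁ C η B k₀ hh hC hη hB hRad
  obtain ⟨A', hA'⟩ : ∃ A' : ℕ, A' = max A₀ 16 := ⟨_, rfl⟩
  have hA1 : A₀ ≤ A' := by omega
  have hA2 : 16 ≤ A' := by omega
  obtain ⟨δ₂, β₂, ω, m₂, hδ₂, hβ₂, hω, hm₂, hTrn⟩ :=
    h1 h σ₁ b r₀ R R' R₂ R₁ C (2 * A' + 3) hh hC hRad
  have hR'pos : 0 < R' := hRad.r₀pos.trans (hRad.lt1.trans hRad.lt2)
  have hR₂pos : 0 < R₂ := hR'pos.trans hRad.lt3
  obtain ⟨γ, hγe⟩ : ∃ γ : ℝ, γ = Real.log (R₂ / R') := ⟨_, rfl⟩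
  have hγ : 0 < γ := by
    rw [hγe]
    exact Real.log_pos ((one_lt_div hR'pos).2 hRad.lt3)
  have hexp : R' / R₂ = Real.exp (-γ) := by
    rw [hγe, Real.exp_neg, Real.exp_log (div_pos hR₂pos hR'pos), inv_div]
  obtain ⟨δ, hδe⟩ : ∃ δ : ℝ, δ = min (δ₂ / 2) (min (γ / 4) 1) := ⟨_, rfl⟩
  have hδ : 0 < δ := by
    rw [hδe]
    exact lt_min (by positivity) (lt_min (by positivity) one_pos)
  have hδ2 : δ ≤ δ₂ / 2 := by rw [hδe]; exact min_le_left _ _
  have hδγ : δ ≤ γ / 4 := by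
    rw [hδe]; exact (min_le_right _ _).trans (min_le_left _ _)
  have hδ1 : δ ≤ 1 := by rw [hδe]; exact (min_le_right _ _).trans (min_le_right _ _)
  obtain ⟨β, hβe⟩ : ∃ β : ℝ, β = max β₀ β₂ := ⟨_, rfl⟩
  have hβ0 : β₀ ≤ β := by rw [hβe]; exact le_max_left _ _
  have hβ2 : β₂ ≤ β := by rw [hβe]; exact le_max_right _ _
  have hβ : 0 < β := hβ₀.trans_le hβ0
  obtain ⟨m₃, hm₃⟩ := Filter.eventually_atTop.1
    ((Sca_ev (γ / 2) (C ^ 2 * (A' + 1) ^ 2) 2 1 (by positivity) one_pos).and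
      ((Sca_ev (3 * γ / 4) (2 * (β + 1) * (C ^ 2 * (A' + 1) ^ 2)) 3 1 (by positivity)
        one_pos).and
      ((Sca_ev (ω / 2) (A' + 1) 1 (1 / 16) (by positivity) (by norm_num)).and
      (Sca_ev (γ / 4) (2 * (β + 1) * (C * (A' + 1))) 2 (1 / 16) (by positivity)
        (by norm_num)))))
  refine ⟨A', m₃ + m₁ + 2 * m₂, δ, β, Real.exp (-(γ / 2)), hA2, by omega, hδ, hβ,
    Real.exp_pos _, by rw [Real.exp_lt_one_iff]; linarith, ?_⟩
  intro c hc Y₀ hLU m M₀ M₁ al D js hm hY hM₀ hMM hMδ hβM hM₁ hK h2D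
  obtain ⟨hE2, hE3, hE4, hE5⟩ := hm₃ m (by omega)
  have hm1 : 1 ≤ m := by omega
  have hmR : (1 : ℝ) ≤ m := by exact_mod_cast hm1
  have hm0 : (0 : ℝ) ≤ m := by linarith
  -- the maximum
  have hδm : δ * m ≤ m := mul_le_of_le_one_left hm0 hδ1
  have hβ0m : β₀ * m ≤ β * m := mul_le_mul_of_nonneg_right hβ0 hm0
  have hβ2m : β₂ * m ≤ β * m := mul_le_mul_of_nonneg_right hβ2 hm0
  have hδγm : δ * m ≤ γ / 4 * m := mul_le_mul_of_nonneg_right hδγ hm0
  have hδ2m : δ * m ≤ δ₂ / 2 * m := mul_le_mul_of_nonneg_right hδ2 hm0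
  have hδ₂m : 0 ≤ δ₂ * m := mul_nonneg hδ₂.le hm0
  have hωm : 0 ≤ ω * m := mul_nonneg hω.le hm0
  obtain ⟨k', hk'1, hk'2, hk'3⟩ := hLow c hc Y₀ hLU m M₀ M₁ (by omega) hY
    (hMδ.trans (Real.exp_le_exp.2 hδm))
    ((Real.exp_le_exp.2 hβ0m).trans hβM)
  obtain ⟨kk, q, hk1, hk2, hq1, hkq, hnw⟩ := h3 m (A' * m) (fun k => nW h c k M₀ M₁) (1 / R') hm1
    (by positivity) (fun k => Finset.sum_nonneg fun _ _ => by positivity)
    ⟨k', hk'1, hk'2.trans (Nat.mul_le_mul_right m hA1), hk'3⟩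
  have hqpos : 0 < q := lt_of_lt_of_le (by positivity) hq1
  have hjD := hK.lt
  have hjs : js ≤ kk := by omega
  obtain ⟨hU1, hU2, hU3⟩ := h4 h σ₁ b r₀ R R' R₂ R₁ C hh hC hRad c al q D kk js hc hq1
    hK.nonneg hK.sum hK.lt hjs
  -- the bound of the coefficients
  obtain ⟨Bm, hBm⟩ : ∃ Bm : ℝ, Bm = C * (A' + 1) * m * Real.exp (-(γ / 2 * m)) := ⟨_, rfl⟩
  have hBm0 : 0 ≤ Bm := by rw [hBm]; positivity
  have hkD : (kk : ℝ) + D ≤ (A' + 1) * m := by
    have h7 : kk + D ≤ (A' + 1) * m := by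
      have : (A' + 1) * m = A' * m + m := by ring
      omega
    exact_mod_cast h7
  have hub : ∀ m' : ℕ, 1 ≤ m' → ‖uW h c al D kk js q m'‖ ≤ Bm := by
    intro m' hm'
    refine (hU3 m' hm').trans ?_
    rw [hBm]
    have h8 := Sca_pow R' R₂ γ m (kk - js) hγ.le hexp (by omega)
    have h9 : (0 : ℝ) ≤ (R' / R₂) ^ (kk - js) := by positivity
    calc C * (kk + D) * (R' / R₂) ^ (kk - js) ≤ C * ((A' + 1) * m) * Real.exp (-(γ / 2 * m)) :=
          mul_le_mul (mul_le_mul_of_nonneg_left hkD hC) h8 h9 (by positivity)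
      _ = C * (A' + 1) * m * Real.exp (-(γ / 2 * m)) := by ring
  have hpp : ∀ m' : ℕ, ¬ IsPrimePow m' → uW h c al D kk js q m' = 0 := by
    intro m' hm'
    unfold uW cmb vW
    simp only [hc.1 m' hm', zero_mul, mul_zero, Finset.sum_const_zero]
  have hBm2 : Bm ^ 2 = C ^ 2 * (A' + 1) ^ 2 * (m : ℝ) ^ 2 * Real.exp (-(γ * m)) := by
    rw [hBm]
    have : Real.exp (-(γ * m)) = Real.exp (-(γ / 2 * m)) ^ 2 := by
      rw [← Real.exp_nat_mul]
      congr 1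
      push_cast
      ring
    rw [this]
    ring
  have hlog := Sca_log M₁ m β hβ.le hM₁
  have hlog0 : (0 : ℝ) ≤ (Nat.log 2 M₁ : ℝ) := Nat.cast_nonneg _
  have hM₀0 : (0 : ℝ) ≤ (M₀ : ℝ) := Nat.cast_nonneg _
  -- the numbers outside the block
  obtain ⟨hsub, hrem2⟩ := h6 M₀ M₁ (fun m' => ‖uW h c al D kk js q m'‖ ^ 2) (Bm ^ 2) hM₀
    (by positivity) (fun m' hm' => by simp only [hpp m' hm']; norm_num)
    (fun m' hm' => ⟨by positivity, pow_le_pow_left₀ (norm_nonneg _) (hub m' hm') 2⟩)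
  obtain ⟨-, hrem1⟩ := h6 M₀ M₁ (fun m' => ‖uW h c al D kk js q m'‖) Bm hM₀
    hBm0 (fun m' hm' => by simp only [hpp m' hm']; norm_num)
    (fun m' hm' => ⟨norm_nonneg _, hub m' hm'⟩)
  have hML : (M₀ : ℝ) * (Nat.log 2 M₁ : ℝ) ≤ Real.exp (δ * m) * (2 * (β + 1) * m) :=
    mul_le_mul hMδ hlog hlog0 (Real.exp_pos _).le
  have hout2 : (M₀ : ℝ) * (Nat.log 2 M₁ : ℝ) * Bm ^ 2 ≤ 1 := by
    refine le_trans (mul_le_mul_of_nonneg_right hML (by positivity)) ?_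
    rw [hBm2]
    have h10 : Real.exp (δ * m) * Real.exp (-(γ * m)) ≤ Real.exp (-(3 * γ / 4 * m)) := by
      rw [← Real.exp_add]
      apply Real.exp_le_exp.2
      linarith
    calc Real.exp (δ * m) * (2 * (β + 1) * m) *
          (C ^ 2 * (A' + 1) ^ 2 * (m : ℝ) ^ 2 * Real.exp (-(γ * m)))
        = 2 * (β + 1) * (C ^ 2 * (A' + 1) ^ 2) * (m : ℝ) ^ 3 *
          (Real.exp (δ * m) * Real.exp (-(γ * m))) := by ring
      _ ≤ 2 * (β + 1) * (C ^ 2 * (A' + 1) ^ 2) * (m : ℝ) ^ 3 *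
          Real.exp (-(3 * γ / 4 * m)) := mul_le_mul_of_nonneg_left h10 (by positivity)
      _ ≤ 1 := hE3
  have hout1 : (M₀ : ℝ) * (Nat.log 2 M₁ : ℝ) * Bm ≤ 1 / 16 := by
    refine le_trans (mul_le_mul_of_nonneg_right hML hBm0) ?_
    rw [hBm]
    have h10 : Real.exp (δ * m) * Real.exp (-(γ / 2 * m)) ≤ Real.exp (-(γ / 4 * m)) := by
      rw [← Real.exp_add]
      apply Real.exp_le_exp.2
      linarith
    calc Real.exp (δ * m) * (2 * (β + 1) * m) *
          (C * (A' + 1) * m * Real.exp (-(γ / 2 * m)))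
        = 2 * (β + 1) * (C * (A' + 1)) * (m : ℝ) ^ 2 *
          (Real.exp (δ * m) * Real.exp (-(γ / 2 * m))) := by ring
      _ ≤ 2 * (β + 1) * (C * (A' + 1)) * (m : ℝ) ^ 2 *
          Real.exp (-(γ / 4 * m)) := mul_le_mul_of_nonneg_left h10 (by positivity)
      _ ≤ 1 / 16 := hE5
  refine ⟨kk, q, ⟨hk1, hk2, hq1, hnw, hpp, ?_, ?_, ?_, ?_⟩⟩
  · -- up
    intro m' hm'
    have hm'1 : 1 ≤ m' := by
      have := (Finset.mem_Ioc.1 (hsub hm')).1
      omega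
    have h11 : ‖uW h c al D kk js q m'‖ ^ 2 ≤ Bm ^ 2 :=
      pow_le_pow_left₀ (norm_nonneg _) (hub m' hm'1) 2
    refine h11.trans ?_
    rw [hBm2, ← Real.exp_nat_mul]
    have h12 : Real.exp (-(γ * m)) = Real.exp (-(γ / 2 * m)) * Real.exp ((m : ℝ) * (-(γ / 2))) := by
      rw [← Real.exp_add]
      congr 1
      ring
    rw [h12, ← mul_assoc]
    exact mul_le_of_le_one_left (Real.exp_pos _).le hE2
  · -- lo
    have h13 := hU2 M₀ M₁
    rw [hkq] at h13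
    have h14 : 0 < (q ^ kk) ^ 2 := by positivity
    have h15 : (al js * kk) ^ 2 ≤ ∑ m' ∈ Finset.Ioc M₀ M₁, ‖uW h c al D kk js q m'‖ ^ 2 := by
      rw [mul_comm] at h13
      exact le_of_mul_le_mul_left h13 h14
    have hD0 : (0 : ℝ) < D := by exact_mod_cast (by omega : 0 < D)
    have h16 : (2 : ℝ) ≤ al js * kk := by
      have h17 : (2 : ℝ) * D ≤ kk := by exact_mod_cast (by omega : 2 * D ≤ kk)
      have h18 := hK.big
      have h19 := mul_le_mul_of_nonneg_left h17 (hK.nonneg js)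
      linarith
    have h20 : (4 : ℝ) ≤ (al js * kk) ^ 2 := by
      have := pow_le_pow_left₀ (by norm_num) h16 2
      norm_num at this
      exact this
    have h21 := Finset.sum_sdiff (f := fun m' => ‖uW h c al D kk js q m'‖ ^ 2) hsub
    have h22 := hrem2.trans hout2
    linarith
  · -- dif
    intro t
    have h23 := h5 al D kk js q (1 / 16) (fun k => eW h c k t) (fun k => aW h c k M₀ M₁ t)
      hK.nonneg hK.sum hqpos (by
        intro k hka hkb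
        have hm'1 : (m + 1) / 2 ≤ k := by omega
        have hAm : (A' + 1) * m ≤ (2 * A' + 3) * ((m + 1) / 2) := by
          have h24 : m ≤ 2 * ((m + 1) / 2) := by omega
          calc (A' + 1) * m ≤ (A' + 1) * (2 * ((m + 1) / 2)) := Nat.mul_le_mul_left _ h24
            _ = (2 * A' + 2) * ((m + 1) / 2) := by ring
            _ ≤ (2 * A' + 3) * ((m + 1) / 2) := Nat.mul_le_mul_right _ (by omega)
        have hkA : k ≤ (A' + 1) * m := by
          have : (A' + 1) * m = A' * m + m := by ring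
          omega
        have hm2R : (m : ℝ) ≤ 2 * (((m + 1) / 2 : ℕ) : ℝ) := by
          exact_mod_cast (by omega : m ≤ 2 * ((m + 1) / 2))
        have hm2R' : (((m + 1) / 2 : ℕ) : ℝ) ≤ m := by
          exact_mod_cast (by omega : (m + 1) / 2 ≤ m)
        have hx1 := mul_le_mul_of_nonneg_left hm2R (by linarith : 0 ≤ δ₂ / 2)
        have hx2 := mul_le_mul_of_nonneg_left hm2R' hβ₂.le
        have hx3 := mul_le_mul_of_nonneg_left hm2R (by linarith : 0 ≤ ω / 2)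
        have h25 := hTrn c hc t ((m + 1) / 2) k M₀ M₁ (by omega) hm'1 (hkA.trans hAm) hM₀ hMM
          (hMδ.trans (Real.exp_le_exp.2 (by linarith)))
          ((Real.exp_le_exp.2 (hx2.trans hβ2m)).trans hβM)
        rw [norm_mul, Complex.norm_natCast]
        have h26 : Real.exp (-(ω * (((m + 1) / 2 : ℕ) : ℝ))) ≤ Real.exp (-(ω / 2 * m)) :=
          Real.exp_le_exp.2 (by linarith)
        have h27 : (1 / R') ^ k ≤ q ^ k := pow_le_pow_left₀ (by positivity) hq1 k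
        have h28 : (k : ℝ) ≤ (A' + 1) * m := by exact_mod_cast hkA
        have h29 : Real.exp (-(ω * (((m + 1) / 2 : ℕ) : ℝ))) * (1 / R') ^ k ≤
            Real.exp (-(ω / 2 * m)) * q ^ k :=
          mul_le_mul h26 h27 (by positivity) (Real.exp_pos _).le
        calc (k : ℝ) * ‖eW h c k t - aW h c k M₀ M₁ t‖
            ≤ ((A' + 1) * m) * (Real.exp (-(ω / 2 * m)) * q ^ k) :=
              mul_le_mul h28 (h25.trans h29) (norm_nonneg _) (by positivity)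
          _ = ((A' + 1) * (m : ℝ) ^ 1 * Real.exp (-(ω / 2 * m))) * q ^ k := by ring
          _ ≤ 1 / 16 * q ^ k := mul_le_mul_of_nonneg_right hE4 (by positivity))
    have h30 : cmb al D kk js q (fun k => aW h c k M₀ M₁ t) -
        ∑ m' ∈ blk M₀ M₁, uW h c al D kk js q m' * (m' : ℂ) ^ (-(t * Complex.I)) =
        ∑ m' ∈ Finset.Ioc M₀ M₁ \ blk M₀ M₁,
          uW h c al D kk js q m' * (m' : ℂ) ^ (-(t * Complex.I)) := by
      rw [hU1 M₀ M₁ t, ← Finset.sum_sdiff hsub, add_sub_cancel_right]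
    have h31 : ‖∑ m' ∈ Finset.Ioc M₀ M₁ \ blk M₀ M₁,
        uW h c al D kk js q m' * (m' : ℂ) ^ (-(t * Complex.I))‖ ≤ 1 / 16 := by
      refine (norm_sum_le _ _).trans (le_trans (Finset.sum_le_sum fun m' hm' => ?_)
        (hrem1.trans hout1))
      have hpos : 0 < m' := by
        have := (Finset.mem_Ioc.1 (Finset.mem_sdiff.1 hm').1).1
        omega
      rw [norm_mul, Complex.norm_natCast_cpow_of_pos hpos]
      simp
    have h32 : cmb al D kk js q (fun k => eW h c k t) -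
        ∑ m' ∈ blk M₀ M₁, uW h c al D kk js q m' * (m' : ℂ) ^ (-(t * Complex.I)) =
        (cmb al D kk js q (fun k => eW h c k t) - cmb al D kk js q (fun k => aW h c k M₀ M₁ t)) +
        ∑ m' ∈ Finset.Ioc M₀ M₁ \ blk M₀ M₁,
          uW h c al D kk js q m' * (m' : ℂ) ^ (-(t * Complex.I)) := by
      rw [← h30]
      ring
    rw [h32]
    refine (norm_add_le _ _).trans ?_
    linarith
  · -- trn
    intro t k hka hkb
    have h33 := hTrn c hc t m k M₀ M₁ (by omega) hka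
      (hkb.trans (Nat.mul_le_mul_right m (by omega))) hM₀ hMM
      (hMδ.trans (Real.exp_le_exp.2 (by linarith)))
      ((Real.exp_le_exp.2 hβ2m).trans hβM)
    refine h33.trans ?_
    have h34 : (1 / R') ^ k ≤ q ^ k := pow_le_pow_left₀ (by positivity) hq1 k
    have h35 : Real.exp (-(ω * m)) ≤ 1 := by
      rw [Real.exp_le_one_iff]
      linarith
    calc Real.exp (-(ω * m)) * (1 / R') ^ k ≤ 1 * q ^ k :=
          mul_le_mul h35 h34 (by positivity) zero_le_one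
      _ = q ^ k := one_mul _

end MP7ed9c3.Tp
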