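import Pool.Agent.Lib.MP_7ed9c3_nt.Tp.AllA
import Pool.Agent.Lib.MP_7ed9c3_nt.Tp.Rem
import Pool.Agent.Lib.MP_7ed9c3_nt.Tp.Sca
import Pool.Agent.Lib.MP_7ed9c3_nt.Tp.NumC
import Pool.Agent.Lib.MP_7ed9c3_nt.Tp.BrT
import Pool.Agent.Lib.MP_7ed9c3_nt.Tp.FinY
import Pool.Agent.Lib.MP_7ed9c3_nt.Tp.FinU

/-!
# MP_7ed9c3_nt, part Tp: assembly of the frame, and the theorem with exponent 1/2
-/

set_option autoImplicit false

namespace MP7ed9c3.Tp

open NumberField IsDedekindDomain Filter Topology MeasureTheory Metric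
open MP7ed9c3.Aw

theorem scaAll : S_Sca := tSca trnWAll lowWAll tMax uDirAll tCmb tRem

theorem coreBAll : S_CoreB := tCoreB tRad scaAll badBAll tWinB tNumC

theorem coreYAll (h : ℝ) (hh : 0 < h) : CoreY h := by
  obtain ⟨V₂, hV⟩ := quoY_ge
  exact coreY_of_coreZ h (coreBAll _ V₂ hV detHAll h hh)

/-- The theorem with `N (N + log V + loglog H)/log H`, for both kinds of abscissas. -/
theorem finYAll (h : ℝ) (hh : 0 < h) (K : Type) [Field K] [NumberField K] :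
    WindowsY h K (FewBad K) (1 / 2 + 1 / (4 * (Module.finrank ℚ K : ℝ))) ∧
    ∀ (N : Type) [Field N] [NumberField N] [IsGalois ℚ N] (g : N ≃ₐ[ℚ] N) (k : ℕ),
      Nonempty (K →ₐ[ℚ] N) → Zg.Adm (Zg.perm (K := K) g) k →
      WindowsY h K (FewBad K) (1 / 2 + 1 / (2 * (k : ℝ))) :=
  finY h hh (coreYAll h hh) K

/-- The final form from the detector alone. -/
theorem finUOfDet (hdet : DetZ (fun V T N => N * (Real.log V + Real.log (Real.log T))))
    (h : ℝ) (hh : 0 < h) (K : Type) [Field K] [NumberField K] :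
    WindowsU h K (FewBad K) (1 / 2 + 1 / (4 * (Module.finrank ℚ K : ℝ))) ∧
    ∀ (N : Type) [Field N] [NumberField N] [IsGalois ℚ N] (g : N ≃ₐ[ℚ] N) (k : ℕ),
      Nonempty (K →ₐ[ℚ] N) → Zg.Adm (Zg.perm (K := K) g) k →
      WindowsU h K (FewBad K) (1 / 2 + 1 / (2 * (k : ℝ))) :=
  finUOf coreBAll hdet h hh K

end MP7ed9c3.Tp
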