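import Pool.Agent.Lib.MP_7ed9c3_nt.Tp.Ker

/-!
# MP_7ed9c3_nt, part Tp: detection of a zero with the kernel `ks S ^ b * pm (2^S) ^ b'` (deterministic part of `DetX`)
-/

set_option autoImplicit false

namespace MP7ed9c3.Tp

open Finset

/-- One far term. -/
private theorem DetXd_far {w : ℂ} {kap th df A : ℝ} {k m S b b' : ℕ} (hd5 : ‖1 - w‖ ≤ 6)
    (hdf0 : 0 < df) (h6 : 6 ≤ 2 ^ S * df) (hkap0 : 0 ≤ kap) (hth0 : 0 ≤ th)
    (hdeg : b * ((S + 1) * 2 ^ S) + b' * 2 ^ S ≤ m) (hk : (k : ℝ) ≤ A * m)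
    (hkap : kap * ((A + 1) * m) ≤ b * 2 ^ S / 12) (hth : th * df * ((A + 1) * m) ≤ b' / 2)
    (hw : ‖w‖ ≤ Real.exp (kap * max ‖1 - w‖ df + th * df)) (hfar : df ≤ ‖1 - w‖) :
    ‖w ^ k * (ks S w ^ b * pm (2 ^ S) w ^ b')‖ ≤ Real.exp (-(b' / 2 : ℝ)) := by
  obtain ⟨d, hd⟩ : ∃ d : ℝ, d = ‖1 - w‖ := ⟨_, rfl⟩
  rw [max_eq_left hfar, ← hd] at hw
  rw [← hd] at hfar hd5
  obtain ⟨η, hη⟩ : ∃ η : ℝ, η = kap * d + th * df := ⟨_, rfl⟩
  rw [← hη] at hw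
  have hd0 : 0 < d := lt_of_lt_of_le hdf0 hfar
  have hη0 : 0 ≤ η := by rw [hη]; positivity
  have h2S : (0 : ℝ) < 2 ^ S := by positivity
  have h6d : 6 ≤ 2 ^ S * d := h6.trans (mul_le_mul_of_nonneg_left hfar h2S.le)
  have e1 : ‖w‖ ^ k ≤ Real.exp (k * η) := by
    rw [Real.exp_nat_mul]
    exact pow_le_pow_left₀ (norm_nonneg _) hw k
  have e2 : ‖ks S w‖ ^ b ≤ Real.exp (b * ((S + 1) * 2 ^ S * η - 2 ^ S * d / 12)) := by
    rw [Real.exp_nat_mul]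
    refine pow_le_pow_left₀ (norm_nonneg _) ?_ b
    have := ks_far S w η hη0 hw (by rw [← hd]; exact h6d) (by rw [← hd]; exact hd5)
    rwa [← hd] at this
  have e3 : ‖pm (2 ^ S) w‖ ^ b' ≤ Real.exp (b' * (2 ^ S * η - 1)) := by
    rw [Real.exp_nat_mul]
    refine pow_le_pow_left₀ (norm_nonneg _) ?_ b'
    have h3 := pm_le' (2 ^ S) Nat.one_le_two_pow w η hη0 hw (by rw [← hd]; exact hd0)
    rw [← hd] at h3
    have h4 : 2 / (((2 ^ S : ℕ) : ℝ) * d) ≤ Real.exp (-1) := by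
      rw [Real.exp_neg]
      push_cast
      have h5 : (2 : ℝ) / (2 ^ S * d) ≤ 2 / 6 :=
        div_le_div_of_nonneg_left (by norm_num) (by norm_num) h6d
      have h6' : Real.exp 1 ≤ 3 := by
        have := Real.exp_one_lt_d9
        linarith
      have h7 : (1 : ℝ) / 3 ≤ (Real.exp 1)⁻¹ := by
        rw [one_div]
        exact inv_anti₀ (Real.exp_pos 1) h6'
      linarith
    calc ‖pm (2 ^ S) w‖ ≤ Real.exp (((2 ^ S : ℕ) : ℝ) * η) * (2 / (((2 ^ S : ℕ) : ℝ) * d)) := h3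
      _ ≤ Real.exp (((2 ^ S : ℕ) : ℝ) * η) * Real.exp (-1) :=
          mul_le_mul_of_nonneg_left h4 (Real.exp_pos _).le
      _ = Real.exp (2 ^ S * η - 1) := by
          rw [← Real.exp_add]
          push_cast
          ring_nf
  rw [norm_mul, norm_mul, norm_pow, norm_pow, norm_pow]
  have hsum : (k : ℝ) * η + (b * ((S + 1) * 2 ^ S * η - 2 ^ S * d / 12) +
      b' * (2 ^ S * η - 1)) ≤ -(b' / 2 : ℝ) := by
    have hdegR : (b : ℝ) * ((S + 1) * 2 ^ S) + b' * 2 ^ S ≤ m := by exact_mod_cast hdeg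
    have s1 : (k : ℝ) * η + (b * ((S + 1) * 2 ^ S * η - 2 ^ S * d / 12) + b' * (2 ^ S * η - 1)) =
        ((k : ℝ) + (b * ((S + 1) * 2 ^ S) + b' * 2 ^ S)) * η - b * 2 ^ S / 12 * d - b' := by ring
    have s2 : ((k : ℝ) + (b * ((S + 1) * 2 ^ S) + b' * 2 ^ S)) * η ≤ ((A + 1) * m) * η :=
      mul_le_mul_of_nonneg_right (by linarith) hη0
    have s3 : ((A + 1) * m) * η = (kap * ((A + 1) * m)) * d + th * df * ((A + 1) * m) := by
      rw [hη]; ring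
    have s4 : (kap * ((A + 1) * m)) * d ≤ (b * 2 ^ S / 12) * d :=
      mul_le_mul_of_nonneg_right hkap hd0.le
    rw [s1]
    linarith
  calc ‖w‖ ^ k * (‖ks S w‖ ^ b * ‖pm (2 ^ S) w‖ ^ b')
      ≤ Real.exp (k * η) * (Real.exp (b * ((S + 1) * 2 ^ S * η - 2 ^ S * d / 12)) *
        Real.exp (b' * (2 ^ S * η - 1))) :=
        mul_le_mul e1 (mul_le_mul e2 e3 (by positivity) (Real.exp_pos _).le) (by positivity)
          (Real.exp_pos _).le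
    _ = Real.exp (k * η + (b * ((S + 1) * 2 ^ S * η - 2 ^ S * d / 12) +
        b' * (2 ^ S * η - 1))) := by rw [← Real.exp_add, ← Real.exp_add]
    _ ≤ Real.exp (-(b' / 2 : ℝ)) := Real.exp_le_exp.2 hsum

/-- Detection, general exponents. -/
theorem detXd {ι : Type} {J : Finset ι} {w : ι → ℂ} {wt : ι → ℝ} {kap th df A B : ℝ}
    {k m S b b' : ℕ}
    (hwt : ∀ j ∈ J, 0 ≤ wt j) (hB : ∑ j ∈ J, wt j ≤ B) (hB0 : 0 < B)
    (h5 : ∀ j ∈ J, ‖1 - w j‖ ≤ 6) (hdf0 : 0 < df) (h6 : 6 ≤ 2 ^ S * df)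
    (hkap0 : 0 ≤ kap) (hth0 : 0 ≤ th)
    (hdeg : b * ((S + 1) * 2 ^ S) + b' * 2 ^ S ≤ m) (hk : (k : ℝ) ≤ A * m)
    (hkap : kap * ((A + 1) * m) ≤ b * 2 ^ S / 12) (hth : th * df * ((A + 1) * m) ≤ b' / 2)
    (hlog : Real.log (8 * B) ≤ b' / 2)
    (hw : ∀ j ∈ J, ‖w j‖ ≤ Real.exp (kap * max ‖1 - w j‖ df + th * df))
    (hU : 3 / 16 ≤ ‖∑ j ∈ J, (wt j : ℂ) * (w j ^ k * (ks S (w j) ^ b * pm (2 ^ S) (w j) ^ b'))‖) :
    ∃ j ∈ J, ‖1 - w j‖ < df := by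
  by_contra hcon
  push Not at hcon
  have hterm : ∀ j ∈ J, ‖(wt j : ℂ) * (w j ^ k * (ks S (w j) ^ b * pm (2 ^ S) (w j) ^ b'))‖ ≤
      wt j * (1 / (8 * B)) := by
    intro j hjJ
    have hj := DetXd_far (h5 j hjJ) hdf0 h6 hkap0 hth0 hdeg hk hkap hth (hw j hjJ) (hcon j hjJ)
    have hj2 : Real.exp (-(b' / 2 : ℝ)) ≤ 1 / (8 * B) := by
      calc Real.exp (-(b' / 2 : ℝ)) ≤ Real.exp (-Real.log (8 * B)) :=
            Real.exp_le_exp.2 (by linarith)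
        _ = 1 / (8 * B) := by rw [Real.exp_neg, Real.exp_log (by positivity), one_div]
    rw [norm_mul, Complex.norm_real, Real.norm_eq_abs, abs_of_nonneg (hwt j hjJ)]
    exact mul_le_mul_of_nonneg_left (hj.trans hj2) (hwt j hjJ)
  have hsum : ‖∑ j ∈ J, (wt j : ℂ) * (w j ^ k * (ks S (w j) ^ b * pm (2 ^ S) (w j) ^ b'))‖ ≤
      1 / 8 := by
    calc ‖∑ j ∈ J, (wt j : ℂ) * (w j ^ k * (ks S (w j) ^ b * pm (2 ^ S) (w j) ^ b'))‖
        ≤ ∑ j ∈ J, ‖(wt j : ℂ) * (w j ^ k * (ks S (w j) ^ b * pm (2 ^ S) (w j) ^ b'))‖ :=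
          norm_sum_le _ _
      _ ≤ ∑ j ∈ J, wt j * (1 / (8 * B)) := Finset.sum_le_sum hterm
      _ = (∑ j ∈ J, wt j) * (1 / (8 * B)) := by rw [Finset.sum_mul]
      _ ≤ B * (1 / (8 * B)) := by
          apply mul_le_mul_of_nonneg_right hB
          positivity
      _ = 1 / 8 := by field_simp
  linarith

/-- Detection with `S = Sf + 2`, `b = m / (8 (Sf + 3) 2 ^ (Sf + 2))`, `b' = m / (8 2 ^ (Sf + 2))` (natural division). -/
theorem detXn {ι : Type} {J : Finset ι} {w : ι → ℂ} {wt : ι → ℝ} {kap th df A B : ℝ}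
    {k m Sf b b' : ℕ} (hb : b = m / (8 * ((Sf + 3) * 2 ^ (Sf + 2))))
    (hb' : b' = m / (8 * 2 ^ (Sf + 2)))
    (hwt : ∀ j ∈ J, 0 ≤ wt j) (hB : ∑ j ∈ J, wt j ≤ B) (hB0 : 0 < B) (hA : 0 ≤ A)
    (h5 : ∀ j ∈ J, ‖1 - w j‖ ≤ 6) (hdf0 : 0 < df)
    (h1 : 2 ≤ 2 ^ Sf * df) (h2 : 2 ^ Sf * df ≤ 4)
    (hkap0 : 0 ≤ kap) (hth0 : 0 ≤ th)
    (hkap : kap * (200 * (A + 1) * (Sf + 3)) ≤ 1) (hth : th * (512 * (A + 1)) ≤ 1)
    (hm : 128 * ((Sf : ℝ) + 3) ≤ m * df) (hlog : 512 * Real.log (8 * B) ≤ m * df)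
    (hk : (k : ℝ) ≤ A * m)
    (hw : ∀ j ∈ J, ‖w j‖ ≤ Real.exp (kap * max ‖1 - w j‖ df + th * df))
    (hU : 3 / 16 ≤ ‖∑ j ∈ J, (wt j : ℂ) *
      (w j ^ k * (ks (Sf + 2) (w j) ^ b * pm (2 ^ (Sf + 2)) (w j) ^ b'))‖) :
    ∃ j ∈ J, ‖1 - w j‖ < df := by
  obtain ⟨P, hP⟩ : ∃ P : ℝ, P = (2 : ℝ) ^ Sf := ⟨_, rfl⟩
  have hP0 : 0 < P := by rw [hP]; positivity
  have hP4 : (2 : ℝ) ^ (Sf + 2) = 4 * P := by rw [hP, pow_add]; norm_num [mul_comm]
  have hS0 : (0 : ℝ) ≤ Sf := Nat.cast_nonneg _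
  have hm0 : (0 : ℝ) ≤ m := Nat.cast_nonneg _
  rw [← hP] at h1 h2
  -- the sizes of `b` and `b'`
  have hbig : 32 * ((Sf + 3) * P) ≤ (m : ℝ) := by
    have e1 : (32 * (((Sf : ℝ) + 3) * P)) * df ≤ m * df := by
      calc (32 * (((Sf : ℝ) + 3) * P)) * df = 32 * (Sf + 3) * (P * df) := by ring
        _ ≤ 32 * (Sf + 3) * 4 := mul_le_mul_of_nonneg_left h2 (by positivity)
        _ = 128 * (Sf + 3) := by ring
        _ ≤ m * df := hm
    exact le_of_mul_le_mul_right e1 hdf0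
  have hbL : (m : ℝ) ≤ b * (64 * ((Sf + 3) * P)) := by
    have hpos : 0 < 8 * ((Sf + 3) * 2 ^ (Sf + 2)) := by positivity
    have h3 : m < 8 * ((Sf + 3) * 2 ^ (Sf + 2)) * (m / (8 * ((Sf + 3) * 2 ^ (Sf + 2))) + 1) :=
      Nat.lt_mul_div_succ m hpos
    rw [← hb] at h3
    have h4 : (m : ℝ) < 8 * ((Sf + 3) * (4 * P)) * (b + 1) := by
      rw [← hP4]
      exact_mod_cast h3
    have hb1 : (1 : ℝ) ≤ b := by
      by_contra hcon
      push Not at hcon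
      have hb0 : b = 0 := by
        have : b < 1 := by exact_mod_cast hcon
        omega
      rw [hb0] at h4
      push_cast at h4
      linarith
    have h7 : 0 ≤ ((Sf : ℝ) + 3) * P := by positivity
    nlinarith
  have hb'L : (m : ℝ) ≤ b' * (64 * P) := by
    have hpos : 0 < 8 * 2 ^ (Sf + 2) := by positivity
    have h3 : m < 8 * 2 ^ (Sf + 2) * (m / (8 * 2 ^ (Sf + 2)) + 1) := Nat.lt_mul_div_succ m hpos
    rw [← hb'] at h3
    have h4 : (m : ℝ) < 8 * (4 * P) * (b' + 1) := by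
      rw [← hP4]
      exact_mod_cast h3
    have hb1 : (1 : ℝ) ≤ b' := by
      by_contra hcon
      push Not at hcon
      have hb0 : b' = 0 := by
        have : b' < 1 := by exact_mod_cast hcon
        omega
      rw [hb0] at h4
      push_cast at h4
      have h8 : 32 * P ≤ 32 * ((Sf + 3) * P) := by nlinarith
      linarith
    nlinarith
  have hdeg : b * ((Sf + 2 + 1) * 2 ^ (Sf + 2)) + b' * 2 ^ (Sf + 2) ≤ m := by
    have h3 : b * (8 * ((Sf + 3) * 2 ^ (Sf + 2))) ≤ m := by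
      rw [hb]; exact Nat.div_mul_le_self _ _
    have h4 : b' * (8 * 2 ^ (Sf + 2)) ≤ m := by rw [hb']; exact Nat.div_mul_le_self _ _
    have e3 : b * (8 * ((Sf + 3) * 2 ^ (Sf + 2))) = 8 * (b * ((Sf + 2 + 1) * 2 ^ (Sf + 2))) := by
      ring
    have e4 : b' * (8 * 2 ^ (Sf + 2)) = 8 * (b' * 2 ^ (Sf + 2)) := by ring
    omega
  have hb'df : (m : ℝ) * df ≤ 256 * b' := by
    have hb0 : (0 : ℝ) ≤ b' := Nat.cast_nonneg _
    calc (m : ℝ) * df ≤ b' * (64 * P) * df := mul_le_mul_of_nonneg_right hb'L hdf0.le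
      _ = 64 * b' * (P * df) := by ring
      _ ≤ 64 * b' * 4 := mul_le_mul_of_nonneg_left h2 (by positivity)
      _ = 256 * b' := by ring
  refine detXd (S := Sf + 2) (b := b) (b' := b') (k := k) (m := m) (A := A) (B := B) hwt hB hB0 h5
    hdf0 ?_ hkap0 hth0 hdeg hk ?_ ?_ ?_ hw hU
  · rw [hP4]
    linarith
  · rw [hP4]
    have hA1 : 0 ≤ (A + 1) := by linarith
    have h9 : kap * ((A + 1) * m) * (200 * (Sf + 3)) ≤ m := by
      calc kap * ((A + 1) * m) * (200 * (Sf + 3)) =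
          (kap * (200 * (A + 1) * (Sf + 3))) * m := by ring
        _ ≤ 1 * m := mul_le_mul_of_nonneg_right hkap hm0
        _ = m := one_mul _
    have h10 : kap * ((A + 1) * m) * (200 * (Sf + 3)) ≤ b * (4 * P) / 12 * (200 * (Sf + 3)) := by
      refine h9.trans (hbL.trans ?_)
      have h11 : 0 ≤ (b : ℝ) * (((Sf : ℝ) + 3) * P) := by positivity
      have e5 : (b : ℝ) * (64 * ((Sf + 3) * P)) = 64 * (b * ((Sf + 3) * P)) := by ring
      have e6 : (b : ℝ) * (4 * P) / 12 * (200 * (Sf + 3)) = 200 / 3 * (b * ((Sf + 3) * P)) := by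
        ring
      rw [e5, e6]
      linarith
    exact le_of_mul_le_mul_right h10 (by positivity)
  · have h9 : th * df * ((A + 1) * m) * 512 ≤ m * df := by
      calc th * df * ((A + 1) * m) * 512 = (th * (512 * (A + 1))) * (m * df) := by ring
        _ ≤ 1 * (m * df) := mul_le_mul_of_nonneg_right hth (by positivity)
        _ = m * df := one_mul _
    linarith
  · linarith

end MP7ed9c3.Tp
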