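import Pool.Agent.Lib.MP_7ed9c3_nt.Tp.SpecX2
import Pool.Agent.Lib.MP_7ed9c3_nt.Tp.DetXd

/-! Part Tp: detection of a zero with the kernel of `DetX`. -/

set_option autoImplicit false

namespace MP7ed9c3.Tp

theorem tDetKX : S_DetKX := by
  intro A hA
  have hA0 : 0 < 512 * (A + 1) := by linarith
  refine ⟨1 / (512 * (A + 1)), by positivity, ?_, ?_⟩
  · exact one_div_le_one_div_of_le (by norm_num) (by linarith)
  intro ι J w wt κ df B k m Sf hB hB1 hw4 hdf0 _ h1 h2 hκ hκS hm hlog hk hw hU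
  have hl0 : 0 ≤ Real.log (8 * B) := Real.log_nonneg (by linarith)
  have hS0 : (0 : ℝ) ≤ Sf := Nat.cast_nonneg _
  refine detXn (b := b1X Sf m) (b' := b2X Sf m) (J := J) (w := w) (wt := fun j => (wt j : ℝ))
    (kap := κ) (th := 1 / (512 * (A + 1))) (df := df) (A := A) (B := B) (k := k) (m := m)
    (Sf := Sf) rfl rfl (fun j _ => Nat.cast_nonneg _) ?_ (by linarith) (by linarith) ?_ hdf0 h1 h2
    hκ.le (by positivity) hκS ?_ (by linarith) (by linarith) hk hw ?_
  · refine le_trans (le_of_eq ?_) hB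
    push_cast
    rfl
  · intro j hj
    calc ‖1 - w j‖ ≤ ‖(1 : ℂ)‖ + ‖w j‖ := norm_sub_le _ _
      _ ≤ 6 := by rw [norm_one]; linarith [hw4 j hj]
  · rw [one_div_mul_cancel hA0.ne']
  · simpa using hU

end MP7ed9c3.Tp
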