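import Mathlib

/-!
# Counting points near t (weak type inequality of the maximal function of a counting measure)

`S` a finite family of real numbers `γ j` with at most `N` members.  The set of the `t` for which some interval `|γ - t| ≤ y`, `y > 0`,
contains more than `K N y` members has measure at most `10/K`.  Proof: Vitali's covering lemma.
-/

set_option autoImplicit false

namespace MP7ed9c3.Tp

open MeasureTheory Metric

theorem cntV {ι : Type*} (S : Finset ι) (γ : ι → ℝ) (K N : ℝ) (hK : 0 < K) (hN : (S.card : ℝ) ≤ N) :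
    volume {t : ℝ | ∃ y : ℝ, 0 < y ∧ K * N * y < ((S.filter fun j => |γ j - t| ≤ y).card : ℝ)} ≤
      ENNReal.ofReal (10 / K) := by
  classical
  set Bd : Set ℝ := {t : ℝ | ∃ y : ℝ, 0 < y ∧ K * N * y < ((S.filter fun j => |γ j - t| ≤ y).card : ℝ)}
    with hBd
  have hN0 : 0 ≤ N := le_trans (Nat.cast_nonneg _) hN
  rcases hN0.eq_or_lt with h0 | hNp
  · have hS : S = ∅ := by
      rw [← Finset.card_eq_zero]
      have : (S.card : ℝ) ≤ 0 := by rw [h0]; exact hN
      exact_mod_cast le_antisymm this (Nat.cast_nonneg _)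
    have hE : Bd = ∅ := by
      rw [Set.eq_empty_iff_forall_notMem]
      rintro t ⟨y, _, hy⟩
      rw [← h0, hS] at hy
      simp at hy
    rw [hE]
    simp
  have hch : ∀ t : ℝ, ∃ y : ℝ, t ∈ Bd → (0 < y ∧
      K * N * y < ((S.filter fun j => |γ j - t| ≤ y).card : ℝ)) := by
    intro t
    by_cases ht : t ∈ Bd
    · obtain ⟨y, hy⟩ := ht
      exact ⟨y, fun _ => hy⟩
    · exact ⟨1, fun h => absurd h ht⟩
  choose r hr using hch
  have hKN : 0 < K * N := mul_pos hK hNp
  have hle : ∀ a ∈ Bd, r a ≤ 1 / K := by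
    intro a ha
    have h1 := (hr a ha).2
    have h2 : ((S.filter fun j => |γ j - a| ≤ r a).card : ℝ) ≤ N :=
      le_trans (by exact_mod_cast Finset.card_filter_le _ _) hN
    have h3 : K * N * r a ≤ N := h1.le.trans h2
    have h4 : K * r a ≤ 1 := by
      by_contra hcon
      push Not at hcon
      nlinarith [mul_pos hNp (sub_pos.2 hcon)]
    rw [le_div_iff₀ hK]
    linarith [mul_comm K (r a)]
  obtain ⟨u, huB, hdis, hcov⟩ :=
    Vitali.exists_disjoint_subfamily_covering_enlargement_closedBall Bd (fun a : ℝ => a) r (1 / K) hle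
      5 (by norm_num)
  have hmem : ∀ a ∈ u, ∀ j, |γ j - a| ≤ r a → γ j ∈ closedBall a (r a) := by
    intro a _ j hj
    rw [mem_closedBall, Real.dist_eq]
    exact hj
  have hne : ∀ a ∈ u, ∃ j, j ∈ S ∧ |γ j - a| ≤ r a := by
    intro a ha
    have h1 := (hr a (huB ha)).2
    have h2 : (0 : ℝ) < ((S.filter fun j => |γ j - a| ≤ r a).card : ℝ) :=
      lt_trans (mul_pos hKN (hr a (huB ha)).1) h1
    have h3 : 0 < (S.filter fun j => |γ j - a| ≤ r a).card := by exact_mod_cast h2
    obtain ⟨j, hj⟩ := Finset.card_pos.1 h3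
    rw [Finset.mem_filter] at hj
    exact ⟨j, hj⟩
  have hfin : u.Finite := by
    rcases u.eq_empty_or_nonempty with he | hene
    · rw [he]; exact Set.finite_empty
    obtain ⟨a0, ha0⟩ := hene
    obtain ⟨j0, _⟩ := hne a0 ha0
    have : ∀ a : ℝ, ∃ j : ι, a ∈ u → (j ∈ S ∧ |γ j - a| ≤ r a) := by
      intro a
      by_cases ha : a ∈ u
      · obtain ⟨j, hj⟩ := hne a ha
        exact ⟨j, fun _ => hj⟩
      · exact ⟨j0, fun h => absurd h ha⟩
    choose f hf using this
    refine Set.Finite.of_injOn (f := f) (t := (S : Set ι)) ?_ ?_ S.finite_toSet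
    · intro a ha
      exact Finset.mem_coe.2 (hf a ha).1
    · intro a ha b hb hab
      by_contra hne'
      have h1 := hdis ha hb hne'
      have h2 : γ (f a) ∈ closedBall a (r a) := hmem a ha _ (hf a ha).2
      have h3 : γ (f a) ∈ closedBall b (r b) := by
        rw [hab]
        exact hmem b hb _ (hf b hb).2
      exact Set.disjoint_left.1 h1 h2 h3
  have hsub : Bd ⊆ ⋃ a ∈ hfin.toFinset, closedBall a (5 * r a) := by
    intro t ht
    obtain ⟨b, hb, hsb⟩ := hcov t ht
    rw [Set.mem_iUnion₂]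
    refine ⟨b, hfin.mem_toFinset.2 hb, hsb ?_⟩
    rw [mem_closedBall, dist_self]
    exact (hr t ht).1.le
  have hcard : ∑ a ∈ hfin.toFinset, ((S.filter fun j => |γ j - a| ≤ r a).card) ≤ S.card := by
    rw [← Finset.card_biUnion]
    · refine Finset.card_le_card ?_
      intro j hj
      rw [Finset.mem_biUnion] at hj
      obtain ⟨a, _, hj⟩ := hj
      exact (Finset.mem_filter.1 hj).1
    · intro a ha b hb hab
      refine Finset.disjoint_left.2 ?_
      intro j hja hjb
      have ha' := hfin.mem_toFinset.1 (Finset.mem_coe.1 ha)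
      have hb' := hfin.mem_toFinset.1 (Finset.mem_coe.1 hb)
      have h1 := hdis ha' hb' hab
      exact Set.disjoint_left.1 h1 (hmem a ha' j (Finset.mem_filter.1 hja).2)
        (hmem b hb' j (Finset.mem_filter.1 hjb).2)
  have hsum : ∑ a ∈ hfin.toFinset, 2 * (5 * r a) ≤ 10 / K := by
    have h1 : ∑ a ∈ hfin.toFinset, K * N * r a ≤
        ∑ a ∈ hfin.toFinset, ((S.filter fun j => |γ j - a| ≤ r a).card : ℝ) :=
      Finset.sum_le_sum fun a ha => (hr a (huB (hfin.mem_toFinset.1 ha))).2.le
    have h2 : ∑ a ∈ hfin.toFinset, ((S.filter fun j => |γ j - a| ≤ r a).card : ℝ) ≤ N := by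
      refine le_trans ?_ hN
      exact_mod_cast hcard
    have h3 : K * N * ∑ a ∈ hfin.toFinset, r a ≤ N := by
      rw [Finset.mul_sum]
      exact h1.trans h2
    have h4 : K * ∑ a ∈ hfin.toFinset, r a ≤ 1 := by
      by_contra hcon
      push Not at hcon
      nlinarith [mul_pos hNp (sub_pos.2 hcon)]
    have h5 : ∑ a ∈ hfin.toFinset, 2 * (5 * r a) = 10 * ∑ a ∈ hfin.toFinset, r a := by
      rw [Finset.mul_sum]
      exact Finset.sum_congr rfl fun a _ => by ring
    rw [h5, le_div_iff₀ hK]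
    linarith [mul_comm K (∑ a ∈ hfin.toFinset, r a)]
  calc volume Bd ≤ volume (⋃ a ∈ hfin.toFinset, closedBall a (5 * r a)) := measure_mono hsub
    _ ≤ ∑ a ∈ hfin.toFinset, volume (closedBall a (5 * r a)) := measure_biUnion_finset_le _ _
    _ = ∑ a ∈ hfin.toFinset, ENNReal.ofReal (2 * (5 * r a)) := by
        refine Finset.sum_congr rfl fun a _ => ?_
        rw [Real.volume_closedBall]
    _ = ENNReal.ofReal (∑ a ∈ hfin.toFinset, 2 * (5 * r a)) := by
        rw [ENNReal.ofReal_sum_of_nonneg]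
        intro a ha
        have := (hr a (huB (hfin.mem_toFinset.1 ha))).1
        linarith
    _ ≤ ENNReal.ofReal (10 / K) := ENNReal.ofReal_le_ofReal hsum

end MP7ed9c3.Tp
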