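import Mathlib

/-!
# MP_7ed9c3_nt, part Tp: the count of the zeros near `t` at all dyadic scales (note 5517 (c))

Markov on the whole line at the radii `120/2^s`, `s < S + 2`.
-/

set_option autoImplicit false

namespace MP7ed9c3.Tp

open MeasureTheory

/-- Markov at one radius. -/
theorem cnt_one {ι : Type} (Z : Finset ι) (b : ι → ℝ) (hb : ∀ i ∈ Z, 0 ≤ b i) (g : ι → ℝ)
    (y q : ℝ) (hq : 0 < q) :
    ∃ B : Set ℝ, MeasurableSet B ∧ volume B ≤ ENNReal.ofReal (2 * y * (∑ i ∈ Z, b i) / q) ∧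
      ∀ t, t ∉ B → ∑ i ∈ Z.filter (fun i => |g i - t| < y), b i ≤ q := by
  classical
  set f : ℝ → ENNReal := fun t => ∑ i ∈ Z,
    (Set.Ioo (g i - y) (g i + y)).indicator (fun _ => ENNReal.ofReal (b i)) t with hf
  have hfm : Measurable f := by
    refine Finset.measurable_sum _ fun i _ => ?_
    exact measurable_const.indicator measurableSet_Ioo
  have hq0 : ENNReal.ofReal q ≠ 0 := by
    simpa using hq
  refine ⟨{t | ENNReal.ofReal q ≤ f t}, measurableSet_le measurable_const hfm, ?_, ?_⟩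
  · have h1 := meas_ge_le_lintegral_div (μ := volume) hfm.aemeasurable hq0 ENNReal.ofReal_ne_top
    refine h1.trans ?_
    have h2 : ∫⁻ t, f t = ∑ i ∈ Z, ENNReal.ofReal (b i) * ENNReal.ofReal (2 * y) := by
      rw [hf, lintegral_finsetSum]
      · refine Finset.sum_congr rfl fun i _ => ?_
        rw [lintegral_indicator measurableSet_Ioo, lintegral_const, Measure.restrict_apply_univ,
          Real.volume_Ioo]
        congr 2
        ring
      · intro i _
        exact measurable_const.indicator measurableSet_Ioo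
    rw [h2, ← Finset.sum_mul, ← ENNReal.ofReal_sum_of_nonneg hb,
      ← ENNReal.ofReal_mul (Finset.sum_nonneg hb), ← ENNReal.ofReal_div_of_pos hq]
    apply ENNReal.ofReal_le_ofReal
    apply le_of_eq
    ring
  · intro t ht
    simp only [Set.mem_ofPred_eq, not_le] at ht
    have h3 : f t = ENNReal.ofReal (∑ i ∈ Z.filter (fun i => |g i - t| < y), b i) := by
      rw [ENNReal.ofReal_sum_of_nonneg (fun i hi => hb i (Finset.mem_filter.mp hi).1),
        Finset.sum_filter]
      refine Finset.sum_congr rfl fun i _ => ?_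
      by_cases h : |g i - t| < y
      · rw [if_pos h, Set.indicator_of_mem]
        rw [abs_lt] at h
        constructor <;> linarith [h.1, h.2]
      · rw [if_neg h, Set.indicator_of_notMem]
        intro h4
        apply h
        rw [abs_lt]
        constructor <;> linarith [h4.1, h4.2]
    rw [h3] at ht
    exact ((ENNReal.ofReal_lt_ofReal_iff hq).mp ht).le

/-- **Cnt**: all dyadic scales together, with weights, arbitrary constant `D`. -/
theorem tCntG (ι : Type) (Z : Finset ι) (b : ι → ℝ) (hb : ∀ i ∈ Z, 0 ≤ b i) (g : ι → ℝ)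
    (D df mu : ℝ) (S : ℕ) (hD : 0 ≤ D) (hdf : 0 < df) (hmu : 0 < mu) (hS : 2 ≤ 2 ^ S * df) :
    ∃ B : Set ℝ, MeasurableSet B ∧ volume B ≤ ENNReal.ofReal mu ∧
      ∀ t, t ∉ B → ∀ del : ℝ, df ≤ del → del ≤ 5 →
        ∑ i ∈ Z.filter (fun i => |g i - t| < D * del), b i ≤
          4 * D * ((S : ℝ) + 2) / mu * (∑ i ∈ Z, b i) * del := by
  classical
  have hsum0 : 0 ≤ ∑ i ∈ Z, b i := Finset.sum_nonneg hb
  rcases hsum0.eq_or_lt with h0 | hpos
  · refine ⟨∅, MeasurableSet.empty, by simp, ?_⟩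
    intro t _ del _ _
    rw [← h0]
    simp only [mul_zero, zero_mul]
    rw [h0]
    exact Finset.sum_le_sum_of_subset_of_nonneg (Finset.filter_subset _ _)
      (fun i hi _ => hb i hi)
  rcases hD.eq_or_lt with hD0 | hDpos
  · refine ⟨∅, MeasurableSet.empty, by simp, ?_⟩
    intro t _ del _ _
    rw [← hD0]
    simp only [mul_zero, zero_mul, zero_div]
    apply le_of_eq
    apply Finset.sum_eq_zero
    intro i hi
    exact absurd (Finset.mem_filter.mp hi).2 (not_lt.mpr (abs_nonneg _))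
  set q : ℕ → ℝ := fun s => ((S : ℝ) + 2) / mu * (10 * D / 2 ^ s) * (∑ i ∈ Z, b i) with hqdef
  have hqpos : ∀ s, 0 < q s := by
    intro s
    simp only [hqdef]
    positivity
  choose B hBm hBv hB using fun s : ℕ => cnt_one Z b hb g (5 * D / 2 ^ s) (q s) (hqpos s)
  refine ⟨⋃ s ∈ Finset.range (S + 2), B s,
    Finset.measurableSet_biUnion _ (fun s _ => hBm s), ?_, ?_⟩
  · refine (measure_biUnion_finset_le _ _).trans ?_
    have h1 : ∀ s ∈ Finset.range (S + 2), volume (B s) ≤ ENNReal.ofReal (mu / ((S : ℝ) + 2)) := by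
      intro s _
      refine (hBv s).trans (ENNReal.ofReal_le_ofReal (le_of_eq ?_))
      simp only [hqdef]
      have h2 : (2 : ℝ) ^ s ≠ 0 := by positivity
      field_simp
      ring
    refine (Finset.sum_le_sum h1).trans ?_
    rw [Finset.sum_const, Finset.card_range, nsmul_eq_mul, ← ENNReal.ofReal_natCast,
      ← ENNReal.ofReal_mul (by positivity)]
    apply ENNReal.ofReal_le_ofReal
    apply le_of_eq
    push_cast
    field_simp
  · intro t ht del hd1 hd5
    -- the scale
    have hdel : 0 < del := lt_of_lt_of_le hdf hd1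
    have hex : ∃ n : ℕ, 5 / 2 ^ n < del := by
      obtain ⟨n, hn⟩ := pow_unbounded_of_one_lt (5 / del) (by norm_num : (1 : ℝ) < 2)
      refine ⟨n, ?_⟩
      rw [div_lt_iff₀ (by positivity)]
      rw [div_lt_iff₀ hdel] at hn
      linarith
    obtain ⟨s, hs1, hs2⟩ : ∃ s : ℕ, del ≤ 5 / 2 ^ s ∧ 5 / 2 ^ (s + 1) < del := by
      have hn := Nat.find_spec hex
      have hmin := fun m (hm : m < Nat.find hex) => Nat.find_min hex hm
      have hpos' : Nat.find hex ≠ 0 := by
        intro h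
        rw [h] at hn
        norm_num at hn
        linarith
      obtain ⟨k, hk⟩ := Nat.exists_eq_succ_of_ne_zero hpos'
      refine ⟨k, ?_, ?_⟩
      · exact not_lt.mp (hmin k (by omega))
      · rw [hk] at hn
        exact hn
    have h2s : (0 : ℝ) < 2 ^ s := by positivity
    have hsS : s < S + 2 := by
      by_contra hcon
      push Not at hcon
      have h3 : (2 : ℝ) ^ (S + 2) ≤ 2 ^ s := pow_le_pow_right₀ (by norm_num) hcon
      have h4 : del * 2 ^ s ≤ 5 := by
        rwa [le_div_iff₀ h2s] at hs1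
      have h5 : (2 : ℝ) ^ (S + 2) = 4 * 2 ^ S := by ring
      have h6 : df * 2 ^ (S + 2) ≤ del * 2 ^ s := by
        apply mul_le_mul hd1 h3 (by positivity) hdel.le
      rw [h5] at h6
      nlinarith
    have htB : t ∉ B s := by
      intro h
      apply ht
      simp only [Set.mem_iUnion]
      exact ⟨s, Finset.mem_range.mpr hsS, h⟩
    have h7 := hB s t htB
    have h8 : ∑ i ∈ Z.filter (fun i => |g i - t| < D * del), b i ≤
        ∑ i ∈ Z.filter (fun i => |g i - t| < 5 * D / 2 ^ s), b i := by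
      apply Finset.sum_le_sum_of_subset_of_nonneg
      · intro i hi
        rw [Finset.mem_filter] at hi ⊢
        refine ⟨hi.1, lt_of_lt_of_le hi.2 ?_⟩
        have : (5 : ℝ) * D / 2 ^ s = D * (5 / 2 ^ s) := by ring
        rw [this]
        exact mul_le_mul_of_nonneg_left hs1 hDpos.le
      · intro i hi _
        exact hb i (Finset.mem_filter.mp hi).1
    refine h8.trans (h7.trans ?_)
    simp only [hqdef]
    have h9 : (10 : ℝ) * D / 2 ^ s ≤ 4 * D * del := by
      have h10 : (10 : ℝ) * D / 2 ^ s = 4 * D * (5 / 2 ^ (s + 1)) := by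
        rw [pow_succ]
        field_simp
        norm_num
      rw [h10]
      exact mul_le_mul_of_nonneg_left hs2.le (by positivity)
    calc ((S : ℝ) + 2) / mu * (10 * D / 2 ^ s) * (∑ i ∈ Z, b i)
        ≤ ((S : ℝ) + 2) / mu * (4 * D * del) * (∑ i ∈ Z, b i) := by
          apply mul_le_mul_of_nonneg_right _ hpos.le
          apply mul_le_mul_of_nonneg_left h9 (by positivity)
      _ = _ := by ring

/-- **Cnt**: all dyadic scales together, with weights. -/
theorem tCnt (ι : Type) (Z : Finset ι) (b : ι → ℝ) (hb : ∀ i ∈ Z, 0 ≤ b i) (g : ι → ℝ)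
    (df mu : ℝ) (S : ℕ) (hdf : 0 < df) (hmu : 0 < mu) (hS : 2 ≤ 2 ^ S * df) :
    ∃ B : Set ℝ, MeasurableSet B ∧ volume B ≤ ENNReal.ofReal mu ∧
      ∀ t, t ∉ B → ∀ del : ℝ, df ≤ del → del ≤ 5 →
        ∑ i ∈ Z.filter (fun i => |g i - t| < 24 * del), b i ≤
          96 * ((S : ℝ) + 2) / mu * (∑ i ∈ Z, b i) * del := by
  obtain ⟨B, h1, h2, h3⟩ := tCntG ι Z b hb g 24 df mu S (by norm_num) hdf hmu hS
  refine ⟨B, h1, h2, fun t ht del hd hd5 => ?_⟩
  have h := h3 t ht del hd hd5
  norm_num at h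
  exact h

/-- **Cnt** for a family indexed by `Fin N`. -/
theorem tCntF (N : ℕ) (g : Fin N → ℝ) (df mu : ℝ) (S : ℕ) (hdf : 0 < df) (hmu : 0 < mu)
    (hS : 2 ≤ 2 ^ S * df) :
    ∃ B : Set ℝ, MeasurableSet B ∧ volume B ≤ ENNReal.ofReal mu ∧
      ∀ t, t ∉ B → ∀ del : ℝ, df ≤ del → del ≤ 5 →
        (((Finset.univ.filter (fun j => |g j - t| < 24 * del)).card : ℕ) : ℝ) ≤
          96 * ((S : ℝ) + 2) / mu * N * del := by
  obtain ⟨B, h1, h2, h3⟩ := tCnt (Fin N) Finset.univ (fun _ => 1) (fun _ _ => zero_le_one) g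
    df mu S hdf hmu hS
  refine ⟨B, h1, h2, fun t ht del hd hd5 => ?_⟩
  have h := h3 t ht del hd hd5
  simp only [Finset.sum_const, nsmul_eq_mul, mul_one, Finset.card_univ, Fintype.card_fin] at h
  exact h

/-- **Cnt** for a finite set of zeros (each counted once) and the constant `D` of the geometry:
the nodes near `1` inject into the zeros near height `t`. -/
theorem tCntZ (Z : Finset ℂ) (D df mu : ℝ) (S : ℕ) (hD : 0 ≤ D) (hdf : 0 < df) (hmu : 0 < mu)
    (hS : 2 ≤ 2 ^ S * df) :
    ∃ B : Set ℝ, MeasurableSet B ∧ volume B ≤ ENNReal.ofReal mu ∧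
      ∀ t, t ∉ B → ∀ del : ℝ, df ≤ del → del ≤ 5 →
        (((Z.filter (fun ρ => |ρ.im - t| < D * del)).card : ℕ) : ℝ) ≤
          4 * D * ((S : ℝ) + 2) / mu * Z.card * del := by
  obtain ⟨B, h1, h2, h3⟩ := tCntG ℂ Z (fun _ => 1) (fun _ _ => zero_le_one) (fun ρ => ρ.im)
    D df mu S hD hdf hmu hS
  refine ⟨B, h1, h2, fun t ht del hd hd5 => ?_⟩
  have h := h3 t ht del hd hd5
  simp only [Finset.sum_const, nsmul_eq_mul, mul_one] at h
  exact h

/-- **Cnt** for the nodes: if `J t` (nodes at `t`) injects by `f t` into the finite set `Z` of zeros and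
`|Im f - t| ≤ C d`, `d` the distance of the node, then the number of the nodes with `d < 6 del` is
at most `24 C (S + 2)/mu |Z| del`. -/
theorem tCntJ (Z : Finset ℂ) (C df mu : ℝ) (S : ℕ) (hC : 0 < C) (hdf : 0 < df) (hmu : 0 < mu)
    (hS : 2 ≤ 2 ^ S * df) :
    ∃ B : Set ℝ, MeasurableSet B ∧ volume B ≤ ENNReal.ofReal mu ∧
      ∀ t, t ∉ B → ∀ (ι : Type) (J : Finset ι) (f : ι → ℂ) (d : ι → ℝ),
        (∀ j ∈ J, f j ∈ Z) → Set.InjOn f J → (∀ j ∈ J, |(f j).im - t| ≤ C * d j) →
        ∀ del : ℝ, df ≤ del → del ≤ 5 →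
          (((J.filter (fun j => d j < 6 * del)).card : ℕ) : ℝ) ≤
            24 * C * ((S : ℝ) + 2) / mu * Z.card * del := by
  classical
  obtain ⟨B, h1, h2, h3⟩ := tCntZ Z (6 * C) df mu S (by positivity) hdf hmu hS
  refine ⟨B, h1, h2, fun t ht ι J f d hf hinj hd del hdel hdel5 => ?_⟩
  have h := h3 t ht del hdel hdel5
  have hcard : (J.filter (fun j => d j < 6 * del)).card ≤
      (Z.filter (fun ρ => |ρ.im - t| < 6 * C * del)).card := by
    apply Finset.card_le_card_of_injOn f
    · intro j hj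
      have hj' := Finset.mem_filter.mp (Finset.mem_coe.mp hj)
      refine Finset.mem_coe.mpr (Finset.mem_filter.mpr ⟨hf j hj'.1, ?_⟩)
      refine lt_of_le_of_lt (hd j hj'.1) ?_
      have := mul_lt_mul_of_pos_left hj'.2 hC
      linarith
    · intro x hx y hy hxy
      exact hinj (Finset.mem_coe.mpr (Finset.mem_filter.mp (Finset.mem_coe.mp hx)).1)
        (Finset.mem_coe.mpr (Finset.mem_filter.mp (Finset.mem_coe.mp hy)).1) hxy
  refine le_trans (by exact_mod_cast hcard) (h.trans (le_of_eq ?_))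
  ring

end MP7ed9c3.Tp
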