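import Pool.Agent.Lib.MP_7ed9c3_nt.Aw.Spec
import Pool.Agent.Lib.MP_7ed9c3_nt.Tp.Cnt

/-!
# MP_7ed9c3_nt, part Tp: one window

If `G` has at most `N` zeros in the window of half height `h` at `t₁`, then most `t` near `t₁` have few zeros near
height `t` at all dyadic scales and no zero very near, so a property of `t` which forces a zero very near holds only on a
set of measure at most `3h/8`.
-/

set_option autoImplicit false

namespace MP7ed9c3.Tp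

open MeasureTheory MP7ed9c3.Aw

/-- A set all of whose finite subsets have at most `N` elements is finite. -/
theorem fin_of_card (s : Set ℂ) (N : ℕ) (hN : ∀ Z : Finset ℂ, (∀ ρ ∈ Z, ρ ∈ s) → Z.card ≤ N) :
    ∃ Z : Finset ℂ, (∀ ρ, ρ ∈ Z ↔ ρ ∈ s) ∧ Z.card ≤ N := by
  classical
  rcases Set.finite_or_infinite s with hs | hs
  · refine ⟨hs.toFinset, fun ρ => by simp, ?_⟩
    exact hN _ (fun ρ hρ => by simpa using hρ)
  · exfalso
    obtain ⟨T, hT1, hT2⟩ := hs.exists_subset_card_eq (N + 1)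
    have := hN T (fun ρ hρ => hT1 (Finset.mem_coe.mpr hρ))
    omega

/-- **WinT**: one window. -/
theorem tWinT (σ₁ h t₁ D df nu m₁ : ℝ) (N Sf : ℕ) (G : ℂ → ℂ) (E : Set ℝ) (hh : 0 < h)
    (hD : 0 < D) (hdf : 0 < df) (hS : 2 ≤ 2 ^ Sf * df)
    (hN : ∀ Z : Finset ℂ, (∀ ρ ∈ Z, ρ ∈ win σ₁ h t₁ ∧ G ρ = 0) → Z.card ≤ N)
    (hn1 : 384 * D * ((Sf : ℝ) + 2) * N ≤ h * (nu * m₁)) (hn2 : 8 * N * D * df ≤ h)
    (hloc : ∀ t ∈ E, |t - t₁| ≤ h / 2 →
      (∀ del : ℝ, df ≤ del → del ≤ 5 → ∀ Z : Finset ℂ,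
        (∀ ρ ∈ Z, ρ ∈ win σ₁ (h / 2) t ∧ G ρ = 0 ∧ |ρ.im - t| ≤ D * (6 * del)) →
        (Z.card : ℝ) ≤ nu * m₁ * del) →
      ∃ ρ ∈ win σ₁ (h / 2) t, G ρ = 0 ∧ |ρ.im - t| ≤ D * df) :
    volume (E ∩ Set.Icc (t₁ - h / 2) (t₁ + h / 2)) ≤ ENNReal.ofReal (3 * h / 8) := by
  classical
  obtain ⟨Z₀, hZ₀, hZc⟩ := fin_of_card {ρ | ρ ∈ win σ₁ h t₁ ∧ G ρ = 0} N
    (fun Z hZ => hN Z (fun ρ hρ => hZ ρ hρ))
  have hZcR : (Z₀.card : ℝ) ≤ N := by exact_mod_cast hZc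
  obtain ⟨B, hBm, hBv, hB⟩ := tCntZ Z₀ (12 * D) df (h / 8) Sf (by positivity) hdf (by positivity) hS
  have hwin : ∀ t : ℝ, |t - t₁| ≤ h / 2 → ∀ ρ ∈ win σ₁ (h / 2) t, ρ ∈ win σ₁ h t₁ := by
    intro t ht ρ hρ
    refine ⟨hρ.1, ?_⟩
    have h1 : |ρ.im - t| < h / 2 := hρ.2
    rw [abs_le] at ht
    rw [abs_lt] at h1 ⊢
    constructor <;> linarith [ht.1, ht.2, h1.1, h1.2]
  have hsub : E ∩ Set.Icc (t₁ - h / 2) (t₁ + h / 2) ⊆
      B ∪ ⋃ ρ ∈ Z₀, Set.Icc (ρ.im - D * df) (ρ.im + D * df) := by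
    intro t ht
    by_cases htB : t ∈ B
    · exact Or.inl htB
    right
    have ht1 : |t - t₁| ≤ h / 2 := by
      rw [abs_le]
      constructor <;> linarith [ht.2.1, ht.2.2]
    obtain ⟨ρ, hρw, hρ0, hρt⟩ := hloc t ht.1 ht1 (by
      intro del hdel hdel5 Z hZ
      have hdelpos : 0 < del := lt_of_lt_of_le hdf hdel
      have h1 := hB t htB del hdel hdel5
      have h2 : Z.card ≤ (Z₀.filter (fun ρ => |ρ.im - t| < 12 * D * del)).card := by
        apply Finset.card_le_card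
        intro ρ hρ
        obtain ⟨h3, h4, h5⟩ := hZ ρ hρ
        refine Finset.mem_filter.mpr ⟨(hZ₀ ρ).mpr ⟨hwin t ht1 ρ h3, h4⟩, lt_of_le_of_lt h5 ?_⟩
        have : 0 < D * del := by positivity
        nlinarith
      have h3 : (Z.card : ℝ) ≤ 4 * (12 * D) * ((Sf : ℝ) + 2) / (h / 8) * Z₀.card * del :=
        le_trans (by exact_mod_cast h2) h1
      refine h3.trans ?_
      apply mul_le_mul_of_nonneg_right _ hdelpos.le
      have h4 : 4 * (12 * D) * ((Sf : ℝ) + 2) / (h / 8) * Z₀.card =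
          (384 * D * ((Sf : ℝ) + 2) * Z₀.card) / h := by
        field_simp
        ring
      rw [h4, div_le_iff₀ hh]
      have h5 : 384 * D * ((Sf : ℝ) + 2) * Z₀.card ≤ 384 * D * ((Sf : ℝ) + 2) * N :=
        mul_le_mul_of_nonneg_left hZcR (by positivity)
      linarith)
    simp only [Set.mem_iUnion]
    refine ⟨ρ, (hZ₀ ρ).mpr ⟨hwin t ht1 ρ hρw, hρ0⟩, ?_⟩
    rw [abs_le] at hρt
    constructor <;> linarith [hρt.1, hρt.2]
  have hcov : volume (⋃ ρ ∈ Z₀, Set.Icc (ρ.im - D * df) (ρ.im + D * df)) ≤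
      ENNReal.ofReal (h / 4) := by
    refine (measure_biUnion_finset_le _ _).trans ?_
    have h1 : ∀ ρ ∈ Z₀, volume (Set.Icc (ρ.im - D * df) (ρ.im + D * df)) ≤
        ENNReal.ofReal (2 * D * df) := by
      intro ρ _
      rw [Real.volume_Icc]
      apply ENNReal.ofReal_le_ofReal
      apply le_of_eq
      ring
    refine (Finset.sum_le_sum h1).trans ?_
    rw [Finset.sum_const, nsmul_eq_mul, ← ENNReal.ofReal_natCast,
      ← ENNReal.ofReal_mul (by positivity)]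
    apply ENNReal.ofReal_le_ofReal
    have h2 : (Z₀.card : ℝ) * (2 * D * df) ≤ N * (2 * D * df) :=
      mul_le_mul_of_nonneg_right hZcR (by positivity)
    nlinarith
  calc volume (E ∩ Set.Icc (t₁ - h / 2) (t₁ + h / 2))
      ≤ volume (B ∪ ⋃ ρ ∈ Z₀, Set.Icc (ρ.im - D * df) (ρ.im + D * df)) := measure_mono hsub
    _ ≤ volume B + volume (⋃ ρ ∈ Z₀, Set.Icc (ρ.im - D * df) (ρ.im + D * df)) :=
        measure_union_le _ _
    _ ≤ ENNReal.ofReal (h / 8) + ENNReal.ofReal (h / 4) := add_le_add hBv hcov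
    _ = ENNReal.ofReal (3 * h / 8) := by
        rw [← ENNReal.ofReal_add (by positivity) (by positivity)]
        congr 1
        ring

end MP7ed9c3.Tp
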