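import Pool.Agent.Lib.MP_7ed9c3_nt.Tp.SpecX2
import Pool.Agent.Lib.MP_7ed9c3_nt.Tp.CntV
import Pool.Agent.Lib.MP_7ed9c3_nt.Tp.WinT

/-!
# MP_7ed9c3_nt, part Tp: the detector with `quo = N (log V + loglog T)`
-/

set_option autoImplicit false

namespace MP7ed9c3.Tp

open MeasureTheory Metric MP7ed9c3.Aw

/-- `log V ≥ e` for `V ≥ 16`. -/
private theorem logV_ge (V : ℝ) (hV : 16 ≤ V) : 2.7 ≤ Real.log V := by
  have hV0 : 0 < V := by linarith
  rw [Real.le_log_iff_exp_le hV0]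
  have h6 : Real.exp 2.7 = Real.exp 1 ^ 2 * Real.exp 0.7 := by
    rw [← Real.exp_nat_mul, ← Real.exp_add]
    norm_num
  have h7 : Real.exp 0.7 ≤ 2.1 := by
    have h8 : Real.exp 0.7 = Real.exp 0.35 ^ 2 := by
      rw [← Real.exp_nat_mul]
      norm_num
    have h9 : Real.exp 0.35 ≤ 1.44 := by
      have h10 := Real.exp_bound' (x := 0.35) (by norm_num) (by norm_num) (n := 4) (by norm_num)
      refine h10.trans ?_
      norm_num [Finset.sum_range_succ, Nat.factorial]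
    rw [h8]
    nlinarith [Real.exp_pos (0.35 : ℝ)]
  have he : Real.exp 1 ≤ 2.72 := by linarith [Real.exp_one_lt_d9]
  rw [h6]
  have h11 : Real.exp 1 ^ 2 ≤ 2.72 ^ 2 := pow_le_pow_left₀ (Real.exp_pos _).le he 2
  nlinarith [Real.exp_pos (0.7 : ℝ)]

/-- The numbers. -/
private theorem numX (D h : ℝ) (hD : 1 ≤ D) (hh : 0 < h) :
    ∃ C₃ : ℝ, 16 ≤ C₃ ∧ ∀ (LL Lg m₀ lT : ℝ) (N : ℕ), 1 ≤ LL → LL ≤ Lg → 1 ≤ N →
      LL = Real.log lT → 0 < lT → m₀ ≤ lT → C₃ * (N * Lg) ≤ m₀ →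
      ∃ (df kap nu : ℝ) (Sf : ℕ), 0 < df ∧ df ≤ 1 ∧ 2 ≤ 2 ^ Sf * df ∧ (2 : ℝ) ^ Sf * df ≤ 4 ∧
        0 < kap ∧ 12 * nu ≤ kap ∧ 0 < nu ∧ kap * (D * (Sf + 3)) ≤ 1 ∧
        D * (2 * Lg + Sf + 1) ≤ m₀ * df ∧ 120 * D * N / h ≤ nu * m₀ ∧ 4 * N * (D * df) ≤ h := by
  set E : ℝ := 8 * D with hE
  refine ⟨16 + E + 20000 * D ^ 2 / h + 4 * D * E / h, ?_, ?_⟩
  · have h1 : 0 ≤ 20000 * D ^ 2 / h := by positivity
    have h2 : 0 ≤ 4 * D * E / h := by positivity
    have h3 : 0 ≤ E := by positivity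
    linarith
  intro LL Lg m₀ lT N hLL hLg hN hLLl hlT hm₀T hm₀
  have hN1 : (1 : ℝ) ≤ N := by exact_mod_cast hN
  have hLg1 : 1 ≤ Lg := hLL.trans hLg
  have hNL : 1 ≤ N * Lg := by
    have := mul_le_mul hN1 hLg1 zero_le_one (by linarith)
    linarith
  have hLgN : Lg ≤ N * Lg := le_mul_of_one_le_left (by linarith) hN1
  have hD2 : 0 ≤ 20000 * D ^ 2 / h := by positivity
  have hDE : 0 ≤ 4 * D * E / h := by positivity
  have hE0 : 0 < E := by positivity
  have hexp : (16 + E + 20000 * D ^ 2 / h + 4 * D * E / h) * (N * Lg) =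
      16 * (N * Lg) + E * (N * Lg) + 20000 * D ^ 2 / h * (N * Lg) + 4 * D * E / h * (N * Lg) := by
    ring
  rw [hexp] at hm₀
  have hNL0 : 0 ≤ N * Lg := by linarith
  have p1 : 0 ≤ E * (N * Lg) := by positivity
  have p2 : 0 ≤ 20000 * D ^ 2 / h * (N * Lg) := by positivity
  have p3 : 0 ≤ 4 * D * E / h * (N * Lg) := by positivity
  have hm0pos : 0 < m₀ := by linarith
  have c1 : E * Lg ≤ m₀ := by
    have := mul_le_mul_of_nonneg_left hLgN hE0.le
    linarith
  have c2 : 20000 * D ^ 2 / h * (N * Lg) ≤ m₀ := by linarith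
  have c3 : 4 * D * E / h * (N * Lg) ≤ m₀ := by linarith
  set df : ℝ := E * Lg / m₀ with hdf
  have hdf0 : 0 < df := by positivity
  have hdf1 : df ≤ 1 := by
    rw [hdf, div_le_one hm0pos]
    exact c1
  have hdfm : m₀ * df = E * Lg := by
    rw [hdf]
    field_simp
  -- the scale
  have hex : ∃ n : ℕ, 2 ≤ 2 ^ n * df := by
    obtain ⟨n, hn⟩ := pow_unbounded_of_one_lt (2 / df) (by norm_num : (1 : ℝ) < 2)
    refine ⟨n, ?_⟩
    rw [div_lt_iff₀ hdf0] at hn
    exact hn.le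
  set Sf := Nat.find hex with hSf
  have hS1 : 2 ≤ 2 ^ Sf * df := Nat.find_spec hex
  have hS2 : (2 : ℝ) ^ Sf * df ≤ 4 := by
    have hpos : Sf ≠ 0 := by
      intro h0
      rw [h0] at hS1
      norm_num at hS1
      linarith
    obtain ⟨k, hk⟩ := Nat.exists_eq_succ_of_ne_zero hpos
    have hlt : k < Nat.find hex := by rw [← hSf, hk]; exact Nat.lt_succ_self k
    have hmin := Nat.find_min hex hlt
    push Not at hmin
    rw [hk, pow_succ]
    linarith
  have hSLL : (Sf : ℝ) ≤ 2 * LL := by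
    have h1 : (2 : ℝ) ^ Sf ≤ lT := by
      have h2 : (2 : ℝ) ^ Sf * (E * Lg) ≤ 4 * m₀ := by
        rw [← hdfm]
        have := mul_le_mul_of_nonneg_left hS2 hm0pos.le
        linarith
      have h3 : 4 ≤ E * Lg := by
        have : E * 1 ≤ E * Lg := mul_le_mul_of_nonneg_left hLg1 hE0.le
        rw [hE] at this ⊢
        linarith
      have h4 : (2 : ℝ) ^ Sf * 4 ≤ (2 : ℝ) ^ Sf * (E * Lg) :=
        mul_le_mul_of_nonneg_left h3 (by positivity)
      linarith
    have h2 : Real.log ((2 : ℝ) ^ Sf) ≤ LL := by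
      rw [hLLl]
      exact Real.log_le_log (by positivity) h1
    rw [Real.log_pow] at h2
    have h3 : (0.5 : ℝ) ≤ Real.log 2 := by linarith [Real.log_two_gt_d9]
    have h4 : (Sf : ℝ) * 0.5 ≤ Sf * Real.log 2 :=
      mul_le_mul_of_nonneg_left h3 (Nat.cast_nonneg _)
    linarith
  have hS0 : (0 : ℝ) ≤ Sf := Nat.cast_nonneg _
  have hden : 0 < D * ((Sf : ℝ) + 3) := by positivity
  refine ⟨df, 1 / (D * (Sf + 3)), 1 / (D * (Sf + 3)) / 12, Sf, hdf0, hdf1, hS1, hS2,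
    by positivity, ?_, by positivity, ?_, ?_, ?_, ?_⟩
  · apply le_of_eq
    ring
  · apply le_of_eq
    field_simp
  · rw [hdfm, hE]
    have h1 : 2 * Lg + Sf + 1 ≤ 8 * Lg := by linarith
    have h2 := mul_le_mul_of_nonneg_left h1 (by linarith : 0 ≤ D)
    linarith
  · have h1 : 1 / (D * ((Sf : ℝ) + 3)) / 12 * m₀ = m₀ / (12 * (D * (Sf + 3))) := by
      field_simp
    rw [h1, le_div_iff₀ (by positivity)]
    have h2 : (Sf : ℝ) + 3 ≤ 5 * Lg := by linarith
    have h3 : 120 * D * N / h * (12 * (D * (Sf + 3))) =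
        1440 * D ^ 2 / h * (N * (Sf + 3)) := by
      field_simp
      ring
    rw [h3]
    have h4 : (N : ℝ) * (Sf + 3) ≤ N * (5 * Lg) := mul_le_mul_of_nonneg_left h2 (by linarith)
    have h5 : 1440 * D ^ 2 / h * (N * (Sf + 3)) ≤ 1440 * D ^ 2 / h * (N * (5 * Lg)) :=
      mul_le_mul_of_nonneg_left h4 (by positivity)
    have h6 : 1440 * D ^ 2 / h * (N * (5 * Lg)) ≤ 20000 * D ^ 2 / h * (N * Lg) := by
      have h7 : 1440 * D ^ 2 / h * (N * (5 * Lg)) = 7200 * D ^ 2 / h * (N * Lg) := by ring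
      rw [h7]
      apply mul_le_mul_of_nonneg_right _ hNL0
      apply div_le_div_of_nonneg_right _ hh.le
      nlinarith [sq_nonneg D]
    linarith
  · have h1 : 4 * (N : ℝ) * (D * df) = (4 * D * E / h * (N * Lg)) * h / m₀ := by
      rw [hdf]
      field_simp
    rw [h1, div_le_iff₀ hm0pos]
    have := mul_le_mul_of_nonneg_right c3 hh.le
    linarith

/-- **DetX** (from `S_LocX`, `S_KrnX`). -/
theorem tDetX (h1 : S_LocX) (h2 : S_KrnX) : S_DetX := by
  classical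
  intro h σ₁ b r₀ R R' R₂ R₁ C A' hh hC hrad hA'
  obtain ⟨D, hD1, hloc⟩ := h1 h σ₁ b r₀ R R' R₂ R₁ C A' hh hC hrad hA'
  have hD0 : 0 < D := by linarith
  obtain ⟨C₃, hC₃, hnum⟩ := numX D h hD1 hh
  refine ⟨C₃, by linarith, ?_⟩
  intro V T N m₀ hV hVT hN hm₀ hm₀T
  have hV16 : 16 ≤ V := by linarith
  have hV0 : 0 < V := by linarith
  have hlogV : 2.7 ≤ Real.log V := logV_ge V hV16
  have hlogVT : Real.log V ≤ Real.log T := Real.log_le_log hV0 hVT
  have hlogT0 : 0 < Real.log T := by linarith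
  have hLL1 : 1 ≤ Real.log (Real.log T) := by
    rw [Real.le_log_iff_exp_le hlogT0]
    have he : Real.exp 1 ≤ 2.72 := by linarith [Real.exp_one_lt_d9]
    have h3 : (2.72 : ℝ) ≤ Real.log T := by
      have h4 : (2.72 : ℝ) ≤ Real.log V := by
        have h5 : Real.log 16 = 4 * Real.log 2 := by
          rw [show (16 : ℝ) = 2 ^ 4 by norm_num, Real.log_pow]
          norm_num
        have h6 := Real.log_le_log (by norm_num : (0 : ℝ) < 16) hV16
        linarith [Real.log_two_gt_d9]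
      linarith
    linarith
  have hm₀' : C₃ * (N * (Real.log V + Real.log (Real.log T))) ≤ m₀ := hm₀
  obtain ⟨df, kap, nu, Sf, hdf0, hdf1, hSf1, hSf2, hkap0, hnu, hnu0, hkapD, hmdf, hcnt, hNdf⟩ :=
    hnum (Real.log (Real.log T)) (Real.log V + Real.log (Real.log T)) m₀ (Real.log T) N hLL1
      (by linarith) hN rfl hlogT0 hm₀T hm₀'
  have hN1 : (1 : ℝ) ≤ N := by exact_mod_cast hN
  have hm₀16 : (16 : ℝ) ≤ m₀ := by
    refine le_trans ?_ hm₀'
    have h3 : 1 ≤ Real.log V + Real.log (Real.log T) := by linarith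
    have h4 : 1 ≤ (N : ℝ) * (Real.log V + Real.log (Real.log T)) := by
      have := mul_le_mul hN1 h3 zero_le_one (by linarith)
      linarith
    have h5 := mul_le_mul hC₃ h4 zero_le_one (by linarith)
    linarith
  have hm₀4 : 4 ≤ m₀ := by
    have : (4 : ℝ) ≤ m₀ := by linarith
    exact_mod_cast this
  choose js hjs1 hjs2 using fun m : {m : ℕ // 4 ≤ m} => h2 Sf m.1 m.2
  refine ⟨D * df, fun m => alX Sf m, fun m => DX Sf m,
    fun m => if hm : 4 ≤ m then js ⟨m, hm⟩ else 0, by positivity, hNdf, ?_, ?_⟩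
  · intro m hm _
    have hm2 : 4 ≤ m := hm₀4.trans hm
    simp only [dif_pos hm2]
    exact ⟨hjs1 ⟨m, hm2⟩, hjs2 ⟨m, hm2⟩⟩
  · intro c G t₁ hc hG hGV hGe hGN
    obtain ⟨Z₀, hZ₀, hZc⟩ := fin_of_card {ρ | ρ ∈ win σ₁ (2 * h) t₁ ∧ G ρ = 0} N
      (fun Z hZ => hGN Z (fun ρ hρ => hZ ρ hρ))
    have hZcR : (Z₀.card : ℝ) ≤ N := by exact_mod_cast hZc
    have hQ := cntV Z₀ (fun ρ : ℂ => ρ.im) (20 / h) N (by positivity) hZcR
    have h10 : 10 / (20 / h) = h / 2 := by
      field_simp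
      norm_num
    rw [h10] at hQ
    refine ⟨_, hQ, ?_⟩
    intro t ht htB m kk q hm hmT hkk1 hkk2 hq heW hcmb
    have hm2 : 4 ≤ m := hm₀4.trans hm
    have hmR : (m₀ : ℝ) ≤ m := by exact_mod_cast hm
    have hm0 : (0 : ℝ) ≤ m := Nat.cast_nonneg _
    have hsub : win σ₁ h t ⊆ win σ₁ (2 * h) t₁ := by
      intro ρ hρ
      refine ⟨hρ.1, ?_⟩
      have h4 : |ρ.im - t| < h := hρ.2
      rw [abs_lt] at h4 ht ⊢
      constructor <;> linarith [h4.1, h4.2, ht.1, ht.2]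
    simp only [dif_pos hm2] at hcmb
    have hlogVm : Real.log (V + m) ≤ 2 * (Real.log V + Real.log (Real.log T)) := by
      have h4 : V + m ≤ V * Real.log T * 2 := by
        have h5 : (1 : ℝ) ≤ Real.log T := by linarith
        have h6 : V ≤ V * Real.log T := le_mul_of_one_le_right hV0.le h5
        have h7 : (m : ℝ) ≤ V * Real.log T := by
          have h8 : 1 * Real.log T ≤ V * Real.log T :=
            mul_le_mul_of_nonneg_right (by linarith) hlogT0.le
          linarith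
        linarith
      have h8 : Real.log (V + m) ≤ Real.log (V * Real.log T * 2) :=
        Real.log_le_log (by linarith) h4
      have h9 : Real.log (V * Real.log T * 2) =
          Real.log V + Real.log (Real.log T) + Real.log 2 := by
        rw [Real.log_mul (by positivity) (by norm_num), Real.log_mul hV0.ne' hlogT0.ne']
      have h10 : Real.log 2 ≤ 1 := by linarith [Real.log_two_lt_d9]
      rw [h9] at h8
      linarith
    refine hloc c G t V q df kap nu m kk (js ⟨m, hm2⟩) Sf hc (by linarith) (hG.mono hsub)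
      (fun s hs => hGV s (hsub hs)) (fun s hs h3 => hGe s (hsub hs) h3) hq heW hm2 hkk1 hkk2
      (hjs1 ⟨m, hm2⟩).lt (hjs2 ⟨m, hm2⟩) hdf0 hdf1 hSf1 hSf2 hkap0 hnu hkapD ?_ ?_ hcmb
    · have h4 : D * (Real.log (V + m) + Sf + 1) ≤
          D * (2 * (Real.log V + Real.log (Real.log T)) + Sf + 1) :=
        mul_le_mul_of_nonneg_left (by linarith) hD0.le
      have h5 : (m₀ : ℝ) * df ≤ m * df := mul_le_mul_of_nonneg_right hmR hdf0.le
      linarith
    · intro del hdel hdel5 Z hZ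
      have hdelpos : 0 < del := lt_of_lt_of_le hdf0 hdel
      have h4 : ¬ ((20 / h) * N * (D * (6 * del)) <
          ((Z₀.filter fun ρ => |ρ.im - t| ≤ D * (6 * del)).card : ℝ)) := by
        intro h5
        exact htB ⟨D * (6 * del), by positivity, h5⟩
      push Not at h4
      have h5 : Z.card ≤ (Z₀.filter (fun ρ => |ρ.im - t| ≤ D * (6 * del))).card := by
        apply Finset.card_le_card
        intro ρ hρ
        obtain ⟨h6, h7, h8⟩ := hZ ρ hρ
        exact Finset.mem_filter.mpr ⟨(hZ₀ ρ).mpr ⟨hsub h6, h7⟩, h8⟩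
      have h6 : (Z.card : ℝ) ≤ (20 / h) * N * (D * (6 * del)) :=
        le_trans (by exact_mod_cast h5) h4
      refine h6.trans ?_
      have h7 : (20 / h) * N * (D * (6 * del)) = 120 * D * N / h * del := by
        ring
      rw [h7]
      apply mul_le_mul_of_nonneg_right _ hdelpos.le
      refine hcnt.trans ?_
      exact mul_le_mul_of_nonneg_left hmR hnu0.le

end MP7ed9c3.Tp
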