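import Pool.Agent.Lib.MP_7ed9c3_nt.Tp.SpecK
import Pool.Agent.Lib.MP_7ed9c3_nt.Tp.SpecY

/-!
# MP_7ed9c3_nt, project TP, part B: blocks, exceptional set, windows, numbers, core (statements)

The core is stated for an arbitrary quantity `quo V T N` and an arbitrary detector (`DetZ quo`): kernels for all
scales `m ≥ m₀ ≥ C₃ quo V T N` such that a large combination `cmb` at a typical `t` of a window with at most `N` zeros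
implies a zero at distance `≤ δ`, `4 N δ ≤ h`.  Result (`CoreZ h quo`): fewer than `N` different zeros only on a set of
measure `≤ A (quo V T N/log T)^c₁ T`.  `S_DetH`: the detector for `quo = N (N + log V + loglog T)` (Fejer kernel, `S_LocW`).

Module `Tp/Name.lean` with `theorem tName : S_Name` (the statements after the word from are hypotheses, in this
order), importing only this file (and Mathlib, and finished modules); the complete proof is in the docstring.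
`Aw.dir`, not `dir`.  Auxiliary lemmas private.
-/

set_option autoImplicit false

namespace MP7ed9c3.Tp

open NumberField IsDedekindDomain Filter Topology MeasureTheory Metric
open MP7ed9c3.Aw

/-! ## B1. Blocks -/

/-- **ProdY** (from `Aw.S_PM`, `Aw.S_EX`): the mean value of the product, as `Aw.S_ProdX` with a bound for each block.

Proof.  As `Aw/ProdX.lean` with `Q i = (M i)²`: the error is `2 (∏ M_i²) ∏ (3 + M_i)² ≤ 2 ∏ (4 M_i)⁴`. -/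
def S_ProdY : Prop :=
  ∀ (I : ℕ) (nn : ℕ → ℕ) (S : ℕ → Finset ℕ) (v : ∀ i : ℕ, ℕ → Fin (nn i) → ℂ) (M : ℕ → ℕ) (q a b : ℝ),
    a ≤ b → (∀ i < I, 1 ≤ M i) → 0 ≤ q →
    (∀ i < I, ∀ m ∈ S i, 1 ≤ m ∧ m ≤ M i) →
    (∀ i < I, ∀ i' < I, i ≠ i' → ∀ m ∈ S i, ∀ m' ∈ S i', m.Coprime m') →
    (∀ i < I, ∑ m ∈ S i, uu (v i) m = 1) → (∀ i < I, quad (S i) (v i) ≤ q) →
    ∫ t in a..b, ∏ i ∈ Finset.range I, (3 - dE (S i) (v i) t) ^ 2 ≤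
      (b - a) * (3 + q) ^ I + 2 * ∏ i ∈ Finset.range I, (4 * (M i : ℝ)) ^ 4

/-- **BlkY** (from `Aw.S_Quads`, `S_ProdY`): as `Aw.S_BlocksX`, for arbitrary coefficients.

Proof.  As `Aw/BlocksX.lean`, with `nn i = 1`, `v i m 0 = u i m/√v_i`, `v_i = ∑_(blk) ‖u i m‖²`, `S i` = the prime powers in
`blk (M i) (M (i+1))`, `S_ProdY` with `M (i+1)` in place of `M i`. -/
def S_BlkY : Prop :=
  ∀ (τ a b : ℝ) (u : ℕ → ℕ → ℂ) (I : ℕ) (M : ℕ → ℕ), 0 ≤ τ → a ≤ b → 1 ≤ M 0 →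
    (∀ i < I, M i < M (i + 1)) → (∀ i < I, ∀ m : ℕ, ¬ IsPrimePow m → u i m = 0) →
    (∀ i < I, 0 < ∑ m ∈ blk (M i) (M (i + 1)), ‖u i m‖ ^ 2) →
    (∀ i < I, ∀ m ∈ blk (M i) (M (i + 1)),
      ‖u i m‖ ^ 2 ≤ τ * ∑ m' ∈ blk (M i) (M (i + 1)), ‖u i m'‖ ^ 2) →
    τ * (Nat.log 2 (M I) : ℝ) ^ 2 ≤ 1 / 10 →
    volume {t : ℝ | t ∈ Set.Icc a b ∧ ∀ i < I,
        ‖∑ m ∈ blk (M i) (M (i + 1)), u i m * (m : ℂ) ^ (-(t * Complex.I))‖ ^ 2 ≤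
        (∑ m ∈ blk (M i) (M (i + 1)), ‖u i m‖ ^ 2) / 2} ≤
      ENNReal.ofReal ((9 / 10) ^ I * (b - a) +
        2 * ∏ i ∈ Finset.range I, (4 * (M (i + 1) : ℝ)) ^ 4)

/-- **Rem**: the numbers outside the block.

Proof.  The prime powers in `Ioc M₀ M₁ \ blk M₀ M₁` are powers `p^j ≤ M₁` of primes `p ≤ M₀`, `1 ≤ j ≤ Nat.log 2 M₁`: at most
`M₀ (Nat.log 2 M₁)` numbers (injection `m ↦ (m.minFac, j)`; see `Aw/WinAX.lean`, where this is proved). -/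
def S_Rem : Prop :=
  ∀ (M₀ M₁ : ℕ) (f : ℕ → ℝ) (B : ℝ), 1 ≤ M₀ → 0 ≤ B → (∀ m : ℕ, ¬ IsPrimePow m → f m = 0) →
    (∀ m : ℕ, 1 ≤ m → 0 ≤ f m ∧ f m ≤ B) →
    blk M₀ M₁ ⊆ Finset.Ioc M₀ M₁ ∧
    ∑ m ∈ Finset.Ioc M₀ M₁ \ blk M₀ M₁, f m ≤ M₀ * (Nat.log 2 M₁ : ℝ) * B

/-! ## B2. The data of a scale -/

/-- A kernel: `D` nonnegative coefficients with sum `1`. -/
structure Krn (al : ℕ → ℝ) (D js : ℕ) : Prop where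
  nonneg : ∀ j, 0 ≤ al j
  sum : ∑ j ∈ Finset.range D, al j = 1
  lt : js < D
  big : 1 ≤ (D : ℝ) * al js

/-- The data of a scale. -/
structure ScD (h R' : ℝ) (c : ℕ → ℂ) (A' m M₀ M₁ : ℕ) (al : ℕ → ℝ) (D js kk : ℕ) (q τ : ℝ) :
    Prop where
  k1 : m ≤ kk
  k2 : kk ≤ A' * m
  q1 : 1 / R' ≤ q
  nw : ∀ k : ℕ, m ≤ k → k ≤ A' * m → nW h c k M₀ M₁ ≤ (q ^ k) ^ 2
  pp : ∀ m' : ℕ, ¬ IsPrimePow m' → uW h c al D kk js q m' = 0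
  up : ∀ m' ∈ blk M₀ M₁, ‖uW h c al D kk js q m'‖ ^ 2 ≤ τ
  lo : 1 ≤ ∑ m' ∈ blk M₀ M₁, ‖uW h c al D kk js q m'‖ ^ 2
  dif : ∀ t : ℝ, ‖cmb al D kk js q (fun k => eW h c k t) -
        ∑ m' ∈ blk M₀ M₁, uW h c al D kk js q m' * (m' : ℂ) ^ (-(t * Complex.I))‖ ≤ 1 / 8
  trn : ∀ (t : ℝ) (k : ℕ), m ≤ k → k ≤ A' * m → ‖eW h c k t - aW h c k M₀ M₁ t‖ ≤ q ^ k

/-- **Sca** (from `S_TrnW`, `S_LowW`, `S_Max`, `S_UDir`, `S_Cmb`, `S_Rem`): the data exist.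

Proof.  `A₀`, `β₀`, `m₁` from `S_LowW`; `A' = max A₀ 16`; `δ₂`, `β₂`, `ω`, `m₂` from `S_TrnW` with `2 A' + 3` in place of `A'`.  `γ = log(R₂/R') > 0`,
`δ = min (δ₂/2) (min (γ/4) 1)`, `β = max β₀ β₂`, `θ = exp(-γ/2)`.  (The bound `M₁ ≤ exp((β+1) m)` gives `Nat.log 2 M₁ ≤ 2 (β+1) m`.)  `S_LowW` (`M₀ ≤ exp m`) gives `k`; `S_Max` on
`m ≤ k ≤ A' m` (`f k = nW`, `p = 1/R'`): `kk`, `q`.  `nw`: clear.  `pp`: `c m' = 0`, so `vW = 0`.  `2 js < 2 D ≤ m ≤ kk`, so `kk - js ≥ m/2`, `2 (kk - js) ≥ m`.  `S_UDir` (3):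
`‖uW‖ ≤ C (A' + 1) m (R'/R₂)^(kk-js)`, square `≤ C² (A'+1)² m² exp(-γ m) ≤ θ^m` for large `m`: `up`.  `S_UDir` (2), `nW h c kk = (q^kk)² > 0`: `∑_(Ioc) ‖uW‖² ≥ (al js kk)² ≥
(m/D)² ≥ 4`, and by `S_Rem` (`f = ‖uW‖²`, `B = C² (A'+1)² m² exp(-γ m)`) the numbers outside the block contribute at most
`exp(δ m) 2(β+1) m B ≤ 1`: `lo`.  `dif`: `m' = (m+1)/2`; for `kk - js ≤ k < kk - js + D`: `m' ≤ k ≤ (2A'+3) m'`, `M₀ ≤ exp(δ m) ≤ exp(δ₂ m')`, `exp(β₂ m') ≤ M₁`: `S_TrnW` gives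
`‖k (eW - aW)‖ ≤ k exp(-ω m') (1/R')^k ≤ q^k/16` for large `m`, so by `S_Cmb` and `S_UDir` (1) `‖cmb eW - ∑_(Ioc) uW m^(-it)‖ ≤ 1/16`, and by `S_Rem` with `f = ‖uW‖`, `B = C (A'+1) m exp(-γ m/2)` the
numbers outside the block contribute at most `1/16` (`δ ≤ γ/4`).  `trn`: `S_TrnW` for `m` itself or for `m'` (`exp(-ω m') (1/R')^k ≤ q^k`). -/
def S_Sca : Prop :=
  ∀ (h σ₁ b r₀ R R' R₂ R₁ C η B : ℝ) (k₀ : ℕ), 0 < h → 0 ≤ C → 0 < η → 1 ≤ B →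
    Radii h σ₁ b r₀ R R' R₂ R₁ →
    ∃ (A' m₀ : ℕ) (δ β θ : ℝ), 16 ≤ A' ∧ 1 ≤ m₀ ∧ 0 < δ ∧ 0 < β ∧ 0 < θ ∧ θ < 1 ∧
    ∀ c : ℕ → ℂ, Coefs c C → ∀ Y₀ : ℝ, LowU c k₀ (ell h R) η B Y₀ →
      ∀ (m M₀ M₁ : ℕ) (al : ℕ → ℝ) (D js : ℕ), m₀ ≤ m → Y₀ ≤ Real.exp m → 1 ≤ M₀ →
      M₀ ≤ M₁ → (M₀ : ℝ) ≤ Real.exp (δ * m) → Real.exp (β * m) ≤ M₁ →
      (M₁ : ℝ) ≤ Real.exp ((β + 1) * m) → Krn al D js → 2 * D ≤ m →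
      ∃ (kk : ℕ) (q : ℝ), ScD h R' c A' m M₀ M₁ al D js kk q (θ ^ m)

/-- **BadB** (from `S_TypW`, `S_BlkY`): the exceptional set.

Proof.  Let `t` be in the set.  Either some `i < I`, `m_i ≤ k ≤ A' m_i` has `‖eW‖ > (V + m_i) q^k`, then `‖aW‖ ≥ ‖eW‖ - q^k > (V + m_i - 1) q^k ≥ m_i q^k` (`trn`, `V ≥ 1`): by `S_TypW` with `lam = m_i`,
`K = A' m_i`, `a = t₀ - T`, `b = t₀ + T` (`2 M(i+1)² ≤ 2T`) these `t` have measure at most `2 (2T)(A' m_i + 1)/m_i² ≤ 4 (A'+1) T/m_i` (`m_i ≥ 1`).  Or `‖cmb‖ < 1/4` for all `i < I`; then `‖∑_(blk) uW m^(-it)‖ < 1/4 + 1/8`,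
its square is `< 1/2 ≤ (∑ ‖uW‖²)/2` for all `i < I`: `S_BlkY` with `u i = uW …`, and `τ` (`up`, `lo`: `‖uW‖² ≤ τ ≤ τ ∑`): measure at most `(9/10)^I (2T) + 2 ∏`.  Union bound (`measure_union_le`, `measure_biUnion_finset_le`). -/
def S_BadB : Prop :=
  ∀ (h R' T t₀ V τ : ℝ) (A' I : ℕ) (ms M D js kk : ℕ → ℕ) (al : ℕ → ℕ → ℝ) (q : ℕ → ℝ)
    (c : ℕ → ℂ), 0 < R' → 1 ≤ V → 0 ≤ T → 0 ≤ τ → 1 ≤ M 0 → (∀ i < I, 1 ≤ ms i) →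
    (∀ i < I, M i < M (i + 1)) → (∀ i < I, (M (i + 1) : ℝ) ^ 2 ≤ T) →
    τ * (Nat.log 2 (M I) : ℝ) ^ 2 ≤ 1 / 10 →
    (∀ i < I, ScD h R' c A' (ms i) (M i) (M (i + 1)) (al i) (D i) (js i) (kk i) (q i) τ) →
    volume {t : ℝ | |t - t₀| < T ∧ ¬ ((∀ i < I, ∀ k : ℕ, ms i ≤ k → k ≤ A' * ms i →
          ‖eW h c k t‖ ≤ (V + ms i) * q i ^ k) ∧
          ∃ i < I, 1 / 4 ≤ ‖cmb (al i) (D i) (kk i) (js i) (q i) (fun k => eW h c k t)‖)} ≤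
      ENNReal.ofReal ((9 / 10) ^ I * (2 * T) +
        2 * ∏ i ∈ Finset.range I, (4 * (M (i + 1) : ℝ)) ^ 4 +
        ∑ i ∈ Finset.range I, 4 * ((A' : ℝ) + 1) * T / ms i)

/-! ## B3. Windows -/

/-- **WinB**: from the points to the windows.

Proof.  `B'` a measurable set containing `Bd` with the same measure (`toMeasurable`).  Let `|t₁ - t₀| < T - 2h` and `t₁ ∈ fewY G σ₁ (2h) T t₀ N`.  The set of the zeros of `G` in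
`win σ₁ (2h) t₁` (contained in `win σ₁ T t₀`, since `|t₁ - t₀| + 2h ≤ T`) has fewer than `N` elements: every finite set `Z` of such zeros has `Z.card ≤ N - 1` (otherwise a subset with `N` elements), so the set of the zeros is a finite set `Z₁`,
`Z₁.card ≤ N`.  The hypothesis gives `Q`; `Ioo (t₁-h) (t₁+h) \ (B' ∪ Q)` is contained in the union of the `Icc (ρ.im - δ) (ρ.im + δ)`, `ρ ∈ Z₁` (`win σ₁ h t ⊆ win σ₁ (2h) t₁`), so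
`2h ≤ volume (B' ∩ Ioo (t₁-h) (t₁+h)) + h/2 + 2 N δ`, `volume (B' ∩ Ioo (t₁-h) (t₁+h)) ≥ h`.  `∫⁻ volume (B' ∩ Ioo (t₁-h) (t₁+h)) dt₁ = 2h volume B'` (Tonelli, as in `S_Fub`), so by
Markov the set of these `t₁` has measure at most `2 volume B' ≤ 2 μ`.  The other `t₁` (`T - 2h ≤ |t₁ - t₀| < T`) have measure at most `4h`. -/
def S_WinB : Prop :=
  ∀ (G : ℂ → ℂ) (σ₁ h δ μ T t₀ : ℝ) (N : ℕ) (Bd : Set ℝ), 0 < h → 0 < δ → 0 ≤ μ → 2 * h ≤ T →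
    1 ≤ N → 4 * N * δ ≤ h → volume Bd ≤ ENNReal.ofReal μ →
    (∀ t₁ : ℝ, |t₁ - t₀| < T - 2 * h →
      (∀ Z : Finset ℂ, (∀ ρ ∈ Z, ρ ∈ win σ₁ (2 * h) t₁ ∧ G ρ = 0) → Z.card ≤ N) →
      ∃ Q : Set ℝ, volume Q ≤ ENNReal.ofReal (h / 2) ∧ ∀ t : ℝ, |t - t₁| < h → t ∉ Q → t ∉ Bd →
        ∃ ρ ∈ win σ₁ h t, G ρ = 0 ∧ |ρ.im - t| ≤ δ) →
    volume (fewY G σ₁ (2 * h) T t₀ N) ≤ ENNReal.ofReal (2 * μ + 4 * h)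

/-! ## B4. Numbers -/

/-- The ends of the blocks. -/
noncomputable def Mb (β : ℝ) (m K : ℕ) : ℕ → ℕ
  | 0 => 1
  | i + 1 => ⌈Real.exp (β * ((m * K ^ i : ℕ) : ℝ))⌉₊

/-- **NumC**: the choice of the scales `m_i = m K^i`, `i < I`.

Proof.  `Qu ≥ log V ≥ 1`.  `K = ⌈2β/δ⌉₊ + 2`, `C' = max C₃ (m₀ + 3 + 1/β + 2/δ)`, `c₇ = 1/(16 (β + 3))`, `c₂ = log(10/9)/log K ≤ 1/4` (`K ≥ 2`: `log(10/9) ≤ 0.106`, `log 2 ≥ 0.69`), `c₁ = c₂/2`.  `g > 0` small with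
`4 K C' √g ≤ c₇` and `g ≤ 1`.  If `Qu > g log T`: `(Qu/log T)^(c₁) ≥ g^(c₁) ≥ g`, first case if `E ≥ 2/g`.  Otherwise `Y = C' √(Qu log T) ≥ C' Qu` (`Qu ≤ log T`), `Y ≥ C' √(log T)`; `m = ⌈Y⌉₊ ≤ 2Y ≤ 2 C' √g log T ≤ c₇ log T/(2K)`; `I ≥ 1` with
`m K^I ≤ c₇ log T < m K^(I+1)`.  `m ≥ C₃ Qu`, `m ≥ m₀`, `m ≥ 3 log V`, so `V² ≤ exp m`.  Blocks: `Mb (i+1) ≤ exp(β m_i) + 1 ≤ exp((β+1) m_i)`; `Mb i ≤ 2 exp(β m_i/K) ≤ exp(δ m_i)` for `i ≥ 1` (`β/K ≤ δ/2`, `log 2 ≤ δ m_i/2`), `Mb 0 = 1`; `Mb i < Mb (i+1)`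
since `exp(β m_i) ≥ exp(β m_(i-1)) + 1` (`β m_(i-1) ≥ 1`, `K ≥ 2`), `exp(β m) > 1`.  `Mb(i+1)² ≤ exp(2(β+1) c₇ log T) ≤ T`.  `K^I ≤ log T`, so `(9/10)^I = (K^I)^(-c₂) ≥ (log T)^(-1/4)`.
`(9/10)^I = (10/9) (K^(I+1))^(-c₂) ≤ (10/9) (m/(c₇ log T))^(c₂) ≤ E (√(Qu/log T))^(c₂)`.  `∏ (4 Mb(i+1))⁴ ≤ exp(4 ∑ (2 m_i + (β+1) m_i)) ≤ exp(4 (β+3) m_I) ≤ T^(1/4)` (`∑_(i<I) m_i ≤ m_I` as `K ≥ 2`; `log 4 ≤ 2`), `2 T^(1/4) ≤ (log T)^(-1/4) T` for large `T`.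
`∑ 4 (A'+1)/m_i ≤ 8 (A'+1)/m ≤ 8 (A'+1)/√(log T) ≤ (log T)^(-1/4)` for large `T`.  `Nat.log 2 (Mb I) ≤ 2 (β+1) m_(I-1) ≤ log T`, `θ^m (log T)² ≤ 1/10` since `m ≥ √(log T)` and `T` is large.  `4h ≤ (log T)^(-1/4) T`.  (`T ≥ V ≥ V₀`.) -/
def S_NumC : Prop :=
  ∀ (δ β θ h C₃ : ℝ) (A' m₀ : ℕ), 0 < δ → 0 < β → 0 < θ → θ < 1 → 0 < h → 1 ≤ C₃ →
    ∃ (K : ℕ) (E c₁ V₀ : ℝ), 2 ≤ K ∧ 1 ≤ E ∧ 0 < c₁ ∧ c₁ ≤ 1 ∧ 3 ≤ V₀ ∧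
      ∀ V T Qu : ℝ, V₀ ≤ V → V ≤ T → Real.log V ≤ Qu →
        2 ≤ E * (Qu / Real.log T) ^ c₁ ∨
        ∃ I m : ℕ, 1 ≤ I ∧ 1 ≤ m ∧ m₀ ≤ m ∧ C₃ * Qu ≤ m ∧ V ^ 2 ≤ Real.exp m ∧
          ((m * K ^ I : ℕ) : ℝ) ≤ Real.log T ∧
          (∀ i < I, (Mb β m K i : ℝ) ≤ Real.exp (δ * ((m * K ^ i : ℕ) : ℝ)) ∧
            Real.exp (β * ((m * K ^ i : ℕ) : ℝ)) ≤ Mb β m K (i + 1) ∧
            (Mb β m K (i + 1) : ℝ) ≤ Real.exp ((β + 1) * ((m * K ^ i : ℕ) : ℝ)) ∧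
            Mb β m K i < Mb β m K (i + 1) ∧ (Mb β m K (i + 1) : ℝ) ^ 2 ≤ T) ∧
          θ ^ m * (Nat.log 2 (Mb β m K I) : ℝ) ^ 2 ≤ 1 / 10 ∧
          2 * ∏ i ∈ Finset.range I, (4 * (Mb β m K (i + 1) : ℝ)) ^ 4 ≤ (9 / 10) ^ I * T ∧
          ∑ i ∈ Finset.range I, 4 * ((A' : ℝ) + 1) * T / ((m * K ^ i : ℕ) : ℝ) ≤
            (9 / 10) ^ I * T ∧
          4 * h ≤ (9 / 10) ^ I * T ∧ (9 / 10) ^ I ≤ E * (Qu / Real.log T) ^ c₁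

/-! ## B5. The core -/

/-- A detector with the quantity `quo`. -/
def DetZ (quo : ℝ → ℝ → ℕ → ℝ) : Prop :=
  ∀ (h σ₁ b r₀ R R' R₂ R₁ C : ℝ) (A' : ℕ), 0 < h → 0 ≤ C → Radii h σ₁ b r₀ R R' R₂ R₁ → 16 ≤ A' →
    ∃ C₃ : ℝ, 3 ≤ C₃ ∧ ∀ (V T : ℝ) (N m₀ : ℕ), C₃ ≤ V → V ≤ T → 1 ≤ N → C₃ * quo V T N ≤ m₀ →
      (m₀ : ℝ) ≤ Real.log T →
      ∃ (δ : ℝ) (al : ℕ → ℕ → ℝ) (D js : ℕ → ℕ), 0 < δ ∧ 4 * N * δ ≤ h ∧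
        (∀ m : ℕ, m₀ ≤ m → (m : ℝ) ≤ Real.log T → Krn (al m) (D m) (js m) ∧ 2 * D m ≤ m) ∧
        ∀ (c : ℕ → ℂ) (G : ℂ → ℂ) (t₁ : ℝ), Coefs c C →
          DifferentiableOn ℂ G (win σ₁ (2 * h) t₁) →
          (∀ s ∈ win σ₁ (2 * h) t₁, ‖G s‖ ≤ Real.exp V) →
          (∀ s ∈ win σ₁ (2 * h) t₁, 3 ≤ s.re → G s = Complex.exp (Aw.dir c s)) →
          (∀ Z : Finset ℂ, (∀ ρ ∈ Z, ρ ∈ win σ₁ (2 * h) t₁ ∧ G ρ = 0) → Z.card ≤ N) →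
          ∃ Q : Set ℝ, volume Q ≤ ENNReal.ofReal (h / 2) ∧ ∀ t : ℝ, |t - t₁| < h → t ∉ Q →
            ∀ (m kk : ℕ) (q : ℝ), m₀ ≤ m → (m : ℝ) ≤ Real.log T → m ≤ kk → kk ≤ A' * m →
              1 / R' ≤ q →
              (∀ k : ℕ, m ≤ k → k ≤ A' * m → ‖eW h c k t‖ ≤ (V + m) * q ^ k) →
              1 / 4 ≤ ‖cmb (al m) (D m) kk (js m) q (fun k => eW h c k t)‖ →
              ∃ ρ ∈ win σ₁ h t, G ρ = 0 ∧ |ρ.im - t| ≤ δ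

/-- The core with the quantity `quo` (`CoreY h` is `CoreZ h (fun V T N => N (N + log V + loglog T))`). -/
def CoreZ (h : ℝ) (quo : ℝ → ℝ → ℕ → ℝ) : Prop :=
  ∀ (C b : ℝ) (k : ℕ), 0 ≤ C → b ≤ 1 →
    ∀ σ₁ : ℝ, 1 / 2 ≤ σ₁ → σ₁ < b → ∃ x : ℝ, 1 / 2 < x ∧ x < b ∧
      ∀ η B : ℝ, 0 < η → 1 ≤ B → ∃ A c₁ V₀ : ℝ, 1 ≤ A ∧ 0 < c₁ ∧ c₁ ≤ 1 ∧
      ∀ V T t₀ : ℝ, V₀ ≤ V → V ≤ T →
      ∀ c : ℕ → ℂ, Coefs c C → LowU c k x η B (V ^ 2) →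
      ∀ G : ℂ → ℂ, DifferentiableOn ℂ G (win σ₁ T t₀) →
        (∀ s ∈ win σ₁ T t₀, ‖G s‖ ≤ Real.exp V) →
        (∀ s ∈ win σ₁ T t₀, 3 ≤ s.re → G s = Complex.exp (Aw.dir c s)) →
        ∀ N : ℕ, 1 ≤ N →
        volume (fewY G σ₁ h T t₀ N) ≤ ENNReal.ofReal (A * (quo V T N / Real.log T) ^ c₁ * T)

/-- **CoreB** (from `Aw.S_Rad`, `S_Sca`, `S_BadB`, `S_WinB`, `S_NumC`): the core from a detector.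

Proof.  `h' = h/2`; radii from `S_Rad` for `h'` (`σ₁`, `b`), `x = ell h' R` (`Radii.e4`, `Radii.e2`).  Given `η`, `B`: `A'`, `m₀`, `δ`, `β`, `θ` from `S_Sca`; `C₃` from `DetZ` for `h'`, `A'`; `K`, `E`, `c₁`, `V₁` from `S_NumC` (`δ β θ h' C₃ A' m₀`); `A = 10 E`,
`V₀ = max (max V₁ V₂) (max C₃ 3)`, `V₂` from the hypothesis on `quo`.  For `V ≥ V₀`, `T ≥ V`, `N`: `Qu = quo V T N ≥ log V`.  First case of `S_NumC`: `fewY ⊆ Ioo (t₀-T) (t₀+T)`, measure at most `2T ≤ E (…)^(c₁) T`.  Second case: `I`, `m`; `DetZ` with `m₀ := m` (`m ≤ m K^I ≤ log T`) gives `δ'`, `al`, `D`, `js`.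
`ms i = m K^i` (`m ≤ ms i ≤ m K^I ≤ log T` for `i < I`), `M = Mb β m K`; `S_Sca` with `Y₀ = V²` (`≤ exp m ≤ exp (ms i)`) gives `kk i`, `q i` with `τ = θ^(ms i) ≤ θ^m` (`ScD.up` is monotone in `τ`: rebuild the structure).  `Bd` = the set of `S_BadB` (`T`, `t₀`), measure `≤
4 (9/10)^I T =: μ`.  `S_WinB` with `h'`, `δ'`, `μ` (`2 h' ≤ T`: from `4h' ≤ (9/10)^I T`): for `|t₁ - t₀| < T - 2h'` the box contains `win σ₁ (2h') t₁`, `DetZ` gives `Q`; for `|t - t₁| < h'`, `t ∉ Q`, `t ∉ Bd` (`|t - t₀| < T`): some `i < I` with `1/4 ≤ ‖cmb‖`, and the bounds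
for `eW`: the zero.  So `volume (fewY G σ₁ (2h') …) ≤ 2 · 4 (9/10)^I T + 4h' ≤ 9 (9/10)^I T ≤ A (…)^(c₁) T`; `2 h' = h`. -/
def S_CoreB : Prop :=
  ∀ (quo : ℝ → ℝ → ℕ → ℝ) (V₂ : ℝ),
    (∀ (V T : ℝ) (N : ℕ), V₂ ≤ V → V ≤ T → 1 ≤ N → Real.log V ≤ quo V T N) →
    DetZ quo → ∀ h : ℝ, 0 < h → CoreZ h quo

/-! ## B6. The detector with the Fejer kernel -/

/-- **DetH** (from `S_LocW`): `quo = N (N + log V + loglog T)`.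

Proof.  `D₀ ≥ 1` from `S_LocW` (`h σ₁ b … C A'`).  `l = N + log V + loglog T ≥ 1` (`V ≥ 3`, so `log V ≥ 1`, `loglog T ≥ 0`).  `L = ⌈3 D₀ l⌉₊` (`3 D₀ l ≤ L ≤ 4 D₀ l`), `n = m₀/(2L)` (natural division), `C₃ = 8 D₀ (4 D₀/h + 2) + 3`: `n ≥ m₀/(2L) - 1 ≥ C₃ N l/(8 D₀ l) - 1 ≥ N (4 D₀/h + 2) - 1 ≥
1`, and `n ≥ 4 N D₀/h`.  `δ = D₀/n`: `4 N δ ≤ h`.  For all `m`: `al m = Tk.al n L`, `D m = n L`, `js m` from `Tk.exists_large` (`Krn`: `Tk.al_nonneg`, `Tk.sum_al_real`); `2 n L ≤ m₀ ≤ m`.  `Q = ∅`.  For `m ≤ log T`: `log(V + m) ≤ log V + log(1 + log T) ≤ log V + loglog T + 1 ≤ 2l`, so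
`D₀ (N + log(V+m)) ≤ 3 D₀ l ≤ L`.  `S_LocW` with `lam = V + m`, for `t` (`win σ₁ h t ⊆ win σ₁ (2h) t₁` as `|t - t₁| < h`; `4m ≤ A' m`). -/
def S_DetH : Prop :=
  DetZ (fun V T N => N * (N + Real.log V + Real.log (Real.log T)))

/-- **DetL** (from `S_PsW`, `S_Inj`, Lemma LT, the count lemma, the kernel `Q_S^b`; note 5517 of helper42): `quo = N (log V + loglog T) loglog T`.

Different zeros with weights `b_a`, `∑ b_a ≤ A (V+1)`; conditions of LT: `N Sf² ≤ c m`, `κ m df ≥ 2 (6 + log(Lam + ∑ b))`, `κ = c/Sf`, `df = C loglog T (log V + loglog T)/m₀`. -/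
def S_DetL : Prop :=
  DetZ (fun V T N => N * (Real.log V + Real.log (Real.log T)) * Real.log (Real.log T))

end MP7ed9c3.Tp
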