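import Pool.Agent.Lib.MP_7ed9c3_nt.Tp.KerP
import Pool.Agent.Lib.MP_7ed9c3_nt.Tp.SpecB

/-!
# MP_7ed9c3_nt, part Tp: the kernel `ks S ^ b * pm (2^S) ^ b'` as a polynomial with coefficients `≥ 0`
-/

set_option autoImplicit false

namespace MP7ed9c3.Tp

open Polynomial

/-- The kernel polynomial. -/
noncomputable def kxP (S b b' : ℕ) : Polynomial ℝ := ksP S ^ b * pmP (2 ^ S) ^ b'

theorem kxP_nonneg (S b b' : ℕ) : ∀ k, 0 ≤ (kxP S b b').coeff k :=
  coeff_mul_nonneg (ksP_nonneg S b) (coeff_pow_nonneg (pmP_nonneg _) b')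

theorem kxP_one (S b b' : ℕ) : eval 1 (kxP S b b') = 1 := by
  unfold kxP
  rw [eval_mul, ksP_one, eval_pow, pmP_one _ Nat.one_le_two_pow, one_pow, one_mul]

theorem kxP_deg (S b b' : ℕ) :
    (kxP S b b').natDegree ≤ b * ((S + 1) * 2 ^ S) + b' * 2 ^ S := by
  unfold kxP
  refine natDegree_mul_le.trans (Nat.add_le_add (ksP_deg S b) ?_)
  refine natDegree_pow_le.trans (Nat.mul_le_mul le_rfl ?_)
  exact (pmP_deg _).trans (Nat.sub_le _ _)

theorem kxP_eval (S b b' : ℕ) (w : ℂ) :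
    eval w ((kxP S b b').map Complex.ofRealHom) = ks S w ^ b * pm (2 ^ S) w ^ b' := by
  unfold kxP
  rw [Polynomial.map_mul, eval_mul, ksP_eval_pow, Polynomial.map_pow, eval_pow, pmP_eval]

/-- The generating identity. -/
theorem kxP_sum (S b b' D : ℕ) (hD : b * ((S + 1) * 2 ^ S) + b' * 2 ^ S < D) (w : ℂ) :
    ∑ j ∈ Finset.range D, ((kxP S b b').coeff j : ℂ) * w ^ j = ks S w ^ b * pm (2 ^ S) w ^ b' := by
  rw [← kxP_eval, eval_eq_sum_range'
    (lt_of_le_of_lt (natDegree_map_le.trans (kxP_deg S b b')) hD) w]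
  refine Finset.sum_congr rfl fun k _ => ?_
  rw [coeff_map]
  rfl

/-- The coefficients are a kernel. -/
theorem kxP_krn (S b b' : ℕ) :
    ∃ js : ℕ, Krn (fun j => (kxP S b b').coeff j) (b * ((S + 1) * 2 ^ S) + b' * 2 ^ S + 1) js := by
  obtain ⟨j, hj, hj'⟩ := max_coeff (kxP S b b') (b * ((S + 1) * 2 ^ S) + b' * 2 ^ S)
    (kxP_one S b b') (kxP_deg S b b')
  refine ⟨j, ⟨kxP_nonneg S b b', ?_, by omega, ?_⟩⟩
  · have := kxP_one S b b'
    rw [eval_eq_sum_range' (Nat.lt_succ_of_le (kxP_deg S b b')) 1] at this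
    simpa using this
  · have hpos : (0 : ℝ) < ((b * ((S + 1) * 2 ^ S) + b' * 2 ^ S : ℕ) : ℝ) + 1 := by positivity
    rw [div_le_iff₀ hpos] at hj'
    push_cast at hj' ⊢
    linarith

end MP7ed9c3.Tp
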