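import Pool.Agent.Lib.MP_7ed9c3_nt.Tp.SpecX2
import Pool.Agent.Lib.MP_7ed9c3_nt.Tp.KerX

/-! Part Tp: the value of the kernel of `DetX`. -/

set_option autoImplicit false

namespace MP7ed9c3.Tp

theorem tEvX : S_EvX := by
  intro Sf m w
  exact kxP_sum (Sf + 2) (b1X Sf m) (b2X Sf m) (DX Sf m) (Nat.lt_succ_self _) w

end MP7ed9c3.Tp
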