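import Pool.Agent.Lib.MP_7ed9c3_nt.Tp.SpecX2
import Pool.Agent.Lib.MP_7ed9c3_nt.Tp.KerX

/-! Part Tp: the kernel of `DetX` is a kernel. -/

set_option autoImplicit false

namespace MP7ed9c3.Tp

theorem tKrnX : S_KrnX := by
  intro Sf m hm
  obtain ⟨js, hjs⟩ := kxP_krn (Sf + 2) (b1X Sf m) (b2X Sf m)
  refine ⟨js, hjs, ?_⟩
  have h3 : b1X Sf m * (8 * ((Sf + 3) * 2 ^ (Sf + 2))) ≤ m := Nat.div_mul_le_self _ _
  have h4 : b2X Sf m * (8 * 2 ^ (Sf + 2)) ≤ m := Nat.div_mul_le_self _ _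
  have e3 : b1X Sf m * (8 * ((Sf + 3) * 2 ^ (Sf + 2))) =
      8 * (b1X Sf m * ((Sf + 3) * 2 ^ (Sf + 2))) := by ring
  have e4 : b2X Sf m * (8 * 2 ^ (Sf + 2)) = 8 * (b2X Sf m * 2 ^ (Sf + 2)) := by ring
  unfold DX
  omega

end MP7ed9c3.Tp
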