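import Pool.Agent.Lib.MP_7ed9c3_nt.Tp.TuranW
import Pool.Agent.Lib.MP_7ed9c3_nt.Tp.Ker

/-!
# MP_7ed9c3_nt, part Tp: Lemma LT with a kernel with a constant part (note 5551)

`w_j` complex numbers with natural weights `b_j ≥ 1`, all weighted power sums with exponents in `[m, 16m]` at most `Λ`; near the
point `1` there are few `w_j` at every scale `δ ≥ df`.  Then `|w_j| ≤ exp(κ max(|1 - w_j|, df) + θ df)` for all `j`, under
`log(Λ + ∑ b) ≤ θ m df` with a constant `θ`.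
-/

set_option autoImplicit false

namespace MP7ed9c3.Tp

/-- The kernel with a constant part. -/
noncomputable def kx (S : ℕ) (w : ℂ) : ℂ := ks S w * pm (2 ^ S) w ^ (2 * (S + 1))

theorem av_kx (S : ℕ) (u : ℂ) (hu : ‖u‖ = 1) :
    Av (fun w => kx S (u * w)) (3 * ((S + 1) * 2 ^ S)) := by
  have h1 := av_mul (av_ks S u hu) (av_pow (av_pm (2 ^ S) Nat.one_le_two_pow u hu) (2 * (S + 1)))
  apply av_mono h1
  have h2 : 2 * (S + 1) * (2 ^ S - 1) ≤ 2 * (S + 1) * 2 ^ S := Nat.mul_le_mul le_rfl (Nat.sub_le _ _)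
  calc (S + 1) * 2 ^ S + 2 * (S + 1) * (2 ^ S - 1) ≤ (S + 1) * 2 ^ S + 2 * (S + 1) * 2 ^ S := by omega
    _ = 3 * ((S + 1) * 2 ^ S) := by ring

theorem one_le_kx (S : ℕ) (x : ℝ) (hx : 1 ≤ x) : 1 ≤ ‖kx S (x : ℂ)‖ := by
  unfold kx
  rw [norm_mul, norm_pow]
  exact one_le_mul_of_one_le_of_one_le (one_le_ks S x hx)
    (one_le_pow₀ (one_le_pm _ Nat.one_le_two_pow x hx))

/-- The factor `pm (2 ^ S)` away from `1`. -/
theorem pm_far (S : ℕ) (w : ℂ) (η : ℝ) (hη : 0 ≤ η) (hw : ‖w‖ ≤ Real.exp η)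
    (h1 : 6 ≤ 2 ^ S * ‖1 - w‖) (b : ℕ) :
    ‖pm (2 ^ S) w ^ b‖ ≤ Real.exp (b * 2 ^ S * η - b) := by
  have hd : 0 < ‖1 - w‖ := by
    rcases (norm_nonneg (1 - w)).lt_or_eq with h | h
    · exact h
    · rw [← h] at h1
      norm_num at h1
  have h2 := pm_le' (2 ^ S) Nat.one_le_two_pow w η hη hw hd
  have h3 : 2 / (((2 ^ S : ℕ) : ℝ) * ‖1 - w‖) ≤ Real.exp (-1) := by
    have h4 : (0 : ℝ) < ((2 ^ S : ℕ) : ℝ) * ‖1 - w‖ := by
      push_cast
      linarith
    rw [div_le_iff₀ h4]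
    have h5 : (1 : ℝ) / 3 ≤ Real.exp (-1) := by
      rw [Real.exp_neg, ← one_div]
      apply one_div_le_one_div_of_le (Real.exp_pos _)
      have := Real.exp_one_lt_d9
      linarith
    push_cast
    nlinarith
  have h6 : ‖pm (2 ^ S) w‖ ≤ Real.exp (2 ^ S * η - 1) := by
    calc ‖pm (2 ^ S) w‖ ≤ Real.exp (((2 ^ S : ℕ) : ℝ) * η) * (2 / (((2 ^ S : ℕ) : ℝ) * ‖1 - w‖)) := h2
      _ ≤ Real.exp (((2 ^ S : ℕ) : ℝ) * η) * Real.exp (-1) :=
          mul_le_mul_of_nonneg_left h3 (Real.exp_pos _).le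
      _ = Real.exp (2 ^ S * η - 1) := by
          rw [← Real.exp_add]
          push_cast
          rfl
  rw [norm_pow]
  calc ‖pm (2 ^ S) w‖ ^ b ≤ Real.exp (2 ^ S * η - 1) ^ b :=
        pow_le_pow_left₀ (norm_nonneg _) h6 b
    _ = Real.exp (b * 2 ^ S * η - b) := by
        rw [← Real.exp_nat_mul]
        congr 1
        ring

theorem kx_far (S : ℕ) (w : ℂ) (η : ℝ) (hη : 0 ≤ η) (hw : ‖w‖ ≤ Real.exp η)
    (h1 : 6 ≤ 2 ^ S * ‖1 - w‖) (h2 : ‖1 - w‖ ≤ 6) :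
    ‖kx S w‖ ≤ Real.exp (3 * ((S + 1) * 2 ^ S) * η - 2 ^ S * ‖1 - w‖ / 12 - 2 * (S + 1)) := by
  unfold kx
  rw [norm_mul]
  calc ‖ks S w‖ * ‖pm (2 ^ S) w ^ (2 * (S + 1))‖
      ≤ Real.exp ((S + 1) * 2 ^ S * η - 2 ^ S * ‖1 - w‖ / 12) *
        Real.exp (((2 * (S + 1) : ℕ) : ℝ) * 2 ^ S * η - ((2 * (S + 1) : ℕ) : ℝ)) :=
        mul_le_mul (ks_far S w η hη hw h1 h2) (pm_far S w η hη hw h1 _) (norm_nonneg _)
          (Real.exp_pos _).le
    _ = _ := by
        rw [← Real.exp_add]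
        congr 1
        push_cast
        ring

/-- **LTx**. -/
def S_LTx : Prop := ∀ (ι : Type) (J : Finset ι) (w : ι → ℂ) (b : ι → ℕ) (m Sf : ℕ) (Λ df κ ν θ : ℝ),
  (∀ j ∈ J, ‖w j‖ ≤ 4) → (∀ j ∈ J, 1 ≤ b j) →
  (∀ k : ℕ, m ≤ k → k ≤ 16 * m → ‖∑ j ∈ J, (b j : ℂ) * w j ^ k‖ ≤ Λ) →
  0 < df → df ≤ 5 → 2 ≤ 2 ^ Sf * df → 0 < κ → κ * (120 * (Sf + 1)) ≤ 1 → 12 * ν ≤ κ → 0 ≤ θ → 15 * θ ≤ 1 →
  (∀ δ : ℝ, df ≤ δ → δ ≤ 5 → ∀ J' : Finset ι, J' ⊆ J → (∀ j ∈ J', ‖1 - w j‖ < 6 * δ) →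
    (J'.card : ℝ) ≤ ν * m * δ) →
  Real.log (Λ + ∑ j ∈ J, (b j : ℝ)) ≤ θ * m * df → 20 * (Sf + 1) ≤ m * df →
  ∀ j ∈ J, ‖w j‖ ≤ Real.exp (κ * max ‖1 - w j‖ df + θ * df)

theorem tLTx (hT : TuranW.S_TurF) : S_LTx := by
  classical
  intro ι J w b m Sf Λ df κ ν θ hw4 hb hpow hdf hdf5 hSf hκ hκS hν hθ hθ15 hcount hlog hm
  by_contra hcon
  push Not at hcon
  obtain ⟨j1, hj1, hv1⟩ := hcon
  set V := J.filter (fun j => Real.exp (κ * max ‖1 - w j‖ df + θ * df) < ‖w j‖) with hVdef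
  have hVne : V.Nonempty := ⟨j1, Finset.mem_filter.mpr ⟨hj1, hv1⟩⟩
  obtain ⟨j0, hj0V, hmax⟩ := Finset.exists_max_image V (fun j => ‖1 - w j‖) hVne
  obtain ⟨hj0, hv0⟩ := Finset.mem_filter.mp hj0V
  set d0 := ‖1 - w j0‖ with hd0
  set δ := max d0 df with hδ
  set x0 := ‖w j0‖ with hx0
  have hδpos : 0 < δ := lt_of_lt_of_le hdf (le_max_right _ _)
  have hdfδ : df ≤ δ := le_max_right _ _
  have hd0δ : d0 ≤ δ := le_max_left _ _
  have hx1 : 1 < x0 := lt_of_le_of_lt (Real.one_le_exp (by positivity)) hv0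
  have hx4 : x0 ≤ 4 := hw4 j0 hj0
  have hx0pos : 0 < x0 := by linarith
  have hd05 : d0 ≤ 5 := by
    calc d0 ≤ ‖(1 : ℂ)‖ + ‖w j0‖ := norm_sub_le _ _
      _ ≤ 5 := by rw [norm_one]; linarith
  have hδ5 : δ ≤ 5 := max_le hd05 hdf5
  -- the direction
  set u : ℂ := w j0 / (x0 : ℂ) with hu
  have hx0c : (x0 : ℂ) ≠ 0 := by exact_mod_cast hx0pos.ne'
  have hunorm : ‖u‖ = 1 := by
    rw [hu, norm_div, Complex.norm_real, Real.norm_eq_abs, abs_of_pos hx0pos, ← hx0]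
    exact div_self hx0pos.ne'
  have hu0 : u ≠ 0 := by
    intro h
    rw [h, norm_zero] at hunorm
    norm_num at hunorm
  have huinv : ‖u⁻¹‖ = 1 := by rw [norm_inv, hunorm, inv_one]
  have hx0d : x0 - 1 ≤ d0 := by
    have h1 : ‖w j0‖ ≤ ‖w j0 - 1‖ + ‖(1 : ℂ)‖ := by
      have := norm_add_le (w j0 - 1) 1
      simpa using this
    rw [norm_one, norm_sub_rev] at h1
    linarith
  have h1u : ‖1 - u‖ ≤ 2 * d0 := by
    have e1 : w j0 - u = u * ((x0 - 1 : ℝ) : ℂ) := by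
      have : w j0 = u * (x0 : ℂ) := by rw [hu]; field_simp
      push_cast
      linear_combination this
    have e2 : ‖w j0 - u‖ = x0 - 1 := by
      rw [e1, norm_mul, hunorm, one_mul, Complex.norm_real, Real.norm_eq_abs, abs_of_pos (by linarith)]
    calc ‖1 - u‖ = ‖(1 - w j0) + (w j0 - u)‖ := by ring_nf
      _ ≤ ‖1 - w j0‖ + ‖w j0 - u‖ := norm_add_le _ _
      _ ≤ 2 * d0 := by rw [e2]; linarith
  -- the scale
  have hex : ∃ S : ℕ, 2 ≤ 2 ^ S * δ := ⟨Sf, hSf.trans (by gcongr)⟩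
  obtain ⟨S, hS, hSmin⟩ : ∃ S : ℕ, 2 ≤ 2 ^ S * δ ∧ ∀ t < S, ¬ (2 ≤ 2 ^ t * δ) :=
    ⟨Nat.find hex, Nat.find_spec hex, fun t ht => Nat.find_min hex ht⟩
  have hSS : S ≤ Sf := by
    by_contra hc
    exact hSmin Sf (by omega) (hSf.trans (by gcongr))
  have hS5 : 2 ^ S * δ ≤ 5 := by
    rcases Nat.eq_zero_or_pos S with h0 | h0
    · subst h0
      simpa using hδ5
    · have := hSmin (S - 1) (by omega)
      push Not at this
      have e : (2 : ℝ) ^ S = 2 * 2 ^ (S - 1) := by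
        rw [← pow_succ']
        congr 1
        omega
      rw [e]
      nlinarith
  have hSSr : (S : ℝ) ≤ Sf := by exact_mod_cast hSS
  set a : ℕ := 3 * ((S + 1) * 2 ^ S) with ha
  have hapos : 0 < a := by positivity
  have haR : (a : ℝ) = 3 * ((S + 1) * 2 ^ S) := by rw [ha]; push_cast; ring
  have haδ : (a : ℝ) * δ ≤ 15 * (Sf + 1) := by
    rw [haR]
    have h0 : (0 : ℝ) ≤ S := Nat.cast_nonneg S
    calc 3 * (((S : ℝ) + 1) * 2 ^ S) * δ = 3 * ((S + 1) * (2 ^ S * δ)) := by ring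
      _ ≤ 3 * ((Sf + 1) * 5) := by
        apply mul_le_mul_of_nonneg_left _ (by norm_num)
        apply mul_le_mul (by linarith) hS5 (by positivity) (by positivity)
      _ = 15 * (Sf + 1) := by ring
  have hmδ : 20 * ((Sf : ℝ) + 1) ≤ m * δ :=
    hm.trans (mul_le_mul_of_nonneg_left hdfδ (Nat.cast_nonneg m))
  have ha4 : a ≤ m := by
    have h1 : (a : ℝ) * δ ≤ m * δ := by linarith
    have h2 : (a : ℝ) ≤ m := le_of_mul_le_mul_right h1 hδpos
    exact_mod_cast h2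
  set Q : ℕ := m / a + 1 with hQ
  have hQ1 : m ≤ a * Q := (Nat.lt_mul_div_succ m hapos).le
  have hQ2 : a * Q ≤ m + a := by
    rw [hQ, mul_add, mul_one]
    have := Nat.mul_div_le m a
    omega
  -- the near ones
  set Jn := J.filter (fun j => ‖1 - w j‖ < 6 * δ) with hJn
  have hJnc : (Jn.card : ℝ) ≤ ν * m * δ :=
    hcount δ hdfδ hδ5 Jn (Finset.filter_subset _ _) (fun j hj => (Finset.mem_filter.mp hj).2)
  have hν' : ν ≤ κ / 12 := by linarith
  have hJnQ : Jn.card ≤ Q := by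
    have h1 : (Jn.card : ℝ) * a ≤ m := by
      have hm0 : (0 : ℝ) ≤ m := Nat.cast_nonneg m
      have ha0 : (0 : ℝ) ≤ a := Nat.cast_nonneg a
      calc (Jn.card : ℝ) * a ≤ ν * m * δ * a := mul_le_mul_of_nonneg_right hJnc ha0
        _ ≤ κ / 12 * m * δ * a := by
            apply mul_le_mul_of_nonneg_right _ ha0
            apply mul_le_mul_of_nonneg_right _ hδpos.le
            exact mul_le_mul_of_nonneg_right hν' hm0
        _ = κ / 12 * m * (a * δ) := by ring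
        _ ≤ κ / 12 * m * (15 * (Sf + 1)) := by
            apply mul_le_mul_of_nonneg_left haδ
            positivity
        _ = m * (κ * (120 * (Sf + 1))) / 96 := by ring
        _ ≤ m * 1 / 96 := by gcongr
        _ ≤ m := by linarith
    have h2 : Jn.card * a ≤ m := by exact_mod_cast h1
    have h3 : Jn.card ≤ m / a := (Nat.le_div_iff_mul_le hapos).mpr h2
    omega
  -- the function
  set f : ι → ℂ := fun j => w j ^ a * kx S (u⁻¹ * w j) with hf
  have hf0 : x0 ^ a ≤ ‖f j0‖ := by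
    have e : u⁻¹ * w j0 = (x0 : ℂ) := by
      rw [hu, inv_div]
      have hw0 : w j0 ≠ 0 := by
        intro h
        rw [hx0, h, norm_zero] at hx1
        linarith
      field_simp
    rw [hf]
    simp only
    rw [norm_mul, norm_pow, e]
    calc x0 ^ a = x0 ^ a * 1 := (mul_one _).symm
      _ ≤ ‖w j0‖ ^ a * ‖kx S (x0 : ℂ)‖ := by
        rw [← hx0]
        exact mul_le_mul_of_nonneg_left (one_le_kx S x0 hx1.le) (by positivity)
  have hfar : ∀ j ∈ J, ¬ (‖1 - w j‖ < 6 * δ) → ‖f j‖ < 1 := by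
    intro j hj hd
    push Not at hd
    set d := ‖1 - w j‖ with hdd
    have hdpos : 0 < d := by linarith
    have hdV : ‖w j‖ ≤ Real.exp (κ * d + θ * df) := by
      by_contra hc
      push Not at hc
      have hmx : max ‖1 - w j‖ df = d := max_eq_left (by linarith)
      have hjV : j ∈ V := Finset.mem_filter.mpr ⟨hj, by rw [hmx]; exact hc⟩
      have := hmax j hjV
      linarith
    have hd' : ‖1 - u⁻¹ * w j‖ = ‖u - w j‖ := by
      have e : u - w j = u * (1 - u⁻¹ * w j) := by field_simp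
      rw [e, norm_mul, hunorm, one_mul]
    have hlow : 2 / 3 * d ≤ ‖u - w j‖ := by
      have h1 : ‖1 - w j‖ ≤ ‖1 - u‖ + ‖u - w j‖ := by
        have := norm_add_le (1 - u) (u - w j)
        simpa using this
      linarith
    have hup : ‖u - w j‖ ≤ 6 := by
      calc ‖u - w j‖ ≤ ‖u‖ + ‖w j‖ := norm_sub_le _ _
        _ ≤ 6 := by rw [hunorm]; linarith [hw4 j hj]
    have hη0 : 0 ≤ κ * d + θ * df := by positivity
    have hnw : ‖u⁻¹ * w j‖ ≤ Real.exp (κ * d + θ * df) := by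
      rw [norm_mul, huinv, one_mul]
      exact hdV
    have h2S : (0 : ℝ) < 2 ^ S := by positivity
    have hk := kx_far S (u⁻¹ * w j) (κ * d + θ * df) hη0 hnw
      (by
        rw [hd']
        have : (4 : ℝ) * δ ≤ ‖u - w j‖ := by linarith
        nlinarith) (by rw [hd']; exact hup)
    rw [hd'] at hk
    rw [hf]
    simp only
    rw [norm_mul, norm_pow]
    calc ‖w j‖ ^ a * ‖kx S (u⁻¹ * w j)‖
        ≤ Real.exp (κ * d + θ * df) ^ a * Real.exp (3 * ((S + 1) * 2 ^ S) * (κ * d + θ * df) -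
            2 ^ S * ‖u - w j‖ / 12 - 2 * (S + 1)) := by
          apply mul_le_mul _ hk (norm_nonneg _) (by positivity)
          exact pow_le_pow_left₀ (norm_nonneg _) hdV a
      _ = Real.exp (a * (κ * d + θ * df) + (3 * ((S + 1) * 2 ^ S) * (κ * d + θ * df) -
            2 ^ S * ‖u - w j‖ / 12 - 2 * (S + 1))) := by
          rw [← Real.exp_nat_mul, ← Real.exp_add]
      _ < 1 := by
          rw [Real.exp_lt_one_iff]
          rw [haR]
          have h5 : κ * (120 * ((S : ℝ) + 1)) ≤ 1 := by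
            refine le_trans ?_ hκS
            apply mul_le_mul_of_nonneg_left _ hκ.le
            linarith
          have h6 : (2 : ℝ) ^ S * (6 * (κ * (S + 1)) * d - ‖u - w j‖ / 12) < 0 := by
            apply mul_neg_of_pos_of_neg h2S
            nlinarith
          have h8 : (2 : ℝ) ^ S * df ≤ 5 := by
            have : (2 : ℝ) ^ S * df ≤ 2 ^ S * δ := mul_le_mul_of_nonneg_left hdfδ h2S.le
            linarith
          have hS0 : (0 : ℝ) ≤ S := Nat.cast_nonneg S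
          have h9 : 6 * (((S : ℝ) + 1) * θ) * (2 ^ S * df) ≤ 6 * (((S : ℝ) + 1) * θ) * 5 :=
            mul_le_mul_of_nonneg_left h8 (by positivity)
          have h10 : ((S : ℝ) + 1) * (15 * θ) ≤ (S + 1) * 1 :=
            mul_le_mul_of_nonneg_left hθ15 (by positivity)
          have h7 : 3 * (((S : ℝ) + 1) * 2 ^ S) * (κ * d + θ * df) +
              (3 * ((S + 1) * 2 ^ S) * (κ * d + θ * df) - 2 ^ S * ‖u - w j‖ / 12 - 2 * (S + 1))
              = 2 ^ S * (6 * (κ * (S + 1)) * d - ‖u - w j‖ / 12) +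
                (6 * (((S : ℝ) + 1) * θ) * (2 ^ S * df) - 2 * (S + 1)) := by ring
          rw [h7]
          linarith
  -- Turan
  obtain ⟨j2, hj2, hmax2⟩ := Finset.exists_max_image J (fun j => ‖f j‖) ⟨j0, hj0⟩
  have hρ : x0 ^ a ≤ ‖f j2‖ := hf0.trans (hmax2 j0 hj0)
  have hx0a : 1 ≤ x0 ^ a := one_le_pow₀ hx1.le
  have hρ1 : 1 ≤ ‖f j2‖ := hx0a.trans hρ
  have hcard : (J.filter fun j => (1 : ℝ) ≤ ‖f j‖).card ≤ Jn.card := by
    apply Finset.card_le_card
    intro j hj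
    obtain ⟨hjJ, hj1'⟩ := Finset.mem_filter.mp hj
    refine Finset.mem_filter.mpr ⟨hjJ, ?_⟩
    by_contra hc
    exact absurd (hfar j hjJ hc) (not_lt.mpr hj1')
  obtain ⟨k, hk1, hk2, hk3⟩ := hT ι J f b Q Jn.card ‖f j2‖ 1 (by linarith) zero_le_one hρ1 hJnQ
    (fun j hj => hmax2 j hj) ⟨j2, hj2, rfl, hb j2 hj2⟩ (by convert hcard)
  -- the sum
  have hak1 : m ≤ a * k := hQ1.trans (Nat.mul_le_mul le_rfl hk1)
  have hak2 : 2 * (a * k) ≤ 16 * m := by
    have h1 : a * k ≤ a * (4 * Q) := Nat.mul_le_mul le_rfl hk2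
    have h2 : a * (4 * Q) = 4 * (a * Q) := by ring
    omega
  have hsum : ‖∑ j ∈ J, (b j : ℂ) * f j ^ k‖ ≤ Λ := by
    have h1 := av_pow (av_kx S u⁻¹ huinv) k ι J (fun j => (b j : ℂ) * w j ^ (a * k)) w Λ (by
      intro l hl
      have h2 := hpow (a * k + l) (by omega) (by
        have : l ≤ a * k := by
          calc l ≤ k * (3 * ((S + 1) * 2 ^ S)) := hl
            _ = a * k := by rw [ha]; ring
        omega)
      refine le_of_eq_of_le ?_ h2
      congr 1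
      apply Finset.sum_congr rfl
      intro j _
      rw [pow_add]
      ring)
    refine le_of_eq_of_le ?_ h1
    congr 1
    apply Finset.sum_congr rfl
    intro j _
    rw [hf]
    simp only
    rw [mul_pow, ← pow_mul]
    ring
  set B : ℝ := ∑ j ∈ J, (b j : ℝ) with hB
  have hB0 : 0 < B := by
    have h1 : (b j0 : ℝ) ≤ B := Finset.single_le_sum (f := fun j => (b j : ℝ))
      (fun j _ => Nat.cast_nonneg _) hj0
    have h2 : (1 : ℝ) ≤ b j0 := by exact_mod_cast hb j0 hj0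
    linarith
  have hΛ0 : 0 ≤ Λ := (norm_nonneg _).trans hsum
  have hfin : x0 ^ (a * k) ≤ (200 : ℝ) ^ Jn.card * (Λ + B) := by
    calc x0 ^ (a * k) = (x0 ^ a) ^ k := pow_mul _ _ _
      _ ≤ ‖f j2‖ ^ k := pow_le_pow_left₀ (by positivity) hρ k
      _ ≤ _ := hk3
      _ ≤ (200 : ℝ) ^ Jn.card * (Λ + B) := by
        apply mul_le_mul_of_nonneg_left _ (by positivity)
        rw [one_pow, mul_one]
        linarith
  have hlogf := Real.log_le_log (by positivity) hfin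
  rw [Real.log_pow, Real.log_mul (by positivity) (by positivity), Real.log_pow] at hlogf
  have hl0 : κ * δ + θ * df < Real.log x0 := by
    rw [Real.lt_log_iff_exp_lt hx0pos]
    exact hv0
  have hl200 : Real.log 200 ≤ 6 := by
    rw [Real.log_le_iff_le_exp (by norm_num)]
    have h1 : (2.7 : ℝ) ≤ Real.exp 1 := by
      have := Real.exp_one_gt_d9
      linarith
    have h2 : Real.exp 6 = Real.exp 1 ^ 6 := by
      rw [← Real.exp_nat_mul]
      norm_num
    rw [h2]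
    calc (200 : ℝ) ≤ 2.7 ^ 6 := by norm_num
      _ ≤ Real.exp 1 ^ 6 := pow_le_pow_left₀ (by norm_num) h1 6
  have hakR : (m : ℝ) ≤ ((a * k : ℕ) : ℝ) := by exact_mod_cast hak1
  have hmpos : (0 : ℝ) < m := by
    have h1 : (0 : ℝ) < m * df := lt_of_lt_of_le (by positivity) hm
    exact (pos_iff_pos_of_mul_pos h1).mpr hdf
  have hlhs : m * (κ * δ + θ * df) < ((a * k : ℕ) : ℝ) * Real.log x0 := by
    have h1 : 0 < Real.log x0 := lt_of_le_of_lt (by positivity) hl0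
    calc m * (κ * δ + θ * df) < m * Real.log x0 := mul_lt_mul_of_pos_left hl0 hmpos
      _ ≤ ((a * k : ℕ) : ℝ) * Real.log x0 := mul_le_mul_of_nonneg_right hakR h1.le
  have hr1 : (Jn.card : ℝ) * Real.log 200 ≤ κ * m * δ / 2 := by
    have h0 : (0 : ℝ) ≤ Jn.card := Nat.cast_nonneg _
    calc (Jn.card : ℝ) * Real.log 200 ≤ Jn.card * 6 := mul_le_mul_of_nonneg_left hl200 h0
      _ ≤ ν * m * δ * 6 := mul_le_mul_of_nonneg_right hJnc (by norm_num)
      _ ≤ κ / 12 * m * δ * 6 := by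
          apply mul_le_mul_of_nonneg_right _ (by norm_num)
          apply mul_le_mul_of_nonneg_right _ hδpos.le
          exact mul_le_mul_of_nonneg_right hν' hmpos.le
      _ = κ * m * δ / 2 := by ring
  have hr3 : 0 ≤ κ * m * δ := by positivity
  nlinarith

end MP7ed9c3.Tp
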