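import Pool.Agent.Lib.MP_7ed9c3_nt.Tp.SpecX2
import Pool.Agent.Lib.MP_7ed9c3_nt.Tp.LTx

/-!
# MP_7ed9c3_nt, part Tp: Lemma LT2 (from `S_LTx`)
-/

set_option autoImplicit false

namespace MP7ed9c3.Tp

/-- **LT2**. -/
theorem tLT2 : S_LT2 := by
  intro ι J w b m Sf Λ df κ ν θ hw4 hb hpow hdf hdf5 hSf hκ hκS hν hθ hθ15 hcount hlog hm
  have hS : (0 : ℝ) ≤ Sf := Nat.cast_nonneg _
  exact tLTx (TuranW.turF (TuranW.turM TuranW.tur)) ι J w b m Sf Λ df κ ν θ hw4 hb hpow hdf hdf5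
    hSf hκ hκS hν hθ.le (by linarith) hcount (by linarith) (by linarith)

end MP7ed9c3.Tp
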