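import Pool.Agent.Lib.MP_7ed9c3_nt.Aw.Spec

/-!
# MP_7ed9c3_nt, part Tp: the radii (the nodes are at most `4`)
-/

set_option autoImplicit false

namespace MP7ed9c3.Tp

open MP7ed9c3.Aw

/-- `ell h x > 1/2` and `ell h y < 3` imply `x ≤ 4 y`. -/
theorem tRq (h x y : ℝ) (hh : 0 < h) (_hx0 : 0 < x) (hx1 : x < 1) (hy0 : 0 < y) (hy1 : y < 1)
    (hx : 1 / 2 < ell h x) (hy : ell h y < 3) : x ≤ 4 * y := by
  by_contra hcon
  push Not at hcon
  have h4y : 4 * y < 1 := hcon.trans hx1
  have hc : 0 < 2 * h / Real.pi := by positivity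
  unfold ell at hx hy
  have e1 : 2 * h / Real.pi * Real.log ((1 + x) / (1 - x)) < 7 / 2 := by linarith
  have e2 : 1 < 2 * h / Real.pi * Real.log ((1 + y) / (1 - y)) := by linarith
  have hy1' : 0 < 1 - y := by linarith
  have hx1' : 0 < 1 - x := by linarith
  have h4y' : 0 < 1 - 4 * y := by linarith
  have e3 : 4 * Real.log ((1 + y) / (1 - y)) ≤ Real.log ((1 + x) / (1 - x)) := by
    have e4 : 4 * Real.log ((1 + y) / (1 - y)) = Real.log (((1 + y) / (1 - y)) ^ 4) := by
      rw [Real.log_pow]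
      norm_num
    rw [e4]
    apply Real.log_le_log (by positivity)
    have e5 : ((1 + y) / (1 - y)) ^ 4 ≤ (1 + 4 * y) / (1 - 4 * y) := by
      rw [div_pow, div_le_div_iff₀ (by positivity) h4y']
      nlinarith [pow_pos hy0 3, pow_pos hy0 5]
    refine e5.trans ?_
    rw [div_le_div_iff₀ h4y' hx1']
    nlinarith
  have e6 : 4 * (2 * h / Real.pi * Real.log ((1 + y) / (1 - y))) ≤
      2 * h / Real.pi * Real.log ((1 + x) / (1 - x)) := by
    have := mul_le_mul_of_nonneg_left e3 hc.le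
    linarith
  linarith

end MP7ed9c3.Tp
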