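import Pool.Agent.Lib.MP_7ed9c3_nt.Tp.SpecK

/-!
# MP_7ed9c3_nt, project TP, part G: the zeros of one window as a finite family of complex numbers (statement)

`q ≥ 1/R'`, `w = -1/(q a)` for the zeros `a` of `G(phi h w + i t)`, with weights `b a`.  The power sums of the `w`
are the numbers `-(-1/q)^k k e_k(t)`, and the combination with an arbitrary kernel `al` is `-∑ b w^(kk-js) ∑_j al_j w^j`, both up to
small errors; the height of the zero `ρ = phi h a + i t` satisfies `|Im ρ - t| ≤ D |1 - w|`.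
-/

set_option autoImplicit false

namespace MP7ed9c3.Tp

open MeasureTheory Metric MP7ed9c3.Aw

/-- The node of the zero `a`. -/
noncomputable def nd (q : ℝ) (a : ℂ) : ℂ := -((q : ℂ) * a)⁻¹

/-- **AbsW** (from `Aw.S_Phi`, `S_PsW`, `S_Inj`, `S_PhiL`): the zeros of one window as a finite family.

Proof.  `S`, `b` from `S_PsW`.  `‖nd q a‖ = 1/(q ‖a‖) ≤ R'/r₀`.  `S_PhiL` with `r = R₁`: `a + 1/q = a (1 - nd q a)`, `‖a‖ < 1`.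
`(-1/q)^k a⁻¹^k = (nd q a)^k`; multiply the power sum estimate by `q^(-k) ≤ R'^k`.  The last point: the terms `j` with weights
`al_j`, `k = kk - js + j ≥ 1`, `(R'/R₂)^k ≤ (R'/R₂)^(kk-js)`, `k ≤ kk + n`. -/
def S_AbsW : Prop :=
  ∀ (h σ₁ b r₀ R R' R₂ R₁ C : ℝ), 0 < h → 0 ≤ C → Radii h σ₁ b r₀ R R' R₂ R₁ →
    ∃ D : ℝ, 1 ≤ D ∧ ∀ (c : ℕ → ℂ) (G : ℂ → ℂ) (t V q : ℝ), Coefs c C → 0 ≤ V →
      DifferentiableOn ℂ G (win σ₁ h t) → (∀ s ∈ win σ₁ h t, ‖G s‖ ≤ Real.exp V) →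
      (∀ s ∈ win σ₁ h t, 3 ≤ s.re → G s = Complex.exp (Aw.dir c s)) → 1 / R' ≤ q →
      ∃ (S : Finset ℂ) (β : ℂ → ℕ),
        (∀ a ∈ S, 1 ≤ β a ∧ phi h a + t * Complex.I ∈ win σ₁ h t ∧
          G (phi h a + t * Complex.I) = 0 ∧ |(phi h a).im| ≤ D * ‖1 - nd q a‖ ∧
          ‖nd q a‖ ≤ R' / r₀ ∧ a ≠ 0 ∧ ‖a‖ < 1 ∧ ‖nd q a‖ ≤ R' / ‖a‖) ∧
        Set.InjOn (fun a : ℂ => phi h a + t * Complex.I) S ∧
        ((∑ a ∈ S, β a : ℕ) : ℝ) ≤ D * (V + 1) ∧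
        (∀ k : ℕ, 1 ≤ k → ‖(-(q : ℂ)⁻¹) ^ k * k * eW h c k t + ∑ a ∈ S, (β a : ℂ) * nd q a ^ k‖ ≤
          D * k * (V + 1) * (R' / R₂) ^ k) ∧
        ∀ (al : ℕ → ℝ) (n kk js : ℕ), (∀ j, 0 ≤ al j) → ∑ j ∈ Finset.range n, al j = 1 →
          1 ≤ kk - js →
          ‖cmb al n kk js q (fun k => eW h c k t) +
            ∑ a ∈ S, (β a : ℂ) * (nd q a ^ (kk - js) * ∑ j ∈ Finset.range n, (al j : ℂ) * nd q a ^ j)‖ ≤
          D * (kk + n) * (V + 1) * (R' / R₂) ^ (kk - js)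

end MP7ed9c3.Tp
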