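import Pool.Agent.Lib.MP_7ed9c3_nt.Tp.SpecX2
import Pool.Agent.Lib.MP_7ed9c3_nt.Tp.SpecG
import Pool.Agent.Lib.MP_7ed9c3_nt.Tp.Rq
import Pool.Agent.Lib.MP_7ed9c3_nt.Aw.Phi

/-! # MP_7ed9c3_nt, Tp: the detector at one `t` -/

set_option autoImplicit false

namespace MP7ed9c3.Tp

open MeasureTheory Metric MP7ed9c3.Aw

private theorem LocX_log {x y D₀ : ℝ} (hx : 0 < x) (hxy : x ≤ D₀ * y) (hD : 0 < D₀) (hy : 0 < y) :
    Real.log x ≤ Real.log D₀ + Real.log y := by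
  rw [← Real.log_mul hD.ne' hy.ne']
  exact Real.log_le_log hx hxy

theorem tLocX (h1 : S_AbsW) (h2 : S_LT2) (h3 : S_DetKX) (h4 : S_EvX) (h5 : S_KrnX) :
    S_LocX := by
  classical
  intro h σ₁ b r₀ R R' R₂ R₁ C A' hh hC hR hA'
  obtain ⟨D₀, hD₀, hAbs⟩ := h1 h σ₁ b r₀ R R' R₂ R₁ C hh hC hR
  have hA'1 : (1 : ℝ) ≤ A' := by exact_mod_cast (by omega : 1 ≤ A')
  obtain ⟨θ, hθ0, hθ1, hDet⟩ := h3 A' hA'1
  have hR'p : 0 < R' := by
    have := hR.r₀pos
    have := hR.lt1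
    have := hR.lt2
    linarith
  have hR₂p : 0 < R₂ := hR'p.trans hR.lt3
  have hR₂1 : R₂ < 1 := hR.lt4.trans hR.lt5
  obtain ⟨γ, hγ⟩ : ∃ γ : ℝ, γ = Real.log (R₂ / R') := ⟨_, rfl⟩
  have hγ0 : 0 < γ := by
    rw [hγ]
    refine Real.log_pos ?_
    rw [lt_div_iff₀ hR'p]
    linarith [hR.lt3]
  have hD₀p : 0 < D₀ := by linarith
  obtain ⟨E1, hE1⟩ : ∃ E1 : ℝ, E1 = Real.log (8 * D₀) := ⟨_, rfl⟩
  obtain ⟨E2, hE2⟩ : ∃ E2 : ℝ, E2 = Real.log (17 * (1 + D₀)) := ⟨_, rfl⟩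
  obtain ⟨E3, hE3⟩ : ∃ E3 : ℝ, E3 = Real.log (16 * D₀ * (A' + 1)) := ⟨_, rfl⟩
  have hE1' : 0 ≤ E1 := by rw [hE1]; exact Real.log_nonneg (by linarith)
  have hE2' : 0 ≤ E2 := by rw [hE2]; exact Real.log_nonneg (by linarith)
  have hE3' : 0 ≤ E3 := by rw [hE3]; exact Real.log_nonneg (by nlinarith)
  obtain ⟨D, hD⟩ : ∃ D : ℝ, D = 1024 * (E1 + 1) + (8 + E2) / θ + 200 * (A' + 1) +
    2 * (2 + E3) / γ + D₀ := ⟨_, rfl⟩
  have p2 : 0 ≤ (8 + E2) / θ := by positivity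
  have p4 : 0 ≤ 2 * (2 + E3) / γ := by positivity
  have d1 : 1024 * (E1 + 1) ≤ D := by rw [hD]; linarith
  have d2 : (8 + E2) / θ ≤ D := by rw [hD]; linarith
  have d3 : 200 * ((A' : ℝ) + 1) ≤ D := by rw [hD]; linarith
  have d4 : 2 * (2 + E3) / γ ≤ D := by rw [hD]; linarith
  have d5 : D₀ ≤ D := by rw [hD]; linarith
  rw [div_le_iff₀ hθ0] at d2
  rw [div_le_iff₀ hγ0] at d4
  have d0 : 1024 ≤ D := by linarith
  refine ⟨D, by linarith, ?_⟩
  intro c G t V q df kap nu m kk js Sf hc hV hG1 hG2 hG3 hq heW hm4 hmk hkA hjs hDX hdf0 hdf1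
    hSf1 hSf2 hkap0 hnu hkapD hDm hcount hcmb
  obtain ⟨S, β, hS, hinj, hβ, hpow, hker⟩ := hAbs c G t V q hc (by linarith) hG1 hG2 hG3 hq
  obtain ⟨js', hKrn, _⟩ := h5 Sf m hm4
  have hq0 : 0 < q := lt_of_lt_of_le (by positivity) hq
  have hm4' : (4 : ℝ) ≤ m := by exact_mod_cast hm4
  obtain ⟨X, hX⟩ : ∃ X : ℝ, X = V + m := ⟨_, rfl⟩
  rw [← hX] at hDm
  have hX5 : 5 ≤ X := by linarith
  have hmX : (m : ℝ) ≤ X := by linarith
  have hVX : V + 1 ≤ X := by linarith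
  obtain ⟨L, hL⟩ : ∃ L : ℝ, L = Real.log X := ⟨_, rfl⟩
  rw [← hL] at hDm
  have hL1 : 1 ≤ L := by
    rw [hL, Real.le_log_iff_exp_le (by linarith)]
    have := Real.exp_one_lt_d9
    linarith
  have hSf0 : (0 : ℝ) ≤ Sf := Nat.cast_nonneg Sf
  have hDL : D * L ≤ m * df := by
    have : 0 ≤ D * ((Sf : ℝ) + 1) := by positivity
    linarith
  have hDS : D * ((Sf : ℝ) + 1) ≤ m * df := by
    have : 0 ≤ D * L := by positivity
    linarith
  have hmdf : (m : ℝ) * df ≤ m := mul_le_of_le_one_right (by linarith) hdf1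
  have hD0 : 0 ≤ D := by linarith
  have hDL1 : 1024 * (1 : ℝ) ≤ D * L := mul_le_mul d0 hL1 (by norm_num) hD0
  have hDS1 : 1024 * ((Sf : ℝ) + 1) ≤ D * (Sf + 1) :=
    mul_le_mul_of_nonneg_right d0 (by linarith)
  have hLm : 0 ≤ L - 1 := by linarith
  -- the nodes are at most 4
  have hnd4 : ∀ a ∈ S, ‖nd q a‖ ≤ 4 := by
    intro a ha
    obtain ⟨_, hwin, hG0, _, _, ha0, ha1, hnda⟩ := hS a ha
    have hre : (phi h a).re < 3 := by
      by_contra hcon
      push Not at hcon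
      have hre' : 3 ≤ (phi h a + t * Complex.I).re := by
        simpa using hcon
      have := hG3 _ hwin hre'
      rw [hG0] at this
      exact Complex.exp_ne_zero _ this.symm
    have hell := (tPhi h hh).2.2.1 ‖a‖ a (norm_nonneg a) ha1 le_rfl
    have hpos : 0 < ‖a‖ := norm_pos_iff.2 ha0
    have hRq := tRq h R₂ ‖a‖ hh hR₂p hR₂1 hpos ha1 hR.e3 (lt_of_le_of_lt hell hre)
    refine hnda.trans ?_
    rw [div_le_iff₀ hpos]
    linarith [hR.lt3]
  -- the power sums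
  have hps : ∀ k : ℕ, m ≤ k → k ≤ 16 * m →
      ‖∑ a ∈ S, (β a : ℂ) * nd q a ^ k‖ ≤ 16 * (1 + D₀) * X ^ 2 := by
    intro k hk1 hk2
    have hk0 : (0 : ℝ) ≤ k := Nat.cast_nonneg k
    have hk16 : (k : ℝ) ≤ 16 * X := by
      have : (k : ℝ) ≤ 16 * m := by exact_mod_cast hk2
      linarith
    have e1 := hpow k (by omega)
    have e2 : ‖(-(q : ℂ)⁻¹) ^ k * k * eW h c k t‖ ≤ k * X := by
      rw [norm_mul, norm_mul, norm_pow, norm_neg, norm_inv, Complex.norm_real, Real.norm_eq_abs,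
        abs_of_pos hq0, Complex.norm_natCast]
      have e3 := heW k hk1 (hk2.trans (Nat.mul_le_mul_right m hA'))
      rw [← hX] at e3
      have e4 : (q⁻¹) ^ k * (q ^ k) = 1 := by
        rw [← mul_pow, inv_mul_cancel₀ hq0.ne', one_pow]
      calc (q⁻¹) ^ k * k * ‖eW h c k t‖ ≤ (q⁻¹) ^ k * k * (X * q ^ k) :=
            mul_le_mul_of_nonneg_left e3 (by positivity)
        _ = k * X * ((q⁻¹) ^ k * q ^ k) := by ring
        _ = k * X := by rw [e4, mul_one]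
    have e5 : D₀ * k * (V + 1) * (R' / R₂) ^ k ≤ D₀ * k * X := by
      have e6 : (R' / R₂) ^ k ≤ 1 :=
        pow_le_one₀ (by positivity) (by rw [div_le_one hR₂p]; exact hR.lt3.le)
      have e7 : D₀ * k * (V + 1) ≤ D₀ * k * X := mul_le_mul_of_nonneg_left hVX (by positivity)
      have e8 : 0 ≤ D₀ * k * (V + 1) := by
        have : 0 ≤ V + 1 := by linarith
        positivity
      calc D₀ * k * (V + 1) * (R' / R₂) ^ k ≤ D₀ * k * (V + 1) * 1 :=
            mul_le_mul_of_nonneg_left e6 e8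
        _ ≤ D₀ * k * X := by linarith
    have e9 : ‖∑ a ∈ S, (β a : ℂ) * nd q a ^ k‖ ≤
        ‖(-(q : ℂ)⁻¹) ^ k * k * eW h c k t + ∑ a ∈ S, (β a : ℂ) * nd q a ^ k‖ +
          ‖(-(q : ℂ)⁻¹) ^ k * k * eW h c k t‖ := by
      have := norm_sub_le ((-(q : ℂ)⁻¹) ^ k * k * eW h c k t + ∑ a ∈ S, (β a : ℂ) * nd q a ^ k)
        ((-(q : ℂ)⁻¹) ^ k * k * eW h c k t)
      rwa [add_sub_cancel_left] at this
    have e10 : (k : ℝ) * X ≤ 16 * X * X := mul_le_mul_of_nonneg_right hk16 (by linarith)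
    have e11 : D₀ * k * X ≤ D₀ * (16 * X * X) := by
      have : D₀ * k * X = D₀ * (k * X) := by ring
      rw [this]
      exact mul_le_mul_of_nonneg_left e10 hD₀p.le
    calc ‖∑ a ∈ S, (β a : ℂ) * nd q a ^ k‖ ≤ D₀ * (16 * X * X) + 16 * X * X := by linarith
      _ = 16 * (1 + D₀) * X ^ 2 := by ring
  have hβsum : ∑ a ∈ S, (β a : ℝ) ≤ D₀ * (V + 1) := by
    have := hβ
    push_cast at this
    exact this
  have hβ0 : 0 ≤ ∑ a ∈ S, (β a : ℝ) := Finset.sum_nonneg (fun a _ => Nat.cast_nonneg _)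
  have hlog : 6 + Real.log (16 * (1 + D₀) * X ^ 2 + ∑ a ∈ S, (β a : ℝ)) ≤ θ * m * df := by
    have f1 : 16 * (1 + D₀) * X ^ 2 + ∑ a ∈ S, (β a : ℝ) ≤ 17 * (1 + D₀) * X ^ 2 := by
      have f2 : D₀ * (V + 1) ≤ D₀ * X := mul_le_mul_of_nonneg_left hVX hD₀p.le
      have f3' : X ≤ X ^ 2 := by
        have := mul_le_mul_of_nonneg_left (show (1 : ℝ) ≤ X by linarith) (show 0 ≤ X by linarith)
        rw [mul_one] at this
        rw [sq]
        exact this
      have f3 : D₀ * X ≤ D₀ * X ^ 2 := mul_le_mul_of_nonneg_left f3' hD₀p.le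
      have f3'' := sq_nonneg X
      linarith
    have f4 : 0 < 16 * (1 + D₀) * X ^ 2 + ∑ a ∈ S, (β a : ℝ) := by positivity
    have f5 := LocX_log f4 f1 (by positivity) (by positivity : (0 : ℝ) < X ^ 2)
    rw [Real.log_pow, ← hE2, ← hL] at f5
    push_cast at f5
    have f6 : 6 + (E2 + 2 * L) ≤ (8 + E2) * L := by
      have := mul_nonneg hE2' hLm
      linarith
    have f7 : (8 + E2) * L ≤ D * θ * L := mul_le_mul_of_nonneg_right d2 (by linarith)
    have f8 : D * θ * L ≤ θ * m * df := by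
      have : θ * (D * L) ≤ θ * (m * df) := mul_le_mul_of_nonneg_left hDL hθ0.le
      linarith
    linarith
  have hLT := h2 ℂ S (nd q) β m Sf (16 * (1 + D₀) * X ^ 2) df kap nu θ hnd4
    (fun a ha => (hS a ha).1) hps hdf0 (by linarith) hSf1 hkap0
    (by
      refine le_trans ?_ hkapD
      refine mul_le_mul_of_nonneg_left ?_ hkap0.le
      have e1 : 1024 * ((Sf : ℝ) + 3) ≤ D * (Sf + 3) :=
        mul_le_mul_of_nonneg_right d0 (by linarith)
      linarith) hnu hθ0 hθ1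
    (by
      intro δ hδ1 hδ2 J' hJ' hJ6
      have hcard : (J'.image (fun a : ℂ => phi h a + t * Complex.I)).card = J'.card :=
        Finset.card_image_of_injOn (hinj.mono (by exact_mod_cast hJ'))
      have g1 := hcount δ hδ1 hδ2 (J'.image (fun a : ℂ => phi h a + t * Complex.I)) (by
        intro ρ hρ
        obtain ⟨a, ha, rfl⟩ := Finset.mem_image.1 hρ
        obtain ⟨_, hwin, hG0, him, _, _, _, _⟩ := hS a (hJ' ha)
        refine ⟨hwin, hG0, ?_⟩
        have e1 : (phi h a + t * Complex.I).im - t = (phi h a).im := by simp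
        rw [e1]
        refine him.trans ?_
        have e2 : D₀ * ‖1 - nd q a‖ ≤ D₀ * (6 * δ) :=
          mul_le_mul_of_nonneg_left (hJ6 a ha).le hD₀p.le
        have e3 : D₀ * (6 * δ) ≤ D * (6 * δ) :=
          mul_le_mul_of_nonneg_right d5 (by linarith)
        linarith)
      rw [hcard] at g1
      exact g1)
    hlog (by linarith)
  -- the combination
  have hnat : m ≤ 2 * (kk - js) := by omega
  have hk1 : 1 ≤ kk - js := by omega
  have hkkA : ((kk - js : ℕ) : ℝ) ≤ A' * m := by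
    have : kk - js ≤ A' * m := (Nat.sub_le _ _).trans hkA
    exact_mod_cast this
  have herr : D₀ * (kk + (DX Sf m : ℕ)) * (V + 1) * (R' / R₂) ^ (kk - js) ≤ 1 / 16 := by
    have g1 : (R' / R₂) ^ (kk - js) ≤ Real.exp (-(γ * m / 2)) := by
      have g2 : R' / R₂ = Real.exp (-γ) := by
        rw [hγ, ← Real.log_inv, inv_div, Real.exp_log (by positivity)]
      rw [g2, ← Real.exp_nat_mul]
      refine Real.exp_le_exp.2 ?_
      have g3 : (m : ℝ) ≤ 2 * ((kk - js : ℕ) : ℝ) := by exact_mod_cast hnat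
      have g3' := mul_le_mul_of_nonneg_left g3 hγ0.le
      linarith
    have g4 : (kk : ℝ) + (DX Sf m : ℕ) ≤ (A' + 1) * X := by
      have g5 : (kk : ℝ) ≤ A' * m := by exact_mod_cast hkA
      have g6 : ((DX Sf m : ℕ) : ℝ) ≤ m := by exact_mod_cast (by omega : DX Sf m ≤ m)
      have g7 : (A' : ℝ) * m + m ≤ (A' + 1) * X := by
        have := mul_le_mul_of_nonneg_left hmX (show (0 : ℝ) ≤ A' + 1 by linarith)
        linarith
      linarith
    have g8 : D₀ * (kk + (DX Sf m : ℕ)) * (V + 1) ≤ D₀ * (A' + 1) * X ^ 2 := by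
      have g9 : D₀ * (kk + (DX Sf m : ℕ)) ≤ D₀ * ((A' + 1) * X) :=
        mul_le_mul_of_nonneg_left g4 hD₀p.le
      calc D₀ * (kk + (DX Sf m : ℕ)) * (V + 1) ≤ D₀ * ((A' + 1) * X) * X :=
            mul_le_mul g9 hVX (by linarith) (by positivity)
        _ = D₀ * (A' + 1) * X ^ 2 := by ring
    have g10 : 16 * (D₀ * (A' + 1) * X ^ 2) * Real.exp (-(γ * m / 2)) ≤ 1 := by
      have g11 : 16 * (D₀ * (A' + 1) * X ^ 2) = Real.exp (E3 + 2 * L) := by
        rw [Real.exp_add, hE3, Real.exp_log (by positivity), hL]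
        have : Real.exp (2 * Real.log X) = X ^ 2 := by
          rw [two_mul, Real.exp_add, Real.exp_log (by linarith)]
          ring
        rw [this]
        ring
      rw [g11, ← Real.exp_add]
      refine Real.exp_le_one_iff.2 ?_
      have g12 : E3 + 2 * L ≤ (2 + E3) * L := by
        have := mul_nonneg hE3' hLm
        linarith
      have g13 : 2 * (2 + E3) * L ≤ D * γ * L := mul_le_mul_of_nonneg_right d4 (by linarith)
      have g14 : D * γ * L ≤ γ * m := by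
        have g15 : γ * (D * L) ≤ γ * m := mul_le_mul_of_nonneg_left (hDL.trans hmdf) hγ0.le
        linarith
      linarith
    have g16 : 0 ≤ D₀ * (kk + (DX Sf m : ℕ)) * (V + 1) := by
      have : 0 ≤ V + 1 := by linarith
      positivity
    calc D₀ * (kk + (DX Sf m : ℕ)) * (V + 1) * (R' / R₂) ^ (kk - js)
        ≤ D₀ * (A' + 1) * X ^ 2 * Real.exp (-(γ * m / 2)) :=
          mul_le_mul g8 g1 (by positivity) (by positivity)
      _ ≤ 1 / 16 := by linarith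
  have hkr := hker (alX Sf m) (DX Sf m) kk js hKrn.nonneg hKrn.sum hk1
  simp only [h4 Sf m] at hkr
  have h316 : 3 / 16 ≤ ‖∑ a ∈ S, (β a : ℂ) * (nd q a ^ (kk - js) *
      (ks (Sf + 2) (nd q a) ^ (b1X Sf m) * pm (2 ^ (Sf + 2)) (nd q a) ^ (b2X Sf m)))‖ := by
    have e1 := norm_sub_le (cmb (alX Sf m) (DX Sf m) kk js q (fun k => eW h c k t) +
      ∑ a ∈ S, (β a : ℂ) * (nd q a ^ (kk - js) *
      (ks (Sf + 2) (nd q a) ^ (b1X Sf m) * pm (2 ^ (Sf + 2)) (nd q a) ^ (b2X Sf m))))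
      (∑ a ∈ S, (β a : ℂ) * (nd q a ^ (kk - js) *
      (ks (Sf + 2) (nd q a) ^ (b1X Sf m) * pm (2 ^ (Sf + 2)) (nd q a) ^ (b2X Sf m))))
    rw [add_sub_cancel_right] at e1
    linarith
  have hB : Real.log (8 * (D₀ * (V + 1))) ≤ E1 + L := by
    rw [hE1, hL]
    refine LocX_log ?_ ?_ (by positivity) (by linarith)
    · have : 0 < V + 1 := by linarith
      positivity
    · have := mul_le_mul_of_nonneg_left hVX hD₀p.le
      linarith
  obtain ⟨a, ha, hadf⟩ := hDet ℂ S (nd q) β kap df (D₀ * (V + 1)) (kk - js) m Sf hβ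
    (one_le_mul_of_one_le_of_one_le hD₀ (by linarith)) hnd4 hdf0 hdf1 hSf1 hSf2 hkap0
    (by
      refine le_trans ?_ hkapD
      refine mul_le_mul_of_nonneg_left ?_ hkap0.le
      exact mul_le_mul_of_nonneg_right d3 (by linarith))
    (by linarith)
    (by
      have e1 : 1024 * (E1 + L) ≤ 1024 * (E1 + 1) * L := by
        have := mul_nonneg hE1' hLm
        linarith
      have e2 : 1024 * (E1 + 1) * L ≤ D * L := mul_le_mul_of_nonneg_right d1 (by linarith)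
      linarith) hkkA hLT h316
  obtain ⟨_, hwin, hG0, him, _, _, _, _⟩ := hS a ha
  refine ⟨phi h a + t * Complex.I, hwin, hG0, ?_⟩
  have e1 : (phi h a + t * Complex.I).im - t = (phi h a).im := by simp
  rw [e1]
  refine him.trans ?_
  have e2 : D₀ * ‖1 - nd q a‖ ≤ D₀ * df := mul_le_mul_of_nonneg_left hadf.le hD₀p.le
  have e3 : D₀ * df ≤ D * df := mul_le_mul_of_nonneg_right d5 hdf0.le
  linarith

end MP7ed9c3.Tp
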