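import Pool.Agent.Lib.MP_7ed9c3_nt.Tp.AllB
import Pool.Agent.Lib.MP_7ed9c3_nt.Tp.DetKX
import Pool.Agent.Lib.MP_7ed9c3_nt.Tp.DetX
import Pool.Agent.Lib.MP_7ed9c3_nt.Tp.EvX
import Pool.Agent.Lib.MP_7ed9c3_nt.Tp.KrnX
import Pool.Agent.Lib.MP_7ed9c3_nt.Tp.LocX
import Pool.Agent.Lib.MP_7ed9c3_nt.Tp.LT2

/-!
# MP_7ed9c3_nt, part Tp: assembly
-/

set_option autoImplicit false

namespace MP7ed9c3.Tp

open NumberField IsDedekindDomain Filter Topology MeasureTheory Metric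
open MP7ed9c3.Aw

theorem locXAll : S_LocX := tLocX absWAll tLT2 tDetKX tEvX tKrnX

theorem detXAll : S_DetX := tDetX locXAll tKrnX

/-- **The uniform theorem** for both kinds of abscissas: few different zeros only on a small set of windows. -/
theorem finUAll (h : ℝ) (hh : 0 < h) (K : Type) [Field K] [NumberField K] :
    WindowsU h K (FewBad K) (1 / 2 + 1 / (4 * (Module.finrank ℚ K : ℝ))) ∧
    ∀ (N : Type) [Field N] [NumberField N] [IsGalois ℚ N] (g : N ≃ₐ[ℚ] N) (k : ℕ),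
      Nonempty (K →ₐ[ℚ] N) → Zg.Adm (Zg.perm (K := K) g) k →
      WindowsU h K (FewBad K) (1 / 2 + 1 / (2 * (k : ℝ))) :=
  finUOfDet detXAll h hh K

end MP7ed9c3.Tp
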