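import Pool.Agent.Lib.MP_7ed9c3_nt.Tp.SpecB

/-! # MP_7ed9c3_nt, Tp: combination of two detectors -/

set_option autoImplicit false

namespace MP7ed9c3.Tp

open NumberField IsDedekindDomain Filter Topology MeasureTheory Metric
open MP7ed9c3.Aw

/-- Two detectors give a detector for every quantity which is at least a constant times the smaller one of the two
quantities. -/
theorem detZ_or {q₁ q₂ q : ℝ → ℝ → ℕ → ℝ} {K : ℝ} (hK : 1 ≤ K)
    (hq : ∀ (V T : ℝ) (N : ℕ), 3 ≤ V → V ≤ T → 1 ≤ N →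
      q₁ V T N ≤ K * q V T N ∨ q₂ V T N ≤ K * q V T N)
    (h1 : DetZ q₁) (h2 : DetZ q₂) : DetZ q := by
  intro h σ₁ b r₀ R R' R₂ R₁ C A' hh hC hR hA'
  obtain ⟨C₁, hC₁, hD₁⟩ := h1 h σ₁ b r₀ R R' R₂ R₁ C A' hh hC hR hA'
  obtain ⟨C₂, hC₂, hD₂⟩ := h2 h σ₁ b r₀ R R' R₂ R₁ C A' hh hC hR hA'
  have hm1 : C₁ ≤ max C₁ C₂ := le_max_left _ _
  have hm2 : C₂ ≤ max C₁ C₂ := le_max_right _ _
  have hmax : max C₁ C₂ ≤ K * max C₁ C₂ := by nlinarith
  have key : ∀ (c x y : ℝ) (m₀ : ℕ), 3 ≤ c → c ≤ max C₁ C₂ → x ≤ K * y →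
      K * max C₁ C₂ * y ≤ m₀ → c * x ≤ m₀ := by
    intro c x y m₀ hc hcm hxy hy
    have e1 : c * x ≤ c * (K * y) := mul_le_mul_of_nonneg_left hxy (by linarith)
    have hm0 : (0 : ℝ) ≤ m₀ := Nat.cast_nonneg m₀
    rcases le_total 0 y with hy0 | hy0
    · have e2 : c * (K * y) ≤ max C₁ C₂ * (K * y) :=
        mul_le_mul_of_nonneg_right hcm (mul_nonneg (by linarith) hy0)
      have e3 : max C₁ C₂ * (K * y) = K * max C₁ C₂ * y := by ring
      linarith
    · have e2 : c * (K * y) ≤ 0 :=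
        mul_nonpos_of_nonneg_of_nonpos (by linarith)
          (mul_nonpos_of_nonneg_of_nonpos (by linarith) hy0)
      linarith
  refine ⟨K * max C₁ C₂, by linarith, ?_⟩
  intro V T N m₀ hV hVT hN hq0 hmT
  rcases hq V T N (by linarith) hVT hN with hx | hx
  · exact hD₁ V T N m₀ (by linarith) hVT hN (key C₁ _ _ m₀ hC₁ hm1 hx hq0) hmT
  · exact hD₂ V T N m₀ (by linarith) hVT hN (key C₂ _ _ m₀ hC₂ hm2 hx hq0) hmT

private theorem CombM_log {V T : ℝ} (hV : 3 ≤ V) (hVT : V ≤ T) :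
    1 ≤ Real.log V ∧ 0 ≤ Real.log (Real.log T) := by
  have h1 : 1 ≤ Real.log V := by
    rw [Real.le_log_iff_exp_le (by linarith)]
    have := Real.exp_one_lt_d9
    linarith
  refine ⟨h1, Real.log_nonneg ?_⟩
  exact h1.trans (Real.log_le_log (by linarith) hVT)

/-- **CombM**: the detectors with the quantities `N (N + log V + loglog T)` and
`(N + loglog T) (log V + loglog T)` give one with `N (log V + loglog T)`. -/
theorem combM (h1 : DetZ (fun V T N => N * (N + Real.log V + Real.log (Real.log T))))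
    (h2 : DetZ (fun V T N =>
      (N + Real.log (Real.log T)) * (Real.log V + Real.log (Real.log T)))) :
    DetZ (fun V T N => N * (Real.log V + Real.log (Real.log T))) := by
  refine detZ_or (K := 2) (by norm_num) ?_ h1 h2
  intro V T N hV hVT hN
  obtain ⟨hl1, hl2⟩ := CombM_log hV hVT
  obtain ⟨x, hx⟩ : ∃ x : ℝ, x = Real.log (Real.log T) := ⟨_, rfl⟩
  obtain ⟨y, hy⟩ : ∃ y : ℝ, y = Real.log V := ⟨_, rfl⟩
  simp only [← hx, ← hy]
  rw [← hx] at hl2
  rw [← hy] at hl1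
  have hN1 : (1 : ℝ) ≤ N := by exact_mod_cast hN
  rcases le_total x (N : ℝ) with hc | hc
  · right
    have e : (N + x) * (y + x) ≤ (2 * N) * (y + x) :=
      mul_le_mul_of_nonneg_right (by linarith) (by linarith)
    linarith
  · left
    have e : (N : ℝ) * (N + y + x) ≤ N * (2 * (y + x)) :=
      mul_le_mul_of_nonneg_left (by linarith) (by linarith)
    linarith

/-- The minimum of the quantities of two detectors. -/
theorem detZ_min {q₁ q₂ : ℝ → ℝ → ℕ → ℝ} (h1 : DetZ q₁) (h2 : DetZ q₂) :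
    DetZ (fun V T N => min (q₁ V T N) (q₂ V T N)) := by
  refine detZ_or (K := 1) (le_refl 1) ?_ h1 h2
  intro V T N _ _ _
  rcases le_total (q₁ V T N) (q₂ V T N) with hc | hc
  · left
    rw [one_mul, min_eq_left hc]
  · right
    rw [one_mul, min_eq_right hc]

end MP7ed9c3.Tp
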