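import Mathlib

/-!
# MP_7ed9c3_nt, part Tp: covering by few short intervals (helper77)
-/

set_option autoImplicit false

namespace MP7ed9c3.CovT

open MeasureTheory

def S_CovT : Prop := ∀ (N : ℕ) (y : Fin N → ℝ) (r : ℝ) (E : Set ℝ), 0 ≤ r →
  (∀ t ∈ E, ∃ j, |y j - t| < r) → volume E ≤ ENNReal.ofReal (2 * N * r)

theorem tCovT : S_CovT := by
  intro N y r E hr hE
  have hsub : E ⊆ ⋃ j : Fin N, Set.Ioo (y j - r) (y j + r) := by
    intro t ht
    obtain ⟨j, hj⟩ := hE t ht
    rw [abs_lt] at hj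
    exact Set.mem_iUnion.mpr ⟨j, by constructor <;> linarith⟩
  calc volume E ≤ volume (⋃ j : Fin N, Set.Ioo (y j - r) (y j + r)) := measure_mono hsub
    _ ≤ ∑ j : Fin N, volume (Set.Ioo (y j - r) (y j + r)) := measure_iUnion_fintype_le _ _
    _ = ∑ _j : Fin N, ENNReal.ofReal (2 * r) := by
      refine Finset.sum_congr rfl fun j _ => ?_
      rw [Real.volume_Ioo]
      congr 1
      ring
    _ = ENNReal.ofReal (2 * N * r) := by
      rw [Finset.sum_const, Finset.card_univ, Fintype.card_fin, nsmul_eq_mul,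
        ← ENNReal.ofReal_natCast, ← ENNReal.ofReal_mul (Nat.cast_nonneg N)]
      congr 1
      ring

end MP7ed9c3.CovT
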