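import Mathlib

/-!
Detection of a zero (deterministic part of note 5517, part (b)): if all numbers `w j` satisfy
the cone bound and the weighted sum of `w j ^ k * Q (w j) ^ b` is not small, then some `w j` is
within `df` of `1`.
-/

namespace MP7ed9c3.Det

open Finset

/-- One far term is small. -/
theorem far {Q : ℂ → ℂ} {w : ℂ} {kap df D c L : ℝ} {k b : ℕ}
    (hQ : ∀ eta : ℝ, 0 ≤ eta → ‖w‖ ≤ Real.exp eta → df ≤ ‖1 - w‖ →
      ‖Q w‖ ≤ Real.exp (D * eta - c * ‖1 - w‖))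
    (hc : 0 ≤ c) (hkap0 : 0 ≤ kap)
    (hkap : kap * (k + b * D) ≤ b * c / 2)
    (hdf : L ≤ b * c / 2 * df)
    (hw : ‖w‖ ≤ Real.exp (kap * max ‖1 - w‖ df))
    (hfar : df ≤ ‖1 - w‖) :
    ‖w ^ k * Q w ^ b‖ ≤ Real.exp (-L) := by
  have hd0 : 0 ≤ ‖1 - w‖ := norm_nonneg _
  rw [max_eq_left hfar] at hw
  have heta : 0 ≤ kap * ‖1 - w‖ := mul_nonneg hkap0 hd0
  have hq := hQ (kap * ‖1 - w‖) heta hw hfar
  have h1 : ‖w‖ ^ k ≤ Real.exp (k * (kap * ‖1 - w‖)) := by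
    rw [Real.exp_nat_mul]
    exact pow_le_pow_left₀ (norm_nonneg _) hw k
  have h2 : ‖Q w‖ ^ b ≤ Real.exp (b * (D * (kap * ‖1 - w‖) - c * ‖1 - w‖)) := by
    rw [Real.exp_nat_mul]
    exact pow_le_pow_left₀ (norm_nonneg _) hq b
  rw [norm_mul, norm_pow, norm_pow]
  calc ‖w‖ ^ k * ‖Q w‖ ^ b
      ≤ Real.exp (k * (kap * ‖1 - w‖)) *
        Real.exp (b * (D * (kap * ‖1 - w‖) - c * ‖1 - w‖)) :=
        mul_le_mul h1 h2 (by positivity) (Real.exp_pos _).le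
    _ = Real.exp (k * (kap * ‖1 - w‖) + b * (D * (kap * ‖1 - w‖) - c * ‖1 - w‖)) :=
        (Real.exp_add _ _).symm
    _ ≤ Real.exp (-L) := by
        apply Real.exp_le_exp.mpr
        have e1 : k * (kap * ‖1 - w‖) + b * (D * (kap * ‖1 - w‖) - c * ‖1 - w‖)
            = (kap * (k + b * D)) * ‖1 - w‖ - b * c * ‖1 - w‖ := by ring
        rw [e1]
        have e2 : (kap * (k + b * D)) * ‖1 - w‖ ≤ (b * c / 2) * ‖1 - w‖ :=
          mul_le_mul_of_nonneg_right hkap hd0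
        have hs : 0 ≤ b * c / 2 := by positivity
        have e3 : L ≤ b * c / 2 * ‖1 - w‖ := hdf.trans (mul_le_mul_of_nonneg_left hfar hs)
        linarith

/-- DETECTION, abstract numbers. -/
theorem det {ι : Type} {J : Finset ι} {w : ι → ℂ} {wt : ι → ℝ} {Q : ℂ → ℂ}
    {kap df D c B : ℝ} {k b : ℕ}
    (hwt : ∀ j ∈ J, 0 ≤ wt j) (hB : ∑ j ∈ J, wt j ≤ B) (hB0 : 0 < B)
    (hQ : ∀ (z : ℂ) (eta : ℝ), 0 ≤ eta → ‖z‖ ≤ Real.exp eta → df ≤ ‖1 - z‖ → ‖1 - z‖ ≤ 5 →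
      ‖Q z‖ ≤ Real.exp (D * eta - c * ‖1 - z‖))
    (h5 : ∀ j ∈ J, ‖1 - w j‖ ≤ 5)
    (hc : 0 ≤ c) (hkap0 : 0 ≤ kap)
    (hkap : kap * (k + b * D) ≤ b * c / 2)
    (hdf : Real.log (8 * B) ≤ b * c / 2 * df)
    (hw : ∀ j ∈ J, ‖w j‖ ≤ Real.exp (kap * max ‖1 - w j‖ df))
    (hU : 1 / 4 ≤ ‖∑ j ∈ J, (wt j : ℂ) * (w j ^ k * Q (w j) ^ b)‖) :
    ∃ j ∈ J, ‖1 - w j‖ < df := by
  by_contra hcon
  push Not at hcon
  have hterm : ∀ j ∈ J, ‖(wt j : ℂ) * (w j ^ k * Q (w j) ^ b)‖ ≤ wt j * (1 / (8 * B)) := by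
    intro j hjJ
    have hj := far (Q := Q) (w := w j) (kap := kap) (df := df) (D := D) (c := c)
      (L := Real.log (8 * B)) (k := k) (b := b)
      (fun eta h0 h1 h2 => hQ (w j) eta h0 h1 h2 (h5 j hjJ)) hc hkap0 hkap hdf (hw j hjJ)
      (hcon j hjJ)
    rw [Real.exp_neg, Real.exp_log (by positivity)] at hj
    rw [norm_mul, Complex.norm_real, Real.norm_eq_abs, abs_of_nonneg (hwt j hjJ), one_div]
    exact mul_le_mul_of_nonneg_left hj (hwt j hjJ)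
  have hsum : ‖∑ j ∈ J, (wt j : ℂ) * (w j ^ k * Q (w j) ^ b)‖ ≤ 1 / 8 := by
    calc ‖∑ j ∈ J, (wt j : ℂ) * (w j ^ k * Q (w j) ^ b)‖
        ≤ ∑ j ∈ J, ‖(wt j : ℂ) * (w j ^ k * Q (w j) ^ b)‖ := norm_sum_le _ _
      _ ≤ ∑ j ∈ J, wt j * (1 / (8 * B)) := Finset.sum_le_sum hterm
      _ = (∑ j ∈ J, wt j) * (1 / (8 * B)) := by rw [Finset.sum_mul]
      _ ≤ B * (1 / (8 * B)) := by
          apply mul_le_mul_of_nonneg_right hB
          positivity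
      _ = 1 / 8 := by field_simp
  linarith

/-- DETECTION with the numbers of note 5517: `S = Sf + 2`,
`b = m / (2 (S + 1) 2 ^ S)`, exponent `k ≤ A m`. -/
theorem detN {ι : Type} {J : Finset ι} {w : ι → ℂ} {wt : ι → ℝ} {Q : ℂ → ℂ}
    {kap df A B : ℝ} {k m Sf : ℕ}
    (hwt : ∀ j ∈ J, 0 ≤ wt j) (hB : ∑ j ∈ J, wt j ≤ B) (hB0 : 0 < B)
    (hQ : ∀ (z : ℂ) (eta : ℝ), 0 ≤ eta → ‖z‖ ≤ Real.exp eta →
      2 * Real.exp 1 / 2 ^ (Sf + 2) ≤ ‖1 - z‖ → ‖1 - z‖ ≤ 2 * Real.exp 1 →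
      ‖Q z‖ ≤ Real.exp (((Sf + 3 : ℕ) : ℝ) * 2 ^ (Sf + 2) * eta
        - 2 ^ (Sf + 2) * ‖1 - z‖ / (4 * Real.exp 1)))
    (h5 : ∀ j ∈ J, ‖1 - w j‖ ≤ 5)
    (hdf0 : 0 < df) (h1 : 2 / df ≤ (2 : ℝ) ^ Sf) (h2 : (2 : ℝ) ^ Sf ≤ 4 / df)
    (hkap0 : 0 ≤ kap)
    (hkap : kap * (32 * Real.exp 1 * (A + 1) * (Sf + 3)) ≤ 1)
    (hm : 64 * ((Sf : ℝ) + 3) ≤ m * df)
    (hlog : 32 * Real.exp 1 * (Sf + 3) * Real.log (8 * B) ≤ m * df)
    (hk : (k : ℝ) ≤ A * m)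
    (hw : ∀ j ∈ J, ‖w j‖ ≤ Real.exp (kap * max ‖1 - w j‖ df))
    (hU : 1 / 4 ≤ ‖∑ j ∈ J, (wt j : ℂ) *
      (w j ^ k * Q (w j) ^ (m / (2 * ((Sf + 3) * 2 ^ (Sf + 2)))))‖) :
    ∃ j ∈ J, ‖1 - w j‖ < df := by
  obtain ⟨b, hb⟩ : ∃ b : ℕ, b = m / (2 * ((Sf + 3) * 2 ^ (Sf + 2))) := ⟨_, rfl⟩
  obtain ⟨P, hP⟩ : ∃ P : ℝ, P = (2 : ℝ) ^ Sf := ⟨_, rfl⟩
  have hP0 : 0 < P := by rw [hP]; positivity
  have hP4 : (2 : ℝ) ^ (Sf + 2) = 4 * P := by rw [hP, pow_add]; norm_num [mul_comm]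
  have he : (2.7182818283 : ℝ) < Real.exp 1 := Real.exp_one_gt_d9
  have he2 : Real.exp 1 < (2.7182818286 : ℝ) := Real.exp_one_lt_d9
  have he0 : 0 < Real.exp 1 := Real.exp_pos 1
  have hS0 : (0 : ℝ) ≤ Sf := Nat.cast_nonneg _
  rw [← hP] at h1 h2
  have hdfP : 2 ≤ P * df := by rwa [div_le_iff₀ hdf0] at h1
  have hdfP' : P * df ≤ 4 := by rwa [le_div_iff₀ hdf0] at h2
  -- the size of b
  have hbR : (m : ℝ) / (16 * ((Sf + 3) * P)) ≤ b ∧ (b : ℝ) * (8 * ((Sf + 3) * P)) ≤ m := by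
    have hbig : 2 * (8 * ((Sf + 3) * P)) ≤ (m : ℝ) := by
      have e1 : (2 * (8 * (((Sf : ℝ) + 3) * P))) * df ≤ m * df := by
        calc (2 * (8 * (((Sf : ℝ) + 3) * P))) * df = 16 * (Sf + 3) * (P * df) := by ring
          _ ≤ 16 * (Sf + 3) * 4 := by
              apply mul_le_mul_of_nonneg_left hdfP'
              positivity
          _ = 64 * (Sf + 3) := by ring
          _ ≤ m * df := hm
      exact le_of_mul_le_mul_right e1 hdf0
    have hden : ((2 * ((Sf + 3) * 2 ^ (Sf + 2)) : ℕ) : ℝ) = 8 * ((Sf + 3) * P) := by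
      push_cast
      rw [hP4]
      ring
    have hdpos : (0 : ℝ) < 8 * (((Sf : ℝ) + 3) * P) := by positivity
    have hlow : (m : ℝ) < (b + 1) * (8 * ((Sf + 3) * P)) := by
      rw [← hden]
      have hpos : 0 < 2 * ((Sf + 3) * 2 ^ (Sf + 2)) := by positivity
      have := Nat.lt_div_mul_add (a := m) hpos
      rw [← hb] at this
      have h' : m < (b + 1) * (2 * ((Sf + 3) * 2 ^ (Sf + 2))) := by
        calc m < b * (2 * ((Sf + 3) * 2 ^ (Sf + 2))) + 2 * ((Sf + 3) * 2 ^ (Sf + 2)) := this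
          _ = (b + 1) * (2 * ((Sf + 3) * 2 ^ (Sf + 2))) := by ring
      exact_mod_cast h'
    have hup : (b : ℝ) * (8 * ((Sf + 3) * P)) ≤ m := by
      rw [← hden]
      have := Nat.div_mul_le_self m (2 * ((Sf + 3) * 2 ^ (Sf + 2)))
      rw [← hb] at this
      exact_mod_cast this
    refine ⟨?_, hup⟩
    have hb1 : (1 : ℝ) ≤ b := by
      by_contra hcon
      push Not at hcon
      have hb0 : b = 0 := by
        have : b < 1 := by exact_mod_cast hcon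
        omega
      rw [hb0] at hlow
      push_cast at hlow
      linarith
    rw [div_le_iff₀ (by positivity)]
    nlinarith
  obtain ⟨hb1, hb2⟩ := hbR
  have hb0 : (0 : ℝ) ≤ b := Nat.cast_nonneg _
  have hm0 : (0 : ℝ) ≤ m := Nat.cast_nonneg _
  have hS3 : (0 : ℝ) < (Sf : ℝ) + 3 := by positivity
  -- b c / 2 ≥ m / (32 e (Sf + 3))
  have hbc : (m : ℝ) / (32 * Real.exp 1 * (Sf + 3)) ≤ b * (P / Real.exp 1) / 2 := by
    have e1 : (m : ℝ) / (16 * ((Sf + 3) * P)) * (P / Real.exp 1) / 2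
        = m / (32 * Real.exp 1 * (Sf + 3)) := by
      field_simp
      ring
    rw [← e1]
    apply div_le_div_of_nonneg_right _ (by norm_num : (0 : ℝ) ≤ 2)
    apply mul_le_mul_of_nonneg_right hb1
    positivity
  refine det (D := (Sf + 3) * (4 * P)) (c := P / Real.exp 1) (b := b) (k := k) (Q := Q)
    (kap := kap) (df := df) (B := B) hwt hB hB0 ?_ h5 (by positivity) hkap0 ?_ ?_ hw ?_
  · intro z eta he3 hz hd hd5
    have := hQ z eta he3 hz ?_ (hd5.trans (by linarith))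
    · rw [hP4] at this
      push_cast at this
      have e1 : 4 * P * ‖1 - z‖ / (4 * Real.exp 1) = P / Real.exp 1 * ‖1 - z‖ := by
        field_simp
      rw [e1] at this
      exact this
    · rw [hP4]
      refine le_trans ?_ hd
      rw [div_le_iff₀ (by positivity)]
      nlinarith
  · have e1 : kap * ((k : ℝ) + b * ((Sf + 3) * (4 * P))) ≤ kap * ((A + 1) * m) := by
      apply mul_le_mul_of_nonneg_left _ hkap0
      nlinarith
    refine e1.trans (le_trans ?_ hbc)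
    rw [le_div_iff₀ (by positivity)]
    calc kap * ((A + 1) * m) * (32 * Real.exp 1 * (Sf + 3))
        = (kap * (32 * Real.exp 1 * (A + 1) * (Sf + 3))) * m := by ring
      _ ≤ 1 * m := mul_le_mul_of_nonneg_right hkap hm0
      _ = m := one_mul _
  · have e1 : Real.log (8 * B) ≤ m / (32 * Real.exp 1 * (Sf + 3)) * df := by
      rw [div_mul_eq_mul_div, le_div_iff₀ (by positivity)]
      linarith
    exact e1.trans (mul_le_mul_of_nonneg_right hbc hdf0.le)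
  · rw [hb]; exact hU

/-- The kernel sum of the numbers `Dk` is, up to the errors, the kernel sum of the zeros. -/
theorem detU {ι : Type} {J : Finset ι} {w : ι → ℂ} {wt : ι → ℝ} {f : Polynomial ℝ}
    {Dk : ℕ → ℂ} {k : ℕ} {er : ℝ}
    (hf0 : ∀ l, 0 ≤ f.coeff l) (hf1 : f.eval 1 = 1)
    (her : ∀ l ≤ f.natDegree, ‖Dk (k + l) + ∑ j ∈ J, (wt j : ℂ) * w j ^ (k + l)‖ ≤ er) :
    ‖(∑ l ∈ range (f.natDegree + 1), (f.coeff l : ℂ) * Dk (k + l))
      + ∑ j ∈ J, (wt j : ℂ) * (w j ^ k * (f.map Complex.ofRealHom).eval (w j))‖ ≤ er := by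
  have hsum1 : ∑ l ∈ range (f.natDegree + 1), f.coeff l = 1 := by
    have := Polynomial.eval_eq_sum_range (p := f) (1 : ℝ)
    rw [hf1] at this
    rw [this]
    apply Finset.sum_congr rfl
    intro l _
    rw [one_pow, mul_one]
  have hev : ∀ z : ℂ, (f.map Complex.ofRealHom).eval z
      = ∑ l ∈ range (f.natDegree + 1), (f.coeff l : ℂ) * z ^ l := by
    intro z
    rw [Polynomial.eval_map, Polynomial.eval₂_eq_sum_range]
    rfl
  have hswap : ∑ j ∈ J, (wt j : ℂ) * (w j ^ k * (f.map Complex.ofRealHom).eval (w j))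
      = ∑ l ∈ range (f.natDegree + 1), (f.coeff l : ℂ) *
        ∑ j ∈ J, (wt j : ℂ) * w j ^ (k + l) := by
    simp_rw [Finset.mul_sum]
    rw [Finset.sum_comm]
    apply Finset.sum_congr rfl
    intro j _
    rw [hev, Finset.mul_sum, Finset.mul_sum]
    apply Finset.sum_congr rfl
    intro l _
    rw [pow_add]
    ring
  rw [hswap, ← Finset.sum_add_distrib]
  calc ‖∑ l ∈ range (f.natDegree + 1), ((f.coeff l : ℂ) * Dk (k + l) + (f.coeff l : ℂ) *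
        ∑ j ∈ J, (wt j : ℂ) * w j ^ (k + l))‖
      ≤ ∑ l ∈ range (f.natDegree + 1), ‖(f.coeff l : ℂ) * Dk (k + l) + (f.coeff l : ℂ) *
        ∑ j ∈ J, (wt j : ℂ) * w j ^ (k + l)‖ := norm_sum_le _ _
    _ ≤ ∑ l ∈ range (f.natDegree + 1), f.coeff l * er := by
        apply Finset.sum_le_sum
        intro l hl
        rw [← mul_add, norm_mul, Complex.norm_real, Real.norm_eq_abs, abs_of_nonneg (hf0 l)]
        apply mul_le_mul_of_nonneg_left _ (hf0 l)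
        apply her
        have := Finset.mem_range.mp hl
        omega
    _ = er := by rw [← Finset.sum_mul, hsum1, one_mul]

end MP7ed9c3.Det
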