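import Pool.Agent.Lib.MP_7ed9c3_nt.Tp.Det
import Pool.Agent.Lib.MP_7ed9c3_nt.Tp.Ker

/-!
Detection of a zero with the kernel `ks (Sf + 2) ^ b`, `b = m / (2 (Sf + 3) 2 ^ (Sf + 2))`
(note 5517, part (b)).
-/

set_option autoImplicit false

namespace MP7ed9c3.Tp

open Finset

/-- **DetK**: detection with the kernel with many scales. -/
theorem detK {ι : Type} {J : Finset ι} {w : ι → ℂ} {wt : ι → ℝ}
    {kap df A B : ℝ} {k m Sf : ℕ}
    (hwt : ∀ j ∈ J, 0 ≤ wt j) (hB : ∑ j ∈ J, wt j ≤ B) (hB0 : 0 < B)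
    (h5 : ∀ j ∈ J, ‖1 - w j‖ ≤ 5)
    (hdf0 : 0 < df) (h1 : 2 ≤ 2 ^ Sf * df) (h2 : 2 ^ Sf * df ≤ 4)
    (hkap0 : 0 ≤ kap)
    (hkap : kap * (96 * (A + 1) * (Sf + 3)) ≤ 1)
    (hm : 64 * ((Sf : ℝ) + 3) ≤ m * df)
    (hlog : 96 * ((Sf : ℝ) + 3) * Real.log (8 * B) ≤ m * df)
    (hk : (k : ℝ) ≤ A * m)
    (hw : ∀ j ∈ J, ‖w j‖ ≤ Real.exp (kap * max ‖1 - w j‖ df))
    (hU : 1 / 4 ≤ ‖∑ j ∈ J, (wt j : ℂ) *
      (w j ^ k * ks (Sf + 2) (w j) ^ (m / (2 * ((Sf + 3) * 2 ^ (Sf + 2)))))‖) :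
    ∃ j ∈ J, ‖1 - w j‖ < df := by
  obtain ⟨b, hb⟩ : ∃ b : ℕ, b = m / (2 * ((Sf + 3) * 2 ^ (Sf + 2))) := ⟨_, rfl⟩
  obtain ⟨P, hP⟩ : ∃ P : ℝ, P = (2 : ℝ) ^ Sf := ⟨_, rfl⟩
  have hP0 : 0 < P := by rw [hP]; positivity
  have hP4 : (2 : ℝ) ^ (Sf + 2) = 4 * P := by rw [hP, pow_add]; norm_num [mul_comm]
  have hS0 : (0 : ℝ) ≤ Sf := Nat.cast_nonneg _
  rw [← hP] at h1 h2
  -- the size of b
  have hbR : (m : ℝ) / (16 * ((Sf + 3) * P)) ≤ b ∧ (b : ℝ) * (8 * ((Sf + 3) * P)) ≤ m := by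
    have hbig : 2 * (8 * ((Sf + 3) * P)) ≤ (m : ℝ) := by
      have e1 : (2 * (8 * (((Sf : ℝ) + 3) * P))) * df ≤ m * df := by
        calc (2 * (8 * (((Sf : ℝ) + 3) * P))) * df = 16 * (Sf + 3) * (P * df) := by ring
          _ ≤ 16 * (Sf + 3) * 4 := by
              apply mul_le_mul_of_nonneg_left h2
              positivity
          _ = 64 * (Sf + 3) := by ring
          _ ≤ m * df := hm
      exact le_of_mul_le_mul_right e1 hdf0
    have hden : ((2 * ((Sf + 3) * 2 ^ (Sf + 2)) : ℕ) : ℝ) = 8 * ((Sf + 3) * P) := by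
      push_cast
      rw [hP4]
      ring
    have hdpos : (0 : ℝ) < 8 * (((Sf : ℝ) + 3) * P) := by positivity
    have hlow : (m : ℝ) < (b + 1) * (8 * ((Sf + 3) * P)) := by
      rw [← hden]
      have hpos : 0 < 2 * ((Sf + 3) * 2 ^ (Sf + 2)) := by positivity
      have := Nat.lt_div_mul_add (a := m) hpos
      rw [← hb] at this
      have h' : m < (b + 1) * (2 * ((Sf + 3) * 2 ^ (Sf + 2))) := by
        calc m < b * (2 * ((Sf + 3) * 2 ^ (Sf + 2))) + 2 * ((Sf + 3) * 2 ^ (Sf + 2)) := this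
          _ = (b + 1) * (2 * ((Sf + 3) * 2 ^ (Sf + 2))) := by ring
      exact_mod_cast h'
    have hup : (b : ℝ) * (8 * ((Sf + 3) * P)) ≤ m := by
      rw [← hden]
      have := Nat.div_mul_le_self m (2 * ((Sf + 3) * 2 ^ (Sf + 2)))
      rw [← hb] at this
      exact_mod_cast this
    refine ⟨?_, hup⟩
    have hb1 : (1 : ℝ) ≤ b := by
      by_contra hcon
      push Not at hcon
      have hb0 : b = 0 := by
        have : b < 1 := by exact_mod_cast hcon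
        omega
      rw [hb0] at hlow
      push_cast at hlow
      linarith
    rw [div_le_iff₀ (by positivity)]
    nlinarith
  obtain ⟨hb1, hb2⟩ := hbR
  have hb0 : (0 : ℝ) ≤ b := Nat.cast_nonneg _
  have hm0 : (0 : ℝ) ≤ m := Nat.cast_nonneg _
  have hS3 : (0 : ℝ) < (Sf : ℝ) + 3 := by positivity
  -- b c / 2 ≥ m / (96 (Sf + 3))
  have hbc : (m : ℝ) / (96 * (Sf + 3)) ≤ b * (P / 3) / 2 := by
    have e1 : (m : ℝ) / (16 * ((Sf + 3) * P)) * (P / 3) / 2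
        = m / (96 * (Sf + 3)) := by
      field_simp
      ring
    rw [← e1]
    apply div_le_div_of_nonneg_right _ (by norm_num : (0 : ℝ) ≤ 2)
    apply mul_le_mul_of_nonneg_right hb1
    positivity
  refine Det.det (D := (Sf + 3) * (4 * P)) (c := P / 3) (b := b) (k := k) (Q := ks (Sf + 2))
    (kap := kap) (df := df) (B := B) hwt hB hB0 ?_ h5 (by positivity) hkap0 ?_ ?_ hw ?_
  · intro z eta he3 hz hd hd5
    have h6 : 6 ≤ (2 : ℝ) ^ (Sf + 2) * ‖1 - z‖ := by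
      rw [hP4]
      nlinarith
    have := ks_far (Sf + 2) z eta he3 hz h6 (by linarith)
    refine this.trans (Real.exp_le_exp.mpr (le_of_eq ?_))
    rw [hP4]
    push_cast
    ring
  · have e1 : kap * ((k : ℝ) + b * ((Sf + 3) * (4 * P))) ≤ kap * ((A + 1) * m) := by
      apply mul_le_mul_of_nonneg_left _ hkap0
      nlinarith
    refine e1.trans (le_trans ?_ hbc)
    rw [le_div_iff₀ (by positivity)]
    calc kap * ((A + 1) * m) * (96 * (Sf + 3))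
        = (kap * (96 * (A + 1) * (Sf + 3))) * m := by ring
      _ ≤ 1 * m := mul_le_mul_of_nonneg_right hkap hm0
      _ = m := one_mul _
  · have e1 : Real.log (8 * B) ≤ m / (96 * (Sf + 3)) * df := by
      rw [div_mul_eq_mul_div, le_div_iff₀ (by positivity)]
      linarith
    exact e1.trans (mul_le_mul_of_nonneg_right hbc hdf0.le)
  · rw [hb]; exact hU

end MP7ed9c3.Tp
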