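import Mathlib

/-!
# MP_7ed9c3_nt, part Tp: the numbers of the end of note 5517 (helper77)

`S_NumG`: one constant `K` for all the inequalities; `df = C₁ Lg LL / m1`,
`κ = 1/(10 K LL)`, `2/df ≤ 2^Sf ≤ 4/df`.  `S_NumT` is the form asked for by helper61.
-/

set_option autoImplicit false

namespace MP7ed9c3.NumT

open Real

def S_NumG : Prop := ∀ K : ℝ, 1 ≤ K → ∃ C0 : ℝ, 1 ≤ C0 ∧
  ∀ (LL Lg m1 : ℝ) (N : ℕ), 1 ≤ LL → LL ≤ Lg → 1 ≤ N → 1 ≤ m1 → Real.log m1 ≤ LL →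
    C0 * N * Lg * LL ≤ m1 →
    ∃ (df κ : ℝ) (Sf : ℕ), 0 < df ∧ df ≤ 1 ∧ 2 ≤ 2 ^ Sf * df ∧ (2 : ℝ) ^ Sf ≤ 4 / df ∧
      0 < κ ∧ κ * (K * (Sf + 8)) ≤ 1 ∧ K * N * (Sf + 8) ≤ κ * m1 ∧ K * N * df ≤ 1 ∧
      ∀ m : ℕ, m1 ≤ m → K * Lg ≤ κ * m * df ∧ K * (Sf + 8) * (K * Lg) ≤ m * df

theorem tNumG : S_NumG := by
  intro K hK
  have hK0 : 0 < K := by linarith
  refine ⟨100 * K ^ 2 * (10 * K ^ 2 + 4), by nlinarith [sq_nonneg K, sq_nonneg (K ^ 2)], ?_⟩
  intro ℓ L m₁ N hℓ1 hL hN hm1 hlog hNL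
  set C₁ : ℝ := 10 * K ^ 2 + 4 with hC₁
  have hC₁0 : 0 < C₁ := by positivity
  have hC₁4 : 4 ≤ C₁ := by nlinarith [sq_nonneg K]
  have hK2 : 1 ≤ K ^ 2 := by nlinarith
  have hm0 : (0 : ℝ) < m₁ := by linarith
  have hNR : (1 : ℝ) ≤ N := by exact_mod_cast hN
  have hL1 : 1 ≤ L := le_trans hℓ1 hL
  have hℓ0 : 0 < ℓ := by linarith
  have hL0 : 0 < L := by linarith
  have hℓL : 1 ≤ ℓ * L := by nlinarith
  have hℓL0 : 0 < ℓ * L := by positivity
  have hcond : 100 * K ^ 2 * C₁ * (N * (ℓ * L)) ≤ m₁ := by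
    have : 100 * K ^ 2 * C₁ * (N * (ℓ * L)) = 100 * K ^ 2 * C₁ * N * L * ℓ := by ring
    rw [this]; exact hNL
  have hbig : C₁ * (ℓ * L) ≤ m₁ := by
    have h1 : C₁ * (ℓ * L) ≤ 100 * K ^ 2 * C₁ * (N * (ℓ * L)) := by
      have h3 : ℓ * L ≤ N * (ℓ * L) := le_mul_of_one_le_left hℓL0.le hNR
      have h4 : C₁ * (N * (ℓ * L)) ≤ 100 * K ^ 2 * (C₁ * (N * (ℓ * L))) :=
        le_mul_of_one_le_left (by positivity) (by linarith)
      calc C₁ * (ℓ * L) ≤ C₁ * (N * (ℓ * L)) := mul_le_mul_of_nonneg_left h3 hC₁0.le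
        _ ≤ _ := by linarith
    linarith
  set df : ℝ := C₁ * (ℓ * L) / m₁ with hdf
  have hdf0 : 0 < df := by positivity
  have hdf1 : df ≤ 1 := by rw [hdf, div_le_one hm0]; exact hbig
  have hmdf : m₁ * df = C₁ * (ℓ * L) := by rw [hdf]; field_simp
  -- the dyadic exponent
  have hex : ∃ n : ℕ, 2 / df ≤ (2 : ℝ) ^ n := by
    obtain ⟨n, hn⟩ := pow_unbounded_of_one_lt (2 / df) (by norm_num : (1 : ℝ) < 2)
    exact ⟨n, hn.le⟩
  classical
  obtain ⟨Sf, hSf1, hSf2⟩ : ∃ Sf : ℕ, 2 / df ≤ (2 : ℝ) ^ Sf ∧ (2 : ℝ) ^ Sf ≤ 4 / df := by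
    refine ⟨Nat.find hex, Nat.find_spec hex, ?_⟩
    have hpos : Nat.find hex ≠ 0 := by
      intro h0
      have := Nat.find_spec hex
      rw [h0, pow_zero, div_le_one hdf0] at this
      linarith
    obtain ⟨n, hn⟩ := Nat.exists_eq_succ_of_ne_zero hpos
    have hlt : ¬ (2 / df ≤ (2 : ℝ) ^ n) := Nat.find_min hex (by omega)
    push Not at hlt
    rw [hn, Nat.succ_eq_add_one, pow_succ]
    have h4 : 4 / df = 2 / df * 2 := by ring
    rw [h4]
    linarith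
  have hSfm : (2 : ℝ) ^ Sf ≤ m₁ := by
    refine le_trans hSf2 ?_
    rw [div_le_iff₀ hdf0, hmdf]
    nlinarith
  have hSfℓ : (Sf : ℝ) ≤ 2 * ℓ := by
    have h1 : Real.log ((2 : ℝ) ^ Sf) ≤ ℓ :=
      le_trans (Real.log_le_log (by positivity) hSfm) hlog
    rw [Real.log_pow] at h1
    have h2 := Real.log_two_gt_d9
    have h3 : (0 : ℝ) ≤ Sf := Nat.cast_nonneg _
    nlinarith
  have hS8 : (Sf : ℝ) + 8 ≤ 10 * ℓ := by linarith
  have hS80 : (0 : ℝ) ≤ (Sf : ℝ) + 8 := by positivity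
  set κ : ℝ := 1 / (10 * K * ℓ) with hκ
  have hκ0 : 0 < κ := by positivity
  have hκℓ : κ * (10 * K * ℓ) = 1 := by rw [hκ]; field_simp
  refine ⟨df, κ, Sf, hdf0, hdf1, ?_, hSf2, hκ0, ?_, ?_, ?_, ?_⟩
  · rwa [div_le_iff₀ hdf0] at hSf1
  · calc κ * (K * (Sf + 8)) ≤ κ * (K * (10 * ℓ)) := by gcongr
      _ = κ * (10 * K * ℓ) := by ring
      _ = 1 := hκℓ
      _ ≤ 1 := le_refl _
  · have h1 : K * N * (Sf + 8) ≤ K * N * (10 * ℓ) := by gcongr
    have h2 : K * N * (10 * ℓ) * (10 * K * ℓ) ≤ m₁ := by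
      have h3 : (N : ℝ) * (ℓ * ℓ) ≤ N * (ℓ * L) := by gcongr
      have h4 : K * N * (10 * ℓ) * (10 * K * ℓ) = 100 * K ^ 2 * (N * (ℓ * ℓ)) := by ring
      rw [h4]
      have h5 : 100 * K ^ 2 * ((N : ℝ) * (ℓ * ℓ)) ≤ 100 * K ^ 2 * (N * (ℓ * L)) := by gcongr
      have h6 : 100 * K ^ 2 * ((N : ℝ) * (ℓ * L)) ≤ 100 * K ^ 2 * C₁ * (N * (ℓ * L)) := by
        have : 100 * K ^ 2 * C₁ * ((N : ℝ) * (ℓ * L)) = C₁ * (100 * K ^ 2 * (N * (ℓ * L))) := by
          ring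
        rw [this]
        exact le_mul_of_one_le_left (by positivity) (by linarith)
      linarith
    have h3 : K * N * (10 * ℓ) ≤ κ * m₁ := by
      have h4 : K * N * (10 * ℓ) = κ * (K * N * (10 * ℓ) * (10 * K * ℓ)) := by
        calc K * N * (10 * ℓ) = K * N * (10 * ℓ) * 1 := by ring
          _ = K * N * (10 * ℓ) * (κ * (10 * K * ℓ)) := by rw [hκℓ]
          _ = _ := by ring
      rw [h4]
      exact mul_le_mul_of_nonneg_left h2 hκ0.le
    linarith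
  · have h1 : K * N * df * m₁ ≤ 1 * m₁ := by
      have h2 : K * N * df * m₁ = K * C₁ * (N * (ℓ * L)) := by
        calc K * N * df * m₁ = K * N * (m₁ * df) := by ring
          _ = K * N * (C₁ * (ℓ * L)) := by rw [hmdf]
          _ = _ := by ring
      rw [h2, one_mul]
      have h3 : K * C₁ * ((N : ℝ) * (ℓ * L)) ≤ 100 * K ^ 2 * C₁ * (N * (ℓ * L)) := by
        have h4 : K ≤ 100 * K ^ 2 := by nlinarith
        gcongr
      linarith
    exact le_of_mul_le_mul_right h1 hm0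
  · intro m hm1
    have hmm : C₁ * (ℓ * L) ≤ m * df := by
      rw [← hmdf]
      exact mul_le_mul_of_nonneg_right hm1 hdf0.le
    constructor
    · have h1 : K * L ≤ κ * (C₁ * (ℓ * L)) := by
        have h2 : κ * (C₁ * (ℓ * L)) * (10 * K) = C₁ * L := by
          calc κ * (C₁ * (ℓ * L)) * (10 * K) = (κ * (10 * K * ℓ)) * (C₁ * L) := by ring
            _ = C₁ * L := by rw [hκℓ, one_mul]
        have h3 : K * L * (10 * K) ≤ C₁ * L := by
          have : K * L * (10 * K) = (10 * K ^ 2) * L := by ring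
          rw [this, hC₁]
          nlinarith
        rw [← h2] at h3
        exact le_of_mul_le_mul_right h3 (by positivity)
      have h2 : κ * (C₁ * (ℓ * L)) ≤ κ * m * df := by
        rw [mul_assoc κ]
        exact mul_le_mul_of_nonneg_left hmm hκ0.le
      linarith
    · calc K * (Sf + 8) * (K * L) ≤ K * (10 * ℓ) * (K * L) := by gcongr
        _ = (10 * K ^ 2) * (ℓ * L) := by ring
        _ ≤ C₁ * (ℓ * L) := by
          rw [hC₁]
          nlinarith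
        _ ≤ m * df := hmm

/-- the numbers, in the form of helper61 (mail 76995) -/
def S_NumT : Prop := ∀ A C : ℝ, 1 ≤ A → 1 ≤ C → ∃ C0 : ℝ, 1 ≤ C0 ∧
  ∀ (LL Lg m1 : ℝ) (N : ℕ), 1 ≤ LL → LL ≤ Lg → 1 ≤ N → 1 ≤ m1 → Real.log m1 ≤ LL →
    C0 * N * Lg * LL ≤ m1 →
    ∃ (df kap nu : ℝ) (Sf : ℕ), 0 < df ∧ df ≤ 1 ∧ 2 ≤ 2 ^ Sf * df ∧ (2 : ℝ) ^ Sf ≤ 4 / df ∧
      0 < kap ∧ kap * (40 * (Sf + 1)) ≤ 1 ∧ kap * (96 * (A + 1) * (Sf + 3)) ≤ 1 ∧
      0 < nu ∧ 12 * nu ≤ kap ∧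
      ∀ m : ℕ, m1 ≤ m →
        2 * (C * Lg) ≤ kap * m * df ∧ 20 * (Sf + 1) ≤ m * df ∧ 64 * (Sf + 3) ≤ m * df ∧
        96 * (Sf + 3) * (C * Lg) ≤ m * df ∧ C * (Sf + 2) * N ≤ nu * m ∧ C * N * df ≤ 1

theorem tNumT : S_NumT := by
  intro A C hA hC
  have hAC : 2 * C ≤ (A + 1) * C := by nlinarith
  have hACA : A + 1 ≤ (A + 1) * C := le_mul_of_one_le_right (by linarith) hC
  have hK : (1 : ℝ) ≤ 96 * ((A + 1) * C) := by nlinarith
  obtain ⟨C0, hC0, hmain⟩ := tNumG (96 * ((A + 1) * C)) hK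
  refine ⟨C0, hC0, ?_⟩
  intro LL Lg m1 N hLL hLg hN hm1 hlog hcond
  obtain ⟨df, κ, Sf, e1, e2, e3, e4, e5, e6, e7, e8, e10⟩ :=
    hmain LL Lg m1 N hLL hLg hN hm1 hlog hcond
  have hNR : (1 : ℝ) ≤ N := by exact_mod_cast hN
  have hS : (0 : ℝ) ≤ Sf := Nat.cast_nonneg _
  set K : ℝ := 96 * ((A + 1) * C) with hKdef
  have hKA : 96 * (A + 1) ≤ K := by linarith
  have hKC : 192 * C ≤ K := by linarith
  have hKbig : 192 ≤ K := by linarith
  have hK0 : 0 < K := by linarith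
  have hLg1 : 1 ≤ Lg := le_trans hLL hLg
  have hCL : 0 ≤ C * Lg := by positivity
  refine ⟨df, κ, κ / 12, Sf, e1, e2, e3, e4, e5, ?_, ?_, by positivity, by linarith, ?_⟩
  · refine le_trans ?_ e6
    have : 40 * ((Sf : ℝ) + 1) ≤ K * (Sf + 8) := by
      gcongr
      · linarith
      · norm_num
    exact mul_le_mul_of_nonneg_left this e5.le
  · refine le_trans ?_ e6
    have : 96 * (A + 1) * ((Sf : ℝ) + 3) ≤ K * (Sf + 8) := by
      gcongr
      norm_num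
    exact mul_le_mul_of_nonneg_left this e5.le
  · intro m hm
    obtain ⟨f1, f2⟩ := e10 m hm
    have hKL : K ≤ K * Lg := le_mul_of_one_le_right hK0.le hLg1
    have hbase : K * (Sf + 8) ≤ m * df := by
      have : K * (Sf + 8) ≤ K * (Sf + 8) * (K * Lg) :=
        le_mul_of_one_le_right (by positivity) (by linarith)
      linarith
    refine ⟨?_, ?_, ?_, ?_, ?_, ?_⟩
    · have h1 : 2 * (C * Lg) ≤ K * Lg := by
        have : 2 * (C * Lg) = (2 * C) * Lg := by ring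
        rw [this]
        have h2 : 2 * C ≤ K := by linarith
        gcongr
      linarith
    · have h2 : 20 * ((Sf : ℝ) + 1) ≤ K * (Sf + 8) := by
        gcongr
        · linarith
        · norm_num
      linarith
    · have h2 : 64 * ((Sf : ℝ) + 3) ≤ K * (Sf + 8) := by
        gcongr
        · linarith
        · norm_num
      linarith
    · have h1 : 96 * ((Sf : ℝ) + 3) * (C * Lg) ≤ K * (Sf + 8) * (K * Lg) := by
        have h4 : (96 : ℝ) ≤ K := by linarith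
        have h5 : C ≤ K := by linarith
        gcongr
        norm_num
      linarith
    · have h1 : 12 * (C * (Sf + 2) * N) ≤ K * N * (Sf + 8) := by
        have h2 : 12 * (C * (Sf + 2) * N) = (12 * C) * N * (Sf + 2) := by ring
        rw [h2]
        have h3 : 12 * C ≤ K := by linarith
        gcongr
        norm_num
      have h2 : κ * m1 ≤ κ * m := mul_le_mul_of_nonneg_left hm e5.le
      linarith
    · have h1 : C * N * df ≤ K * N * df := by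
        have : C ≤ K := by linarith
        gcongr
      linarith

end MP7ed9c3.NumT
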