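import Pool.Agent.Lib.MP_7ed9c3_nt.Tp.SpecL
import Pool.Agent.Lib.MP_7ed9c3_nt.Tp.NumT
import Pool.Agent.Lib.MP_7ed9c3_nt.Tp.WinT

/-!
# MP_7ed9c3_nt, part Tp: the detector with the kernel of many scales
-/

set_option autoImplicit false

namespace MP7ed9c3.Tp

open MeasureTheory Metric MP7ed9c3.Aw

/-- **DetL** (from `S_LocT`, `S_KrnL`, `NumT.S_NumT`). -/
theorem tDetL (h1 : S_LocT) (h2 : S_KrnL) (h3 : NumT.S_NumT) : S_DetL := by
  classical
  intro h σ₁ b r₀ R R' R₂ R₁ C A' hh hC hrad hA'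
  obtain ⟨D, hD1, hloc⟩ := h1 h σ₁ b r₀ R R' R₂ R₁ C A' hh hC hrad hA'
  have hD0 : 0 < D := by linarith
  -- the constants for the numbers
  set Cn : ℝ := 4 * D + 4 * D / h + 96 * D / h + 1 with hCn
  have hCn1 : 1 ≤ Cn := by
    rw [hCn]
    have : 0 ≤ 4 * D / h := by positivity
    have : 0 ≤ 96 * D / h := by positivity
    linarith
  obtain ⟨C0, hC01, hnum⟩ := h3 D Cn hD1 hCn1
  refine ⟨C0 + 16, by linarith, ?_⟩
  intro V T N m₀ hV hVT hN hm₀ hm₀T
  have hV16 : 16 ≤ V := by linarith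
  have hV0 : 0 < V := by linarith
  have hT0 : 0 < T := by linarith
  -- log T ≥ e
  have hlogV : Real.exp 1 ≤ Real.log V := by
    rw [Real.le_log_iff_exp_le hV0]
    have he : Real.exp 1 ≤ 2.72 := by linarith [Real.exp_one_lt_d9]
    have h4 : Real.exp (Real.exp 1) ≤ Real.exp 2.72 := Real.exp_le_exp.mpr he
    have h5 : Real.exp 2.72 ≤ 16 := by
      have h6 : Real.exp 2.72 = Real.exp 1 ^ 2 * Real.exp 0.72 := by
        rw [← Real.exp_nat_mul, ← Real.exp_add]
        norm_num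
      have h7 : Real.exp 0.72 ≤ 2.1 := by
        have h8 : Real.exp 0.72 = Real.exp 0.36 ^ 2 := by
          rw [← Real.exp_nat_mul]
          norm_num
        have h9 : Real.exp 0.36 ≤ 1.44 := by
          have h10 := Real.exp_bound' (x := 0.36) (by norm_num) (by norm_num) (n := 4) (by norm_num)
          refine h10.trans ?_
          norm_num [Finset.sum_range_succ, Nat.factorial]
        rw [h8]
        nlinarith [Real.exp_pos (0.36 : ℝ)]
      rw [h6]
      have h11 : Real.exp 1 ^ 2 ≤ 2.72 ^ 2 := pow_le_pow_left₀ (Real.exp_pos _).le he 2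
      nlinarith [Real.exp_pos (0.72 : ℝ)]
    linarith
  have hlogVT : Real.log V ≤ Real.log T := Real.log_le_log hV0 hVT
  have he1 : (2.7 : ℝ) ≤ Real.exp 1 := by linarith [Real.exp_one_gt_d9]
  have hlogT0 : 0 < Real.log T := by linarith
  set LL := Real.log (Real.log T) with hLL
  have hLL1 : 1 ≤ LL := by
    rw [hLL, Real.le_log_iff_exp_le hlogT0]
    linarith
  set Lg := Real.log V + LL with hLg
  have hLgLL : LL ≤ Lg := by
    rw [hLg]
    linarith
  have hN1 : (1 : ℝ) ≤ N := by exact_mod_cast hN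
  have hm₀' : C0 * N * Lg * LL ≤ m₀ := by
    refine le_trans ?_ hm₀
    have hLg0 : 0 ≤ Lg := by linarith
    have hLL0 : 0 ≤ LL := by linarith
    have h4 : 0 ≤ (N : ℝ) * Lg * LL := by positivity
    have h5 : (C0 + 16) * ((N : ℝ) * Lg * LL) = C0 * N * Lg * LL + 16 * ((N : ℝ) * Lg * LL) := by
      ring
    have h6 : (C0 + 16) * ((N : ℝ) * (Real.log V + Real.log (Real.log T)) *
        Real.log (Real.log T)) = (C0 + 16) * ((N : ℝ) * Lg * LL) := rfl
    rw [h6, h5]
    linarith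
  have hm₀1 : (16 : ℝ) ≤ m₀ := by
    refine le_trans ?_ hm₀
    have h6 : (C0 + 16) * ((N : ℝ) * (Real.log V + Real.log (Real.log T)) *
        Real.log (Real.log T)) = (C0 + 16) * ((N : ℝ) * Lg * LL) := rfl
    rw [h6]
    have h7 : 1 ≤ Lg := hLL1.trans hLgLL
    have h8 : 1 ≤ (N : ℝ) * Lg * LL := by
      have := mul_le_mul hN1 h7 zero_le_one (by linarith)
      have h9 := mul_le_mul this hLL1 zero_le_one (by positivity)
      linarith
    nlinarith
  have hlogm₀ : Real.log m₀ ≤ LL := Real.log_le_log (by linarith) hm₀T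
  obtain ⟨df, kap, nu, Sf, hdf0, hdf1, hSf1, hSf2, hkap0, hkap1, hkap2, hnu0, hnu, hnumm⟩ :=
    hnum LL Lg m₀ N hLL1 hLgLL hN (by linarith) hlogm₀ hm₀'
  have hSf2' : (2 : ℝ) ^ Sf * df ≤ 4 := by
    rwa [le_div_iff₀ hdf0] at hSf2
  have hkapD : kap * (D * (Sf + 3)) ≤ 1 := by
    refine le_trans ?_ hkap2
    apply mul_le_mul_of_nonneg_left _ hkap0.le
    have : (0 : ℝ) ≤ Sf := Nat.cast_nonneg _
    nlinarith
  obtain ⟨-, -, -, -, hnuN, hNdf⟩ := hnumm m₀ le_rfl
  have hm₀2 : 2 ≤ m₀ := by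
    have : (2 : ℝ) ≤ m₀ := by linarith
    exact_mod_cast this
  -- the kernels
  choose js hjs1 hjs2 using fun m : {m : ℕ // 2 ≤ m} => h2 Sf m.1 m.2
  refine ⟨D * df, fun m => alL Sf m, fun m => DL Sf m,
    fun m => if hm : 2 ≤ m then js ⟨m, hm⟩ else 0, by positivity, ?_, ?_, ?_⟩
  · -- 4 N δ ≤ h
    have h4 : 4 * D / h * N * df ≤ 1 := by
      refine le_trans ?_ hNdf
      have h5 : 4 * D / h ≤ Cn := by
        rw [hCn]
        have : 0 ≤ 96 * D / h := by positivity
        linarith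
      have h6 : 0 ≤ (N : ℝ) * df := by positivity
      have h7 := mul_le_mul_of_nonneg_right h5 h6
      calc 4 * D / h * N * df = 4 * D / h * (N * df) := by ring
        _ ≤ Cn * (N * df) := h7
        _ = Cn * N * df := by ring
    have h7 : 4 * (N : ℝ) * (D * df) = h * (4 * D / h * N * df) := by
      field_simp
    rw [h7]
    have h8 := mul_le_mul_of_nonneg_left h4 hh.le
    linarith
  · intro m hm _
    have hm2 : 2 ≤ m := hm₀2.trans hm
    simp only [dif_pos hm2]
    exact ⟨hjs1 ⟨m, hm2⟩, hjs2 ⟨m, hm2⟩⟩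
  · intro c G t₁ hc hG hGV hGe hGN
    obtain ⟨Z₀, hZ₀, hZc⟩ := fin_of_card {ρ | ρ ∈ win σ₁ (2 * h) t₁ ∧ G ρ = 0} N
      (fun Z hZ => hGN Z (fun ρ hρ => hZ ρ hρ))
    have hZcR : (Z₀.card : ℝ) ≤ N := by exact_mod_cast hZc
    obtain ⟨B, hBm, hBv, hB⟩ := tCntZ Z₀ (12 * D) df (h / 2) Sf (by positivity) hdf0
      (by positivity) hSf1
    refine ⟨B, hBv, ?_⟩
    intro t ht htB m kk q hm hmT hkk1 hkk2 hq heW hcmb
    have hm2 : 2 ≤ m := hm₀2.trans hm
    have hmR : (m₀ : ℝ) ≤ m := by exact_mod_cast hm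
    have hsub : win σ₁ h t ⊆ win σ₁ (2 * h) t₁ := by
      intro ρ hρ
      refine ⟨hρ.1, ?_⟩
      have h4 : |ρ.im - t| < h := hρ.2
      rw [abs_lt] at h4 ht ⊢
      constructor <;> linarith [h4.1, h4.2, ht.1, ht.2]
    obtain ⟨hn1, hn2, hn3, hn4, hn5, hn6⟩ := hnumm m hmR
    simp only [dif_pos hm2] at hcmb
    have hlogVm : Real.log (V + m) ≤ 2 * Lg := by
      have hm0 : (0 : ℝ) ≤ m := Nat.cast_nonneg _
      have h4 : V + m ≤ V * Real.log T * 2 := by
        have h5 : (1 : ℝ) ≤ Real.log T := by linarith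
        have h6 : V ≤ V * Real.log T := le_mul_of_one_le_right hV0.le h5
        have h7 : (m : ℝ) ≤ V * Real.log T := by nlinarith
        linarith
      have h8 : Real.log (V + m) ≤ Real.log (V * Real.log T * 2) :=
        Real.log_le_log (by linarith) h4
      have h9 : Real.log (V * Real.log T * 2) = Real.log V + LL + Real.log 2 := by
        rw [Real.log_mul (by positivity) (by norm_num), Real.log_mul hV0.ne' hlogT0.ne']
      have h10 : Real.log 2 ≤ 1 := by linarith [Real.log_two_lt_d9]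
      have h11 : 1 ≤ Lg := hLL1.trans hLgLL
      rw [h9] at h8
      linarith
    refine hloc c G t V q df kap nu m kk (js ⟨m, hm2⟩) Sf hc (by linarith) (hG.mono hsub)
      (fun s hs => hGV s (hsub hs)) (fun s hs h3 => hGe s (hsub hs) h3) hq heW hm2 hkk1 hkk2
      (hjs1 ⟨m, hm2⟩).lt (hjs2 ⟨m, hm2⟩) hdf0 hdf1 hSf1 hSf2' hkap0 hnu hkapD ?_ ?_ hcmb
    · refine le_trans ?_ hn1
      have h4 : D * Real.log (V + m) ≤ D * (2 * Lg) := mul_le_mul_of_nonneg_left hlogVm hD0.le
      have h5 : D ≤ Cn := by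
        rw [hCn]
        have : 0 ≤ 4 * D / h := by positivity
        have : 0 ≤ 96 * D / h := by positivity
        linarith
      have h6 : 0 ≤ Lg := by linarith
      have h7 := mul_le_mul_of_nonneg_right h5 (by linarith : 0 ≤ 2 * Lg)
      linarith
    · intro del hdel hdel5 Z hZ
      have hdelpos : 0 < del := lt_of_lt_of_le hdf0 hdel
      have h4 := hB t htB del hdel hdel5
      have h5 : Z.card ≤ (Z₀.filter (fun ρ => |ρ.im - t| < 12 * D * del)).card := by
        apply Finset.card_le_card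
        intro ρ hρ
        obtain ⟨h6, h7, h8⟩ := hZ ρ hρ
        refine Finset.mem_filter.mpr ⟨(hZ₀ ρ).mpr ⟨hsub h6, h7⟩, lt_of_le_of_lt h8 ?_⟩
        have : 0 < D * del := by positivity
        nlinarith
      have h6 : (Z.card : ℝ) ≤ 4 * (12 * D) * ((Sf : ℝ) + 2) / (h / 2) * Z₀.card * del :=
        le_trans (by exact_mod_cast h5) h4
      refine h6.trans ?_
      apply mul_le_mul_of_nonneg_right _ hdelpos.le
      refine le_trans ?_ hn5
      have h7 : 4 * (12 * D) * ((Sf : ℝ) + 2) / (h / 2) * Z₀.card =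
          96 * D / h * ((Sf : ℝ) + 2) * Z₀.card := by
        field_simp
        ring
      rw [h7]
      have h8 : 96 * D / h ≤ Cn := by
        rw [hCn]
        have : 0 ≤ 4 * D / h := by positivity
        linarith
      have h9 : 96 * D / h * ((Sf : ℝ) + 2) * Z₀.card ≤ 96 * D / h * ((Sf : ℝ) + 2) * N :=
        mul_le_mul_of_nonneg_left hZcR (by positivity)
      have h10 : 96 * D / h * ((Sf : ℝ) + 2) * N ≤ Cn * ((Sf : ℝ) + 2) * N := by
        have h11 : 0 ≤ ((Sf : ℝ) + 2) * N := by positivity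
        have h12 := mul_le_mul_of_nonneg_right h8 h11
        calc 96 * D / h * ((Sf : ℝ) + 2) * N = 96 * D / h * (((Sf : ℝ) + 2) * N) := by ring
          _ ≤ Cn * (((Sf : ℝ) + 2) * N) := h12
          _ = Cn * ((Sf : ℝ) + 2) * N := by ring
      linarith

end MP7ed9c3.Tp
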