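import Pool.Agent.Lib.MP_7ed9c3_nt.Tp.Spec

/-!
# MP_7ed9c3_nt, project TP, module DirB: the Dirichlet series (helper77)
-/

set_option autoImplicit false

namespace MP7ed9c3.Tp

open MeasureTheory Metric MP7ed9c3.Aw

private theorem DirB_term {c : ℕ → ℂ} {C : ℝ} (hC : 0 ≤ C) (hc : Coefs c C) (m : ℕ) (s : ℂ)
    (hs : 2 ≤ s.re) : ‖c m * (m : ℂ) ^ (-s)‖ ≤ C * (m : ℝ) ^ (-(3 / 2) : ℝ) := by
  rcases Nat.eq_zero_or_pos m with hm | hm
  · subst hm
    have h0 : c 0 = 0 := by
      have := hc.2 0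
      simpa using this
    rw [h0, zero_mul, norm_zero]
    positivity
  · have hm1 : (1 : ℝ) ≤ m := by exact_mod_cast hm
    have hm0 : (0 : ℝ) < m := by linarith
    rw [norm_mul, Complex.norm_natCast_cpow_of_pos hm, Complex.neg_re]
    have h1 : (m : ℝ) ^ (-s.re) ≤ (m : ℝ) ^ (-2 : ℝ) :=
      Real.rpow_le_rpow_of_exponent_le hm1 (by linarith)
    have h2 : √(m : ℝ) * (m : ℝ) ^ (-2 : ℝ) = (m : ℝ) ^ (-(3 / 2) : ℝ) := by
      rw [Real.sqrt_eq_rpow, ← Real.rpow_add hm0]
      norm_num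
    calc ‖c m‖ * (m : ℝ) ^ (-s.re) ≤ (C * √(m : ℝ)) * (m : ℝ) ^ (-2 : ℝ) :=
          mul_le_mul (hc.2 m) h1 (by positivity) (by positivity)
      _ = C * (√(m : ℝ) * (m : ℝ) ^ (-2 : ℝ)) := by ring
      _ = C * (m : ℝ) ^ (-(3 / 2) : ℝ) := by rw [h2]

theorem tDirB : S_DirB := by
  intro C hC
  have hsum : Summable fun m : ℕ => C * (m : ℝ) ^ (-(3 / 2) : ℝ) :=
    (Real.summable_nat_rpow.mpr (by norm_num)).mul_left C
  refine ⟨∑' m : ℕ, C * (m : ℝ) ^ (-(3 / 2) : ℝ), tsum_nonneg fun m => by positivity, ?_⟩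
  intro c hc
  constructor
  · have hU : IsOpen {s : ℂ | 2 < s.re} := isOpen_lt continuous_const Complex.continuous_re
    have h := Complex.differentiableOn_tsum_of_summable_norm (F := fun (m : ℕ) (s : ℂ) =>
      c m * (m : ℂ) ^ (-s)) (U := {s : ℂ | 2 < s.re}) hsum (fun m => ?_) hU
      (fun m s hs => DirB_term hC hc m s (le_of_lt hs))
    · exact h
    · rcases Nat.eq_zero_or_pos m with hm | hm
      · subst hm
        have h0 : c 0 = 0 := by
          have := hc.2 0
          simpa using this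
        simp only [h0, zero_mul]
        exact differentiableOn_const _
      · have hm' : (m : ℂ) ≠ 0 := by exact_mod_cast hm.ne'
        intro s _
        exact ((differentiableAt_const _).mul
          ((differentiableAt_id.neg).const_cpow (Or.inl hm'))).differentiableWithinAt
  · intro s hs
    exact tsum_of_norm_bounded hsum.hasSum fun m => DirB_term hC hc m s (by linarith)

end MP7ed9c3.Tp
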