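import Pool.Agent.Lib.MP_7ed9c3_nt.Tp.SpecM

/-! # MP_7ed9c3_nt, Tp, module DtM: detection with the product kernel -/

set_option autoImplicit false

namespace MP7ed9c3.Tp

open Finset

private theorem DtM_ks (S : ℕ) (w : ℂ) (η : ℝ) (hη : 0 ≤ η) (hw : ‖w‖ ≤ Real.exp η) :
    ‖ks S w‖ ≤ Real.exp ((S + 1) * 2 ^ S * η) := by
  unfold ks
  rw [norm_prod]
  calc ∏ s ∈ range (S + 1), ‖pm (2 ^ s) w ^ (2 ^ (S - s))‖
      ≤ ∏ _s ∈ range (S + 1), Real.exp (2 ^ S * η) := by
        refine Finset.prod_le_prod (fun s _ => norm_nonneg _) fun s hs => ?_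
        have hsS : s ≤ S := by have := Finset.mem_range.mp hs; omega
        rw [norm_pow]
        calc ‖pm (2 ^ s) w‖ ^ (2 ^ (S - s))
            ≤ Real.exp (((2 ^ s : ℕ) : ℝ) * η) ^ (2 ^ (S - s)) :=
              pow_le_pow_left₀ (norm_nonneg _) (pm_le (2 ^ s) Nat.one_le_two_pow w η hη hw) _
          _ = Real.exp (2 ^ S * η) := by
              rw [← Real.exp_nat_mul]
              congr 1
              push_cast
              rw [← mul_assoc, ← pow_add]
              congr 2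
              omega
    _ = Real.exp ((S + 1) * 2 ^ S * η) := by
        rw [Finset.prod_const, Finset.card_range, ← Real.exp_nat_mul]
        congr 1
        push_cast
        ring

private theorem DtM_e (kap df d A k nL b P S3 m E lg : ℝ) (hE0 : 0 < E)
    (hE : E < 2.7182818286) (hkap : 0 ≤ kap) (hS3 : 0 < S3) (hP : 0 < P) (hb : 0 ≤ b)
    (hm : 0 ≤ m) (hd : 0 < d) (hdf : df ≤ d) (hdeg : k + nL + b * (4 * (S3 * P)) ≤ (A + 1) * m)
    (hk1 : kap * (200 * (A + 1) * S3) ≤ 1) (hblo : m ≤ b * (32 * (S3 * P)))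
    (h200 : 200 * S3 * lg ≤ m * df) :
    k * (kap * d) + (b * (S3 * (4 * P) * (kap * d) - 4 * P * d / (4 * E)) + nL * (kap * d)) ≤
      -lg := by
  have e0 : 4 * P * d / (4 * E) = P * d / E := by
    rw [mul_assoc, mul_div_mul_left _ _ (by norm_num : (4 : ℝ) ≠ 0)]
  have e4 : k * (kap * d) + (b * (S3 * (4 * P) * (kap * d) - P * d / E) + nL * (kap * d)) =
      d * (kap * (k + nL + b * (4 * (S3 * P))) - b * P / E) := by
    ring
  rw [e0, e4]
  have e5 : kap * (k + nL + b * (4 * (S3 * P))) ≤ m / (200 * S3) := by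
    rw [le_div_iff₀ (by positivity)]
    calc kap * (k + nL + b * (4 * (S3 * P))) * (200 * S3)
        ≤ kap * ((A + 1) * m) * (200 * S3) := by
          refine mul_le_mul_of_nonneg_right ?_ (by positivity)
          exact mul_le_mul_of_nonneg_left hdeg hkap
      _ = kap * (200 * (A + 1) * S3) * m := by ring
      _ ≤ 1 * m := mul_le_mul_of_nonneg_right hk1 hm
      _ = m := one_mul _
  have e6 : m / (100 * S3) ≤ b * P / E := by
    rw [div_le_div_iff₀ (by positivity) hE0]
    have e7 : m * E ≤ b * (32 * (S3 * P)) * E := mul_le_mul_of_nonneg_right hblo hE0.le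
    have e8 : 0 ≤ b * (S3 * P) := by positivity
    have e8' : b * (S3 * P) * E ≤ b * (S3 * P) * 3 := mul_le_mul_of_nonneg_left (by linarith) e8
    calc m * E ≤ b * (32 * (S3 * P)) * E := e7
      _ = 32 * (b * (S3 * P) * E) := by ring
      _ ≤ 32 * (b * (S3 * P) * 3) := by linarith
      _ ≤ b * P * (100 * S3) := by nlinarith
  have e9 : m / (100 * S3) = 2 * (m / (200 * S3)) := by
    field_simp
    ring
  have e10 : lg ≤ df * (m / (200 * S3)) := by
    rw [mul_div_assoc', le_div_iff₀ (by positivity)]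
    linarith
  have e11 : 0 ≤ m / (200 * S3) := by positivity
  have e12 : df * (m / (200 * S3)) ≤ d * (m / (200 * S3)) := mul_le_mul_of_nonneg_right hdf e11
  have e13 : d * (kap * (k + nL + b * (4 * (S3 * P))) - b * P / E) ≤
      d * (-(m / (200 * S3))) := by
    refine mul_le_mul_of_nonneg_left ?_ hd.le
    linarith
  linarith

private theorem DtM_n (kap df A k nL b P S3 m L lg : ℝ) (hη : 0 ≤ kap * df)
    (hdeg : k + nL + b * (4 * (S3 * P)) ≤ (A + 1) * m)
    (hL1 : (A + 1) * (kap * m * df) ≤ L) (hL2 : lg ≤ L) :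
    k * (kap * df) + (b * (S3 * (4 * P) * (kap * df)) + (nL * (kap * df) - 2 * L)) ≤ -lg := by
  have e4 : k * (kap * df) + (b * (S3 * (4 * P) * (kap * df)) + (nL * (kap * df) - 2 * L)) =
      kap * df * (k + nL + b * (4 * (S3 * P))) - 2 * L := by ring
  rw [e4]
  have e5 : kap * df * (k + nL + b * (4 * (S3 * P))) ≤ kap * df * ((A + 1) * m) :=
    mul_le_mul_of_nonneg_left hdeg hη
  have e6 : kap * df * ((A + 1) * m) = (A + 1) * (kap * m * df) := by ring
  linarith

theorem tDtM : S_DtM := by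
  intro ι J w wt kap df A B k m Sf n L hB hB0 hw4 hdf h2 h4 hkap hA hk1 h64 h200 hkA hn hnL hL1
    hL2 hcone hU
  by_contra hcon
  push Not at hcon
  have he : (2.7182818283 : ℝ) < Real.exp 1 := Real.exp_one_gt_d9
  have he2 : Real.exp 1 < (2.7182818286 : ℝ) := Real.exp_one_lt_d9
  have he0 : 0 < Real.exp 1 := Real.exp_pos 1
  have hn0 : (0 : ℝ) < n := by exact_mod_cast hn
  have hS0 : (0 : ℝ) ≤ Sf := Nat.cast_nonneg _
  have hS3 : (0 : ℝ) < (Sf : ℝ) + 3 := by linarith
  obtain ⟨P, hP⟩ : ∃ P : ℝ, P = (2 : ℝ) ^ Sf := ⟨_, rfl⟩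
  have hP0 : 0 < P := by rw [hP]; positivity
  have hP4 : (2 : ℝ) ^ (Sf + 2) = 4 * P := by rw [hP, pow_add]; norm_num [mul_comm]
  rw [← hP] at h2 h4
  obtain ⟨b, hb⟩ : ∃ b : ℕ, b = bbM Sf m := ⟨_, rfl⟩
  have hm0 : (0 : ℝ) ≤ m := Nat.cast_nonneg _
  have hb0 : (0 : ℝ) ≤ b := Nat.cast_nonneg _
  -- the size of `b`
  have hX4 : 4 * ((Sf + 3) * 2 ^ (Sf + 2)) ≤ m := by
    have e1 : (((4 * ((Sf + 3) * 2 ^ (Sf + 2)) : ℕ) : ℝ)) * df ≤ m * df := by
      push_cast
      rw [hP4]
      nlinarith [mul_le_mul_of_nonneg_left h4 hS3.le]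
    have e2 := le_of_mul_le_mul_right e1 hdf
    exact_mod_cast e2
  have hXpos : 0 < 4 * ((Sf + 3) * 2 ^ (Sf + 2)) := by positivity
  have hb1 : 1 ≤ b := by
    rw [hb]
    unfold bbM
    exact (Nat.one_le_div_iff hXpos).mpr hX4
  have hbup : (b : ℝ) * (16 * ((Sf + 3) * P)) ≤ m := by
    have h1 : b * (4 * ((Sf + 3) * 2 ^ (Sf + 2))) ≤ m := by
      rw [hb]
      exact Nat.div_mul_le_self _ _
    have h1' : ((b * (4 * ((Sf + 3) * 2 ^ (Sf + 2))) : ℕ) : ℝ) ≤ m := by exact_mod_cast h1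
    push_cast at h1'
    rw [hP4] at h1'
    linarith
  have hblo : (m : ℝ) ≤ b * (32 * ((Sf + 3) * P)) := by
    have h1 : m < 4 * ((Sf + 3) * 2 ^ (Sf + 2)) * (b + 1) := by
      rw [hb]
      exact Nat.lt_mul_div_succ m hXpos
    have h1' : (m : ℝ) < ((4 * ((Sf + 3) * 2 ^ (Sf + 2)) * (b + 1) : ℕ) : ℝ) := by
      exact_mod_cast h1
    push_cast at h1'
    rw [hP4] at h1'
    have h3 : (1 : ℝ) ≤ b := by exact_mod_cast hb1
    have h5 : 0 < ((Sf : ℝ) + 3) * P := by positivity
    nlinarith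
  have hnL' : 8 * ((n : ℝ) * L) ≤ m := by exact_mod_cast hnL
  have hL0 : (0 : ℝ) ≤ L := Nat.cast_nonneg _
  -- the degree of everything
  have hdeg : (k : ℝ) + n * L + b * (4 * ((Sf + 3) * P)) ≤ (A + 1) * m := by
    linarith
  have hterm : ∀ j ∈ J, ‖w j ^ k * (ks (Sf + 2) (w j) ^ bbM Sf m * pm n (w j) ^ L)‖ ≤
      1 / (8 * B) := by
    intro j hj
    rw [← hb]
    have hd5 : ‖1 - w j‖ ≤ 5 := by
      calc ‖1 - w j‖ ≤ ‖(1 : ℂ)‖ + ‖w j‖ := norm_sub_le _ _
        _ ≤ 5 := by rw [norm_one]; linarith [hw4 j hj]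
    have hd15 := hcon j hj
    have hdpos : 0 < ‖1 - w j‖ := lt_of_lt_of_le (by positivity) hd15
    obtain ⟨d, hd⟩ : ∃ d : ℝ, d = ‖1 - w j‖ := ⟨_, rfl⟩
    rw [← hd] at hd5 hd15 hdpos
    have hlog : Real.exp (-Real.log (8 * B)) = 1 / (8 * B) := by
      rw [Real.exp_neg, Real.exp_log (by positivity), one_div]
    rw [← hlog, norm_mul, norm_mul, norm_pow, norm_pow, norm_pow]
    have hc := hcone j hj
    rw [← hd] at hc
    rcases le_or_gt df d with hcase | hcase
    · -- far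
      rw [max_eq_left hcase] at hc
      have hη : 0 ≤ kap * d := mul_nonneg hkap hdpos.le
      have hks := ks_farE (Sf + 2) (w j) (kap * d) hη hc
        (by
          rw [← hd, div_le_iff₀ (by positivity), hP4]
          nlinarith)
        (by rw [← hd]; linarith)
      rw [← hd, hP4] at hks
      have hpm := pm_le n hn (w j) (kap * d) hη hc
      have e1 : ‖w j‖ ^ k ≤ Real.exp (k * (kap * d)) := by
        rw [Real.exp_nat_mul]
        exact pow_le_pow_left₀ (norm_nonneg _) hc k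
      have e2 : ‖ks (Sf + 2) (w j)‖ ^ b ≤
          Real.exp (b * ((((Sf + 2 : ℕ) : ℝ) + 1) * (4 * P) * (kap * d) -
            4 * P * d / (4 * Real.exp 1))) := by
        rw [Real.exp_nat_mul]
        exact pow_le_pow_left₀ (norm_nonneg _) hks b
      have e3 : ‖pm n (w j)‖ ^ L ≤ Real.exp (L * (n * (kap * d))) := by
        rw [Real.exp_nat_mul]
        exact pow_le_pow_left₀ (norm_nonneg _) hpm L
      calc ‖w j‖ ^ k * (‖ks (Sf + 2) (w j)‖ ^ b * ‖pm n (w j)‖ ^ L)
          ≤ Real.exp (k * (kap * d)) * (Real.exp (b * ((((Sf + 2 : ℕ) : ℝ) + 1) * (4 * P) *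
              (kap * d) - 4 * P * d / (4 * Real.exp 1))) * Real.exp (L * (n * (kap * d)))) :=
            mul_le_mul e1 (mul_le_mul e2 e3 (by positivity) (Real.exp_pos _).le)
              (by positivity) (Real.exp_pos _).le
        _ ≤ Real.exp (-Real.log (8 * B)) := by
            rw [← Real.exp_add, ← Real.exp_add]
            apply Real.exp_le_exp.mpr
            have h := DtM_e kap df d A k (n * L) b P ((Sf : ℝ) + 3) m (Real.exp 1)
              (Real.log (8 * B)) he0 he2 hkap hS3 hP0 hb0 hm0 hdpos hcase hdeg hk1 hblo h200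
            have e9 : ((Sf + 2 : ℕ) : ℝ) + 1 = (Sf : ℝ) + 3 := by push_cast; ring
            have e10 : (L : ℝ) * (n * (kap * d)) = (n * L) * (kap * d) := by ring
            rw [e9, e10]
            exact h
    · -- near
      rw [max_eq_right hcase.le] at hc
      have hη : 0 ≤ kap * df := mul_nonneg hkap hdf.le
      have hks := DtM_ks (Sf + 2) (w j) (kap * df) hη hc
      rw [hP4] at hks
      have hpm := pm_le' n hn (w j) (kap * df) hη hc (by rw [← hd]; exact hdpos)
      rw [← hd] at hpm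
      have hnd : 15 ≤ n * d := by
        rw [div_le_iff₀ hn0] at hd15
        linarith
      have h15 : 2 / (n * d) ≤ Real.exp (-2) := by
        have e1 : Real.exp (-2) = (Real.exp 1 * Real.exp 1)⁻¹ := by
          rw [← Real.exp_add, ← Real.exp_neg]
          norm_num
        rw [e1, div_le_iff₀ (by positivity), ← div_eq_inv_mul, le_div_iff₀ (by positivity)]
        nlinarith
      have e1 : ‖w j‖ ^ k ≤ Real.exp (k * (kap * df)) := by
        rw [Real.exp_nat_mul]
        exact pow_le_pow_left₀ (norm_nonneg _) hc k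
      have e2 : ‖ks (Sf + 2) (w j)‖ ^ b ≤
          Real.exp (b * ((((Sf + 2 : ℕ) : ℝ) + 1) * (4 * P) * (kap * df))) := by
        rw [Real.exp_nat_mul]
        exact pow_le_pow_left₀ (norm_nonneg _) hks b
      have e3 : ‖pm n (w j)‖ ^ L ≤ Real.exp (L * (n * (kap * df) + -2)) := by
        rw [Real.exp_nat_mul, Real.exp_add]
        refine pow_le_pow_left₀ (norm_nonneg _) (hpm.trans ?_) L
        exact mul_le_mul_of_nonneg_left h15 (Real.exp_pos _).le
      calc ‖w j‖ ^ k * (‖ks (Sf + 2) (w j)‖ ^ b * ‖pm n (w j)‖ ^ L)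
          ≤ Real.exp (k * (kap * df)) * (Real.exp (b * ((((Sf + 2 : ℕ) : ℝ) + 1) * (4 * P) *
              (kap * df))) * Real.exp (L * (n * (kap * df) + -2))) :=
            mul_le_mul e1 (mul_le_mul e2 e3 (by positivity) (Real.exp_pos _).le)
              (by positivity) (Real.exp_pos _).le
        _ ≤ Real.exp (-Real.log (8 * B)) := by
            rw [← Real.exp_add, ← Real.exp_add]
            apply Real.exp_le_exp.mpr
            have h := DtM_n kap df A k (n * L) b P ((Sf : ℝ) + 3) m L (Real.log (8 * B)) hη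
              hdeg hL1 hL2
            have e9 : ((Sf + 2 : ℕ) : ℝ) + 1 = (Sf : ℝ) + 3 := by push_cast; ring
            have e10 : (L : ℝ) * (n * (kap * df) + -2) = (n * L) * (kap * df) - 2 * L := by ring
            rw [e9, e10]
            exact h
  have hsum : ‖∑ j ∈ J, (wt j : ℂ) * (w j ^ k * (ks (Sf + 2) (w j) ^ bbM Sf m *
      pm n (w j) ^ L))‖ ≤ 1 / 8 := by
    calc ‖∑ j ∈ J, (wt j : ℂ) * (w j ^ k * (ks (Sf + 2) (w j) ^ bbM Sf m * pm n (w j) ^ L))‖
        ≤ ∑ j ∈ J, (wt j : ℝ) * (1 / (8 * B)) := by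
          refine norm_sum_le_of_le _ fun j hj => ?_
          rw [norm_mul, Complex.norm_natCast]
          exact mul_le_mul_of_nonneg_left (hterm j hj) (Nat.cast_nonneg _)
      _ = ((∑ j ∈ J, wt j : ℕ) : ℝ) * (1 / (8 * B)) := by
          rw [← Finset.sum_mul]
          push_cast
          rfl
      _ ≤ B * (1 / (8 * B)) := mul_le_mul_of_nonneg_right hB (by positivity)
      _ = 1 / 8 := by field_simp
  linarith

end MP7ed9c3.Tp
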