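import Pool.Agent.Lib.MP_7ed9c3_nt.Tp.SpecT

/-!
# MP_7ed9c3_nt, part Tp, module RedT: reduction to the core, different zeros
-/

set_option autoImplicit false

namespace MP7ed9c3.Tp

open NumberField IsDedekindDomain Filter Topology MeasureTheory Metric
open MP7ed9c3.Aw

/-- removing few elements of a finite set of zeros -/
private theorem RedT_card (Y : Finset ℂ) (P : ℂ → Prop) [DecidablePred P] (N N₀ : ℕ)
    (hY : Y.card = N + N₀) (hP : (Y.filter P).card ≤ N₀) :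
    N ≤ (Y.filter fun a => ¬ P a).card := by
  have h1 := Finset.card_filter_add_card_filter_not (s := Y) P
  omega

/-- the trivial bound -/
private theorem RedT_triv (t₀ H : ℝ) (Q : ℝ → Prop) :
    volume {t : ℝ | |t - t₀| < H ∧ Q t} ≤ ENNReal.ofReal (2 * H) := by
  have e : {t : ℝ | |t - t₀| < H ∧ Q t} ⊆ Set.Ioo (t₀ - H) (t₀ + H) := by
    rintro t ⟨ht, _⟩
    rw [abs_lt] at ht
    exact ⟨by linarith [ht.1], by linarith [ht.2]⟩
  refine (measure_mono e).trans ?_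
  rw [Real.volume_Ioo]
  exact ENNReal.ofReal_le_ofReal (by linarith)

theorem tRedT (h3 : S_NumTq) : S_RedT := by
  classical
  intro h hh h1 K _ _ 𝓔 b hb hb1 hD σ₁ hσ
  obtain ⟨C, k, N₀, hC, hD⟩ := hD
  set σ : ℝ := max σ₁ (1 / 2) with hσdef
  have hσ1 : σ₁ ≤ σ := le_max_left _ _
  have hσ2 : 1 / 2 ≤ σ := le_max_right _ _
  have hσb : σ < b := max_lt hσ hb
  obtain ⟨x, hx1, hx2, hcore⟩ := h1 C b k hC hb1 σ hσ2 hσb
  obtain ⟨η, B, V₁, hη, hB, hDV⟩ := hD x hx1 hx2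
  obtain ⟨A, c₁, V₀, hA, hc₁, hc₁1, hcore⟩ := hcore η B hη hB
  obtain ⟨C', V₂, hV₂, hnum⟩ := h3 A c₁ (N₀ h) hA hc₁ hc₁1
  refine ⟨C', c₁, max (max V₀ V₁) V₂, hc₁, ?_⟩
  intro V H t₀ hV hH M hM F hFd hFb hFe N hN
  have v0 : V₀ ≤ V := (le_max_left _ _).trans ((le_max_left _ _).trans hV)
  have v1 : V₁ ≤ V := (le_max_right _ _).trans ((le_max_left _ _).trans hV)
  have v2 : V₂ ≤ V := (le_max_right _ _).trans hV
  have vp : 3 ≤ V := hV₂.trans v2
  have hHp : 0 < H := by linarith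
  obtain ⟨n1, n2⟩ := hnum V H N v2 hH hN
  rcases lt_or_ge H (2 * V) with hlt | hge
  · -- a short box
    refine (RedT_triv t₀ H _).trans (ENNReal.ofReal_le_ofReal ?_)
    exact mul_le_mul_of_nonneg_right (n1 hlt) hHp.le
  · have a3 : V ^ 2 ≤ (2 * V) ^ 2 := by nlinarith
    have a4 : V ≤ 2 * V := by linarith
    obtain ⟨P, c', hc', hLow, hPd, hPB, hPZ, hexp⟩ := hDV V v1 M hM
    have hwin : ∀ s ∈ win σ H t₀, σ₁ < s.re ∧ |s.im - t₀| < H := by
      intro s hs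
      exact ⟨lt_of_le_of_lt hσ1 hs.1, hs.2⟩
    have hre : ∀ s ∈ win σ H t₀, 1 / 2 ≤ s.re := by
      intro s hs
      have h0 : σ < s.re := hs.1
      linarith
    -- the function without the finitely many Euler factors
    set G : ℂ → ℂ := fun s => P s * F s with hG
    have hGd : DifferentiableOn ℂ G (win σ H t₀) :=
      hPd.differentiableOn.mul (hFd.mono fun s hs => hwin s hs)
    have hGb : ∀ s ∈ win σ H t₀, ‖G s‖ ≤ Real.exp (2 * V) := by
      intro s hs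
      have b1 := hPB s (hre s hs)
      have b2 := hFb s (hwin s hs).1 (hwin s hs).2
      calc ‖G s‖ = ‖P s‖ * ‖F s‖ := norm_mul _ _
        _ ≤ Real.exp V * Real.exp V := mul_le_mul b1 b2 (norm_nonneg _) (Real.exp_pos _).le
        _ = Real.exp (2 * V) := by rw [← Real.exp_add]; ring_nf
    have hGe : ∀ s ∈ win σ H t₀, 3 ≤ s.re → G s = Complex.exp (Aw.dir c' s) := by
      intro s hs h3
      rw [← hexp s h3, hG]
      simp only
      rw [hFe s (by linarith) (hwin s hs).2]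
    have hLU : LowU c' k x η B ((2 * V) ^ 2) := fun Y hY => hLow Y (a3.trans hY)
    have k1 := hcore (2 * V) H t₀ (v0.trans a4) hge c' hc' hLU G hGd hGb hGe (N + N₀ h) (by omega)
    refine le_trans (measure_mono ?_) (k1.trans (ENNReal.ofReal_le_ofReal
      (mul_le_mul_of_nonneg_right n2 hHp.le)))
    rintro t ⟨ht1, ht2⟩
    refine ⟨ht1, fun hY => ht2 ?_⟩
    obtain ⟨Y, hYc, hYp⟩ := hY
    have hfew : (Y.filter fun ρ => P ρ = 0).card ≤ N₀ h := by
      refine hPZ h t _ hh fun ρ hρ => ?_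
      rw [Finset.mem_filter] at hρ
      exact ⟨hre ρ (hYp ρ hρ.1).2.1, (hYp ρ hρ.1).1.2, hρ.2⟩
    obtain ⟨Y', hY'1, hY'2⟩ := Finset.exists_subset_card_eq
      (RedT_card Y (fun ρ => P ρ = 0) N (N₀ h) hYc hfew)
    refine ⟨Y', hY'2, fun ρ hρ => ?_⟩
    have hρ' := hY'1 hρ
    rw [Finset.mem_filter] at hρ'
    obtain ⟨m1, m2⟩ := hρ'
    obtain ⟨q1, q2, q3⟩ := hYp ρ m1
    refine ⟨lt_of_le_of_lt hσ1 q1.1, q1.2, q2.2, ?_⟩
    have q4 : P ρ * F ρ = 0 := q3
    exact (mul_eq_zero.mp q4).resolve_left m2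

end MP7ed9c3.Tp
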