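import Pool.Agent.Lib.MP_7ed9c3_nt.Tp.Spec

/-!
# MP_7ed9c3_nt, project TP: windows with a large part of the bad set
-/

set_option autoImplicit false

namespace MP7ed9c3.Tp

open MeasureTheory Metric MP7ed9c3.Aw

/-- The pairs `(t, s)` with `s ∈ B` in the window at `t`. -/
private def Fub_E (B : Set ℝ) : Set (ℝ × ℝ) :=
  {p : ℝ × ℝ | p.2 ∈ B ∧ p.1 - 1 / 2 ≤ p.2 ∧ p.2 ≤ p.1 + 1 / 2}

private lemma Fub_meas (B : Set ℝ) (hB : MeasurableSet B) : MeasurableSet (Fub_E B) := by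
  have h1 : MeasurableSet {p : ℝ × ℝ | p.2 ∈ B} := measurable_snd hB
  have h2 : MeasurableSet {p : ℝ × ℝ | p.1 - 1 / 2 ≤ p.2} :=
    measurableSet_le (measurable_fst.sub_const _) measurable_snd
  have h3 : MeasurableSet {p : ℝ × ℝ | p.2 ≤ p.1 + 1 / 2} :=
    measurableSet_le measurable_snd (measurable_fst.add_const _)
  exact h1.inter (h2.inter h3)

private lemma Fub_int (B : Set ℝ) (hB : MeasurableSet B) :
    ∫⁻ t : ℝ, volume (B ∩ Set.Icc (t - 1 / 2) (t + 1 / 2)) = volume B := by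
  have hE := Fub_meas B hB
  have h1 := Measure.prod_apply (μ := (volume : Measure ℝ)) (ν := (volume : Measure ℝ)) hE
  have h2 := Measure.prod_apply_symm (μ := (volume : Measure ℝ)) (ν := (volume : Measure ℝ)) hE
  have h3 : ∀ t : ℝ, (Prod.mk t ⁻¹' Fub_E B) = B ∩ Set.Icc (t - 1 / 2) (t + 1 / 2) := by
    intro t
    ext s
    simp only [Fub_E, Set.mem_preimage, Set.mem_setOf_eq, Set.mem_inter_iff, Set.mem_Icc]
  have h4 : ∀ s : ℝ, volume ((fun t : ℝ => (t, s)) ⁻¹' Fub_E B) = B.indicator (fun _ => 1) s := by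
    intro s
    by_cases hs : s ∈ B
    · have h5 : ((fun t : ℝ => (t, s)) ⁻¹' Fub_E B) = Set.Icc (s - 1 / 2) (s + 1 / 2) := by
        ext t
        simp only [Fub_E, Set.mem_preimage, Set.mem_setOf_eq, Set.mem_Icc]
        constructor
        · rintro ⟨_, h6, h7⟩
          constructor <;> linarith
        · rintro ⟨h6, h7⟩
          refine ⟨hs, ?_, ?_⟩ <;> linarith
      rw [h5, Set.indicator_of_mem hs, Real.volume_Icc]
      have h8 : s + 1 / 2 - (s - 1 / 2) = 1 := by ring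
      rw [h8, ENNReal.ofReal_one]
    · have h5 : ((fun t : ℝ => (t, s)) ⁻¹' Fub_E B) = ∅ := by
        ext t
        simp only [Fub_E, Set.mem_preimage, Set.mem_setOf_eq, Set.mem_empty_iff_false, iff_false]
        rintro ⟨h6, _⟩
        exact hs h6
      rw [h5, Set.indicator_of_notMem hs, measure_empty]
  calc ∫⁻ t : ℝ, volume (B ∩ Set.Icc (t - 1 / 2) (t + 1 / 2))
      = ∫⁻ t : ℝ, volume (Prod.mk t ⁻¹' Fub_E B) := by
        refine lintegral_congr fun t => ?_
        rw [h3 t]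
    _ = ∫⁻ s : ℝ, volume ((fun t : ℝ => (t, s)) ⁻¹' Fub_E B) := by rw [← h1, ← h2]
    _ = ∫⁻ s : ℝ, B.indicator (fun _ => 1) s := lintegral_congr h4
    _ = volume B := by
        rw [lintegral_indicator hB]
        simp

private lemma Fub_mf (B : Set ℝ) (hB : MeasurableSet B) :
    Measurable (fun t : ℝ => volume (B ∩ Set.Icc (t - 1 / 2) (t + 1 / 2))) := by
  have h1 := measurable_measure_prodMk_left (ν := (volume : Measure ℝ)) (Fub_meas B hB)
  have h2 : (fun t : ℝ => volume (B ∩ Set.Icc (t - 1 / 2) (t + 1 / 2))) =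
      fun t : ℝ => volume (Prod.mk t ⁻¹' Fub_E B) := by
    funext t
    rfl
  rw [h2]
  exact h1

theorem tFub : S_Fub := by
  intro Bd μ hμ hBd
  set B := toMeasurable volume Bd with hBdef
  have hB : MeasurableSet B := measurableSet_toMeasurable _ _
  have hv : volume B = volume Bd := measure_toMeasurable _
  have hsub : Bd ⊆ B := subset_toMeasurable _ _
  have h1 : {t₁ : ℝ | ENNReal.ofReal (1 / 2) < volume (Bd ∩ Set.Icc (t₁ - 1 / 2) (t₁ + 1 / 2))} ⊆
      {t₁ : ℝ | ENNReal.ofReal (1 / 2) ≤ volume (B ∩ Set.Icc (t₁ - 1 / 2) (t₁ + 1 / 2))} := by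
    intro t ht
    simp only [Set.mem_setOf_eq] at ht ⊢
    exact ht.le.trans (measure_mono (Set.inter_subset_inter_left _ hsub))
  have h2 := mul_meas_ge_le_lintegral (μ := (volume : Measure ℝ)) (Fub_mf B hB) (ENNReal.ofReal (1 / 2))
  rw [Fub_int B hB, hv] at h2
  have h3 := h2.trans hBd
  have h4 : ENNReal.ofReal (1 / 2) *
      volume {t₁ : ℝ | ENNReal.ofReal (1 / 2) < volume (Bd ∩ Set.Icc (t₁ - 1 / 2) (t₁ + 1 / 2))} ≤
      ENNReal.ofReal μ := (mul_le_mul_right (measure_mono h1) _).trans h3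
  have h5 : ENNReal.ofReal 2 * (ENNReal.ofReal (1 / 2) *
      volume {t₁ : ℝ | ENNReal.ofReal (1 / 2) < volume (Bd ∩ Set.Icc (t₁ - 1 / 2) (t₁ + 1 / 2))}) ≤
      ENNReal.ofReal 2 * ENNReal.ofReal μ := mul_le_mul_right h4 _
  rw [← mul_assoc, ← ENNReal.ofReal_mul (by norm_num), ← ENNReal.ofReal_mul (by norm_num)] at h5
  have h6 : (2 : ℝ) * (1 / 2) = 1 := by norm_num
  rw [h6, ENNReal.ofReal_one, one_mul] at h5
  exact h5

end MP7ed9c3.Tp
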