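import Pool.Agent.Lib.MP_7ed9c3_nt.Tp.Spec

/-!
# MP_7ed9c3_nt, project TP: windows of length `l` with a large part of the bad set
-/

set_option autoImplicit false

namespace MP7ed9c3.Tp

open MeasureTheory Metric MP7ed9c3.Aw

/-- The pairs `(t, s)` with `s ∈ B` in the window at `t`. -/
private def FubL_E (l : ℝ) (B : Set ℝ) : Set (ℝ × ℝ) :=
  {p : ℝ × ℝ | p.2 ∈ B ∧ p.1 - l / 2 ≤ p.2 ∧ p.2 ≤ p.1 + l / 2}

private lemma FubL_meas (l : ℝ) (B : Set ℝ) (hB : MeasurableSet B) :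
    MeasurableSet (FubL_E l B) := by
  have h1 : MeasurableSet {p : ℝ × ℝ | p.2 ∈ B} := measurable_snd hB
  have h2 : MeasurableSet {p : ℝ × ℝ | p.1 - l / 2 ≤ p.2} :=
    measurableSet_le (measurable_fst.sub_const _) measurable_snd
  have h3 : MeasurableSet {p : ℝ × ℝ | p.2 ≤ p.1 + l / 2} :=
    measurableSet_le measurable_snd (measurable_fst.add_const _)
  exact h1.inter (h2.inter h3)

private lemma FubL_int (l : ℝ) (B : Set ℝ) (hB : MeasurableSet B) :
    ∫⁻ t : ℝ, volume (B ∩ Set.Icc (t - l / 2) (t + l / 2)) = ENNReal.ofReal l * volume B := by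
  have hE := FubL_meas l B hB
  have h1 := Measure.prod_apply (μ := (volume : Measure ℝ)) (ν := (volume : Measure ℝ)) hE
  have h2 := Measure.prod_apply_symm (μ := (volume : Measure ℝ)) (ν := (volume : Measure ℝ)) hE
  have h3 : ∀ t : ℝ, (Prod.mk t ⁻¹' FubL_E l B) = B ∩ Set.Icc (t - l / 2) (t + l / 2) := by
    intro t
    ext s
    simp only [FubL_E, Set.mem_preimage, Set.mem_ofPred_eq, Set.mem_inter_iff, Set.mem_Icc]
  have h4 : ∀ s : ℝ, volume ((fun t : ℝ => (t, s)) ⁻¹' FubL_E l B) =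
      B.indicator (fun _ => ENNReal.ofReal l) s := by
    intro s
    by_cases hs : s ∈ B
    · have h5 : ((fun t : ℝ => (t, s)) ⁻¹' FubL_E l B) = Set.Icc (s - l / 2) (s + l / 2) := by
        ext t
        simp only [FubL_E, Set.mem_preimage, Set.mem_ofPred_eq, Set.mem_Icc]
        constructor
        · rintro ⟨_, h6, h7⟩
          constructor <;> linarith
        · rintro ⟨h6, h7⟩
          refine ⟨hs, ?_, ?_⟩ <;> linarith
      rw [h5, Set.indicator_of_mem hs, Real.volume_Icc]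
      have h8 : s + l / 2 - (s - l / 2) = l := by ring
      rw [h8]
    · have h5 : ((fun t : ℝ => (t, s)) ⁻¹' FubL_E l B) = ∅ := by
        ext t
        simp only [FubL_E, Set.mem_preimage, Set.mem_ofPred_eq, Set.mem_empty_iff_false, iff_false]
        rintro ⟨h6, _⟩
        exact hs h6
      rw [h5, Set.indicator_of_notMem hs, measure_empty]
  calc ∫⁻ t : ℝ, volume (B ∩ Set.Icc (t - l / 2) (t + l / 2))
      = ∫⁻ t : ℝ, volume (Prod.mk t ⁻¹' FubL_E l B) := by
        refine lintegral_congr fun t => ?_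
        rw [h3 t]
    _ = ∫⁻ s : ℝ, volume ((fun t : ℝ => (t, s)) ⁻¹' FubL_E l B) := by rw [← h1, ← h2]
    _ = ∫⁻ s : ℝ, B.indicator (fun _ => ENNReal.ofReal l) s := lintegral_congr h4
    _ = ENNReal.ofReal l * volume B := by
        rw [lintegral_indicator hB]
        simp

private lemma FubL_mf (l : ℝ) (B : Set ℝ) (hB : MeasurableSet B) :
    Measurable (fun t : ℝ => volume (B ∩ Set.Icc (t - l / 2) (t + l / 2))) := by
  have h1 := measurable_measure_prodMk_left (ν := (volume : Measure ℝ)) (FubL_meas l B hB)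
  have h2 : (fun t : ℝ => volume (B ∩ Set.Icc (t - l / 2) (t + l / 2))) =
      fun t : ℝ => volume (Prod.mk t ⁻¹' FubL_E l B) := by
    funext t
    rfl
  rw [h2]
  exact h1

theorem tFubL (l : ℝ) (hl : 0 < l) (Bd : Set ℝ) (μ : ℝ) (hμ : 0 ≤ μ)
    (h : volume Bd ≤ ENNReal.ofReal μ) :
    volume {t₁ : ℝ | ENNReal.ofReal (l / 2) < volume (Bd ∩ Set.Icc (t₁ - l / 2) (t₁ + l / 2))} ≤
      ENNReal.ofReal (2 * μ) := by
  set B := toMeasurable volume Bd with hBdef
  have hB : MeasurableSet B := measurableSet_toMeasurable _ _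
  have hv : volume B = volume Bd := measure_toMeasurable _
  have hsub : Bd ⊆ B := subset_toMeasurable _ _
  have h1 : {t₁ : ℝ | ENNReal.ofReal (l / 2) < volume (Bd ∩ Set.Icc (t₁ - l / 2) (t₁ + l / 2))} ⊆
      {t₁ : ℝ | ENNReal.ofReal (l / 2) ≤ volume (B ∩ Set.Icc (t₁ - l / 2) (t₁ + l / 2))} := by
    intro t ht
    simp only [Set.mem_ofPred_eq] at ht ⊢
    exact ht.le.trans (measure_mono (Set.inter_subset_inter_left _ hsub))
  have h2 := mul_meas_ge_le_lintegral (μ := (volume : Measure ℝ)) (FubL_mf l B hB)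
    (ENNReal.ofReal (l / 2))
  rw [FubL_int l B hB, hv] at h2
  have h3 : ENNReal.ofReal (l / 2) *
      volume {t₁ : ℝ | ENNReal.ofReal (l / 2) ≤ volume (B ∩ Set.Icc (t₁ - l / 2) (t₁ + l / 2))} ≤
      ENNReal.ofReal l * ENNReal.ofReal μ := h2.trans (mul_le_mul_right h _)
  have h4 : ENNReal.ofReal (l / 2) *
      volume {t₁ : ℝ | ENNReal.ofReal (l / 2) < volume (Bd ∩ Set.Icc (t₁ - l / 2) (t₁ + l / 2))} ≤
      ENNReal.ofReal l * ENNReal.ofReal μ := (mul_le_mul_right (measure_mono h1) _).trans h3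
  have h5 : ENNReal.ofReal (2 / l) * (ENNReal.ofReal (l / 2) *
      volume {t₁ : ℝ | ENNReal.ofReal (l / 2) < volume (Bd ∩ Set.Icc (t₁ - l / 2) (t₁ + l / 2))}) ≤
      ENNReal.ofReal (2 / l) * (ENNReal.ofReal l * ENNReal.ofReal μ) := mul_le_mul_right h4 _
  have h7 : 0 ≤ 2 / l := by positivity
  rw [← mul_assoc, ← mul_assoc, ← ENNReal.ofReal_mul h7, ← ENNReal.ofReal_mul h7,
    ← ENNReal.ofReal_mul (by positivity)] at h5
  have h6 : 2 / l * (l / 2) = 1 := by field_simp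
  have h8 : 2 / l * l * μ = 2 * μ := by field_simp
  rw [h6, h8, ENNReal.ofReal_one, one_mul] at h5
  exact h5

end MP7ed9c3.Tp
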