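import Pool.Agent.Lib.MP_7ed9c3_nt.Tp.RedF

/-!
# MP_7ed9c3_nt, part Tp: the functions `f` of `RedF`
-/

set_option autoImplicit false

namespace MP7ed9c3.Tp

open Filter Topology

/-- The number `log T/(log V + (loglog T)^e)`. -/
noncomputable def numF (e : ℕ) (V T : ℝ) : ℝ :=
  Real.log T / (Real.log V + Real.log (Real.log T) ^ e)

/-- basic facts -/
private theorem GoodF_basic (V H κ : ℝ) (hκ : 1 ≤ κ) (hV : 3 ≤ V) (hH : V ^ κ ≤ H) :
    1 ≤ Real.log V ∧ κ * Real.log V ≤ Real.log H ∧ V ≤ H ∧ 0 < H := by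
  have h1 : (1 : ℝ) ≤ Real.log V := by
    rw [Real.le_log_iff_exp_le (by linarith)]
    have := Real.exp_one_lt_d9
    linarith
  have h2 : V ≤ V ^ κ := by
    calc V = V ^ (1 : ℝ) := (Real.rpow_one V).symm
      _ ≤ V ^ κ := Real.rpow_le_rpow_of_exponent_le (by linarith) hκ
  have h3 : V ≤ H := h2.trans hH
  refine ⟨h1, ?_, h3, by linarith⟩
  have h4 : Real.log (V ^ κ) ≤ Real.log H := Real.log_le_log (by positivity) hH
  rwa [Real.log_rpow (by linarith)] at h4

/-- the logarithm is small against a root -/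
private theorem GoodF_log (e : ℕ) (X : ℝ) : ∃ y₀ : ℝ, 1 ≤ y₀ ∧ ∀ y : ℝ, y₀ ≤ y →
    2 * X * Real.log y ^ e ≤ y := by
  have h1 : Tendsto (fun y : ℝ => Real.log y ^ e / y) atTop (𝓝 0) := by
    have := Real.isLittleO_pow_log_id_atTop (n := e)
    exact this.tendsto_div_nhds_zero
  have h2 : ∀ᶠ y : ℝ in atTop, Real.log y ^ e / y < 1 / (2 * |X| + 1) :=
    h1.eventually_lt_const (by positivity)
  obtain ⟨y₁, hy₁⟩ := (h2.and (eventually_ge_atTop (1 : ℝ))).exists_forall_of_atTop
  refine ⟨max y₁ 1, le_max_right _ _, fun y hy => ?_⟩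
  obtain ⟨h3, h4⟩ := hy₁ y ((le_max_left _ _).trans hy)
  have hy0 : 0 < y := by linarith
  rw [div_lt_div_iff₀ hy0 (by positivity)] at h3
  have h5 : 0 ≤ Real.log y ^ e := pow_nonneg (Real.log_nonneg h4) e
  have h6 : X * Real.log y ^ e ≤ |X| * Real.log y ^ e :=
    mul_le_mul_of_nonneg_right (le_abs_self X) h5
  nlinarith

theorem goodF_num (e : ℕ) (he : 1 ≤ e) : GoodF (numF e) := by
  intro X
  obtain ⟨y₀, hy₀, hlog⟩ := GoodF_log e X
  refine ⟨max 1 (2 * |X|), max 3 (Real.exp y₀), le_max_left _ _,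
    le_trans (by norm_num) (le_max_left _ _), ?_⟩
  intro V H hV hH
  have hV3 : 3 ≤ V := (le_max_left _ _).trans hV
  have hVy : Real.exp y₀ ≤ V := (le_max_right _ _).trans hV
  obtain ⟨h1, h2, h3, h4⟩ := GoodF_basic V H _ (le_max_left _ _) hV3 hH
  have h5 : y₀ ≤ Real.log H := by
    rw [Real.le_log_iff_exp_le h4]
    exact hVy.trans h3
  have h6 : (1 : ℝ) ≤ Real.log H := hy₀.trans h5
  have h7 : 0 ≤ Real.log (Real.log H) := Real.log_nonneg h6
  have h8 : 0 ≤ Real.log (Real.log H) ^ e := pow_nonneg h7 e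
  have h9 : 0 < Real.log V + Real.log (Real.log H) ^ e := by linarith
  have hl2 : Real.log 2 ≤ 1 := by
    have := Real.log_two_lt_d9
    linarith
  have hl20 : 0 ≤ Real.log 2 := Real.log_nonneg (by norm_num)
  have hl2V : Real.log (2 * V) = Real.log 2 + Real.log V :=
    Real.log_mul (by norm_num) (by linarith)
  constructor
  · unfold numF
    rw [le_div_iff₀ h9]
    have e1 := hlog (Real.log H) h5
    have e2 : 2 * |X| * Real.log V ≤ Real.log H := by
      calc 2 * |X| * Real.log V ≤ max 1 (2 * |X|) * Real.log V :=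
            mul_le_mul_of_nonneg_right (le_max_right _ _) (by linarith)
        _ ≤ Real.log H := h2
    have e3 : X * Real.log V ≤ |X| * Real.log V :=
      mul_le_mul_of_nonneg_right (le_abs_self X) (by linarith)
    nlinarith
  · unfold numF
    rw [hl2V, ← mul_div_assoc, div_le_div_iff₀ h9 (by linarith)]
    have e4 : Real.log 2 + Real.log V + Real.log (Real.log H) ^ e ≤
        2 * (Real.log V + Real.log (Real.log H) ^ e) := by linarith
    calc Real.log H * (Real.log 2 + Real.log V + Real.log (Real.log H) ^ e)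
        ≤ Real.log H * (2 * (Real.log V + Real.log (Real.log H) ^ e)) :=
          mul_le_mul_of_nonneg_left e4 (by linarith)
      _ = 2 * Real.log H * (Real.log V + Real.log (Real.log H) ^ e) := by ring

/-- The number `min (log T)^(1/2) (log T/(log V + loglog T))`. -/
noncomputable def halfF (V T : ℝ) : ℝ := min (Real.sqrt (Real.log T)) (numF 1 V T)

theorem goodF_half : GoodF halfF := by
  intro X
  obtain ⟨κ, V₀, hκ, hV₀, hg⟩ := goodF_num 1 le_rfl X
  refine ⟨κ, max (max V₀ 3) (Real.exp (X ^ 2)), hκ,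
    hV₀.trans ((le_max_left _ _).trans (le_max_left _ _)), ?_⟩
  intro V H hV hH
  have v0 : V₀ ≤ V := (le_max_left _ _).trans ((le_max_left _ _).trans hV)
  have v3 : 3 ≤ V := (le_max_right _ _).trans ((le_max_left _ _).trans hV)
  have vx : Real.exp (X ^ 2) ≤ V := (le_max_right _ _).trans hV
  obtain ⟨h1, h2, h3, h4⟩ := GoodF_basic V H κ hκ v3 hH
  obtain ⟨g1, g2⟩ := hg V H v0 hH
  have h5 : X ^ 2 ≤ Real.log H := by
    rw [Real.le_log_iff_exp_le h4]
    exact vx.trans h3
  constructor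
  · refine le_min ?_ g1
    exact Real.le_sqrt_of_sq_le h5
  · unfold halfF
    have h6 : 0 ≤ Real.sqrt (Real.log H) := Real.sqrt_nonneg _
    rcases min_choice (Real.sqrt (Real.log H)) (numF 1 (2 * V) H) with hc | hc
    · rw [hc]
      exact (min_le_left _ _).trans (by linarith)
    · rw [hc]
      exact (min_le_right _ _).trans g2

end MP7ed9c3.Tp
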