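import Pool.Agent.Lib.MP_7ed9c3_nt.Tp.Ker

/-!
# MP_7ed9c3_nt, part Tp: the kernel as a polynomial with coefficients `≥ 0`, and the far bound with `2e`, `4e`
-/

set_option autoImplicit false

namespace MP7ed9c3.Tp

open Polynomial

/-- The far bound with the constants of note 5517. -/
theorem ks_farE (S : ℕ) (w : ℂ) (η : ℝ) (hη : 0 ≤ η) (hw : ‖w‖ ≤ Real.exp η)
    (h1 : 2 * Real.exp 1 / 2 ^ S ≤ ‖1 - w‖) (h2 : ‖1 - w‖ ≤ 2 * Real.exp 1) :
    ‖ks S w‖ ≤ Real.exp ((S + 1) * 2 ^ S * η - 2 ^ S * ‖1 - w‖ / (4 * Real.exp 1)) := by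
  classical
  have he : 0 < Real.exp 1 := Real.exp_pos 1
  have h1' : 2 * Real.exp 1 ≤ 2 ^ S * ‖1 - w‖ := by
    rw [div_le_iff₀ (by positivity)] at h1
    linarith
  have hd : 0 < ‖1 - w‖ := lt_of_lt_of_le (by positivity) h1
  have hex : ∃ s : ℕ, 2 * Real.exp 1 ≤ 2 ^ s * ‖1 - w‖ := ⟨S, h1'⟩
  obtain ⟨s, hs, hmin⟩ : ∃ s : ℕ, 2 * Real.exp 1 ≤ 2 ^ s * ‖1 - w‖ ∧
      ∀ t < s, ¬ (2 * Real.exp 1 ≤ 2 ^ t * ‖1 - w‖) :=
    ⟨Nat.find hex, Nat.find_spec hex, fun t ht => Nat.find_min hex ht⟩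
  have hsS : s ≤ S := by
    by_contra hcon
    exact hmin S (by omega) h1'
  have hup : 2 ^ s * ‖1 - w‖ ≤ 4 * Real.exp 1 := by
    rcases Nat.eq_zero_or_pos s with h0 | h0
    · subst h0
      simp only [pow_zero, one_mul]
      linarith
    · have := hmin (s - 1) (by omega)
      push Not at this
      have e : (2 : ℝ) ^ s = 2 * 2 ^ (s - 1) := by
        rw [← pow_succ']
        congr 1
        omega
      rw [e]
      nlinarith
  unfold ks
  rw [norm_prod]
  have hbound : ∀ t ∈ Finset.range (S + 1), ‖pm (2 ^ t) w ^ (2 ^ (S - t))‖ ≤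
      Real.exp (2 ^ S * η) * (if t = s then Real.exp (-(2 ^ (S - s) : ℝ)) else 1) := by
    intro t ht
    have htS : t ≤ S := by have := Finset.mem_range.mp ht; omega
    rw [norm_pow]
    have epow : Real.exp (((2 ^ t : ℕ) : ℝ) * η) ^ (2 ^ (S - t)) = Real.exp (2 ^ S * η) := by
      rw [← Real.exp_nat_mul]
      congr 1
      push_cast
      rw [← mul_assoc, ← pow_add]
      congr 2
      omega
    by_cases hts : t = s
    · subst hts
      simp only [if_true]
      have h3 := pm_le' (2 ^ t) Nat.one_le_two_pow w η hη hw hd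
      have h4 : 2 / (((2 ^ t : ℕ) : ℝ) * ‖1 - w‖) ≤ Real.exp (-1) := by
        rw [Real.exp_neg]
        push_cast
        have h5 : (2 : ℝ) / (2 ^ t * ‖1 - w‖) ≤ 2 / (2 * Real.exp 1) := by
          apply div_le_div_of_nonneg_left (by norm_num) (by positivity) hs
        have h7 : (2 : ℝ) / (2 * Real.exp 1) = (Real.exp 1)⁻¹ := by
          field_simp
        rw [h7] at h5
        exact h5
      calc ‖pm (2 ^ t) w‖ ^ (2 ^ (S - t))
          ≤ (Real.exp (((2 ^ t : ℕ) : ℝ) * η) * Real.exp (-1)) ^ (2 ^ (S - t)) := by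
            apply pow_le_pow_left₀ (norm_nonneg _)
            exact h3.trans (mul_le_mul_of_nonneg_left h4 (Real.exp_pos _).le)
        _ = Real.exp (2 ^ S * η) * Real.exp (-(2 ^ (S - t) : ℝ)) := by
            rw [mul_pow, epow]
            congr 1
            rw [← Real.exp_nat_mul]
            congr 1
            push_cast
            ring
    · simp only [hts, if_false, mul_one]
      calc ‖pm (2 ^ t) w‖ ^ (2 ^ (S - t))
          ≤ (Real.exp (((2 ^ t : ℕ) : ℝ) * η)) ^ (2 ^ (S - t)) := by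
            apply pow_le_pow_left₀ (norm_nonneg _)
            exact pm_le (2 ^ t) Nat.one_le_two_pow w η hη hw
        _ = Real.exp (2 ^ S * η) := epow
  calc ∏ t ∈ Finset.range (S + 1), ‖pm (2 ^ t) w ^ (2 ^ (S - t))‖
      ≤ ∏ t ∈ Finset.range (S + 1),
        (Real.exp (2 ^ S * η) * (if t = s then Real.exp (-(2 ^ (S - s) : ℝ)) else 1)) :=
        Finset.prod_le_prod (fun _ _ => norm_nonneg _) hbound
    _ = Real.exp (2 ^ S * η) ^ (S + 1) * Real.exp (-(2 ^ (S - s) : ℝ)) := by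
        rw [Finset.prod_mul_distrib, Finset.prod_const, Finset.card_range,
          Finset.prod_ite_eq' , if_pos (Finset.mem_range.mpr (by omega))]
    _ = Real.exp ((S + 1) * 2 ^ S * η + -(2 ^ (S - s) : ℝ)) := by
        rw [Real.exp_add, ← Real.exp_nat_mul]
        congr 2
        push_cast
        ring
    _ ≤ Real.exp ((S + 1) * 2 ^ S * η - 2 ^ S * ‖1 - w‖ / (4 * Real.exp 1)) := by
        apply Real.exp_le_exp.mpr
        have e2 : (2 : ℝ) ^ S = 2 ^ (S - s) * 2 ^ s := by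
          rw [← pow_add]
          congr 1
          omega
        have h8 : (2 : ℝ) ^ S * ‖1 - w‖ ≤ 4 * Real.exp 1 * 2 ^ (S - s) := by
          rw [e2, mul_assoc]
          have : (0 : ℝ) < 2 ^ (S - s) := by positivity
          nlinarith
        have h9 : (2 : ℝ) ^ S * ‖1 - w‖ / (4 * Real.exp 1) ≤ 2 ^ (S - s) := by
          rw [div_le_iff₀ (by positivity)]
          linarith
        linarith

/-- The mean of the powers as a polynomial. -/
noncomputable def pmP (n : ℕ) : Polynomial ℝ := C ((n : ℝ)⁻¹) * ∑ j ∈ Finset.range n, X ^ j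

/-- The kernel as a polynomial. -/
noncomputable def ksP (S : ℕ) : Polynomial ℝ :=
  ∏ s ∈ Finset.range (S + 1), pmP (2 ^ s) ^ (2 ^ (S - s))

theorem pmP_eval (n : ℕ) (w : ℂ) : eval w ((pmP n).map Complex.ofRealHom) = pm n w := by
  unfold pmP pm
  rw [Polynomial.map_mul, Polynomial.map_C, eval_mul, eval_C, Polynomial.map_sum,
    Polynomial.eval_finsetSum]
  simp only [Polynomial.map_pow, Polynomial.map_X, eval_pow, eval_X, Complex.ofRealHom_eq_coe,
    Complex.ofReal_inv, Complex.ofReal_natCast]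
  rw [div_eq_inv_mul]

theorem ksP_eval (S : ℕ) (w : ℂ) : eval w ((ksP S).map Complex.ofRealHom) = ks S w := by
  unfold ksP ks
  rw [Polynomial.map_prod, Polynomial.eval_prod]
  apply Finset.prod_congr rfl
  intro s _
  rw [Polynomial.map_pow, eval_pow, pmP_eval]

theorem ksP_eval_pow (S b : ℕ) (w : ℂ) :
    eval w ((ksP S ^ b).map Complex.ofRealHom) = ks S w ^ b := by
  rw [Polynomial.map_pow, eval_pow, ksP_eval]

theorem coeff_mul_nonneg {p q : Polynomial ℝ} (hp : ∀ k, 0 ≤ p.coeff k) (hq : ∀ k, 0 ≤ q.coeff k) :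
    ∀ k, 0 ≤ (p * q).coeff k := by
  intro k
  rw [coeff_mul]
  exact Finset.sum_nonneg (fun x _ => mul_nonneg (hp _) (hq _))

theorem coeff_pow_nonneg {p : Polynomial ℝ} (hp : ∀ k, 0 ≤ p.coeff k) (b : ℕ) :
    ∀ k, 0 ≤ (p ^ b).coeff k := by
  induction b with
  | zero =>
    intro k
    rw [pow_zero, coeff_one]
    split_ifs <;> norm_num
  | succ b ih =>
    rw [pow_succ]
    exact coeff_mul_nonneg ih hp

theorem coeff_prod_nonneg (n : ℕ) (p : ℕ → Polynomial ℝ) (hp : ∀ s k, 0 ≤ (p s).coeff k) :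
    ∀ k, 0 ≤ (∏ s ∈ Finset.range n, p s).coeff k := by
  induction n with
  | zero =>
    intro k
    rw [Finset.prod_range_zero, coeff_one]
    split_ifs <;> norm_num
  | succ n ih =>
    rw [Finset.prod_range_succ]
    exact coeff_mul_nonneg ih (hp n)

theorem pmP_nonneg (n : ℕ) : ∀ k, 0 ≤ (pmP n).coeff k := by
  intro k
  unfold pmP
  rw [coeff_C_mul, finsetSum_coeff]
  apply mul_nonneg (by positivity)
  apply Finset.sum_nonneg
  intro j _
  rw [coeff_X_pow]
  split_ifs <;> norm_num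

theorem ksP_nonneg (S b : ℕ) : ∀ k, 0 ≤ (ksP S ^ b).coeff k := by
  apply coeff_pow_nonneg
  unfold ksP
  apply coeff_prod_nonneg
  intro s
  exact coeff_pow_nonneg (pmP_nonneg _) _

theorem pmP_one (n : ℕ) (hn : 1 ≤ n) : eval 1 (pmP n) = 1 := by
  have hn' : (n : ℝ) ≠ 0 := by
    have : (0 : ℝ) < n := by exact_mod_cast hn
    exact this.ne'
  unfold pmP
  rw [eval_mul, eval_C, Polynomial.eval_finsetSum]
  simp only [eval_pow, eval_X, one_pow, Finset.sum_const, Finset.card_range, nsmul_eq_mul, mul_one]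
  exact inv_mul_cancel₀ hn'

theorem ksP_one (S b : ℕ) : eval 1 (ksP S ^ b) = 1 := by
  unfold ksP
  rw [eval_pow, Polynomial.eval_prod]
  have : ∏ s ∈ Finset.range (S + 1), eval 1 (pmP (2 ^ s) ^ (2 ^ (S - s))) = (1 : ℝ) := by
    apply Finset.prod_eq_one
    intro s _
    rw [eval_pow, pmP_one _ Nat.one_le_two_pow, one_pow]
  rw [this, one_pow]

theorem pmP_deg (n : ℕ) : (pmP n).natDegree ≤ n - 1 := by
  unfold pmP
  refine (natDegree_C_mul_le _ _).trans ?_
  apply natDegree_sum_le_of_forall_le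
  intro j hj
  have := Finset.mem_range.mp hj
  rw [natDegree_X_pow]
  omega

theorem ksP_deg (S b : ℕ) : (ksP S ^ b).natDegree ≤ b * ((S + 1) * 2 ^ S) := by
  refine natDegree_pow_le.trans (Nat.mul_le_mul le_rfl ?_)
  unfold ksP
  refine (natDegree_prod_le _ _).trans ?_
  refine (Finset.sum_le_sum (fun s _ => ?_)).trans (sum_pow_two S)
  refine natDegree_pow_le.trans (Nat.mul_le_mul le_rfl (pmP_deg _))

/-- A polynomial with coefficients `≥ 0` and value `1` at `1` has a large coefficient. -/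
theorem max_coeff (p : Polynomial ℝ) (D : ℕ) (h1 : eval 1 p = 1)
    (hD : p.natDegree ≤ D) : ∃ j : ℕ, j ≤ D ∧ 1 / ((D : ℝ) + 1) ≤ p.coeff j := by
  by_contra hcon
  push Not at hcon
  have h2 : ∑ j ∈ Finset.range (D + 1), p.coeff j = 1 := by
    rw [← h1, eval_eq_sum_range' (Nat.lt_succ_of_le hD) 1]
    simp
  have h3 : ∑ j ∈ Finset.range (D + 1), p.coeff j < ∑ j ∈ Finset.range (D + 1), 1 / ((D : ℝ) + 1) := by
    apply Finset.sum_lt_sum_of_nonempty ⟨0, by simp⟩
    intro j hj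
    exact hcon j (by have := Finset.mem_range.mp hj; omega)
  rw [h2, Finset.sum_const, Finset.card_range, nsmul_eq_mul] at h3
  have h4 : ((D + 1 : ℕ) : ℝ) * (1 / ((D : ℝ) + 1)) = 1 := by
    push_cast
    field_simp
  linarith

/-- The kernel `ks S ^ b` and its properties. -/
theorem posK_ks (S b : ℕ) : PosK (fun w => ks S w ^ b) (b * ((S + 1) * 2 ^ S)) := by
  refine ⟨fun k => (ksP S ^ b).coeff k, ksP_nonneg S b, ?_, ?_, ?_⟩
  · intro k hk
    exact coeff_eq_zero_of_natDegree_lt (lt_of_le_of_lt (ksP_deg S b) hk)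
  · have := ksP_one S b
    rw [eval_eq_sum_range' (Nat.lt_succ_of_le (ksP_deg S b)) 1] at this
    simpa using this
  · intro w
    simp only
    rw [← ksP_eval_pow, eval_eq_sum_range' (Nat.lt_succ_of_le (le_trans (natDegree_map_le) (ksP_deg S b))) w]
    apply Finset.sum_congr rfl
    intro k _
    rw [coeff_map]
    rfl

/-- The kernel as a sequence (form for the detector). -/
theorem kernel_seq (S b D : ℕ) (hD : D = b * ((S + 1) * 2 ^ S) + 1) :
    ∃ al : ℕ → ℝ, (∀ j, 0 ≤ al j) ∧ ∑ j ∈ Finset.range D, al j = 1 ∧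
      (∀ w : ℂ, ∑ j ∈ Finset.range D, (al j : ℂ) * w ^ j = ks S w ^ b) ∧
      ∃ js : ℕ, js < D ∧ 1 / (D : ℝ) ≤ al js := by
  subst hD
  refine ⟨fun k => (ksP S ^ b).coeff k, ksP_nonneg S b, ?_, ?_, ?_⟩
  · have := ksP_one S b
    rw [eval_eq_sum_range' (Nat.lt_succ_of_le (ksP_deg S b)) 1] at this
    simpa using this
  · intro w
    rw [← ksP_eval_pow, eval_eq_sum_range'
      (Nat.lt_succ_of_le (le_trans (natDegree_map_le) (ksP_deg S b))) w]
    apply Finset.sum_congr rfl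
    intro k _
    rw [coeff_map]
    rfl
  · obtain ⟨j, hj, hj'⟩ := max_coeff (ksP S ^ b) (b * ((S + 1) * 2 ^ S)) (ksP_one S b) (ksP_deg S b)
    refine ⟨j, by omega, ?_⟩
    push_cast at hj' ⊢
    exact hj'

end MP7ed9c3.Tp
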