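import Pool.Agent.Lib.MP_7ed9c3_nt.Tp.SpecL

/-!
# MP_7ed9c3_nt, part Tp: the kernel of the scale `m` for the detector `S_DetL`
-/

set_option autoImplicit false

namespace MP7ed9c3.Tp

open Polynomial

theorem DL_deg (Sf m : ℕ) : (ksP (Sf + 2) ^ bbL Sf m).natDegree < DL Sf m := by
  have h := ksP_deg (Sf + 2) (bbL Sf m)
  have e : Sf + 2 + 1 = Sf + 3 := rfl
  rw [e] at h
  unfold DL
  omega

theorem jsL_exists (Sf m : ℕ) : ∃ js : ℕ, js < DL Sf m ∧ 1 ≤ (DL Sf m : ℝ) * alL Sf m js := by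
  obtain ⟨j, hj, hj'⟩ := max_coeff (ksP (Sf + 2) ^ bbL Sf m)
    (bbL Sf m * ((Sf + 3) * 2 ^ (Sf + 2))) (ksP_one _ _) (ksP_deg (Sf + 2) (bbL Sf m))
  refine ⟨j, Nat.lt_succ_of_le hj, ?_⟩
  have hD : (DL Sf m : ℝ) = ((bbL Sf m * ((Sf + 3) * 2 ^ (Sf + 2)) : ℕ) : ℝ) + 1 := by
    unfold DL
    push_cast
    ring
  have hpos : (0 : ℝ) < ((bbL Sf m * ((Sf + 3) * 2 ^ (Sf + 2)) : ℕ) : ℝ) + 1 := by positivity
  rw [hD]
  unfold alL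
  rw [div_le_iff₀ hpos] at hj'
  linarith

/-- The index of a large coefficient. -/
noncomputable def jsL (Sf m : ℕ) : ℕ := (jsL_exists Sf m).choose

/-- The kernel of the scale `m`. -/
theorem krnL (Sf m : ℕ) : Krn (alL Sf m) (DL Sf m) (jsL Sf m) := by
  refine ⟨?_, ?_, (jsL_exists Sf m).choose_spec.1, (jsL_exists Sf m).choose_spec.2⟩
  · exact fun j => ksP_nonneg (Sf + 2) (bbL Sf m) j
  · have := ksP_one (Sf + 2) (bbL Sf m)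
    rw [eval_eq_sum_range' (DL_deg Sf m) 1] at this
    simpa [alL] using this

/-- The degree. -/
theorem two_DL_le (Sf m : ℕ) (hm : 2 ≤ m) : 2 * DL Sf m ≤ m := by
  unfold DL
  have h1 : bbL Sf m * (2 * ((Sf + 3) * 2 ^ (Sf + 2))) ≤ m - 2 := by
    unfold bbL
    exact Nat.div_mul_le_self _ _
  have h2 : 2 * (bbL Sf m * ((Sf + 3) * 2 ^ (Sf + 2)) + 1)
      = bbL Sf m * (2 * ((Sf + 3) * 2 ^ (Sf + 2))) + 2 := by ring
  omega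

/-- The kernel as a function. -/
theorem sum_alL (Sf m : ℕ) (w : ℂ) :
    ∑ j ∈ Finset.range (DL Sf m), (alL Sf m j : ℂ) * w ^ j = ks (Sf + 2) w ^ bbL Sf m := by
  rw [← ksP_eval_pow, eval_eq_sum_range' (lt_of_le_of_lt (natDegree_map_le) (DL_deg Sf m)) w]
  apply Finset.sum_congr rfl
  intro k _
  rw [coeff_map]
  rfl

/-- **KrnL**. -/
theorem tKrnL : S_KrnL := fun Sf m hm => ⟨jsL Sf m, krnL Sf m, two_DL_le Sf m hm⟩

/-- The facts together. -/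
theorem krnL3 (Sf m : ℕ) (hm : 2 ≤ m) :
    Krn (alL Sf m) (DL Sf m) (jsL Sf m) ∧ 2 * DL Sf m ≤ m ∧
      ∀ w : ℂ, ∑ j ∈ Finset.range (DL Sf m), (alL Sf m j : ℂ) * w ^ j = ks (Sf + 2) w ^ bbL Sf m :=
  ⟨krnL Sf m, two_DL_le Sf m hm, sum_alL Sf m⟩

/-- The exponent is large enough: `2^(Sf+2) bb ≥ (m - 2)/(2 (Sf+3)) - 2^(Sf+2)`. -/
theorem bbL_lower (Sf m : ℕ) (hm : 2 ≤ m) (hbig : 4 * ((Sf + 3) * 2 ^ (Sf + 2)) + 2 ≤ m) :
    ((m : ℝ) - 2) / (4 * (Sf + 3)) ≤ (bbL Sf m : ℝ) * 2 ^ (Sf + 2) := by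
  set X : ℕ := (Sf + 3) * 2 ^ (Sf + 2) with hX
  have hXpos : 0 < X := by positivity
  have h1 : m - 2 < 2 * X * (bbL Sf m + 1) := by
    unfold bbL
    exact Nat.lt_mul_div_succ (m - 2) (by omega)
  have h2 : ((m : ℝ) - 2) < 2 * X * ((bbL Sf m : ℝ) + 1) := by
    have h3 : ((m - 2 : ℕ) : ℝ) < 2 * X * ((bbL Sf m : ℝ) + 1) := by exact_mod_cast h1
    rw [Nat.cast_sub hm] at h3
    exact_mod_cast h3
  have h4 : 4 * (X : ℝ) + 2 ≤ m := by exact_mod_cast hbig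
  have h5 : ((m : ℝ) - 2) / 2 ≤ 2 * X * (bbL Sf m : ℝ) := by linarith
  have h6 : (X : ℝ) = (Sf + 3) * 2 ^ (Sf + 2) := by rw [hX]; push_cast; ring
  rw [div_le_iff₀ (by positivity)]
  rw [h6] at h5
  linarith

end MP7ed9c3.Tp
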