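import Pool.Agent.Lib.MP_7ed9c3_nt.Tp.SpecM

/-! # MP_7ed9c3_nt, Tp, module KrnM: the product kernel -/

set_option autoImplicit false

namespace MP7ed9c3.Tp

open Polynomial

theorem tKrnM : S_KrnM := by
  intro Sf n L m hn hm hnL
  have hb : bbM Sf m * (4 * ((Sf + 3) * 2 ^ (Sf + 2))) ≤ m := Nat.div_mul_le_self _ _
  have hb' : 4 * (bbM Sf m * ((Sf + 3) * 2 ^ (Sf + 2))) ≤ m := by
    calc 4 * (bbM Sf m * ((Sf + 3) * 2 ^ (Sf + 2)))
        = bbM Sf m * (4 * ((Sf + 3) * 2 ^ (Sf + 2))) := by ring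
      _ ≤ m := hb
  have hD2 : 2 * DM Sf n L m ≤ m := by
    unfold DM
    omega
  have hnonneg : ∀ k, 0 ≤ (plM Sf n L m).coeff k := by
    unfold plM
    exact coeff_mul_nonneg (ksP_nonneg _ _) (coeff_pow_nonneg (pmP_nonneg n) L)
  have hone : eval 1 (plM Sf n L m) = 1 := by
    unfold plM
    rw [eval_mul, ksP_one, eval_pow, pmP_one n hn, one_pow, mul_one]
  have hdeg : (plM Sf n L m).natDegree ≤
      bbM Sf m * ((Sf + 3) * 2 ^ (Sf + 2)) + n * L := by
    unfold plM
    refine natDegree_mul_le.trans (Nat.add_le_add ?_ ?_)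
    · exact ksP_deg (Sf + 2) (bbM Sf m)
    · refine natDegree_pow_le.trans ?_
      calc L * (pmP n).natDegree ≤ L * (n - 1) := Nat.mul_le_mul le_rfl (pmP_deg n)
        _ ≤ L * n := Nat.mul_le_mul le_rfl (Nat.sub_le _ _)
        _ = n * L := mul_comm _ _
  have hlt : (plM Sf n L m).natDegree < DM Sf n L m := by
    unfold DM
    exact Nat.lt_succ_of_le hdeg
  refine ⟨?_, hD2, ?_⟩
  · obtain ⟨js, hjs, hjs'⟩ := max_coeff (plM Sf n L m) _ hone hdeg
    refine ⟨js, ⟨hnonneg, ?_, ?_, ?_⟩⟩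
    · have h := hone
      rw [eval_eq_sum_range' hlt 1] at h
      simpa [alM] using h
    · unfold DM
      exact Nat.lt_succ_of_le hjs
    · have h0 : (0 : ℝ) < ((DM Sf n L m : ℕ) : ℝ) := by
        have : 0 < DM Sf n L m := by
          unfold DM
          omega
        exact_mod_cast this
      have h1 : 1 / ((DM Sf n L m : ℕ) : ℝ) ≤ alM Sf n L m js := by
        have e : ((DM Sf n L m : ℕ) : ℝ) =
            ((bbM Sf m * ((Sf + 3) * 2 ^ (Sf + 2)) + n * L : ℕ) : ℝ) + 1 := by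
          unfold DM
          push_cast
          ring
        rw [e]
        exact hjs'
      rw [div_le_iff₀ h0] at h1
      linarith
  · intro w
    have h2 : eval w ((plM Sf n L m).map Complex.ofRealHom) =
        ks (Sf + 2) w ^ bbM Sf m * pm n w ^ L := by
      unfold plM
      rw [Polynomial.map_mul, eval_mul, ksP_eval_pow, Polynomial.map_pow, eval_pow, pmP_eval]
    rw [← h2, eval_eq_sum_range' (lt_of_le_of_lt natDegree_map_le hlt) w]
    refine Finset.sum_congr rfl fun k _ => ?_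
    rw [coeff_map]
    rfl

end MP7ed9c3.Tp
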