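import Pool.Agent.Lib.MP_7ed9c3_nt.Tp.SpecL
import Pool.Agent.Lib.MP_7ed9c3_nt.Tp.SpecG
import Pool.Agent.Lib.MP_7ed9c3_nt.Tp.LT
import Pool.Agent.Lib.MP_7ed9c3_nt.Tp.Det
import Pool.Agent.Lib.MP_7ed9c3_nt.Tp.Rq

/-!
# MP_7ed9c3_nt, project TP: module LocT

One `t`: if the combination of the numbers `e_k(t)` with the kernel with many scales is not small, all `e_k(t)` with
`m ≤ k ≤ 16 m` are of the normal size and there are few zeros near height `t` at every scale, then some zero has height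
within `D df` of `t`.  From `S_AbsW`, `S_LT` and `Det.far`.
-/

set_option autoImplicit false

namespace MP7ed9c3.Tp

open MeasureTheory Metric MP7ed9c3.Aw

/-- The numbers. -/
private theorem LocT_num (D ρ : ℝ) (A' : ℕ) (hD : 1 ≤ D) (hρ0 : 0 < ρ) (hρ1 : ρ < 1) (hA' : 1 ≤ A') :
    ∃ D' : ℝ, 6 * D ≤ D' ∧ 192 * ((A' : ℝ) + 1) ≤ D' ∧ ∀ (V df κ : ℝ) (m Sf kk js n : ℕ),
      1 ≤ V → 2 ≤ m → 0 < df → df ≤ 1 → 0 < κ → κ * (D' * (Sf + 3)) ≤ 1 →
      D' * Real.log (V + m) ≤ κ * m * df →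
      2 * n ≤ m → js < n → m ≤ kk → kk ≤ A' * m →
      2 * Real.log (16 * m * ((V + m) + D * (V + 1)) + D * (V + 1)) ≤ κ * m * df ∧
      256 * ((Sf : ℝ) + 3) ≤ m * df ∧
      192 * ((Sf : ℝ) + 3) * Real.log (8 * (D * (V + 1))) ≤ m * df ∧
      D * (kk + n) * (V + 1) * ρ ^ (kk - js) ≤ 1 / 16 ∧ 1 ≤ kk - js ∧ js ≤ kk := by
  obtain ⟨γ, hγ⟩ : ∃ γ : ℝ, γ = -Real.log ρ := ⟨_, rfl⟩
  have hγ0 : 0 < γ := by rw [hγ]; have := Real.log_neg hρ0 hρ1; linarith
  obtain ⟨K1, hK1⟩ : ∃ K1 : ℝ, K1 = Real.log (17 * (1 + D)) := ⟨_, rfl⟩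
  have hK10 : 0 ≤ K1 := by rw [hK1]; apply Real.log_nonneg; linarith
  obtain ⟨K2, hK2⟩ : ∃ K2 : ℝ, K2 = Real.log (8 * D) := ⟨_, rfl⟩
  have hK20 : 0 ≤ K2 := by rw [hK2]; apply Real.log_nonneg; linarith
  have hA1 : (1 : ℝ) ≤ A' := by exact_mod_cast hA'
  obtain ⟨K3, hK3⟩ : ∃ K3 : ℝ, K3 = Real.log (16 * D * (A' + 1)) := ⟨_, rfl⟩
  have hK30 : 0 ≤ K3 := by rw [hK3]; apply Real.log_nonneg; nlinarith
  have hP0 : 0 ≤ 2 / γ * (2 + K3) := by positivity
  refine ⟨6 * D + 192 * ((A' : ℝ) + 1) + (4 + 2 * K1) + 192 * (1 + K2) + 2 / γ * (2 + K3), by linarith,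
    by linarith, ?_⟩
  obtain ⟨D', hD'⟩ : ∃ D' : ℝ, D' = 6 * D + 192 * ((A' : ℝ) + 1) + (4 + 2 * K1) + 192 * (1 + K2) +
    2 / γ * (2 + K3) := ⟨_, rfl⟩
  rw [← hD']
  have hD'0 : 384 ≤ D' := by rw [hD']; linarith
  intro V df κ m Sf kk js n hV hm hdf hdf1 hκ hκA hDκ hn hjs hk1 hk2
  have hmR : (2 : ℝ) ≤ m := by exact_mod_cast hm
  obtain ⟨Y, hY⟩ : ∃ Y : ℝ, Y = V + m := ⟨_, rfl⟩
  obtain ⟨X, hX⟩ : ∃ X : ℝ, X = Real.log Y := ⟨_, rfl⟩
  rw [← hY] at hDκ ⊢
  rw [← hX] at hDκ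
  have hY3 : 3 ≤ Y := by linarith
  have hY0 : 0 < Y := by linarith
  have hX1 : 1 ≤ X := by
    rw [hX, Real.le_log_iff_exp_le hY0]
    have := Real.exp_one_lt_d9
    linarith
  have hV1 : V + 1 ≤ Y := by linarith
  have hmY : (m : ℝ) ≤ Y := by linarith
  have hm0 : (0 : ℝ) ≤ m := by linarith
  have hS0 : (0 : ℝ) ≤ Sf := Nat.cast_nonneg _
  have hmdf : 0 ≤ (m : ℝ) * df := by positivity
  have hκ1 : κ ≤ 1 := by
    have h1 : κ * 1 ≤ κ * (D' * (Sf + 3)) := by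
      apply mul_le_mul_of_nonneg_left _ hκ.le
      nlinarith
    linarith
  have hκm : κ * m * df ≤ m := by
    calc κ * m * df ≤ 1 * m * 1 := by
          apply mul_le_mul _ hdf1 hdf.le (by linarith)
          exact mul_le_mul_of_nonneg_right hκ1 hm0
      _ = m := by ring
  -- the pieces of the big constant
  have c0 : ∀ z : ℝ, z ≤ D' → z * X ≤ κ * m * df := by
    intro z hz
    refine le_trans ?_ hDκ
    exact mul_le_mul_of_nonneg_right hz (by linarith)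
  have c1 := c0 (4 + 2 * K1) (by rw [hD']; linarith)
  have c2 := c0 (192 * (1 + K2)) (by rw [hD']; linarith)
  have c3 := c0 (2 / γ * (2 + K3)) (by rw [hD']; linarith)
  -- D' (Sf+3) D' X ≤ m df
  have hbig : ∀ Z : ℝ, 0 ≤ Z → Z ≤ D' * X → D' * ((Sf : ℝ) + 3) * Z ≤ m * df := by
    intro Z hZ0 hZ
    calc D' * ((Sf : ℝ) + 3) * Z ≤ D' * ((Sf : ℝ) + 3) * (κ * m * df) := by
          apply mul_le_mul_of_nonneg_left (hZ.trans hDκ)
          positivity
      _ = (κ * (D' * (Sf + 3))) * (m * df) := by ring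
      _ ≤ 1 * (m * df) := mul_le_mul_of_nonneg_right hκA hmdf
      _ = m * df := one_mul _
  have hkjs : m ≤ 2 * (kk - js) := by omega
  refine ⟨?_, ?_, ?_, ?_, by omega, by omega⟩
  · -- (n1)
    have e1 : 16 * m * (Y + D * (V + 1)) + D * (V + 1) ≤ 17 * (1 + D) * (Y * Y) := by
      have f1 : Y + D * (V + 1) ≤ (1 + D) * Y := by nlinarith
      have f2 : 16 * (m : ℝ) * (Y + D * (V + 1)) ≤ 16 * Y * ((1 + D) * Y) := by
        apply mul_le_mul (by linarith) f1 (by positivity) (by linarith)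
      have f3 : D * (V + 1) ≤ (1 + D) * (Y * Y) := by
        calc D * (V + 1) ≤ D * Y := by
              apply mul_le_mul_of_nonneg_left hV1 (by linarith)
          _ ≤ (1 + D) * Y := by nlinarith
          _ ≤ (1 + D) * (Y * Y) := by
              apply mul_le_mul_of_nonneg_left _ (by linarith)
              nlinarith
      calc 16 * m * (Y + D * (V + 1)) + D * (V + 1)
          ≤ 16 * Y * ((1 + D) * Y) + (1 + D) * (Y * Y) := add_le_add f2 f3
        _ = 17 * (1 + D) * (Y * Y) := by ring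
    have e2 : Real.log (16 * m * (Y + D * (V + 1)) + D * (V + 1)) ≤ K1 + 2 * X := by
      have g0 : 0 < 16 * m * (Y + D * (V + 1)) + D * (V + 1) := by positivity
      calc Real.log (16 * m * (Y + D * (V + 1)) + D * (V + 1))
          ≤ Real.log (17 * (1 + D) * (Y * Y)) := Real.log_le_log g0 e1
        _ = K1 + 2 * X := by
            rw [Real.log_mul (by positivity) (by positivity), Real.log_mul hY0.ne' hY0.ne', hK1, hX]
            ring
    nlinarith
  · -- 256 (Sf + 3) ≤ m df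
    have h1 := hbig 1 (by norm_num) (by nlinarith)
    have h2 : 256 * ((Sf : ℝ) + 3) ≤ D' * ((Sf : ℝ) + 3) * 1 := by nlinarith
    linarith
  · -- (n3)
    have e2 : Real.log (8 * (D * (V + 1))) ≤ K2 + X := by
      calc Real.log (8 * (D * (V + 1))) ≤ Real.log (8 * D * Y) := by
            apply Real.log_le_log (by positivity)
            nlinarith
        _ = K2 + X := by
            rw [Real.log_mul (by positivity) (by positivity), hK2, hX]
    have e0 : 0 ≤ Real.log (8 * (D * (V + 1))) := by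
      apply Real.log_nonneg
      nlinarith
    have e3 : K2 + X ≤ D' * X := by
      have : (1 + K2) * X ≤ D' * X := by
        apply mul_le_mul_of_nonneg_right _ (by linarith)
        rw [hD']; linarith
      nlinarith
    have h1 := hbig _ e0 (e2.trans e3)
    refine le_trans ?_ h1
    apply mul_le_mul_of_nonneg_right _ e0
    nlinarith
  · -- (n4)
    have hk3 : (kk : ℝ) + n ≤ (A' + 1) * Y := by
      have f1 : (kk : ℝ) ≤ A' * m := by exact_mod_cast hk2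
      have f2 : n ≤ m := by omega
      have f3 : (n : ℝ) ≤ m := by exact_mod_cast f2
      calc (kk : ℝ) + n ≤ (A' + 1) * m := by linarith
        _ ≤ (A' + 1) * Y := by
            apply mul_le_mul_of_nonneg_left hmY
            positivity
    have e1 : D * (kk + n) * (V + 1) ≤ D * (A' + 1) * (Y * Y) := by
      calc D * (kk + n) * (V + 1) ≤ D * ((A' + 1) * Y) * Y := by
            apply mul_le_mul _ hV1 (by linarith) (by positivity)
            apply mul_le_mul_of_nonneg_left hk3 (by linarith)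
        _ = D * (A' + 1) * (Y * Y) := by ring
    have e2 : ρ ^ (kk - js) ≤ Real.exp (-(γ * (m / 2))) := by
      have f1 : ρ ^ (kk - js) = Real.exp (-(γ * ((kk - js : ℕ) : ℝ))) := by
        rw [hγ, neg_mul, neg_neg, mul_comm, Real.exp_nat_mul, Real.exp_log hρ0]
      rw [f1]
      apply Real.exp_le_exp.mpr
      have f2 : (m : ℝ) ≤ 2 * ((kk - js : ℕ) : ℝ) := by exact_mod_cast hkjs
      have : γ * (m / 2) ≤ γ * ((kk - js : ℕ) : ℝ) := by
        apply mul_le_mul_of_nonneg_left _ hγ0.le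
        linarith
      linarith
    have e3 : K3 + 2 * X ≤ γ * (m / 2) := by
      have f1 : γ / 2 * (2 / γ * (2 + K3) * X) ≤ γ / 2 * m :=
        mul_le_mul_of_nonneg_left (c3.trans hκm) (by positivity)
      have f2 : γ / 2 * (2 / γ * (2 + K3) * X) = (2 + K3) * X := by
        field_simp
      rw [f2] at f1
      nlinarith
    have e4 : Real.exp (-(γ * (m / 2))) ≤ 1 / (16 * D * (A' + 1)) * (1 / (Y * Y)) := by
      have f1 : Real.exp (-(γ * (m / 2))) ≤ Real.exp (-(K3 + (Real.log Y + Real.log Y))) := by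
        apply Real.exp_le_exp.mpr
        rw [← hX]
        linarith
      refine f1.trans (le_of_eq ?_)
      rw [Real.exp_neg, Real.exp_add, Real.exp_add, Real.exp_log hY0, hK3,
        Real.exp_log (by positivity)]
      field_simp
    calc D * (kk + n) * (V + 1) * ρ ^ (kk - js)
        ≤ (D * (A' + 1) * (Y * Y)) * (1 / (16 * D * (A' + 1)) * (1 / (Y * Y))) := by
          apply mul_le_mul e1 (e2.trans e4) (by positivity) (by positivity)
      _ = 1 / 16 := by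
          have hD0 : D ≠ 0 := by linarith
          have hA0 : (A' : ℝ) + 1 ≠ 0 := by positivity
          field_simp

/-- The nodes are at most `4`. -/
private theorem LocT_four (h1 : Aw.S_Phi) (h σ₁ b r₀ R R' R₂ R₁ : ℝ) (hh : 0 < h)
    (rd : Radii h σ₁ b r₀ R R' R₂ R₁) (G : ℂ → ℂ) (c : ℕ → ℂ) (t q : ℝ) (a : ℂ)
    (hGe : ∀ s ∈ win σ₁ h t, 3 ≤ s.re → G s = Complex.exp (Aw.dir c s))
    (hwin : phi h a + t * Complex.I ∈ win σ₁ h t) (hG0 : G (phi h a + t * Complex.I) = 0)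
    (ha0 : a ≠ 0) (ha1 : ‖a‖ < 1) (hnd : ‖nd q a‖ ≤ R' / ‖a‖) : ‖nd q a‖ ≤ 4 := by
  obtain ⟨-, -, P3, P4, -⟩ := h1 h hh
  have a1 := rd.r₀pos
  have a2 := rd.lt1
  have a3 := rd.lt2
  have a4 := rd.lt3
  have a5 := rd.lt4
  have a6 := rd.lt5
  have hR'0 : 0 < R' := by linarith
  have hna : 0 < ‖a‖ := norm_pos_iff.mpr ha0
  have hre : (phi h a).re < 3 := by
    by_contra hcon
    push Not at hcon
    have hre' : 3 ≤ (phi h a + t * Complex.I).re := by
      have : (phi h a + t * Complex.I).re = (phi h a).re := by simp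
      rw [this]; exact hcon
    have := hGe _ hwin hre'
    rw [hG0] at this
    exact Complex.exp_ne_zero _ this.symm
  have hy : ell h ‖a‖ < 3 := lt_of_le_of_lt (P3 ‖a‖ a hna.le ha1 le_rfl) hre
  have hx : 1 / 2 < ell h R' := by
    have e1 := P3 R₂ (-(R' : ℂ)) (by linarith) (by linarith) (by
      rw [norm_neg, Complex.norm_real, Real.norm_eq_abs, abs_of_pos hR'0]
      exact a4.le)
    rw [P4 R' hR'0.le (by linarith)] at e1
    rw [Complex.ofReal_re] at e1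
    exact lt_of_lt_of_le rd.e3 e1
  have h4 := tRq h R' ‖a‖ hh hR'0 (by linarith) hna ha1 hx hy
  refine hnd.trans ?_
  rw [div_le_iff₀ hna]
  exact h4

/-- Detection, with the threshold `1/8`. -/
private theorem LocT_det {ι : Type} {J : Finset ι} {w : ι → ℂ} {wt : ι → ℕ} {Q : ℂ → ℂ}
    {kap df D c B : ℝ} {k b : ℕ}
    (hB : ((∑ j ∈ J, wt j : ℕ) : ℝ) ≤ B) (hB0 : 0 < B)
    (hQ : ∀ (z : ℂ) (eta : ℝ), 0 ≤ eta → ‖z‖ ≤ Real.exp eta → df ≤ ‖1 - z‖ → ‖1 - z‖ ≤ 5 →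
      ‖Q z‖ ≤ Real.exp (D * eta - c * ‖1 - z‖))
    (h5 : ∀ j ∈ J, ‖1 - w j‖ ≤ 5)
    (hc : 0 ≤ c) (hkap0 : 0 ≤ kap)
    (hkap : kap * (k + b * D) ≤ b * c / 2)
    (hdf : Real.log (8 * B) ≤ b * c / 2 * df)
    (hw : ∀ j ∈ J, ‖w j‖ ≤ Real.exp (kap * max ‖1 - w j‖ df))
    (hU : 1 / 8 < ‖∑ j ∈ J, (wt j : ℂ) * (w j ^ k * Q (w j) ^ b)‖) :
    ∃ j ∈ J, ‖1 - w j‖ < df := by
  by_contra hcon
  push Not at hcon
  have hterm : ∀ j ∈ J, ‖(wt j : ℂ) * (w j ^ k * Q (w j) ^ b)‖ ≤ wt j * (1 / (8 * B)) := by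
    intro j hjJ
    have hj := Det.far (Q := Q) (w := w j) (kap := kap) (df := df) (D := D) (c := c)
      (L := Real.log (8 * B)) (k := k) (b := b)
      (fun eta h0 h1 h2 => hQ (w j) eta h0 h1 h2 (h5 j hjJ)) hc hkap0 hkap hdf (hw j hjJ)
      (hcon j hjJ)
    rw [Real.exp_neg, Real.exp_log (by positivity)] at hj
    rw [norm_mul, Complex.norm_natCast, one_div]
    exact mul_le_mul_of_nonneg_left hj (Nat.cast_nonneg _)
  have hsum : ‖∑ j ∈ J, (wt j : ℂ) * (w j ^ k * Q (w j) ^ b)‖ ≤ 1 / 8 := by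
    calc ‖∑ j ∈ J, (wt j : ℂ) * (w j ^ k * Q (w j) ^ b)‖
        ≤ ∑ j ∈ J, ‖(wt j : ℂ) * (w j ^ k * Q (w j) ^ b)‖ := norm_sum_le _ _
      _ ≤ ∑ j ∈ J, (wt j : ℝ) * (1 / (8 * B)) := Finset.sum_le_sum hterm
      _ = ((∑ j ∈ J, wt j : ℕ) : ℝ) * (1 / (8 * B)) := by rw [← Finset.sum_mul]; push_cast; rfl
      _ ≤ B * (1 / (8 * B)) := by
          apply mul_le_mul_of_nonneg_right hB
          positivity
      _ = 1 / 8 := by field_simp
  linarith

/-- The size of the power of the kernel. -/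
private theorem LocT_b (m Sf : ℕ) (df : ℝ) (hdf0 : 0 < df) (h2 : (2 : ℝ) ^ Sf * df ≤ 4)
    (hm : 256 * ((Sf : ℝ) + 3) ≤ m * df) :
    (m : ℝ) / (192 * (Sf + 3)) ≤ (bbL Sf m : ℝ) * ((2 : ℝ) ^ Sf / 3) / 2 ∧
      (bbL Sf m : ℝ) * ((Sf + 3) * (4 * (2 : ℝ) ^ Sf)) ≤ m := by
  obtain ⟨b, hb⟩ : ∃ b : ℕ, b = bbL Sf m := ⟨_, rfl⟩
  obtain ⟨P, hP⟩ : ∃ P : ℝ, P = (2 : ℝ) ^ Sf := ⟨_, rfl⟩
  have hP0 : 0 < P := by rw [hP]; positivity
  have hP4 : (2 : ℝ) ^ (Sf + 2) = 4 * P := by rw [hP, pow_add]; norm_num [mul_comm]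
  have hS0 : (0 : ℝ) ≤ Sf := Nat.cast_nonneg _
  rw [← hb]
  rw [← hP] at h2 ⊢
  have hbig : 64 * ((Sf + 3) * P) ≤ (m : ℝ) := by
    have e1 : (64 * (((Sf : ℝ) + 3) * P)) * df ≤ m * df := by
      calc (64 * (((Sf : ℝ) + 3) * P)) * df = 64 * (Sf + 3) * (P * df) := by ring
        _ ≤ 64 * (Sf + 3) * 4 := by
            apply mul_le_mul_of_nonneg_left h2
            positivity
        _ = 256 * (Sf + 3) := by ring
        _ ≤ m * df := hm
    exact le_of_mul_le_mul_right e1 hdf0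
  have hP1 : 1 ≤ P := by
    rw [hP]
    exact one_le_pow₀ (by norm_num)
  have hm4 : (64 : ℝ) ≤ m := by nlinarith
  have hm2 : 2 ≤ m := by
    have : (2 : ℝ) ≤ m := by linarith
    exact_mod_cast this
  have hcast : ((m - 2 : ℕ) : ℝ) = m - 2 := by
    rw [Nat.cast_sub hm2]
    norm_num
  have hden : ((2 * ((Sf + 3) * 2 ^ (Sf + 2)) : ℕ) : ℝ) = 8 * ((Sf + 3) * P) := by
    push_cast
    rw [hP4]
    ring
  have hlow : (m : ℝ) - 2 < (b + 1) * (8 * ((Sf + 3) * P)) := by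
    rw [← hden, ← hcast]
    have hpos : 0 < 2 * ((Sf + 3) * 2 ^ (Sf + 2)) := by positivity
    have := Nat.lt_div_mul_add (a := m - 2) hpos
    have hb' : b = (m - 2) / (2 * ((Sf + 3) * 2 ^ (Sf + 2))) := hb
    rw [← hb'] at this
    have h' : m - 2 < (b + 1) * (2 * ((Sf + 3) * 2 ^ (Sf + 2))) := by
      calc m - 2 < b * (2 * ((Sf + 3) * 2 ^ (Sf + 2))) + 2 * ((Sf + 3) * 2 ^ (Sf + 2)) := this
        _ = (b + 1) * (2 * ((Sf + 3) * 2 ^ (Sf + 2))) := by ring
    exact_mod_cast h'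
  have hup : (b : ℝ) * (8 * ((Sf + 3) * P)) ≤ m := by
    rw [← hden]
    have := Nat.div_mul_le_self (m - 2) (2 * ((Sf + 3) * 2 ^ (Sf + 2)))
    have hb' : b = (m - 2) / (2 * ((Sf + 3) * 2 ^ (Sf + 2))) := hb
    rw [← hb'] at this
    have h' : b * (2 * ((Sf + 3) * 2 ^ (Sf + 2))) ≤ m := this.trans (Nat.sub_le _ _)
    exact_mod_cast h'
  have hb0 : (0 : ℝ) ≤ b := Nat.cast_nonneg _
  obtain ⟨Z, hZ⟩ : ∃ Z : ℝ, Z = (Sf + 3) * P := ⟨_, rfl⟩
  have hZ0 : 0 < Z := by rw [hZ]; positivity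
  rw [← hZ] at hbig hlow hup
  have hbZ : (m : ℝ) ≤ b * (32 * Z) := by nlinarith
  constructor
  · rw [div_le_iff₀ (by positivity)]
    calc (m : ℝ) ≤ b * (32 * Z) := hbZ
      _ = b * (P / 3) / 2 * (192 * (Sf + 3)) := by rw [hZ]; ring
  · calc (b : ℝ) * ((Sf + 3) * (4 * P)) = b * (4 * Z) := by rw [hZ]; ring
      _ ≤ b * (8 * Z) := by
          apply mul_le_mul_of_nonneg_left _ hb0
          linarith
      _ ≤ m := hup

theorem tLocT (h1 : Aw.S_Phi) (h2 : S_AbsW) : S_LocT := by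
  classical
  intro h σ₁ b r₀ R R' R₂ R₁ C A' hh hC rd hA'
  obtain ⟨D₁, hD₁, hAbs⟩ := h2 h σ₁ b r₀ R R' R₂ R₁ C hh hC rd
  have a1 := rd.r₀pos
  have a2 := rd.lt1
  have a3 := rd.lt2
  have a4 := rd.lt3
  have a5 := rd.lt4
  have a6 := rd.lt5
  have hR'0 : 0 < R' := by linarith
  have hR20 : 0 < R₂ := by linarith
  have hρ0 : 0 < R' / R₂ := div_pos hR'0 hR20
  have hρ1 : R' / R₂ < 1 := by rw [div_lt_one hR20]; exact a4
  obtain ⟨D, hD6, hD192, hnum⟩ := LocT_num D₁ (R' / R₂) A' hD₁ hρ0 hρ1 (by omega)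
  refine ⟨D, by linarith, ?_⟩
  intro c G t V q df kap nu m kk js Sf hc hV hGd hGb hGe hq htyp hm hk1 hk2 hjs hDL hdf hdf1
    hS1 hS2 hkap hnu hkapD hDκ hcnt hU
  obtain ⟨n1, n2, n3, n4, n5, n6⟩ := hnum V df kap m Sf kk js (DL Sf m) hV hm hdf hdf1 hkap hkapD
    hDκ hDL hjs hk1 hk2
  obtain ⟨S, β, hS, hinj, hβ, hpow, hker⟩ := hAbs c G t V q hc (by linarith) hGd hGb hGe hq
  have hq0 : 0 < q := lt_of_lt_of_le (by positivity) hq
  have hm0 : (0 : ℝ) ≤ m := Nat.cast_nonneg _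
  have hS0 : (0 : ℝ) ≤ Sf := Nat.cast_nonneg _
  have hw4 : ∀ a ∈ S, ‖nd q a‖ ≤ 4 := by
    intro a ha
    obtain ⟨g1, g2, g3, g4, g5, g6, g7, g8⟩ := hS a ha
    exact LocT_four h1 h σ₁ b r₀ R R' R₂ R₁ hh rd G c t q a hGe g2 g3 g6 g7 g8
  have hw5 : ∀ a ∈ S, ‖1 - nd q a‖ ≤ 5 := by
    intro a ha
    calc ‖1 - nd q a‖ ≤ ‖(1 : ℂ)‖ + ‖nd q a‖ := norm_sub_le _ _
      _ ≤ 5 := by rw [norm_one]; have := hw4 a ha; linarith
  have hDpos : 0 < D := by linarith
  have hkap40 : kap * (40 * ((Sf : ℝ) + 1)) ≤ 1 := by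
    refine le_trans ?_ hkapD
    apply mul_le_mul_of_nonneg_left _ hkap.le
    have hA1 : (0 : ℝ) ≤ A' := Nat.cast_nonneg _
    nlinarith
  -- Lemma LT
  have hLT := tLT (TuranW.turF (TuranW.turM TuranW.tur)) ℂ S (nd q) β m Sf
    (16 * m * ((V + m) + D₁ * (V + 1))) df kap nu hw4 (fun a ha => (hS a ha).1) ?_ hdf (by linarith)
    hS1 hkap hkap40 hnu ?_ ?_ (by nlinarith)
  · -- detection
    have hsumK : ∀ w : ℂ, ∑ j ∈ Finset.range (DL Sf m), (alL Sf m j : ℂ) * w ^ j =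
        ks (Sf + 2) w ^ bbL Sf m := by
      intro w
      have e0 := ksP_eval_pow (Sf + 2) (bbL Sf m) w
      rw [← e0, Polynomial.eval_eq_sum_range'
        (Nat.lt_succ_of_le (le_trans (Polynomial.natDegree_map_le) (ksP_deg (Sf + 2) (bbL Sf m)))) w]
      apply Finset.sum_congr rfl
      intro k _
      rw [Polynomial.coeff_map]
      rfl
    have hal0 : ∀ j, 0 ≤ alL Sf m j := fun j => ksP_nonneg (Sf + 2) (bbL Sf m) j
    have hal1 : ∑ j ∈ Finset.range (DL Sf m), alL Sf m j = 1 := by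
      have := ksP_one (Sf + 2) (bbL Sf m)
      rw [Polynomial.eval_eq_sum_range'
        (Nat.lt_succ_of_le (ksP_deg (Sf + 2) (bbL Sf m))) 1] at this
      simp only [one_pow, mul_one] at this
      exact this
    have hk := hker (alL Sf m) (DL Sf m) kk js hal0 hal1 n5
    have hU2 : 1 / 8 < ‖∑ a ∈ S, (β a : ℂ) * (nd q a ^ (kk - js) *
        ks (Sf + 2) (nd q a) ^ bbL Sf m)‖ := by
      have e1 : ∑ a ∈ S, (β a : ℂ) * (nd q a ^ (kk - js) *
          ∑ j ∈ Finset.range (DL Sf m), (alL Sf m j : ℂ) * nd q a ^ j) =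
          ∑ a ∈ S, (β a : ℂ) * (nd q a ^ (kk - js) * ks (Sf + 2) (nd q a) ^ bbL Sf m) := by
        apply Finset.sum_congr rfl
        intro a _
        rw [hsumK]
      rw [e1] at hk
      have e2 := norm_sub_le_norm_add (cmb (alL Sf m) (DL Sf m) kk js q (fun k => eW h c k t))
        (∑ a ∈ S, (β a : ℂ) * (nd q a ^ (kk - js) * ks (Sf + 2) (nd q a) ^ bbL Sf m))
      have e3 := hk.trans n4
      linarith
    obtain ⟨hb1, hb2⟩ := LocT_b m Sf df hdf hS2 n2
    have hP4 : (2 : ℝ) ^ (Sf + 2) = 4 * 2 ^ Sf := by rw [pow_add]; norm_num [mul_comm]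
    have hPpos : (0 : ℝ) < 2 ^ Sf := by positivity
    obtain ⟨a, haS, had⟩ := LocT_det (J := S) (w := nd q) (wt := β) (Q := ks (Sf + 2)) (kap := kap)
      (df := df) (D := (Sf + 3) * (4 * 2 ^ Sf)) (c := 2 ^ Sf / 3) (B := D₁ * (V + 1))
      (k := kk - js) (b := bbL Sf m) hβ (by positivity) (by
        intro z eta he3 hz hd hd5
        have h6 : 6 ≤ (2 : ℝ) ^ (Sf + 2) * ‖1 - z‖ := by
          rw [hP4]
          nlinarith
        have := ks_far (Sf + 2) z eta he3 hz h6 (by linarith)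
        refine this.trans (Real.exp_le_exp.mpr (le_of_eq ?_))
        rw [hP4]
        push_cast
        ring) hw5 (by positivity) hkap.le (by
        have f1 : ((kk - js : ℕ) : ℝ) ≤ A' * m := by
          have : kk - js ≤ A' * m := (Nat.sub_le _ _).trans hk2
          exact_mod_cast this
        have f2 : ((kk - js : ℕ) : ℝ) + bbL Sf m * ((Sf + 3) * (4 * 2 ^ Sf)) ≤ (A' + 1) * m := by
          linarith
        refine le_trans (mul_le_mul_of_nonneg_left f2 hkap.le) (le_trans ?_ hb1)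
        rw [le_div_iff₀ (by positivity)]
        calc kap * ((A' + 1) * m) * (192 * (Sf + 3))
            = (kap * ((192 * (A' + 1)) * (Sf + 3))) * m := by ring
          _ ≤ (kap * (D * (Sf + 3))) * m := by
              apply mul_le_mul_of_nonneg_right _ hm0
              apply mul_le_mul_of_nonneg_left _ hkap.le
              apply mul_le_mul_of_nonneg_right hD192
              positivity
          _ ≤ 1 * m := mul_le_mul_of_nonneg_right hkapD hm0
          _ = m := one_mul _) (by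
        have e1 : Real.log (8 * (D₁ * (V + 1))) ≤ m / (192 * (Sf + 3)) * df := by
          rw [div_mul_eq_mul_div, le_div_iff₀ (by positivity)]
          linarith
        exact e1.trans (mul_le_mul_of_nonneg_right hb1 hdf.le)) hLT hU2
    obtain ⟨g1, g2, g3, g4, g5, g6, g7, g8⟩ := hS a haS
    refine ⟨phi h a + t * Complex.I, g2, g3, ?_⟩
    have e1 : (phi h a + t * Complex.I).im - t = (phi h a).im := by simp
    rw [e1]
    refine g4.trans ?_
    apply mul_le_mul (by linarith) had.le (norm_nonneg _) hDpos.le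
  · -- power sums
    intro k hk1' hk2'
    have hk1n : 1 ≤ k := by omega
    have hp := hpow k hk1n
    have hρk : (R' / R₂) ^ k ≤ 1 := pow_le_one₀ hρ0.le hρ1.le
    have hkR : (k : ℝ) ≤ 16 * m := by exact_mod_cast hk2'
    have he1 : ‖(-(q : ℂ)⁻¹) ^ k * k * eW h c k t‖ ≤ k * (V + m) := by
      have hty := htyp k hk1' (hk2'.trans (Nat.mul_le_mul hA' le_rfl))
      rw [norm_mul, norm_mul, norm_pow, norm_neg, norm_inv, Complex.norm_real, Real.norm_eq_abs,
        abs_of_pos hq0, Complex.norm_natCast]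
      calc q⁻¹ ^ k * k * ‖eW h c k t‖ ≤ q⁻¹ ^ k * k * ((V + m) * q ^ k) := by
            apply mul_le_mul_of_nonneg_left hty
            positivity
        _ = (q⁻¹ * q) ^ k * (k * (V + m)) := by rw [mul_pow]; ring
        _ = k * (V + m) := by rw [inv_mul_cancel₀ hq0.ne', one_pow, one_mul]
    have he2 : D₁ * k * (V + 1) * (R' / R₂) ^ k ≤ k * (D₁ * (V + 1)) := by
      calc D₁ * k * (V + 1) * (R' / R₂) ^ k ≤ D₁ * k * (V + 1) * 1 := by
            apply mul_le_mul_of_nonneg_left hρk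
            positivity
        _ = k * (D₁ * (V + 1)) := by ring
    have he3 : ‖∑ a ∈ S, (β a : ℂ) * nd q a ^ k‖ ≤ k * ((V + m) + D₁ * (V + 1)) := by
      have e2 := norm_sub_le_norm_add (∑ a ∈ S, (β a : ℂ) * nd q a ^ k)
        ((-(q : ℂ)⁻¹) ^ k * k * eW h c k t)
      rw [add_comm] at e2
      have e3 := hp.trans he2
      have : k * ((V + m) + D₁ * (V + 1)) = k * (V + m) + k * (D₁ * (V + 1)) := by ring
      linarith
    refine he3.trans ?_
    apply mul_le_mul_of_nonneg_right hkR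
    positivity
  · -- counts
    intro δ hδ1 hδ2 J' hJ' hJd
    have hinj' : Set.InjOn (fun a : ℂ => phi h a + t * Complex.I) J' :=
      hinj.mono (by exact_mod_cast hJ')
    have hcard := Finset.card_image_of_injOn hinj'
    rw [← hcard]
    apply hcnt δ hδ1 hδ2
    intro ρ hρ
    obtain ⟨a, ha, rfl⟩ := Finset.mem_image.mp hρ
    obtain ⟨g1, g2, g3, g4, g5, g6, g7, g8⟩ := hS a (hJ' ha)
    refine ⟨g2, g3, ?_⟩
    have e1 : (phi h a + t * Complex.I).im - t = (phi h a).im := by simp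
    change |(phi h a + t * Complex.I).im - t| ≤ D * (6 * δ)
    rw [e1]
    refine g4.trans ?_
    have hlt := hJd a ha
    apply mul_le_mul (by linarith) hlt.le (norm_nonneg _) hDpos.le
  · -- the logarithm
    have e1 : ((∑ j ∈ S, β j : ℕ) : ℝ) = ∑ j ∈ S, (β j : ℝ) := by push_cast; rfl
    rw [e1] at hβ
    refine le_trans ?_ n1
    have hβ0 : 0 ≤ ∑ j ∈ S, (β j : ℝ) := Finset.sum_nonneg fun j _ => Nat.cast_nonneg _
    have hΛ0 : 0 < 16 * (m : ℝ) * ((V + m) + D₁ * (V + 1)) := by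
      have : (2 : ℝ) ≤ m := by exact_mod_cast hm
      positivity
    apply mul_le_mul_of_nonneg_left _ (by norm_num : (0 : ℝ) ≤ 2)
    apply Real.log_le_log (by linarith)
    linarith

end MP7ed9c3.Tp
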