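import Pool.Agent.Lib.MP_7ed9c3_nt.Tp.FinT
import Pool.Agent.Lib.MP_7ed9c3_nt.Tp.FinY

/-!
# MP_7ed9c3_nt, part Tp: the minimum of the two forms
-/

set_option autoImplicit false

namespace MP7ed9c3.Tp

open NumberField IsDedekindDomain Filter Topology MeasureTheory Metric
open MP7ed9c3.Aw

/-- The final conclusion. -/
def WindowsM (h : ℝ) (K : Type) [Field K] [NumberField K]
    (𝓔 : ℝ → (HeightOneSpectrum (𝓞 K) → WeierstrassCurve (𝓞 K)) → Prop) (b : ℝ) : Prop :=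
  ∀ σ₁ : ℝ, σ₁ < b → ∃ C c V₀ : ℝ, 0 < c ∧ ∀ V H t₀ : ℝ, V₀ ≤ V → V ≤ H →
      ∀ M : HeightOneSpectrum (𝓞 K) → WeierstrassCurve (𝓞 K), 𝓔 V M →
      ∀ F : ℂ → ℂ, DifferentiableOn ℂ F {s : ℂ | σ₁ < s.re ∧ |s.im - t₀| < H} →
        (∀ s : ℂ, σ₁ < s.re → |s.im - t₀| < H → ‖F s‖ ≤ Real.exp V) →
        (∀ s : ℂ, 3 / 2 < s.re → |s.im - t₀| < H →
          F s = ∏' v : HeightOneSpectrum (𝓞 K), (locDen (M v) v s)⁻¹) →
        ∀ N : ℕ, 1 ≤ N →
        volume {t : ℝ | |t - t₀| < H ∧ ¬ ∃ Y : Finset ℂ, Y.card = N ∧ ∀ ρ ∈ Y,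
            σ₁ < ρ.re ∧ |ρ.im - t| < h ∧ |ρ.im - t₀| < H ∧ F ρ = 0} ≤
          ENNReal.ofReal (C * (N * min (N + Real.log V + Real.log (Real.log H))
            (Real.log (Real.log H) * (Real.log V + Real.log (Real.log H))) / Real.log H) ^ c * H)

/-- the trivial bound -/
private theorem MinW_triv (t₀ H : ℝ) (Q : ℝ → Prop) :
    volume {t : ℝ | |t - t₀| < H ∧ Q t} ≤ ENNReal.ofReal (2 * H) := by
  have e : {t : ℝ | |t - t₀| < H ∧ Q t} ⊆ Set.Ioo (t₀ - H) (t₀ + H) := by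
    rintro t ⟨ht, _⟩
    rw [abs_lt] at ht
    exact ⟨by linarith [ht.1], by linarith [ht.2]⟩
  refine (measure_mono e).trans ?_
  rw [Real.volume_Ioo]
  exact ENNReal.ofReal_le_ofReal (by linarith)

private theorem MinW_num (C C1 c c1 x H : ℝ) (hH : 0 ≤ H) (hC : 0 ≤ C) (hC1 : C1 ≤ C) (hc : 0 < c)
    (hcc : c ≤ c1) (hx0 : 0 ≤ x) (hx1 : x ≤ 1) : C1 * x ^ c1 * H ≤ C * x ^ c * H := by
  refine mul_le_mul_of_nonneg_right ?_ hH
  calc C1 * x ^ c1 ≤ C * x ^ c1 := mul_le_mul_of_nonneg_right hC1 (Real.rpow_nonneg hx0 _)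
    _ ≤ C * x ^ c :=
        mul_le_mul_of_nonneg_left (Real.rpow_le_rpow_of_exponent_ge' hx0 hx1 hc.le hcc) hC

theorem minW (h : ℝ) (K : Type) [Field K] [NumberField K]
    (𝓔 : ℝ → (HeightOneSpectrum (𝓞 K) → WeierstrassCurve (𝓞 K)) → Prop) (b : ℝ)
    (hY : WindowsY h K 𝓔 b) (hT : WindowsT h K 𝓔 b) : WindowsM h K 𝓔 b := by
  intro σ₁ hσ
  obtain ⟨C1, c1, V1, hc1, H1⟩ := hY σ₁ hσ
  obtain ⟨C2, c2, V2, hc2, H2⟩ := hT σ₁ hσ
  refine ⟨max (max C1 C2) 2, min c1 c2, max (max V1 V2) (Real.exp (Real.exp 1)), lt_min hc1 hc2, ?_⟩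
  intro V H t₀ hV hH M hM F hFd hFb hFe N hN
  have v1 : V1 ≤ V := (le_max_left _ _).trans ((le_max_left _ _).trans hV)
  have v2 : V2 ≤ V := (le_max_right _ _).trans ((le_max_left _ _).trans hV)
  have v3 : Real.exp (Real.exp 1) ≤ V := (le_max_right _ _).trans hV
  have h1 := Real.add_one_le_exp (1 : ℝ)
  have h2 := Real.add_one_le_exp (Real.exp 1)
  have hVp : 0 < V := by linarith
  have hHp : 0 < H := by linarith
  have hNR : (1 : ℝ) ≤ N := by exact_mod_cast hN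
  have hlogV : Real.exp 1 ≤ Real.log V := by
    rw [Real.le_log_iff_exp_le hVp]
    exact v3
  have hVH : Real.log V ≤ Real.log H := Real.log_le_log hVp hH
  have hlHp : (0 : ℝ) < Real.log H := by linarith
  have hlV0 : 0 ≤ Real.log V := by linarith
  have hll0 : 0 ≤ Real.log (Real.log H) := Real.log_nonneg (by linarith)
  have hC : (0 : ℝ) ≤ max (max C1 C2) 2 := le_trans (by norm_num) (le_max_right _ _)
  have hc : 0 < min c1 c2 := lt_min hc1 hc2
  have hx0 : 0 ≤ (N : ℝ) * min (N + Real.log V + Real.log (Real.log H))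
      (Real.log (Real.log H) * (Real.log V + Real.log (Real.log H))) / Real.log H := by
    refine div_nonneg (mul_nonneg (by linarith) (le_min (by linarith) ?_)) hlHp.le
    exact mul_nonneg hll0 (by linarith)
  rcases le_or_gt ((N : ℝ) * min (N + Real.log V + Real.log (Real.log H))
      (Real.log (Real.log H) * (Real.log V + Real.log (Real.log H))) / Real.log H) 1 with hx1 | hx1
  · rcases min_choice ((N : ℝ) + Real.log V + Real.log (Real.log H))
      (Real.log (Real.log H) * (Real.log V + Real.log (Real.log H))) with he | he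
    · rw [he] at hx0 hx1 ⊢
      exact (H1 V H t₀ v1 hH M hM F hFd hFb hFe N hN).trans (ENNReal.ofReal_le_ofReal
        (MinW_num _ _ _ _ _ _ hHp.le hC ((le_max_left _ _).trans (le_max_left _ _)) hc
          (min_le_left _ _) hx0 hx1))
    · rw [he] at hx0 hx1 ⊢
      have e : (N : ℝ) * (Real.log (Real.log H) * (Real.log V + Real.log (Real.log H))) /
          Real.log H = N * Real.log (Real.log H) * (Real.log V + Real.log (Real.log H)) /
          Real.log H := by ring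
      rw [e] at hx0 hx1 ⊢
      exact (H2 V H t₀ v2 hH M hM F hFd hFb hFe N hN).trans (ENNReal.ofReal_le_ofReal
        (MinW_num _ _ _ _ _ _ hHp.le hC ((le_max_right _ _).trans (le_max_left _ _)) hc
          (min_le_right _ _) hx0 hx1))
  · refine (MinW_triv t₀ H _).trans (ENNReal.ofReal_le_ofReal ?_)
    refine mul_le_mul_of_nonneg_right ?_ hHp.le
    have h3 : (1 : ℝ) ≤ ((N : ℝ) * min (N + Real.log V + Real.log (Real.log H))
        (Real.log (Real.log H) * (Real.log V + Real.log (Real.log H))) / Real.log H) ^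
        (min c1 c2) := Real.one_le_rpow hx1.le hc.le
    calc (2 : ℝ) = 2 * 1 := by norm_num
      _ ≤ max (max C1 C2) 2 * ((N : ℝ) * min (N + Real.log V + Real.log (Real.log H))
        (Real.log (Real.log H) * (Real.log V + Real.log (Real.log H))) / Real.log H) ^
        (min c1 c2) := mul_le_mul (le_max_right _ _) h3 (by norm_num) hC

/-- **The uniform theorem**, from both cores. -/
theorem finM (h : ℝ) (hh : 0 < h) (hY : CoreY h) (hT : CoreT h) (K : Type) [Field K]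
    [NumberField K] :
    WindowsM h K (FewBad K) (1 / 2 + 1 / (4 * (Module.finrank ℚ K : ℝ))) ∧
    ∀ (N : Type) [Field N] [NumberField N] [IsGalois ℚ N] (g : N ≃ₐ[ℚ] N) (k : ℕ),
      Nonempty (K →ₐ[ℚ] N) → Zg.Adm (Zg.perm (K := K) g) k →
      WindowsM h K (FewBad K) (1 / 2 + 1 / (2 * (k : ℝ))) :=
  ⟨minW h K _ _ (finY h hh hY K).1 (finT h hh hT K).1,
    fun N _ _ _ g k hne hA => minW h K _ _ ((finY h hh hY K).2 N g k hne hA)
      ((finT h hh hT K).2 N g k hne hA)⟩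

end MP7ed9c3.Tp
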