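import Pool.Agent.Lib.MP_7ed9c3_nt.Tp.Spec

/-!
# MP_7ed9c3_nt, project TP, module Near

No zero is too near: `S_Near` from `S_Tus`.
-/

set_option autoImplicit false

namespace MP7ed9c3.Tp

open MeasureTheory Metric MP7ed9c3.Aw

/-- the choice of the multiplier -/
private theorem near_nat (m N : ℕ) (hN : 1 ≤ N) (hm : N ≤ m) :
    ∃ q : ℕ, ∀ k : ℕ, N + 1 ≤ k → k ≤ 2 * N → m ≤ q * k ∧ q * k ≤ 4 * m := by
  refine ⟨(m + N - 1) / N, fun k hk1 hk2 => ?_⟩
  have h1 : (m + N - 1) / N * N ≤ m + N - 1 := Nat.div_mul_le_self _ _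
  have h2 : m + N - 1 < (m + N - 1) / N * N + N := Nat.lt_div_mul_add (by omega)
  have h3 : m ≤ (m + N - 1) / N * N := by omega
  constructor
  · calc m ≤ (m + N - 1) / N * N := h3
      _ ≤ (m + N - 1) / N * k := Nat.mul_le_mul_left _ (by omega)
  · calc (m + N - 1) / N * k ≤ (m + N - 1) / N * (2 * N) := Nat.mul_le_mul_left _ hk2
      _ = 2 * ((m + N - 1) / N * N) := by ring
      _ ≤ 2 * (m + N - 1) := Nat.mul_le_mul_left _ h1
      _ ≤ 4 * m := by omega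

/-- the logarithm of the main inequality -/
private theorem near_log (N k : ℕ) (d q Q W : ℝ) (hd : 0 < d) (hq : 0 < q) (hQ : 0 < Q)
    (hW : 0 < W) (h : (1 / 200 : ℝ) ^ N * (1 / d) ^ k ≤ Q * W ^ 2 * q ^ k) :
    (k : ℝ) * (-(Real.log d + Real.log q)) ≤ N * Real.log 200 + Real.log Q + 2 * Real.log W := by
  have h1 : (0 : ℝ) < (1 / 200 : ℝ) ^ N * (1 / d) ^ k := by positivity
  have h2 := Real.log_le_log h1 h
  rw [Real.log_mul (by positivity) (by positivity), Real.log_pow, Real.log_pow,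
    Real.log_mul (by positivity) (by positivity), Real.log_mul (by positivity) (by positivity),
    Real.log_pow, Real.log_pow, one_div, one_div, Real.log_inv, Real.log_inv] at h2
  push_cast at h2
  nlinarith [h2]

/-- the main inequality for the power sum -/
private theorem near_sum (A V lam q R P : ℝ) (m k : ℕ) (z e : ℂ) (hA : 0 ≤ A) (hV : 0 ≤ V)
    (hm : 1 ≤ m) (hk : k ≤ 4 * m) (hlam : lam ≤ V + m) (hq : 0 < q) (hR : 0 < R)
    (hRq : 1 / R ≤ q) (he : ‖e‖ ≤ lam * q ^ k)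
    (hz : ‖(k : ℂ) * e + z‖ ≤ A * k * (V + 1) * (1 / R) ^ k) (hP : P ≤ ‖z‖) :
    P ≤ 4 * (1 + A) * (V + m) ^ 2 * q ^ k := by
  have hm' : (1 : ℝ) ≤ m := by exact_mod_cast hm
  have hk' : (k : ℝ) ≤ 4 * m := by exact_mod_cast hk
  have hqk : 0 < q ^ k := pow_pos hq k
  have h1 : ‖z‖ ≤ ‖(k : ℂ) * e + z‖ + ‖(k : ℂ) * e‖ := by
    calc ‖z‖ = ‖((k : ℂ) * e + z) - (k : ℂ) * e‖ := by congr 1; ring
      _ ≤ _ := norm_sub_le _ _
  have h2 : ‖(k : ℂ) * e‖ ≤ k * ((V + m) * q ^ k) := by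
    rw [norm_mul, Complex.norm_natCast]
    refine mul_le_mul_of_nonneg_left (he.trans ?_) (Nat.cast_nonneg k)
    exact mul_le_mul_of_nonneg_right hlam hqk.le
  have h3 : (1 / R) ^ k ≤ q ^ k := pow_le_pow_left₀ (by positivity) hRq k
  have h4 : A * k * (V + 1) * (1 / R) ^ k ≤ A * k * (V + m) * q ^ k := by
    have h5 : A * k * (V + 1) ≤ A * k * (V + m) :=
      mul_le_mul_of_nonneg_left (by linarith) (by positivity)
    exact mul_le_mul h5 h3 (by positivity) (by positivity)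
  have h6 : P ≤ (1 + A) * ((k : ℝ) * (V + m) * q ^ k) := by
    have h7 : P ≤ A * k * (V + m) * q ^ k + k * ((V + m) * q ^ k) := by linarith
    calc P ≤ _ := h7
      _ = _ := by ring
  have h8 : (k : ℝ) * (V + m) * q ^ k ≤ 4 * (V + m) ^ 2 * q ^ k := by
    have h9 : (k : ℝ) * (V + m) ≤ 4 * (V + m) ^ 2 := by
      have h10 : (k : ℝ) ≤ 4 * (V + m) := by linarith
      calc (k : ℝ) * (V + m) ≤ 4 * (V + m) * (V + m) :=
            mul_le_mul_of_nonneg_right h10 (by positivity)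
        _ = _ := by ring
    exact mul_le_mul_of_nonneg_right h9 hqk.le
  calc P ≤ (1 + A) * ((k : ℝ) * (V + m) * q ^ k) := h6
    _ ≤ (1 + A) * (4 * (V + m) ^ 2 * q ^ k) := mul_le_mul_of_nonneg_left h8 (by linarith)
    _ = _ := by ring

theorem tNear (hT : S_Tus) : S_Near := by
  intro A hA
  have hQ1 : (1 : ℝ) ≤ 4 * (1 + A) := by linarith
  have hlQ : 0 ≤ Real.log (4 * (1 + A)) := Real.log_nonneg hQ1
  have hl200 : 0 ≤ Real.log 200 := Real.log_nonneg (by norm_num)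
  refine ⟨Real.log 200 + 2 + 2 * Real.log (4 * (1 + A)), by linarith, ?_⟩
  intro V lam q R m S b e hV hm hSm h2 hlam hq hR hRq hS he hps a ha
  have hm' : (1 : ℝ) ≤ m := by exact_mod_cast hm
  obtain ⟨a₁, ha₁, hmin⟩ := Finset.exists_min_image S (fun z => ‖z‖) ⟨a, ha⟩
  have hN : 1 ≤ S.card := Finset.card_pos.2 ⟨a, ha⟩
  have hd : 0 < ‖a₁‖ := norm_pos_iff.2 (hS a₁ ha₁).1
  obtain ⟨q', hq'⟩ := near_nat m S.card hN hSm
  obtain ⟨k', hk1, hk2, hk3⟩ := hT S b q' ‖a₁‖ hd hmin ⟨a₁, ha₁, rfl, (hS a₁ ha₁).2⟩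
  obtain ⟨hk4, hk5⟩ := hq' k' hk1 hk2
  have hmain := near_sum A V lam q R _ m (q' * k') _ (e (q' * k')) hA hV hm hk5 hlam hq hR hRq
    (he _ hk4 hk5) (hps _ (le_trans hm hk4)) hk3
  have hlog := near_log S.card (q' * k') ‖a₁‖ q (4 * (1 + A)) (V + m) hd hq (by linarith)
    (by linarith) hmain
  have hL : (1 / 2 : ℝ) ≤ Real.log (V + m) := by
    have h3 : Real.log 2 ≤ Real.log (V + m) := Real.log_le_log (by norm_num) h2
    have h4 := Real.log_two_gt_d9
    linarith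
  set x : ℝ := -(Real.log ‖a₁‖ + Real.log q) with hx
  have hmx : (m : ℝ) * x ≤
      (Real.log 200 + 2 + 2 * Real.log (4 * (1 + A))) * (S.card + Real.log (V + m)) := by
    have hNr : (0 : ℝ) ≤ (S.card : ℝ) := Nat.cast_nonneg _
    have hexp : (S.card : ℝ) * Real.log 200 + Real.log (4 * (1 + A)) + 2 * Real.log (V + m) ≤
        (Real.log 200 + 2 + 2 * Real.log (4 * (1 + A))) * (S.card + Real.log (V + m)) := by
      nlinarith [mul_nonneg hNr hlQ, mul_nonneg hlQ (sub_nonneg.2 hL),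
        mul_nonneg hl200 (le_trans (by norm_num : (0 : ℝ) ≤ 1 / 2) hL), mul_nonneg hNr hl200]
    rcases le_or_gt x 0 with h0 | h0
    · have h5 : (m : ℝ) * x ≤ 0 := mul_nonpos_of_nonneg_of_nonpos (by linarith) h0
      have h6 : (0 : ℝ) ≤ (Real.log 200 + 2 + 2 * Real.log (4 * (1 + A))) *
          (S.card + Real.log (V + m)) := mul_nonneg (by linarith) (by linarith)
      linarith
    · have h5 : (m : ℝ) ≤ ((q' * k' : ℕ) : ℝ) := by exact_mod_cast hk4
      have h6 : (m : ℝ) * x ≤ ((q' * k' : ℕ) : ℝ) * x := mul_le_mul_of_nonneg_right h5 h0.le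
      linarith
  have hx2 : x ≤ (Real.log 200 + 2 + 2 * Real.log (4 * (1 + A))) *
      (S.card + Real.log (V + m)) / m := by
    rw [le_div_iff₀ (by linarith)]
    linarith
  have hx3 : Real.exp (-x) = ‖a₁‖ * q := by
    rw [hx, neg_neg, Real.exp_add, Real.exp_log hd, Real.exp_log hq]
  have hx4 : Real.exp (-((Real.log 200 + 2 + 2 * Real.log (4 * (1 + A))) *
      (S.card + Real.log (V + m)) / m)) ≤ ‖a₁‖ * q := by
    rw [← hx3]
    exact Real.exp_le_exp.2 (by linarith)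
  calc 1 / q * Real.exp (-((Real.log 200 + 2 + 2 * Real.log (4 * (1 + A))) *
      (S.card + Real.log (V + m)) / m)) ≤ 1 / q * (‖a₁‖ * q) :=
        mul_le_mul_of_nonneg_left hx4 (by positivity)
    _ = ‖a₁‖ := by field_simp
    _ ≤ ‖a‖ := hmin a ha

end MP7ed9c3.Tp
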