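import Mathlib

/-!
# MP_7ed9c3_nt, part Tp: error bounds and logarithms for DetL (helper77)

`S_NumE`: the error of the combination is at most `1/16`.  `S_NumLg`: `log(Λ + ∑ b)` and `log(8 D (V+1))` are at most
`C (log V + loglog T)`.  `loglog_ge`: `loglog T ≥ 1` for `T ≥ V ≥ 16`.
-/

set_option autoImplicit false

namespace MP7ed9c3.NumE

open Real

/-- the error bound -/
def S_NumE : Prop := ∀ (D R' R₂ : ℝ) (A' : ℕ), 0 ≤ D → 0 < R' → R' < R₂ →
  ∃ C0 : ℝ, 1 ≤ C0 ∧ ∀ (V : ℝ) (m kk n js : ℕ), 3 ≤ V → C0 * (Real.log V + 1) ≤ m →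
    m ≤ kk → kk ≤ A' * m → 2 * n ≤ m → js < n →
    D * (kk + n) * (V + 1) * (R' / R₂) ^ (kk - js) ≤ 1 / 16

/-- the logarithms -/
def S_NumLg : Prop := ∀ D : ℝ, 1 ≤ D → ∃ C : ℝ, 1 ≤ C ∧
  ∀ (V T : ℝ) (m : ℕ), 3 ≤ V → 1 ≤ Real.log (Real.log T) → (m : ℝ) ≤ Real.log T →
    Real.log (8 * (D * (V + 1))) ≤ C * (Real.log V + Real.log (Real.log T)) ∧
    ∀ Lam B : ℝ, 0 ≤ Lam → 0 ≤ B → Lam ≤ 16 * m * ((V + m) + D * (V + 1)) → B ≤ D * (V + 1) →
      Real.log (Lam + B) ≤ C * (Real.log V + Real.log (Real.log T))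

theorem one_le_log3 {V : ℝ} (hV : 3 ≤ V) : 1 ≤ Real.log V := by
  rw [Real.le_log_iff_exp_le (by linarith)]
  have := Real.exp_one_lt_d9
  linarith

theorem loglog_ge {T : ℝ} (hT : 16 ≤ T) : 1 ≤ Real.log (Real.log T) := by
  have h1 : Real.exp 1 ≤ Real.log T := by
    rw [Real.le_log_iff_exp_le (by linarith)]
    have he := Real.exp_one_lt_d9
    have h2 : Real.exp (Real.exp 1) ≤ Real.exp (2.75 : ℝ) := Real.exp_le_exp.mpr (by linarith)
    have h3 : Real.exp (2.75 : ℝ) ≤ 16 := by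
      have h4 : Real.exp (2.75 : ℝ) ^ 4 = Real.exp 1 ^ 11 := by
        rw [← Real.exp_nat_mul, ← Real.exp_nat_mul]
        norm_num
      have h5 : Real.exp 1 ^ 11 ≤ (2.7182818286 : ℝ) ^ 11 :=
        pow_le_pow_left₀ (Real.exp_pos _).le he.le 11
      have h6 : (2.7182818286 : ℝ) ^ 11 ≤ 16 ^ 4 := by norm_num
      have h7 : Real.exp (2.75 : ℝ) ^ 4 ≤ 16 ^ 4 := by rw [h4]; exact le_trans h5 h6
      exact le_of_pow_le_pow_left₀ (by norm_num) (by norm_num) h7
    linarith
  rw [Real.le_log_iff_exp_le (lt_of_lt_of_le (Real.exp_pos 1) h1)]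
  exact h1

theorem tNumE : S_NumE := by
  intro D R' R₂ A' hD hR' hRR
  have hR₂ : 0 < R₂ := lt_trans hR' hRR
  set θ : ℝ := R' / R₂ with hθ
  have hθ0 : 0 < θ := by positivity
  have hθ1 : θ < 1 := by rw [hθ, div_lt_one hR₂]; exact hRR
  set γ : ℝ := -Real.log θ with hγ
  have hγ0 : 0 < γ := by
    rw [hγ]
    have := Real.log_neg hθ0 hθ1
    linarith
  have hθexp : θ = Real.exp (-γ) := by rw [hγ, neg_neg, Real.exp_log hθ0]
  set P : ℝ := D * (A' + 1) / γ with hP
  have hP0 : 0 ≤ P := by positivity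
  set Λ : ℝ := Real.log (256 * P + 1) with hΛ
  have hΛ0 : 0 ≤ Λ := Real.log_nonneg (by linarith)
  have hΛexp : Real.exp (-Λ) = 1 / (256 * P + 1) := by
    rw [Real.exp_neg, hΛ, Real.exp_log (by linarith), one_div]
  refine ⟨8 / γ + 4 * Λ / γ + 1, by
    have h1 : 0 ≤ 8 / γ := by positivity
    have h2 : 0 ≤ 4 * Λ / γ := by positivity
    linarith, ?_⟩
  intro V m kk n js hV hm hkk hkk' hn hjs
  have hlog1 : 1 ≤ Real.log V := one_le_log3 hV
  have hV0 : 0 < V := by linarith
  have hmV : 8 / γ * Real.log V ≤ m := by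
    have h1 : 0 ≤ 8 / γ := by positivity
    have h2 : 0 ≤ 4 * Λ / γ := by positivity
    nlinarith
  have hmL : 4 * Λ / γ ≤ m := by
    have h1 : 0 ≤ 8 / γ := by positivity
    have h2 : 0 ≤ 4 * Λ / γ := by positivity
    nlinarith
  have hmV' : 8 * Real.log V ≤ γ * m := by
    have h1 : 8 / γ * Real.log V * γ ≤ m * γ := mul_le_mul_of_nonneg_right hmV hγ0.le
    have h2 : 8 / γ * Real.log V * γ = 8 * Real.log V := by field_simp
    linarith
  have hmL' : 4 * Λ ≤ γ * m := by
    have h1 : 4 * Λ / γ * γ ≤ m * γ := mul_le_mul_of_nonneg_right hmL hγ0.le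
    have h2 : 4 * Λ / γ * γ = 4 * Λ := by field_simp
    linarith
  have hexpn : m ≤ 2 * (kk - js) := by omega
  have hexpR : (m : ℝ) / 2 ≤ ((kk - js : ℕ) : ℝ) := by
    have : (m : ℝ) ≤ 2 * ((kk - js : ℕ) : ℝ) := by exact_mod_cast hexpn
    linarith
  have hθpow : θ ^ (kk - js) ≤ Real.exp (-(γ * m / 2)) := by
    rw [hθexp, ← Real.exp_nat_mul]
    apply Real.exp_le_exp.mpr
    nlinarith
  have hsum : (kk : ℝ) + n ≤ (A' + 1) * m := by
    have h1 : (kk : ℝ) ≤ A' * m := by exact_mod_cast hkk'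
    have h2 : 2 * (n : ℝ) ≤ m := by exact_mod_cast hn
    have h3 : (0 : ℝ) ≤ n := Nat.cast_nonneg _
    linarith
  have hm0 : (0 : ℝ) ≤ m := Nat.cast_nonneg _
  have hmexp : (m : ℝ) ≤ 8 / γ * Real.exp (γ * m / 8) := by
    have h1 : γ * m / 8 + 1 ≤ Real.exp (γ * m / 8) := Real.add_one_le_exp _
    have h2 : (m : ℝ) = 8 / γ * (γ * m / 8) := by field_simp
    calc (m : ℝ) = 8 / γ * (γ * m / 8) := h2
      _ ≤ 8 / γ * Real.exp (γ * m / 8) :=
        mul_le_mul_of_nonneg_left (by linarith) (by positivity)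
  have hVexp : V + 1 ≤ 2 * Real.exp (γ * m / 8) := by
    have h1 : V = Real.exp (Real.log V) := (Real.exp_log hV0).symm
    have h2 : Real.exp (Real.log V) ≤ Real.exp (γ * m / 8) :=
      Real.exp_le_exp.mpr (by linarith)
    linarith
  calc D * (kk + n) * (V + 1) * θ ^ (kk - js)
      ≤ D * ((A' + 1) * m) * (V + 1) * Real.exp (-(γ * m / 2)) := by gcongr
    _ ≤ D * ((A' + 1) * (8 / γ * Real.exp (γ * m / 8))) * (2 * Real.exp (γ * m / 8)) *
          Real.exp (-(γ * m / 2)) := by gcongr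
    _ = 16 * P * (Real.exp (γ * m / 8) * Real.exp (γ * m / 8) * Real.exp (-(γ * m / 2))) := by
        rw [hP]; ring
    _ = 16 * P * Real.exp (-(γ * m / 4)) := by
        rw [← Real.exp_add, ← Real.exp_add]
        congr 2
        ring
    _ ≤ 16 * P * Real.exp (-Λ) := by
        apply mul_le_mul_of_nonneg_left _ (by positivity)
        apply Real.exp_le_exp.mpr
        linarith
    _ = 16 * P / (256 * P + 1) := by rw [hΛexp]; ring
    _ ≤ 1 / 16 := by
        rw [div_le_div_iff₀ (by linarith) (by norm_num)]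
        linarith

theorem tNumLg : S_NumLg := by
  intro D hD
  have hlogD : 0 ≤ Real.log (66 * D) := Real.log_nonneg (by linarith)
  refine ⟨Real.log (66 * D) + 2, by linarith, ?_⟩
  intro V T m hV hLL hm
  set x : ℝ := Real.log V with hx
  set y : ℝ := Real.log (Real.log T) with hy
  have hx1 : 1 ≤ x := one_le_log3 hV
  have hV0 : 0 < V := by linarith
  have hlT0 : 0 < Real.log T := by
    by_contra hc
    push Not at hc
    rcases eq_or_lt_of_le hc with h | h
    · rw [hy, h, Real.log_zero] at hLL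
      linarith
    · -- the logarithm of T is negative, so m < 0
      have : (0 : ℝ) ≤ m := Nat.cast_nonneg _
      linarith
  have hVx : V = Real.exp x := (Real.exp_log hV0).symm
  have hTy : Real.log T = Real.exp y := (Real.exp_log hlT0).symm
  have hey : 1 ≤ Real.exp y := Real.one_le_exp (by linarith)
  have hex : 1 ≤ Real.exp x := Real.one_le_exp (by linarith)
  have hm0 : (0 : ℝ) ≤ m := Nat.cast_nonneg _
  have hmy : (m : ℝ) ≤ Real.exp y := by rw [← hTy]; exact hm
  have hxy : Real.exp (x + y) = Real.exp x * Real.exp y := Real.exp_add _ _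
  have hVxy : V ≤ Real.exp (x + y) := by
    rw [hxy, ← hVx]; exact le_mul_of_one_le_right hV0.le hey
  have hmxy : (m : ℝ) ≤ Real.exp (x + y) := by
    rw [hxy]
    exact le_trans hmy (le_mul_of_one_le_left (by linarith) hex)
  have hE1 : 1 ≤ Real.exp (x + y) := Real.one_le_exp (by linarith)
  have hV1 : V + 1 ≤ 2 * Real.exp (x + y) := by linarith
  have hDV : D * (V + 1) ≤ 2 * D * Real.exp (x + y) := by
    calc D * (V + 1) ≤ D * (2 * Real.exp (x + y)) := by gcongr
      _ = 2 * D * Real.exp (x + y) := by ring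
  have hyxy : Real.exp y ≤ Real.exp (x + y) := Real.exp_le_exp.mpr (by linarith)
  have h2xy : Real.exp (x + y) * Real.exp (x + y) = Real.exp (2 * (x + y)) := by
    rw [← Real.exp_add]; congr 1; ring
  have hE2 : Real.exp (x + y) ≤ Real.exp (2 * (x + y)) := Real.exp_le_exp.mpr (by linarith)
  have hgen : ∀ X : ℝ, 0 ≤ X → X ≤ 66 * D * Real.exp (2 * (x + y)) →
      Real.log X ≤ (Real.log (66 * D) + 2) * (x + y) := by
    intro X hX0 hX
    rcases eq_or_lt_of_le hX0 with h | h
    · rw [← h, Real.log_zero]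
      have : 0 ≤ x + y := by linarith
      positivity
    · have h1 := Real.log_le_log h hX
      rw [Real.log_mul (by positivity) (by positivity), Real.log_exp] at h1
      nlinarith
  constructor
  · apply hgen _ (by positivity)
    calc 8 * (D * (V + 1)) ≤ 8 * (2 * D * Real.exp (x + y)) := by gcongr
      _ ≤ 66 * D * Real.exp (x + y) := by
        have : 0 ≤ D * Real.exp (x + y) := by positivity
        linarith
      _ ≤ 66 * D * Real.exp (2 * (x + y)) := by gcongr
  · intro Lam B hLam hB hLam' hB'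
    apply hgen _ (by linarith)
    have h1 : 16 * (m : ℝ) * ((V + m) + D * (V + 1)) ≤
        16 * Real.exp (x + y) * (4 * D * Real.exp (x + y)) := by
      have h2 : (V + m) + D * (V + 1) ≤ 4 * D * Real.exp (x + y) := by
        have h3 : 2 * Real.exp (x + y) ≤ 2 * D * Real.exp (x + y) := by
          have : (2 : ℝ) ≤ 2 * D := by linarith
          gcongr
        linarith
      gcongr
    have h4 : 16 * Real.exp (x + y) * (4 * D * Real.exp (x + y)) =
        64 * D * Real.exp (2 * (x + y)) := by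
      rw [← h2xy]; ring
    have h5 : 2 * D * Real.exp (x + y) ≤ 2 * D * Real.exp (2 * (x + y)) := by gcongr
    linarith

end MP7ed9c3.NumE
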