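import Pool.Agent.Lib.MP_7ed9c3_nt.Tp.SpecT

/-!
# MP_7ed9c3_nt, part Tp, module NumTq: numbers
-/

set_option autoImplicit false

namespace MP7ed9c3.Tp

open NumberField IsDedekindDomain Filter Topology MeasureTheory Metric
open MP7ed9c3.Aw

theorem tNumTq : S_NumTq := by
  intro A c₁ N₀ hA hc0 hc1
  have hN₀ : (0 : ℝ) ≤ N₀ := Nat.cast_nonneg _
  have hee : (3 : ℝ) ≤ Real.exp (Real.exp 1) := by
    have h1 := Real.add_one_le_exp (1 : ℝ)
    have h2 := Real.add_one_le_exp (Real.exp 1)
    linarith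
  refine ⟨4 * A * (2 * (1 + N₀)), Real.exp (Real.exp 1), hee, ?_⟩
  intro V H N hV hH hN
  have hNR : (1 : ℝ) ≤ N := by exact_mod_cast hN
  have hVp : 0 < V := by linarith
  have hlogV : Real.exp 1 ≤ Real.log V := by
    rw [Real.le_log_iff_exp_le hVp]
    exact hV
  have he1 : (2 : ℝ) ≤ Real.exp 1 := by
    have h1 := Real.add_one_le_exp (1 : ℝ)
    linarith
  have hHp : (0 : ℝ) < H := by linarith
  have hVH : Real.log V ≤ Real.log H := Real.log_le_log hVp hH
  have hlHp : (0 : ℝ) < Real.log H := by linarith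
  have hllH : (1 : ℝ) ≤ Real.log (Real.log H) := by
    rw [Real.le_log_iff_exp_le hlHp]
    linarith
  have hl2 : Real.log 2 ≤ 1 := by
    have := Real.log_two_lt_d9
    linarith
  have hl20 : 0 ≤ Real.log 2 := Real.log_nonneg (by norm_num)
  have hl2V : Real.log (2 * V) = Real.log 2 + Real.log V :=
    Real.log_mul (by norm_num) (by linarith)
  have hlV0 : 0 ≤ Real.log V := by linarith
  have hll0 : 0 ≤ Real.log (Real.log H) := by linarith
  have hq : 0 ≤ quoT V H N := by
    unfold quoT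
    positivity
  have hM : (1 : ℝ) ≤ 2 * (1 + N₀) := by nlinarith
  constructor
  · intro hlt
    have h1 : Real.log H ≤ 2 * Real.log V := by
      have : Real.log H ≤ Real.log (2 * V) := Real.log_le_log hHp hlt.le
      rw [hl2V] at this
      linarith
    have h2 : 1 / 2 ≤ quoT V H N := by
      unfold quoT
      rw [le_div_iff₀ hlHp]
      have e1 : (1 : ℝ) ≤ N * Real.log (Real.log H) := by nlinarith
      have e2 : Real.log V ≤ Real.log V + Real.log (Real.log H) := by linarith
      calc 1 / 2 * Real.log H ≤ 1 * Real.log V := by linarith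
        _ ≤ (N * Real.log (Real.log H)) * (Real.log V + Real.log (Real.log H)) :=
            mul_le_mul e1 e2 hlV0 (by linarith)
    have h3 : (1 / 2 : ℝ) ≤ quoT V H N ^ c₁ := by
      calc (1 / 2 : ℝ) = (1 / 2 : ℝ) ^ (1 : ℝ) := (Real.rpow_one _).symm
        _ ≤ (1 / 2 : ℝ) ^ c₁ := Real.rpow_le_rpow_of_exponent_ge (by norm_num) (by norm_num) hc1
        _ ≤ quoT V H N ^ c₁ := Real.rpow_le_rpow (by norm_num) h2 hc0.le
    have h4 : (4 : ℝ) ≤ 4 * A * (2 * (1 + N₀)) := by nlinarith
    calc (2 : ℝ) = 4 * (1 / 2) := by norm_num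
      _ ≤ 4 * A * (2 * (1 + N₀)) * quoT V H N ^ c₁ :=
          mul_le_mul h4 h3 (by norm_num) (by linarith)
  · have h1 : quoT (2 * V) H (N + N₀) ≤ 2 * (1 + N₀) * quoT V H N := by
      unfold quoT
      rw [← mul_div_assoc]
      refine div_le_div_of_nonneg_right ?_ hlHp.le
      push_cast
      rw [hl2V]
      have e1 : (N : ℝ) + N₀ ≤ (1 + N₀) * N := by nlinarith
      have e2 : Real.log 2 + Real.log V + Real.log (Real.log H) ≤
          2 * (Real.log V + Real.log (Real.log H)) := by linarith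
      have e3 : 0 ≤ Real.log 2 + Real.log V + Real.log (Real.log H) := by linarith
      have e4 : ((N : ℝ) + N₀) * Real.log (Real.log H) ≤ (1 + N₀) * N * Real.log (Real.log H) :=
        mul_le_mul_of_nonneg_right e1 hll0
      calc ((N : ℝ) + N₀) * Real.log (Real.log H) *
            (Real.log 2 + Real.log V + Real.log (Real.log H))
          ≤ ((1 + N₀) * N * Real.log (Real.log H)) *
            (2 * (Real.log V + Real.log (Real.log H))) := mul_le_mul e4 e2 e3 (by positivity)
        _ = 2 * (1 + N₀) * (N * Real.log (Real.log H) *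
            (Real.log V + Real.log (Real.log H))) := by ring
    have hq2 : 0 ≤ quoT (2 * V) H (N + N₀) := by
      unfold quoT
      rw [hl2V]
      positivity
    have h2 : quoT (2 * V) H (N + N₀) ^ c₁ ≤ (2 * (1 + N₀)) * quoT V H N ^ c₁ := by
      calc quoT (2 * V) H (N + N₀) ^ c₁ ≤ (2 * (1 + N₀) * quoT V H N) ^ c₁ :=
            Real.rpow_le_rpow hq2 h1 hc0.le
        _ = (2 * (1 + N₀)) ^ c₁ * quoT V H N ^ c₁ :=
            Real.mul_rpow (by linarith) hq
        _ ≤ (2 * (1 + N₀)) * quoT V H N ^ c₁ := by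
            refine mul_le_mul_of_nonneg_right ?_ (Real.rpow_nonneg hq _)
            calc (2 * (1 + (N₀ : ℝ))) ^ c₁ ≤ (2 * (1 + (N₀ : ℝ))) ^ (1 : ℝ) :=
                  Real.rpow_le_rpow_of_exponent_le hM hc1
              _ = _ := Real.rpow_one _
    have h3 : 0 ≤ quoT V H N ^ c₁ := Real.rpow_nonneg hq _
    calc A * quoT (2 * V) H (N + N₀) ^ c₁ ≤ A * ((2 * (1 + N₀)) * quoT V H N ^ c₁) :=
          mul_le_mul_of_nonneg_left h2 (by linarith)
      _ ≤ 4 * (A * ((2 * (1 + N₀)) * quoT V H N ^ c₁)) := by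
          have : 0 ≤ A * ((2 * (1 + (N₀ : ℝ))) * quoT V H N ^ c₁) := by positivity
          linarith
      _ = 4 * A * (2 * (1 + N₀)) * quoT V H N ^ c₁ := by ring

end MP7ed9c3.Tp
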