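import Mathlib

/-!
# MP_7ed9c3_nt, part Tp: the numbers for DetX (helper77)

One constant `K`; `df = C₁ Lg / m1`, `κ = 1/(10 K LL)`, `2/df ≤ 2^Sf ≤ 4/df`; the condition on `m1` is
`C0 N Lg ≤ m1` (no factor `loglog T`).
-/

set_option autoImplicit false

namespace MP7ed9c3.NumX

open Real

def S_NumX : Prop := ∀ K : ℝ, 1 ≤ K → ∃ C0 : ℝ, 1 ≤ C0 ∧
  ∀ (LL Lg m1 : ℝ) (N : ℕ), 1 ≤ LL → LL ≤ Lg → 1 ≤ N → 1 ≤ m1 → Real.log m1 ≤ LL →
    C0 * (N * Lg) ≤ m1 →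
    ∃ (df κ : ℝ) (Sf : ℕ), 0 < df ∧ df ≤ 1 ∧ 2 ≤ 2 ^ Sf * df ∧ 2 ^ Sf * df ≤ 4 ∧
      0 < κ ∧ κ * (K * (Sf + 8)) ≤ 1 ∧ K * N * df ≤ 1 ∧
      ∀ m : ℕ, m1 ≤ m → K * Lg ≤ m * df ∧ K * (Sf + 8) ≤ m * df ∧ K * N ≤ κ * m

theorem tNumX : S_NumX := by
  intro K hK
  have hK0 : 0 < K := by linarith
  have hK2 : 1 ≤ K ^ 2 := by nlinarith
  refine ⟨10 * K ^ 2 * (10 * K + 4), by nlinarith [sq_nonneg K], ?_⟩
  intro ℓ L m₁ N hℓ1 hL hN hm1 hlog hNL
  set C₁ : ℝ := 10 * K + 4 with hC₁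
  have hC₁0 : 0 < C₁ := by positivity
  have hC₁4 : 4 ≤ C₁ := by linarith
  have hm0 : (0 : ℝ) < m₁ := by linarith
  have hNR : (1 : ℝ) ≤ N := by exact_mod_cast hN
  have hL1 : 1 ≤ L := le_trans hℓ1 hL
  have hℓ0 : 0 < ℓ := by linarith
  have hL0 : 0 < L := by linarith
  have hNL1 : L ≤ N * L := le_mul_of_one_le_left hL0.le hNR
  have hNL0 : 0 < (N : ℝ) * L := by positivity
  have hbig : C₁ * L ≤ m₁ := by
    have h1 : C₁ * L ≤ C₁ * (N * L) := mul_le_mul_of_nonneg_left hNL1 hC₁0.le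
    have h2 : C₁ * (N * L) ≤ 10 * K ^ 2 * (C₁ * (N * L)) :=
      le_mul_of_one_le_left (by positivity) (by linarith)
    linarith
  set df : ℝ := C₁ * L / m₁ with hdf
  have hdf0 : 0 < df := by positivity
  have hdf1 : df ≤ 1 := by rw [hdf, div_le_one hm0]; exact hbig
  have hmdf : m₁ * df = C₁ * L := by rw [hdf]; field_simp
  have hex : ∃ n : ℕ, 2 / df ≤ (2 : ℝ) ^ n := by
    obtain ⟨n, hn⟩ := pow_unbounded_of_one_lt (2 / df) (by norm_num : (1 : ℝ) < 2)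
    exact ⟨n, hn.le⟩
  classical
  obtain ⟨Sf, hSf1, hSf2⟩ : ∃ Sf : ℕ, 2 / df ≤ (2 : ℝ) ^ Sf ∧ (2 : ℝ) ^ Sf ≤ 4 / df := by
    refine ⟨Nat.find hex, Nat.find_spec hex, ?_⟩
    have hpos : Nat.find hex ≠ 0 := by
      intro h0
      have := Nat.find_spec hex
      rw [h0, pow_zero, div_le_one hdf0] at this
      linarith
    obtain ⟨n, hn⟩ := Nat.exists_eq_succ_of_ne_zero hpos
    have hlt : ¬ (2 / df ≤ (2 : ℝ) ^ n) := Nat.find_min hex (by omega)
    push Not at hlt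
    rw [hn, Nat.succ_eq_add_one, pow_succ]
    have h4 : 4 / df = 2 / df * 2 := by ring
    rw [h4]
    linarith
  have hSfm : (2 : ℝ) ^ Sf ≤ m₁ := by
    refine le_trans hSf2 ?_
    rw [div_le_iff₀ hdf0, hmdf]
    nlinarith
  have hSfℓ : (Sf : ℝ) ≤ 2 * ℓ := by
    have h1 : Real.log ((2 : ℝ) ^ Sf) ≤ ℓ :=
      le_trans (Real.log_le_log (by positivity) hSfm) hlog
    rw [Real.log_pow] at h1
    have h2 := Real.log_two_gt_d9
    have h3 : (0 : ℝ) ≤ Sf := Nat.cast_nonneg _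
    nlinarith
  have hS8 : (Sf : ℝ) + 8 ≤ 10 * ℓ := by linarith
  set κ : ℝ := 1 / (10 * K * ℓ) with hκ
  have hκ0 : 0 < κ := by positivity
  have hκℓ : κ * (10 * K * ℓ) = 1 := by rw [hκ]; field_simp
  refine ⟨df, κ, Sf, hdf0, hdf1, ?_, ?_, hκ0, ?_, ?_, ?_⟩
  · rwa [div_le_iff₀ hdf0] at hSf1
  · rwa [le_div_iff₀ hdf0] at hSf2
  · calc κ * (K * (Sf + 8)) ≤ κ * (K * (10 * ℓ)) := by gcongr
      _ = κ * (10 * K * ℓ) := by ring
      _ = 1 := hκℓ
      _ ≤ 1 := le_refl _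
  · have h1 : K * N * df * m₁ ≤ 1 * m₁ := by
      have h2 : K * N * df * m₁ = K * (C₁ * (N * L)) := by
        calc K * N * df * m₁ = K * N * (m₁ * df) := by ring
          _ = K * N * (C₁ * L) := by rw [hmdf]
          _ = _ := by ring
      rw [h2, one_mul]
      have h3 : K * (C₁ * (N * L)) ≤ 10 * K ^ 2 * (C₁ * (N * L)) := by
        have h4 : K ≤ 10 * K ^ 2 := by nlinarith
        have h5 : 0 ≤ C₁ * ((N : ℝ) * L) := by positivity
        exact mul_le_mul_of_nonneg_right h4 h5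
      linarith
    exact le_of_mul_le_mul_right h1 hm0
  · intro m hm
    have hmm : C₁ * L ≤ m * df := by
      rw [← hmdf]
      exact mul_le_mul_of_nonneg_right hm hdf0.le
    refine ⟨?_, ?_, ?_⟩
    · have h1 : K * L ≤ C₁ * L := by
        apply mul_le_mul_of_nonneg_right _ hL0.le
        rw [hC₁]; linarith
      linarith
    · have h1 : K * (Sf + 8) ≤ K * (10 * L) := by
        apply mul_le_mul_of_nonneg_left _ hK0.le
        linarith
      have h2 : K * (10 * L) ≤ C₁ * L := by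
        rw [hC₁]
        nlinarith
      linarith
    · have h2 : K * N * (10 * K * ℓ) ≤ m₁ := by
        have h3 : K * N * (10 * K * ℓ) = 10 * K ^ 2 * (N * ℓ) := by ring
        rw [h3]
        have h5 : 10 * K ^ 2 * ((N : ℝ) * ℓ) ≤ 10 * K ^ 2 * (N * L) := by gcongr
        have h6 : 10 * K ^ 2 * ((N : ℝ) * L) ≤ C₁ * (10 * K ^ 2 * (N * L)) :=
          le_mul_of_one_le_left (by positivity) (by linarith)
        linarith
      have h3 : K * N ≤ κ * m₁ := by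
        have h4 : K * N = κ * (K * N * (10 * K * ℓ)) := by
          calc K * N = K * N * 1 := by ring
            _ = K * N * (κ * (10 * K * ℓ)) := by rw [hκℓ]
            _ = _ := by ring
        rw [h4]
        exact mul_le_mul_of_nonneg_left h2 hκ0.le
      exact le_trans h3 (mul_le_mul_of_nonneg_left hm hκ0.le)

end MP7ed9c3.NumX
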