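import Pool.Agent.Lib.MP_7ed9c3_nt.Tp.SpecY

/-!
# MP_7ed9c3_nt, part Tp, module NumY: numbers
-/

set_option autoImplicit false

namespace MP7ed9c3.Tp

open NumberField IsDedekindDomain Filter Topology MeasureTheory Metric
open MP7ed9c3.Aw

theorem tNumY : S_NumY := by
  intro A c₁ N₀ hA hc0 hc1
  have hN₀ : (0 : ℝ) ≤ N₀ := Nat.cast_nonneg _
  refine ⟨4 * A * ((1 + N₀) * (2 + N₀)), 3, le_rfl, ?_⟩
  intro V H N hV hH hN
  have hNR : (1 : ℝ) ≤ N := by exact_mod_cast hN
  have hlog3 : (1 : ℝ) ≤ Real.log V := by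
    rw [Real.le_log_iff_exp_le (by linarith)]
    have := Real.exp_one_lt_d9
    linarith
  have hHp : (0 : ℝ) < H := by linarith
  have hVH : Real.log V ≤ Real.log H := Real.log_le_log (by linarith) hH
  have hlH : (1 : ℝ) ≤ Real.log H := hlog3.trans hVH
  have hllH : (0 : ℝ) ≤ Real.log (Real.log H) := Real.log_nonneg hlH
  have hlHp : (0 : ℝ) < Real.log H := by linarith
  have hl2 : Real.log 2 ≤ 1 := by
    have := Real.log_two_lt_d9
    linarith
  have hl20 : 0 ≤ Real.log 2 := Real.log_nonneg (by norm_num)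
  have hl2V : Real.log (2 * V) = Real.log 2 + Real.log V :=
    Real.log_mul (by norm_num) (by linarith)
  have hq : 0 ≤ quoY V H N := by
    unfold quoY
    positivity
  have hM : (1 : ℝ) ≤ (1 + N₀) * (2 + N₀) := by nlinarith
  constructor
  · intro hlt
    have h1 : Real.log H ≤ 2 * Real.log V := by
      have : Real.log H ≤ Real.log (2 * V) := Real.log_le_log hHp hlt.le
      rw [hl2V] at this
      linarith
    have h2 : 1 / 2 ≤ quoY V H N := by
      unfold quoY
      rw [le_div_iff₀ hlHp]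
      nlinarith
    have h3 : (1 / 2 : ℝ) ≤ quoY V H N ^ c₁ := by
      calc (1 / 2 : ℝ) = (1 / 2 : ℝ) ^ (1 : ℝ) := (Real.rpow_one _).symm
        _ ≤ (1 / 2 : ℝ) ^ c₁ := Real.rpow_le_rpow_of_exponent_ge (by norm_num) (by norm_num) hc1
        _ ≤ quoY V H N ^ c₁ := Real.rpow_le_rpow (by norm_num) h2 hc0.le
    have h4 : (4 : ℝ) ≤ 4 * A * ((1 + N₀) * (2 + N₀)) := by nlinarith
    calc (2 : ℝ) = 4 * (1 / 2) := by norm_num
      _ ≤ 4 * A * ((1 + N₀) * (2 + N₀)) * quoY V H N ^ c₁ :=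
          mul_le_mul h4 h3 (by norm_num) (by linarith)
  · have h1 : quoY (2 * V) H (N + N₀) ≤ (1 + N₀) * (2 + N₀) * quoY V H N := by
      unfold quoY
      rw [← mul_div_assoc]
      refine div_le_div_of_nonneg_right ?_ hlHp.le
      push_cast
      rw [hl2V]
      have e1 : (N : ℝ) + N₀ ≤ (1 + N₀) * N := by nlinarith
      have e2 : (N : ℝ) + N₀ + (Real.log 2 + Real.log V) + Real.log (Real.log H) ≤
          (2 + N₀) * (N + Real.log V + Real.log (Real.log H)) := by
        have e3 : 0 ≤ (1 + (N₀ : ℝ)) * Real.log V := by positivity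
        have e4 : 0 ≤ (1 + (N₀ : ℝ)) * Real.log (Real.log H) := by positivity
        nlinarith
      have e5 : 0 ≤ (N : ℝ) + N₀ + (Real.log 2 + Real.log V) + Real.log (Real.log H) := by
        linarith
      calc ((N : ℝ) + N₀) * ((N : ℝ) + N₀ + (Real.log 2 + Real.log V) + Real.log (Real.log H))
          ≤ ((1 + N₀) * N) * ((2 + N₀) * (N + Real.log V + Real.log (Real.log H))) :=
            mul_le_mul e1 e2 e5 (by positivity)
        _ = (1 + N₀) * (2 + N₀) * (N * (N + Real.log V + Real.log (Real.log H))) := by ring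
    have hq2 : 0 ≤ quoY (2 * V) H (N + N₀) := by
      unfold quoY
      rw [hl2V]
      positivity
    have h2 : quoY (2 * V) H (N + N₀) ^ c₁ ≤ ((1 + N₀) * (2 + N₀)) * quoY V H N ^ c₁ := by
      calc quoY (2 * V) H (N + N₀) ^ c₁ ≤ ((1 + N₀) * (2 + N₀) * quoY V H N) ^ c₁ :=
            Real.rpow_le_rpow hq2 h1 hc0.le
        _ = ((1 + N₀) * (2 + N₀)) ^ c₁ * quoY V H N ^ c₁ :=
            Real.mul_rpow (by linarith) hq
        _ ≤ ((1 + N₀) * (2 + N₀)) * quoY V H N ^ c₁ := by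
            refine mul_le_mul_of_nonneg_right ?_ (Real.rpow_nonneg hq _)
            calc ((1 + (N₀ : ℝ)) * (2 + N₀)) ^ c₁ ≤ ((1 + (N₀ : ℝ)) * (2 + N₀)) ^ (1 : ℝ) :=
                  Real.rpow_le_rpow_of_exponent_le hM hc1
              _ = _ := Real.rpow_one _
    have h3 : 0 ≤ quoY V H N ^ c₁ := Real.rpow_nonneg hq _
    calc A * quoY (2 * V) H (N + N₀) ^ c₁ ≤ A * (((1 + N₀) * (2 + N₀)) * quoY V H N ^ c₁) :=
          mul_le_mul_of_nonneg_left h2 (by linarith)
      _ ≤ 4 * (A * (((1 + N₀) * (2 + N₀)) * quoY V H N ^ c₁)) := by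
          have : 0 ≤ A * (((1 + (N₀ : ℝ)) * (2 + N₀)) * quoY V H N ^ c₁) := by positivity
          linarith
      _ = 4 * A * ((1 + N₀) * (2 + N₀)) * quoY V H N ^ c₁ := by ring

end MP7ed9c3.Tp
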