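import Pool.Agent.Lib.MP_7ed9c3_nt.Aw.SpecX
import Pool.Agent.Lib.MP_7ed9c3_nt.Aw.AllU

/-!
# MP_7ed9c3_nt, part Tp: from `G = F P` to `F`, different zeros, outside a set of measure `ε H`

`CoreF h f`: for every `ε > 0` outside a set of measure `ε T` the window of half height `h` at `t` contains at least
`c₀ f(V, T)` different zeros of `G`, if `T ≥ V^κ`.  Theorem `finF`: the same for `F`, every elliptic curve with at most `V`
bad primes, if `GoodF f`.  `goodF1`, `goodF2`: `f = log T/(log V + (loglog T)²)` and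
`f = min (log T)^(1/2) (log T/(log V + loglog T))`.
-/

set_option autoImplicit false

namespace MP7ed9c3.Tp

open NumberField IsDedekindDomain Filter Topology MeasureTheory Metric
open MP7ed9c3.Aw

/-- The core: `c₀ f(V, T)` different zeros in almost every window. -/
def CoreF (h : ℝ) (f : ℝ → ℝ → ℝ) : Prop :=
  ∀ (C b : ℝ) (k : ℕ), 0 ≤ C → b ≤ 1 →
    ∀ σ₁ ε : ℝ, 1 / 2 ≤ σ₁ → σ₁ < b → 0 < ε → ∃ x : ℝ, 1 / 2 < x ∧ x < b ∧
      ∀ η B : ℝ, 0 < η → 1 ≤ B → ∃ c₀ κ V₀ : ℝ, 0 < c₀ ∧ 1 ≤ κ ∧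
      ∀ V T t₀ : ℝ, V₀ ≤ V → V ^ κ ≤ T →
      ∀ c : ℕ → ℂ, Coefs c C → LowU c k x η B (V ^ 2) →
      ∀ G : ℂ → ℂ, DifferentiableOn ℂ G (win σ₁ T t₀) →
        (∀ s ∈ win σ₁ T t₀, ‖G s‖ ≤ Real.exp V) →
        (∀ s ∈ win σ₁ T t₀, 3 ≤ s.re → G s = Complex.exp (Aw.dir c s)) →
        volume {t : ℝ | |t - t₀| < T ∧ ¬ ∃ Y : Finset ℂ, c₀ * f V T ≤ (Y.card : ℝ) ∧
          ∀ ρ ∈ Y, ρ ∈ win σ₁ h t ∧ ρ ∈ win σ₁ T t₀ ∧ G ρ = 0} ≤ ENNReal.ofReal (ε * T)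

/-- The conclusion. -/
def WindowsF (h : ℝ) (f : ℝ → ℝ → ℝ) (K : Type) [Field K] [NumberField K]
    (𝓔 : ℝ → (HeightOneSpectrum (𝓞 K) → WeierstrassCurve (𝓞 K)) → Prop) (b : ℝ) : Prop :=
  ∀ σ₁ ε : ℝ, σ₁ < b → 0 < ε → ∃ c κ V₀ : ℝ, 0 < c ∧ ∀ V H t₀ : ℝ, V₀ ≤ V → V ^ κ ≤ H →
      ∀ M : HeightOneSpectrum (𝓞 K) → WeierstrassCurve (𝓞 K), 𝓔 V M →
      ∀ F : ℂ → ℂ, DifferentiableOn ℂ F {s : ℂ | σ₁ < s.re ∧ |s.im - t₀| < H} →
        (∀ s : ℂ, σ₁ < s.re → |s.im - t₀| < H → ‖F s‖ ≤ Real.exp V) →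
        (∀ s : ℂ, 3 / 2 < s.re → |s.im - t₀| < H →
          F s = ∏' v : HeightOneSpectrum (𝓞 K), (locDen (M v) v s)⁻¹) →
        volume {t : ℝ | |t - t₀| < H ∧ ¬ ∃ Y : Finset ℂ, c * f V H ≤ (Y.card : ℝ) ∧ ∀ ρ ∈ Y,
            σ₁ < ρ.re ∧ |ρ.im - t| < h ∧ |ρ.im - t₀| < H ∧ F ρ = 0} ≤
          ENNReal.ofReal (ε * H)

/-- `f` is large if `H ≥ V^κ`, and doubling `V` does not change it much. -/
def GoodF (f : ℝ → ℝ → ℝ) : Prop :=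
  ∀ X : ℝ, ∃ κ V₀ : ℝ, 1 ≤ κ ∧ 2 ≤ V₀ ∧ ∀ V H : ℝ, V₀ ≤ V → V ^ κ ≤ H →
    X ≤ f V H ∧ f V H ≤ 2 * f (2 * V) H

private theorem RedF_card (Y : Finset ℂ) (P : ℂ → Prop) [DecidablePred P] (N₀ : ℕ)
    (hP : (Y.filter P).card ≤ N₀) :
    (Y.card : ℝ) - N₀ ≤ ((Y.filter fun a => ¬ P a).card : ℝ) := by
  have h1 := Finset.card_filter_add_card_filter_not (s := Y) P
  have h2 : Y.card ≤ N₀ + (Y.filter fun a => ¬ P a).card := by omega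
  have h3 : (Y.card : ℝ) ≤ N₀ + ((Y.filter fun a => ¬ P a).card : ℝ) := by exact_mod_cast h2
  linarith

theorem redF (h : ℝ) (hh : 0 < h) (f : ℝ → ℝ → ℝ) (hf : GoodF f) (h1 : CoreF h f)
    (K : Type) [Field K] [NumberField K]
    (𝓔 : ℝ → (HeightOneSpectrum (𝓞 K) → WeierstrassCurve (𝓞 K)) → Prop) (b : ℝ)
    (hb : 1 / 2 < b) (hb1 : b ≤ 1) (hD : DataG K 𝓔 b) : WindowsF h f K 𝓔 b := by
  classical
  intro σ₁ ε hσ hε
  obtain ⟨C, k, N₀, hC, hD⟩ := hD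
  set σ : ℝ := max σ₁ (1 / 2) with hσdef
  have hσ1 : σ₁ ≤ σ := le_max_left _ _
  have hσ2 : 1 / 2 ≤ σ := le_max_right _ _
  have hσb : σ < b := max_lt hσ hb
  obtain ⟨x, hx1, hx2, hcore⟩ := h1 C b k hC hb1 σ ε hσ2 hσb hε
  obtain ⟨η, B, V₁, hη, hB, hDV⟩ := hD x hx1 hx2
  obtain ⟨c₀, κ₀, V₀, hc₀, hκ₀, hcore⟩ := hcore η B hη hB
  obtain ⟨κ₁, V₂, hκ₁, hV₂, hnum⟩ := hf (4 * N₀ h / c₀)
  refine ⟨c₀ / 4, max κ₁ (2 * κ₀), max (max V₀ V₁) V₂, by linarith, ?_⟩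
  intro V H t₀ hV hH M hM F hFd hFb hFe
  have v0 : V₀ ≤ V := (le_max_left _ _).trans ((le_max_left _ _).trans hV)
  have v1 : V₁ ≤ V := (le_max_right _ _).trans ((le_max_left _ _).trans hV)
  have v2 : V₂ ≤ V := (le_max_right _ _).trans hV
  have vp : 2 ≤ V := hV₂.trans v2
  have hHp : 0 < H := lt_of_lt_of_le (Real.rpow_pos_of_pos (by linarith) _) hH
  have hH1 : V ^ κ₁ ≤ H :=
    (Real.rpow_le_rpow_of_exponent_le (by linarith) (le_max_left _ _)).trans hH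
  have hH2 : (2 * V) ^ κ₀ ≤ H := by
    calc (2 * V) ^ κ₀ ≤ (V ^ (2 : ℝ)) ^ κ₀ := by
          refine Real.rpow_le_rpow (by linarith) ?_ (by linarith)
          rw [Real.rpow_two]
          nlinarith
      _ = V ^ (2 * κ₀) := by rw [← Real.rpow_mul (by linarith)]
      _ ≤ V ^ (max κ₁ (2 * κ₀)) :=
          Real.rpow_le_rpow_of_exponent_le (by linarith) (le_max_right _ _)
      _ ≤ H := hH
  obtain ⟨n1, n2⟩ := hnum V H v2 hH1
  have n3 : c₀ / 4 * f V H ≤ c₀ * f (2 * V) H - N₀ h := by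
    have e1 : (N₀ h : ℝ) ≤ c₀ / 4 * f V H := by
      rw [div_le_iff₀ hc₀] at n1
      linarith
    have e2 : c₀ * f V H ≤ c₀ * (2 * f (2 * V) H) := mul_le_mul_of_nonneg_left n2 hc₀.le
    linarith
  have a3 : V ^ 2 ≤ (2 * V) ^ 2 := by nlinarith
  have a4 : V ≤ 2 * V := by linarith
  obtain ⟨P, c', hc', hLow, hPd, hPB, hPZ, hexp⟩ := hDV V v1 M hM
  have hwin : ∀ s ∈ win σ H t₀, σ₁ < s.re ∧ |s.im - t₀| < H := by
    intro s hs
    exact ⟨lt_of_le_of_lt hσ1 hs.1, hs.2⟩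
  have hre : ∀ s ∈ win σ H t₀, 1 / 2 ≤ s.re := by
    intro s hs
    have h0 : σ < s.re := hs.1
    linarith
  -- the function without the finitely many Euler factors
  set G : ℂ → ℂ := fun s => P s * F s with hG
  have hGd : DifferentiableOn ℂ G (win σ H t₀) :=
    hPd.differentiableOn.mul (hFd.mono fun s hs => hwin s hs)
  have hGb : ∀ s ∈ win σ H t₀, ‖G s‖ ≤ Real.exp (2 * V) := by
    intro s hs
    have b1 := hPB s (hre s hs)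
    have b2 := hFb s (hwin s hs).1 (hwin s hs).2
    calc ‖G s‖ = ‖P s‖ * ‖F s‖ := norm_mul _ _
      _ ≤ Real.exp V * Real.exp V := mul_le_mul b1 b2 (norm_nonneg _) (Real.exp_pos _).le
      _ = Real.exp (2 * V) := by rw [← Real.exp_add]; ring_nf
  have hGe : ∀ s ∈ win σ H t₀, 3 ≤ s.re → G s = Complex.exp (Aw.dir c' s) := by
    intro s hs h3
    rw [← hexp s h3, hG]
    simp only
    rw [hFe s (by linarith) (hwin s hs).2]
  have hLU : LowU c' k x η B ((2 * V) ^ 2) := fun Y hY => hLow Y (a3.trans hY)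
  have k1 := hcore (2 * V) H t₀ (v0.trans a4) hH2 c' hc' hLU G hGd hGb hGe
  refine le_trans (measure_mono ?_) k1
  rintro t ⟨ht1, ht2⟩
  refine ⟨ht1, fun hY => ht2 ?_⟩
  obtain ⟨Y, hYc, hYp⟩ := hY
  have hfew : (Y.filter fun ρ => P ρ = 0).card ≤ N₀ h := by
    refine hPZ h t _ hh fun ρ hρ => ?_
    rw [Finset.mem_filter] at hρ
    exact ⟨hre ρ (hYp ρ hρ.1).2.1, (hYp ρ hρ.1).1.2, hρ.2⟩
  refine ⟨Y.filter fun ρ => ¬ P ρ = 0, ?_, fun ρ hρ => ?_⟩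
  · have := RedF_card Y (fun ρ => P ρ = 0) (N₀ h) hfew
    linarith
  · rw [Finset.mem_filter] at hρ
    obtain ⟨m1, m2⟩ := hρ
    obtain ⟨q1, q2, q3⟩ := hYp ρ m1
    refine ⟨lt_of_le_of_lt hσ1 q1.1, q1.2, q2.2, ?_⟩
    have q4 : P ρ * F ρ = 0 := q3
    exact (mul_eq_zero.mp q4).resolve_left m2

/-- **The uniform theorem**, from the core. -/
theorem finF (h : ℝ) (hh : 0 < h) (f : ℝ → ℝ → ℝ) (hf : GoodF f) (h5 : CoreF h f)
    (K : Type) [Field K] [NumberField K] :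
    WindowsF h f K (FewBad K) (1 / 2 + 1 / (4 * (Module.finrank ℚ K : ℝ))) ∧
    ∀ (N : Type) [Field N] [NumberField N] [IsGalois ℚ N] (g : N ≃ₐ[ℚ] N) (k : ℕ),
      Nonempty (K →ₐ[ℚ] N) → Zg.Adm (Zg.perm (K := K) g) k →
      WindowsF h f K (FewBad K) (1 / 2 + 1 / (2 * (k : ℝ))) := by
  have hn : (1 : ℝ) ≤ Module.finrank ℚ K := by
    exact_mod_cast (Module.finrank_pos : 0 < Module.finrank ℚ K)
  refine ⟨redF h hh f hf h5 K _ _ ?_ ?_ (uData2 uMany2All uLow uDataAll K),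
    fun N _ _ _ g k hne hA => ?_⟩
  · have : 0 < 1 / (4 * (Module.finrank ℚ K : ℝ)) := by positivity
    linarith
  · have : 1 / (4 * (Module.finrank ℚ K : ℝ)) ≤ 1 / 2 :=
      one_div_le_one_div_of_le (by norm_num) (by linarith)
    linarith
  · have hk : 1 ≤ k := by
      obtain ⟨j, hj1, hj2, -⟩ := hA (fun _ => 0) (fun _ => rfl)
      omega
    have hkR : (1 : ℝ) ≤ k := by exact_mod_cast hk
    refine redF h hh f hf h5 K _ _ ?_ ?_ (uData1 uMany1All uLow uDataAll K N g k hne hA)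
    · have : 0 < 1 / (2 * (k : ℝ)) := by positivity
      linarith
    · have : 1 / (2 * (k : ℝ)) ≤ 1 / 2 :=
        one_div_le_one_div_of_le (by norm_num) (by linarith)
      linarith

end MP7ed9c3.Tp
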