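import Pool.Agent.Lib.MP_7ed9c3_nt.Tp.SpecB
import Pool.Agent.Lib.MP_7ed9c3_nt.Aw.AllU

/-!
# MP_7ed9c3_nt, part Tp: from `G = F P` to `F`, different zeros, for an arbitrary quantity `quo`
-/

set_option autoImplicit false

namespace MP7ed9c3.Tp

open NumberField IsDedekindDomain Filter Topology MeasureTheory Metric
open MP7ed9c3.Aw

/-- The conclusion. -/
def WindowsZ (h : ℝ) (quo : ℝ → ℝ → ℕ → ℝ) (K : Type) [Field K] [NumberField K]
    (𝓔 : ℝ → (HeightOneSpectrum (𝓞 K) → WeierstrassCurve (𝓞 K)) → Prop) (b : ℝ) : Prop :=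
  ∀ σ₁ : ℝ, σ₁ < b → ∃ C c V₀ : ℝ, 0 < c ∧ ∀ V H t₀ : ℝ, V₀ ≤ V → V ≤ H →
      ∀ M : HeightOneSpectrum (𝓞 K) → WeierstrassCurve (𝓞 K), 𝓔 V M →
      ∀ F : ℂ → ℂ, DifferentiableOn ℂ F {s : ℂ | σ₁ < s.re ∧ |s.im - t₀| < H} →
        (∀ s : ℂ, σ₁ < s.re → |s.im - t₀| < H → ‖F s‖ ≤ Real.exp V) →
        (∀ s : ℂ, 3 / 2 < s.re → |s.im - t₀| < H →
          F s = ∏' v : HeightOneSpectrum (𝓞 K), (locDen (M v) v s)⁻¹) →
        ∀ N : ℕ, 1 ≤ N →
        volume {t : ℝ | |t - t₀| < H ∧ ¬ ∃ Y : Finset ℂ, Y.card = N ∧ ∀ ρ ∈ Y,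
            σ₁ < ρ.re ∧ |ρ.im - t| < h ∧ |ρ.im - t₀| < H ∧ F ρ = 0} ≤
          ENNReal.ofReal (C * (quo V H N / Real.log H) ^ c * H)

/-- The quantity does not change much with `V` and `N`. -/
def GoodZ (quo : ℝ → ℝ → ℕ → ℝ) : Prop :=
  ∀ N₀ : ℕ, ∃ B V₀ : ℝ, 1 ≤ B ∧ 3 ≤ V₀ ∧ ∀ (V H : ℝ) (N : ℕ), V₀ ≤ V → V ≤ H → 1 ≤ N →
    0 ≤ quo V H N ∧ 0 ≤ quo (2 * V) H (N + N₀) ∧
      (H < 2 * V → Real.log H ≤ 2 * quo V H N) ∧ quo (2 * V) H (N + N₀) ≤ B * quo V H N

/-- removing few elements of a finite set of zeros -/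
private theorem RedZ_card (Y : Finset ℂ) (P : ℂ → Prop) [DecidablePred P] (N N₀ : ℕ)
    (hY : Y.card = N + N₀) (hP : (Y.filter P).card ≤ N₀) :
    N ≤ (Y.filter fun a => ¬ P a).card := by
  have h1 := Finset.card_filter_add_card_filter_not (s := Y) P
  omega

/-- the trivial bound -/
private theorem RedZ_triv (t₀ H : ℝ) (Q : ℝ → Prop) :
    volume {t : ℝ | |t - t₀| < H ∧ Q t} ≤ ENNReal.ofReal (2 * H) := by
  have e : {t : ℝ | |t - t₀| < H ∧ Q t} ⊆ Set.Ioo (t₀ - H) (t₀ + H) := by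
    rintro t ⟨ht, _⟩
    rw [abs_lt] at ht
    exact ⟨by linarith [ht.1], by linarith [ht.2]⟩
  refine (measure_mono e).trans ?_
  rw [Real.volume_Ioo]
  exact ENNReal.ofReal_le_ofReal (by linarith)

theorem redZ (h : ℝ) (hh : 0 < h) (quo : ℝ → ℝ → ℕ → ℝ) (hquo : GoodZ quo) (h1 : CoreZ h quo)
    (K : Type) [Field K] [NumberField K]
    (𝓔 : ℝ → (HeightOneSpectrum (𝓞 K) → WeierstrassCurve (𝓞 K)) → Prop) (b : ℝ)
    (hb : 1 / 2 < b) (hb1 : b ≤ 1) (hD : DataG K 𝓔 b) : WindowsZ h quo K 𝓔 b := by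
  classical
  intro σ₁ hσ
  obtain ⟨C, k, N₀, hC, hD⟩ := hD
  set σ : ℝ := max σ₁ (1 / 2) with hσdef
  have hσ1 : σ₁ ≤ σ := le_max_left _ _
  have hσ2 : 1 / 2 ≤ σ := le_max_right _ _
  have hσb : σ < b := max_lt hσ hb
  obtain ⟨x, hx1, hx2, hcore⟩ := h1 C b k hC hb1 σ hσ2 hσb
  obtain ⟨η, B, V₁, hη, hB, hDV⟩ := hD x hx1 hx2
  obtain ⟨A, c₁, V₀, hA, hc₁, hc₁1, hcore⟩ := hcore η B hη hB
  obtain ⟨B', V₂, hB', hV₂, hnum⟩ := hquo (N₀ h)
  refine ⟨4 * A * B', c₁, max (max V₀ V₁) V₂, hc₁, ?_⟩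
  intro V H t₀ hV hH M hM F hFd hFb hFe N hN
  have v0 : V₀ ≤ V := (le_max_left _ _).trans ((le_max_left _ _).trans hV)
  have v1 : V₁ ≤ V := (le_max_right _ _).trans ((le_max_left _ _).trans hV)
  have v2 : V₂ ≤ V := (le_max_right _ _).trans hV
  have vp : 3 ≤ V := hV₂.trans v2
  have hHp : 0 < H := by linarith
  have hlH : 0 < Real.log H := Real.log_pos (by linarith)
  obtain ⟨g0, g1, g2, g3⟩ := hnum V H N v2 hH hN
  have hq0 : 0 ≤ quo V H N / Real.log H := div_nonneg g0 hlH.le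
  have hAB : 0 ≤ A * B' := mul_nonneg (by linarith) (by linarith)
  rcases lt_or_ge H (2 * V) with hlt | hge
  · -- a short box
    refine (RedZ_triv t₀ H _).trans (ENNReal.ofReal_le_ofReal ?_)
    refine mul_le_mul_of_nonneg_right ?_ hHp.le
    have h2 : 1 / 2 ≤ quo V H N / Real.log H := by
      rw [le_div_iff₀ hlH]
      linarith [g2 hlt]
    have h3 : (1 / 2 : ℝ) ≤ (quo V H N / Real.log H) ^ c₁ := by
      calc (1 / 2 : ℝ) = (1 / 2 : ℝ) ^ (1 : ℝ) := (Real.rpow_one _).symm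
        _ ≤ (1 / 2 : ℝ) ^ c₁ :=
            Real.rpow_le_rpow_of_exponent_ge (by norm_num) (by norm_num) hc₁1
        _ ≤ (quo V H N / Real.log H) ^ c₁ := Real.rpow_le_rpow (by norm_num) h2 hc₁.le
    have h4 : (4 : ℝ) ≤ 4 * A * B' := by nlinarith
    calc (2 : ℝ) = 4 * (1 / 2) := by norm_num
      _ ≤ 4 * A * B' * (quo V H N / Real.log H) ^ c₁ :=
          mul_le_mul h4 h3 (by norm_num) (by linarith)
  · have a3 : V ^ 2 ≤ (2 * V) ^ 2 := by nlinarith
    have a4 : V ≤ 2 * V := by linarith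
    have n2 : A * (quo (2 * V) H (N + N₀ h) / Real.log H) ^ c₁ ≤
        4 * A * B' * (quo V H N / Real.log H) ^ c₁ := by
      have e1 : quo (2 * V) H (N + N₀ h) / Real.log H ≤ B' * (quo V H N / Real.log H) := by
        rw [← mul_div_assoc]
        exact div_le_div_of_nonneg_right g3 hlH.le
      have e2 : (quo (2 * V) H (N + N₀ h) / Real.log H) ^ c₁ ≤
          B' * (quo V H N / Real.log H) ^ c₁ := by
        calc (quo (2 * V) H (N + N₀ h) / Real.log H) ^ c₁ ≤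
              (B' * (quo V H N / Real.log H)) ^ c₁ :=
              Real.rpow_le_rpow (div_nonneg g1 hlH.le) e1 hc₁.le
          _ = B' ^ c₁ * (quo V H N / Real.log H) ^ c₁ := Real.mul_rpow (by linarith) hq0
          _ ≤ B' * (quo V H N / Real.log H) ^ c₁ := by
              refine mul_le_mul_of_nonneg_right ?_ (Real.rpow_nonneg hq0 _)
              calc B' ^ c₁ ≤ B' ^ (1 : ℝ) := Real.rpow_le_rpow_of_exponent_le hB' hc₁1
                _ = B' := Real.rpow_one _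
      have e3 : 0 ≤ A * B' * (quo V H N / Real.log H) ^ c₁ :=
        mul_nonneg hAB (Real.rpow_nonneg hq0 _)
      calc A * (quo (2 * V) H (N + N₀ h) / Real.log H) ^ c₁ ≤
            A * (B' * (quo V H N / Real.log H) ^ c₁) :=
            mul_le_mul_of_nonneg_left e2 (by linarith)
        _ ≤ 4 * (A * B' * (quo V H N / Real.log H) ^ c₁) := by linarith
        _ = 4 * A * B' * (quo V H N / Real.log H) ^ c₁ := by ring
    obtain ⟨P, c', hc', hLow, hPd, hPB, hPZ, hexp⟩ := hDV V v1 M hM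
    have hwin : ∀ s ∈ win σ H t₀, σ₁ < s.re ∧ |s.im - t₀| < H := by
      intro s hs
      exact ⟨lt_of_le_of_lt hσ1 hs.1, hs.2⟩
    have hre : ∀ s ∈ win σ H t₀, 1 / 2 ≤ s.re := by
      intro s hs
      have h0 : σ < s.re := hs.1
      linarith
    -- the function without the finitely many Euler factors
    set G : ℂ → ℂ := fun s => P s * F s with hG
    have hGd : DifferentiableOn ℂ G (win σ H t₀) :=
      hPd.differentiableOn.mul (hFd.mono fun s hs => hwin s hs)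
    have hGb : ∀ s ∈ win σ H t₀, ‖G s‖ ≤ Real.exp (2 * V) := by
      intro s hs
      have b1 := hPB s (hre s hs)
      have b2 := hFb s (hwin s hs).1 (hwin s hs).2
      calc ‖G s‖ = ‖P s‖ * ‖F s‖ := norm_mul _ _
        _ ≤ Real.exp V * Real.exp V := mul_le_mul b1 b2 (norm_nonneg _) (Real.exp_pos _).le
        _ = Real.exp (2 * V) := by rw [← Real.exp_add]; ring_nf
    have hGe : ∀ s ∈ win σ H t₀, 3 ≤ s.re → G s = Complex.exp (Aw.dir c' s) := by
      intro s hs h3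
      rw [← hexp s h3, hG]
      simp only
      rw [hFe s (by linarith) (hwin s hs).2]
    have hLU : LowU c' k x η B ((2 * V) ^ 2) := fun Y hY => hLow Y (a3.trans hY)
    have k1 := hcore (2 * V) H t₀ (v0.trans a4) hge c' hc' hLU G hGd hGb hGe (N + N₀ h) (by omega)
    refine le_trans (measure_mono ?_) (k1.trans (ENNReal.ofReal_le_ofReal
      (mul_le_mul_of_nonneg_right n2 hHp.le)))
    rintro t ⟨ht1, ht2⟩
    refine ⟨ht1, fun hY => ht2 ?_⟩
    obtain ⟨Y, hYc, hYp⟩ := hY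
    have hfew : (Y.filter fun ρ => P ρ = 0).card ≤ N₀ h := by
      refine hPZ h t _ hh fun ρ hρ => ?_
      rw [Finset.mem_filter] at hρ
      exact ⟨hre ρ (hYp ρ hρ.1).2.1, (hYp ρ hρ.1).1.2, hρ.2⟩
    obtain ⟨Y', hY'1, hY'2⟩ := Finset.exists_subset_card_eq
      (RedZ_card Y (fun ρ => P ρ = 0) N (N₀ h) hYc hfew)
    refine ⟨Y', hY'2, fun ρ hρ => ?_⟩
    have hρ' := hY'1 hρ
    rw [Finset.mem_filter] at hρ'
    obtain ⟨m1, m2⟩ := hρ'
    obtain ⟨q1, q2, q3⟩ := hYp ρ m1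
    refine ⟨lt_of_le_of_lt hσ1 q1.1, q1.2, q2.2, ?_⟩
    have q4 : P ρ * F ρ = 0 := q3
    exact (mul_eq_zero.mp q4).resolve_left m2

/-- **The uniform theorem**, from the core. -/
theorem finZ (h : ℝ) (hh : 0 < h) (quo : ℝ → ℝ → ℕ → ℝ) (hquo : GoodZ quo) (h5 : CoreZ h quo)
    (K : Type) [Field K] [NumberField K] :
    WindowsZ h quo K (FewBad K) (1 / 2 + 1 / (4 * (Module.finrank ℚ K : ℝ))) ∧
    ∀ (N : Type) [Field N] [NumberField N] [IsGalois ℚ N] (g : N ≃ₐ[ℚ] N) (k : ℕ),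
      Nonempty (K →ₐ[ℚ] N) → Zg.Adm (Zg.perm (K := K) g) k →
      WindowsZ h quo K (FewBad K) (1 / 2 + 1 / (2 * (k : ℝ))) := by
  have hn : (1 : ℝ) ≤ Module.finrank ℚ K := by
    exact_mod_cast (Module.finrank_pos : 0 < Module.finrank ℚ K)
  refine ⟨redZ h hh quo hquo h5 K _ _ ?_ ?_ (uData2 uMany2All uLow uDataAll K),
    fun N _ _ _ g k hne hA => ?_⟩
  · have : 0 < 1 / (4 * (Module.finrank ℚ K : ℝ)) := by positivity
    linarith
  · have : 1 / (4 * (Module.finrank ℚ K : ℝ)) ≤ 1 / 2 :=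
      one_div_le_one_div_of_le (by norm_num) (by linarith)
    linarith
  · have hk : 1 ≤ k := by
      obtain ⟨j, hj1, hj2, -⟩ := hA (fun _ => 0) (fun _ => rfl)
      omega
    have hkR : (1 : ℝ) ≤ k := by exact_mod_cast hk
    refine redZ h hh quo hquo h5 K _ _ ?_ ?_ (uData1 uMany1All uLow uDataAll K N g k hne hA)
    · have : 0 < 1 / (2 * (k : ℝ)) := by positivity
      linarith
    · have : 1 / (2 * (k : ℝ)) ≤ 1 / 2 :=
        one_div_le_one_div_of_le (by norm_num) (by linarith)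
      linarith

private theorem GoodZ_logs (V H : ℝ) (hV : 3 ≤ V) (hH : V ≤ H) :
    1 ≤ Real.log V ∧ Real.log V ≤ Real.log H ∧ 0 ≤ Real.log (Real.log H) ∧
      Real.log (2 * V) ≤ 2 * Real.log V ∧ 0 ≤ Real.log (2 * V) ∧
      (H < 2 * V → Real.log H ≤ 2 * Real.log V) := by
  have h1 : (1 : ℝ) ≤ Real.log V := by
    rw [Real.le_log_iff_exp_le (by linarith)]
    have := Real.exp_one_lt_d9
    linarith
  have h2 : Real.log V ≤ Real.log H := Real.log_le_log (by linarith) hH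
  have hl2 : Real.log 2 ≤ 1 := by
    have := Real.log_two_lt_d9
    linarith
  have hl20 : 0 ≤ Real.log 2 := Real.log_nonneg (by norm_num)
  have hl2V : Real.log (2 * V) = Real.log 2 + Real.log V :=
    Real.log_mul (by norm_num) (by linarith)
  refine ⟨h1, h2, Real.log_nonneg (by linarith), by linarith, by linarith, fun hlt => ?_⟩
  have h3 : Real.log H ≤ Real.log (2 * V) := Real.log_le_log (by linarith) hlt.le
  linarith

/-- The quantity `N (log V + loglog H)`. -/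
theorem goodZ_M : GoodZ (fun V H N => N * (Real.log V + Real.log (Real.log H))) := by
  intro N₀
  have hN₀ : (0 : ℝ) ≤ N₀ := Nat.cast_nonneg _
  refine ⟨2 * (1 + N₀), 3, by linarith, le_rfl, fun V H N hV hH hN => ?_⟩
  obtain ⟨l1, l2, l3, l4, l5, l6⟩ := GoodZ_logs V H hV hH
  have hNR : (1 : ℝ) ≤ N := by exact_mod_cast hN
  refine ⟨?_, ?_, fun hlt => ?_, ?_⟩
  · exact mul_nonneg (by linarith) (by linarith)
  · exact mul_nonneg (Nat.cast_nonneg _) (by linarith)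
  · have e1 : Real.log V + Real.log (Real.log H) ≤ N * (Real.log V + Real.log (Real.log H)) :=
      le_mul_of_one_le_left (by linarith) hNR
    have e2 := l6 hlt
    show Real.log H ≤ 2 * (N * (Real.log V + Real.log (Real.log H)))
    linarith
  · show ((N + N₀ : ℕ) : ℝ) * (Real.log (2 * V) + Real.log (Real.log H)) ≤
      2 * (1 + N₀) * (N * (Real.log V + Real.log (Real.log H)))
    push_cast
    have e1 : (N : ℝ) + N₀ ≤ (1 + N₀) * N := by nlinarith
    have e2 : Real.log (2 * V) + Real.log (Real.log H) ≤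
        2 * (Real.log V + Real.log (Real.log H)) := by linarith
    calc ((N : ℝ) + N₀) * (Real.log (2 * V) + Real.log (Real.log H)) ≤
          ((1 + N₀) * N) * (2 * (Real.log V + Real.log (Real.log H))) :=
          mul_le_mul e1 e2 (by linarith) (by positivity)
      _ = 2 * (1 + N₀) * (N * (Real.log V + Real.log (Real.log H))) := by ring

end MP7ed9c3.Tp
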