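import Pool.Agent.Lib.MP_7ed9c3_nt.Aw.SpecQ

/-!
# MP_7ed9c3_nt, project TP: many zeros in almost every window, by power sums (statements)

`E` an elliptic curve over a number field `K`, `σ₁ < b` as in `Aw`, `h > 0`.  `F` holomorphic and at most `e^V` in the
box `Re s > σ₁`, `|Im s - t₀| < T`, equal to the Euler product for `Re s > 3/2`.  Then most windows `Re s > σ₁`,
`|Im s - t| < h` contain many different zeros of `F`: about `(log T)^(1/2)` of them.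

Idea: in the coordinate `w`, `s = phi h w + it` (`Aw`), the Taylor coefficients `e_k(t)` of `log F` at `w = 0` satisfy
`k e_k(t) = - ∑ b_a a^(-k) + small` (sum over the zeros `a` with multiplicities `b_a`), and `e_k(t)` is a Dirichlet
polynomial with a mean square `n_k²` at least `R'^(-2k)` for suitable `k`.  No `e_k(t)` is large for most `t`, so by Turan's
theorem there is no zero with `|a| < r e^(-E)`, `E` about (number of zeros)/`log T`.  A Fejer combination of the `e_k`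
which is not small for most `t` (`SpecK`) detects a zero `a` close to the real number `-r`.

Every statement `S_Name` is a separate module `Tp/Name.lean` with `theorem tName : S_Name`, or `theorem tName (h1 : S_A)
(h2 : S_B) … : S_Name` (the statements after the word from are hypotheses, in this order); the complete proof is in the
docstring.  All modules import only this file (and Mathlib, and finished modules of the library `MP_7ed9c3_nt` outside of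
`Tp` if useful); code may be copied from other files.  Auxiliary lemmas private.
-/

set_option autoImplicit false

namespace MP7ed9c3.Tp

open MeasureTheory Metric MP7ed9c3.Aw

/-! ## A. Turan's theorem -/

/-- **Prd**.

Proof.  `P = ∏ (X - x_j)`, monic of degree `n`, `r_i = 1/2 + i/(2n)`, `0 ≤ i ≤ n`.
`∑_(i=0)^n (-1)^(n-i) (n choose i) P(r_i) = n! (1/(2n))^n` (`n`-th difference; or `Lagrange.leadingCoeff_eq_sum`: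
`1 = ∑_i P(r_i)/∏_(l≠i) (r_i - r_l)`, `∏_(l≠i) |r_i - r_l| = (2n)^(-n) i! (n-i)!`).  So `n!/(2n)^n ≤ 2^n max |P(r_i)|`, and
`n! ≥ (n/e)^n` (`Nat` version: `exp n ≥ n^n/n!`): `max |P(r_i)| ≥ (1/(4e))^n ≥ (1/12)^n`. -/
def S_Prd : Prop :=
  ∀ (n : ℕ) (x : Fin n → ℝ), 1 ≤ n → ∃ r : ℝ, 1 / 2 ≤ r ∧ r ≤ 1 ∧ (1 / 12 : ℝ) ^ n ≤ ∏ j, |r - x j|

/-- **Acf**.

Proof.  `D(z) = ∏_j (1 - w_j z) = ∑_(l≤n) d_l z^l`, `∑ |d_l| ≤ 2^n`.  For each `j`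
`∏_(i≠j) (1 - w_i z) = ∑_(i<n) (∑_(l≤i) d_l w_j^(i-l)) z^i`: multiply by `1 - w_j z`; the product telescopes to
`∑_(i<n) d_i z^i - (∑_(l<n) d_l w_j^(n-l)) z^n = D(z)` because `∑_(l≤n) d_l w_j^(n-l) = ∏_i (w_j - w_i) = 0`
(identity of polynomials, cancel the polynomial `1 - w_j X ≠ 0`).  So the sum in question is
`∑_(i<n) z^i ∑_(l≤i) d_l s_(n+1+i-l)`, `s_k = ∑_j b_j w_j^k`, with `n + 1 ≤ n+1+i-l ≤ 2n`: at most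
`δ ∑_(i<n) 2^i ∑ |d_l| ≤ 4^n δ`.  (Another way: the power series `A = D * mk (s_(n+1+i))`.) -/
def S_Acf : Prop :=
  ∀ (n : ℕ) (w : Fin n → ℂ) (b : Fin n → ℕ) (δ : ℝ), 0 ≤ δ → (∀ j, ‖w j‖ ≤ 1) →
    (∀ k : ℕ, n + 1 ≤ k → k ≤ 2 * n → ‖∑ j, (b j : ℂ) * w j ^ k‖ ≤ δ) → ∀ z : ℂ, ‖z‖ ≤ 2 →
    ‖∑ j, (b j : ℂ) * w j ^ (n + 1) * ∏ i ∈ Finset.univ.erase j, (1 - w i * z)‖ ≤ 4 ^ n * δ

/-- **Crc**.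

Proof.  Term by term (`circleIntegral` of a sum; the integrands are continuous on the circle since `‖w j‖ ≠ r`).  If
`‖w j‖ < r` then `z^n w^(n+1)/(1 - w z)` is holomorphic on the closed disc (`‖z‖ ≤ 1/r`: `‖w z‖ < 1`): the integral is `0`
(`DiffContOnCl.circleIntegral_eq_zero` or `Complex.circleIntegral_eq_zero_of_differentiable_on_off_countable`).
If `‖w j‖ > r`: `z^n w^(n+1)/(1 - w z) = -w^n z^n/(z - 1/w)`, `‖1/w‖ < 1/r`: Cauchy's formula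
(`DiffContOnCl.circleIntegral_sub_inv_smul`) gives `-2πi w^n (1/w)^n = -2πi`. -/
def S_Crc : Prop :=
  ∀ (n : ℕ) (w : Fin n → ℂ) (b : Fin n → ℕ) (r : ℝ), 1 / 2 ≤ r → r ≤ 1 → (∀ j, ‖w j‖ ≠ r) →
    (∮ z in C(0, 1 / r), z ^ n * ∑ j, (b j : ℂ) * w j ^ (n + 1) / (1 - w j * z)) =
      -(2 * Real.pi * Complex.I) * ((∑ j with r < ‖w j‖, b j : ℕ) : ℂ)

/-- **Tur** (from `S_Prd`, `S_Acf`, `S_Crc`): Turan's theorem, with weights.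

Proof.  `n ≥ 1`.  Suppose `‖s_k‖ < δ = (1/200)^n` for `n < k ≤ 2n`, `s_k = ∑ b_j w_j^k`.  `r` from `S_Prd` for `x_j = ‖w_j‖`: the product is
`> 0`, so `r ≠ ‖w_j‖`, in particular `r ≠ 1`, `r < 1`, and the number in `S_Crc` is `≥ 1`.  On `‖z‖ = 1/r ≤ 2`:
`∑_j b_j w_j^(n+1)/(1 - w_j z) = A(z)/D(z)`, `|A| ≤ 4^n δ`, `|1 - w_j z| ≥ |1 - ‖w_j‖/r| = |r - ‖w_j‖|/r ≥ |r - ‖w_j‖|`, so
`|D| ≥ 12^(-n)`.  So `2π ≤ 2π (1/r) 2^n 4^n δ 12^n ≤ 2π · 2 · 96^n/200^n < 2π`, a contradiction. -/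
def S_Tur : Prop :=
  ∀ (n : ℕ) (w : Fin n → ℂ) (b : Fin n → ℕ), (∀ j, ‖w j‖ ≤ 1) → (∃ j, ‖w j‖ = 1 ∧ 1 ≤ b j) →
    ∃ k : ℕ, n + 1 ≤ k ∧ k ≤ 2 * n ∧ (1 / 200 : ℝ) ^ n ≤ ‖∑ j, (b j : ℂ) * w j ^ k‖

/-- **Tus** (from `S_Tur`): for a finite set of numbers.

Proof.  Enumerate `S` by `Fin S.card` (`S.equivFin`), `w_j = (d (a_j)⁻¹)^q`; `∑ b w^k = d^(qk) ∑ b a⁻¹^(qk)`. -/
def S_Tus : Prop :=
  ∀ (S : Finset ℂ) (b : ℂ → ℕ) (q : ℕ) (d : ℝ), 0 < d → (∀ a ∈ S, d ≤ ‖a‖) →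
    (∃ a ∈ S, ‖a‖ = d ∧ 1 ≤ b a) →
    ∃ k : ℕ, S.card + 1 ≤ k ∧ k ≤ 2 * S.card ∧
      (1 / 200 : ℝ) ^ S.card * (1 / d) ^ (q * k) ≤ ‖∑ a ∈ S, (b a : ℂ) * a⁻¹ ^ (q * k)‖

/-! ## B. Power sums over the zeros -/

/-- **LgT**.

Proof.  `log(1 - u/a) = - ∑_(k≥1) (u/a)^k/k` for `‖u‖ < ‖a‖` (`Complex.hasSum_taylorSeries_neg_log`); uniqueness of the
power series (`HasFPowerSeriesOnBall`/`HasFPowerSeriesAt.eq_formalMultilinearSeries`, or iterated derivatives). -/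
def S_LgT : Prop :=
  ∀ (a : ℂ) (k : ℕ), a ≠ 0 → 1 ≤ k →
    tc k (fun u => Complex.log (1 - u / a)) = -((a⁻¹) ^ k / (k : ℂ))

/-- **Psm** (from `S_LgT`, `Aw.S_Tc`): power sums, the zeros being divided out.

Proof.  `H = exp h₀` on `ball 0 R₁` (`logballz_exists` in `Zs/LogBall.lean`), with `|Im h₀(0)| ≤ π` (add a multiple of `2πi`).
On `ball 0 r₀` (`‖a‖ ≥ r₀`): `∏ (u - a)^(b a) = ∏ (-a)^(b a) exp(∑ b a Log(1 - u/a))` (`Re (1 - u/a) > 0`).  So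
`exp(f - h₀ - ∑ b a Log(1 - u/a))` is constant, hence the derivative of `f - h₀ - ∑ b a Log(1 - u/a)` is `0` there, and for
`k ≥ 1`: `k tc k f + ∑ b a a⁻¹^k = k tc k h₀` (`S_Tc`, `S_LgT`).  `Re h₀ ≤ V`, `‖h₀ 0‖ ≤ |log ‖H 0‖| + π`,
`log ‖H 0‖ = Re f 0 - ∑ b a log ‖a‖`, `|log ‖a‖| ≤ |log r₀| + |log R₁|`; Borel-Caratheodory
(`Complex.borelCaratheodory`; see `Aw/LogW.lean`): `‖h₀‖ ≤ A (V + ∑ b + 1)` on `ball 0 R` (radii `R < R₁`); Cauchy's estimate. -/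
def S_Psm : Prop :=
  ∀ r₀ R R₁ : ℝ, 0 < r₀ → r₀ < R → R < R₁ → ∃ A : ℝ, 0 ≤ A ∧
    ∀ (S : Finset ℂ) (b : ℂ → ℕ) (H f : ℂ → ℂ) (V : ℝ), 0 ≤ V → DifferentiableOn ℂ H (ball 0 R₁) →
      (∀ u ∈ ball (0 : ℂ) R₁, H u ≠ 0 ∧ ‖H u‖ ≤ Real.exp V) →
      (∀ a ∈ S, r₀ ≤ ‖a‖ ∧ ‖a‖ ≤ R₁) → DifferentiableOn ℂ f (ball 0 r₀) →
      (∀ u ∈ ball (0 : ℂ) r₀, Complex.exp (f u) = H u * ∏ a ∈ S, (u - a) ^ b a) → ‖f 0‖ ≤ V →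
      ∀ k : ℕ, 1 ≤ k → ‖(k : ℂ) * tc k f + ∑ a ∈ S, (b a : ℂ) * a⁻¹ ^ k‖ ≤
        A * k * (V + ((∑ a ∈ S, b a : ℕ) : ℝ) + 1) * (1 / R) ^ k

/-- **Fac**: dividing out the zeros in a closed disc.

Proof.  The set of the zeros in the compact set `closedBall 0 R₁` is finite (identity theorem, `g 0 ≠ 0`); `b a = analyticOrderNatAt g a ≥ 1`;
induction over the zeros as in `Few/Fct.lean` (`Zr/Factor.lean`), in which the zeros with `R₁ < ‖a‖ < R₂` are not touched: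
`g = (u - a)^(b a) g₁`, `g₁ a ≠ 0`, same zeros and orders elsewhere. -/
def S_Fac : Prop :=
  ∀ (R₁ R₂ : ℝ) (g : ℂ → ℂ), 0 < R₁ → R₁ < R₂ → DifferentiableOn ℂ g (ball 0 R₂) → g 0 ≠ 0 →
    ∃ (S : Finset ℂ) (b : ℂ → ℕ) (H : ℂ → ℂ), (∀ a, a ∈ S ↔ ‖a‖ ≤ R₁ ∧ g a = 0) ∧ (∀ a ∈ S, 1 ≤ b a) ∧
      DifferentiableOn ℂ H (ball 0 R₂) ∧ (∀ u ∈ closedBall (0 : ℂ) R₁, H u ≠ 0) ∧
      ∀ u ∈ ball (0 : ℂ) R₂, g u = H u * ∏ a ∈ S, (u - a) ^ b a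

/-- **Jen**: the total multiplicity of the zeros in a smaller disc (Jensen), and the size of the quotient.

Proof.  `R' = (R₁+R₂)/2`, `N = ∑ b`.  `H₂ u = H u ∏ ((R'^2 - conj a u)/R')^(b a)` is holomorphic on `ball 0 R₂`; on `‖u‖ = R'`:
`|R'^2 - conj a u| = |u| |u - a| = R' |u - a|`, so `|H₂| = |g| ≤ e^V`; maximum principle at `0`: `|H 0| R'^N ≤ e^V`.  And
`e^(-V) ≤ |g 0| = |H 0| ∏ ‖a‖^(b a) ≤ |H 0| R₁^N`.  So `(R'/R₁)^N ≤ e^(2V)`, `N ≤ 2V/log(R'/R₁)`.  On `‖u‖ = R'`: `‖u - a‖ ≥ R' - R₁`, so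
`|H| ≤ e^V (R'-R₁)^(-N) ≤ exp(V + |log(R'-R₁)| N)`, and the same in the disc. -/
def S_Jen : Prop :=
  ∀ R₁ R₂ : ℝ, 0 < R₁ → R₁ < R₂ → ∃ A : ℝ, 0 ≤ A ∧
    ∀ (V : ℝ) (g H : ℂ → ℂ) (S : Finset ℂ) (b : ℂ → ℕ), 0 ≤ V → DifferentiableOn ℂ H (ball 0 R₂) →
      (∀ u ∈ ball (0 : ℂ) R₂, g u = H u * ∏ a ∈ S, (u - a) ^ b a) →
      (∀ u ∈ ball (0 : ℂ) R₂, ‖g u‖ ≤ Real.exp V) → Real.exp (-V) ≤ ‖g 0‖ →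
      (∀ a ∈ S, ‖a‖ ≤ R₁) →
      ((∑ a ∈ S, b a : ℕ) : ℝ) ≤ A * V ∧ ∀ u ∈ closedBall (0 : ℂ) R₁, ‖H u‖ ≤ Real.exp (A * V)

/-- **DirB**: the Dirichlet series.

Proof.  `c 0 = 0`, `‖c m m^(-s)‖ ≤ C √m m^(-2) = C m^(-3/2)` for `Re s ≥ 2` (`m ≥ 1`), a convergent series: `differentiableOn_tsum_of_summable_norm`. -/
def S_DirB : Prop :=
  ∀ C : ℝ, 0 ≤ C → ∃ A : ℝ, 0 ≤ A ∧ ∀ c : ℕ → ℂ, Coefs c C →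
    DifferentiableOn ℂ (Aw.dir c) {s : ℂ | 2 < s.re} ∧ ∀ s : ℂ, 3 ≤ s.re → ‖Aw.dir c s‖ ≤ A

/-- The Taylor coefficient of the logarithm at the centre of the window at `t`. -/
noncomputable def eW (h : ℝ) (c : ℕ → ℂ) (k : ℕ) (t : ℝ) : ℂ :=
  tc k (fun w => Aw.dir c (phi h w + t * Complex.I))

/-- **PsW** (from `Aw.S_Phi`, `S_DirB`, `S_Psm`, `S_Fac`, `S_Jen`): power sums over the zeros in the window at `t`.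

Proof.  `A₀` from `S_DirB`, `ρ₁ = (R₂ + R₁)/2`.  `g w = G(phi h w + it)` on `ball 0 R₁`: `Re phi ≥ ell h R₁ > σ₁`, `|Im phi| < h`, so
`phi h w + it ∈ win σ₁ h t` (`S_Phi`), `g` is differentiable, `‖g‖ ≤ e^V`.  `f w = dir c (phi h w + it)` on `ball 0 r₀`: `Re phi ≥ ell h r₀ ≥ 3`, so `f` is
differentiable, `‖f 0‖ ≤ A₀`, `g = exp f`, `g ≠ 0` there.  `V' = V + A₀`.  `S_Fac` (radii `ρ₁`, `R₁`): `S`, `b`, `H`; `a ∈ S` has `r₀ ≤ ‖a‖ ≤ ρ₁ < R₁`.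
`S_Jen` (`ρ₁`, `R₁`, `V'`): `∑ b ≤ A₁ V'`, `‖H‖ ≤ exp(A₁ V')` on `closedBall 0 ρ₁`.  `S_Psm` (`r₀`, `R₂`, `ρ₁`) with `(A₁ + 1) V'` in place of `V`. -/
def S_PsW : Prop :=
  ∀ (h σ₁ b r₀ R R' R₂ R₁ C : ℝ), 0 < h → 0 ≤ C → Radii h σ₁ b r₀ R R' R₂ R₁ →
    ∃ A : ℝ, 0 ≤ A ∧ ∀ (c : ℕ → ℂ) (G : ℂ → ℂ) (t V : ℝ), Coefs c C → 0 ≤ V →
      DifferentiableOn ℂ G (win σ₁ h t) → (∀ s ∈ win σ₁ h t, ‖G s‖ ≤ Real.exp V) →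
      (∀ s ∈ win σ₁ h t, 3 ≤ s.re → G s = Complex.exp (Aw.dir c s)) →
      ∃ (S : Finset ℂ) (b : ℂ → ℕ), (∀ a ∈ S, r₀ ≤ ‖a‖ ∧ ‖a‖ < R₁ ∧ 1 ≤ b a ∧
          phi h a + t * Complex.I ∈ win σ₁ h t ∧ G (phi h a + t * Complex.I) = 0) ∧
        ((∑ a ∈ S, b a : ℕ) : ℝ) ≤ A * (V + 1) ∧
        ∀ k : ℕ, 1 ≤ k → ‖(k : ℂ) * eW h c k t + ∑ a ∈ S, (b a : ℂ) * a⁻¹ ^ k‖ ≤
          A * k * (V + 1) * (1 / R₂) ^ k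

/-- **Inj**: different points, different zeros.

Proof.  `phi h w = phi h w'`: the logarithms of `(1+w)/(1-w)` agree, so the quotients agree (`Complex.exp_log`, they are not `0`), so `w = w'`. -/
def S_Inj : Prop := ∀ h : ℝ, 0 < h → Set.InjOn (phi h) (ball 0 1)

/-! ## C. The coefficients -/

/-- The coefficient of `m^(-it)`. -/
noncomputable def vW (h : ℝ) (c : ℕ → ℂ) (k m : ℕ) : ℂ := c m * gT h k m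

/-- The sum over a block. -/
noncomputable def aW (h : ℝ) (c : ℕ → ℂ) (k M₀ M₁ : ℕ) (t : ℝ) : ℂ :=
  ∑ m ∈ Finset.Ioc M₀ M₁, vW h c k m * (m : ℂ) ^ (-(t * Complex.I))

/-- The mean square of the sum over a block. -/
noncomputable def nW (h : ℝ) (c : ℕ → ℂ) (k M₀ M₁ : ℕ) : ℝ :=
  ∑ m ∈ Finset.Ioc M₀ M₁, ‖vW h c k m‖ ^ 2

/-- **VWb** (from `Aw.S_GUp`).

Proof.  `m = 0`: `c 0 = 0`.  `m ≥ 1`: `‖c m‖ ‖gT‖ ≤ C √m m^(-ell h R₂) R₂^(-k) ≤ C R₂^(-k)` (`ell h R₂ > 1/2`). -/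
def S_VWb : Prop :=
  ∀ (h σ₁ b r₀ R R' R₂ R₁ C : ℝ), 0 < h → 0 ≤ C → Radii h σ₁ b r₀ R R' R₂ R₁ →
    ∀ c : ℕ → ℂ, Coefs c C → ∀ k m : ℕ, ‖vW h c k m‖ ≤ C * (1 / R₂) ^ k

/-- **TrnW** (from `Aw.S_Phi`, `Aw.S_Tc`, `Aw.S_GUp`, `S_DirB`, `S_VWb`): only the block counts.

Proof.  As in `Aw/WinA.lean`: on `ball 0 r₀`: `dir c (phi + it) = ∑_(1≤m≤M₁) c m m^(-it) m^(-phi w) + e(w)`, `|e| ≤ C'/M₁`, so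
`‖eW - aW 0 M₁‖ ≤ C' r₀^(-k)/M₁` (`S_Tc`).  `‖aW 0 M₀‖ ≤ C M₀ R₂^(-k)` (`S_VWb`).  `δ = log(R₂/R')/2`: `C M₀ R₂^(-k) ≤ C e^(δm) (R'/R₂)^k R'^(-k) ≤
C e^(-δm) R'^(-k)` (`k ≥ m`); `β = A' log(1/r₀) + 1 + δ`: `C' r₀^(-k)/M₁ ≤ C' e^(-(1+δ)m)`, `R'^(-k) ≥ 1`; `ω = δ/2`, `m` large. -/
def S_TrnW : Prop :=
  ∀ (h σ₁ b r₀ R R' R₂ R₁ C : ℝ) (A' : ℕ), 0 < h → 0 ≤ C → Radii h σ₁ b r₀ R R' R₂ R₁ →
    ∃ (δ β ω : ℝ) (m₀ : ℕ), 0 < δ ∧ 0 < β ∧ 0 < ω ∧ 1 ≤ m₀ ∧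
    ∀ c : ℕ → ℂ, Coefs c C → ∀ (t : ℝ) (m k M₀ M₁ : ℕ), m₀ ≤ m → m ≤ k → k ≤ A' * m →
      1 ≤ M₀ → M₀ ≤ M₁ → (M₀ : ℝ) ≤ Real.exp (δ * m) → Real.exp (β * m) ≤ M₁ →
      ‖eW h c k t - aW h c k M₀ M₁ t‖ ≤ Real.exp (-(ω * m)) * (1 / R') ^ k

/-- **LowW** (from `Aw.S_GUp`, `Aw.S_GLow`): a large mean square.

Proof.  `x = ell h R > 1/2`; `c₁`, `L` from `S_GLow` (`R`, `R'`, `R₂`; `ell h R₂ ≥ 0`).  `γ = (2 + 2 log(1/r₀) + 1)/η + 1`.  `Y = exp(γ m) ≥ exp m ≥ Y₀`;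
`P`, `S` from `LowU`: `Y ≤ P ≤ Y^B`, `∑_(n∈S) ‖c n‖² n^(-2x) ≥ P^η ≥ e^(γηm)`.  `S' = {n ∈ S : n > M₀}`; the others contribute at most
`C² M₀ ≤ C² e^m ≤ P^η/2` (`‖c n‖² n^(-2x) ≤ C² n^(1-2x) ≤ C²`).  `n₀ = ⌈L (1 + log P^k₀)⌉₊ + 1 ≤ A' m`, `β = γ B k₀ + 1` (`n ≤ P^k₀ ≤ e^(γBk₀m) ≤ M₁`).
`S_GLow`: `c₁ P^η/2 ≤ ∑_(j<n₀) R'^(2j) ∑_(n∈S') ‖vW j n‖²`.  For `j < m`: `‖vW j n‖² ≤ C² n n^(-6) r₀^(-2m)` (`S_GUp` with `r₀`, `ell h r₀ ≥ 3`), so these `j`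
give at most `2 C² m r₀^(-2m) ≤ c₁ P^η/4` for large `m`.  So `c₁ P^η/4 ≤ ∑_(m≤j<n₀) R'^(2j) nW j`, and some `j` has
`R'^(2j) nW ≥ c₁ P^η/(4 n₀) ≥ 1` for large `m`. -/
def S_LowW : Prop :=
  ∀ (h σ₁ b r₀ R R' R₂ R₁ C η B : ℝ) (k₀ : ℕ), 0 < h → 0 ≤ C → 0 < η → 1 ≤ B →
    Radii h σ₁ b r₀ R R' R₂ R₁ →
    ∃ (A' : ℕ) (β : ℝ) (m₀ : ℕ), 4 ≤ A' ∧ 0 < β ∧ 1 ≤ m₀ ∧
    ∀ c : ℕ → ℂ, Coefs c C → ∀ Y₀ : ℝ, LowU c k₀ (ell h R) η B Y₀ → ∀ m M₀ M₁ : ℕ, m₀ ≤ m →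
      Y₀ ≤ Real.exp m → (M₀ : ℝ) ≤ Real.exp m → Real.exp (β * m) ≤ M₁ →
      ∃ k : ℕ, m ≤ k ∧ k ≤ A' * m ∧ ((1 / R') ^ k) ^ 2 ≤ nW h c k M₀ M₁

/-- **Max**.

Proof.  `g k = f k ^ (1/(2k))` (`Real.rpow`), `k₀` a maximum of `g` on `Finset.Icc m K` (`Finset.exists_max_image`), `q = g k₀`. -/
def S_Max : Prop :=
  ∀ (m K : ℕ) (f : ℕ → ℝ) (p : ℝ), 1 ≤ m → 0 < p → (∀ k, 0 ≤ f k) →
    (∃ k : ℕ, m ≤ k ∧ k ≤ K ∧ (p ^ k) ^ 2 ≤ f k) →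
    ∃ (k₀ : ℕ) (q : ℝ), m ≤ k₀ ∧ k₀ ≤ K ∧ p ≤ q ∧ f k₀ = (q ^ k₀) ^ 2 ∧
      ∀ k : ℕ, m ≤ k → k ≤ K → f k ≤ (q ^ k) ^ 2

/-! ## D. Large values -/

/-- **TypW** (from `Aw.S_Osc`).

Proof.  For each `k`: `∫_a^b ‖aW‖² ≤ ((b-a) + 2 M₁²) nW ≤ 2 (b-a) (q^k)²`: the terms with `m ≠ m'` are by `S_Osc` at most
`2 M₁ (∑ ‖vW‖)² ≤ 2 M₁² ∑ ‖vW‖²` (compare `Aw/MeanA.lean`).  Chebyshev: the set for `k` has measure `≤ 2(b-a)/lam²`; `k` has at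
most `K + 1` values. -/
def S_TypW : Prop :=
  ∀ (h : ℝ) (c : ℕ → ℂ) (m K M₀ M₁ : ℕ) (a b lam q : ℝ), a ≤ b → 2 * (M₁ : ℝ) ^ 2 ≤ b - a →
    0 < lam → 0 < q → (∀ k : ℕ, m ≤ k → k ≤ K → nW h c k M₀ M₁ ≤ (q ^ k) ^ 2) →
    volume {t : ℝ | t ∈ Set.Icc a b ∧ ∃ k : ℕ, m ≤ k ∧ k ≤ K ∧ lam * q ^ k < ‖aW h c k M₀ M₁ t‖} ≤
      ENNReal.ofReal (2 * (b - a) * (K + 1) / lam ^ 2)

/-! ## E. No zero is too near -/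

/-- **Near** (from `S_Tus`): no zero is too near.

Proof.  `N = S.card ≥ 1` (otherwise there is no `a`), `d = min ‖a‖ > 0`.  `q' = ⌈m/N⌉` (natural: `(m + N - 1)/N`), `S_Tus`: `k = q' k'`,
`N + 1 ≤ k' ≤ 2N`, so `m ≤ q' N ≤ k ≤ 2 N q' ≤ 2 (m + N) ≤ 4m`.
`200^(-N) (1/d)^k ≤ ‖∑ b a a⁻¹^k‖ ≤ k ‖e k‖ + A k (V+1) R^(-k) ≤ 4m (V+m) q^k + 4 A m (V+m) q^k` (`V + 1 ≤ V + m`, `1/R ≤ q`).
So `(1/(dq))^k ≤ 200^N · 4 (1+A) (V+m)²`, and if `dq < 1`: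
`log(1/(dq)) ≤ (1/k)(N log 200 + log(4(1+A)) + 2 log(V+m)) ≤ D (N + log(V+m))/m` (`k ≥ m`, `log(V+m) ≥ log 2 ≥ 1/2`). -/
def S_Near : Prop :=
  ∀ A : ℝ, 0 ≤ A → ∃ D : ℝ, 1 ≤ D ∧
    ∀ (V lam q R : ℝ) (m : ℕ) (S : Finset ℂ) (b : ℂ → ℕ) (e : ℕ → ℂ), 0 ≤ V → 1 ≤ m →
      S.card ≤ m → 2 ≤ V + m → lam ≤ V + m → 0 < q → 0 < R → 1 / R ≤ q →
      (∀ a ∈ S, a ≠ 0 ∧ 1 ≤ b a) →
      (∀ k : ℕ, m ≤ k → k ≤ 4 * m → ‖e k‖ ≤ lam * q ^ k) →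
      (∀ k : ℕ, 1 ≤ k → ‖(k : ℂ) * e k + ∑ a ∈ S, (b a : ℂ) * a⁻¹ ^ k‖ ≤
        A * k * (V + 1) * (1 / R) ^ k) →
      ∀ a ∈ S, 1 / q * Real.exp (-(D * (S.card + Real.log (V + m)) / m)) ≤ ‖a‖

/-! ## F. Windows -/

/-- **Fub**.

Proof.  Replace `Bd` by `toMeasurable volume Bd`.  `∫ volume (Bd ∩ Icc (t-1/2) (t+1/2)) dt = volume Bd` (Tonelli: the set of the `t` with
`s ∈ Icc (t-1/2) (t+1/2)` is `Icc (s-1/2) (s+1/2)`), then Markov's inequality. -/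
def S_Fub : Prop :=
  ∀ (Bd : Set ℝ) (μ : ℝ), 0 ≤ μ → volume Bd ≤ ENNReal.ofReal μ →
    volume {t₁ : ℝ | ENNReal.ofReal (1 / 2) < volume (Bd ∩ Set.Icc (t₁ - 1 / 2) (t₁ + 1 / 2))} ≤
      ENNReal.ofReal (2 * μ)

end MP7ed9c3.Tp
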