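import Pool.Agent.Lib.MP_7ed9c3_nt.Tp.Spec
import Pool.Agent.Lib.MP_7ed9c3_nt.Tp.Pos
import Pool.Agent.Lib.MP_7ed9c3_nt.Tk.Ker

/-!
# MP_7ed9c3_nt, project TP, part K: the kernel (statements)

`U(t) = ∑_j al_j (-1/q)^k k e_k(t)`, `k = kk - js + j`, `e_k(t) = eW h c k t`, with coefficients `al_j ≥ 0` of sum `1`.
Dirichlet side: the coefficients of `U` are those of `c` times positive numbers (`S_Pos`, proved in `Tp/Pos.lean`), so its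
mean square is at least the one of a single term (`S_UDir`, for arbitrary `al`).  Side of the zeros, for the Fejer kernel
`((1 + w + .. + w^(n-1))/n)^L` (`Tk/Ker.lean`): a zero `a` with `|1 + 1/(q a)| ≥ 4 e²/n` contributes at most
`b_a exp(-L)` (`S_Far`), so `|U(t)| ≥ 1/4` implies that some zero `ρ` of `G` has `|Im ρ - t| ≤ D/n` (`S_LocW`).

Module `Tp/Name.lean` with `theorem tName : S_Name` (the statements after the word from are hypotheses, in this order),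
importing only this file (and Mathlib, and finished modules).  Namespace `MP7ed9c3.Tp`.  Auxiliary lemmas private.
-/

set_option autoImplicit false

namespace MP7ed9c3.Tp

open MeasureTheory Metric MP7ed9c3.Aw

/-- The combination of the numbers `e k` with a kernel. -/
noncomputable def cmb (al : ℕ → ℝ) (D kk js : ℕ) (q : ℝ) (e : ℕ → ℂ) : ℂ :=
  ∑ j ∈ Finset.range D, (al j : ℂ) * (-(q : ℂ)⁻¹) ^ (kk - js + j) *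
    ((kk - js + j : ℕ) : ℂ) * e (kk - js + j)

/-- The Dirichlet coefficient of `U`. -/
noncomputable def uW (h : ℝ) (c : ℕ → ℂ) (al : ℕ → ℝ) (D kk js : ℕ) (q : ℝ) (m : ℕ) : ℂ :=
  cmb al D kk js q (fun k => vW h c k m)

/-- **UDir** (from `S_Pos`, `Aw.S_GUp`).

Proof.  (1) `Finset.sum_comm`, `Finset.mul_sum`.  (2) `c m` is a common factor; by `S_Pos` (multiply by `(-1)^k`)
`(-1/q)^k k gT h k m = q^(-k) k ‖gT h k m‖ ≥ 0`, a real number, so `‖uW‖ = ‖c m‖ ∑_j al_j q^(-k) k ‖gT h k m‖ ≥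
al_js q^(-kk) kk ‖vW h c kk m‖` (the term `j = js`, `kk - js + js = kk`); square and sum over `m` (`m > M₀ ≥ 0`, so `m ≥ 1`).
(3) `‖c m‖ ≤ C √m`, `‖gT h k m‖ ≤ m^(-ell h R₂)/R₂^k ≤ m^(-1/2)/R₂^k` (`S_GUp`, `e3`), `q^(-k) ≤ R'^k`, `∑ al_j = 1`,
`k ≤ kk + D`, `(R'/R₂)^k ≤ (R'/R₂)^(kk-js)` (`R' < R₂`). -/
def S_UDir : Prop :=
  ∀ (h σ₁ b r₀ R R' R₂ R₁ C : ℝ), 0 < h → 0 ≤ C → Radii h σ₁ b r₀ R R' R₂ R₁ →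
    ∀ (c : ℕ → ℂ) (al : ℕ → ℝ) (q : ℝ) (D kk js : ℕ), Coefs c C → 1 / R' ≤ q →
      (∀ j, 0 ≤ al j) → ∑ j ∈ Finset.range D, al j = 1 → js < D → js ≤ kk →
      (∀ (M₀ M₁ : ℕ) (t : ℝ), cmb al D kk js q (fun k => aW h c k M₀ M₁ t) =
        ∑ m ∈ Finset.Ioc M₀ M₁, uW h c al D kk js q m * (m : ℂ) ^ (-(t * Complex.I))) ∧
      (∀ M₀ M₁ : ℕ, (al js * kk) ^ 2 * nW h c kk M₀ M₁ ≤
        (q ^ kk) ^ 2 * ∑ m ∈ Finset.Ioc M₀ M₁, ‖uW h c al D kk js q m‖ ^ 2) ∧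
      (∀ m : ℕ, 1 ≤ m → ‖uW h c al D kk js q m‖ ≤ C * (kk + D) * (R' / R₂) ^ (kk - js))

/-- **Cmb**: an error estimate.

Proof.  Triangle inequality: the term `j` is at most `al_j q^(-k) ‖k (e k - e' k)‖ ≤ al_j δ`, and `∑ al_j = 1`. -/
def S_Cmb : Prop :=
  ∀ (al : ℕ → ℝ) (D kk js : ℕ) (q δ : ℝ) (e e' : ℕ → ℂ), (∀ j, 0 ≤ al j) →
    ∑ j ∈ Finset.range D, al j = 1 → 0 < q →
    (∀ k : ℕ, kk - js ≤ k → k < kk - js + D → ‖(k : ℂ) * (e k - e' k)‖ ≤ δ * q ^ k) →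
    ‖cmb al D kk js q e - cmb al D kk js q e'‖ ≤ δ

/-- **Far**: zeros far from `-1/q` contribute little to the combination with the Fejer kernel.

Proof.  `cmb … e + ∑_a b a ∑_j al_j (-1/(q a))^k` is at most `δ` (triangle inequality, `∑ al_j = 1`:
`|al_j q^(-k) (k e k + ∑ b a a⁻¹^k)| ≤ al_j δ`).  For `w = -1/(q a)`: `∑_j al_j w^(kk-js+j) = w^(kk-js) ∑_j al_j w^j`,
`‖w‖ ≤ exp η`, so `‖w^(kk-js)‖ ≤ exp(η kk) ≤ exp L`, and `‖1 - w‖ = ‖1 + 1/(q a)‖ ≥ 4 e²/n`, so by `Tk.norm_ker_le`: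
`‖∑_j al_j w^j‖ ≤ exp(-2L)`. -/
def S_Far : Prop :=
  ∀ (S : Finset ℂ) (b : ℂ → ℕ) (e : ℕ → ℂ) (q η δ : ℝ) (n L kk js : ℕ), 1 ≤ n → 1 ≤ L →
    0 < q → 0 ≤ η → (n : ℝ) * η ≤ 1 / 2 → η * kk ≤ L →
    (∀ a ∈ S, Real.exp (-η) ≤ q * ‖a‖) →
    (∀ a ∈ S, 4 * Real.exp 2 / (n : ℝ) ≤ ‖1 + ((q : ℂ) * a)⁻¹‖) →
    (∀ k : ℕ, kk - js ≤ k → k < kk - js + n * L →
      ‖(k : ℂ) * e k + ∑ a ∈ S, (b a : ℂ) * a⁻¹ ^ k‖ ≤ δ * q ^ k) →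
    ‖cmb (Tk.al n L) (n * L) kk js q e‖ ≤ ((∑ a ∈ S, b a : ℕ) : ℝ) * Real.exp (-(L : ℝ)) + δ

/-- **PhiL** (from `Aw.S_Phi`): `phi` is Lipschitz.

Proof.  `phi' = (2h/π) 2/(1 - w²)`, `|1 - w²| ≥ 1 - r²` on `closedBall 0 r`, which is convex
(`Convex.norm_image_sub_le_of_norm_deriv_le`, or `…_of_norm_hasDerivWithin_le`); `phi h (-1/q)` is real
(`S_Phi`, `1/q ≤ r`), so `|Im phi h a| ≤ ‖phi h a - phi h (-1/q)‖ ≤ D ‖a + 1/q‖`. -/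
def S_PhiL : Prop :=
  ∀ h r : ℝ, 0 < h → 0 < r → r < 1 → ∃ D : ℝ, 0 ≤ D ∧
    ∀ (a : ℂ) (q : ℝ), ‖a‖ ≤ r → 1 / r ≤ q → |(phi h a).im| ≤ D * ‖a + (q : ℂ)⁻¹‖

/-- **NumL**: the numbers in `S_LocW`.

Proof.  `L ≥ D (N + log(V+m)) ≥ D`, `m ≥ 2 n L ≥ 2 L`.  With `D ≥ 2 A' D₀`: `D₀ (N + log(V+m)) A' ≤ L`, so the first two bounds
(`n L ≤ m/2`, `kk ≤ A' m`).  `kk + n L ≤ (A' + 1) m`, `kk - js ≥ m - n L ≥ m/2 ≥ L ≥ D (1 + log(V+m))`; with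
`γ = log(R₂/R')` and `γ D ≥ 2 + log(1 + 32 A (A' + 1))`: `A (A'+1) m (V+1) (R'/R₂)^(kk-js) ≤ 2 A (A'+1) (V+m)² exp(-γ D) (V+m)^(-γ D) ≤ 1/16`.
`A (V+1) exp(-L) ≤ A (V+m) exp(-D) (V+m)^(-D) ≤ 1/16` if `D ≥ 1 + log(1 + 16 A)`. -/
def S_NumL : Prop :=
  ∀ (D₀ A R' R₂ : ℝ) (A' : ℕ), 1 ≤ D₀ → 0 ≤ A → 1 ≤ A' → 0 < R' → R' < R₂ → R₂ < 1 →
    ∃ D : ℝ, 1 ≤ D ∧ ∀ (V : ℝ) (m N kk n L js : ℕ), 1 ≤ V → 1 ≤ N →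
      D * (N + Real.log (V + m)) ≤ L → 2 * (n * L) ≤ m → 1 ≤ n →
      js < n * L → m ≤ kk → kk ≤ A' * m →
      1 ≤ m ∧ N ≤ m ∧ 1 ≤ L ∧ 2 ≤ V + m ∧
      (n : ℝ) * (D₀ * (N + Real.log (V + m)) / m) ≤ 1 / 2 ∧
      D₀ * (N + Real.log (V + m)) / m * kk ≤ L ∧
      A * (kk + (n * L : ℕ)) * (V + 1) * (R' / R₂) ^ (kk - js) ≤ 1 / 16 ∧
      A * (V + 1) * Real.exp (-(L : ℝ)) ≤ 1 / 16

/-- **LocW** (from `Aw.S_Phi`, `S_PsW`, `S_Inj`, `S_Near`, `S_Far`, `S_PhiL`, `S_NumL`): a large `U` gives a zero near height `t`.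

Proof.  `A` from `S_PsW`, `D₀` from `S_Near` for `A`, `D₁` from `S_NumL`, `D₂` from `S_PhiL` (`r = R₁`); `D = D₁ + 4 e² D₂ + 1`.
`S`, `b` from `S_PsW` for `t`.  The points `phi h a + t I`, `a ∈ S`, are different zeros of `G` in `win σ₁ h t` (`S_Inj`), so
`S.card ≤ N` (`Finset.card_image_of_injOn`).  `S_Near` (with `R = R₂`), `η = D₀ (N + log(V+m))/m` (monotone in `S.card`): `exp(-η) ≤ q ‖a‖`.
If all `a ∈ S` had `‖1 + (q a)⁻¹‖ ≥ 4 e²/n` then `S_Far` with `δ = A (kk + n L) (V+1) (R'/R₂)^(kk-js)`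
(`A k (V+1) (1/R₂)^k ≤ δ q^k` because `1/(q R₂) ≤ R'/R₂ < 1` and `k ≥ kk - js`) and `∑ b ≤ A (V+1)` would give
`‖cmb‖ ≤ 1/16 + 1/16 < 1/4`.  So some `a ∈ S` has `‖a + 1/q‖ = ‖a‖ ‖1 + (q a)⁻¹‖ < 4 e²/n`, and `ρ = phi h a + t I`. -/
def S_LocW : Prop :=
  ∀ (h σ₁ b r₀ R R' R₂ R₁ C : ℝ) (A' : ℕ), 0 < h → 0 ≤ C → Radii h σ₁ b r₀ R R' R₂ R₁ → 1 ≤ A' →
    ∃ D : ℝ, 1 ≤ D ∧ ∀ (c : ℕ → ℂ) (G : ℂ → ℂ) (t V lam q : ℝ) (m N kk n L js : ℕ),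
      Coefs c C → 1 ≤ V → DifferentiableOn ℂ G (win σ₁ h t) →
      (∀ s ∈ win σ₁ h t, ‖G s‖ ≤ Real.exp V) →
      (∀ s ∈ win σ₁ h t, 3 ≤ s.re → G s = Complex.exp (Aw.dir c s)) →
      1 ≤ N → (∀ Z : Finset ℂ, (∀ ρ ∈ Z, ρ ∈ win σ₁ h t ∧ G ρ = 0) → Z.card ≤ N) →
      1 / R' ≤ q → lam ≤ V + m → (∀ k : ℕ, m ≤ k → k ≤ 4 * m → ‖eW h c k t‖ ≤ lam * q ^ k) →
      D * (N + Real.log (V + m)) ≤ L → 2 * (n * L) ≤ m → 1 ≤ n →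
      js < n * L → m ≤ kk → kk ≤ A' * m →
      1 / 4 ≤ ‖cmb (Tk.al n L) (n * L) kk js q (fun k => eW h c k t)‖ →
      ∃ ρ ∈ win σ₁ h t, G ρ = 0 ∧ |ρ.im - t| ≤ D / n

end MP7ed9c3.Tp
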