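import Pool.Agent.Lib.MP_7ed9c3_nt.Tp.SpecB
import Pool.Agent.Lib.MP_7ed9c3_nt.Tp.KerP

/-!
# MP_7ed9c3_nt, part Tp: the detector with the kernel of many scales (statements for `DetL`)
-/

set_option autoImplicit false

namespace MP7ed9c3.Tp

open MeasureTheory Metric MP7ed9c3.Aw

/-- The power of the kernel at the scale `m`. -/
def bbL (Sf m : ℕ) : ℕ := (m - 2) / (2 * ((Sf + 3) * 2 ^ (Sf + 2)))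

/-- The number of coefficients. -/
def DL (Sf m : ℕ) : ℕ := bbL Sf m * ((Sf + 3) * 2 ^ (Sf + 2)) + 1

/-- The coefficients. -/
noncomputable def alL (Sf m : ℕ) : ℕ → ℝ := fun j => ((ksP (Sf + 2)) ^ (bbL Sf m)).coeff j

/-- **KrnL**: `alL` is a kernel. -/
def S_KrnL : Prop :=
  ∀ Sf m : ℕ, 2 ≤ m → ∃ js : ℕ, Krn (alL Sf m) (DL Sf m) js ∧ 2 * DL Sf m ≤ m

/-- **LocT**: one `t`. -/
def S_LocT : Prop :=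
  ∀ (h σ₁ b r₀ R R' R₂ R₁ C : ℝ) (A' : ℕ), 0 < h → 0 ≤ C → Radii h σ₁ b r₀ R R' R₂ R₁ → 16 ≤ A' →
    ∃ D : ℝ, 1 ≤ D ∧ ∀ (c : ℕ → ℂ) (G : ℂ → ℂ) (t V q df kap nu : ℝ) (m kk js Sf : ℕ),
      Coefs c C → 1 ≤ V → DifferentiableOn ℂ G (win σ₁ h t) →
      (∀ s ∈ win σ₁ h t, ‖G s‖ ≤ Real.exp V) →
      (∀ s ∈ win σ₁ h t, 3 ≤ s.re → G s = Complex.exp (Aw.dir c s)) →
      1 / R' ≤ q → (∀ k : ℕ, m ≤ k → k ≤ A' * m → ‖eW h c k t‖ ≤ (V + m) * q ^ k) →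
      2 ≤ m → m ≤ kk → kk ≤ A' * m → js < DL Sf m → 2 * DL Sf m ≤ m →
      0 < df → df ≤ 1 → 2 ≤ 2 ^ Sf * df → (2 : ℝ) ^ Sf * df ≤ 4 → 0 < kap → 12 * nu ≤ kap →
      kap * (D * (Sf + 3)) ≤ 1 → D * Real.log (V + m) ≤ kap * m * df →
      (∀ del : ℝ, df ≤ del → del ≤ 5 → ∀ Z : Finset ℂ,
        (∀ ρ ∈ Z, ρ ∈ win σ₁ h t ∧ G ρ = 0 ∧ |ρ.im - t| ≤ D * (6 * del)) →
        (Z.card : ℝ) ≤ nu * m * del) →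
      1 / 4 ≤ ‖cmb (alL Sf m) (DL Sf m) kk js q (fun k => eW h c k t)‖ →
      ∃ ρ ∈ win σ₁ h t, G ρ = 0 ∧ |ρ.im - t| ≤ D * df

end MP7ed9c3.Tp
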