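import Pool.Agent.Lib.MP_7ed9c3_nt.Tp.SpecB
import Pool.Agent.Lib.MP_7ed9c3_nt.Tp.SpecG
import Pool.Agent.Lib.MP_7ed9c3_nt.Tp.KerP

/-!
# MP_7ed9c3_nt, part Tp: the detector with the product kernel, `quo = N (log V + loglog T)` (statements)

Kernel at the scale `m`: `ks (Sf+2)^b * pm n^L`, `Sf` depends on `m`, `n` and `L` do not.  Lemma LT (`Tp/LT.lean`) gives
`|w_j| ≤ exp(kap max(d_j, df))`, `d_j = |1 - w_j|`, with `kap m df = A Lg`.  The zeros with `d_j ≥ df` are killed by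
`ks^b`, those with `15/n ≤ d_j < df` by `pm n^L`.  The count is `cntV` (`Tp/CntV.lean`).

Module `Tp/Name.lean` with `theorem tName : S_Name` (the statements after the word from are hypotheses, in this order).
-/

set_option autoImplicit false

namespace MP7ed9c3.Tp

open MeasureTheory Metric MP7ed9c3.Aw

/-- The power of the kernel of many scales at the scale `m`. -/
def bbM (Sf m : ℕ) : ℕ := m / (4 * ((Sf + 3) * 2 ^ (Sf + 2)))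

/-- The number of coefficients. -/
def DM (Sf n L m : ℕ) : ℕ := bbM Sf m * ((Sf + 3) * 2 ^ (Sf + 2)) + n * L + 1

/-- The kernel. -/
noncomputable def plM (Sf n L m : ℕ) : Polynomial ℝ := ksP (Sf + 2) ^ bbM Sf m * pmP n ^ L

/-- The coefficients. -/
noncomputable def alM (Sf n L m : ℕ) : ℕ → ℝ := fun j => (plM Sf n L m).coeff j

/-- **KrnM**: `alM` is a kernel, and its values.

Proof.  `coeff_mul_nonneg`, `ksP_nonneg`, `coeff_pow_nonneg`, `pmP_nonneg`; `ksP_one`, `pmP_one`; `ksP_deg`, `pmP_deg`; `max_coeff`.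
`2 b (Sf+3) 2^(Sf+2) ≤ m/2`, `2 n L ≤ m/4`, `2 ≤ m/4`. -/
def S_KrnM : Prop :=
  ∀ Sf n L m : ℕ, 1 ≤ n → 8 ≤ m → 8 * (n * L) ≤ m →
    (∃ js : ℕ, Krn (alM Sf n L m) (DM Sf n L m) js) ∧ 2 * DM Sf n L m ≤ m ∧
    ∀ w : ℂ, ∑ j ∈ Finset.range (DM Sf n L m), (alM Sf n L m j : ℂ) * w ^ j =
      ks (Sf + 2) w ^ bbM Sf m * pm n w ^ L

/-- **DtM**: detection, finite families.

Proof.  Suppose `‖1 - w j‖ ≥ 15/n` for all `j ∈ J`.  Let `d = ‖1 - w j‖ ≤ 5`, `X = (Sf+3) 2^(Sf+2)`, `b = bbM Sf m`.  `d ≥ df`: `‖w j‖ ≤ exp(kap d)`, by `ks_farE`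
(`2^(Sf+2) d ≥ 8 ≥ 2e`) `‖w^k ks^b pm^L‖ ≤ exp(kap d (k + n L + b X) - b 2^(Sf+2) d/(4e))` (`‖pm n w‖ ≤ exp(n kap d)`, `pm_le`); `b ≥ m/(8X)`
(`m ≥ 4X` as `2^Sf ≤ 4/df` and `64 (Sf+3) ≤ m df`), so this is at most `exp(-m d/(64 e (Sf+3))) ≤ 1/(8B)`.  `15/n ≤ d < df`: `‖w j‖ ≤ exp(kap df)`,
`‖ks‖^b ≤ exp(b X kap df)` (`pm_le`), `‖pm n w‖ ≤ exp(n kap df) 2/(n d) ≤ exp(n kap df) e^(-2)` (`pm_le'`, `15 ≥ 2 e²`):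
`≤ exp((A+1) kap m df - 2L) ≤ exp(-L) ≤ 1/(8B)`.  So the sum is at most `1/8`. -/
def S_DtM : Prop :=
  ∀ (ι : Type) (J : Finset ι) (w : ι → ℂ) (wt : ι → ℕ) (kap df A B : ℝ) (k m Sf n L : ℕ),
    ((∑ j ∈ J, wt j : ℕ) : ℝ) ≤ B → 0 < B → (∀ j ∈ J, ‖w j‖ ≤ 4) →
    0 < df → 2 ≤ 2 ^ Sf * df → (2 : ℝ) ^ Sf * df ≤ 4 → 0 ≤ kap → 1 ≤ A →
    kap * (200 * (A + 1) * (Sf + 3)) ≤ 1 → 64 * ((Sf : ℝ) + 3) ≤ m * df →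
    200 * ((Sf : ℝ) + 3) * Real.log (8 * B) ≤ m * df → (k : ℝ) ≤ A * m → 1 ≤ n →
    8 * (n * L) ≤ m → (A + 1) * (kap * m * df) ≤ L → Real.log (8 * B) ≤ L →
    (∀ j ∈ J, ‖w j‖ ≤ Real.exp (kap * max ‖1 - w j‖ df)) →
    3 / 16 ≤ ‖∑ j ∈ J, (wt j : ℂ) * (w j ^ k * (ks (Sf + 2) (w j) ^ bbM Sf m * pm n (w j) ^ L))‖ →
    ∃ j ∈ J, ‖1 - w j‖ < 15 / n

/-- **NumM**: numbers.

Proof.  `K₁ = 8A`, `C₀ = 256 A⁴ + 192 A C`, `x = m/Lg ≥ C₀`, `l = 1 + log x`, `kap = 1/(K₁ l)`, `df = A Lg/(kap m) = A K₁ l/x`, `nu = kap/12`.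
`l ≤ 2 √x` (`log √x ≤ √x - 1`), so `df ≤ 2 A K₁/√x ≤ 1`.  `Sf` least with `2 ≤ 2^Sf df` (`Nat.find`), so `2^Sf df ≤ 4` (`Sf ≥ 1` as `df ≤ 1`), `2^Sf ≤ 4/df ≤ x`,
`Sf log 2 ≤ log x`, `Sf + 3 ≤ 3 l`, `kap A (Sf+3) ≤ 3/8`.  `l ≤ 1 + log m ≤ 2 Lg`, so `12 K₁ C N l ≤ 24 K₁ C N Lg ≤ m`. -/
def S_NumM : Prop :=
  ∀ A C : ℝ, 1 ≤ A → 1 ≤ C → ∃ C₀ : ℝ, 1 ≤ C₀ ∧ ∀ (Lg : ℝ) (m N : ℕ), 1 ≤ Lg → 1 ≤ N →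
    Real.log m ≤ Lg → C₀ * (N * Lg) ≤ m →
    ∃ (df kap nu : ℝ) (Sf : ℕ), 0 < df ∧ df ≤ 1 ∧ 2 ≤ 2 ^ Sf * df ∧ (2 : ℝ) ^ Sf * df ≤ 4 ∧
      0 < kap ∧ kap * (A * (Sf + 3)) ≤ 1 ∧ 12 * nu ≤ kap ∧ kap * m * df = A * Lg ∧
      C * N ≤ nu * m

/-- **LocM** (from `S_AbsW`, Lemma LT `tLT`, `tRq`, `S_KrnM`, `S_DtM`): one `t`; as `S_LocT` (`Tp/SpecL.lean`) with the kernel `alM`.

Proof.  As `Tp/LocT.lean`.  `S_AbsW` gives `S`, `β`, the nodes `nd q a` (`‖nd q a‖ ≤ 4` by `tRq`).  LT with `Λ`, `log(Λ + ∑β) ≤ C log(V+m)`.  `D` large: `log(V+m) ≥ log 9 ≥ 2`,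
`m df ≥ D² (Sf+3) log(V+m)` (from the two conditions for `kap`), `L ≥ D² log(V+m)`.  Kernel: `S_KrnM` (value), error of `S_AbsW` `≤ 1/16` (`kk - js ≥ m/2`), so
`3/16 ≤ ‖∑ β nd^(kk-js) K(nd)‖`, `S_DtM` with `k = kk - js ≤ A' m`: some `‖1 - nd q a‖ < 15/n`, `|Im| ≤ D₀ · 15/n ≤ D/n`. -/
def S_LocM : Prop :=
  ∀ (h σ₁ b r₀ R R' R₂ R₁ C : ℝ) (A' : ℕ), 0 < h → 0 ≤ C → Radii h σ₁ b r₀ R R' R₂ R₁ → 16 ≤ A' →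
    ∃ D : ℝ, 1 ≤ D ∧ ∀ (c : ℕ → ℂ) (G : ℂ → ℂ) (t V q df kap nu : ℝ) (m kk js Sf n L : ℕ),
      Coefs c C → 1 ≤ V → DifferentiableOn ℂ G (win σ₁ h t) →
      (∀ s ∈ win σ₁ h t, ‖G s‖ ≤ Real.exp V) →
      (∀ s ∈ win σ₁ h t, 3 ≤ s.re → G s = Complex.exp (Aw.dir c s)) →
      1 / R' ≤ q → (∀ k : ℕ, m ≤ k → k ≤ A' * m → ‖eW h c k t‖ ≤ (V + m) * q ^ k) →
      8 ≤ m → m ≤ kk → kk ≤ A' * m → 1 ≤ n → 8 * (n * L) ≤ m → js < DM Sf n L m →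
      0 < df → df ≤ 1 → 2 ≤ 2 ^ Sf * df → (2 : ℝ) ^ Sf * df ≤ 4 → 0 < kap → 12 * nu ≤ kap →
      kap * (D * (Sf + 3)) ≤ 1 → D * Real.log (V + m) ≤ kap * m * df →
      D * (kap * m * df) ≤ L →
      (∀ del : ℝ, df ≤ del → del ≤ 5 → ∀ Z : Finset ℂ,
        (∀ ρ ∈ Z, ρ ∈ win σ₁ h t ∧ G ρ = 0 ∧ |ρ.im - t| ≤ D * (6 * del)) →
        (Z.card : ℝ) ≤ nu * m * del) →
      1 / 4 ≤ ‖cmb (alM Sf n L m) (DM Sf n L m) kk js q (fun k => eW h c k t)‖ →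
      ∃ ρ ∈ win σ₁ h t, G ρ = 0 ∧ |ρ.im - t| ≤ D / n

/-- **DetM** (from `S_LocM`, `S_KrnM`, `S_NumM`): the detector with `quo = N (log V + loglog T)`.

Proof.  As `Tp/DetL.lean`.  `Lg = log V + loglog T ≥ 1` (`V ≥ 3`, `T ≥ 3`... take `C₃ ≥ 16`).  `D` from `S_LocM`, `K = 20/h`, `A = 2D`, `C = max 1 (6 D K)`, `C₀` from `S_NumM`.
`L = ⌈D A Lg⌉₊ ≤ 3 D² Lg`, `n = m₀/(8L)`, `δ = D/n`.  `n ≥ m₀/(8L) - 1 ≥ C₃ N/(24 D²) - 1 ≥ N (4D/h) ≥ ..` and `n ≥ 1` if `C₃ ≥ C₀ + 24 D² (4D/h + 2) + 16`.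
For `m₀ ≤ m ≤ log T`: `log m ≤ loglog T ≤ Lg`, `C₀ N Lg ≤ m`: `df`, `kap`, `nu`, `Sf` from `S_NumM` (choice, functions of `m`); `8 n L ≤ m₀ ≤ m`, `8 ≤ m`; `js m` from `S_KrnM`.
`Q` from `cntV` for `Z₁` = the finite set of all zeros of `G` in `win σ₁ (2h) t₁`, `γ ρ = ρ.im`, `10/K = h/2`: for `t ∉ Q` `#{|ρ.im - t| ≤ y} ≤ K N y` for all `y > 0`; `y = 6 D del`:
`≤ 6 D K N del ≤ nu m del`.  `log(V+m) ≤ log V + log(1 + log T) ≤ 2 Lg`, so `D log(V+m) ≤ A Lg = kap m df`; `D kap m df = D A Lg ≤ L`. -/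
def S_DetM : Prop :=
  DetZ (fun V T N => N * (Real.log V + Real.log (Real.log T)))

end MP7ed9c3.Tp
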