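import Pool.Agent.Lib.MP_7ed9c3_nt.Tp.SpecB
import Pool.Agent.Lib.MP_7ed9c3_nt.Tp.KerP

/-!
# MP_7ed9c3_nt, part Tp: the detector with `quo = N (log V + loglog T)` (statements; note 5551 of helper59)

The kernel at the scale `m`: `ks S ^ b₁ * pm (2^S) ^ b₂`, `S = Sf + 2`.
-/

set_option autoImplicit false

namespace MP7ed9c3.Tp

open MeasureTheory Metric MP7ed9c3.Aw

/-- The first power of the kernel at the scale `m`. -/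
def b1X (Sf m : ℕ) : ℕ := m / (8 * ((Sf + 3) * 2 ^ (Sf + 2)))

/-- The second power of the kernel at the scale `m`. -/
def b2X (Sf m : ℕ) : ℕ := m / (8 * 2 ^ (Sf + 2))

/-- The number of coefficients. -/
def DX (Sf m : ℕ) : ℕ := b1X Sf m * ((Sf + 3) * 2 ^ (Sf + 2)) + b2X Sf m * 2 ^ (Sf + 2) + 1

/-- The coefficients. -/
noncomputable def alX (Sf m : ℕ) : ℕ → ℝ := fun j =>
  ((ksP (Sf + 2)) ^ (b1X Sf m) * (pmP (2 ^ (Sf + 2))) ^ (b2X Sf m)).coeff j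

/-- **KrnX**: `alX` is a kernel. -/
def S_KrnX : Prop :=
  ∀ Sf m : ℕ, 4 ≤ m → ∃ js : ℕ, Krn (alX Sf m) (DX Sf m) js ∧ 2 * DX Sf m ≤ m

/-- **EvX**: the value of the kernel. -/
def S_EvX : Prop :=
  ∀ (Sf m : ℕ) (w : ℂ), ∑ j ∈ Finset.range (DX Sf m), (alX Sf m j : ℂ) * w ^ j =
    ks (Sf + 2) w ^ (b1X Sf m) * pm (2 ^ (Sf + 2)) w ^ (b2X Sf m)

/-- **LT2** (helper59): as `S_LT`, with an additive constant `θ df` in the exponent. -/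
def S_LT2 : Prop := ∀ (ι : Type) (J : Finset ι) (w : ι → ℂ) (b : ι → ℕ) (m Sf : ℕ) (Λ df κ ν θ : ℝ),
  (∀ j ∈ J, ‖w j‖ ≤ 4) → (∀ j ∈ J, 1 ≤ b j) →
  (∀ k : ℕ, m ≤ k → k ≤ 16 * m → ‖∑ j ∈ J, (b j : ℂ) * w j ^ k‖ ≤ Λ) →
  0 < df → df ≤ 5 → 2 ≤ 2 ^ Sf * df → 0 < κ → κ * (120 * (Sf + 1)) ≤ 1 → 12 * ν ≤ κ →
  0 < θ → θ ≤ 1 / 15 →
  (∀ δ : ℝ, df ≤ δ → δ ≤ 5 → ∀ J' : Finset ι, J' ⊆ J → (∀ j ∈ J', ‖1 - w j‖ < 6 * δ) →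
    (J'.card : ℝ) ≤ ν * m * δ) →
  6 + Real.log (Λ + ∑ j ∈ J, (b j : ℝ)) ≤ θ * m * df → 30 * ((Sf : ℝ) + 1) ≤ m * df →
  ∀ j ∈ J, ‖w j‖ ≤ Real.exp (κ * max ‖1 - w j‖ df + θ * df)

/-- **DetKX**: detection with this kernel.  For `df ≤ ‖1 - w‖ ≤ 5` (so `2^(Sf+2) ‖1 - w‖ ≥ 8`):
`|ks| ≤ exp((Sf+3) 2^(Sf+2) η - 2^(Sf+2) ‖1-w‖/12)` (`ks_far`), `|pm| ≤ exp(2^(Sf+2) η)/4` (`pm_le'`), `η = κ ‖1-w‖ + θ df`, `k + b₁ (Sf+3) 2^(Sf+2) + b₂ 2^(Sf+2) ≤ (A+1) m`,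
`b₁ 2^(Sf+2) ≥ m/(16 (Sf+3))`, `b₂ ≥ m df/256`; the term is at most `exp(-b₂/2)` times the weight. -/
def S_DetKX : Prop := ∀ A : ℝ, 1 ≤ A → ∃ θ : ℝ, 0 < θ ∧ θ ≤ 1 / 15 ∧
  ∀ (ι : Type) (J : Finset ι) (w : ι → ℂ) (wt : ι → ℕ) (κ df B : ℝ) (k m Sf : ℕ),
  ((∑ j ∈ J, wt j : ℕ) : ℝ) ≤ B → 1 ≤ B → (∀ j ∈ J, ‖w j‖ ≤ 4) →
  0 < df → df ≤ 1 → 2 ≤ 2 ^ Sf * df → (2 : ℝ) ^ Sf * df ≤ 4 → 0 < κ →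
  κ * (200 * (A + 1) * (Sf + 3)) ≤ 1 → 512 * ((Sf : ℝ) + 3) ≤ m * df →
  1024 * Real.log (8 * B) ≤ m * df → (k : ℝ) ≤ A * m →
  (∀ j ∈ J, ‖w j‖ ≤ Real.exp (κ * max ‖1 - w j‖ df + θ * df)) →
  3 / 16 ≤ ‖∑ j ∈ J, (wt j : ℂ) *
    (w j ^ k * (ks (Sf + 2) (w j) ^ (b1X Sf m) * pm (2 ^ (Sf + 2)) (w j) ^ (b2X Sf m)))‖ →
  ∃ j ∈ J, ‖1 - w j‖ < df

/-- **LocX**: one `t` (from `S_AbsW`, `S_LT2`, `S_DetKX`, `S_EvX`, `tRq`). -/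
def S_LocX : Prop :=
  ∀ (h σ₁ b r₀ R R' R₂ R₁ C : ℝ) (A' : ℕ), 0 < h → 0 ≤ C → Radii h σ₁ b r₀ R R' R₂ R₁ → 16 ≤ A' →
    ∃ D : ℝ, 1 ≤ D ∧ ∀ (c : ℕ → ℂ) (G : ℂ → ℂ) (t V q df kap nu : ℝ) (m kk js Sf : ℕ),
      Coefs c C → 1 ≤ V → DifferentiableOn ℂ G (win σ₁ h t) →
      (∀ s ∈ win σ₁ h t, ‖G s‖ ≤ Real.exp V) →
      (∀ s ∈ win σ₁ h t, 3 ≤ s.re → G s = Complex.exp (Aw.dir c s)) →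
      1 / R' ≤ q → (∀ k : ℕ, m ≤ k → k ≤ A' * m → ‖eW h c k t‖ ≤ (V + m) * q ^ k) →
      4 ≤ m → m ≤ kk → kk ≤ A' * m → js < DX Sf m → 2 * DX Sf m ≤ m →
      0 < df → df ≤ 1 → 2 ≤ 2 ^ Sf * df → (2 : ℝ) ^ Sf * df ≤ 4 → 0 < kap → 12 * nu ≤ kap →
      kap * (D * (Sf + 3)) ≤ 1 → D * (Real.log (V + m) + Sf + 1) ≤ m * df →
      (∀ del : ℝ, df ≤ del → del ≤ 5 → ∀ Z : Finset ℂ,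
        (∀ ρ ∈ Z, ρ ∈ win σ₁ h t ∧ G ρ = 0 ∧ |ρ.im - t| ≤ D * (6 * del)) →
        (Z.card : ℝ) ≤ nu * m * del) →
      1 / 4 ≤ ‖cmb (alX Sf m) (DX Sf m) kk js q (fun k => eW h c k t)‖ →
      ∃ ρ ∈ win σ₁ h t, G ρ = 0 ∧ |ρ.im - t| ≤ D * df

/-- **DetX** (from `S_LocX`, `S_KrnX`). -/
def S_DetX : Prop := DetZ (fun V T N => N * (Real.log V + Real.log (Real.log T)))

end MP7ed9c3.Tp
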