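import Pool.Agent.Lib.MP_7ed9c3_nt.Tp.TuranW

/-!
# Turan's power sum theorem with weights, for a finite family with at most `M` members

Some exponent `q`, `M + 1 ≤ q ≤ 2M`, works for every family with at most `M` members (padding by `0`).
-/

set_option autoImplicit false

namespace MP7ed9c3.TuranW

open Finset

def S_TurP : Prop := ∀ (ι : Type) (J : Finset ι) (w : ι → ℂ) (b : ι → ℕ) (M : ℕ) (ρ : ℝ), 0 < ρ →
  J.card ≤ M → (∀ j ∈ J, ‖w j‖ ≤ ρ) → (∃ j ∈ J, ‖w j‖ = ρ ∧ 1 ≤ b j) →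
  ∃ q : ℕ, M + 1 ≤ q ∧ q ≤ 2 * M ∧ ρ ^ q ≤ (200 : ℝ) ^ M * ‖∑ j ∈ J, (b j : ℂ) * w j ^ q‖

theorem turP (h : S_Tur) : S_TurP := by
  classical
  intro ι J w b M ρ hρ hM hw hex
  obtain ⟨j₀, hj₀, hj₀', hb₀⟩ := hex
  obtain ⟨f⟩ : Nonempty (J ↪ Fin M) :=
    Function.Embedding.nonempty_of_card_le (by simpa using hM)
  set w' : Fin M → ℂ := fun i => if h : ∃ j : J, f j = i then w (h.choose : ι) / ρ else 0 with hw'
  set b' : Fin M → ℕ := fun i => if h : ∃ j : J, f j = i then b (h.choose : ι) else 0 with hb'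
  have hc : ∀ j : J, ∀ h : ∃ j' : J, f j' = f j, h.choose = j := fun j h =>
    f.injective h.choose_spec
  have hwf : ∀ j : J, w' (f j) = w (j : ι) / ρ := by
    intro j
    have hx : ∃ j' : J, f j' = f j := ⟨j, rfl⟩
    rw [hw']
    simp only
    rw [dif_pos hx, hc j hx]
  have hbf : ∀ j : J, b' (f j) = b (j : ι) := by
    intro j
    have hx : ∃ j' : J, f j' = f j := ⟨j, rfl⟩
    rw [hb']
    simp only
    rw [dif_pos hx, hc j hx]
  have hn : ∀ z : ℂ, ‖z / (ρ : ℂ)‖ = ‖z‖ / ρ := fun z => by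
    rw [norm_div, Complex.norm_real, Real.norm_of_nonneg hρ.le]
  obtain ⟨q, hq1, hq2, hq⟩ := h M w' b' (by
      intro i
      by_cases hi : ∃ j : J, f j = i
      · obtain ⟨j, rfl⟩ := hi
        rw [hwf, hn]
        exact (div_le_one hρ).2 (hw _ j.2)
      · rw [hw']
        simp only
        rw [dif_neg hi, norm_zero]
        exact zero_le_one)
    ⟨f ⟨j₀, hj₀⟩, by rw [hwf, hn, hj₀', div_self hρ.ne'], by rw [hbf]; exact hb₀⟩
  refine ⟨q, hq1, hq2, ?_⟩
  have hq0 : q ≠ 0 := by omega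
  have h1 : ∑ i, (b' i : ℂ) * w' i ^ q = ∑ j ∈ J, (b j : ℂ) * w j ^ q / (ρ : ℂ) ^ q := by
    have h2 : ∑ i ∈ univ.map f, (b' i : ℂ) * w' i ^ q = ∑ i, (b' i : ℂ) * w' i ^ q := by
      refine sum_subset (subset_univ _) fun i _ hi => ?_
      have hi' : ¬ ∃ j : J, f j = i := by
        rintro ⟨j, hj⟩
        exact hi (mem_map.2 ⟨j, mem_univ _, hj⟩)
      rw [hw']
      simp only
      rw [dif_neg hi', zero_pow hq0, mul_zero]
    rw [← h2, sum_map, ← sum_coe_sort J]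
    refine sum_congr rfl fun j _ => ?_
    rw [hwf, hbf, div_pow, mul_div_assoc]
  rw [h1, ← sum_div, norm_div, norm_pow, Complex.norm_real, Real.norm_of_nonneg hρ.le,
    mul_div_assoc', le_div_iff₀ (by positivity), one_mul] at hq
  exact hq

end MP7ed9c3.TuranW
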