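import Pool.Agent.Lib.MP_7ed9c3_nt.Tp.SpecK

/-!
# MP_7ed9c3_nt, part Tp, module UDir (helper40): the combination as a Dirichlet sum
-/

set_option autoImplicit false

namespace MP7ed9c3.Tp

open MeasureTheory Metric MP7ed9c3.Aw

/-- the real sum -/
private noncomputable def UDir_s (h : ℝ) (al : ℕ → ℝ) (D kk js : ℕ) (q : ℝ) (m : ℕ) : ℝ :=
  ∑ j ∈ Finset.range D, al j * (q⁻¹) ^ (kk - js + j) * ((kk - js + j : ℕ) : ℝ) *
    ‖gT h (kk - js + j) m‖

private theorem UDir_eq (h1 : S_Pos) {h : ℝ} (hh : 0 < h) (c : ℕ → ℂ) (al : ℕ → ℝ)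
    (D kk js : ℕ) (q : ℝ) {m : ℕ} (hm : 1 ≤ m) :
    uW h c al D kk js q m = c m * ((UDir_s h al D kk js q m : ℝ) : ℂ) := by
  unfold uW cmb UDir_s vW
  rw [Complex.ofReal_sum, Finset.mul_sum]
  refine Finset.sum_congr rfl fun j _ => ?_
  have h2 := h1 h (kk - js + j) m hh hm
  have h3 : (-(q : ℂ)⁻¹) ^ (kk - js + j) = (-1 : ℂ) ^ (kk - js + j) * (q : ℂ)⁻¹ ^ (kk - js + j) :=
    neg_pow _ _
  push_cast
  push_cast at h2
  rw [← h2, h3]
  ring

private theorem UDir_nonneg {h : ℝ} {al : ℕ → ℝ} (D kk js : ℕ) {q : ℝ} (m : ℕ)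
    (hal : ∀ j, 0 ≤ al j) (hq : 0 < q) : 0 ≤ UDir_s h al D kk js q m := by
  unfold UDir_s
  refine Finset.sum_nonneg fun j _ => ?_
  have := hal j
  positivity

theorem tUDir (h1 : S_Pos) (h2 : Aw.S_GUp) : S_UDir := by
  intro h σ₁ b r₀ R R' R₂ R₁ C hh hC hrad c al q D kk js hc hq hal hsum hjs hjk
  have hr0 := hrad.r₀pos
  have hR : 0 < R' := by linarith [hrad.lt1, hrad.lt2]
  have hR2 : 0 < R₂ := by linarith [hrad.lt3]
  have hR21 : R₂ < 1 := by linarith [hrad.lt4, hrad.lt5]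
  have hqpos : 0 < q := lt_of_lt_of_le (by positivity) hq
  have hqinv : q⁻¹ ≤ R' := by
    rw [one_div] at hq
    exact (inv_le_comm₀ hR hqpos).1 hq
  have hnorm : ∀ m : ℕ, 1 ≤ m →
      ‖uW h c al D kk js q m‖ = ‖c m‖ * UDir_s h al D kk js q m := by
    intro m hm
    rw [UDir_eq h1 hh c al D kk js q hm, norm_mul, Complex.norm_real,
      Real.norm_of_nonneg (UDir_nonneg D kk js m hal hqpos)]
  refine ⟨?_, ?_, ?_⟩
  · intro M₀ M₁ t
    unfold cmb aW uW cmb
    simp only [Finset.mul_sum, Finset.sum_mul]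
    rw [Finset.sum_comm]
    refine Finset.sum_congr rfl fun m _ => Finset.sum_congr rfl fun j _ => ?_
    ring
  · intro M₀ M₁
    unfold nW
    rw [Finset.mul_sum, Finset.mul_sum]
    refine Finset.sum_le_sum fun m hm => ?_
    have hm1 : 1 ≤ m := by
      have := (Finset.mem_Ioc.1 hm).1
      omega
    rw [← mul_pow, ← mul_pow]
    have h3 : al js * kk * ‖vW h c kk m‖ ≤ q ^ kk * ‖uW h c al D kk js q m‖ := by
      rw [hnorm m hm1]
      have h4 : al js * (q⁻¹) ^ kk * (kk : ℝ) * ‖gT h kk m‖ ≤ UDir_s h al D kk js q m := by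
        have h5 : kk - js + js = kk := Nat.sub_add_cancel hjk
        have h6 := Finset.single_le_sum (s := Finset.range D) (f := fun j =>
          al j * (q⁻¹) ^ (kk - js + j) * ((kk - js + j : ℕ) : ℝ) * ‖gT h (kk - js + j) m‖)
          (fun j _ => by
            have := hal j
            positivity) (Finset.mem_range.2 hjs)
        simp only [h5] at h6
        exact h6
      have h7 : q ^ kk * (q⁻¹) ^ kk = 1 := by
        rw [← mul_pow, mul_inv_cancel₀ hqpos.ne', one_pow]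
      unfold vW
      rw [norm_mul]
      calc al js * kk * (‖c m‖ * ‖gT h kk m‖) =
            (q ^ kk * (q⁻¹) ^ kk) * (al js * kk * (‖c m‖ * ‖gT h kk m‖)) := by
              rw [h7, one_mul]
        _ = q ^ kk * (‖c m‖ * (al js * (q⁻¹) ^ kk * (kk : ℝ) * ‖gT h kk m‖)) := by ring
        _ ≤ q ^ kk * (‖c m‖ * UDir_s h al D kk js q m) :=
            mul_le_mul_of_nonneg_left (mul_le_mul_of_nonneg_left h4 (norm_nonneg _))
              (by positivity)
    exact pow_le_pow_left₀ (mul_nonneg (mul_nonneg (hal js) (Nat.cast_nonneg _))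
      (norm_nonneg _)) h3 2
  · intro m hm
    rw [hnorm m hm]
    have hm0 : (0 : ℝ) < m := by exact_mod_cast hm
    have hm1 : (1 : ℝ) ≤ m := by exact_mod_cast hm
    have hrat0 : 0 ≤ R' / R₂ := by positivity
    have hrat1 : R' / R₂ ≤ 1 := (div_le_one hR2).2 hrad.lt3.le
    have hterm : ∀ j ∈ Finset.range D, al j * (q⁻¹) ^ (kk - js + j) *
        ((kk - js + j : ℕ) : ℝ) * ‖gT h (kk - js + j) m‖ ≤
        al j * ((kk + D) * (R' / R₂) ^ (kk - js) * (√m)⁻¹) := by
      intro j hj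
      have hjD := Finset.mem_range.1 hj
      obtain ⟨k, hk⟩ : ∃ k, k = kk - js + j := ⟨_, rfl⟩
      rw [← hk]
      have h3 := h2 h R₂ k m hh hR2 hR21 hm
      have h4 : (m : ℝ) ^ (-ell h R₂) ≤ (√m)⁻¹ := by
        have h5 : (√m)⁻¹ = (m : ℝ) ^ (-(1 / 2 : ℝ)) := by
          rw [Real.rpow_neg hm0.le, Real.sqrt_eq_rpow]
        rw [h5]
        exact Real.rpow_le_rpow_of_exponent_le hm1 (by linarith [hrad.e3])
      have h6 : ‖gT h k m‖ ≤ (√m)⁻¹ / R₂ ^ k :=
        h3.trans (div_le_div_of_nonneg_right h4 (by positivity))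
      have h7 : (q⁻¹) ^ k ≤ R' ^ k := pow_le_pow_left₀ (by positivity) hqinv k
      have h8 : (k : ℝ) ≤ kk + D := by
        have : k ≤ kk + D := by omega
        exact_mod_cast this
      have h9 : (R' / R₂) ^ k ≤ (R' / R₂) ^ (kk - js) :=
        pow_le_pow_of_le_one hrat0 hrat1 (by omega)
      have h10 : (q⁻¹) ^ k * (k : ℝ) * ‖gT h k m‖ ≤
          (kk + D) * (R' / R₂) ^ (kk - js) * (√m)⁻¹ := by
        calc (q⁻¹) ^ k * (k : ℝ) * ‖gT h k m‖ ≤ R' ^ k * (kk + D) * ((√m)⁻¹ / R₂ ^ k) :=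
              mul_le_mul (mul_le_mul h7 h8 (by positivity) (by positivity)) h6
                (norm_nonneg _) (by positivity)
          _ = (kk + D) * (R' / R₂) ^ k * (√m)⁻¹ := by
              rw [div_pow]
              ring
          _ ≤ (kk + D) * (R' / R₂) ^ (kk - js) * (√m)⁻¹ :=
              mul_le_mul_of_nonneg_right (mul_le_mul_of_nonneg_left h9 (by positivity))
                (by positivity)
      calc al j * (q⁻¹) ^ k * (k : ℝ) * ‖gT h k m‖ =
            al j * ((q⁻¹) ^ k * (k : ℝ) * ‖gT h k m‖) := by ring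
        _ ≤ _ := mul_le_mul_of_nonneg_left h10 (hal j)
    have hs : UDir_s h al D kk js q m ≤ (kk + D) * (R' / R₂) ^ (kk - js) * (√m)⁻¹ := by
      unfold UDir_s
      refine (Finset.sum_le_sum hterm).trans ?_
      rw [← Finset.sum_mul, hsum, one_mul]
    have hsq : √(m : ℝ) * (√m)⁻¹ = 1 := mul_inv_cancel₀ (Real.sqrt_pos.2 hm0).ne'
    calc ‖c m‖ * UDir_s h al D kk js q m ≤
          (C * √m) * ((kk + D) * (R' / R₂) ^ (kk - js) * (√m)⁻¹) :=
            mul_le_mul (hc.2 m) hs (UDir_nonneg D kk js m hal hqpos) (by positivity)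
      _ = C * (kk + D) * (R' / R₂) ^ (kk - js) * (√(m : ℝ) * (√m)⁻¹) := by ring
      _ = C * (kk + D) * (R' / R₂) ^ (kk - js) := by rw [hsq, mul_one]

end MP7ed9c3.Tp
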